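import Pool.Agent.N802.U.Use
import Pool.Agent.N802.Phase2

/-! # Resonators with a different accuracy for every prime -/

open Complex Filter Topology Set MeasureTheory
open scoped BigOperators ComplexConjugate

namespace Pool.Agent.N802.U

open H370 TC

namespace Boxaux

lemma prod_poly (D : ℕ → ℕ) (b : ℕ → ℕ → ℂ) (P : Finset ℕ) (hP : ∀ p ∈ P, p.Prime) :
    ∃ (S : Finset ℕ) (r : ℕ → ℂ),
      (∀ k ∈ S, 1 ≤ k ∧ k ≤ ∏ p ∈ P, p ^ D p ∧ ∀ p : ℕ, p.Prime → p ∣ k → p ∈ P) ∧
      (∀ t : ℝ, RP S r t = ∏ p ∈ P, fac (D p) (b p) p t) ∧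
      w1 S r = ∏ p ∈ P, ∑ a ∈ Finset.range (D p + 1), ‖b p a‖ ^ 2 := by
  classical
  induction P using Finset.induction_on with
  | empty =>
    refine ⟨{1}, fun _ => 1, ?_, ?_, ?_⟩
    · intro k hk
      rw [Finset.mem_singleton] at hk
      subst hk
      refine ⟨le_refl _, by simp, fun p hp hpk => ?_⟩
      exact absurd (Nat.dvd_one.1 hpk) hp.one_lt.ne'
    · intro t
      simp [RP, TP, mn]
    · simp [w1]
  | insert q P hq ih =>
    obtain ⟨S, r, hS, hR, hw⟩ := ih fun p hp => hP p (Finset.mem_insert_of_mem hp)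
    have hqp : q.Prime := hP q (Finset.mem_insert_self _ _)
    have hqk : ∀ k ∈ S, ¬ q ∣ k := fun k hk h => hq ((hS k hk).2.2 q hqp h)
    have hfac : ∀ k ∈ S, ∀ a : ℕ, (k * q ^ a).factorization q = a := by
      intro k hk a
      have hk0 : k ≠ 0 := by have := (hS k hk).1; omega
      rw [Nat.factorization_mul hk0 (pow_ne_zero _ hqp.ne_zero), Finsupp.add_apply,
        Nat.factorization_eq_zero_of_not_dvd (hqk k hk), hqp.factorization_pow]
      simp
    have hinj : Set.InjOn (fun x : ℕ × ℕ => x.1 * q ^ x.2)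
        (S ×ˢ Finset.range (D q + 1) : Finset (ℕ × ℕ)) := by
      rintro ⟨k, a⟩ h1 ⟨k', a'⟩ h2 h
      simp only [Finset.coe_product, Set.mem_prod, Finset.mem_coe] at h1 h2
      simp only at h
      have e1 := hfac k h1.1 a
      have e2 := hfac k' h2.1 a'
      rw [h, e2] at e1
      subst e1
      have := Nat.eq_of_mul_eq_mul_right (pow_pos hqp.pos a') h
      rw [this]
    set r' : ℕ → ℂ := fun n => r (n / q ^ (n.factorization q)) * b q (n.factorization q) with hr'
    have hrr : ∀ k ∈ S, ∀ a : ℕ, r' (k * q ^ a) = r k * b q a := by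
      intro k hk a
      rw [hr']
      simp only
      rw [hfac k hk a, Nat.mul_div_cancel _ (pow_pos hqp.pos a)]
    refine ⟨(S ×ˢ Finset.range (D q + 1)).image (fun x => x.1 * q ^ x.2), r', ?_, ?_, ?_⟩
    · intro n hn
      rw [Finset.mem_image] at hn
      obtain ⟨⟨k, a⟩, h1, rfl⟩ := hn
      rw [Finset.mem_product, Finset.mem_range] at h1
      obtain ⟨h1, h2⟩ := h1
      obtain ⟨h3, h4, h5⟩ := hS k h1
      simp only at h1 h2 h3 h4 h5 ⊢
      refine ⟨?_, ?_, ?_⟩
      · exact Nat.one_le_iff_ne_zero.2 (mul_ne_zero (by omega) (pow_ne_zero _ hqp.ne_zero))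
      · rw [Finset.prod_insert hq, mul_comm]
        exact Nat.mul_le_mul (Nat.pow_le_pow_right hqp.pos (by omega)) h4
      · intro p hp hpk
        rw [hp.dvd_mul] at hpk
        rcases hpk with h | h
        · exact Finset.mem_insert_of_mem (h5 p hp h)
        · rw [(Nat.prime_dvd_prime_iff_eq hp hqp).1 (hp.dvd_of_dvd_pow h)]
          exact Finset.mem_insert_self _ _
    · intro t
      rw [Finset.prod_insert hq, ← hR t]
      unfold RP TP fac
      rw [Finset.sum_image hinj, Finset.sum_product, Finset.sum_mul_sum, Finset.sum_comm]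
      apply Finset.sum_congr rfl
      intro a _
      apply Finset.sum_congr rfl
      intro k hk
      simp only
      rw [hrr k hk a]
      have hk0 : 0 < k := (hS k hk).1
      have h := mn_mul (a := k) (b := 1) (a' := q ^ a) (b' := 1) hk0 one_pos
        (pow_pos hqp.pos a) one_pos t
      rw [mul_one] at h
      rw [← h]
      ring
    · rw [Finset.prod_insert hq, ← hw]
      unfold w1
      rw [Finset.sum_image hinj, Finset.sum_product, Finset.sum_mul_sum, Finset.sum_comm]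
      apply Finset.sum_congr rfl
      intro a _
      apply Finset.sum_congr rfl
      intro k hk
      simp only
      rw [hrr k hk a, norm_mul, mul_pow, mul_comm]

/-- `R` is the product of the factors `((1 + e ^ (i θ_p) p ^ (- i t)) / 2) ^ (D p)` -/
structure Res (P : Finset ℕ) (D : ℕ → ℕ) (θ : ℕ → ℝ) (S : Finset ℕ) (r : ℕ → ℂ) : Prop where
  sm : ∀ k ∈ S, 1 ≤ k ∧ k ≤ ∏ p ∈ P, p ^ D p ∧ ∀ p : ℕ, p.Prime → p ∣ k → p ∈ P
  R : ∀ t : ℝ, RP S r t = ∏ p ∈ P, fac (D p) (bc (D p) (θ p)) p t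
  w : w1 S r = ∏ p ∈ P, ∑ a ∈ Finset.range (D p + 1), ‖bc (D p) (θ p) a‖ ^ 2

lemma res_ex {P : Finset ℕ} (D : ℕ → ℕ) (θ : ℕ → ℝ) (hP : ∀ p ∈ P, p.Prime) :
    ∃ (S : Finset ℕ) (r : ℕ → ℂ), Res P D θ S r := by
  obtain ⟨S, r, h1, h2, h3⟩ := prod_poly D (fun p => bc (D p) (θ p)) P hP
  exact ⟨S, r, h1, h2, h3⟩

variable {P : Finset ℕ} {D : ℕ → ℕ} {θ : ℕ → ℝ} {S S' : Finset ℕ} {r r' : ℕ → ℂ}

lemma Res.le_one (h : Res P D θ S r) (hP : ∀ p ∈ P, p.Prime) (t : ℝ) : ‖RP S r t‖ ^ 2 ≤ 1 := by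
  rw [h.R]
  apply pow_le_one₀ (norm_nonneg _)
  rw [norm_prod]
  apply Finset.prod_le_one (fun _ _ => norm_nonneg _)
  intro p hp
  exact fac_le (D p) θ (hP p hp).pos t

lemma Res.w_ge (h : Res P D θ S r) :
    Real.exp (-∑ p ∈ P, Real.log ((D p : ℝ) + 1)) ≤ w1 S r := by
  rw [h.w, ← Finset.sum_neg_distrib, Real.exp_sum]
  apply Finset.prod_le_prod (fun _ _ => (Real.exp_pos _).le)
  intro p _
  have hD : (0 : ℝ) < D p + 1 := by positivity
  rw [Real.exp_neg, Real.exp_log hD, ← one_div]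
  exact bc_sum (D p) (θ p)

lemma Res.smo (h : Res P D θ S r) {K Y : ℝ} (hP : ∀ p ∈ P, p.Prime)
    (hK : Real.exp (∑ p ∈ P, (D p : ℝ) * Real.log p) ≤ K)
    (hY : ∀ p ∈ P, (p : ℝ) ≤ Y) : Smo S K Y := by
  intro k hk
  obtain ⟨h1, h2, h3⟩ := h.sm k hk
  refine ⟨h1, ?_, fun p hp hpk => hY p (h3 p hp hpk)⟩
  refine le_trans ?_ hK
  have h4 : (k : ℝ) ≤ ((∏ p ∈ P, p ^ D p : ℕ) : ℝ) := by exact_mod_cast h2
  refine h4.trans ?_
  rw [Real.exp_sum]
  push_cast
  apply Finset.prod_le_prod (fun _ _ => by positivity)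
  intro p hp
  have hp0 : (0 : ℝ) < p := by exact_mod_cast (hP p hp).pos
  rw [Real.exp_nat_mul, Real.exp_log hp0]

lemma Res.erase_w (h : Res P D θ S r) {q : ℕ} (hq : q ∈ P) (h' : Res (P.erase q) D θ S' r') :
    w1 S' r' ≤ ((D q : ℝ) + 1) * w1 S r := by
  have hD : (0 : ℝ) < D q + 1 := by positivity
  have h3 : w1 S r = (∑ a ∈ Finset.range (D q + 1), ‖bc (D q) (θ q) a‖ ^ 2) * w1 S' r' := by
    rw [h.w, h'.w]
    exact (Finset.mul_prod_erase P
      (fun p => ∑ a ∈ Finset.range (D p + 1), ‖bc (D p) (θ p) a‖ ^ 2) hq).symm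
  rw [h3, ← mul_assoc]
  have h4 : 1 ≤ ((D q : ℝ) + 1) * ∑ a ∈ Finset.range (D q + 1), ‖bc (D q) (θ q) a‖ ^ 2 := by
    have := bc_sum (D q) (θ q)
    rw [div_le_iff₀ hD] at this
    linarith
  exact le_mul_of_one_le_left (w1_nonneg _ _) h4

lemma Res.bad_le (h : Res P D θ S r) (hP : ∀ p ∈ P, p.Prime) {q : ℕ} (hq : q ∈ P)
    (h' : Res (P.erase q) D θ S' r') {a : ℝ} (ha : 0 ≤ a) {t : ℝ}
    (hb : a < ‖cexp (I * θ q) * mn q 1 t - 1‖) :
    ‖RP S r t‖ ^ 2 ≤ Real.exp (-(a ^ 2 / 4 * (D q : ℝ))) * ‖RP S' r' t‖ ^ 2 := by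
  have h1 : RP S r t = fac (D q) (bc (D q) (θ q)) q t * RP S' r' t := by
    rw [h.R, h'.R]
    exact (Finset.mul_prod_erase P (fun p => fac (D p) (bc (D p) (θ p)) p t) hq).symm
  rw [h1, norm_mul, mul_pow]
  exact mul_le_mul_of_nonneg_right (fac_bad ha (D q) θ (hP q hq).pos hb) (sq_nonneg _)

/-- the number of the simple critical zeros near `t` is at most `C log T` -/
lemma x1_le_Zg {F : ℂ → ℂ} {U1 U2 h : ℝ} (hh : h ≤ 1) (t : ℝ) :
    x1 F U1 U2 h t ≤ Real.exp (1 / 2) * Zg F U1 U2 t := by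
  classical
  rw [x1_eq]
  unfold Zg
  rw [Finset.mul_sum]
  refine le_trans ?_ (Finset.sum_le_sum_of_subset_of_nonneg
    (Finset.filter_subset (fun s => s.re = 1 / 2 ∧ mult F s = 1) (Zf F U1 U2))
    (fun s _ _ => by positivity))
  apply Finset.sum_le_sum
  intro s hs
  rw [Finset.mem_filter] at hs
  rw [hs.2.2]
  split_ifs with h1
  · have h2 : (s.im - t) ^ 2 ≤ 1 := by
      have h3 := abs_le.1 (h1.trans hh)
      nlinarith [h3.1, h3.2]
    have h3 : (1 : ℝ) = Real.exp (1 / 2) * Real.exp (-(1 / 2)) := by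
      rw [← Real.exp_add]; norm_num
    have h4 : Real.exp (-(1 / 2)) ≤ Real.exp (-(s.im - t) ^ 2 / 2) := by
      apply Real.exp_le_exp.2
      linarith
    calc (1 : ℝ) = Real.exp (1 / 2) * Real.exp (-(1 / 2)) := h3
      _ ≤ Real.exp (1 / 2) * Real.exp (-(s.im - t) ^ 2 / 2) :=
          mul_le_mul_of_nonneg_left h4 (Real.exp_pos _).le
      _ = _ := by push_cast; ring
  · positivity

open Classical in
/-- the zeros at the good points -/
noncomputable def GG (F : ℂ → ℂ) (U1 U2 : ℝ) (Q : ℂ → Prop) : Finset ℂ :=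
  (Zf F U1 U2).filter (fun s => (s.re = 1 / 2 ∧ mult F s = 1) ∧ Q s)

/-- the main inequality -/
lemma main {F : ℂ → ℂ} {U1 U2 T h X M : ℝ} (hT : 0 ≤ T) (hh0 : 0 ≤ h)
    (hTL : 0 < T / Real.log T)
    (hX : ∀ t, x1 F U1 U2 h t ≤ X) (hX0 : 0 ≤ X)
    (hres : Res P D θ S r) (hP : ∀ p ∈ P, p.Prime) (acc : ℕ → ℝ) (hacc : ∀ p ∈ P, 0 ≤ acc p)
    (Q : ℂ → Prop)
    (hQ : ∀ t : ℝ, (∀ q ∈ P, ‖cexp (I * θ q) * mn q 1 t - 1‖ ≤ acc q) → ∀ s : ℂ,
      |s.im - t| ≤ h → Q s)
    (hmass : ∀ q ∈ P, ∀ (S' : Finset ℕ) (r' : ℕ → ℂ), Res (P.erase q) D θ S' r' →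
      ∫ t : ℝ, rho T S' r' t ≤ 2 * nr T S' r')
    (hM : ∑ q ∈ P, Real.exp (-(acc q ^ 2 / 4 * (D q : ℝ))) * ((D q : ℝ) + 1) ≤ M) :
    ∫ t in (5 / 4 * T)..(7 / 4 * T), rho T S r t * x1 F U1 U2 h t ≤
      2 * h * ((GG F U1 U2 Q).card : ℝ) + 2 * X * M * nr T S r := by
  classical
  have hab : 5 / 4 * T ≤ 7 / 4 * T := by linarith
  have hex : ∀ q : ℕ, ∃ (S' : Finset ℕ) (r' : ℕ → ℂ), Res (P.erase q) D θ S' r' := fun q =>
    res_ex D θ fun p hp => hP p (Finset.mem_of_mem_erase hp)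
  choose S' r' hres' using hex
  set G : ℝ → ℝ := fun t => ∑ s ∈ GG F U1 U2 Q, (if |s.im - t| ≤ h then 1 else 0) with hG
  have hcont := rho_cont T S r
  have hGint : IntervalIntegrable (fun t => rho T S r t * G t) volume (5 / 4 * T) (7 / 4 * T) := by
    have h1 := IntervalIntegrable.sum (μ := volume) (a := 5 / 4 * T) (b := 7 / 4 * T)
      (GG F U1 U2 Q)
      (f := fun s t => rho T S r t * (if |s.im - t| ≤ h then 1 else 0))
      (fun s _ => ind_int hcont s.im h 1 _ _)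
    have e : (fun t => rho T S r t * G t) = ∑ s ∈ GG F U1 U2 Q,
        fun t => rho T S r t * (if |s.im - t| ≤ h then 1 else 0) := by
      funext t
      rw [hG]
      simp only
      rw [Finset.mul_sum, Finset.sum_apply]
    rw [e]
    exact h1
  set K : ℕ → ℝ := fun q => Real.exp (-(acc q ^ 2 / 4 * (D q : ℝ))) with hK
  have hK0 : ∀ q, 0 ≤ K q := fun q => (Real.exp_pos _).le
  have hBint : IntervalIntegrable (fun t => ∑ q ∈ P, K q * X * rho T (S' q) (r' q) t) volume
      (5 / 4 * T) (7 / 4 * T) := by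
    apply Continuous.intervalIntegrable
    exact continuous_finsetSum _ fun q _ => continuous_const.mul (rho_cont T (S' q) (r' q))
  have hx0 : ∀ t, 0 ≤ x1 F U1 U2 h t := fun t => by unfold x1; positivity
  have hG0 : ∀ t, 0 ≤ G t := fun t => by
    rw [hG]
    exact Finset.sum_nonneg fun s _ => by split_ifs <;> norm_num
  have hpt : ∀ t : ℝ, rho T S r t * x1 F U1 U2 h t ≤
      rho T S r t * G t + ∑ q ∈ P, K q * X * rho T (S' q) (r' q) t := by
    intro t
    have hs0 : ∀ q ∈ P, 0 ≤ K q * X * rho T (S' q) (r' q) t := fun q _ =>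
      mul_nonneg (mul_nonneg (hK0 q) hX0) (rho_nonneg _ _ _ _)
    by_cases hb : ∀ q ∈ P, ‖cexp (I * θ q) * mn q 1 t - 1‖ ≤ acc q
    · have h1 : x1 F U1 U2 h t ≤ G t := by
        rw [x1_eq, hG]
        simp only
        have h2 : ∀ s ∈ (Zf F U1 U2).filter (fun s => s.re = 1 / 2 ∧ mult F s = 1),
            s ∉ GG F U1 U2 Q → (if |s.im - t| ≤ h then (1 : ℝ) else 0) = 0 := by
          intro s hs hn
          rw [if_neg]
          intro h3
          apply hn
          unfold GG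
          rw [Finset.mem_filter] at hs ⊢
          exact ⟨hs.1, hs.2, hQ t hb s h3⟩
        have h3 : GG F U1 U2 Q ⊆ (Zf F U1 U2).filter (fun s => s.re = 1 / 2 ∧ mult F s = 1) := by
          intro s hs
          unfold GG at hs
          rw [Finset.mem_filter] at hs ⊢
          exact ⟨hs.1, hs.2.1⟩
        exact (Finset.sum_subset h3 h2).ge
      have h2 := mul_le_mul_of_nonneg_left h1 (rho_nonneg T S r t)
      have h3 := Finset.sum_nonneg hs0
      linarith
    · push Not at hb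
      obtain ⟨q, hq, hb⟩ := hb
      have h1 := hres.bad_le hP hq (hres' q) (hacc q hq) hb
      have h2 : rho T S r t ≤ K q * rho T (S' q) (r' q) t := by
        unfold rho
        have h3 := mul_le_mul_of_nonneg_left h1 (om_pos (3 / 2 * T) (T / Real.log T) t).le
        calc _ ≤ _ := h3
          _ = _ := by rw [hK]; ring
      have h3 : rho T S r t * x1 F U1 U2 h t ≤ K q * X * rho T (S' q) (r' q) t := by
        calc rho T S r t * x1 F U1 U2 h t ≤ (K q * rho T (S' q) (r' q) t) * X :=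
              mul_le_mul h2 (hX t) (hx0 t) (mul_nonneg (hK0 q) (rho_nonneg _ _ _ _))
          _ = _ := by ring
      have h4 := Finset.single_le_sum hs0 hq
      have h5 := mul_nonneg (rho_nonneg T S r t) (hG0 t)
      linarith
  have h1 : ∫ t in (5 / 4 * T)..(7 / 4 * T), rho T S r t * x1 F U1 U2 h t ≤
      ∫ t in (5 / 4 * T)..(7 / 4 * T),
        (rho T S r t * G t + ∑ q ∈ P, K q * X * rho T (S' q) (r' q) t) :=
    intervalIntegral.integral_mono_on hab (x1_int hcont h _ _) (hGint.add hBint)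
      fun t _ => hpt t
  rw [intervalIntegral.integral_add hGint hBint] at h1
  -- the good part
  have hrho1 : ∀ t, rho T S r t ≤ 1 := by
    intro t
    unfold rho
    have h2 := om_le_one (3 / 2 * T) (T / Real.log T) t
    have h3 := hres.le_one hP t
    calc _ ≤ (1 : ℝ) * 1 := mul_le_mul h2 h3 (sq_nonneg _) zero_le_one
      _ = 1 := one_mul 1
  have h2 : ∫ t in (5 / 4 * T)..(7 / 4 * T), rho T S r t * G t ≤
      2 * h * ((GG F U1 U2 Q).card : ℝ) := by
    rw [hG]
    simp_rw [Finset.mul_sum]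
    rw [intervalIntegral.integral_finsetSum (fun s _ => ind_int hcont _ _ _ _ _)]
    calc ∑ s ∈ GG F U1 U2 Q, ∫ t in (5 / 4 * T)..(7 / 4 * T), rho T S r t *
          (if |s.im - t| ≤ h then 1 else 0) ≤ ∑ s ∈ GG F U1 U2 Q, 1 * 1 * (2 * h) :=
          Finset.sum_le_sum fun s _ =>
            ind_bound hcont (rho_nonneg T S r) hrho1 zero_le_one hh0 hab
      _ = _ := by
          rw [Finset.sum_const, nsmul_eq_mul]
          ring
  -- the bad part
  have h3 : ∫ t in (5 / 4 * T)..(7 / 4 * T), ∑ q ∈ P, K q * X * rho T (S' q) (r' q) t ≤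
      2 * X * M * nr T S r := by
    have hii : ∀ q ∈ P, IntervalIntegrable (fun t => K q * X * rho T (S' q) (r' q) t) volume
        (5 / 4 * T) (7 / 4 * T) := fun q _ =>
      (continuous_const.mul (rho_cont T (S' q) (r' q))).intervalIntegrable _ _
    rw [intervalIntegral.integral_finsetSum hii]
    have h4 : ∀ q ∈ P, ∫ t in (5 / 4 * T)..(7 / 4 * T), K q * X * rho T (S' q) (r' q) t ≤
        (K q * ((D q : ℝ) + 1)) * (2 * X * nr T S r) := by
      intro q hq
      rw [intervalIntegral.integral_const_mul]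
      have h5 : ∫ t in (5 / 4 * T)..(7 / 4 * T), rho T (S' q) (r' q) t ≤
          ∫ t : ℝ, rho T (S' q) (r' q) t := by
        rw [intervalIntegral.integral_of_le hab]
        exact setIntegral_le_integral (rho_intg hTL _ _)
          (Eventually.of_forall fun t => rho_nonneg _ _ _ _)
      have h6 := hmass q hq (S' q) (r' q) (hres' q)
      have h7 : nr T (S' q) (r' q) ≤ ((D q : ℝ) + 1) * nr T S r := by
        unfold nr
        have h8 := hres.erase_w hq (hres' q)
        have h9 : 0 ≤ Real.sqrt (2 * Real.pi) * (T / Real.log T) := by positivity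
        calc _ ≤ Real.sqrt (2 * Real.pi) * (T / Real.log T) * (((D q : ℝ) + 1) * w1 S r) :=
              mul_le_mul_of_nonneg_left h8 h9
          _ = _ := by ring
      have h10 : ∫ t in (5 / 4 * T)..(7 / 4 * T), rho T (S' q) (r' q) t ≤
          2 * (((D q : ℝ) + 1) * nr T S r) := by linarith
      calc _ ≤ K q * X * (2 * (((D q : ℝ) + 1) * nr T S r)) :=
            mul_le_mul_of_nonneg_left h10 (mul_nonneg (hK0 q) hX0)
        _ = _ := by ring
    refine (Finset.sum_le_sum h4).trans ?_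
    rw [← Finset.sum_mul]
    have hnr : 0 ≤ nr T S r := by
      unfold nr
      have := w1_nonneg S r
      positivity
    calc _ ≤ M * (2 * X * nr T S r) := mul_le_mul_of_nonneg_right hM (by positivity)
      _ = _ := by ring
  linarith

end Boxaux

end Pool.Agent.N802.U
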