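import Pool.Agent.N802.U.Kern
import Pool.Agent.Helper625.Planch

/-! # Square, Plancherel, smoothed density -/

open Complex Filter Topology Set MeasureTheory
open scoped BigOperators ComplexConjugate FourierTransform

namespace Pool.Agent.N802.U

theorem sq : S_sq := by
  intro b G g _ h
  obtain ⟨w, hw⟩ := Kernaux.BW_mul h h
  refine ⟨w, ?_⟩
  have e1 : b + b = 2 * b := by ring
  have e2 : (fun z => G z * G z) = fun z => G z ^ 2 := by
    funext z; ring
  rw [e1, e2] at hw
  exact hw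

namespace Algaux

lemma memLp2 {b : ℝ} {W : ℂ → ℂ} {w : ℝ → ℂ} (h : BW b W w) : MemLp w 2 := by
  obtain ⟨M, hM⟩ := h.bdd
  rw [memLp_two_iff_integrable_sq_norm h.meas.aestronglyMeasurable]
  have h1 := (Kernaux.integrable_w h).norm.const_mul M
  refine h1.mono' (h.meas.norm.pow_const 2).aestronglyMeasurable
    (Eventually.of_forall fun v => ?_)
  rw [Real.norm_of_nonneg (sq_nonneg _), pow_two]
  exact mul_le_mul_of_nonneg_right (hM v) (norm_nonneg _)

lemma W_eq {b : ℝ} {W : ℂ → ℂ} {w : ℝ → ℂ} (h : BW b W w) (x : ℝ) :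
    W x = 𝓕 w (-(2 * Real.pi)⁻¹ * x) := by
  rw [h.rep, Real.fourier_eq']
  apply integral_congr_ae
  refine Eventually.of_forall fun v => ?_
  simp only [smul_eq_mul]
  rw [mul_comm]
  congr 2
  have : (Real.pi : ℂ) ≠ 0 := by exact_mod_cast Real.pi_ne_zero
  simp only [RCLike.inner_apply, conj_trivial]
  push_cast
  field_simp

end Algaux

open Algaux in
theorem pl : S_pl := by
  intro b W w _ h
  obtain ⟨h1, h2⟩ := Pool.Agent.Helper625.Planch.plancherel w (Kernaux.integrable_w h) (memLp2 h)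
  have h3 : Integrable (fun ξ => ‖𝓕 w ξ‖ ^ 2) := by
    simpa using h1.integrable_norm_pow (by norm_num)
  have hπ := Real.pi_pos
  have hc : (-(2 * Real.pi)⁻¹ : ℝ) ≠ 0 := by
    have : (2 * Real.pi)⁻¹ ≠ 0 := by positivity
    exact neg_ne_zero.2 this
  have e : (fun x : ℝ => ‖W x‖ ^ 2) = fun x => (fun ξ => ‖𝓕 w ξ‖ ^ 2) (-(2 * Real.pi)⁻¹ * x) := by
    funext x
    simp only
    rw [W_eq h x]
  rw [e]
  refine ⟨h3.comp_mul_left' hc, ?_⟩
  rw [MeasureTheory.Measure.integral_comp_mul_left (fun ξ => ‖𝓕 w ξ‖ ^ 2), h2, smul_eq_mul]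
  unfold q2
  congr 1
  rw [inv_neg, inv_inv, abs_neg, abs_of_pos (by positivity)]

namespace Algaux

lemma gauss (s : ℝ) : ∫ y : ℝ, ((Real.exp (-y ^ 2 / 2) : ℝ) : ℂ) * cexp (I * s * y) =
    ((Real.sqrt (2 * Real.pi) * Real.exp (-s ^ 2 / 2) : ℝ) : ℂ) := by
  have h := fourierIntegral_gaussian (b := (1 / 2 : ℂ)) (by norm_num) (s : ℂ)
  have e : ∀ y : ℝ, ((Real.exp (-y ^ 2 / 2) : ℝ) : ℂ) * cexp (I * s * y) =
      cexp (I * s * y) * cexp (-(1 / 2 : ℂ) * (y : ℂ) ^ 2) := by
    intro y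
    rw [mul_comm]
    congr 1
    push_cast
    congr 1
    ring
  simp_rw [e]
  rw [h]
  have hπ := Real.pi_pos
  have e1 : ((Real.pi : ℂ) / (1 / 2)) ^ (1 / 2 : ℂ) = ((Real.sqrt (2 * Real.pi) : ℝ) : ℂ) := by
    rw [Real.sqrt_eq_rpow, Complex.ofReal_cpow (by positivity)]
    congr 1
    · push_cast; ring
    · push_cast; ring
  rw [e1]
  push_cast
  congr 2
  ring

end Algaux

open Algaux in
theorem gsq : S_gs := by
  intro b W w _ h x
  have hw := Kernaux.integrable_w h
  have hg : Integrable (fun y : ℝ => ((Real.exp (-y ^ 2 / 2) : ℝ) : ℂ)) := by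
    have := (integrable_exp_neg_mul_sq (b := 1 / 2) (by norm_num)).ofReal (𝕜 := ℂ)
    refine this.congr (Eventually.of_forall fun y => ?_)
    simp only
    congr 2
    ring
  -- the double integral
  have hint : Integrable (fun p : ℝ × ℝ => ((Real.exp (-p.1 ^ 2 / 2) : ℝ) : ℂ) *
      (cexp (I * x * p.1) * (w p.2 * cexp (I * p.2 * p.1)))) (volume.prod volume) := by
    have h1 := hg.mul_prod hw
    have h2 := h1.bdd_mul (c := 1) (f := fun p : ℝ × ℝ => cexp (I * x * p.1) * cexp (I * p.2 * p.1))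
      (by
        apply Continuous.aestronglyMeasurable
        fun_prop) (Eventually.of_forall fun p => by
        rw [norm_mul]
        have a1 : I * (x : ℂ) * (p.1 : ℂ) = ((x * p.1 : ℝ) : ℂ) * I := by push_cast; ring
        have a2 : I * (p.2 : ℂ) * (p.1 : ℂ) = ((p.2 * p.1 : ℝ) : ℂ) * I := by push_cast; ring
        rw [a1, a2, Complex.norm_exp_ofReal_mul_I, Complex.norm_exp_ofReal_mul_I]
        norm_num)
    refine h2.congr (Eventually.of_forall fun p => ?_)
    simp only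
    ring
  have e1 : ∫ y : ℝ, ((Real.exp (-y ^ 2 / 2) : ℝ) : ℂ) * (cexp (I * x * y) * W y) =
      ∫ y : ℝ, ∫ v : ℝ, ((Real.exp (-y ^ 2 / 2) : ℝ) : ℂ) *
        (cexp (I * x * y) * (w v * cexp (I * v * y))) := by
    apply integral_congr_ae
    refine Eventually.of_forall fun y => ?_
    simp only
    rw [h.rep, ← integral_const_mul, ← integral_const_mul]
  rw [e1, integral_integral_swap hint]
  have e2 : ∀ v : ℝ, ∫ y : ℝ, ((Real.exp (-y ^ 2 / 2) : ℝ) : ℂ) *
        (cexp (I * x * y) * (w v * cexp (I * v * y))) =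
      w v * ((Real.sqrt (2 * Real.pi) * Real.exp (-(x + v) ^ 2 / 2) : ℝ) : ℂ) := by
    intro v
    rw [← gauss (x + v), ← integral_const_mul]
    apply integral_congr_ae
    refine Eventually.of_forall fun y => ?_
    simp only
    have : cexp (I * ((x + v : ℝ) : ℂ) * y) = cexp (I * x * y) * cexp (I * v * y) := by
      rw [← Complex.exp_add]
      congr 1
      push_cast
      ring
    rw [this]
    ring
  simp_rw [e2]
  unfold gs
  have hπ := Real.pi_pos
  have e3 : ∀ v : ℝ, w v * ((Real.sqrt (2 * Real.pi) * Real.exp (-(x + v) ^ 2 / 2) : ℝ) : ℂ) =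
      (Real.sqrt (2 * Real.pi) : ℂ) * (w v * (Real.exp (-(x + v) ^ 2 / 2) : ℝ)) := by
    intro v
    push_cast
    ring
  simp_rw [e3]
  rw [integral_const_mul, ← mul_assoc]
  congr 1
  have hs : Real.sqrt (2 * Real.pi) * Real.sqrt (2 * Real.pi) = 2 * Real.pi :=
    Real.mul_self_sqrt (by positivity)
  have hs0 : Real.sqrt (2 * Real.pi) ≠ 0 := by positivity
  have : (1 / Real.sqrt (2 * Real.pi) : ℝ) = 1 / (2 * Real.pi) * Real.sqrt (2 * Real.pi) := by
    rw [div_mul_eq_mul_div, one_mul, div_eq_div_iff hs0 (by positivity), one_mul]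
    exact hs.symm
  rw [this]
  push_cast
  ring

end Pool.Agent.N802.U
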