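import Pool.Agent.N802.U.Stm

/-!
# The kernel: a power of the cardinal sine (leaf KERN of project U)
-/

open Complex Filter Topology Set MeasureTheory
open scoped BigOperators ComplexConjugate

namespace Pool.Agent.N802.U

namespace Kernaux

lemma norm_exp_le (v : ℝ) (z : ℂ) {b : ℝ} (hv : |v| ≤ b) :
    ‖cexp (I * v * z)‖ ≤ Real.exp (b * |z.im|) := by
  rw [Complex.norm_exp]
  apply Real.exp_le_exp.mpr
  have h : (I * v * z).re = -(v * z.im) := by
    simp [mul_re, mul_im]
  rw [h]
  calc -(v * z.im) ≤ |v * z.im| := neg_le_abs _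
    _ = |v| * |z.im| := abs_mul _ _
    _ ≤ b * |z.im| := mul_le_mul_of_nonneg_right hv (abs_nonneg _)

/-- integrability of the exponential integrand -/
lemma integrable_exp {b : ℝ} {W : ℂ → ℂ} {w : ℝ → ℂ} (h : BW b W w) (z : ℂ) :
    Integrable (fun v : ℝ => w v * cexp (I * v * z)) := by
  obtain ⟨M, hM⟩ := h.bdd
  have hM0 : 0 ≤ M := (norm_nonneg _).trans (hM 0)
  have hms : Measurable (fun v : ℝ => w v * cexp (I * v * z)) := by
    apply h.meas.mul
    fun_prop
  have hi : IntegrableOn (fun _ : ℝ => M * Real.exp (b * |z.im|)) (Icc (-b) b) := by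
    apply integrableOn_const
    · exact measure_Icc_lt_top.ne
    · exact enorm_ne_top
  have hi2 : Integrable ((Icc (-b) b).indicator (fun _ : ℝ => M * Real.exp (b * |z.im|))) :=
    hi.integrable_indicator measurableSet_Icc
  refine hi2.mono' hms.aestronglyMeasurable (Filter.Eventually.of_forall fun v => ?_)
  by_cases hv : |v| ≤ b
  · rw [indicator_of_mem (by rw [mem_Icc]; exact abs_le.mp hv), norm_mul]
    exact mul_le_mul (hM v) (norm_exp_le v z hv) (norm_nonneg _) hM0
  · have hz : w v = 0 := h.sup v (not_le.mp hv)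
    rw [hz]
    simp only [zero_mul, norm_zero]
    apply indicator_nonneg
    intro _ _
    positivity

lemma integrable_w {b : ℝ} {W : ℂ → ℂ} {w : ℝ → ℂ} (h : BW b W w) : Integrable w := by
  have := integrable_exp h 0
  simpa using this

/-- the product of two band-limited functions -/
lemma BW_mul {b1 b2 : ℝ} {W1 W2 : ℂ → ℂ} {w1 w2 : ℝ → ℂ} (h1 : BW b1 W1 w1) (h2 : BW b2 W2 w2) :
    ∃ w, BW (b1 + b2) (fun z => W1 z * W2 z) w := by
  refine ⟨fun v => ∫ t : ℝ, w1 t * w2 (v - t), ?_, ?_, ?_, ?_⟩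
  · have hm : StronglyMeasurable (fun p : ℝ × ℝ => w1 p.2 * w2 (p.1 - p.2)) := by
      apply Measurable.stronglyMeasurable
      exact (h1.meas.comp measurable_snd).mul (h2.meas.comp (measurable_fst.sub measurable_snd))
    exact (StronglyMeasurable.integral_prod_right hm).measurable
  · obtain ⟨M, hM⟩ := h2.bdd
    refine ⟨∫ t : ℝ, ‖w1 t‖ * M, fun v => ?_⟩
    refine norm_integral_le_of_norm_le ((integrable_w h1).norm.mul_const M)
      (Filter.Eventually.of_forall fun t => ?_)
    rw [norm_mul]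
    exact mul_le_mul_of_nonneg_left (hM _) (norm_nonneg _)
  · intro v hv
    have : (fun t : ℝ => w1 t * w2 (v - t)) = fun _ => 0 := by
      funext t
      by_cases ht : b1 < |t|
      · rw [h1.sup t ht, zero_mul]
      · have ht2 : b2 < |v - t| := by
          have h3 : |v| ≤ |v - t| + |t| := by
            calc |v| = |(v - t) + t| := by ring_nf
              _ ≤ _ := abs_add_le _ _
          linarith [not_lt.mp ht]
        rw [h2.sup _ ht2, mul_zero]
    rw [this, integral_zero]
  · intro z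
    have hc := integral_convolution (μ := (volume : Measure ℝ)) (ν := (volume : Measure ℝ))
      (ContinuousLinearMap.mul ℝ ℂ) (integrable_exp h1 z) (integrable_exp h2 z)
    simp only [ContinuousLinearMap.mul_apply', MeasureTheory.convolution] at hc
    rw [h1.rep z, h2.rep z, ← hc]
    congr 1
    funext v
    rw [← integral_mul_const]
    congr 1
    funext t
    have he : cexp (I * v * z) = cexp (I * t * z) * cexp (I * ((v - t : ℝ) : ℂ) * z) := by
      rw [← Complex.exp_add]
      congr 1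
      push_cast
      ring
    rw [he]
    ring

/-- the base function `sin (a z) / (a z)` -/
noncomputable def Sa (a : ℝ) (z : ℂ) : ℂ := (1 / (2 * a) : ℝ) * ∫ v in (-a)..a, cexp (I * v * z)

lemma BW_base {a : ℝ} (ha : 0 < a) :
    BW a (Sa a) ((Ioc (-a) a).indicator (fun _ => ((1 / (2 * a) : ℝ) : ℂ))) := by
  refine ⟨measurable_const.indicator measurableSet_Ioc, ⟨1 / (2 * a), fun v => ?_⟩, ?_, ?_⟩
  · refine (norm_indicator_le_norm_self _ _).trans ?_
    rw [Complex.norm_real, Real.norm_eq_abs, abs_of_pos (by positivity)]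
  · intro v hv
    apply indicator_of_notMem
    intro hmem
    exact absurd (abs_le.mpr ⟨hmem.1.le, hmem.2⟩) (not_le.mpr hv)
  · intro z
    unfold Sa
    rw [intervalIntegral.integral_of_le (by linarith), ← integral_const_mul,
      ← integral_indicator measurableSet_Ioc]
    congr 1
    funext v
    by_cases hv : v ∈ Ioc (-a) a
    · rw [indicator_of_mem hv, indicator_of_mem hv]
    · rw [indicator_of_notMem hv, indicator_of_notMem hv, zero_mul]

lemma BW_pow {a : ℝ} (ha : 0 < a) : ∀ k : ℕ, 1 ≤ k →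
    ∃ w, BW (k * a) (fun z => Sa a z ^ k) w := by
  intro k hk
  induction k, hk using Nat.le_induction with
  | base =>
    refine ⟨(Ioc (-a) a).indicator (fun _ => ((1 / (2 * a) : ℝ) : ℂ)), ?_⟩
    have h := BW_base ha
    have e1 : ((1 : ℕ) : ℝ) * a = a := by simp
    have e2 : (fun z => Sa a z ^ 1) = Sa a := by funext z; rw [pow_one]
    rw [e1, e2]
    exact h
  | succ k hk ih =>
    obtain ⟨w, hw⟩ := ih
    obtain ⟨w', hw'⟩ := BW_mul hw (BW_base ha)
    refine ⟨w', ?_⟩
    have e1 : ((k + 1 : ℕ) : ℝ) * a = k * a + a := by push_cast; ring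
    have e2 : (fun z => Sa a z ^ (k + 1)) = fun z => Sa a z ^ k * Sa a z := by
      funext z; rw [pow_succ]
    rw [e1, e2]
    exact hw'

lemma BW_smul {b : ℝ} {W : ℂ → ℂ} {w : ℝ → ℂ} (h : BW b W w) (c : ℂ) :
    BW b (fun z => c * W z) (fun v => c * w v) := by
  refine ⟨measurable_const.mul h.meas, ?_, fun v hv => by rw [h.sup v hv, mul_zero], fun z => ?_⟩
  · obtain ⟨M, hM⟩ := h.bdd
    exact ⟨‖c‖ * M, fun v => by rw [norm_mul]; exact mul_le_mul_of_nonneg_left (hM v) (norm_nonneg _)⟩
  · rw [h.rep z, ← integral_const_mul]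
    congr 1
    funext v
    ring

/-- the values on the real line -/
lemma Sa_real {a : ℝ} (ha : 0 < a) (x : ℝ) : Sa a x = (Real.sinc (a * x) : ℝ) := by
  unfold Sa
  by_cases hx : x = 0
  · subst hx
    simp only [ofReal_zero, mul_zero, Complex.exp_zero, intervalIntegral.integral_const,
      Real.sinc_zero]
    have : (a : ℂ) ≠ 0 := by exact_mod_cast ha.ne'
    simp
    field_simp
    ring
  · have h1 : ∫ v in (-a)..a, cexp (I * v * x) = (x⁻¹ : ℝ) • ∫ t in (-(a * x))..(a * x), cexp (t * I) := by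
      have h2 := intervalIntegral.integral_comp_mul_right (a := -a) (b := a)
        (fun t : ℝ => cexp (t * I)) hx
      rw [show -(a * x) = -a * x by ring, ← h2]
      congr 1
      funext v
      congr 1
      push_cast
      ring
    rw [h1, integral_exp_mul_I_eq_sinc, Complex.real_smul]
    have hac : (a : ℂ) ≠ 0 := by exact_mod_cast ha.ne'
    have hxc : (x : ℂ) ≠ 0 := by exact_mod_cast hx
    push_cast
    field_simp

lemma norm_Sa_le {a : ℝ} (ha : 0 < a) (z : ℂ) : ‖Sa a z‖ ≤ Real.exp (a * |z.im|) := by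
  unfold Sa
  rw [norm_mul, Complex.norm_real, Real.norm_eq_abs, abs_of_pos (by positivity)]
  have h : ‖∫ v in (-a)..a, cexp (I * v * z)‖ ≤ Real.exp (a * |z.im|) * |a - -a| := by
    apply intervalIntegral.norm_integral_le_of_norm_le_const
    intro v hv
    rw [uIoc_of_le (by linarith)] at hv
    exact norm_exp_le v z (abs_le.mpr ⟨hv.1.le, hv.2⟩)
  calc 1 / (2 * a) * ‖∫ v in (-a)..a, cexp (I * v * z)‖
      ≤ 1 / (2 * a) * (Real.exp (a * |z.im|) * |a - -a|) :=
        mul_le_mul_of_nonneg_left h (by positivity)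
    _ = Real.exp (a * |z.im|) := by
        rw [sub_neg_eq_add, abs_of_pos (show 0 < a + a by linarith)]
        field_simp
        ring

/-- bounds for the cardinal sine -/
lemma abs_sinc_le_inv {x : ℝ} (hx : x ≠ 0) : |Real.sinc x| ≤ |x|⁻¹ := by
  rw [Real.sinc_of_ne_zero hx, abs_div, div_eq_mul_inv]
  calc |Real.sin x| * |x|⁻¹ ≤ 1 * |x|⁻¹ :=
        mul_le_mul_of_nonneg_right (Real.abs_sin_le_one x) (by positivity)
    _ = |x|⁻¹ := one_mul _

lemma sinc_ge {x : ℝ} (hx : |x| ≤ 1) : 1 - x ^ 2 / 4 ≤ Real.sinc x := by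
  wlog h : 0 ≤ x with H
  · have := H (x := -x) (by rwa [abs_neg]) (by linarith [not_le.mp h])
    rw [Real.sinc_neg] at this
    simpa using this
  rcases h.eq_or_lt with h0 | h0
  · rw [← h0]; simp
  · rw [Real.sinc_of_ne_zero h0.ne', le_div_iff₀ h0]
    have h1 := Real.sin_gt_sub_cube h0
    have h2 : 0 < x ^ 3 := by positivity
    nlinarith

/-- the real function `sinc (a x) ^ (2 n)` -/
lemma f_nonneg (a : ℝ) (n : ℕ) (x : ℝ) : 0 ≤ Real.sinc (a * x) ^ (2 * n) := by
  rw [pow_mul]
  positivity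

lemma f_le_inv {a : ℝ} (ha : 0 < a) (n : ℕ) {x : ℝ} (hx : x ≠ 0) :
    Real.sinc (a * x) ^ (2 * n) ≤ (|x|⁻¹ / a) ^ (2 * n) := by
  have h1 : |Real.sinc (a * x)| ≤ |x|⁻¹ / a := by
    refine (abs_sinc_le_inv (mul_ne_zero ha.ne' hx)).trans (le_of_eq ?_)
    rw [abs_mul, abs_of_pos ha, mul_inv]
    ring
  calc Real.sinc (a * x) ^ (2 * n) = |Real.sinc (a * x)| ^ (2 * n) := by
        rw [pow_mul, pow_mul, sq_abs]
    _ ≤ _ := pow_le_pow_left₀ (abs_nonneg _) h1 _

lemma f_int {a : ℝ} (ha : 0 < a) {n : ℕ} (hn : 1 ≤ n) :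
    Integrable (fun x : ℝ => Real.sinc (a * x) ^ (2 * n)) := by
  have h1 : Integrable (fun x : ℝ => 2 * (1 + (a * x) ^ 2)⁻¹) :=
    ((integrable_inv_one_add_sq).comp_mul_left' ha.ne').const_mul 2
  have hc : Continuous (fun x : ℝ => Real.sinc (a * x) ^ (2 * n)) :=
    (Real.continuous_sinc.comp (continuous_const.mul continuous_id)).pow _
  refine h1.mono' hc.aestronglyMeasurable (Filter.Eventually.of_forall fun x => ?_)
  rw [Real.norm_eq_abs, abs_of_nonneg (f_nonneg a n x)]
  have h2 : Real.sinc (a * x) ^ (2 * n) ≤ Real.sinc (a * x) ^ 2 := by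
    rw [pow_mul]
    have h3 : Real.sinc (a * x) ^ 2 ≤ 1 := by
      rw [← sq_abs]
      have := Real.abs_sinc_le_one (a * x)
      exact pow_le_one₀ (abs_nonneg _) this
    calc (Real.sinc (a * x) ^ 2) ^ n ≤ (Real.sinc (a * x) ^ 2) ^ 1 :=
          pow_le_pow_of_le_one (sq_nonneg _) h3 hn
      _ = _ := pow_one _
  refine h2.trans ?_
  rw [← div_eq_mul_inv, le_div_iff₀ (by positivity)]
  have h3 : Real.sinc (a * x) ^ 2 ≤ 1 := by
    rw [← sq_abs]
    exact pow_le_one₀ (abs_nonneg _) (Real.abs_sinc_le_one (a * x))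
  have h4 : Real.sinc (a * x) ^ 2 * (a * x) ^ 2 ≤ 1 := by
    by_cases hx : a * x = 0
    · rw [hx]; simp
    · rw [Real.sinc_of_ne_zero hx, div_pow, div_mul_cancel₀ _ (pow_ne_zero 2 hx)]
      exact Real.sin_sq_le_one _
  nlinarith

lemma f_lower {a : ℝ} (ha : 0 < a) {n : ℕ} (hn : 1 ≤ n) :
    1 / (a * Real.sqrt n) ≤ ∫ x : ℝ, Real.sinc (a * x) ^ (2 * n) := by
  have hn0 : (0 : ℝ) < n := by exact_mod_cast hn
  have hs : 0 < Real.sqrt n := Real.sqrt_pos.mpr hn0
  set r : ℝ := 1 / (a * Real.sqrt n) with hr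
  have hr0 : 0 < r := by positivity
  have h1 : ∫ x in Icc (-r) r, Real.sinc (a * x) ^ (2 * n) ≤ ∫ x : ℝ, Real.sinc (a * x) ^ (2 * n) :=
    setIntegral_le_integral (f_int ha hn) (Filter.Eventually.of_forall fun x => f_nonneg a n x)
  have h2 : ∫ x in Icc (-r) r, (1 / 2 : ℝ) ≤ ∫ x in Icc (-r) r, Real.sinc (a * x) ^ (2 * n) := by
    apply setIntegral_mono_on
    · apply integrableOn_const
      · exact measure_Icc_lt_top.ne
      · exact enorm_ne_top
    · exact (f_int ha hn).integrableOn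
    · exact measurableSet_Icc
    · intro x hx
      have hax : |a * x| ≤ 1 / Real.sqrt n := by
        rw [abs_mul, abs_of_pos ha]
        have : |x| ≤ r := abs_le.mpr ⟨hx.1, hx.2⟩
        calc a * |x| ≤ a * r := mul_le_mul_of_nonneg_left this ha.le
          _ = 1 / Real.sqrt n := by rw [hr]; field_simp
      have hsq1 : 1 / Real.sqrt n ≤ 1 := by
        rw [div_le_one hs]
        exact Real.one_le_sqrt.mpr (by exact_mod_cast hn)
      have h3 : (a * x) ^ 2 ≤ 1 / n := by
        rw [← sq_abs]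
        calc |a * x| ^ 2 ≤ (1 / Real.sqrt n) ^ 2 := pow_le_pow_left₀ (abs_nonneg _) hax 2
          _ = 1 / n := by rw [div_pow, Real.sq_sqrt hn0.le, one_pow]
      have h4 : 1 - 1 / (4 * n) ≤ Real.sinc (a * x) := by
        refine le_trans ?_ (sinc_ge (hax.trans hsq1))
        have : (a * x) ^ 2 / 4 ≤ (1 / n) / 4 := by linarith
        have e : (1 : ℝ) / n / 4 = 1 / (4 * n) := by field_simp
        linarith
      have hinv : (1 : ℝ) / (4 * n) ≤ 1 / 4 := by
        apply one_div_le_one_div_of_le (by norm_num)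
        have : (1 : ℝ) ≤ n := by exact_mod_cast hn
        linarith
      have h5 : (1 - 1 / (4 * (n : ℝ))) ^ (2 * n) ≤ Real.sinc (a * x) ^ (2 * n) :=
        pow_le_pow_left₀ (by linarith) h4 _
      have h6 : 1 + ((2 * n : ℕ) : ℝ) * (-(1 / (4 * (n : ℝ)))) ≤ (1 + -(1 / (4 * (n : ℝ)))) ^ (2 * n) :=
        one_add_mul_le_pow (by linarith) _
      have h7 : 1 + ((2 * n : ℕ) : ℝ) * (-(1 / (4 * (n : ℝ)))) = 1 / 2 := by
        push_cast
        field_simp
        ring
      have h8 : (1 : ℝ) + -(1 / (4 * (n : ℝ))) = 1 - 1 / (4 * (n : ℝ)) := by ring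
      rw [h7, h8] at h6
      linarith
  have h3 : ∫ x in Icc (-r) r, (1 / 2 : ℝ) = r := by
    rw [setIntegral_const, Real.volume_real_Icc_of_le (by linarith), smul_eq_mul]
    ring
  linarith

lemma f_tail {a : ℝ} (ha : 0 < a) {n : ℕ} (hn : 1 ≤ n) {X : ℝ} (hX : 0 < X) :
    ∫ x in {x : ℝ | X ≤ |x|}, Real.sinc (a * x) ^ (2 * n) ≤
      2 / a * (1 / (a * X)) ^ (2 * n - 1) / (2 * n - 1) := by
  have hn1 : (1 : ℝ) ≤ n := by exact_mod_cast hn
  have hms : MeasurableSet {x : ℝ | X ≤ |x|} := measurableSet_le measurable_const measurable_abs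
  set g : ℝ → ℝ := (Ici X).indicator (fun x => (x⁻¹ / a) ^ (2 * n)) with hg
  have hIoi : IntegrableOn (fun x : ℝ => (x⁻¹ / a) ^ (2 * n)) (Ioi X) := by
    have h := (integrableOn_Ioi_rpow_of_lt (a := -((2 * n : ℕ) : ℝ)) (c := X)
      (by push_cast; linarith) hX).const_mul ((1 / a) ^ (2 * n))
    refine IntegrableOn.congr_fun h (fun x hx => ?_) measurableSet_Ioi
    have hx0 : 0 < x := hX.trans hx
    rw [Real.rpow_neg hx0.le, Real.rpow_natCast, div_pow, div_pow, inv_pow, one_pow]
    ring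
  have hIci : IntegrableOn (fun x : ℝ => (x⁻¹ / a) ^ (2 * n)) (Ici X) := by
    rw [integrableOn_Ici_iff_integrableOn_Ioi]
    exact hIoi
  have hval : ∫ x in Ioi X, (x⁻¹ / a) ^ (2 * n) =
      1 / a * (1 / (a * X)) ^ (2 * n - 1) / (2 * n - 1) := by
    have h1 : ∫ x in Ioi X, (x⁻¹ / a) ^ (2 * n) =
        ∫ x in Ioi X, (1 / a) ^ (2 * n) * x ^ (-((2 * n : ℕ) : ℝ)) := by
      apply setIntegral_congr_fun measurableSet_Ioi
      intro x hx
      have hx0 : 0 < x := hX.trans hx
      simp only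
      rw [Real.rpow_neg hx0.le, Real.rpow_natCast, div_pow, div_pow, inv_pow, one_pow]
      ring
    rw [h1, integral_const_mul, integral_Ioi_rpow_of_lt (by push_cast; linarith) hX]
    obtain ⟨m, rfl⟩ : ∃ m, n = m + 1 := ⟨n - 1, by omega⟩
    have e1 : 2 * (m + 1) - 1 = 2 * m + 1 := by omega
    have e2 : -((2 * (m + 1) : ℕ) : ℝ) + 1 = -((2 * m + 1 : ℕ) : ℝ) := by push_cast; ring
    rw [e1, e2, Real.rpow_neg hX.le, Real.rpow_natCast]
    have hX' : X ≠ 0 := hX.ne'
    have ha' : a ≠ 0 := ha.ne'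
    have hm : (2 * (m : ℝ) + 1) ≠ 0 := by positivity
    have hm2 : (2 * ((m + 1 : ℕ) : ℝ) - 1) = 2 * (m : ℝ) + 1 := by push_cast; ring
    rw [hm2]
    push_cast
    rw [div_pow, div_pow, one_pow, one_pow, mul_pow,
      show 2 * (m + 1) = (2 * m + 1) + 1 by ring, pow_succ a (2 * m + 1)]
    field_simp
  have hint : Integrable (fun x : ℝ => g |x|) := by
    have hg1 : Integrable g := hIci.integrable_indicator measurableSet_Ici
    have h2 : Integrable (fun x : ℝ => g x + g (-x)) := hg1.add hg1.comp_neg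
    refine h2.mono' ?_ (Filter.Eventually.of_forall fun x => ?_)
    · apply AEMeasurable.aestronglyMeasurable
      apply Measurable.aemeasurable
      have : Measurable g := by
        apply Measurable.indicator _ measurableSet_Ici
        fun_prop
      exact this.comp measurable_abs
    · have hgn : ∀ y, 0 ≤ g y := by
        intro y
        apply indicator_nonneg
        intro y _
        rw [pow_mul]
        positivity
      rw [Real.norm_eq_abs, abs_of_nonneg (hgn _)]
      rcases abs_choice x with h | h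
      · rw [h]; linarith [hgn (-x)]
      · rw [h]; linarith [hgn x]
  calc ∫ x in {x : ℝ | X ≤ |x|}, Real.sinc (a * x) ^ (2 * n)
      ≤ ∫ x in {x : ℝ | X ≤ |x|}, g |x| := by
        apply setIntegral_mono_on (f_int ha hn).integrableOn hint.integrableOn hms
        intro x hx
        have hx' : X ≤ |x| := hx
        have hx0 : x ≠ 0 := by
          rintro rfl
          simp at hx'
          linarith
        rw [hg, indicator_of_mem (show |x| ∈ Ici X from hx')]
        exact f_le_inv ha n hx0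
    _ ≤ ∫ x : ℝ, g |x| := by
        apply setIntegral_le_integral hint (Filter.Eventually.of_forall fun x => ?_)
        apply indicator_nonneg
        intro y _
        rw [pow_mul]
        positivity
    _ = 2 * ∫ x in Ioi (0 : ℝ), g x := integral_comp_abs
    _ = 2 * ∫ x in Ioi X, (x⁻¹ / a) ^ (2 * n) := by
        congr 1
        rw [hg, setIntegral_indicator measurableSet_Ici]
        rw [show Ioi (0 : ℝ) ∩ Ici X = Ici X by
          ext y; simp only [mem_inter_iff, mem_Ioi, mem_Ici]; constructor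
          · exact fun h => h.2
          · exact fun h => ⟨by linarith, h⟩]
        exact integral_Ici_eq_integral_Ioi
    _ = _ := by rw [hval]; ring

end Kernaux

open Kernaux in
theorem kern : S_kern := by
  intro b n hb hn
  have hn0 : (0 : ℝ) < n := by exact_mod_cast hn
  have hn1 : (1 : ℝ) ≤ n := by exact_mod_cast hn
  set a : ℝ := b / (2 * n) with ha_def
  have ha : 0 < a := by positivity
  have hkb : ((2 * n : ℕ) : ℝ) * a = b := by
    rw [ha_def]; push_cast; field_simp
  obtain ⟨w, hw⟩ := BW_pow ha (2 * n) (by omega)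
  rw [hkb] at hw
  set I0 : ℝ := ∫ x : ℝ, Real.sinc (a * x) ^ (2 * n) with hI0
  have hlow : 1 / (a * Real.sqrt n) ≤ I0 := f_lower ha hn
  have hs : 0 < Real.sqrt n := Real.sqrt_pos.mpr hn0
  have hs1 : 1 ≤ Real.sqrt n := Real.one_le_sqrt.mpr hn1
  have hI0pos : 0 < I0 := lt_of_lt_of_le (by positivity) hlow
  set c : ℝ := 1 / I0 with hc
  have hc0 : 0 < c := by positivity
  have hcle : c ≤ a * Real.sqrt n := by
    rw [hc, div_le_iff₀ hI0pos]
    rw [div_le_iff₀ (by positivity)] at hlow
    linarith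
  have hre : ∀ x : ℝ, (c : ℂ) * Sa a x ^ (2 * n) = ((c * Real.sinc (a * x) ^ (2 * n) : ℝ) : ℂ) := by
    intro x
    rw [Sa_real ha]
    push_cast
    ring
  refine ⟨fun z => (c : ℂ) * Sa a z ^ (2 * n), fun v => (c : ℂ) * w v, BW_smul hw _, ?_, ?_, ?_, ?_, ?_⟩
  · intro x
    simp only [hre x]
    rw [ofReal_im, ofReal_re]
    exact ⟨rfl, mul_nonneg hc0.le (f_nonneg a n x)⟩
  · simp only [hre, ofReal_re]
    exact (f_int ha hn).const_mul c
  · simp only [hre, ofReal_re]
    rw [integral_const_mul, ← hI0, hc]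
    field_simp
  · intro X hX
    simp only [hre, ofReal_re]
    rw [integral_const_mul]
    have ht := f_tail ha hn hX
    have h2n : (0 : ℝ) < 2 * n - 1 := by linarith
    have e : 1 / (a * X) = 2 * n / (b * X) := by
      rw [ha_def]; field_simp
    rw [e] at ht
    have hsn : Real.sqrt n ≤ 2 * n - 1 := by
      have := Real.sq_sqrt hn0.le
      nlinarith
    set q : ℝ := (2 * n / (b * X)) ^ (2 * n - 1) with hq
    have hq0 : 0 ≤ q := by positivity
    calc c * ∫ x in {x : ℝ | X ≤ |x|}, Real.sinc (a * x) ^ (2 * n)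
        ≤ c * (2 / a * q / (2 * n - 1)) := mul_le_mul_of_nonneg_left ht hc0.le
      _ ≤ (a * Real.sqrt n) * (2 / a * q / (2 * n - 1)) := by
          apply mul_le_mul_of_nonneg_right hcle
          positivity
      _ = 2 * q * (Real.sqrt n / (2 * n - 1)) := by
          field_simp
      _ ≤ 2 * q * 1 := by
          apply mul_le_mul_of_nonneg_left _ (by positivity)
          rw [div_le_one h2n]
          exact hsn
      _ = 2 * q := mul_one _
  · intro z
    simp only [norm_mul, norm_pow, Complex.norm_real, Real.norm_eq_abs, abs_of_pos hc0]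
    have h1 : ‖Sa a z‖ ^ (2 * n) ≤ Real.exp (a * |z.im|) ^ (2 * n) :=
      pow_le_pow_left₀ (norm_nonneg _) (norm_Sa_le ha z) _
    rw [← Real.exp_nat_mul, show ((2 * n : ℕ) : ℝ) * (a * |z.im|) = b * |z.im| by
      rw [← mul_assoc, hkb]] at h1
    have h2 : a * Real.sqrt n ≤ b / 2 := by
      rw [ha_def]
      have h3 : Real.sqrt n ≤ n := by
        have := Real.sq_sqrt hn0.le
        nlinarith
      rw [div_mul_eq_mul_div, div_le_div_iff₀ (by positivity) (by norm_num)]
      nlinarith
    exact mul_le_mul (hcle.trans h2) h1 (by positivity) (by positivity)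

end Pool.Agent.N802.U
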