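import Pool.Agent.N802.U.Stm

/-!
# The window: `exp (-d cosh (z / s))` smoothed by a band-limited kernel
-/

set_option autoImplicit false

open Complex Filter Topology Set MeasureTheory
open scoped BigOperators ComplexConjugate

namespace Pool.Agent.N802.U

namespace Winaux

/-! ### band-limited functions -/

theorem norm_cexp (v : ℝ) (z : ℂ) : ‖cexp (I * v * z)‖ = Real.exp (-(v * z.im)) := by
  rw [Complex.norm_exp]
  congr 1
  simp

theorem bw_norm {b : ℝ} {W : ℂ → ℂ} {w : ℝ → ℂ} (h : BW b W w) :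
    ∃ M : ℝ, 0 ≤ M ∧ ∀ (z : ℂ) (v : ℝ), ‖w v * cexp (I * v * z)‖ ≤
      (Icc (-b) b).indicator (fun _ => M * Real.exp (b * |z.im|)) v := by
  obtain ⟨M, hM⟩ := h.bdd
  refine ⟨M, (norm_nonneg _).trans (hM 0), fun z v => ?_⟩
  by_cases hv : v ∈ Icc (-b) b
  · rw [indicator_of_mem hv, norm_mul, norm_cexp]
    have hv' : |v| ≤ b := abs_le.2 hv
    refine mul_le_mul (hM v) (Real.exp_le_exp.2 ?_) (Real.exp_nonneg _)
      ((norm_nonneg _).trans (hM 0))
    calc -(v * z.im) ≤ |v * z.im| := neg_le_abs _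
      _ = |v| * |z.im| := abs_mul _ _
      _ ≤ b * |z.im| := mul_le_mul_of_nonneg_right hv' (abs_nonneg _)
  · rw [indicator_of_notMem hv]
    have hv' : b < |v| := by
      by_contra hcon
      push Not at hcon
      exact hv (abs_le.1 hcon)
    rw [h.sup v hv', zero_mul, norm_zero]

theorem ind_int (b c : ℝ) : Integrable ((Icc (-b) b).indicator (fun _ : ℝ => c)) := by
  rw [integrable_indicator_iff measurableSet_Icc]
  exact integrableOn_const (by rw [Real.volume_Icc]; exact ENNReal.ofReal_ne_top)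

theorem bw_meas {b : ℝ} {W : ℂ → ℂ} {w : ℝ → ℂ} (h : BW b W w) (z : ℂ) :
    AEStronglyMeasurable (fun v : ℝ => w v * cexp (I * v * z)) := by
  refine (h.meas.mul ?_).aestronglyMeasurable
  fun_prop

theorem bw_int {b : ℝ} {W : ℂ → ℂ} {w : ℝ → ℂ} (h : BW b W w) (z : ℂ) :
    Integrable (fun v : ℝ => w v * cexp (I * v * z)) := by
  obtain ⟨M, -, hM⟩ := bw_norm h
  exact Integrable.mono' (ind_int b _) (bw_meas h z) (Eventually.of_forall fun v => hM z v)

theorem bw_diff {b : ℝ} {W : ℂ → ℂ} {w : ℝ → ℂ} (h : BW b W w) : Differentiable ℂ W := by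
  obtain ⟨M, hM0, hM⟩ := bw_norm h
  have hW : W = fun z => ∫ v : ℝ, w v * cexp (I * v * z) := funext h.rep
  rw [hW]
  intro z₀
  have key := hasDerivAt_integral_of_dominated_loc_of_deriv_le (μ := (volume : Measure ℝ))
    (F := fun (z : ℂ) (v : ℝ) => w v * cexp (I * v * z))
    (F' := fun (z : ℂ) (v : ℝ) => w v * (cexp (I * v * z) * (I * v)))
    (x₀ := z₀) (s := Metric.ball z₀ 1)
    (bound := (Icc (-b) b).indicator fun _ => M * Real.exp (b * (|z₀.im| + 1)) * b)
    (Metric.ball_mem_nhds z₀ one_pos)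
    (Eventually.of_forall fun z => bw_meas h z) (bw_int h z₀)
    (by
      refine (h.meas.mul ?_).aestronglyMeasurable
      fun_prop)
    (Eventually.of_forall fun v z hz => by
      have h1 : w v * (cexp (I * v * z) * (I * v)) = (w v * cexp (I * v * z)) * (I * v) := by ring
      rw [h1, norm_mul]
      have h2 := hM z v
      by_cases hv : v ∈ Icc (-b) b
      · rw [indicator_of_mem hv] at h2 ⊢
        have hv' : |v| ≤ b := abs_le.2 hv
        have hb0 : 0 ≤ b := (abs_nonneg _).trans hv'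
        have h3 : ‖I * (v : ℂ)‖ ≤ b := by
          rw [norm_mul, Complex.norm_I, one_mul, Complex.norm_real]
          exact hv'
        refine mul_le_mul (h2.trans ?_) h3 (norm_nonneg _) (by positivity)
        refine mul_le_mul_of_nonneg_left (Real.exp_le_exp.2 ?_) hM0
        refine mul_le_mul_of_nonneg_left ?_ hb0
        have h4 : |z.im - z₀.im| ≤ 1 := by
          have h5 : |(z - z₀).im| ≤ ‖z - z₀‖ := Complex.abs_im_le_norm _
          rw [Complex.sub_im] at h5
          rw [Metric.mem_ball, dist_eq_norm] at hz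
          linarith
        have h5 : |z.im| ≤ |z₀.im| + |z.im - z₀.im| := by
          have := abs_add_le z₀.im (z.im - z₀.im)
          rwa [add_sub_cancel] at this
        linarith
      · rw [indicator_of_notMem hv] at h2 ⊢
        have h3 : ‖w v * cexp (I * v * z)‖ = 0 := le_antisymm h2 (norm_nonneg _)
        rw [h3, zero_mul])
    (ind_int b _)
    (Eventually.of_forall fun v z _ => by
      have h1 : HasDerivAt (fun z : ℂ => I * v * z) (I * v) z := by
        simpa using (hasDerivAt_id z).const_mul (I * (v : ℂ))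
      exact (h1.cexp).const_mul (w v))
  exact key.2.differentiableAt

/-- a band-limited function with real values on the real line -/
theorem bw_conj {b : ℝ} {W : ℂ → ℂ} {w : ℝ → ℂ} (h : BW b W w) (hr : ∀ x : ℝ, (W x).im = 0)
    (z : ℂ) : W (conj z) = conj (W z) := by
  have hd := bw_diff h
  have hd' : Differentiable ℂ (fun z => conj (W (conj z))) := by
    intro z
    have h0 := (hd (conj z)).conj_conj
    rw [Complex.conj_conj] at h0
    exact h0
  have h1 : W = fun z => conj (W (conj z)) := by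
    refine AnalyticOnNhd.eq_of_frequently_eq (z₀ := 0) (fun z _ => hd.analyticAt z)
      (fun z _ => hd'.analyticAt z) ?_
    have h2 : ∀ x : ℝ, W x = conj (W (conj (x : ℂ))) := by
      intro x
      rw [Complex.conj_ofReal]
      exact (Complex.conj_eq_iff_im.2 (hr x)).symm
    have h3 : Tendsto (fun x : ℝ => (x : ℂ)) (𝓝[≠] 0) (𝓝[≠] 0) := by
      refine tendsto_nhdsWithin_iff.2 ⟨?_, ?_⟩
      · have := (Complex.continuous_ofReal.tendsto (0 : ℝ)).mono_left
          (nhdsWithin_le_nhds (s := {0}ᶜ))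
        simpa using this
      · filter_upwards [self_mem_nhdsWithin] with x hx
        simpa using hx
    exact h3.frequently (Eventually.frequently (Eventually.of_forall h2))
  have h4 := congrFun h1 (conj z)
  rw [Complex.conj_conj] at h4
  exact h4

/-! ### the double exponential window -/

/-- the window before smoothing -/
noncomputable def Fw (d s : ℝ) (z : ℂ) : ℂ := cexp (-(d : ℂ) * Complex.cosh (z / s))

theorem cosh_parts (z : ℂ) : Complex.cosh z = ((Real.cosh z.re * Real.cos z.im : ℝ) : ℂ) +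
    ((Real.sinh z.re * Real.sin z.im : ℝ) : ℂ) * I := by
  conv_lhs => rw [← Complex.re_add_im z]
  rw [Complex.cosh_add, Complex.cosh_mul_I, Complex.sinh_mul_I]
  push_cast
  ring

theorem re_cosh (z : ℂ) : (Complex.cosh z).re = Real.cosh z.re * Real.cos z.im := by
  rw [cosh_parts, Complex.add_re, Complex.ofReal_re, Complex.re_ofReal_mul, Complex.I_re, mul_zero,
    add_zero]

theorem im_cosh (z : ℂ) : (Complex.cosh z).im = Real.sinh z.re * Real.sin z.im := by
  rw [cosh_parts, Complex.add_im, Complex.ofReal_im, Complex.im_ofReal_mul, Complex.I_im, mul_one,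
    zero_add]

theorem cos_half {y : ℝ} (hy : |y| ≤ 1) : 1 / 2 ≤ Real.cos y := by
  rw [← Real.cos_pi_div_three, ← Real.cos_abs y]
  have := Real.pi_gt_three
  exact Real.cos_le_cos_of_nonneg_of_le_pi (abs_nonneg _) (by linarith) (by linarith)

theorem exp_abs_le_cosh (t : ℝ) : Real.exp |t| / 2 ≤ Real.cosh t := by
  rw [← Real.cosh_abs, Real.cosh_eq]
  have := Real.exp_pos (-|t|)
  linarith

theorem cosh_le_exp_abs (t : ℝ) : Real.cosh t ≤ Real.exp |t| := by
  rw [← Real.cosh_abs, Real.cosh_eq]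
  have : Real.exp (-|t|) ≤ Real.exp |t| := Real.exp_le_exp.2 (by linarith [abs_nonneg t])
  linarith

theorem Fw_diff (d s : ℝ) : Differentiable ℂ (Fw d s) := by
  unfold Fw
  intro z
  have h1 : DifferentiableAt ℂ (fun z : ℂ => z / (s : ℂ)) z := differentiableAt_id.div_const _
  exact ((h1.ccosh).const_mul (-(d : ℂ))).cexp

theorem re_div {s : ℝ} (z : ℂ) : (z / (s : ℂ)).re = z.re / s := Complex.div_ofReal_re z s

theorem im_div {s : ℝ} (z : ℂ) : (z / (s : ℂ)).im = z.im / s := Complex.div_ofReal_im z s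

theorem norm_Fw (d s : ℝ) (z : ℂ) :
    ‖Fw d s z‖ = Real.exp (-(d * (Real.cosh (z.re / s) * Real.cos (z.im / s)))) := by
  unfold Fw
  rw [Complex.norm_exp]
  congr 1
  rw [neg_mul, Complex.neg_re, Complex.re_ofReal_mul, re_cosh, re_div, im_div]

theorem abs_div_le {s y : ℝ} (hs : 0 < s) {κ : ℝ} (hy : |y| ≤ κ * s) : |y / s| ≤ κ := by
  rw [abs_div, abs_of_pos hs, div_le_iff₀ hs]
  exact hy

theorem norm_Fw_le {d s : ℝ} (hd : 0 ≤ d) (hs : 0 < s) {z : ℂ} (hz : |z.im| ≤ s) :
    ‖Fw d s z‖ ≤ Real.exp (-(d / 2 * Real.cosh (z.re / s))) := by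
  rw [norm_Fw]
  refine Real.exp_le_exp.2 (neg_le_neg ?_)
  have h1 := cos_half (abs_div_le hs (y := z.im) (κ := 1) (by linarith))
  have h2 : 0 < Real.cosh (z.re / s) := Real.cosh_pos _
  have h3 : Real.cosh (z.re / s) * (1 / 2) ≤ Real.cosh (z.re / s) * Real.cos (z.im / s) :=
    mul_le_mul_of_nonneg_left h1 h2.le
  calc d / 2 * Real.cosh (z.re / s) = d * (Real.cosh (z.re / s) * (1 / 2)) := by ring
    _ ≤ _ := mul_le_mul_of_nonneg_left h3 hd

theorem norm_Fw_le_one {d s : ℝ} (hd : 0 ≤ d) (hs : 0 < s) {z : ℂ} (hz : |z.im| ≤ s) :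
    ‖Fw d s z‖ ≤ 1 := by
  refine (norm_Fw_le hd hs hz).trans ?_
  rw [Real.exp_le_one_iff]
  have h2 : 0 < Real.cosh (z.re / s) := Real.cosh_pos _
  have : 0 ≤ d / 2 * Real.cosh (z.re / s) := by positivity
  linarith

/-- the value of `d` -/
noncomputable def dd (h s : ℝ) : ℝ := 2 * Real.exp (-(h / s))

theorem dd_pos (h s : ℝ) : 0 < dd h s := by unfold dd; positivity

theorem dd_cosh_ge {h s : ℝ} (hs : 0 < s) (x : ℝ) :
    Real.exp ((|x| - h) / s) ≤ dd h s * Real.cosh (x / s) := by
  have h1 := exp_abs_le_cosh (x / s)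
  rw [abs_div, abs_of_pos hs] at h1
  unfold dd
  have h2 : Real.exp ((|x| - h) / s) = 2 * Real.exp (-(h / s)) * (Real.exp (|x| / s) / 2) := by
    rw [show (|x| - h) / s = -(h / s) + |x| / s by ring, Real.exp_add]
    ring
  rw [h2]
  exact mul_le_mul_of_nonneg_left h1 (by positivity)

theorem dd_cosh_le {h s : ℝ} (hs : 0 < s) (x : ℝ) :
    dd h s * Real.cosh (x / s) ≤ 2 * Real.exp ((|x| - h) / s) := by
  have h1 := cosh_le_exp_abs (x / s)
  rw [abs_div, abs_of_pos hs] at h1
  unfold dd
  have h2 : 2 * Real.exp ((|x| - h) / s) = 2 * Real.exp (-(h / s)) * Real.exp (|x| / s) := by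
    rw [show (|x| - h) / s = -(h / s) + |x| / s by ring, Real.exp_add]
    ring
  rw [h2]
  exact mul_le_mul_of_nonneg_left h1 (by positivity)

theorem norm_Fw_le' {h s : ℝ} (hs : 0 < s) {z : ℂ} (hz : |z.im| ≤ s) :
    ‖Fw (dd h s) s z‖ ≤ Real.exp (-(Real.exp ((|z.re| - h) / s) / 2)) := by
  refine (norm_Fw_le (dd_pos h s).le hs hz).trans (Real.exp_le_exp.2 (neg_le_neg ?_))
  have := dd_cosh_ge (h := h) hs z.re
  linarith

theorem norm_Fw_sub_one {h s : ℝ} (hs : 0 < s) {z : ℂ} (hz : |z.im| ≤ s) :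
    ‖Fw (dd h s) s z - 1‖ ≤ 2 * Real.exp ((|z.re| - h) / s) := by
  set ζ : ℂ := (dd h s : ℂ) * Complex.cosh (z / s) with hζ
  have h0 : Fw (dd h s) s z = cexp (-ζ) := by
    unfold Fw
    rw [hζ, neg_mul]
  have hre : 0 ≤ ζ.re := by
    rw [hζ, Complex.re_ofReal_mul, re_cosh, re_div, im_div]
    have h1 := cos_half (abs_div_le hs (y := z.im) (κ := 1) (by linarith))
    have h2 : 0 < Real.cosh (z.re / s) := Real.cosh_pos _
    have := dd_pos h s
    positivity
  have h1 : ‖cexp (-ζ) - 1‖ ≤ ‖ζ‖ := by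
    have h2 := Convex.norm_image_sub_le_of_norm_deriv_le (𝕜 := ℂ) (f := cexp) (C := 1)
      (s := {w : ℂ | w.re ≤ 0}) (x := 0) (y := -ζ)
      (fun w _ => Complex.differentiableAt_exp)
      (fun w hw => by
        rw [Complex.deriv_exp, Complex.norm_exp]
        exact Real.exp_le_one_iff.2 hw)
      (convex_halfSpace_re_le 0) (by simp) (by simpa using hre)
    simpa using h2
  rw [h0]
  refine h1.trans ?_
  have h2 : ‖ζ‖ ≤ dd h s * Real.cosh (z.re / s) := by
    rw [hζ, norm_mul, Complex.norm_real, Real.norm_of_nonneg (dd_pos h s).le]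
    refine mul_le_mul_of_nonneg_left ?_ (dd_pos h s).le
    have h3 : ‖Complex.cosh (z / s)‖ ^ 2 ≤ Real.cosh (z.re / s) ^ 2 := by
      rw [← Complex.normSq_eq_norm_sq, Complex.normSq_apply, re_cosh, im_cosh, re_div, im_div]
      have h4 := Real.cosh_sq (z.re / s)
      have h5 := Real.sin_sq_add_cos_sq (z.im / s)
      have h6 := sq_nonneg (Real.sin (z.im / s))
      nlinarith
    exact le_of_sq_le_sq h3 (Real.cosh_pos _).le
  exact h2.trans (dd_cosh_le hs z.re)

theorem Fw_phase {h s : ℝ} (hs : 0 < s) {z : ℂ} {κ θ : ℝ} (hκ : 0 < κ) (hκ1 : κ ≤ 1)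
    (hz : |z.im| ≤ κ * s) (hθ : |θ| ≤ Real.pi / 4) :
    -Real.exp (-(1 / (3 * κ))) ≤ (Fw (dd h s) s z * cexp (I * θ)).re := by
  have hy := abs_div_le hs hz
  have hcos := cos_half (hy.trans hκ1)
  have hch : 0 < Real.cosh (z.re / s) := Real.cosh_pos _
  have hd := dd_pos h s
  set w1 : ℝ := dd h s * (Real.cosh (z.re / s) * Real.cos (z.im / s)) with hw1
  set w2 : ℝ := dd h s * (Real.sinh (z.re / s) * Real.sin (z.im / s)) with hw2
  have hw1' : dd h s * Real.cosh (z.re / s) ≤ 2 * w1 := by
    have h3 : Real.cosh (z.re / s) * (1 / 2) ≤ Real.cosh (z.re / s) * Real.cos (z.im / s) :=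
      mul_le_mul_of_nonneg_left hcos hch.le
    have h4 := mul_le_mul_of_nonneg_left h3 hd.le
    rw [hw1]
    linarith
  have hw20 : |w2| ≤ 2 * κ * w1 := by
    rw [hw2, abs_mul, abs_of_pos hd, abs_mul]
    have h3 : |Real.sinh (z.re / s)| ≤ Real.cosh (z.re / s) := by
      refine abs_le_of_sq_le_sq ?_ hch.le
      have := Real.cosh_sq (z.re / s)
      linarith
    have h4 : |Real.sin (z.im / s)| ≤ κ := (Real.abs_sin_le_abs).trans hy
    have h5 : |Real.sinh (z.re / s)| * |Real.sin (z.im / s)| ≤ Real.cosh (z.re / s) * κ :=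
      mul_le_mul h3 h4 (abs_nonneg _) hch.le
    have h6 := mul_le_mul_of_nonneg_left h5 hd.le
    have h7 := mul_le_mul_of_nonneg_left hw1' hκ.le
    linarith
  have hval : Fw (dd h s) s z * cexp (I * θ) = cexp (((-w1 : ℝ) : ℂ) + ((θ - w2 : ℝ) : ℂ) * I) := by
    unfold Fw
    rw [← Complex.exp_add]
    congr 1
    have h3 : Complex.cosh (z / s) = ((Real.cosh (z.re / s) * Real.cos (z.im / s) : ℝ) : ℂ) +
        ((Real.sinh (z.re / s) * Real.sin (z.im / s) : ℝ) : ℂ) * I := by
      rw [cosh_parts, re_div, im_div]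
    rw [h3, hw1, hw2]
    push_cast
    ring
  rw [hval, Complex.exp_re]
  have hre : (((-w1 : ℝ) : ℂ) + ((θ - w2 : ℝ) : ℂ) * I).re = -w1 := by simp
  have him : (((-w1 : ℝ) : ℂ) + ((θ - w2 : ℝ) : ℂ) * I).im = θ - w2 := by simp
  rw [hre, him]
  by_cases hcase : 2 * κ * w1 ≤ Real.pi / 4
  · have h3 : |θ - w2| ≤ Real.pi / 2 := by
      have := abs_sub θ w2
      linarith
    have h4 : 0 ≤ Real.cos (θ - w2) := Real.cos_nonneg_of_mem_Icc (abs_le.1 h3)
    have h5 : 0 ≤ Real.exp (-w1) * Real.cos (θ - w2) := by positivity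
    have h6 := Real.exp_pos (-(1 / (3 * κ)))
    linarith
  · push Not at hcase
    have h3 : 1 / (3 * κ) ≤ w1 := by
      rw [div_le_iff₀ (by positivity)]
      have := Real.pi_gt_three
      linarith
    have h4 : Real.exp (-w1) ≤ Real.exp (-(1 / (3 * κ))) := Real.exp_le_exp.2 (neg_le_neg h3)
    have h5 : -(1 : ℝ) ≤ Real.cos (θ - w2) := Real.neg_one_le_cos _
    have h6 := Real.exp_pos (-w1)
    have h7 : Real.exp (-w1) * (-1) ≤ Real.exp (-w1) * Real.cos (θ - w2) :=
      mul_le_mul_of_nonneg_left h5 h6.le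
    linarith

/-- the values on the real line -/
noncomputable def Fr (d s x : ℝ) : ℝ := Real.exp (-(d * Real.cosh (x / s)))

theorem Fw_real (d s x : ℝ) : Fw d s x = (Fr d s x : ℂ) := by
  unfold Fw Fr
  push_cast
  rw [neg_mul]

theorem Fr_pos (d s x : ℝ) : 0 < Fr d s x := Real.exp_pos _

theorem Fr_cont (d s : ℝ) : Continuous (Fr d s) := by
  unfold Fr
  fun_prop

/-- the majorant -/
noncomputable def maj (h s x : ℝ) : ℝ := if x ≤ h then 1 else Real.exp (-((x - h) / s))

theorem Fr_le_maj {h s : ℝ} (hs : 0 < s) (x : ℝ) : Fr (dd h s) s x ≤ maj h s |x| := by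
  unfold maj
  split_ifs with hx
  · unfold Fr
    rw [Real.exp_le_one_iff]
    have h1 := dd_pos h s
    have h2 := Real.cosh_pos (x / s)
    have : 0 < dd h s * Real.cosh (x / s) := by positivity
    linarith
  · unfold Fr
    refine Real.exp_le_exp.2 (neg_le_neg ?_)
    have h1 := dd_cosh_ge (h := h) hs x
    have h2 := Real.add_one_le_exp ((|x| - h) / s)
    linarith

theorem maj_int_Ioi {h s : ℝ} (hh : 0 < h) (hs : 0 < s) :
    IntegrableOn (maj h s) (Ioi 0) ∧ ∫ x in Ioi 0, maj h s x = h + s := by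
  have hu : Ioi (0 : ℝ) = Ioc 0 h ∪ Ioi h := (Ioc_union_Ioi_eq_Ioi hh.le).symm
  have e1 : ∀ x ∈ Ioc 0 h, maj h s x = 1 := fun x hx => by
    unfold maj
    rw [if_pos hx.2]
  have e2 : ∀ x ∈ Ioi h, maj h s x = Real.exp (h / s) * Real.exp (-(1 / s) * x) := fun x hx => by
    unfold maj
    rw [if_neg (not_le.2 hx), ← Real.exp_add]
    congr 1
    ring
  have i1 : IntegrableOn (maj h s) (Ioc 0 h) := by
    refine IntegrableOn.congr_fun (f := fun _ => (1 : ℝ)) ?_ (fun x hx => (e1 x hx).symm)
      measurableSet_Ioc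
    exact integrableOn_const (by rw [Real.volume_Ioc]; exact ENNReal.ofReal_ne_top)
  have i0 : IntegrableOn (fun x : ℝ => Real.exp (-(1 / s) * x)) (Ioi h) :=
    integrableOn_exp_mul_Ioi (by
      have : 0 < 1 / s := by positivity
      linarith) h
  have i2 : IntegrableOn (maj h s) (Ioi h) := by
    refine IntegrableOn.congr_fun (f := fun x => Real.exp (h / s) * Real.exp (-(1 / s) * x)) ?_
      (fun x hx => (e2 x hx).symm) measurableSet_Ioi
    exact i0.const_mul _
  refine ⟨by rw [hu]; exact i1.union i2, ?_⟩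
  rw [hu, setIntegral_union (Ioc_disjoint_Ioi le_rfl) measurableSet_Ioi i1 i2,
    setIntegral_congr_fun measurableSet_Ioc e1, setIntegral_congr_fun measurableSet_Ioi e2,
    setIntegral_const, integral_const_mul, integral_exp_mul_Ioi (by
      have : 0 < 1 / s := by positivity
      linarith) h]
  have h3 : Real.exp (h / s) * Real.exp (-(1 / s) * h) = 1 := by
    rw [← Real.exp_add, show h / s + -(1 / s) * h = 0 by ring, Real.exp_zero]
  have h4 : (volume : Measure ℝ).real (Ioc 0 h) = h := by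
    rw [Measure.real, Real.volume_Ioc, ENNReal.toReal_ofReal (by linarith)]
    ring
  rw [h4, smul_eq_mul, mul_one]
  have h5 : Real.exp (h / s) * (-Real.exp (-(1 / s) * h) / -(1 / s)) =
      (Real.exp (h / s) * Real.exp (-(1 / s) * h)) * s := by
    field_simp
  rw [h5, h3, one_mul]

theorem integrable_abs {f : ℝ → ℝ} (hf0 : IntegrableOn f (Ioi 0)) :
    Integrable (fun x => f |x|) := by
  have hf : IntegrableOn (fun x => f |x|) (Ioi 0) := by
    refine hf0.congr_fun (fun x hx => ?_) measurableSet_Ioi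
    show f x = f |x|
    rw [abs_of_pos hx]
  have int_Iic : IntegrableOn (fun x => f |x|) (Iic 0) := by
    rw [← Measure.map_neg_eq_self (volume : Measure ℝ)]
    let m : MeasurableEmbedding fun x : ℝ => -x := (Homeomorph.neg ℝ).measurableEmbedding
    rw [m.integrableOn_map_iff]
    simp_rw [Function.comp_def, abs_neg, neg_preimage, neg_Iic, neg_zero]
    exact Iff.mpr integrableOn_Ici_iff_integrableOn_Ioi hf
  have h := int_Iic.union hf
  rw [Iic_union_Ioi, integrableOn_univ] at h
  exact h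

theorem maj_int {h s : ℝ} (hh : 0 < h) (hs : 0 < s) :
    Integrable (fun x => maj h s |x|) ∧ ∫ x, maj h s |x| = 2 * (h + s) := by
  obtain ⟨h1, h2⟩ := maj_int_Ioi hh hs
  refine ⟨?_, ?_⟩
  · exact integrable_abs h1
  · rw [integral_comp_abs, h2]

theorem Fr_int {h s : ℝ} (hh : 0 < h) (hs : 0 < s) :
    Integrable (Fr (dd h s) s) ∧ ∫ x, Fr (dd h s) s x ≤ 2 * (h + s) := by
  obtain ⟨h1, h2⟩ := maj_int hh hs
  have h3 : Integrable (Fr (dd h s) s) := by
    refine Integrable.mono' h1 (Fr_cont _ _).aestronglyMeasurable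
      (Eventually.of_forall fun x => ?_)
    rw [Real.norm_of_nonneg (Fr_pos _ _ _).le]
    exact Fr_le_maj hs x
  refine ⟨h3, ?_⟩
  rw [← h2]
  exact integral_mono h3 h1 fun x => Fr_le_maj hs x

/-! ### moving the line of integration -/

theorem hshift {H : ℂ → ℂ} (hd : Differentiable ℂ H) {y : ℝ} {B : ℝ → ℝ}
    (hB : ∀ x t : ℝ, |t| ≤ |y| → ‖H (x + t * I)‖ ≤ B x) (hBi : Integrable B)
    (hB1 : Tendsto B atTop (𝓝 0)) (hB2 : Tendsto B atBot (𝓝 0)) :
    ∫ x : ℝ, H x = ∫ x : ℝ, H (x + y * I) := by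
  have hi : ∀ t : ℝ, |t| ≤ |y| → Integrable (fun x : ℝ => H (x + t * I)) := by
    intro t ht
    refine Integrable.mono' hBi ?_ (Eventually.of_forall fun x => hB x t ht)
    have : Continuous (fun x : ℝ => H (x + t * I)) := by
      refine hd.continuous.comp ?_
      fun_prop
    exact this.aestronglyMeasurable
  have hi0 : Integrable (fun x : ℝ => H x) := by
    have := hi 0 (by simp)
    simpa using this
  have hiy := hi y le_rfl
  have hrect : ∀ T : ℝ,
      (∫ x in (-T)..T, H x) - (∫ x in (-T)..T, H (x + y * I)) =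
        I • (∫ t in (0 : ℝ)..y, H ((-T : ℝ) + t * I)) - I • (∫ t in (0 : ℝ)..y, H (T + t * I)) := by
    intro T
    have := Complex.integral_boundary_rect_eq_zero_of_differentiableOn H ⟨-T, 0⟩ ⟨T, y⟩
      hd.differentiableOn
    simp only [Complex.ofReal_zero, zero_mul, add_zero] at this
    rw [eq_sub_iff_add_eq]
    have h2 := sub_eq_zero.1 this
    exact h2
  have hv : ∀ T : ℝ, ‖∫ t in (0 : ℝ)..y, H (T + t * I)‖ ≤ B T * |y| := by
    intro T
    have := intervalIntegral.norm_integral_le_of_norm_le_const (a := 0) (b := y)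
      (f := fun t : ℝ => H (T + t * I)) (C := B T) (fun t ht => hB T t (by
        rcases le_total 0 y with h0 | h0
        · rw [uIoc_of_le h0] at ht
          rw [abs_of_nonneg h0, abs_of_pos ht.1]
          exact ht.2
        · rw [uIoc_of_ge h0] at ht
          rw [abs_of_nonpos h0, abs_of_nonpos ht.2]
          linarith [ht.1]))
    simpa using this
  have t1 : Tendsto (fun T : ℝ => (∫ x in (-T)..T, H x) - (∫ x in (-T)..T, H (x + y * I))) atTop
      (𝓝 ((∫ x : ℝ, H x) - ∫ x : ℝ, H (x + y * I))) :=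
    (intervalIntegral_tendsto_integral hi0 tendsto_neg_atTop_atBot tendsto_id).sub
      (intervalIntegral_tendsto_integral hiy tendsto_neg_atTop_atBot tendsto_id)
  have t2 : Tendsto (fun T : ℝ => I • (∫ t in (0 : ℝ)..y, H ((-T : ℝ) + t * I)) -
      I • (∫ t in (0 : ℝ)..y, H (T + t * I))) atTop (𝓝 (I • 0 - I • 0)) := by
    refine Tendsto.sub (Tendsto.const_smul ?_ _) (Tendsto.const_smul ?_ _)
    · refine squeeze_zero_norm (fun T => hv (-T)) ?_
      have := (hB2.comp tendsto_neg_atTop_atBot).mul_const |y|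
      simpa using this
    · refine squeeze_zero_norm (fun T => hv T) ?_
      have := hB1.mul_const |y|
      simpa using this
  have h3 := tendsto_nhds_unique (t1.congr hrect) t2
  rw [sub_self] at h3
  exact sub_eq_zero.1 h3

theorem gauss_bound {d s : ℝ} (hd : 0 < d) (hs : 0 < s) (x : ℝ) :
    Real.exp (-(d / 2 * Real.cosh (x / s))) ≤ Real.exp (-(d / (8 * s ^ 2)) * x ^ 2) := by
  refine Real.exp_le_exp.2 ?_
  have h1 := exp_abs_le_cosh (x / s)
  have h2 := Real.quadratic_le_exp_of_nonneg (abs_nonneg (x / s))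
  rw [sq_abs] at h2
  have h3 : (x / s) ^ 2 / 4 ≤ Real.cosh (x / s) := by
    have := abs_nonneg (x / s)
    linarith
  have h4 : d / 2 * ((x / s) ^ 2 / 4) ≤ d / 2 * Real.cosh (x / s) :=
    mul_le_mul_of_nonneg_left h3 (by positivity)
  have h5 : d / 2 * ((x / s) ^ 2 / 4) = d / (8 * s ^ 2) * x ^ 2 := by
    field_simp
    ring
  rw [h5] at h4
  linarith

/-! ### the smoothed window -/

section smooth

variable {b s h : ℝ} {J : ℂ → ℂ} {j : ℝ → ℂ}

/-- the smoothed window -/
noncomputable def GG (h s : ℝ) (J : ℂ → ℂ) (z : ℂ) : ℂ :=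
  ∫ u : ℝ, Fw (dd h s) s u * J (z - u)

/-- its density -/
noncomputable def gg (h s : ℝ) (j : ℝ → ℂ) (v : ℝ) : ℂ :=
  j v * ∫ u : ℝ, Fw (dd h s) s u * cexp (-(I * v * u))

theorem Fw_int (hh : 0 < h) (hs : 0 < s) : Integrable (fun u : ℝ => Fw (dd h s) s u) := by
  have h1 := (Fr_int hh hs).1.ofReal (𝕜 := ℂ)
  refine h1.congr (Eventually.of_forall fun u => ?_)
  exact (Fw_real _ _ _).symm

theorem integral_norm_Fw (u : ℝ) : ‖Fw (dd h s) s u‖ = Fr (dd h s) s u := by
  rw [Fw_real, Complex.norm_real, Real.norm_of_nonneg (Fr_pos _ _ _).le]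

theorem gg_bw (hh : 0 < h) (hs : 0 < s) (hJ : BW b J j) :
    BW b (GG h s J) (gg h s j) := by
  obtain ⟨M, hM⟩ := hJ.bdd
  have hM0 : 0 ≤ M := (norm_nonneg _).trans (hM 0)
  have hFi := Fw_int hh hs
  have hFc : Continuous (fun u : ℝ => Fw (dd h s) s u) :=
    (Fw_diff _ _).continuous.comp Complex.continuous_ofReal
  refine ⟨?_, ?_, ?_, ?_⟩
  · refine hJ.meas.mul ?_
    have h1 : StronglyMeasurable (fun p : ℝ × ℝ => Fw (dd h s) s p.2 * cexp (-(I * p.1 * p.2))) := by
      refine Continuous.stronglyMeasurable ?_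
      refine (hFc.comp continuous_snd).mul ?_
      fun_prop
    exact h1.integral_prod_right'.measurable
  · refine ⟨M * ∫ u : ℝ, ‖Fw (dd h s) s u‖, fun v => ?_⟩
    unfold gg
    rw [norm_mul]
    refine mul_le_mul (hM v) ?_ (norm_nonneg _) hM0
    refine (norm_integral_le_integral_norm _).trans (le_of_eq ?_)
    refine integral_congr_ae (Eventually.of_forall fun u => ?_)
    show ‖Fw (dd h s) s u * cexp (-(I * v * u))‖ = ‖Fw (dd h s) s u‖
    rw [norm_mul, Complex.norm_exp]
    simp
  · intro v hv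
    unfold gg
    rw [hJ.sup v hv, zero_mul]
  · intro z
    unfold GG gg
    have h1 : ∀ u : ℝ, Fw (dd h s) s u * J (z - u) =
        ∫ v : ℝ, Fw (dd h s) s u * (j v * cexp (I * v * (z - u))) := by
      intro u
      rw [hJ.rep, integral_const_mul]
    simp_rw [h1]
    rw [integral_integral_swap]
    · refine integral_congr_ae (Eventually.of_forall fun v => ?_)
      show ∫ u : ℝ, Fw (dd h s) s u * (j v * cexp (I * v * (z - u))) =
        j v * (∫ u : ℝ, Fw (dd h s) s u * cexp (-(I * v * u))) * cexp (I * v * z)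
      rw [mul_right_comm, ← integral_const_mul]
      refine integral_congr_ae (Eventually.of_forall fun u => ?_)
      show Fw (dd h s) s u * (j v * cexp (I * v * (z - u))) =
        j v * cexp (I * v * z) * (Fw (dd h s) s u * cexp (-(I * v * u)))
      have h2 : cexp (I * v * (z - u)) = cexp (I * v * z) * cexp (-(I * v * u)) := by
        rw [← Complex.exp_add]
        congr 1
        ring
      rw [h2]
      ring
    · -- integrability on the product
      have h2 : Integrable (fun p : ℝ × ℝ => ‖Fw (dd h s) s p.1‖ *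
          (Icc (-b) b).indicator (fun _ => M * Real.exp (b * |z.im|)) p.2)
          (volume.prod volume) := hFi.norm.mul_prod (ind_int b _)
      refine Integrable.mono' h2 ?_ (Eventually.of_forall fun p => ?_)
      · have h3 : Measurable (fun p : ℝ × ℝ =>
            Fw (dd h s) s p.1 * (j p.2 * cexp (I * p.2 * (z - p.1)))) := by
          refine (hFc.measurable.comp measurable_fst).mul ((hJ.meas.comp measurable_snd).mul ?_)
          fun_prop
        exact h3.aestronglyMeasurable
      · show ‖Fw (dd h s) s p.1 * (j p.2 * cexp (I * p.2 * (z - p.1)))‖ ≤ _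
        rw [norm_mul]
        refine mul_le_mul_of_nonneg_left ?_ (norm_nonneg _)
        by_cases hv : p.2 ∈ Icc (-b) b
        · rw [indicator_of_mem hv, norm_mul, norm_cexp]
          have hv' : |p.2| ≤ b := abs_le.2 hv
          refine mul_le_mul (hM _) (Real.exp_le_exp.2 ?_) (Real.exp_nonneg _) hM0
          have him : (z - (p.1 : ℂ)).im = z.im := by simp
          rw [him]
          calc -(p.2 * z.im) ≤ |p.2 * z.im| := neg_le_abs _
            _ = |p.2| * |z.im| := abs_mul _ _
            _ ≤ b * |z.im| := mul_le_mul_of_nonneg_right hv' (abs_nonneg _)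
        · rw [indicator_of_notMem hv]
          have hv' : b < |p.2| := by
            by_contra hcon
            push Not at hcon
            exact hv (abs_le.1 hcon)
          rw [hJ.sup _ hv', zero_mul, norm_zero]

/-- the window as an average -/
theorem GG_avg (hs : 0 < s) (hb : 0 < b) (hJ : BW b J j)
    (hJb : ∀ z : ℂ, ‖J z‖ ≤ b / 2 * Real.exp (b * |z.im|))
    (hr : ∀ x : ℝ, (J x).im = 0) {z : ℂ} (hz : |z.im| ≤ s) :
    GG h s J z = ∫ v : ℝ, Fw (dd h s) s (z - v) * ((J v).re : ℂ) := by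
  have hd := dd_pos h s
  have hJd := bw_diff hJ
  set H : ℂ → ℂ := fun u => Fw (dd h s) s u * J (z - u) with hH
  have hHd : Differentiable ℂ H := by
    refine (Fw_diff _ _).mul ?_
    intro u
    exact (hJd (z - u)).comp u ((differentiableAt_const z).sub differentiableAt_id)
  set c : ℝ := dd h s / (8 * s ^ 2) with hc
  have hc0 : 0 < c := by positivity
  set K : ℝ := b / 2 * Real.exp (b * (2 * |z.im|)) with hK
  have hgi : Integrable (fun x : ℝ => Real.exp (-c * x ^ 2)) := integrable_exp_neg_mul_sq hc0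
  have hgt : Tendsto (fun x : ℝ => Real.exp (-c * x ^ 2)) atTop (𝓝 0) := by
    refine Real.tendsto_exp_atBot.comp ?_
    have h1 : Tendsto (fun x : ℝ => c * x ^ 2) atTop atTop :=
      Tendsto.const_mul_atTop hc0 (tendsto_pow_atTop two_ne_zero)
    have h2 := tendsto_neg_atTop_atBot.comp h1
    refine h2.congr fun x => ?_
    simp
  have hshift := hshift (H := H) hHd (y := z.im) (B := fun x => Real.exp (-c * x ^ 2) * K)
    (fun x t ht => by
      simp only [hH]
      rw [norm_mul]
      have him : ((x : ℂ) + t * I).im = t := by simp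
      have hre : ((x : ℂ) + t * I).re = x := by simp
      refine mul_le_mul ?_ ?_ (norm_nonneg _) (Real.exp_nonneg _)
      · refine (norm_Fw_le hd.le hs (by rw [him]; exact ht.trans hz)).trans ?_
        rw [hre]
        exact gauss_bound hd hs x
      · refine (hJb _).trans ?_
        refine mul_le_mul_of_nonneg_left (Real.exp_le_exp.2 ?_) (by positivity)
        refine mul_le_mul_of_nonneg_left ?_ hb.le
        rw [Complex.sub_im, him]
        have := abs_sub z.im t
        linarith)
    (hgi.mul_const _) (by simpa using hgt.mul_const K) (by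
      have h1 : Tendsto (fun x : ℝ => Real.exp (-c * (-x) ^ 2) * K) atBot (𝓝 0) := by
        have h2 := (hgt.mul_const K).comp tendsto_neg_atBot_atTop
        rw [zero_mul] at h2
        exact h2
      refine h1.congr fun x => ?_
      rw [neg_sq])
  have h1 : GG h s J z = ∫ x : ℝ, H x := rfl
  rw [h1, hshift]
  have h2 : ∀ x : ℝ, H (x + z.im * I) =
      (fun v : ℝ => Fw (dd h s) s (z - v) * ((J v).re : ℂ)) (z.re - x) := by
    intro x
    simp only [hH]
    have e1 : z - (x + z.im * I) = ((z.re - x : ℝ) : ℂ) := by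
      apply Complex.ext <;> simp
    have e2 : z - ((z.re - x : ℝ) : ℂ) = x + z.im * I := by
      apply Complex.ext <;> simp
    rw [e1, e2]
    congr 1
    apply Complex.ext
    · simp
    · rw [hr]
      simp
  simp_rw [h2]
  exact integral_sub_left_eq_self (fun v : ℝ => Fw (dd h s) s (z - v) * ((J v).re : ℂ)) volume z.re

end smooth

end Winaux

open Winaux

theorem win (hk : S_kern) : S_win := by
  intro b s h n hb hs hh hn
  obtain ⟨J, j, hJ, hJr, hJi, hJ1, hJt, hJb⟩ := hk b n hb hn
  have hr : ∀ x : ℝ, (J x).im = 0 := fun x => (hJr x).1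
  have hp : ∀ x : ℝ, 0 ≤ (J x).re := fun x => (hJr x).2
  have hd := dd_pos h s
  have havg : ∀ z : ℂ, |z.im| ≤ s → GG h s J z = ∫ v : ℝ, Fw (dd h s) s (z - v) * ((J v).re : ℂ) :=
    fun z hz => GG_avg hs hb hJ hJb hr hz
  have hFc : Continuous (Fw (dd h s) s) := (Fw_diff _ _).continuous
  have him : ∀ (z : ℂ) (v : ℝ), (z - (v : ℂ)).im = z.im := fun z v => by simp
  have hre : ∀ (z : ℂ) (v : ℝ), (z - (v : ℂ)).re = z.re - v := fun z v => by simp
  have hJm : AEStronglyMeasurable (fun v : ℝ => ((J v).re : ℂ)) :=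
    (Complex.continuous_ofReal.comp (Complex.continuous_re.comp
      ((bw_diff hJ).continuous.comp Complex.continuous_ofReal))).aestronglyMeasurable
  -- integrability
  have hint : ∀ z : ℂ, |z.im| ≤ s →
      Integrable (fun v : ℝ => Fw (dd h s) s (z - v) * ((J v).re : ℂ)) := by
    intro z hz
    refine Integrable.mono' hJi ?_ (Eventually.of_forall fun v => ?_)
    · refine AEStronglyMeasurable.mul ?_ hJm
      exact (hFc.comp (by fun_prop)).aestronglyMeasurable
    · rw [norm_mul, Complex.norm_real, Real.norm_of_nonneg (hp v)]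
      exact mul_le_of_le_one_left (hp v) (norm_Fw_le_one hd.le hs (by rw [him]; exact hz))
  -- the tail
  have htail : ∀ X : ℝ, 0 < X → Integrable ({x : ℝ | X ≤ |x|}.indicator fun x : ℝ => (J x).re) ∧
      ∫ x : ℝ, {x : ℝ | X ≤ |x|}.indicator (fun x : ℝ => (J x).re) x ≤
        2 * (2 * n / (b * X)) ^ (2 * n - 1) := by
    intro X hX
    have hm : MeasurableSet {x : ℝ | X ≤ |x|} := measurableSet_le measurable_const
      continuous_abs.measurable
    refine ⟨hJi.indicator hm, ?_⟩
    rw [integral_indicator hm]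
    exact hJt X hX
  -- averages
  have hbnd : ∀ (z : ℂ) (X E R : ℝ) (c : ℂ), |z.im| ≤ s → 0 < X → 0 ≤ R →
      (∀ v : ℝ, |v| < X → ‖Fw (dd h s) s (z - v) - c‖ ≤ E) →
      (∀ v : ℝ, ‖Fw (dd h s) s (z - v) - c‖ ≤ R) → 0 ≤ E →
      ‖GG h s J z - c‖ ≤ E + R * (2 * (2 * n / (b * X)) ^ (2 * n - 1)) := by
    intro z X E R c hz hX hR h1 h2 hE
    have h3 : GG h s J z - c = ∫ v : ℝ, (Fw (dd h s) s (z - v) - c) * ((J v).re : ℂ) := by
      have h4 : ∀ v : ℝ, (Fw (dd h s) s (z - v) - c) * ((J v).re : ℂ) =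
          Fw (dd h s) s (z - v) * ((J v).re : ℂ) - c * ((J v).re : ℂ) := fun v => by ring
      simp_rw [h4]
      have h5 : Integrable (fun v : ℝ => ((J v).re : ℂ)) := hJi.ofReal
      rw [integral_sub (hint z hz) (h5.const_mul c), ← havg z hz, integral_const_mul]
      have h6 : ∫ v : ℝ, ((J v).re : ℂ) = 1 := by
        have h7 : ∫ v : ℝ, ((J v).re : ℂ) = ((∫ v : ℝ, (J v).re : ℝ) : ℂ) := integral_ofReal
        rw [h7, hJ1, Complex.ofReal_one]
      rw [h6, mul_one]
    rw [h3]
    obtain ⟨t1, t2⟩ := htail X hX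
    have h4 : Integrable (fun v : ℝ => E * (J v).re +
        R * {x : ℝ | X ≤ |x|}.indicator (fun x : ℝ => (J x).re) v) :=
      (hJi.const_mul E).add (t1.const_mul R)
    have h5 := norm_integral_le_of_norm_le h4 (f := fun v : ℝ =>
      (Fw (dd h s) s (z - v) - c) * ((J v).re : ℂ)) (Eventually.of_forall fun v => by
        rw [norm_mul, Complex.norm_real, Real.norm_of_nonneg (hp v)]
        by_cases hv : |v| < X
        · rw [indicator_of_notMem (by
            show ¬ (X ≤ |v|)
            exact not_le.2 hv), mul_zero, add_zero]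
          exact mul_le_mul_of_nonneg_right (h1 v hv) (hp v)
        · rw [indicator_of_mem (by
            show X ≤ |v|
            exact not_lt.1 hv)]
          have h6 := mul_le_mul_of_nonneg_right (h2 v) (hp v)
          have h7 : 0 ≤ E * (J v).re := mul_nonneg hE (hp v)
          linarith)
    refine h5.trans ?_
    rw [integral_add (hJi.const_mul E) (t1.const_mul R), integral_const_mul, integral_const_mul,
      hJ1, mul_one]
    exact add_le_add le_rfl (mul_le_mul_of_nonneg_left t2 hR)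
  -- the real line
  have hreal : ∀ x : ℝ, GG h s J x = ((∫ v : ℝ, (J v).re * Fr (dd h s) s (x - v) : ℝ) : ℂ) := by
    intro x
    have e0 : ((∫ v : ℝ, (J v).re * Fr (dd h s) s (x - v) : ℝ) : ℂ) =
        ∫ v : ℝ, (((J v).re * Fr (dd h s) s (x - v) : ℝ) : ℂ) := integral_ofReal.symm
    rw [havg x (by simpa using hs.le), e0]
    refine integral_congr_ae (Eventually.of_forall fun v => ?_)
    show Fw (dd h s) s ((x : ℂ) - v) * ((J v).re : ℂ) = (((J v).re * Fr (dd h s) s (x - v) : ℝ) : ℂ)
    have h1 : (x : ℂ) - v = ((x - v : ℝ) : ℂ) := by push_cast; ring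
    rw [h1, Fw_real]
    push_cast
    ring
  obtain ⟨hFi, hFle⟩ := Fr_int hh hs
  have hconv : (fun x : ℝ => (GG h s J x).re) =
      MeasureTheory.convolution (fun v : ℝ => (J v).re) (Fr (dd h s) s)
        (ContinuousLinearMap.mul ℝ ℝ) volume := by
    funext x
    rw [hreal x, Complex.ofReal_re]
    rfl
  have hGnorm : ∀ z : ℂ, |z.im| ≤ s → ‖GG h s J z‖ ≤ 1 := by
    intro z hz
    rw [havg z hz]
    have h1 := norm_integral_le_of_norm_le hJi (f := fun v : ℝ =>
      Fw (dd h s) s (z - v) * ((J v).re : ℂ)) (Eventually.of_forall fun v => by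
        rw [norm_mul, Complex.norm_real, Real.norm_of_nonneg (hp v)]
        exact mul_le_of_le_one_left (hp v) (norm_Fw_le_one hd.le hs (by rw [him]; exact hz)))
    rw [hJ1] at h1
    exact h1
  refine ⟨GG h s J, gg h s j, gg_bw hh hs hJ, ?_, ?_, ?_, ?_, hGnorm, ?_, ?_, ?_, ?_⟩
  · -- conjugation
    refine bw_conj (gg_bw hh hs hJ) fun x => ?_
    rw [hreal x]
    exact Complex.ofReal_im _
  · intro x
    constructor
    · rw [hreal x, Complex.ofReal_re]
      exact integral_nonneg fun v => mul_nonneg (hp v) (Fr_pos _ _ _).le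
    · exact (Complex.re_le_norm _).trans (hGnorm x (by simpa using hs.le))
  · rw [hconv]
    exact hJi.integrable_convolution (ContinuousLinearMap.mul ℝ ℝ) hFi
  · rw [hconv, integral_convolution (ContinuousLinearMap.mul ℝ ℝ) hJi hFi, hJ1]
    simpa using hFle
  · -- decay
    intro z X hz hX
    have h1 := hbnd z X (Real.exp (-(Real.exp ((|z.re| - X - h) / s) / 2))) 1 0 hz hX zero_le_one
      (fun v hv => by
        rw [sub_zero]
        refine (norm_Fw_le' hs (by rw [him]; exact hz)).trans ?_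
        refine Real.exp_le_exp.2 (neg_le_neg ?_)
        refine div_le_div_of_nonneg_right (Real.exp_le_exp.2 ?_) (by norm_num)
        refine div_le_div_of_nonneg_right ?_ hs.le
        rw [hre]
        have h2 : |z.re| ≤ |z.re - v| + |v| := by
          have := abs_add_le (z.re - v) v
          rwa [sub_add_cancel] at this
        linarith)
      (fun v => by
        rw [sub_zero]
        exact norm_Fw_le_one hd.le hs (by rw [him]; exact hz))
      (Real.exp_nonneg _)
    rw [sub_zero, one_mul] at h1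
    exact h1
  · -- close to one
    intro z X hz hX
    have h1 := hbnd z X (2 * Real.exp ((|z.re| + X - h) / s)) 2 1 hz hX zero_le_two
      (fun v hv => by
        refine (norm_Fw_sub_one hs (by rw [him]; exact hz)).trans ?_
        refine mul_le_mul_of_nonneg_left (Real.exp_le_exp.2 ?_) zero_le_two
        refine div_le_div_of_nonneg_right ?_ hs.le
        rw [hre]
        have := abs_sub z.re v
        linarith)
      (fun v => by
        have h2 := norm_Fw_le_one hd.le hs (z := z - v) (by rw [him]; exact hz)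
        refine (norm_sub_le _ _).trans ?_
        rw [norm_one]
        linarith)
      (by positivity)
    have h2 : (2 : ℝ) * (2 * (2 * n / (b * X)) ^ (2 * n - 1)) =
        4 * (2 * n / (b * X)) ^ (2 * n - 1) := by ring
    rw [h2] at h1
    exact h1
  · -- phases
    intro z κ θ hκ hκ1 hz hθ
    have hz' : |z.im| ≤ s := hz.trans (mul_le_of_le_one_left hs.le hκ1)
    rw [havg z hz', ← integral_mul_const]
    have h1 : Integrable (fun v : ℝ => Fw (dd h s) s (z - v) * ((J v).re : ℂ) * cexp (I * θ)) :=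
      (hint z hz').mul_const _
    have h2 : (∫ v : ℝ, Fw (dd h s) s (z - v) * ((J v).re : ℂ) * cexp (I * θ)).re =
        ∫ v : ℝ, (Fw (dd h s) s (z - v) * ((J v).re : ℂ) * cexp (I * θ)).re :=
      (integral_re h1).symm
    rw [h2]
    have h3 : -Real.exp (-(1 / (3 * κ))) = ∫ v : ℝ, -Real.exp (-(1 / (3 * κ))) * (J v).re := by
      rw [integral_const_mul, hJ1, mul_one]
    rw [h3]
    refine integral_mono (hJi.const_mul _) h1.re fun v => ?_
    have h4 : (Fw (dd h s) s (z - v) * ((J v).re : ℂ) * cexp (I * θ)).re =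
        (Fw (dd h s) s (z - v) * cexp (I * θ)).re * (J v).re := by
      rw [mul_right_comm, Complex.re_mul_ofReal]
    show -Real.exp (-(1 / (3 * κ))) * (J v).re ≤
      (Fw (dd h s) s (z - v) * ((J v).re : ℂ) * cexp (I * θ)).re
    rw [h4]
    exact mul_le_mul_of_nonneg_right (Fw_phase hs hκ hκ1 (by rw [him]; exact hz) hθ) (hp v)
  · -- the trivial bound
    intro z
    unfold GG
    have h1 : Integrable (fun u : ℝ => Fr (dd h s) s u * (b / 2 * Real.exp (b * |z.im|))) :=
      hFi.mul_const _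
    have h2 := norm_integral_le_of_norm_le h1 (f := fun u : ℝ => Fw (dd h s) s u * J (z - u))
      (Eventually.of_forall fun u => by
        rw [norm_mul, integral_norm_Fw]
        refine mul_le_mul_of_nonneg_left ?_ (Fr_pos _ _ _).le
        have h3 := hJb (z - u)
        rw [him] at h3
        exact h3)
    refine h2.trans ?_
    rw [integral_mul_const]
    have h3 : (0 : ℝ) ≤ b / 2 * Real.exp (b * |z.im|) := by positivity
    refine (mul_le_mul_of_nonneg_right hFle h3).trans (le_of_eq ?_)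
    ring

end Pool.Agent.N802.U
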