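import Pool.Agent.N802.U.Stm

/-!
# The first moment of the prime side, weighted by `|R|²`
-/

open Complex Filter Topology Set MeasureTheory
open scoped BigOperators ComplexConjugate

namespace Pool.Agent.N802.U

open TC (om om_pos om_cont om_integrable om_integral om_far lam lam_nonneg)

namespace FMaux

/-- Gaussian integral of `|R|²` times a bounded function -/
lemma K_pos {K0 : ℝ} (hK : 1 ≤ K0) (H : ℝ) : 0 ≤ K0 * Real.exp (-(H ^ 2) / (8 * K0 ^ 2)) := by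
  have := Real.exp_pos (-(H ^ 2) / (8 * K0 ^ 2))
  positivity

lemma int0 {S : Finset ℕ} {K0 y H : ℝ} (hS : Smo S K0 y) (hK : 1 ≤ K0) (hH : 0 < H) (τ : ℝ)
    (r : ℕ → ℂ) :
    |(∫ t, om τ H t * ‖RP S r t‖ ^ 2) - Real.sqrt (2 * Real.pi) * H * w1 S r| ≤
      Real.sqrt (2 * Real.pi) * H * w1 S r * (K0 * Real.exp (-(H ^ 2) / (8 * K0 ^ 2))) := by
  have h1 := om_TP (S ×ˢ S) (uc r) (fun x => x.1) (fun x => x.2) τ H K0 hH
    (fun x hx => (hS x.1 (Finset.mem_product.mp hx).1).1)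
    (fun x hx => (hS x.2 (Finset.mem_product.mp hx).2).1)
    (fun x hx => by
      have h2 := (hS x.1 (Finset.mem_product.mp hx).1).2.1
      have h3 : ((min x.1 x.2 : ℕ) : ℝ) ≤ (x.1 : ℝ) := by exact_mod_cast min_le_left _ _
      linarith)
  rw [diag0, n1_uc] at h1
  have e : ∫ t : ℝ, (om τ H t : ℂ) * TP (S ×ˢ S) (uc r) (fun x => x.1) (fun x => x.2) t =
      ((∫ t, om τ H t * ‖RP S r t‖ ^ 2 : ℝ) : ℂ) := by
    rw [← integral_complex_ofReal]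
    congr 1
    funext t
    rw [← U_eq S r (fun k hk => (hS k hk).1) t]
    push_cast
    ring
  rw [e, ← ofReal_mul, ← ofReal_sub, Complex.norm_real, Real.norm_eq_abs] at h1
  refine h1.trans ?_
  have h4 : n1 S r ^ 2 ≤ K0 * w1 S r :=
    n1_sq_le S r (fun k hk => ⟨(hS k hk).1, (hS k hk).2.1⟩) hK
  have h5 := Real.exp_pos (-(H ^ 2) / (8 * K0 ^ 2))
  have h6 : 0 ≤ Real.sqrt (2 * Real.pi) * H := by positivity
  calc Real.sqrt (2 * Real.pi) * H * (n1 S r ^ 2 * Real.exp (-(H ^ 2) / (8 * K0 ^ 2)))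
      ≤ Real.sqrt (2 * Real.pi) * H * ((K0 * w1 S r) * Real.exp (-(H ^ 2) / (8 * K0 ^ 2))) := by
        gcongr
    _ = _ := by ring

lemma int1 {S : Finset ℕ} {K0 y H : ℝ} (hS : Smo S K0 y) (hK : 1 ≤ K0) (hH : 0 < H) (τ : ℝ)
    (r : ℕ → ℂ) (Nr : Finset ℕ) (α : ℕ → ℂ)
    (hN : ∀ n ∈ Nr, 2 ≤ n ∧ y < (n.minFac : ℝ)) :
    ‖∫ t, (om τ H t : ℂ) * (((‖RP S r t‖ ^ 2 : ℝ) : ℂ) * RP Nr α t)‖ ≤
      Real.sqrt (2 * Real.pi) * H * w1 S r *
        (n1 Nr α * (K0 * Real.exp (-(H ^ 2) / (8 * K0 ^ 2)))) := by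
  have hS0 : ∀ k ∈ S, 0 < k := fun k hk => (hS k hk).1
  have hN0 : ∀ n ∈ Nr, 0 < n := fun n hn => by have := (hN n hn).1; omega
  have h1 := om_TP ((S ×ˢ S) ×ˢ Nr) (fun x => uc r x.1 * α x.2) (fun x => x.1.1 * x.2)
    (fun x => x.1.2 * 1) τ H K0 hH
    (fun x hx => by
      rw [Finset.mem_product, Finset.mem_product] at hx
      exact Nat.mul_pos (hS0 _ hx.1.1) (hN0 _ hx.2))
    (fun x hx => by
      rw [Finset.mem_product, Finset.mem_product] at hx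
      rw [mul_one]
      exact hS0 _ hx.1.2)
    (fun x hx => by
      rw [Finset.mem_product, Finset.mem_product] at hx
      have h2 := (hS _ hx.1.2).2.1
      have h3 : ((min (x.1.1 * x.2) (x.1.2 * 1) : ℕ) : ℝ) ≤ (x.1.2 : ℝ) := by
        exact_mod_cast (min_le_right _ _).trans (by rw [mul_one])
      linarith)
  have hdiag : ((S ×ˢ S) ×ˢ Nr).filter (fun x => x.1.1 * x.2 = x.1.2 * 1) = ∅ := by
    rw [Finset.filter_eq_empty_iff]
    intro x hx he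
    rw [Finset.mem_product, Finset.mem_product] at hx
    have h2 := hS _ hx.1.2
    have h3 := hN _ hx.2
    have h4 := rough_ne (k := x.1.1) (m := 1) h3.1 h3.2 h2.1 h2.2.2
    rw [mul_one] at h4 he
    exact h4 he
  rw [hdiag, Finset.sum_empty, mul_zero, sub_zero, n1_mul, n1_uc] at h1
  have e : ∀ t, (om τ H t : ℂ) * (((‖RP S r t‖ ^ 2 : ℝ) : ℂ) * RP Nr α t) = (om τ H t : ℂ) *
      TP ((S ×ˢ S) ×ˢ Nr) (fun x => uc r x.1 * α x.2) (fun x => x.1.1 * x.2)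
        (fun x => x.1.2 * 1) t := fun t => by rw [UD_eq S r hS0 Nr α hN0 t]
  simp_rw [e]
  refine h1.trans ?_
  have h4 : n1 S r ^ 2 ≤ K0 * w1 S r :=
    n1_sq_le S r (fun k hk => ⟨(hS k hk).1, (hS k hk).2.1⟩) hK
  have h5 := Real.exp_pos (-(H ^ 2) / (8 * K0 ^ 2))
  have h6 := n1_nonneg Nr α
  have h7 : 0 ≤ Real.sqrt (2 * Real.pi) * H := by positivity
  calc Real.sqrt (2 * Real.pi) * H * (n1 S r ^ 2 * n1 Nr α * Real.exp (-(H ^ 2) / (8 * K0 ^ 2)))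
      ≤ Real.sqrt (2 * Real.pi) * H *
        ((K0 * w1 S r) * n1 Nr α * Real.exp (-(H ^ 2) / (8 * K0 ^ 2))) := by
        gcongr
    _ = _ := by ring

/-- the weight times a bounded continuous function is integrable -/
lemma rho_int {S : Finset ℕ} {r : ℕ → ℂ} {τ H K : ℝ} (hH : 0 < H) {f : ℝ → ℂ} (hf : Continuous f)
    (hK : ∀ t, ‖f t‖ ≤ K) :
    Integrable (fun t => (om τ H t : ℂ) * (((‖RP S r t‖ ^ 2 : ℝ) : ℂ) * f t)) := by
  have hR : Continuous (fun t => RP S r t) := TP_cont _ _ _ _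
  have hK0 : 0 ≤ K := (norm_nonneg _).trans (hK 0)
  have h1 := (om_integrable τ H hH).mul_const (n1 S r ^ 2 * K)
  refine h1.mono' ?_ (Eventually.of_forall fun t => ?_)
  · have h2 := om_cont τ H
    have h3 : Continuous fun t => ((‖RP S r t‖ ^ 2 : ℝ) : ℂ) :=
      Complex.continuous_ofReal.comp (hR.norm.pow 2)
    exact ((Complex.continuous_ofReal.comp h2).mul (h3.mul hf)).aestronglyMeasurable
  · rw [norm_mul, norm_mul, Complex.norm_real, Complex.norm_real, Real.norm_eq_abs,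
      Real.norm_eq_abs, abs_of_pos (om_pos τ H t), abs_of_nonneg (sq_nonneg _)]
    have h4 : ‖RP S r t‖ ≤ n1 S r := TP_norm_le _ _ _ _ _
    have h5 : ‖RP S r t‖ ^ 2 ≤ n1 S r ^ 2 := pow_le_pow_left₀ (norm_nonneg _) h4 2
    have := om_pos τ H t
    have := hK t
    gcongr

/-- the smooth part is bounded pointwise -/
lemma int_bd {S : Finset ℕ} {r : ℕ → ℂ} {τ H K : ℝ} (hH : 0 < H) {f : ℝ → ℂ}
    (hK : ∀ t, ‖f t‖ ≤ K) :
    ‖∫ t, (om τ H t : ℂ) * (((‖RP S r t‖ ^ 2 : ℝ) : ℂ) * f t)‖ ≤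
      K * ∫ t, om τ H t * ‖RP S r t‖ ^ 2 := by
  have hR : Continuous (fun t => RP S r t) := TP_cont _ _ _ _
  refine (norm_integral_le_integral_norm _).trans ?_
  rw [← integral_const_mul]
  have i1 : Integrable fun t => om τ H t * ‖RP S r t‖ ^ 2 := by
    refine TC.om_mul_integrable (K := n1 S r ^ 2) hH (hR.norm.pow 2) fun t => ?_
    rw [abs_of_nonneg (sq_nonneg _)]
    exact pow_le_pow_left₀ (norm_nonneg _) (TP_norm_le _ _ _ _ _) 2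
  refine integral_mono_of_nonneg (Eventually.of_forall fun t => norm_nonneg _) (i1.const_mul K)
    (Eventually.of_forall fun t => ?_)
  simp only
  rw [norm_mul, norm_mul, Complex.norm_real, Complex.norm_real, Real.norm_eq_abs,
      Real.norm_eq_abs, abs_of_pos (om_pos τ H t), abs_of_nonneg (sq_nonneg _)]
  have h1 := om_pos τ H t
  have h2 := hK t
  have h3 : 0 ≤ om τ H t * ‖RP S r t‖ ^ 2 := by positivity
  nlinarith

lemma conj_int {S : Finset ℕ} {r : ℕ → ℂ} {τ H : ℝ} (f : ℝ → ℂ) :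
    ∫ t, (om τ H t : ℂ) * (((‖RP S r t‖ ^ 2 : ℝ) : ℂ) * conj (f t)) =
      conj (∫ t, (om τ H t : ℂ) * (((‖RP S r t‖ ^ 2 : ℝ) : ℂ) * f t)) := by
  rw [← integral_conj]
  congr 1
  funext t
  rw [map_mul, map_mul, Complex.conj_ofReal, Complex.conj_ofReal]

/-- the tail outside `[5T/4, 7T/4]` -/
lemma tail {S : Finset ℕ} {r : ℕ → ℂ} {τ H K dd : ℝ} (hH : 0 < H) (hd : 0 ≤ dd) {f : ℝ → ℂ}
    (hf : Continuous f) (hK : ∀ t, ‖f t‖ ≤ K) :
    ‖(∫ t in (τ - dd)..(τ + dd), (om τ H t : ℂ) * (((‖RP S r t‖ ^ 2 : ℝ) : ℂ) * f t)) -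
      ∫ t, (om τ H t : ℂ) * (((‖RP S r t‖ ^ 2 : ℝ) : ℂ) * f t)‖ ≤
      Real.exp (-(dd ^ 2) / (4 * H ^ 2)) * (Real.sqrt (2 * Real.pi) * (Real.sqrt 2 * H)) *
        (n1 S r ^ 2 * K) := by
  set g : ℝ → ℂ := fun t => (om τ H t : ℂ) * (((‖RP S r t‖ ^ 2 : ℝ) : ℂ) * f t) with hg
  have hi : Integrable g := rho_int hH hf hK
  have hK0 : 0 ≤ K := (norm_nonneg _).trans (hK 0)
  rw [intervalIntegral.integral_of_le (by linarith)]
  have e1 := integral_add_compl (measurableSet_Ioc (a := τ - dd) (b := τ + dd)) hi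
  have e2 : (∫ t in Ioc (τ - dd) (τ + dd), g t) - ∫ t, g t =
      - ∫ t in (Ioc (τ - dd) (τ + dd))ᶜ, g t := by
    rw [← e1]; ring
  rw [e2, norm_neg]
  have hH2 : 0 < Real.sqrt 2 * H := by positivity
  have i2 := (om_integrable τ (Real.sqrt 2 * H) hH2).const_mul
    (Real.exp (-(dd ^ 2) / (4 * H ^ 2)) * (n1 S r ^ 2 * K))
  have h3 : ‖∫ t in (Ioc (τ - dd) (τ + dd))ᶜ, g t‖ ≤
      ∫ t in (Ioc (τ - dd) (τ + dd))ᶜ, Real.exp (-(dd ^ 2) / (4 * H ^ 2)) * (n1 S r ^ 2 * K) *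
        om τ (Real.sqrt 2 * H) t := by
    refine norm_integral_le_of_norm_le i2.integrableOn ?_
    refine (ae_restrict_iff' measurableSet_Ioc.compl).mpr (Eventually.of_forall fun t ht => ?_)
    have hfar : dd ≤ |t - τ| := by
      rw [mem_compl_iff, mem_Ioc, not_and_or, not_lt, not_le] at ht
      rcases ht with h | h
      · have : dd ≤ -(t - τ) := by linarith
        exact this.trans (neg_le_abs _)
      · have : dd ≤ t - τ := by linarith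
        exact this.trans (le_abs_self _)
    have h5 := om_far hH hd hfar
    simp only [hg]
    rw [norm_mul, norm_mul, Complex.norm_real, Complex.norm_real, Real.norm_eq_abs,
      Real.norm_eq_abs, abs_of_pos (om_pos τ H t), abs_of_nonneg (sq_nonneg _)]
    have h6 : ‖RP S r t‖ ^ 2 ≤ n1 S r ^ 2 :=
      pow_le_pow_left₀ (norm_nonneg _) (TP_norm_le _ _ _ _ _) 2
    have h7 := om_pos τ (Real.sqrt 2 * H) t
    have h8 := Real.exp_pos (-(dd ^ 2) / (4 * H ^ 2))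
    calc om τ H t * (‖RP S r t‖ ^ 2 * ‖f t‖) ≤
        (Real.exp (-(dd ^ 2) / (4 * H ^ 2)) * om τ (Real.sqrt 2 * H) t) *
          (n1 S r ^ 2 * K) := by
          have := hK t
          gcongr
      _ = _ := by ring
  refine h3.trans ?_
  have h4 : ∫ t in (Ioc (τ - dd) (τ + dd))ᶜ, Real.exp (-(dd ^ 2) / (4 * H ^ 2)) *
      (n1 S r ^ 2 * K) * om τ (Real.sqrt 2 * H) t ≤
      ∫ t, Real.exp (-(dd ^ 2) / (4 * H ^ 2)) * (n1 S r ^ 2 * K) * om τ (Real.sqrt 2 * H) t := by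
    refine setIntegral_le_integral i2 (Eventually.of_forall fun t => ?_)
    have h7 := om_pos τ (Real.sqrt 2 * H) t
    have h8 := Real.exp_pos (-(dd ^ 2) / (4 * H ^ 2))
    simp only [Pi.zero_apply]
    positivity
  refine h4.trans (le_of_eq ?_)
  rw [integral_const_mul, om_integral _ _ hH2]
  ring

/-- the bound for the smoothed density -/
lemma gs_bd (hgs : S_gs) {b : ℝ} {W : ℂ → ℂ} {w : ℝ → ℂ} (hb : 0 < b) (h : BW b W w) (x : ℝ) :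
    ‖gs w x‖ ≤ 1 / (2 * Real.pi) * ∫ y : ℝ, ‖W y‖ * Real.exp (-y ^ 2 / 2) := by
  rw [hgs b W w hb h x, norm_mul, Complex.norm_real, Real.norm_eq_abs,
    abs_of_pos (by positivity)]
  apply mul_le_mul_of_nonneg_left _ (by positivity)
  refine (norm_integral_le_integral_norm _).trans (le_of_eq ?_)
  congr 1
  funext y
  have e : cexp (I * x * y) = cexp (((x * y : ℝ) : ℂ) * I) := by
    congr 1
    push_cast
    ring
  rw [norm_mul, norm_mul, e, Complex.norm_exp_ofReal_mul_I, Complex.norm_real, Real.norm_eq_abs,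
    abs_of_pos (Real.exp_pos _)]
  ring

/-- the coefficients of the first sum -/
noncomputable def ca (a : ℕ → ℂ) (w : ℝ → ℂ) (n : ℕ) : ℂ :=
  a n * (Real.sqrt n : ℂ)⁻¹ * gs w (0 - Real.log n)

/-- the coefficients of the second sum -/
noncomputable def cb (a : ℕ → ℂ) (w : ℝ → ℂ) (n : ℕ) : ℂ :=
  conj (conj (a n) * (Real.sqrt n : ℂ)⁻¹ * gs w (0 + Real.log n))

lemma ca_bd {a : ℕ → ℂ} {w : ℝ → ℂ} {B : ℝ}
    (ha : ∀ n, ‖a n‖ ≤ ArithmeticFunction.vonMangoldt n) (hB : ∀ x, ‖gs w x‖ ≤ B) (n : ℕ) :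
    ‖ca a w n‖ ≤ B * lam n := by
  unfold ca lam
  have h1 : ‖((Real.sqrt n : ℂ))⁻¹‖ = (Real.sqrt n)⁻¹ := by
    rw [norm_inv, Complex.norm_real, Real.norm_eq_abs, abs_of_nonneg (Real.sqrt_nonneg _)]
  rw [norm_mul, norm_mul, h1]
  have h2 := ha n
  have h3 := hB (0 - Real.log n)
  have h4 : 0 ≤ (Real.sqrt (n : ℝ))⁻¹ := by positivity
  have h5 : 0 ≤ ArithmeticFunction.vonMangoldt n := ArithmeticFunction.vonMangoldt_nonneg
  calc ‖a n‖ * (Real.sqrt n)⁻¹ * ‖gs w (0 - Real.log n)‖ ≤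
      ArithmeticFunction.vonMangoldt n * (Real.sqrt n)⁻¹ * B := by gcongr
    _ = _ := by ring

lemma cb_bd {a : ℕ → ℂ} {w : ℝ → ℂ} {B : ℝ}
    (ha : ∀ n, ‖a n‖ ≤ ArithmeticFunction.vonMangoldt n) (hB : ∀ x, ‖gs w x‖ ≤ B) (n : ℕ) :
    ‖cb a w n‖ ≤ B * lam n := by
  unfold cb lam
  have h1 : ‖((Real.sqrt n : ℂ))⁻¹‖ = (Real.sqrt n)⁻¹ := by
    rw [norm_inv, Complex.norm_real, Real.norm_eq_abs, abs_of_nonneg (Real.sqrt_nonneg _)]
  rw [RCLike.norm_conj, norm_mul, norm_mul, h1, RCLike.norm_conj]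
  have h2 := ha n
  have h3 := hB (0 + Real.log n)
  have h4 : 0 ≤ (Real.sqrt (n : ℝ))⁻¹ := by positivity
  have h5 : 0 ≤ ArithmeticFunction.vonMangoldt n := ArithmeticFunction.vonMangoldt_nonneg
  calc ‖a n‖ * (Real.sqrt n)⁻¹ * ‖gs w (0 + Real.log n)‖ ≤
      ArithmeticFunction.vonMangoldt n * (Real.sqrt n)⁻¹ * B := by gcongr
    _ = _ := by ring

lemma n1_bd {N : Finset ℕ} {c : ℕ → ℂ} {B : ℝ} (h : ∀ n, ‖c n‖ ≤ B * lam n) :
    n1 N c ≤ B * ∑ n ∈ N, lam n := by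
  unfold n1
  rw [Finset.mul_sum]
  exact Finset.sum_le_sum fun n _ => h n

lemma RP_splitU (X : ℕ) (y : ℝ) {c : ℕ → ℂ} (h1 : c 1 = 0) (t : ℝ) :
    RP (Finset.Icc 1 X) c t = RP ((Finset.Icc 2 X).filter (fun n => (n.minFac : ℝ) ≤ y)) c t +
      RP ((Finset.Icc 2 X).filter (fun n => ¬ (n.minFac : ℝ) ≤ y)) c t := by
  unfold RP TP
  rw [Finset.sum_filter_add_sum_filter_not]
  symm
  apply Finset.sum_subset
  · intro n hn
    rw [Finset.mem_Icc] at hn ⊢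
    omega
  · intro n hn hn2
    rw [Finset.mem_Icc] at hn hn2
    have : n = 1 := by omega
    rw [this, h1, zero_mul]

lemma PD_eq {a : ℕ → ℂ} {w : ℝ → ℂ} (X : ℕ) (ℓ t : ℝ) :
    PD a X w ℓ 0 t = ℓ * gs w 0 - RP (Finset.Icc 1 X) (ca a w) t -
      conj (RP (Finset.Icc 1 X) (cb a w) t) := by
  unfold PD RP TP ca cb
  rw [map_sum]
  congr 1
  refine Finset.sum_congr rfl fun n _ => ?_
  rw [map_mul, Complex.conj_conj, mn_conj]

lemma lin5 {f0 f1 f2 f3 f4 : ℝ → ℂ} (h0 : Integrable f0) (h1 : Integrable f1)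
    (h2 : Integrable f2) (h3 : Integrable f3) (h4 : Integrable f4) :
    ∫ t, (f0 t - (f1 t + f2 t) - (f3 t + f4 t)) =
      (∫ t, f0 t) - ((∫ t, f1 t) + ∫ t, f2 t) - ((∫ t, f3 t) + ∫ t, f4 t) := by
  have e1 : ∫ t, (f0 t - (f1 t + f2 t) - (f3 t + f4 t)) =
      (∫ t, (f0 t - (f1 t + f2 t))) - ∫ t, (f3 t + f4 t) :=
    integral_sub (h0.sub (h1.add h2)) (h3.add h4)
  have e2 : ∫ t, (f0 t - (f1 t + f2 t)) = (∫ t, f0 t) - ∫ t, (f1 t + f2 t) :=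
    integral_sub h0 (h1.add h2)
  have e3 : ∫ t, (f1 t + f2 t) = (∫ t, f1 t) + ∫ t, f2 t := integral_add h1 h2
  have e4 : ∫ t, (f3 t + f4 t) = (∫ t, f3 t) + ∫ t, f4 t := integral_add h3 h4
  rw [e1, e2, e3, e4]

/-- the numerical facts -/
lemma params {ε s : ℝ} (hε : 0 < ε) (hs0 : 0 < s) (hs2 : s ≤ 1 / 2) :
    ∃ T0 : ℝ, 10 ≤ T0 ∧ ∀ T : ℝ, T0 ≤ T → 10 ≤ T ∧ 192 ≤ Real.log T ∧ Real.log T ≤ T ∧
      1 ≤ T ^ (s ^ 2) ∧ T ^ (s ^ 2) ≤ T ∧
      25 * T * (T ^ (s ^ 2) * Real.exp (-((T / Real.log T) ^ 2) / (8 * (T ^ (s ^ 2)) ^ 2))) ≤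
        min ε 1 ∧
      36 * T ^ 2 * Real.exp (-((T / 4) ^ 2) / (4 * (T / Real.log T) ^ 2)) ≤ ε := by
  have hδ0 : 0 < s ^ 2 := by positivity
  have hδ1 : s ^ 2 ≤ 1 / 4 := by nlinarith
  have ev : ∀ᶠ T : ℝ in atTop, 10 ≤ T ∧ 192 ≤ Real.log T ∧ 36 / ε ≤ T ∧
      25 * (T ^ 2 * Real.exp (-T)) ≤ min ε 1 ∧ 512 ≤ T ^ (1 / 4 : ℝ) := by
    have t1 : Tendsto (fun T : ℝ => 25 * (T ^ 2 * Real.exp (-T))) atTop (𝓝 0) := by
      have := (Real.tendsto_pow_mul_exp_neg_atTop_nhds_zero 2).const_mul 25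
      simpa using this
    have h4 : (0 : ℝ) < min ε 1 := by positivity
    filter_upwards [eventually_ge_atTop 10, Real.tendsto_log_atTop.eventually_ge_atTop 192,
      eventually_ge_atTop (36 / ε), t1.eventually (eventually_le_nhds h4),
      (tendsto_rpow_atTop (by norm_num : (0 : ℝ) < 1 / 4)).eventually_ge_atTop 512]
      with T h1 h2 h3 h4 h5
    exact ⟨h1, h2, h3, h4, h5⟩
  obtain ⟨T0, hT0⟩ := eventually_atTop.mp ev
  refine ⟨T0, (hT0 T0 le_rfl).1, ?_⟩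
  intro T hT
  obtain ⟨hT10, hL, hTε, hTe, hT4⟩ := hT0 T hT
  clear ev hT0
  have hT0' : 0 < T := by linarith
  have hT1 : 1 ≤ T := by linarith
  have hℓ0 : 0 < Real.log T := by linarith
  have hℓT : Real.log T ≤ T := by
    have := Real.log_le_sub_one_of_pos hT0'
    linarith
  have hK1 : 1 ≤ T ^ (s ^ 2) := Real.one_le_rpow hT1 hδ0.le
  have hK4 : T ^ (s ^ 2) ≤ T ^ (1 / 4 : ℝ) := Real.rpow_le_rpow_of_exponent_le hT1 hδ1
  have hKT : T ^ (s ^ 2) ≤ T := by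
    refine hK4.trans ?_
    calc T ^ (1 / 4 : ℝ) ≤ T ^ (1 : ℝ) := Real.rpow_le_rpow_of_exponent_le hT1 (by norm_num)
      _ = T := Real.rpow_one T
  refine ⟨hT10, hL, hℓT, hK1, hKT, ?_, ?_⟩
  · have hexp : Real.exp (-((T / Real.log T) ^ 2) / (8 * (T ^ (s ^ 2)) ^ 2)) ≤
        Real.exp (-T) := by
      apply Real.exp_le_exp.mpr
      rw [neg_div]
      apply neg_le_neg
      rw [le_div_iff₀ (by positivity)]
      have h1 : Real.log T ≤ T ^ (1 / 8 : ℝ) / (1 / 8 : ℝ) :=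
        Real.log_le_rpow_div hT0'.le (by norm_num)
      have e8 : T = (T ^ (1 / 8 : ℝ)) ^ 8 := by
        rw [← Real.rpow_natCast, ← Real.rpow_mul hT0'.le]
        norm_num
      have e2 : T ^ (1 / 4 : ℝ) = (T ^ (1 / 8 : ℝ)) ^ 2 := by
        rw [← Real.rpow_natCast, ← Real.rpow_mul hT0'.le]
        norm_num
      have hu0 : 0 < T ^ (1 / 8 : ℝ) := by positivity
      rw [e2] at hK4 hT4
      generalize T ^ (1 / 8 : ℝ) = u at *
      generalize T ^ (s ^ 2) = K0 at *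
      generalize Real.log T = ℓ at *
      subst e8
      have h2 : ℓ ≤ 8 * u := by linarith
      have h3 : K0 ^ 2 ≤ (u ^ 2) ^ 2 := pow_le_pow_left₀ (by linarith) hK4 2
      have h5 : ℓ ^ 2 ≤ (8 * u) ^ 2 := pow_le_pow_left₀ hℓ0.le h2 2
      rw [div_pow, le_div_iff₀ (by positivity)]
      calc u ^ 8 * (8 * K0 ^ 2) * ℓ ^ 2 ≤ u ^ 8 * (8 * (u ^ 2) ^ 2) * (8 * u) ^ 2 := by gcongr
        _ = u ^ 14 * 512 := by ring
        _ ≤ u ^ 14 * u ^ 2 := by gcongr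
        _ = (u ^ 8) ^ 2 := by ring
    refine le_trans ?_ hTe
    have h1 := Real.exp_pos (-T)
    calc 25 * T * (T ^ (s ^ 2) *
          Real.exp (-((T / Real.log T) ^ 2) / (8 * (T ^ (s ^ 2)) ^ 2))) ≤
          25 * T * (T * Real.exp (-T)) := by gcongr
      _ = _ := by ring
  · have e : -((T / 4) ^ 2) / (4 * (T / Real.log T) ^ 2) = -(Real.log T ^ 2 / 64) := by
      field_simp
      norm_num
    rw [e]
    have h1 : Real.exp (-(Real.log T ^ 2 / 64)) ≤ Real.exp (-(3 * Real.log T)) := by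
      apply Real.exp_le_exp.mpr
      apply neg_le_neg
      rw [le_div_iff₀ (by norm_num)]
      nlinarith
    have h2 : Real.exp (-(3 * Real.log T)) = (T ^ 3)⁻¹ := by
      rw [Real.exp_neg, show (3 : ℝ) * Real.log T = ((3 : ℕ) : ℝ) * Real.log T by norm_num,
        Real.exp_nat_mul, Real.exp_log hT0']
    rw [h2] at h1
    calc 36 * T ^ 2 * Real.exp (-(Real.log T ^ 2 / 64)) ≤ 36 * T ^ 2 * (T ^ 3)⁻¹ := by gcongr
      _ = 36 / T := by field_simp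
      _ ≤ ε := by
        rw [div_le_iff₀ hT0']
        rw [div_le_iff₀ hε] at hTε
        linarith

/-- the integral over the whole line -/
lemma whole {S : Finset ℕ} {r : ℕ → ℂ} {K0 y H τ e1 B M P : ℝ} (hS : Smo S K0 y) (hK : 1 ≤ K0)
    (hH : 0 < H) (he1 : K0 * Real.exp (-(H ^ 2) / (8 * K0 ^ 2)) = e1) (h1 : e1 ≤ 1)
    (_hM : 0 ≤ M) (hP : 0 ≤ P) (c : ℂ) (α β : ℕ → ℂ) (Nr Ns : Finset ℕ)
    (hN : ∀ n ∈ Nr, 2 ≤ n ∧ y < (n.minFac : ℝ)) (hc : ‖c‖ ≤ B)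
    (b1 : n1 Nr α ≤ M) (b2 : n1 Nr β ≤ M) (b3 : n1 Ns α ≤ P) (b4 : n1 Ns β ≤ P) :
    ‖(∫ t, (om τ H t : ℂ) * (((‖RP S r t‖ ^ 2 : ℝ) : ℂ) *
      (c - (RP Ns α t + RP Nr α t) - conj (RP Ns β t + RP Nr β t)))) -
      ((Real.sqrt (2 * Real.pi) * H * w1 S r : ℝ) : ℂ) * c‖ ≤
      (Real.sqrt (2 * Real.pi) * H * w1 S r) * (e1 * B + 2 * (P * 2) + 2 * (M * e1)) := by
  have i0 := int0 hS hK hH τ r
  have i1 := int1 hS hK hH τ r Nr α hN
  have i2 := int1 hS hK hH τ r Nr β hN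
  rw [he1] at i0 i1 i2
  have he0 : 0 ≤ e1 := by rw [← he1]; exact K_pos hK H
  have hW00 : 0 ≤ Real.sqrt (2 * Real.pi) * H * w1 S r := by
    have := w1_nonneg S r
    positivity
  generalize Real.sqrt (2 * Real.pi) * H * w1 S r = W0 at *
  have hn : ∀ (N : Finset ℕ) (c : ℕ → ℂ) (t : ℝ), ‖RP N c t‖ ≤ n1 N c :=
    fun N c t => TP_norm_le _ _ _ _ _
  have hRc : ∀ (N : Finset ℕ) (c : ℕ → ℂ), Continuous (fun t => RP N c t) :=
    fun N c => TP_cont _ _ _ _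
  have i3 : ‖∫ t, (om τ H t : ℂ) * (((‖RP S r t‖ ^ 2 : ℝ) : ℂ) * RP Ns α t)‖ ≤
      n1 Ns α * ∫ t, om τ H t * ‖RP S r t‖ ^ 2 := int_bd hH (hn _ _)
  have i4 : ‖∫ t, (om τ H t : ℂ) * (((‖RP S r t‖ ^ 2 : ℝ) : ℂ) * RP Ns β t)‖ ≤
      n1 Ns β * ∫ t, om τ H t * ‖RP S r t‖ ^ 2 := int_bd hH (hn _ _)
  have q1 : Integrable (fun t => (om τ H t : ℂ) * (((‖RP S r t‖ ^ 2 : ℝ) : ℂ) *
      RP Nr α t)) := rho_int hH (hRc _ _) (hn _ _)
  have q3 : Integrable (fun t => (om τ H t : ℂ) * (((‖RP S r t‖ ^ 2 : ℝ) : ℂ) *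
      RP Ns α t)) := rho_int hH (hRc _ _) (hn _ _)
  have q2 : Integrable (fun t => (om τ H t : ℂ) * (((‖RP S r t‖ ^ 2 : ℝ) : ℂ) *
      conj (RP Nr β t))) := rho_int hH (Complex.continuous_conj.comp (hRc _ _))
        (fun t => by rw [RCLike.norm_conj]; exact hn _ _ t)
  have q4 : Integrable (fun t => (om τ H t : ℂ) * (((‖RP S r t‖ ^ 2 : ℝ) : ℂ) *
      conj (RP Ns β t))) := rho_int hH (Complex.continuous_conj.comp (hRc _ _))
        (fun t => by rw [RCLike.norm_conj]; exact hn _ _ t)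
  have q0 : Integrable (fun t => (om τ H t : ℂ) * (((‖RP S r t‖ ^ 2 : ℝ) : ℂ) * c)) :=
    rho_int hH continuous_const (fun t => le_rfl)
  have e : (fun t => (om τ H t : ℂ) * (((‖RP S r t‖ ^ 2 : ℝ) : ℂ) *
      (c - (RP Ns α t + RP Nr α t) - conj (RP Ns β t + RP Nr β t)))) = fun t =>
      (om τ H t : ℂ) * (((‖RP S r t‖ ^ 2 : ℝ) : ℂ) * c) -
      ((om τ H t : ℂ) * (((‖RP S r t‖ ^ 2 : ℝ) : ℂ) * RP Ns α t) +
        (om τ H t : ℂ) * (((‖RP S r t‖ ^ 2 : ℝ) : ℂ) * RP Nr α t)) -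
      ((om τ H t : ℂ) * (((‖RP S r t‖ ^ 2 : ℝ) : ℂ) * conj (RP Ns β t)) +
        (om τ H t : ℂ) * (((‖RP S r t‖ ^ 2 : ℝ) : ℂ) * conj (RP Nr β t))) := by
    funext t
    rw [map_add]
    ring
  have e0 : ∫ t, (om τ H t : ℂ) * (((‖RP S r t‖ ^ 2 : ℝ) : ℂ) * c) =
      ((∫ t, om τ H t * ‖RP S r t‖ ^ 2 : ℝ) : ℂ) * c := by
    rw [← integral_complex_ofReal, ← integral_mul_const]
    congr 1
    funext t
    push_cast
    ring
  rw [e, lin5 q0 q3 q1 q4 q2, e0, conj_int, conj_int]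
  have hI10 : 0 ≤ ∫ t, om τ H t * ‖RP S r t‖ ^ 2 := integral_nonneg fun t => by
    have := om_pos τ H t
    positivity
  generalize (∫ t, om τ H t * ‖RP S r t‖ ^ 2) = I1 at *
  generalize (∫ t, (om τ H t : ℂ) * (((‖RP S r t‖ ^ 2 : ℝ) : ℂ) * RP Nr α t)) = A1 at *
  generalize (∫ t, (om τ H t : ℂ) * (((‖RP S r t‖ ^ 2 : ℝ) : ℂ) * RP Nr β t)) = A2 at *
  generalize (∫ t, (om τ H t : ℂ) * (((‖RP S r t‖ ^ 2 : ℝ) : ℂ) * RP Ns α t)) = A3 at *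
  generalize (∫ t, (om τ H t : ℂ) * (((‖RP S r t‖ ^ 2 : ℝ) : ℂ) * RP Ns β t)) = A4 at *
  clear e e0 q0 q1 q2 q3 q4 hn hRc
  have hI1le : I1 ≤ 2 * W0 := by
    have h2 := (abs_le.mp i0).2
    have h3 : W0 * e1 ≤ W0 * 1 := mul_le_mul_of_nonneg_left h1 hW00
    linarith
  have e5 : (I1 : ℂ) * c - (A3 + A1) - (conj A4 + conj A2) - (W0 : ℂ) * c =
      ((I1 - W0 : ℝ) : ℂ) * c - (A3 + A1) - (conj A4 + conj A2) := by
    push_cast
    ring
  rw [e5]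
  have m0 : ‖((I1 - W0 : ℝ) : ℂ) * c‖ ≤ W0 * e1 * B := by
    rw [norm_mul, Complex.norm_real, Real.norm_eq_abs]
    exact mul_le_mul i0 hc (norm_nonneg _) (mul_nonneg hW00 he0)
  have n2 := norm_add_le A3 A1
  have n3 := norm_add_le (conj A4) (conj A2)
  have n4 := norm_sub_le (((I1 - W0 : ℝ) : ℂ) * c - (A3 + A1)) (conj A4 + conj A2)
  have n5 := norm_sub_le (((I1 - W0 : ℝ) : ℂ) * c) (A3 + A1)
  rw [RCLike.norm_conj, RCLike.norm_conj] at n3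
  have m1 : ‖A1‖ ≤ W0 * (M * e1) :=
    i1.trans (mul_le_mul_of_nonneg_left (mul_le_mul_of_nonneg_right b1 he0) hW00)
  have m2 : ‖A2‖ ≤ W0 * (M * e1) :=
    i2.trans (mul_le_mul_of_nonneg_left (mul_le_mul_of_nonneg_right b2 he0) hW00)
  have m3 : ‖A3‖ ≤ P * (2 * W0) := i3.trans (mul_le_mul b3 hI1le hI10 hP)
  have m4 : ‖A4‖ ≤ P * (2 * W0) := i4.trans (mul_le_mul b4 hI1le hI10 hP)
  have e6 : W0 * (e1 * B + 2 * (P * 2) + 2 * (M * e1)) =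
      W0 * e1 * B + 2 * (P * (2 * W0)) + 2 * (W0 * (M * e1)) := by ring
  rw [e6]
  linarith

/-- the tail, in the form needed -/
lemma tail2 {S : Finset ℕ} {r : ℕ → ℂ} {K0 y H T M ε : ℝ} (hS : Smo S K0 y) (hK : 1 ≤ K0)
    (hKT : K0 ≤ T) (hH : 0 < H) {f : ℝ → ℂ} (hf : Continuous f)
    (hM : ∀ t, ‖f t‖ ≤ M * (73 * T)) (hM0 : 0 ≤ M)
    (hε : 36 * T ^ 2 * Real.exp (-((T / 4) ^ 2) / (4 * H ^ 2)) ≤ ε) :
    ‖(∫ t in (5 / 4 * T)..(7 / 4 * T), (om (3 / 2 * T) H t : ℂ) *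
        (((‖RP S r t‖ ^ 2 : ℝ) : ℂ) * f t)) -
      ∫ t, (om (3 / 2 * T) H t : ℂ) * (((‖RP S r t‖ ^ 2 : ℝ) : ℂ) * f t)‖ ≤
      (Real.sqrt (2 * Real.pi) * H * w1 S r) * (4 * ε * M) := by
  have hT0 : 0 < T := by linarith
  have htl := tail (S := S) (r := r) (τ := 3 / 2 * T) (dd := T / 4) hH (by positivity) hf hM
  have ea : 3 / 2 * T - T / 4 = 5 / 4 * T := by ring
  have eb : 3 / 2 * T + T / 4 = 7 / 4 * T := by ring
  rw [ea, eb] at htl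
  refine htl.trans ?_
  have hn1 : n1 S r ^ 2 ≤ T * w1 S r :=
    (n1_sq_le S r (fun k hk => ⟨(hS k hk).1, (hS k hk).2.1⟩) hK).trans
      (mul_le_mul_of_nonneg_right hKT (w1_nonneg S r))
  have hs2' : Real.sqrt 2 ≤ 3 / 2 := by
    rw [Real.sqrt_le_left (by norm_num)]
    norm_num
  have hw := w1_nonneg S r
  have hκ0 : 0 < Real.exp (-((T / 4) ^ 2) / (4 * H ^ 2)) := Real.exp_pos _
  have hp : 0 ≤ Real.sqrt (2 * Real.pi) := Real.sqrt_nonneg _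
  have hn0 : 0 ≤ n1 S r ^ 2 := sq_nonneg _
  generalize n1 S r ^ 2 = n2 at *
  generalize w1 S r = w at *
  generalize Real.exp (-((T / 4) ^ 2) / (4 * H ^ 2)) = κ at *
  generalize Real.sqrt (2 * Real.pi) = p at *
  generalize Real.sqrt 2 = q at *
  clear htl hM ea eb hS hf
  have hWM : 0 ≤ p * H * w * M := by positivity
  calc κ * (p * (q * H)) * (n2 * (M * (73 * T))) ≤
      κ * (p * (3 / 2 * H)) * ((T * w) * (M * (73 * T))) := by gcongr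
    _ = (3 / 2 * 73 / 36 * (36 * T ^ 2 * κ)) * (p * H * w * M) := by ring
    _ ≤ (3 / 2 * 73 / 36 * ε) * (p * H * w * M) := by gcongr
    _ ≤ 4 * ε * (p * H * w * M) := by
        apply mul_le_mul_of_nonneg_right _ hWM
        have : 0 ≤ ε := le_trans (by positivity) hε
        linarith
    _ = _ := by ring

end FMaux

open FMaux

/-- the first moment of the prime side -/
theorem fm (hgs : S_gs) : S_fm := by
  intro ε hε η hη hη1
  obtain ⟨s, hs0, hs1, hs2⟩ : ∃ s : ℝ, 0 < s ∧ s ≤ ε / 400 ∧ s ≤ 1 / 2 :=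
    ⟨min (ε / 400) (1 / 2), by positivity, min_le_left _ _, min_le_right _ _⟩
  have hδ0 : 0 < s ^ 2 := by positivity
  obtain ⟨T0, hT00, hT0⟩ := params hε hs0 hs2
  refine ⟨s ^ 2, T0, hδ0, hT00, ?_⟩
  intro T hT a ha S hS r b W w hBW hb hbL
  obtain ⟨hT10, hL, hℓT, hK1, hKT, hTe1, htail⟩ := hT0 T hT
  clear hT0
  have hT0' : 0 < T := by linarith
  have hT1 : 1 ≤ T := by linarith
  have hgB : ∀ x, ‖gs w x‖ ≤ 1 / (2 * Real.pi) * ∫ y : ℝ, ‖W y‖ * Real.exp (-y ^ 2 / 2) :=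
    gs_bd hgs hb hBW
  have hB'0 : 0 ≤ ∫ y : ℝ, ‖W y‖ * Real.exp (-y ^ 2 / 2) := integral_nonneg fun x => by positivity
  generalize (∫ y : ℝ, ‖W y‖ * Real.exp (-y ^ 2 / 2)) = B' at *
  have hBB : 1 / (2 * Real.pi) * B' ≤ B' := by
    have hpi := Real.pi_gt_three
    have h2 : 1 / (2 * Real.pi) ≤ 1 := by
      rw [div_le_one (by positivity)]
      linarith
    calc 1 / (2 * Real.pi) * B' ≤ 1 * B' := by gcongr
      _ = B' := one_mul _
  generalize 1 / (2 * Real.pi) * B' = B at *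
  have hB0 : 0 ≤ B := (norm_nonneg _).trans (hgB 0)
  have hXT : ((⌊T ^ (1 - η)⌋₊ : ℕ) : ℝ) ≤ T := by
    have h1 : ((⌊T ^ (1 - η)⌋₊ : ℕ) : ℝ) ≤ T ^ (1 - η) := Nat.floor_le (by positivity)
    refine h1.trans ?_
    calc T ^ (1 - η) ≤ T ^ (1 : ℝ) := Real.rpow_le_rpow_of_exponent_le hT1 (by linarith)
      _ = T := Real.rpow_one T
  generalize ⌊T ^ (1 - η)⌋₊ = X at *
  have hrho : ∀ t, rho T S r t = om (3 / 2 * T) (T / Real.log T) t * ‖RP S r t‖ ^ 2 :=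
    fun t => rfl
  have hnr : nr T S r = Real.sqrt (2 * Real.pi) * (T / Real.log T) * w1 S r := rfl
  have hℓ0 : 0 < Real.log T := by linarith
  have hH0 : 0 < T / Real.log T := by positivity
  generalize Real.log T = ℓ at *
  generalize hHd : T / ℓ = H at *
  generalize T ^ (s ^ 2) = K0 at *
  obtain ⟨e1, he1⟩ : ∃ e1, K0 * Real.exp (-(H ^ 2) / (8 * K0 ^ 2)) = e1 := ⟨_, rfl⟩
  rw [he1] at hTe1
  have he0 : 0 ≤ e1 := by rw [← he1]; exact K_pos hK1 H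
  have hTeε : 25 * T * e1 ≤ ε := hTe1.trans (min_le_left _ _)
  have he11 : e1 ≤ 1 := by
    have h1 : 25 * T * e1 ≤ 1 := hTe1.trans (min_le_right _ _)
    have h2 : 1 * e1 ≤ 25 * T * e1 := by
      apply mul_le_mul_of_nonneg_right _ he0
      linarith
    linarith
  have hsq : Real.sqrt X ≤ T := by
    rw [Real.sqrt_le_left hT0'.le]
    nlinarith
  have hy0 : 0 ≤ s ^ 2 * ℓ ^ 2 := by positivity
  have hsy : Real.sqrt (s ^ 2 * ℓ ^ 2) = s * ℓ := by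
    rw [← mul_pow, Real.sqrt_sq (by positivity)]
  generalize s ^ 2 * ℓ ^ 2 = y at *
  obtain ⟨Nr, hNr⟩ : ∃ Nr, Nr = (Finset.Icc 2 X).filter (fun n => ¬ (n.minFac : ℝ) ≤ y) :=
    ⟨_, rfl⟩
  obtain ⟨Ns, hNs⟩ : ∃ Ns, Ns = (Finset.Icc 2 X).filter (fun n => (n.minFac : ℝ) ≤ y) :=
    ⟨_, rfl⟩
  have hNr2 : ∀ n ∈ Nr, 2 ≤ n ∧ y < (n.minFac : ℝ) := by
    intro n hn
    rw [hNr, Finset.mem_filter, Finset.mem_Icc] at hn
    exact ⟨hn.1.1, not_le.mp hn.2⟩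
  have hlamX : ∑ n ∈ Finset.Icc 1 X, lam n ≤ 12 * T := (sum_lam_le X).trans (by linarith)
  have hlamr : ∑ n ∈ Nr, lam n ≤ 12 * T := by
    refine le_trans ?_ hlamX
    apply Finset.sum_le_sum_of_subset_of_nonneg
    · intro n hn
      rw [hNr, Finset.mem_filter, Finset.mem_Icc] at hn
      rw [Finset.mem_Icc]
      omega
    · intro n _ _
      exact lam_nonneg n
  have hlams : ∑ n ∈ Ns, lam n ≤ 48 * (s * ℓ) := by
    rw [← hsy, hNs]
    exact smooth_sum X y hy0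
  have ha1 : a 1 = 0 := by
    have := ha 1
    rw [ArithmeticFunction.vonMangoldt_apply_one] at this
    exact norm_le_zero_iff.mp this
  have hca := ca_bd ha hgB
  have hcb := cb_bd ha hgB
  have hca1 : ca a w 1 = 0 := by unfold ca; rw [ha1]; ring
  have hcb1 : cb a w 1 = 0 := by unfold cb; rw [ha1]; simp
  have hFeq : ∀ t, PD a X w ℓ 0 t = ℓ * gs w 0 - (RP Ns (ca a w) t + RP Nr (ca a w) t) -
      conj (RP Ns (cb a w) t + RP Nr (cb a w) t) := by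
    intro t
    rw [PD_eq, RP_splitU X y hca1 t, RP_splitU X y hcb1 t, hNr, hNs]
  have b1 : n1 Nr (ca a w) ≤ B * (12 * T) :=
    (n1_bd hca).trans (mul_le_mul_of_nonneg_left hlamr hB0)
  have b2 : n1 Nr (cb a w) ≤ B * (12 * T) :=
    (n1_bd hcb).trans (mul_le_mul_of_nonneg_left hlamr hB0)
  have b3 : n1 Ns (ca a w) ≤ B * (48 * (s * ℓ)) :=
    (n1_bd hca).trans (mul_le_mul_of_nonneg_left hlams hB0)
  have b4 : n1 Ns (cb a w) ≤ B * (48 * (s * ℓ)) :=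
    (n1_bd hcb).trans (mul_le_mul_of_nonneg_left hlams hB0)
  have hg0 : ‖(ℓ : ℂ) * gs w 0‖ ≤ ℓ * B := by
    rw [norm_mul, Complex.norm_real, Real.norm_eq_abs, abs_of_pos hℓ0]
    exact mul_le_mul_of_nonneg_left (hgB 0) hℓ0.le
  clear hca hcb hca1 hcb1 ha1 hlams hlamr hlamX hNr hNs hsq hgB ha hBW
  have hn : ∀ (N : Finset ℕ) (c : ℕ → ℂ) (t : ℝ), ‖RP N c t‖ ≤ n1 N c :=
    fun N c t => TP_norm_le _ _ _ _ _
  have hRc : ∀ (N : Finset ℕ) (c : ℕ → ℂ), Continuous (fun t => RP N c t) :=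
    fun N c => TP_cont _ _ _ _
  have hsl : s * ℓ ≤ 1 / 2 * T := mul_le_mul hs2 hℓT hℓ0.le (by norm_num)
  have hwh := whole (τ := 3 / 2 * T) hS hK1 hH0 he1 he11 (by positivity : 0 ≤ B * (12 * T))
    (by positivity : 0 ≤ B * (48 * (s * ℓ))) (ℓ * gs w 0) (ca a w) (cb a w) Nr Ns hNr2 hg0
    b1 b2 b3 b4 (r := r)
  have hfc : Continuous (fun t => (ℓ : ℂ) * gs w 0 - (RP Ns (ca a w) t + RP Nr (ca a w) t) -
      conj (RP Ns (cb a w) t + RP Nr (cb a w) t)) :=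
    (continuous_const.sub ((hRc _ _).add (hRc _ _))).sub
      (Complex.continuous_conj.comp ((hRc _ _).add (hRc _ _)))
  have hfb : ∀ t, ‖(ℓ : ℂ) * gs w 0 - (RP Ns (ca a w) t + RP Nr (ca a w) t) -
      conj (RP Ns (cb a w) t + RP Nr (cb a w) t)‖ ≤ B * (73 * T) := by
    intro t
    have n2 := norm_add_le (RP Ns (ca a w) t) (RP Nr (ca a w) t)
    have n3 := norm_add_le (RP Ns (cb a w) t) (RP Nr (cb a w) t)
    have n4 := norm_sub_le ((ℓ : ℂ) * gs w 0 - (RP Ns (ca a w) t + RP Nr (ca a w) t))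
      (conj (RP Ns (cb a w) t + RP Nr (cb a w) t))
    have n5 := norm_sub_le ((ℓ : ℂ) * gs w 0) (RP Ns (ca a w) t + RP Nr (ca a w) t)
    rw [RCLike.norm_conj] at n4
    have m1 := (hn Ns (ca a w) t).trans b3
    have m2 := (hn Nr (ca a w) t).trans b1
    have m3 := (hn Ns (cb a w) t).trans b4
    have m4 := (hn Nr (cb a w) t).trans b2
    have k1 : B * (48 * (s * ℓ)) ≤ B * (24 * T) :=
      mul_le_mul_of_nonneg_left (by linarith) hB0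
    have k2 : ℓ * B ≤ T * B := mul_le_mul_of_nonneg_right hℓT hB0
    linarith
  have htl := tail2 (r := r) hS hK1 hKT hH0 hfc hfb hB0 htail
  have eI : (fun t : ℝ => (rho T S r t : ℂ) * PD a X w ℓ 0 t) = fun t : ℝ =>
      (om (3 / 2 * T) H t : ℂ) * (((‖RP S r t‖ ^ 2 : ℝ) : ℂ) *
      (ℓ * gs w 0 - (RP Ns (ca a w) t + RP Nr (ca a w) t) -
        conj (RP Ns (cb a w) t + RP Nr (cb a w) t))) := by
    funext t
    rw [hFeq t, hrho t]
    push_cast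
    ring
  have eg : ((nr T S r * ℓ : ℝ) : ℂ) * gs w 0 =
      ((Real.sqrt (2 * Real.pi) * H * w1 S r : ℝ) : ℂ) * (ℓ * gs w 0) := by
    rw [hnr]
    push_cast
    ring
  rw [eI, eg, hnr]
  have hW00 : 0 ≤ Real.sqrt (2 * Real.pi) * H * w1 S r := by
    have := w1_nonneg S r
    positivity
  generalize Real.sqrt (2 * Real.pi) * H * w1 S r = W0 at *
  have n6 := norm_sub_le_norm_sub_add_norm_sub
    (∫ t in (5 / 4 * T)..(7 / 4 * T), (om (3 / 2 * T) H t : ℂ) * (((‖RP S r t‖ ^ 2 : ℝ) : ℂ) *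
      (ℓ * gs w 0 - (RP Ns (ca a w) t + RP Nr (ca a w) t) -
        conj (RP Ns (cb a w) t + RP Nr (cb a w) t))))
    (∫ t, (om (3 / 2 * T) H t : ℂ) * (((‖RP S r t‖ ^ 2 : ℝ) : ℂ) *
      (ℓ * gs w 0 - (RP Ns (ca a w) t + RP Nr (ca a w) t) -
        conj (RP Ns (cb a w) t + RP Nr (cb a w) t)))) ((W0 : ℂ) * (ℓ * gs w 0))
  refine n6.trans ((add_le_add htl hwh).trans ?_)
  clear n6 htl hwh eI eg hfc hfb hFeq hn hRc b1 b2 b3 b4 hg0 hNr2 hS htail hrho hnr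
  have c0 : ℓ * e1 ≤ T * e1 := mul_le_mul_of_nonneg_right hℓT he0
  have c1 : ℓ * e1 + 24 * (T * e1) ≤ ε := by linarith
  have c2 : 192 * (s * ℓ) ≤ 48 / 100 * (ε * ℓ) := by
    have := mul_le_mul_of_nonneg_right hs1 hℓ0.le
    linarith
  have c3 : 5 * ε ≤ 1 / 2 * (ε * ℓ) := by
    have := mul_le_mul_of_nonneg_left hL hε.le
    linarith
  have c5 : 0 ≤ ε * ℓ := by positivity
  have c4 : (ℓ * e1 + 24 * (T * e1)) + 192 * (s * ℓ) + 4 * ε ≤ ε * ℓ := by linarith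
  have hWB : 0 ≤ W0 * B := mul_nonneg hW00 hB0
  calc W0 * (4 * ε * B) + W0 * (e1 * (ℓ * B) + 2 * (B * (48 * (s * ℓ)) * 2) +
      2 * (B * (12 * T) * e1)) =
      ((ℓ * e1 + 24 * (T * e1)) + 192 * (s * ℓ) + 4 * ε) * (W0 * B) := by ring
    _ ≤ (ε * ℓ) * (W0 * B) := mul_le_mul_of_nonneg_right c4 hWB
    _ ≤ (ε * ℓ) * (W0 * B') := mul_le_mul_of_nonneg_left (mul_le_mul_of_nonneg_left hBB hW00) c5
    _ = ε * (W0 * (ℓ * B')) := by ring

end Pool.Agent.N802.U
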