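import Pool.Agent.N802.U.Stm

/-!
# The explicit formula for band-limited windows
-/

open Complex Filter Topology Set MeasureTheory
open scoped BigOperators ComplexConjugate

namespace Pool.Agent.N802.U

open H370 TC

namespace Efaux

/-- a bounded density with compact support times a continuous function is integrable -/
lemma BW_int {b : ℝ} {W : ℂ → ℂ} {w : ℝ → ℂ} (h : BW b W w) {g : ℝ → ℂ} (hg : Continuous g) :
    Integrable (fun v : ℝ => w v * g v) := by
  obtain ⟨M, hM⟩ := h.bdd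
  have h1 : IntegrableOn (fun v : ℝ => w v * g v) (Set.Icc (-b) b) := by
    have h2 : IntegrableOn g (Set.Icc (-b) b) := hg.continuousOn.integrableOn_compact isCompact_Icc
    exact h2.bdd_mul (c := M) h.meas.aestronglyMeasurable (Filter.Eventually.of_forall hM)
  have h3 : (fun v : ℝ => w v * g v) = (Set.Icc (-b) b).indicator (fun v : ℝ => w v * g v) := by
    funext v
    by_cases hv : v ∈ Set.Icc (-b) b
    · rw [Set.indicator_of_mem hv]
    · rw [Set.indicator_of_notMem hv, h.sup v, zero_mul]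
      by_contra hc
      push Not at hc
      exact hv (abs_le.mp hc)
  rw [h3]
  exact h1.integrable_indicator measurableSet_Icc

/-- the density is square integrable -/
lemma BW_memLp {b : ℝ} {W : ℂ → ℂ} {w : ℝ → ℂ} (h : BW b W w) : MemLp w 2 := by
  obtain ⟨M, hM⟩ := h.bdd
  have h3 : w = (Set.Icc (-b) b).indicator w := by
    funext v
    by_cases hv : v ∈ Set.Icc (-b) b
    · rw [Set.indicator_of_mem hv]
    · rw [Set.indicator_of_notMem hv, h.sup v]
      by_contra hc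
      push Not at hc
      exact hv (abs_le.mp hc)
  rw [h3, memLp_indicator_iff_restrict measurableSet_Icc]
  have : IsFiniteMeasure (volume.restrict (Set.Icc (-b) b)) :=
    ⟨by rw [Measure.restrict_apply_univ]; exact measure_Icc_lt_top⟩
  exact MemLp.of_bound h.meas.aestronglyMeasurable M (Filter.Eventually.of_forall hM)

lemma exp_le_inv (x : ℝ) : Real.exp (-|x|) ^ 2 ≤ (1 + x ^ 2)⁻¹ := by
  have h1 : |x| + 1 ≤ Real.exp |x| := Real.add_one_le_exp _
  have h2 : 1 + x ^ 2 ≤ Real.exp |x| ^ 2 := by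
    have h3 : (|x| + 1) ^ 2 ≤ Real.exp |x| ^ 2 := by gcongr
    have h4 := abs_nonneg x
    have h5 : |x| ^ 2 = x ^ 2 := sq_abs x
    nlinarith
  rw [Real.exp_neg, inv_pow]
  have : 0 < 1 + x ^ 2 := by positivity
  exact inv_anti₀ this h2

/-- Cauchy-Schwarz against `exp (-|ξ + v|)` -/
lemma cs {b : ℝ} {W : ℂ → ℂ} {w : ℝ → ℂ} (h : BW b W w) (ξ : ℝ) :
    Integrable (fun v : ℝ => ‖w v‖ * Real.exp (-|ξ + v|)) ∧
    ∫ v : ℝ, ‖w v‖ * Real.exp (-|ξ + v|) ≤ 2 * Real.sqrt (q2 w) := by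
  have hI0 : Integrable (fun x : ℝ => (1 + x ^ 2)⁻¹) := integrable_inv_one_add_sq
  have hI1 : Integrable (fun v : ℝ => (1 + (ξ + v) ^ 2)⁻¹) := hI0.comp_add_left ξ
  have hE1 : ∫ v : ℝ, (1 + (ξ + v) ^ 2)⁻¹ = Real.pi := by
    rw [integral_add_left_eq_self (fun x : ℝ => (1 + x ^ 2)⁻¹) ξ, integral_univ_inv_one_add_sq]
  have hm : Continuous (fun v : ℝ => Real.exp (-|ξ + v|)) := by fun_prop
  have hI2 : Integrable (fun v : ℝ => Real.exp (-|ξ + v|) ^ 2) := by
    refine hI1.mono' (hm.pow 2).aestronglyMeasurable (Filter.Eventually.of_forall fun v => ?_)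
    rw [Real.norm_of_nonneg (by positivity)]
    exact exp_le_inv _
  have hE2 : ∫ v : ℝ, Real.exp (-|ξ + v|) ^ 2 ≤ 4 := by
    calc ∫ v : ℝ, Real.exp (-|ξ + v|) ^ 2 ≤ ∫ v : ℝ, (1 + (ξ + v) ^ 2)⁻¹ :=
          integral_mono hI2 hI1 fun v => exp_le_inv _
      _ = Real.pi := hE1
      _ ≤ 4 := Real.pi_le_four
  have hM2 : MemLp (fun v : ℝ => Real.exp (-|ξ + v|)) 2 := by
    rw [memLp_two_iff_integrable_sq hm.aestronglyMeasurable]
    exact hI2
  have hw := BW_memLp h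
  have hint : Integrable (fun v : ℝ => ‖w v‖ * Real.exp (-|ξ + v|)) := by
    have := hM2.mul' (r := 1) hw.norm
    exact memLp_one_iff_integrable.mp this
  refine ⟨hint, ?_⟩
  have hH := integral_mul_norm_le_Lp_mul_Lq (μ := volume) (f := fun v : ℝ => ‖w v‖)
    (g := fun v : ℝ => Real.exp (-|ξ + v|)) (p := 2) (q := 2)
    ⟨by norm_num, by norm_num, by norm_num⟩
    (by simpa using hw.norm) (by simpa using hM2)
  have e1 : ∀ v : ℝ, ‖Real.exp (-|ξ + v|)‖ = Real.exp (-|ξ + v|) := fun v =>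
    Real.norm_of_nonneg (Real.exp_pos _).le
  simp only [e1, norm_norm] at hH
  have e2 : ∀ x : ℝ, x ^ (2 : ℝ) = x ^ 2 := fun x => by
    rw [← Real.rpow_natCast]; norm_num
  simp only [e2] at hH
  refine hH.trans ?_
  rw [← Real.sqrt_eq_rpow, ← Real.sqrt_eq_rpow, mul_comm]
  have h4 : Real.sqrt (∫ v : ℝ, Real.exp (-|ξ + v|) ^ 2) ≤ 2 := by
    rw [show (2 : ℝ) = Real.sqrt 4 by
      rw [show (4 : ℝ) = 2 ^ 2 by norm_num, Real.sqrt_sq (by norm_num)]]
    exact Real.sqrt_le_sqrt hE2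
  have h5 : 0 ≤ Real.sqrt (q2 w) := Real.sqrt_nonneg _
  unfold q2 at h5 ⊢
  exact mul_le_mul_of_nonneg_right h4 h5

section

variable {F : ℂ → ℂ} (hF : GoodL F) {U1 U2 : ℝ} (hU : 1 ≤ U1)

include hF hU in
/-- reflection -/
lemma AA_neg (u t : ℝ) : AA F U1 U2 (-u) t = conj (AA F U1 U2 u t) := by
  rw [AA_eq hF hU, AA_eq hF hU, map_sum,
    ← sum_refl hF hU (fun s => (mult F s : ℂ) * hh (-u) t s)]
  refine Finset.sum_congr rfl fun s hs => ?_
  have hs' := (mem_Zf hF hU).mp hs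
  rw [map_mul, hh_conj, hh_eq, Complex.conj_natCast, zz_refl,
    mult_refl hF hs'.1 hs'.2.1 (by linarith [hs'.2.2.1])]
  congr 2
  push_cast
  congr 1
  ring

include hF hU in
lemma AA_cont (t : ℝ) : Continuous (fun u : ℝ => AA F U1 U2 u t) := by
  simp_rw [AA_eq hF hU, hh_eq]
  fun_prop

include hF hU in
/-- the sum over the zeros as an average of `AA` -/
lemma SS_eq {b : ℝ} {W : ℂ → ℂ} {w : ℝ → ℂ} (h : BW b W w) (ξ t : ℝ) :
    SS F U1 U2 W ξ t = ∫ v : ℝ, w v * (cexp (-(I * v * t)) * AA F U1 U2 (ξ + v) t) := by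
  have h1 : ∀ v : ℝ, w v * (cexp (-(I * v * t)) * AA F U1 U2 (ξ + v) t) =
      ∑ s ∈ Zf F U1 U2, w v * ((mult F s : ℂ) * (cexp (I * ξ * zz s) *
        (cexp (I * v * (zz s - t)) * cexp (-(zz s - t) ^ 2 / 2)))) := by
    intro v
    rw [AA_eq hF hU, Finset.mul_sum, Finset.mul_sum]
    refine Finset.sum_congr rfl fun s _ => ?_
    rw [hh_eq]
    have e : cexp (I * ((ξ + v : ℝ) : ℂ) * zz s) * cexp (-(I * v * t)) =
        cexp (I * ξ * zz s) * cexp (I * v * (zz s - t)) := by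
      rw [← Complex.exp_add, ← Complex.exp_add]
      congr 1
      push_cast
      ring
    linear_combination (w v * (mult F s : ℂ) * cexp (-(zz s - t) ^ 2 / 2)) * e
  simp_rw [h1]
  rw [integral_finsetSum _ fun s _ => BW_int h (by fun_prop)]
  unfold SS
  refine Finset.sum_congr rfl fun s _ => ?_
  rw [h.rep]
  have e2 : ∀ v : ℝ, w v * ((mult F s : ℂ) * (cexp (I * ξ * zz s) *
        (cexp (I * v * (zz s - t)) * cexp (-(zz s - t) ^ 2 / 2)))) =
      ((mult F s : ℂ) * cexp (I * ξ * zz s) * cexp (-(zz s - t) ^ 2 / 2)) *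
        (w v * cexp (I * v * (zz s - t))) := fun v => by ring
  simp_rw [e2]
  rw [integral_const_mul]
  ring

end

/-- the model of `AA` -/
noncomputable def MM (a : ℕ → ℂ) (X : ℕ) (L u t : ℝ) : ℂ :=
  (1 / Real.sqrt (2 * Real.pi) : ℝ) * (L * cexp (I * u * t) * Real.exp (-u ^ 2 / 2) -
    ∑ n ∈ Finset.Icc 1 X, pterm a u t n - conj (∑ n ∈ Finset.Icc 1 X, pterm a (-u) t n))

lemma MM_neg (a : ℕ → ℂ) (X : ℕ) (L u t : ℝ) : MM a X L (-u) t = conj (MM a X L u t) := by
  unfold MM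
  rw [map_mul, map_sub, map_sub, map_mul, map_mul, ← Complex.exp_conj]
  simp only [map_mul, Complex.conj_ofReal, Complex.conj_I, neg_neg, Complex.conj_conj]
  have e1 : (I * ((-u : ℝ) : ℂ) * t) = -I * u * t := by push_cast; ring
  rw [e1, neg_sq]
  ring

lemma MM_cont (a : ℕ → ℂ) (X : ℕ) (L t : ℝ) : Continuous (fun u : ℝ => MM a X L u t) := by
  unfold MM pterm
  have h1 : Continuous (fun u : ℝ => ∑ n ∈ Finset.Icc 1 X, (a n * (Real.sqrt n : ℂ)⁻¹ *
      cexp (I * t * (u - Real.log n)) * Real.exp (-(u - Real.log n) ^ 2 / 2))) := by fun_prop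
  have h2 : Continuous (fun u : ℝ => ∑ n ∈ Finset.Icc 1 X, (a n * (Real.sqrt n : ℂ)⁻¹ *
      cexp (I * t * (((-u : ℝ) : ℂ) - Real.log n)) * Real.exp (-(-u - Real.log n) ^ 2 / 2))) := by
    fun_prop
  have h3 := Complex.continuous_conj.comp h2
  have h4 : Continuous (fun u : ℝ => (L : ℂ) * cexp (I * u * t) * Real.exp (-u ^ 2 / 2)) := by
    fun_prop
  exact continuous_const.mul ((h4.sub h1).sub h3)

lemma mn_one_right (n : ℕ) (t : ℝ) : mn n 1 t = cexp (-(I * t * Real.log n)) := by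
  unfold mn
  congr 1
  push_cast
  simp
  ring

lemma mn_one_left (n : ℕ) (t : ℝ) : mn 1 n t = cexp (I * t * Real.log n) := by
  unfold mn
  congr 1
  push_cast
  simp
  ring

/-- the integral of the model is the prime side -/
lemma MM_int {b : ℝ} {W : ℂ → ℂ} {w : ℝ → ℂ} (h : BW b W w) (a : ℕ → ℂ) (X : ℕ) (L ξ t : ℝ) :
    ∫ v : ℝ, w v * (cexp (-(I * v * t)) * MM a X L (ξ + v) t) =
      cexp (I * ξ * t) * PD a X w L ξ t := by
  set κ : ℂ := ((1 / Real.sqrt (2 * Real.pi) : ℝ) : ℂ) with hκ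
  have h1 : ∀ v : ℝ, w v * (cexp (-(I * v * t)) * MM a X L (ξ + v) t) =
      (cexp (I * ξ * t) * L * κ) * (w v * (Real.exp (-(ξ + v) ^ 2 / 2) : ℝ)) -
      (∑ n ∈ Finset.Icc 1 X, (cexp (I * ξ * t) * (a n * (Real.sqrt n : ℂ)⁻¹ * κ * mn n 1 t)) *
        (w v * (Real.exp (-(ξ - Real.log n + v) ^ 2 / 2) : ℝ))) -
      (∑ n ∈ Finset.Icc 1 X, (cexp (I * ξ * t) * (conj (a n) * (Real.sqrt n : ℂ)⁻¹ * κ * mn 1 n t)) *
        (w v * (Real.exp (-(ξ + Real.log n + v) ^ 2 / 2) : ℝ))) := by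
    intro v
    unfold MM
    rw [← hκ, map_sum]
    have eA : w v * (cexp (-(I * v * t)) * (κ * (L * cexp (I * ((ξ + v : ℝ) : ℂ) * t) *
        (Real.exp (-(ξ + v) ^ 2 / 2) : ℝ)))) =
        (cexp (I * ξ * t) * L * κ) * (w v * (Real.exp (-(ξ + v) ^ 2 / 2) : ℝ)) := by
      have e : cexp (-(I * v * t)) * cexp (I * ((ξ + v : ℝ) : ℂ) * t) = cexp (I * ξ * t) := by
        rw [← Complex.exp_add]
        congr 1
        push_cast
        ring
      linear_combination (w v * κ * L * (Real.exp (-(ξ + v) ^ 2 / 2) : ℝ)) * e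
    have eB : ∀ n : ℕ, w v * (cexp (-(I * v * t)) * (κ * pterm a (ξ + v) t n)) =
        (cexp (I * ξ * t) * (a n * (Real.sqrt n : ℂ)⁻¹ * κ * mn n 1 t)) *
        (w v * (Real.exp (-(ξ - Real.log n + v) ^ 2 / 2) : ℝ)) := by
      intro n
      unfold pterm
      rw [mn_one_right]
      have e : cexp (-(I * v * t)) * cexp (I * t * (((ξ + v : ℝ) : ℂ) - Real.log n)) =
          cexp (I * ξ * t) * cexp (-(I * t * Real.log n)) := by
        rw [← Complex.exp_add, ← Complex.exp_add]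
        congr 1
        push_cast
        ring
      have e2 : -(ξ + v - Real.log n) ^ 2 / 2 = -(ξ - Real.log n + v) ^ 2 / 2 := by ring
      rw [e2]
      linear_combination (w v * κ * a n * (Real.sqrt n : ℂ)⁻¹ *
        (Real.exp (-(ξ - Real.log n + v) ^ 2 / 2) : ℝ)) * e
    have eC : ∀ n : ℕ, w v * (cexp (-(I * v * t)) * (κ * conj (pterm a (-(ξ + v)) t n))) =
        (cexp (I * ξ * t) * (conj (a n) * (Real.sqrt n : ℂ)⁻¹ * κ * mn 1 n t)) *
        (w v * (Real.exp (-(ξ + Real.log n + v) ^ 2 / 2) : ℝ)) := by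
      intro n
      unfold pterm
      rw [mn_one_left]
      simp only [map_mul, map_inv₀, Complex.conj_ofReal, ← Complex.exp_conj, map_sub, Complex.conj_I]
      have e : cexp (-(I * v * t)) * cexp (-I * t * (((-(ξ + v) : ℝ) : ℂ) - Real.log n)) =
          cexp (I * ξ * t) * cexp (I * t * Real.log n) := by
        rw [← Complex.exp_add, ← Complex.exp_add]
        congr 1
        push_cast
        ring
      have e2 : -(-(ξ + v) - Real.log n) ^ 2 / 2 = -(ξ + Real.log n + v) ^ 2 / 2 := by ring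
      rw [e2]
      linear_combination (w v * κ * conj (a n) * (Real.sqrt n : ℂ)⁻¹ *
        (Real.exp (-(ξ + Real.log n + v) ^ 2 / 2) : ℝ)) * e
    simp only [mul_sub, Finset.mul_sum]
    rw [eA]
    congr 1
    · congr 1
      exact Finset.sum_congr rfl fun n _ => eB n
    · exact Finset.sum_congr rfl fun n _ => eC n
  simp_rw [h1]
  have i1 : ∀ c : ℂ, ∀ y : ℝ, Integrable (fun v : ℝ => c * (w v * (Real.exp (-(y + v) ^ 2 / 2) : ℝ))) :=
    fun c y => (BW_int h (by fun_prop)).const_mul c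
  have i2 : ∀ (c : ℕ → ℂ) (y : ℕ → ℝ), Integrable (fun v : ℝ => ∑ n ∈ Finset.Icc 1 X,
      c n * (w v * (Real.exp (-(y n + v) ^ 2 / 2) : ℝ))) :=
    fun c y => integrable_finsetSum _ fun n _ => i1 _ _
  have j1 := i1 (cexp (I * ξ * t) * L * κ) ξ
  have j2 := i2 (fun n => cexp (I * ξ * t) * (a n * (Real.sqrt n : ℂ)⁻¹ * κ * mn n 1 t))
    (fun n => ξ - Real.log n)
  have j3 := i2 (fun n => cexp (I * ξ * t) * (conj (a n) * (Real.sqrt n : ℂ)⁻¹ * κ * mn 1 n t))
    (fun n => ξ + Real.log n)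
  have j12 : Integrable (fun v : ℝ => (cexp (I * ξ * t) * L * κ) *
      (w v * (Real.exp (-(ξ + v) ^ 2 / 2) : ℝ)) -
      (∑ n ∈ Finset.Icc 1 X, (cexp (I * ξ * t) * (a n * (Real.sqrt n : ℂ)⁻¹ * κ * mn n 1 t)) *
        (w v * (Real.exp (-(ξ - Real.log n + v) ^ 2 / 2) : ℝ)))) := j1.sub j2
  rw [integral_sub j12 j3, integral_sub j1 j2,
    integral_finsetSum _ (fun (n : ℕ) _ => i1 _ (ξ - Real.log (n : ℝ))),
    integral_finsetSum _ (fun (n : ℕ) _ => i1 _ (ξ + Real.log (n : ℝ)))]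
  simp_rw [integral_const_mul]
  unfold PD gs
  rw [← hκ, mul_sub, mul_sub, Finset.mul_sum, Finset.mul_sum]
  congr 1
  · congr 1
    · ring
    · refine Finset.sum_congr rfl fun n _ => ?_
      ring
  · refine Finset.sum_congr rfl fun n _ => ?_
    ring

/-- the sum of `1 / n ^ 2` -/
noncomputable def S2 : ℝ := ∑' n : ℕ, 1 / (n : ℝ) ^ 2

lemma S2_nonneg : 0 ≤ S2 := tsum_nonneg fun _ => by positivity

lemma pterm_neg_sum {a : ℕ → ℂ} (ha : ∀ n, ‖a n‖ ≤ ArithmeticFunction.vonMangoldt n) (X : ℕ)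
    (u t : ℝ) : ‖∑ n ∈ Finset.Icc 1 X, pterm a (-u) t n‖ ≤ 2 * S2 * Real.exp (2 - 2 * u) := by
  calc ‖∑ n ∈ Finset.Icc 1 X, pterm a (-u) t n‖ ≤ ∑ n ∈ Finset.Icc 1 X, ‖pterm a (-u) t n‖ :=
        norm_sum_le _ _
    _ ≤ ∑ n ∈ Finset.Icc 1 X, 2 * Real.exp (2 + 2 * -u) * (1 / (n : ℝ) ^ 2) := by
        refine Finset.sum_le_sum fun n _ => ?_
        rw [norm_pterm]
        exact pt_le ha _ _
    _ = 2 * Real.exp (2 + 2 * -u) * ∑ n ∈ Finset.Icc 1 X, (1 / (n : ℝ) ^ 2) := by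
        rw [Finset.mul_sum]
    _ ≤ 2 * Real.exp (2 + 2 * -u) * S2 := by
        have := sum_inv_sq.sum_le_tsum (Finset.Icc 1 X) fun n _ => by positivity
        unfold S2
        gcongr
    _ = _ := by
        rw [show 2 + 2 * -u = 2 - 2 * u by ring]
        ring

end Efaux

open Efaux

/-- **The explicit formula for band-limited windows.** -/
theorem ef {F : ℂ → ℂ} (hF : GoodL F) : S_ef F := by
  obtain ⟨a, ha, C0, T1, hC0, hT1, H⟩ := explicit_formula hF
  set C1 : ℝ := C0 + 2 * S2 * Real.exp 4 + 2 * S2 * Real.exp 2 with hC1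
  have hS2 := S2_nonneg
  have hC1pos : 0 < C1 := by positivity
  refine ⟨a, 2 * C1, ha, by positivity, fun η hη hη4 => ?_⟩
  -- the threshold: `3 * L ≤ η ^ 2 * L ^ 2 / 4`
  refine ⟨max T1 (Real.exp (16 / η ^ 2)), le_max_of_le_left hT1, fun T hT => ?_⟩
  have hTT1 : T1 ≤ T := (le_max_left _ _).trans hT
  have hTe : Real.exp (16 / η ^ 2) ≤ T := (le_max_right _ _).trans hT
  have hT10 : (10 : ℝ) ≤ T := hT1.trans hTT1
  have hTpos : 0 < T := by linarith
  set L := Real.log T with hL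
  have hLbig : 16 / η ^ 2 ≤ L := by
    rw [hL, Real.le_log_iff_exp_le hTpos]; exact hTe
  have hLpos : 0 < L := lt_of_lt_of_le (by positivity) hLbig
  obtain ⟨U1, U2, hU1, hU1', hU2, hU2', HE⟩ := H T hTT1
  refine ⟨U1, U2, hU1, hU1', hU2, hU2', fun b W w hW ξ t hb ht1 ht2 => ?_⟩
  have hU : 1 ≤ U1 := by linarith
  set X : ℕ := ⌊T ^ (1 - η)⌋₊ with hX
  have hXlog : (1 - η) * L ≤ Real.log (X + 1) := by
    have h1 : T ^ (1 - η) ≤ (X : ℝ) + 1 := (Nat.lt_floor_add_one _).le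
    calc (1 - η) * L = Real.log (T ^ (1 - η)) := by rw [Real.log_rpow hTpos]
      _ ≤ _ := Real.log_le_log (Real.rpow_pos_of_pos hTpos _) h1
  have htiny : 2 * L - (η * L) ^ 2 / 4 ≤ -L := by
    have h1 : 16 ≤ η ^ 2 * L := by
      rw [div_le_iff₀ (by positivity)] at hLbig
      linarith
    nlinarith
  -- the approximation for nonnegative arguments
  have key0 : ∀ u : ℝ, 0 ≤ u → u ≤ (1 - 2 * η) * L →
      ‖AA F U1 U2 u t - MM a X L u t‖ ≤ C1 * Real.exp (-u) := by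
    intro u hu0 huL
    have huL' : u ≤ L := by nlinarith
    have h1 := HE u t hu0 huL' ht1 ht2
    have h2 := PP_trunc ha u t (η * L) X (by positivity) (by linarith)
    have h3 := pterm_neg_sum ha X u t
    set κ : ℝ := 1 / Real.sqrt (2 * Real.pi) with hκ
    have hκ0 : 0 ≤ κ := by positivity
    have hκ1 : κ ≤ 1 := by
      rw [hκ, div_le_one (Real.sqrt_pos.mpr (by positivity))]
      rw [show (1 : ℝ) = Real.sqrt 1 by simp]
      apply Real.sqrt_le_sqrt
      have := Real.pi_gt_three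
      linarith
    have e1 : AA F U1 U2 u t - MM a X L u t =
        (AA F U1 U2 u t - (κ : ℂ) * (L * cexp (I * u * t) * Real.exp (-u ^ 2 / 2) - PP a u t)) +
        (κ : ℂ) * (-(PP a u t - ∑ n ∈ Finset.Icc 1 X, pterm a u t n)) +
        (κ : ℂ) * conj (∑ n ∈ Finset.Icc 1 X, pterm a (-u) t n) := by
      unfold MM
      rw [← hκ]
      ring
    rw [e1]
    refine (norm_add₃_le).trans ?_
    have n1 : ‖(κ : ℂ) * (-(PP a u t - ∑ n ∈ Finset.Icc 1 X, pterm a u t n))‖ ≤
        2 * S2 * Real.exp 4 * Real.exp (-u) := by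
      rw [norm_mul, norm_neg, Complex.norm_real, Real.norm_of_nonneg hκ0]
      calc κ * ‖PP a u t - ∑ n ∈ Finset.Icc 1 X, pterm a u t n‖
          ≤ 1 * (2 * S2 * (Real.exp (4 + 2 * u) * Real.exp (-(η * L) ^ 2 / 4))) := by
            apply mul_le_mul hκ1 h2 (norm_nonneg _) zero_le_one
        _ = 2 * S2 * Real.exp (4 + 2 * u + -(η * L) ^ 2 / 4) := by rw [one_mul, ← Real.exp_add]
        _ ≤ 2 * S2 * Real.exp (4 + -u) := by
            have : 4 + 2 * u + -(η * L) ^ 2 / 4 ≤ 4 + -u := by nlinarith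
            gcongr
        _ = _ := by rw [Real.exp_add]; ring
    have n2 : ‖(κ : ℂ) * conj (∑ n ∈ Finset.Icc 1 X, pterm a (-u) t n)‖ ≤
        2 * S2 * Real.exp 2 * Real.exp (-u) := by
      rw [norm_mul, Complex.norm_real, Real.norm_of_nonneg hκ0, RCLike.norm_conj]
      calc κ * ‖∑ n ∈ Finset.Icc 1 X, pterm a (-u) t n‖
          ≤ 1 * (2 * S2 * Real.exp (2 - 2 * u)) := by
            apply mul_le_mul hκ1 h3 (norm_nonneg _) zero_le_one
        _ ≤ 2 * S2 * Real.exp (2 + -u) := by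
            rw [one_mul]
            have : 2 - 2 * u ≤ 2 + -u := by linarith
            gcongr
        _ = _ := by rw [Real.exp_add]; ring
    calc _ ≤ C0 * Real.exp (-u) + 2 * S2 * Real.exp 4 * Real.exp (-u) +
          2 * S2 * Real.exp 2 * Real.exp (-u) := by gcongr
      _ = C1 * Real.exp (-u) := by rw [hC1]; ring
  have key : ∀ u : ℝ, |u| ≤ (1 - 2 * η) * L →
      ‖AA F U1 U2 u t - MM a X L u t‖ ≤ C1 * Real.exp (-|u|) := by
    intro u hu
    rcases le_total 0 u with h0 | h0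
    · rw [abs_of_nonneg h0] at hu ⊢
      exact key0 u h0 hu
    · rw [abs_of_nonpos h0] at hu ⊢
      have h1 := key0 (-u) (by linarith) hu
      have e : AA F U1 U2 u t - MM a X L u t =
          conj (AA F U1 U2 (-u) t - MM a X L (-u) t) := by
        rw [map_sub, ← AA_neg hF hU, ← MM_neg, neg_neg]
      rw [e, RCLike.norm_conj]
      exact h1
  -- integrate
  obtain ⟨hint, hle⟩ := cs hW ξ
  have hA : Continuous (fun v : ℝ => cexp (-(I * v * t)) * AA F U1 U2 (ξ + v) t) := by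
    have h1 : Continuous (fun v : ℝ => AA F U1 U2 (ξ + v) t) :=
      (Efaux.AA_cont hF hU t).comp (continuous_const.add continuous_id)
    exact (by fun_prop : Continuous (fun v : ℝ => cexp (-(I * v * t)))).mul h1
  have hB : Continuous (fun v : ℝ => cexp (-(I * v * t)) * MM a X L (ξ + v) t) := by
    have h1 : Continuous (fun v : ℝ => MM a X L (ξ + v) t) :=
      (MM_cont a X L t).comp (continuous_const.add continuous_id)
    exact (by fun_prop : Continuous (fun v : ℝ => cexp (-(I * v * t)))).mul h1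
  rw [SS_eq hF hU hW ξ t, ← MM_int hW a X L ξ t, ← integral_sub (BW_int hW hA) (BW_int hW hB)]
  calc ‖∫ v : ℝ, (w v * (cexp (-(I * v * t)) * AA F U1 U2 (ξ + v) t) -
        w v * (cexp (-(I * v * t)) * MM a X L (ξ + v) t))‖
      ≤ ∫ v : ℝ, C1 * (‖w v‖ * Real.exp (-|ξ + v|)) := by
        refine norm_integral_le_of_norm_le (hint.const_mul C1) (Filter.Eventually.of_forall fun v => ?_)
        have e : w v * (cexp (-(I * v * t)) * AA F U1 U2 (ξ + v) t) -
            w v * (cexp (-(I * v * t)) * MM a X L (ξ + v) t) =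
            w v * (cexp (-(I * v * t)) * (AA F U1 U2 (ξ + v) t - MM a X L (ξ + v) t)) := by ring
        rw [e, norm_mul, norm_mul]
        have e2 : ‖cexp (-(I * v * t))‖ = 1 := by
          rw [show -(I * v * t : ℂ) = ((-(v * t) : ℝ) : ℂ) * I by push_cast; ring,
            Complex.norm_exp_ofReal_mul_I]
        rw [e2, one_mul]
        by_cases hv : b < |v|
        · rw [hW.sup v hv]
          simp
        · push Not at hv
          have h1 : |ξ + v| ≤ (1 - 2 * η) * L := (abs_add_le _ _).trans (by linarith)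
          have h2 := key (ξ + v) h1
          calc ‖w v‖ * ‖AA F U1 U2 (ξ + v) t - MM a X L (ξ + v) t‖
              ≤ ‖w v‖ * (C1 * Real.exp (-|ξ + v|)) := by gcongr
            _ = _ := by ring
    _ = C1 * ∫ v : ℝ, ‖w v‖ * Real.exp (-|ξ + v|) := integral_const_mul _ _
    _ ≤ C1 * (2 * Real.sqrt (q2 w)) := by gcongr
    _ = _ := by ring

end Pool.Agent.N802.U
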