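import Pool.Agent.N802.U.Stm

/-!
# The mean square of the prime side
-/

open Complex Filter Topology Set MeasureTheory
open scoped BigOperators ComplexConjugate

namespace Pool.Agent.N802.U

open H370

namespace Msaux

/-! ## the smoothed density -/

section G

variable {b : ℝ} {W : ℂ → ℂ} {w : ℝ → ℂ}

lemma sq_int (h : BW b W w) : Integrable (fun v : ℝ => ‖w v‖ ^ 2) := by
  obtain ⟨M, hM⟩ := h.bdd
  have h1 : Integrable ((Set.Icc (-b) b).indicator (fun _ : ℝ => M ^ 2)) := by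
    rw [integrable_indicator_iff measurableSet_Icc]
    exact integrableOn_const (by simp)
  refine h1.mono' ?_ (Eventually.of_forall fun v => ?_)
  · exact (h.meas.norm.pow_const 2).aestronglyMeasurable
  · rw [Real.norm_of_nonneg (sq_nonneg _)]
    by_cases hv : v ∈ Set.Icc (-b) b
    · rw [Set.indicator_of_mem hv]
      exact pow_le_pow_left₀ (norm_nonneg _) (hM v) 2
    · rw [Set.indicator_of_notMem hv, h.sup v, norm_zero]
      · norm_num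
      · by_contra hc
        rw [not_lt, abs_le] at hc
        exact hv ⟨hc.1, hc.2⟩

lemma w_int (h : BW b W w) : Integrable w := by
  obtain ⟨M, hM⟩ := h.bdd
  have h1 : Integrable ((Set.Icc (-b) b).indicator (fun _ : ℝ => M)) := by
    rw [integrable_indicator_iff measurableSet_Icc]
    exact integrableOn_const (by simp)
  refine h1.mono' h.meas.aestronglyMeasurable (Eventually.of_forall fun v => ?_)
  by_cases hv : v ∈ Set.Icc (-b) b
  · rw [Set.indicator_of_mem hv]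
    exact hM v
  · rw [Set.indicator_of_notMem hv, h.sup v, norm_zero]
    by_contra hc
    rw [not_lt, abs_le] at hc
    exact hv ⟨hc.1, hc.2⟩

lemma q2_nonneg (w : ℝ → ℂ) : 0 ≤ q2 w := integral_nonneg fun _ => sq_nonneg _

lemma sp_pos : 0 < Real.sqrt (2 * Real.pi) := by positivity

lemma sp_ge : 1 ≤ Real.sqrt (2 * Real.pi) := TC.sqrt_two_pi_ge_one

lemma gau_int (x : ℝ) : Integrable (fun v : ℝ => Real.exp (-(x + v) ^ 2 / 2)) := by
  have h1 : Integrable (fun v : ℝ => Real.exp (-(1 / 2) * v ^ 2)) :=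
    integrable_exp_neg_mul_sq (by norm_num)
  have h2 := h1.comp_add_left x
  refine h2.congr (Eventually.of_forall fun v => ?_)
  simp only
  congr 1
  ring

lemma gau_val (x : ℝ) : ∫ v : ℝ, Real.exp (-(x + v) ^ 2 / 2) = Real.sqrt (2 * Real.pi) := by
  have h1 := integral_gaussian (1 / 2)
  have h2 : ∫ v : ℝ, Real.exp (-(x + v) ^ 2 / 2) =
      ∫ v : ℝ, (fun v : ℝ => Real.exp (-(1 / 2) * v ^ 2)) (x + v) := by
    congr 1
    funext v
    simp only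
    congr 1
    ring
  rw [h2, integral_add_left_eq_self (fun v : ℝ => Real.exp (-(1 / 2) * v ^ 2)) x, h1]
  congr 1
  ring

lemma gau_le_one (x v : ℝ) : Real.exp (-(x + v) ^ 2 / 2) ≤ 1 := by
  rw [Real.exp_le_one_iff]
  nlinarith [sq_nonneg (x + v)]

lemma wg_int (h : BW b W w) (x : ℝ) :
    Integrable (fun v : ℝ => w v * (Real.exp (-(x + v) ^ 2 / 2) : ℝ)) := by
  refine (w_int h).norm.mono' ?_ (Eventually.of_forall fun v => ?_)
  · exact (h.meas.mul (by fun_prop)).aestronglyMeasurable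
  · rw [norm_mul, Complex.norm_real, Real.norm_of_nonneg (Real.exp_pos _).le]
    exact mul_le_of_le_one_right (norm_nonneg _) (gau_le_one x v)

lemma wg2_int (h : BW b W w) (x : ℝ) :
    Integrable (fun v : ℝ => ‖w v‖ ^ 2 * Real.exp (-(x + v) ^ 2 / 2)) := by
  refine (sq_int h).mono' ?_ (Eventually.of_forall fun v => ?_)
  · exact ((h.meas.norm.pow_const 2).mul (by fun_prop)).aestronglyMeasurable
  · rw [Real.norm_of_nonneg (by positivity)]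
    exact mul_le_of_le_one_right (sq_nonneg _) (gau_le_one x v)

lemma wg1_int (h : BW b W w) (x : ℝ) :
    Integrable (fun v : ℝ => ‖w v‖ * Real.exp (-(x + v) ^ 2 / 2)) := by
  refine (w_int h).norm.mono' ?_ (Eventually.of_forall fun v => ?_)
  · exact (h.meas.norm.mul (by fun_prop)).aestronglyMeasurable
  · rw [Real.norm_of_nonneg (by positivity)]
    exact mul_le_of_le_one_right (norm_nonneg _) (gau_le_one x v)

/-- Cauchy-Schwarz -/
lemma gs_sq (h : BW b W w) (x : ℝ) : ‖gs w x‖ ^ 2 ≤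
    1 / Real.sqrt (2 * Real.pi) * ∫ v : ℝ, ‖w v‖ ^ 2 * Real.exp (-(x + v) ^ 2 / 2) := by
  set E := Real.sqrt (2 * Real.pi) with hE
  have hE0 : 0 < E := sp_pos
  set m := ∫ v : ℝ, ‖w v‖ * Real.exp (-(x + v) ^ 2 / 2) with hm
  set Q := ∫ v : ℝ, ‖w v‖ ^ 2 * Real.exp (-(x + v) ^ 2 / 2) with hQ
  have h1 : ‖gs w x‖ ≤ 1 / E * m := by
    unfold gs
    rw [norm_mul, Complex.norm_real, Real.norm_of_nonneg (by positivity)]
    refine mul_le_mul_of_nonneg_left ?_ (by positivity)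
    refine (norm_integral_le_integral_norm _).trans (le_of_eq ?_)
    rw [hm]
    congr 1
    funext v
    rw [norm_mul, Complex.norm_real, Real.norm_of_nonneg (Real.exp_pos _).le]
  have hm0 : 0 ≤ m := integral_nonneg fun v => by positivity
  have h2 : 0 ≤ ∫ v : ℝ, (‖w v‖ - m / E) ^ 2 * Real.exp (-(x + v) ^ 2 / 2) :=
    integral_nonneg fun v => by positivity
  have h3 : ∫ v : ℝ, (‖w v‖ - m / E) ^ 2 * Real.exp (-(x + v) ^ 2 / 2) =
      Q - 2 * (m / E) * m + (m / E) ^ 2 * E := by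
    have e : ∀ v : ℝ, (‖w v‖ - m / E) ^ 2 * Real.exp (-(x + v) ^ 2 / 2) =
        ‖w v‖ ^ 2 * Real.exp (-(x + v) ^ 2 / 2) -
          2 * (m / E) * (‖w v‖ * Real.exp (-(x + v) ^ 2 / 2)) +
          (m / E) ^ 2 * Real.exp (-(x + v) ^ 2 / 2) := fun v => by ring
    simp_rw [e]
    have j1 : Integrable (fun v : ℝ => 2 * (m / E) * (‖w v‖ * Real.exp (-(x + v) ^ 2 / 2))) :=
      (wg1_int h x).const_mul _
    have j2 : Integrable (fun v : ℝ => (m / E) ^ 2 * Real.exp (-(x + v) ^ 2 / 2)) :=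
      (gau_int x).const_mul _
    have j3 : Integrable (fun v : ℝ => ‖w v‖ ^ 2 * Real.exp (-(x + v) ^ 2 / 2) -
        2 * (m / E) * (‖w v‖ * Real.exp (-(x + v) ^ 2 / 2))) := (wg2_int h x).sub j1
    rw [integral_add j3 j2, integral_sub (wg2_int h x) j1, integral_const_mul,
      integral_const_mul, gau_val]
  rw [h3] at h2
  have h4 : m ^ 2 ≤ E * Q := by
    have e2 : Q - 2 * (m / E) * m + (m / E) ^ 2 * E = Q - m ^ 2 / E := by
      field_simp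
      ring
    rw [e2] at h2
    have : m ^ 2 / E ≤ Q := by linarith
    rwa [div_le_iff₀ hE0, mul_comm] at this
  calc ‖gs w x‖ ^ 2 ≤ (1 / E * m) ^ 2 := pow_le_pow_left₀ (norm_nonneg _) h1 2
    _ = 1 / E ^ 2 * m ^ 2 := by ring
    _ ≤ 1 / E ^ 2 * (E * Q) := by gcongr
    _ = 1 / E * Q := by field_simp

lemma gs_le_q2 (h : BW b W w) (x : ℝ) : ‖gs w x‖ ^ 2 ≤ q2 w := by
  refine (gs_sq h x).trans ?_
  have h1 : ∫ v : ℝ, ‖w v‖ ^ 2 * Real.exp (-(x + v) ^ 2 / 2) ≤ q2 w := by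
    unfold q2
    exact integral_mono (wg2_int h x) (sq_int h) fun v =>
      mul_le_of_le_one_right (sq_nonneg _) (gau_le_one x v)
  have h2 : 1 / Real.sqrt (2 * Real.pi) ≤ 1 := by
    rw [div_le_one sp_pos]
    exact sp_ge
  have h3 : 0 ≤ ∫ v : ℝ, ‖w v‖ ^ 2 * Real.exp (-(x + v) ^ 2 / 2) :=
    integral_nonneg fun v => by positivity
  calc _ ≤ 1 * ∫ v : ℝ, ‖w v‖ ^ 2 * Real.exp (-(x + v) ^ 2 / 2) := by gcongr
    _ ≤ _ := by rw [one_mul]; exact h1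

lemma gs_norm_le (h : BW b W w) (x : ℝ) : ‖gs w x‖ ≤ Real.sqrt (q2 w) :=
  Real.le_sqrt_of_sq_le (gs_le_q2 h x)

lemma gs_cont (h : BW b W w) : Continuous (gs w) := by
  unfold gs
  refine continuous_const.mul ?_
  refine continuous_of_dominated (bound := fun v => ‖w v‖) ?_ ?_ (w_int h).norm ?_
  · intro x
    exact (wg_int h x).aestronglyMeasurable
  · intro x
    refine Eventually.of_forall fun v => ?_
    rw [norm_mul, Complex.norm_real, Real.norm_of_nonneg (Real.exp_pos _).le]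
    exact mul_le_of_le_one_right (norm_nonneg _) (gau_le_one x v)
  · refine Eventually.of_forall fun v => ?_
    fun_prop

/-- averaging -/
lemma gs_avg (h : BW b W w) {A B s M : ℝ} (hAB : A ≤ B) (f : ℝ → ℝ) (hf : Continuous f)
    (hf0 : ∀ u, 0 ≤ f u)
    (hM : ∀ v : ℝ, |v| ≤ b → 1 / Real.sqrt (2 * Real.pi) *
      ∫ u in A..B, f u * Real.exp (-(u + s + v) ^ 2 / 2) ≤ M) :
    ∫ u in A..B, f u * ‖gs w (u + s)‖ ^ 2 ≤ M * q2 w := by
  obtain ⟨Mf, hMf⟩ : ∃ Mf : ℝ, ∀ u ∈ Set.Icc A B, f u ≤ Mf := by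
    obtain ⟨Mf, hMf⟩ := (isCompact_Icc (a := A) (b := B)).bddAbove_image hf.continuousOn
    exact ⟨Mf, fun u hu => hMf (Set.mem_image_of_mem f hu)⟩
  set c := 1 / Real.sqrt (2 * Real.pi) with hc
  have hc0 : 0 ≤ c := by positivity
  have hi : Integrable (fun z : ℝ × ℝ => f z.1 * (‖w z.2‖ ^ 2 *
      Real.exp (-(z.1 + s + z.2) ^ 2 / 2))) ((volume.restrict (Set.Ioc A B)).prod volume) := by
    have hg : Integrable (fun z : ℝ × ℝ => (fun _ : ℝ => Mf) z.1 * (fun v => ‖w v‖ ^ 2) z.2)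
        ((volume.restrict (Set.Ioc A B)).prod volume) :=
      Integrable.mul_prod (integrable_const Mf) (sq_int h)
    refine hg.mono' ?_ ?_
    · have m1 : Measurable (fun z : ℝ × ℝ => f z.1) := hf.measurable.comp measurable_fst
      have m2 : Measurable (fun z : ℝ × ℝ => ‖w z.2‖ ^ 2) :=
        (h.meas.comp measurable_snd).norm.pow_const 2
      have m3 : Measurable (fun z : ℝ × ℝ => Real.exp (-(z.1 + s + z.2) ^ 2 / 2)) := by fun_prop
      exact (m1.mul (m2.mul m3)).aestronglyMeasurable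
    · have h1 : ∀ᵐ z : ℝ × ℝ ∂((volume.restrict (Set.Ioc A B)).prod volume),
          z.1 ∈ Set.Ioc A B := by
        have h2 : ∀ᵐ u ∂(volume.restrict (Set.Ioc A B)), u ∈ Set.Ioc A B :=
          ae_restrict_mem measurableSet_Ioc
        exact Measure.quasiMeasurePreserving_fst.ae h2
      filter_upwards [h1] with z hz
      have h3 : f z.1 ≤ Mf := hMf _ ⟨hz.1.le, hz.2⟩
      rw [Real.norm_of_nonneg (mul_nonneg (hf0 _) (by positivity))]
      calc f z.1 * (‖w z.2‖ ^ 2 * Real.exp (-(z.1 + s + z.2) ^ 2 / 2)) ≤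
          f z.1 * (‖w z.2‖ ^ 2 * 1) := by
            gcongr
            · exact hf0 _
            · exact gau_le_one _ _
        _ ≤ _ := by
            rw [mul_one]
            exact mul_le_mul_of_nonneg_right h3 (sq_nonneg _)
  rw [intervalIntegral.integral_of_le hAB]
  have hii : Integrable (fun u : ℝ => f u * (c * ∫ v : ℝ, ‖w v‖ ^ 2 *
      Real.exp (-(u + s + v) ^ 2 / 2))) (volume.restrict (Set.Ioc A B)) := by
    have h1 := (hi.integral_prod_left).const_mul c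
    refine h1.congr (Eventually.of_forall fun u => ?_)
    simp only
    rw [integral_const_mul]
    ring
  calc ∫ u in Set.Ioc A B, f u * ‖gs w (u + s)‖ ^ 2
      ≤ ∫ u in Set.Ioc A B, f u * (c * ∫ v : ℝ, ‖w v‖ ^ 2 *
          Real.exp (-(u + s + v) ^ 2 / 2)) := by
        refine integral_mono_of_nonneg (Eventually.of_forall fun u => mul_nonneg (hf0 u)
          (sq_nonneg _)) hii (Eventually.of_forall fun u => ?_)
        exact mul_le_mul_of_nonneg_left (gs_sq h (u + s)) (hf0 u)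
    _ = c * ∫ u in Set.Ioc A B, ∫ v : ℝ, f u * (‖w v‖ ^ 2 *
          Real.exp (-(u + s + v) ^ 2 / 2)) := by
        rw [← integral_const_mul]
        congr 1
        funext u
        rw [integral_const_mul]
        ring
    _ = c * ∫ v : ℝ, ∫ u in Set.Ioc A B, f u * (‖w v‖ ^ 2 *
          Real.exp (-(u + s + v) ^ 2 / 2)) := by
        rw [integral_integral_swap hi]
    _ = ∫ v : ℝ, ‖w v‖ ^ 2 * (c * ∫ u in A..B, f u * Real.exp (-(u + s + v) ^ 2 / 2)) := by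
        rw [← integral_const_mul]
        congr 1
        funext v
        rw [intervalIntegral.integral_of_le hAB]
        have e : ∀ u : ℝ, f u * (‖w v‖ ^ 2 * Real.exp (-(u + s + v) ^ 2 / 2)) =
            ‖w v‖ ^ 2 * (f u * Real.exp (-(u + s + v) ^ 2 / 2)) := fun u => by ring
        simp_rw [e]
        rw [integral_const_mul]
        ring
    _ ≤ ∫ v : ℝ, M * ‖w v‖ ^ 2 := by
        refine integral_mono_of_nonneg (Eventually.of_forall fun v => ?_)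
          ((sq_int h).const_mul M) (Eventually.of_forall fun v => ?_)
        · have : 0 ≤ ∫ u in A..B, f u * Real.exp (-(u + s + v) ^ 2 / 2) :=
            intervalIntegral.integral_nonneg hAB fun u _ => mul_nonneg (hf0 u) (Real.exp_pos _).le
          positivity
        · simp only
          rw [mul_comm M]
          by_cases hv : |v| ≤ b
          · exact mul_le_mul_of_nonneg_left (hM v hv) (sq_nonneg _)
          · rw [h.sup v (not_le.1 hv), norm_zero]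
            norm_num
    _ = M * q2 w := by
        rw [integral_const_mul]
        rfl

end G


/-! ## the diagonal -/

/-- one or a power of a large prime -/
def Gd (y : ℝ) (n : ℕ) : Prop := n = 1 ∨ (IsPrimePow n ∧ y < (n.minFac : ℝ))

lemma gd_pos {y : ℝ} {n : ℕ} (h : Gd y n) : 0 < n := by
  rcases h with rfl | h
  · norm_num
  · exact h.1.pos

lemma gd_eq {y : ℝ} {k k' n m : ℕ} (hn : Gd y n) (hm : Gd y m) (hk : 1 ≤ k)
    (hs : ∀ p : ℕ, p.Prime → p ∣ k → (p : ℝ) ≤ y) (hs' : ∀ p : ℕ, p.Prime → p ∣ k' → (p : ℝ) ≤ y)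
    (h : k * n = k' * m) : k = k' ∧ n = m := by
  rcases hn with rfl | ⟨hn, hny⟩
  · rcases hm with rfl | ⟨hm, hmy⟩
    · exact ⟨by simpa using h, rfl⟩
    · exfalso
      have hp : m.minFac.Prime := Nat.minFac_prime hm.ne_one
      have h1 : m.minFac ∣ k := by
        rw [mul_one] at h
        rw [h]
        exact Dvd.dvd.mul_left (Nat.minFac_dvd m) k'
      have := hs _ hp h1
      linarith
  · rcases hm with rfl | ⟨hm, hmy⟩
    · exfalso
      have hp : n.minFac.Prime := Nat.minFac_prime hn.ne_one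
      have h1 : n.minFac ∣ k' := by
        rw [mul_one] at h
        rw [← h]
        exact Dvd.dvd.mul_left (Nat.minFac_dvd n) k
      have := hs' _ hp h1
      linarith
    · exact pp_eq hn hm hny hk hs hs' h

lemma RP_cont (S : Finset ℕ) (r : ℕ → ℂ) : Continuous (RP S r) := TP_cont _ _ _ _

lemma RP_norm_le (S : Finset ℕ) (r : ℕ → ℂ) (t : ℝ) : ‖RP S r t‖ ≤ n1 S r := TP_norm_le _ _ _ _ _

/-- the weighted mean square of a Dirichlet polynomial -/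
lemma om_RQ (S : Finset ℕ) (r : ℕ → ℂ) {K0 y τ H Y : ℝ} {N : ℕ} (hH : 0 < H) (hK : 1 ≤ K0)
    (hS : Smo S K0 y) (Nr : Finset ℕ) (γ : ℕ → ℂ) (hN : ∀ n ∈ Nr, Gd y n ∧ n ≤ N)
    (hY : K0 * N ≤ Y) :
    |(∫ t, TC.om τ H t * (‖RP S r t‖ ^ 2 * ‖RP Nr γ t‖ ^ 2)) -
      Real.sqrt (2 * Real.pi) * H * (w1 S r * ∑ n ∈ Nr, ‖γ n‖ ^ 2)| ≤
    Real.sqrt (2 * Real.pi) * H * (w1 S r * (n1 Nr γ ^ 2 *
      (K0 * Real.exp (-(H ^ 2) / (8 * Y ^ 2))))) := by
  have hS0 : ∀ k ∈ S, 0 < k := fun k hk => (hS k hk).1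
  have hN0 : ∀ n ∈ Nr, 0 < n := fun n hn => gd_pos (hN n hn).1
  have h1 := om_TP ((S ×ˢ S) ×ˢ (Nr ×ˢ Nr)) (fun x => uc r x.1 * uc γ x.2)
    (fun x => x.1.1 * x.2.1) (fun x => x.1.2 * x.2.2) τ H Y hH
    (fun x hx => by
      rw [Finset.mem_product, Finset.mem_product, Finset.mem_product] at hx
      exact Nat.mul_pos (hS0 _ hx.1.1) (hN0 _ hx.2.1))
    (fun x hx => by
      rw [Finset.mem_product, Finset.mem_product, Finset.mem_product] at hx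
      exact Nat.mul_pos (hS0 _ hx.1.2) (hN0 _ hx.2.2))
    (fun x hx => by
      rw [Finset.mem_product, Finset.mem_product, Finset.mem_product] at hx
      have h2 := (hS _ hx.1.1).2.1
      have h5 : (x.2.1 : ℝ) ≤ N := by exact_mod_cast (hN _ hx.2.1).2
      have h3 : ((min (x.1.1 * x.2.1) (x.1.2 * x.2.2) : ℕ) : ℝ) ≤ (x.1.1 : ℝ) * x.2.1 := by
        exact_mod_cast min_le_left _ _
      have h6 : (x.1.1 : ℝ) * x.2.1 ≤ K0 * N := by gcongr
      linarith)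
  have hdiag : ((S ×ˢ S) ×ˢ (Nr ×ˢ Nr)).filter (fun x => x.1.1 * x.2.1 = x.1.2 * x.2.2) =
      ((S ×ˢ S).filter (fun x => x.1 = x.2)) ×ˢ ((Nr ×ˢ Nr).filter (fun x => x.1 = x.2)) := by
    ext x
    simp only [Finset.mem_filter, Finset.mem_product]
    constructor
    · rintro ⟨⟨⟨a1, a2⟩, a3, a4⟩, he⟩
      have h5 := gd_eq (hN _ a3).1 (hN _ a4).1 (hS _ a1).1 (hS _ a1).2.2 (hS _ a2).2.2 he
      exact ⟨⟨⟨a1, a2⟩, h5.1⟩, ⟨a3, a4⟩, h5.2⟩
    · rintro ⟨⟨⟨a1, a2⟩, e1⟩, ⟨a3, a4⟩, e2⟩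
      exact ⟨⟨⟨a1, a2⟩, a3, a4⟩, by rw [e1, e2]⟩
  have hsum : ∑ x ∈ ((S ×ˢ S) ×ˢ (Nr ×ˢ Nr)).filter
      (fun x => x.1.1 * x.2.1 = x.1.2 * x.2.2), uc r x.1 * uc γ x.2 =
      ((w1 S r * ∑ n ∈ Nr, ‖γ n‖ ^ 2 : ℝ) : ℂ) := by
    rw [hdiag, Finset.sum_product]
    simp only
    rw [← Finset.sum_mul_sum, diag0, diag0, ofReal_mul]
    rfl
  rw [hsum, n1_mul, n1_uc, n1_uc] at h1
  have e : ∫ t : ℝ, (TC.om τ H t : ℂ) * TP ((S ×ˢ S) ×ˢ (Nr ×ˢ Nr)) (fun x => uc r x.1 * uc γ x.2)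
      (fun x => x.1.1 * x.2.1) (fun x => x.1.2 * x.2.2) t =
      ((∫ t, TC.om τ H t * (‖RP S r t‖ ^ 2 * ‖RP Nr γ t‖ ^ 2) : ℝ) : ℂ) := by
    rw [← integral_complex_ofReal]
    congr 1
    funext t
    rw [ofReal_mul, ofReal_mul, U_eq S r hS0 t, U_eq Nr γ hN0 t,
      TP_mul _ _ _ _ _ _ _ _ (fun x hx => hS0 _ (Finset.mem_product.mp hx).1)
        (fun x hx => hS0 _ (Finset.mem_product.mp hx).2)
        (fun x hx => hN0 _ (Finset.mem_product.mp hx).1)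
        (fun x hx => hN0 _ (Finset.mem_product.mp hx).2)]
  rw [e, ← ofReal_mul, ← ofReal_sub, Complex.norm_real, Real.norm_eq_abs] at h1
  refine h1.trans ?_
  have h4 := n1_sq_le S r (fun k hk => ⟨(hS k hk).1, (hS k hk).2.1⟩) hK
  have h5 := Real.exp_pos (-(H ^ 2) / (8 * Y ^ 2))
  calc Real.sqrt (2 * Real.pi) * H * (n1 S r ^ 2 * n1 Nr γ ^ 2 *
        Real.exp (-(H ^ 2) / (8 * Y ^ 2)))
      ≤ Real.sqrt (2 * Real.pi) * H * ((K0 * w1 S r) * n1 Nr γ ^ 2 *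
        Real.exp (-(H ^ 2) / (8 * Y ^ 2))) := by gcongr
    _ = _ := by ring

/-! ## the two parts of the sums over the primes -/

/-- the powers of the large primes -/
noncomputable def Rg (y : ℝ) (X : ℕ) : Finset ℕ :=
  open Classical in (Finset.Icc 2 X).filter (fun n => IsPrimePow n ∧ y < (n.minFac : ℝ))

/-- the numbers with a small prime factor -/
noncomputable def Sg (y : ℝ) (X : ℕ) : Finset ℕ :=
  (Finset.Icc 2 X).filter (fun n => (n.minFac : ℝ) ≤ y)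

lemma rg_gd {y : ℝ} {X n : ℕ} (h : n ∈ insert 1 (Rg y X)) (hX : 1 ≤ X) : Gd y n ∧ n ≤ X := by
  rw [Finset.mem_insert] at h
  rcases h with rfl | h
  · exact ⟨Or.inl rfl, hX⟩
  · unfold Rg at h
    rw [Finset.mem_filter, Finset.mem_Icc] at h
    exact ⟨Or.inr h.2, h.1.2⟩

lemma split_sum (y : ℝ) (X : ℕ) (F : ℕ → ℂ) (hF : ∀ n, ¬ IsPrimePow n → F n = 0) :
    ∑ n ∈ Finset.Icc 1 X, F n = ∑ n ∈ Rg y X, F n + ∑ n ∈ Sg y X, F n := by
  classical
  have h1 : ∑ n ∈ Finset.Icc 1 X, F n = ∑ n ∈ Finset.Icc 2 X, F n := by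
    symm
    apply Finset.sum_subset
    · intro n hn
      rw [Finset.mem_Icc] at hn ⊢
      omega
    · intro n hn hn2
      rw [Finset.mem_Icc] at hn hn2
      have : n = 1 := by omega
      rw [this]
      exact hF 1 not_isPrimePow_one
  rw [h1]
  unfold Rg Sg
  rw [Finset.sum_filter, Finset.sum_filter, ← Finset.sum_add_distrib]
  refine Finset.sum_congr rfl fun n _ => ?_
  by_cases hp : IsPrimePow n
  · by_cases hy : y < (n.minFac : ℝ)
    · rw [if_pos ⟨hp, hy⟩, if_neg (not_le.2 hy), add_zero]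
    · rw [if_neg (fun h => hy h.2), if_pos (not_lt.1 hy), zero_add]
  · rw [hF n hp]
    simp

/-- the coefficients of the first part -/
noncomputable def ga (a : ℕ → ℂ) (w : ℝ → ℂ) (ℓ u : ℝ) (n : ℕ) : ℂ :=
  if n = 1 then ℓ * gs w u else -(a n * (Real.sqrt n : ℂ)⁻¹ * gs w (u - Real.log n))

/-- the coefficients of the second part -/
noncomputable def gb (a : ℕ → ℂ) (w : ℝ → ℂ) (u : ℝ) (n : ℕ) : ℂ :=
  a n * (Real.sqrt n : ℂ)⁻¹ * conj (gs w (u + Real.log n))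

/-- the parts with small primes -/
noncomputable def Q3 (a : ℕ → ℂ) (X : ℕ) (w : ℝ → ℂ) (y u t : ℝ) : ℂ :=
  ∑ n ∈ Sg y X, a n * (Real.sqrt n : ℂ)⁻¹ * gs w (u - Real.log n) * mn n 1 t

noncomputable def Q4 (a : ℕ → ℂ) (X : ℕ) (w : ℝ → ℂ) (y u t : ℝ) : ℂ :=
  ∑ n ∈ Sg y X, conj (a n) * (Real.sqrt n : ℂ)⁻¹ * gs w (u + Real.log n) * mn 1 n t

lemma pd_eq {a : ℕ → ℂ} (ha : ∀ n, ‖a n‖ ≤ ArithmeticFunction.vonMangoldt n) (X : ℕ) (w : ℝ → ℂ)
    (y ℓ u t : ℝ) : PD a X w ℓ u t = RP (insert 1 (Rg y X)) (ga a w ℓ u) t -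
      (conj (RP (Rg y X) (gb a w u) t) + Q3 a X w y u t + Q4 a X w y u t) := by
  have ha0 : ∀ n, ¬ IsPrimePow n → a n = 0 := by
    intro n hn
    have h1 := ha n
    rw [ArithmeticFunction.vonMangoldt_eq_zero_iff.mpr hn] at h1
    exact norm_le_zero_iff.mp h1
  have hn1 : 1 ∉ Rg y X := by
    unfold Rg
    rw [Finset.mem_filter, Finset.mem_Icc]
    rintro ⟨h, _⟩
    omega
  unfold PD
  rw [split_sum y X (fun n => a n * (Real.sqrt n : ℂ)⁻¹ * gs w (u - Real.log n) * mn n 1 t)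
      (fun n hn => by rw [ha0 n hn]; ring),
    split_sum y X (fun n => conj (a n) * (Real.sqrt n : ℂ)⁻¹ * gs w (u + Real.log n) * mn 1 n t)
      (fun n hn => by rw [ha0 n hn, map_zero]; ring)]
  have e1 : RP (insert 1 (Rg y X)) (ga a w ℓ u) t = ℓ * gs w u -
      ∑ n ∈ Rg y X, a n * (Real.sqrt n : ℂ)⁻¹ * gs w (u - Real.log n) * mn n 1 t := by
    unfold RP TP
    rw [Finset.sum_insert hn1, sub_eq_add_neg, ← Finset.sum_neg_distrib]
    congr 1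
    · have : mn 1 1 t = 1 := by
        unfold mn
        simp
      rw [this, mul_one]
      unfold ga
      rw [if_pos rfl]
    · refine Finset.sum_congr rfl fun n hn => ?_
      have hne : n ≠ 1 := fun h => hn1 (h ▸ hn)
      unfold ga
      rw [if_neg hne]
      ring
  have e2 : conj (RP (Rg y X) (gb a w u) t) =
      ∑ n ∈ Rg y X, conj (a n) * (Real.sqrt n : ℂ)⁻¹ * gs w (u + Real.log n) * mn 1 n t := by
    unfold RP TP
    rw [map_sum]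
    refine Finset.sum_congr rfl fun n _ => ?_
    unfold gb
    rw [map_mul, mn_conj, map_mul, map_mul, map_inv₀, Complex.conj_ofReal, Complex.conj_conj]
  rw [e1, e2]
  unfold Q3 Q4
  ring

lemma lam_coef {a : ℕ → ℂ} (ha : ∀ n, ‖a n‖ ≤ ArithmeticFunction.vonMangoldt n) (n : ℕ) :
    ‖a n * (Real.sqrt n : ℂ)⁻¹‖ ≤ TC.lam n := by
  rw [norm_mul, norm_inv, Complex.norm_real, Real.norm_of_nonneg (Real.sqrt_nonneg _)]
  unfold TC.lam
  rw [div_eq_mul_inv]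
  exact mul_le_mul_of_nonneg_right (ha n) (by positivity)

lemma small_part (y : ℝ) (hy : 0 ≤ y) (X : ℕ) (c g m : ℕ → ℂ) (hc : ∀ n, ‖c n‖ ≤ TC.lam n)
    (hm : ∀ n, ‖m n‖ = 1) :
    ‖∑ n ∈ Sg y X, c n * g n * m n‖ ^ 2 ≤
      48 * Real.sqrt y * ∑ n ∈ Sg y X, TC.lam n * ‖g n‖ ^ 2 := by
  have h1 : ‖∑ n ∈ Sg y X, c n * g n * m n‖ ≤ ∑ n ∈ Sg y X, TC.lam n * ‖g n‖ := by
    refine (norm_sum_le _ _).trans (Finset.sum_le_sum fun n _ => ?_)
    rw [norm_mul, norm_mul, hm, mul_one]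
    exact mul_le_mul_of_nonneg_right (hc n) (norm_nonneg _)
  have h2 : (∑ n ∈ Sg y X, TC.lam n * ‖g n‖) ^ 2 ≤
      (∑ n ∈ Sg y X, TC.lam n) * ∑ n ∈ Sg y X, TC.lam n * ‖g n‖ ^ 2 := by
    apply Finset.sum_sq_le_sum_mul_sum_of_sq_le_mul
    · intro n _
      exact TC.lam_nonneg n
    · intro n _
      have := TC.lam_nonneg n
      positivity
    · intro n _
      exact le_of_eq (by ring)
  have h3 : ∑ n ∈ Sg y X, TC.lam n ≤ 48 * Real.sqrt y := smooth_sum X y hy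
  have h4 : 0 ≤ ∑ n ∈ Sg y X, TC.lam n * ‖g n‖ ^ 2 :=
    Finset.sum_nonneg fun n _ => mul_nonneg (TC.lam_nonneg n) (sq_nonneg _)
  calc _ ≤ (∑ n ∈ Sg y X, TC.lam n * ‖g n‖) ^ 2 := pow_le_pow_left₀ (norm_nonneg _) h1 2
    _ ≤ _ := h2
    _ ≤ _ := mul_le_mul_of_nonneg_right h3 h4

lemma norm_alg {η : ℝ} (hη : 0 < η) (x y1 y2 y3 : ℂ) :
    ‖x - (y1 + y2 + y3)‖ ^ 2 ≤ (1 + η) * ‖x‖ ^ 2 +
      3 * (1 + 1 / η) * (‖y1‖ ^ 2 + ‖y2‖ ^ 2 + ‖y3‖ ^ 2) := by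
  have h1 : ‖x - (y1 + y2 + y3)‖ ≤ ‖x‖ + (‖y1‖ + ‖y2‖ + ‖y3‖) :=
    (norm_sub_le _ _).trans (add_le_add le_rfl ((norm_add_le _ _).trans
      (add_le_add (norm_add_le _ _) le_rfl)))
  have h2 := pow_le_pow_left₀ (norm_nonneg _) h1 2
  set p := ‖x‖
  set q := ‖y1‖ + ‖y2‖ + ‖y3‖ with hq
  have h3 : (p + q) ^ 2 ≤ (1 + η) * p ^ 2 + (1 + 1 / η) * q ^ 2 := by
    have e : (1 + η) * p ^ 2 + (1 + 1 / η) * q ^ 2 - (p + q) ^ 2 = (η * p - q) ^ 2 / η := by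
      field_simp
      ring
    have : 0 ≤ (η * p - q) ^ 2 / η := by positivity
    linarith
  have h4 : q ^ 2 ≤ 3 * (‖y1‖ ^ 2 + ‖y2‖ ^ 2 + ‖y3‖ ^ 2) := by
    rw [hq]
    nlinarith [sq_nonneg (‖y1‖ - ‖y2‖), sq_nonneg (‖y1‖ - ‖y3‖), sq_nonneg (‖y2‖ - ‖y3‖)]
  have h5 : 0 ≤ 1 + 1 / η := by positivity
  have h6 := mul_le_mul_of_nonneg_left h4 h5
  linarith

/-! ## averages over `u` -/

section Av

variable {b : ℝ} {W : ℂ → ℂ} {w : ℝ → ℂ}

lemma gau_int' (x : ℝ) : Integrable (fun u : ℝ => Real.exp (-(u + x) ^ 2 / 2)) := by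
  have := gau_int x
  refine this.congr (Eventually.of_forall fun u => ?_)
  simp only
  rw [add_comm]

lemma gau_val' (x : ℝ) : ∫ u : ℝ, Real.exp (-(u + x) ^ 2 / 2) = Real.sqrt (2 * Real.pi) := by
  rw [← gau_val x]
  congr 1
  funext u
  rw [add_comm]

lemma gau_intv_le {A B : ℝ} (hAB : A ≤ B) (x : ℝ) :
    1 / Real.sqrt (2 * Real.pi) * ∫ u in A..B, Real.exp (-(u + x) ^ 2 / 2) ≤ 1 := by
  have h1 : ∫ u in A..B, Real.exp (-(u + x) ^ 2 / 2) ≤ Real.sqrt (2 * Real.pi) := by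
    rw [intervalIntegral.integral_of_le hAB, ← gau_val' x]
    exact setIntegral_le_integral (gau_int' x) (Eventually.of_forall fun u => (Real.exp_pos _).le)
  have h2 := sp_pos
  rw [one_div, inv_mul_le_iff₀ h2, mul_one]
  exact h1

/-- first absolute moment of the standard Gaussian -/
noncomputable def cG : ℝ := 1 / Real.sqrt (2 * Real.pi) * ∫ v : ℝ, |v| * Real.exp (-v ^ 2 / 2)

lemma cG_int : Integrable (fun v : ℝ => |v| * Real.exp (-v ^ 2 / 2)) := by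
  have := (integrable_mul_exp_neg_mul_sq (b := 1 / 2) (by norm_num)).abs
  refine this.congr (Eventually.of_forall fun v => ?_)
  simp only
  rw [abs_mul, Real.abs_exp]
  congr 2
  ring

lemma cG_nonneg : 0 ≤ cG := by
  unfold cG
  have : 0 ≤ ∫ v : ℝ, |v| * Real.exp (-v ^ 2 / 2) := integral_nonneg fun v => by positivity
  positivity

lemma av1 (h : BW b W w) (hc : ∀ x, ‖gs w (-x)‖ = ‖gs w x‖) {Λ : ℝ} (hΛ : 0 < Λ) :
    ∫ u in (0 : ℝ)..Λ, Rf (u / Λ) * ‖gs w u‖ ^ 2 ≤ Rf 0 * (q2 w / 2) := by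
  have hcont : Continuous (fun u : ℝ => ‖gs w u‖ ^ 2) := (gs_cont h).norm.pow 2
  have h1 := gs_avg h (A := -Λ) (B := Λ) (s := 0) (M := 1) (by linarith) (fun _ => (1 : ℝ))
    continuous_const (fun _ => zero_le_one) (fun v _ => by
      simp only [one_mul, add_zero]
      exact gau_intv_le (by linarith) v)
  simp only [one_mul, add_zero] at h1
  have h2 : ∫ u in (-Λ)..Λ, ‖gs w u‖ ^ 2 = 2 * ∫ u in (0 : ℝ)..Λ, ‖gs w u‖ ^ 2 := by
    rw [← intervalIntegral.integral_add_adjacent_intervals (hcont.intervalIntegrable (-Λ) 0)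
      (hcont.intervalIntegrable 0 Λ)]
    have h3 := intervalIntegral.integral_comp_neg (a := 0) (b := Λ) (fun u : ℝ => ‖gs w u‖ ^ 2)
    rw [neg_zero] at h3
    rw [← h3]
    have h4 : ∫ x in (0 : ℝ)..Λ, ‖gs w (-x)‖ ^ 2 = ∫ x in (0 : ℝ)..Λ, ‖gs w x‖ ^ 2 := by
      refine intervalIntegral.integral_congr fun x _ => ?_
      show ‖gs w (-x)‖ ^ 2 = ‖gs w x‖ ^ 2
      rw [hc]
    rw [h4]
    ring
  have h5 : ∫ u in (0 : ℝ)..Λ, Rf (u / Λ) * ‖gs w u‖ ^ 2 ≤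
      ∫ u in (0 : ℝ)..Λ, Rf 0 * ‖gs w u‖ ^ 2 := by
    apply intervalIntegral.integral_mono_on hΛ.le
      (((nt_Rf_cont.comp (continuous_id.div_const Λ)).mul hcont).intervalIntegrable _ _)
      ((continuous_const.mul hcont).intervalIntegrable _ _)
    intro u hu
    exact mul_le_mul_of_nonneg_right (nt_Rf_le _ (div_nonneg hu.1 hΛ.le)) (sq_nonneg _)
  rw [intervalIntegral.integral_const_mul] at h5
  refine h5.trans (mul_le_mul_of_nonneg_left ?_ (nt_Rf_nonneg 0))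
  linarith

lemma rf_cont (Λ : ℝ) : Continuous (fun u : ℝ => Rf (u / Λ)) :=
  nt_Rf_cont.comp (continuous_id.div_const Λ)

lemma av2 (h : BW b W w) {K : ℝ} (hK : 0 < K) (hlip : ∀ x y, |Rf x - Rf y| ≤ K * |x - y|)
    {Λ : ℝ} (ℓ : ℝ) (hΛ : 0 < Λ) :
    ∫ u in (0 : ℝ)..Λ, Rf (u / Λ) * ‖gs w (u - ℓ)‖ ^ 2 ≤
      (Rf (ℓ / Λ) + K / Λ * (b + cG)) * q2 w := by
  refine gs_avg h hΛ.le _ (rf_cont Λ) (fun u => nt_Rf_nonneg _) (s := -ℓ) fun v hv => ?_
  set c := 1 / Real.sqrt (2 * Real.pi) with hcdef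
  have hc0 : 0 ≤ c := by positivity
  have hi0 := gau_int' (-ℓ + v)
  have hi1 : Integrable (fun u : ℝ => |u + (-ℓ + v)| * Real.exp (-(u + (-ℓ + v)) ^ 2 / 2)) :=
    cG_int.comp_add_right (-ℓ + v)
  have hi : Integrable (fun u : ℝ => (Rf (ℓ / Λ) + K / Λ * b) * Real.exp (-(u + (-ℓ + v)) ^ 2 / 2) +
      K / Λ * (|u + (-ℓ + v)| * Real.exp (-(u + (-ℓ + v)) ^ 2 / 2))) :=
    (hi0.const_mul _).add (hi1.const_mul _)
  have h1 : ∫ u in (0 : ℝ)..Λ, Rf (u / Λ) * Real.exp (-(u + -ℓ + v) ^ 2 / 2) ≤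
      ∫ u : ℝ, ((Rf (ℓ / Λ) + K / Λ * b) * Real.exp (-(u + (-ℓ + v)) ^ 2 / 2) +
      K / Λ * (|u + (-ℓ + v)| * Real.exp (-(u + (-ℓ + v)) ^ 2 / 2))) := by
    rw [intervalIntegral.integral_of_le hΛ.le]
    refine le_trans (integral_mono_of_nonneg (Eventually.of_forall fun u =>
      mul_nonneg (nt_Rf_nonneg _) (Real.exp_pos _).le) hi.integrableOn
      (Eventually.of_forall fun u => ?_)) (setIntegral_le_integral hi
      (Eventually.of_forall fun u => ?_))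
    · simp only
      have h2 := (le_abs_self _).trans (hlip (u / Λ) (ℓ / Λ))
      have h3 : |u / Λ - ℓ / Λ| = |u - ℓ| / Λ := by
        rw [← sub_div, abs_div, abs_of_pos hΛ]
      have h4 : |u - ℓ| ≤ |u + (-ℓ + v)| + b := by
        have e : u - ℓ = (u + (-ℓ + v)) - v := by ring
        rw [e]
        exact (abs_sub _ _).trans (by linarith)
      rw [h3] at h2
      have h5 : K * (|u - ℓ| / Λ) ≤ K / Λ * (|u + (-ℓ + v)| + b) := by
        calc K * (|u - ℓ| / Λ) = K / Λ * |u - ℓ| := by ring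
          _ ≤ _ := mul_le_mul_of_nonneg_left h4 (by positivity)
      have h6 : Rf (u / Λ) ≤ Rf (ℓ / Λ) + K / Λ * b + K / Λ * |u + (-ℓ + v)| := by linarith
      have e2 : u + -ℓ + v = u + (-ℓ + v) := by ring
      rw [e2]
      calc Rf (u / Λ) * Real.exp (-(u + (-ℓ + v)) ^ 2 / 2) ≤
          (Rf (ℓ / Λ) + K / Λ * b + K / Λ * |u + (-ℓ + v)|) *
            Real.exp (-(u + (-ℓ + v)) ^ 2 / 2) := mul_le_mul_of_nonneg_right h6 (Real.exp_pos _).le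
        _ = _ := by ring
    · have h2 := nt_Rf_nonneg (ℓ / Λ)
      have h3 : 0 ≤ b := (abs_nonneg v).trans hv
      simp only [Pi.zero_apply]
      positivity
  have h7 : ∫ u : ℝ, ((Rf (ℓ / Λ) + K / Λ * b) * Real.exp (-(u + (-ℓ + v)) ^ 2 / 2) +
      K / Λ * (|u + (-ℓ + v)| * Real.exp (-(u + (-ℓ + v)) ^ 2 / 2))) =
      (Rf (ℓ / Λ) + K / Λ * b) * Real.sqrt (2 * Real.pi) +
        K / Λ * ∫ v : ℝ, |v| * Real.exp (-v ^ 2 / 2) := by
    rw [integral_add (hi0.const_mul _) (hi1.const_mul _), integral_const_mul, integral_const_mul,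
      gau_val', integral_add_right_eq_self (fun v : ℝ => |v| * Real.exp (-v ^ 2 / 2)) (-ℓ + v)]
  rw [h7] at h1
  calc c * ∫ u in (0 : ℝ)..Λ, Rf (u / Λ) * Real.exp (-(u + -ℓ + v) ^ 2 / 2) ≤
      c * ((Rf (ℓ / Λ) + K / Λ * b) * Real.sqrt (2 * Real.pi) +
        K / Λ * ∫ v : ℝ, |v| * Real.exp (-v ^ 2 / 2)) := mul_le_mul_of_nonneg_left h1 hc0
    _ = (Rf (ℓ / Λ) + K / Λ * b) * (c * Real.sqrt (2 * Real.pi)) + K / Λ * cG := by
        unfold cG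
        rw [← hcdef]
        ring
    _ = _ := by
        have : c * Real.sqrt (2 * Real.pi) = 1 := by
          rw [hcdef]
          field_simp
        rw [this]
        ring

lemma av3 (h : BW b W w) {Λ : ℝ} (s : ℝ) (hΛ : 0 < Λ) :
    ∫ u in (0 : ℝ)..Λ, Rf (u / Λ) * ‖gs w (u + s)‖ ^ 2 ≤ Rf 0 * q2 w := by
  refine gs_avg h hΛ.le _ (rf_cont Λ) (fun u => nt_Rf_nonneg _) fun v _ => ?_
  have h1 : ∫ u in (0 : ℝ)..Λ, Rf (u / Λ) * Real.exp (-(u + s + v) ^ 2 / 2) ≤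
      ∫ u in (0 : ℝ)..Λ, Rf 0 * Real.exp (-(u + (s + v)) ^ 2 / 2) := by
    apply intervalIntegral.integral_mono_on hΛ.le
      (((rf_cont Λ).mul (by fun_prop)).intervalIntegrable _ _)
      ((continuous_const.mul (by fun_prop)).intervalIntegrable _ _)
    intro u hu
    show Rf (u / Λ) * Real.exp (-(u + s + v) ^ 2 / 2) ≤
      Rf 0 * Real.exp (-(u + (s + v)) ^ 2 / 2)
    rw [add_assoc u s v]
    exact mul_le_mul_of_nonneg_right (nt_Rf_le _ (div_nonneg hu.1 hΛ.le)) (Real.exp_pos _).le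
  rw [intervalIntegral.integral_const_mul] at h1
  have h2 := gau_intv_le hΛ.le (s + v)
  have hR := nt_Rf_nonneg 0
  have hc0 : 0 ≤ 1 / Real.sqrt (2 * Real.pi) := by positivity
  calc _ ≤ 1 / Real.sqrt (2 * Real.pi) *
        (Rf 0 * ∫ u in (0 : ℝ)..Λ, Real.exp (-(u + (s + v)) ^ 2 / 2)) :=
        mul_le_mul_of_nonneg_left h1 hc0
    _ = Rf 0 * (1 / Real.sqrt (2 * Real.pi) *
        ∫ u in (0 : ℝ)..Λ, Real.exp (-(u + (s + v)) ^ 2 / 2)) := by ring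
    _ ≤ Rf 0 * 1 := mul_le_mul_of_nonneg_left h2 hR
    _ = Rf 0 := mul_one _

lemma av4 (h : BW b W w) {Λ ℓ : ℝ} (hΛ : 0 < Λ) (hbℓ : b ≤ ℓ) :
    ∫ u in (0 : ℝ)..Λ, Rf (u / Λ) * ‖gs w (u + ℓ)‖ ^ 2 ≤
      Rf 0 * Real.exp (-(ℓ - b) ^ 2 / 2) * q2 w := by
  refine gs_avg h hΛ.le _ (rf_cont Λ) (fun u => nt_Rf_nonneg _) fun v hv => ?_
  rw [abs_le] at hv
  have h1 : ∫ u in (0 : ℝ)..Λ, Rf (u / Λ) * Real.exp (-(u + ℓ + v) ^ 2 / 2) ≤
      ∫ u in (0 : ℝ)..Λ, (Rf 0 * Real.exp (-(ℓ - b) ^ 2 / 2)) *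
        Real.exp (-(u + (b + v)) ^ 2 / 2) := by
    apply intervalIntegral.integral_mono_on hΛ.le
      (((rf_cont Λ).mul (by fun_prop)).intervalIntegrable _ _)
      ((continuous_const.mul (by fun_prop)).intervalIntegrable _ _)
    intro u hu
    have h2 : Real.exp (-(u + ℓ + v) ^ 2 / 2) ≤
        Real.exp (-(ℓ - b) ^ 2 / 2) * Real.exp (-(u + (b + v)) ^ 2 / 2) := by
      rw [← Real.exp_add]
      apply Real.exp_le_exp.2
      have h3 : 0 ≤ (ℓ - b) * (u + (b + v)) :=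
        mul_nonneg (by linarith) (by linarith [hu.1])
      nlinarith
    show Rf (u / Λ) * Real.exp (-(u + ℓ + v) ^ 2 / 2) ≤
      Rf 0 * Real.exp (-(ℓ - b) ^ 2 / 2) * Real.exp (-(u + (b + v)) ^ 2 / 2)
    calc Rf (u / Λ) * Real.exp (-(u + ℓ + v) ^ 2 / 2) ≤
        Rf 0 * (Real.exp (-(ℓ - b) ^ 2 / 2) * Real.exp (-(u + (b + v)) ^ 2 / 2)) :=
          mul_le_mul (nt_Rf_le _ (div_nonneg hu.1 hΛ.le)) h2 (Real.exp_pos _).le (nt_Rf_nonneg 0)
      _ = _ := by ring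
  rw [intervalIntegral.integral_const_mul] at h1
  have h2 := gau_intv_le hΛ.le (b + v)
  have hR : 0 ≤ Rf 0 * Real.exp (-(ℓ - b) ^ 2 / 2) :=
    mul_nonneg (nt_Rf_nonneg 0) (Real.exp_pos _).le
  have hc0 : 0 ≤ 1 / Real.sqrt (2 * Real.pi) := by positivity
  calc _ ≤ 1 / Real.sqrt (2 * Real.pi) * ((Rf 0 * Real.exp (-(ℓ - b) ^ 2 / 2)) *
        ∫ u in (0 : ℝ)..Λ, Real.exp (-(u + (b + v)) ^ 2 / 2)) :=
        mul_le_mul_of_nonneg_left h1 hc0
    _ = (Rf 0 * Real.exp (-(ℓ - b) ^ 2 / 2)) * (1 / Real.sqrt (2 * Real.pi) *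
        ∫ u in (0 : ℝ)..Λ, Real.exp (-(u + (b + v)) ^ 2 / 2)) := by ring
    _ ≤ (Rf 0 * Real.exp (-(ℓ - b) ^ 2 / 2)) * 1 := mul_le_mul_of_nonneg_left h2 hR
    _ = _ := mul_one _

/-- the functional -/
noncomputable def Lf (Λ : ℝ) (F : ℝ → ℝ) : ℝ := ∫ u in (0 : ℝ)..Λ, Rf (u / Λ) * F u

lemma Lf_add {Λ : ℝ} {F G : ℝ → ℝ} (hF : Continuous F) (hG : Continuous G) :
    Lf Λ (fun u => F u + G u) = Lf Λ F + Lf Λ G := by
  unfold Lf
  simp_rw [mul_add]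
  exact intervalIntegral.integral_add (((rf_cont Λ).mul hF).intervalIntegrable _ _)
    (((rf_cont Λ).mul hG).intervalIntegrable _ _)

lemma Lf_mul {Λ : ℝ} (c : ℝ) (F : ℝ → ℝ) : Lf Λ (fun u => c * F u) = c * Lf Λ F := by
  unfold Lf
  rw [← intervalIntegral.integral_const_mul]
  congr 1
  funext u
  ring

lemma Lf_sum {Λ : ℝ} (S : Finset ℕ) (c : ℕ → ℝ) (F : ℕ → ℝ → ℝ) (hF : ∀ n, Continuous (F n)) :
    Lf Λ (fun u => ∑ n ∈ S, c n * F n u) = ∑ n ∈ S, c n * Lf Λ (F n) := by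
  unfold Lf
  simp_rw [Finset.mul_sum]
  have hci : ∀ n ∈ S, IntervalIntegrable (fun u => Rf (u / Λ) * (c n * F n u)) volume 0 Λ :=
    fun n _ => ((rf_cont Λ).mul (continuous_const.mul (hF n))).intervalIntegrable _ _
  rw [intervalIntegral.integral_finsetSum hci]
  refine Finset.sum_congr rfl fun n _ => ?_
  rw [← intervalIntegral.integral_const_mul]
  congr 1
  funext u
  ring

lemma Lf_const {Λ : ℝ} (hΛ : 0 < Λ) {c : ℝ} (hc : 0 ≤ c) : Lf Λ (fun _ => c) ≤ c * (Λ * Rf 0) := by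
  unfold Lf
  calc ∫ u in (0 : ℝ)..Λ, Rf (u / Λ) * c ≤ ∫ u in (0 : ℝ)..Λ, Rf 0 * c := by
        apply intervalIntegral.integral_mono_on hΛ.le
          (((rf_cont Λ).mul continuous_const).intervalIntegrable _ _)
          (continuous_const.intervalIntegrable _ _)
        intro u hu
        exact mul_le_mul_of_nonneg_right (nt_Rf_le _ (div_nonneg hu.1 hΛ.le)) hc
    _ = _ := by
        rw [intervalIntegral.integral_const, smul_eq_mul]
        ring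

/-! ## sums over the primes -/

lemma sum2 {Λ κ : ℝ} (hΛ : 0 < Λ) (hκ : 0 ≤ κ) (N : ℕ) (hN : 1 ≤ N) (hNl : Real.log N ≤ 2 * Λ) :
    ∑ n ∈ Finset.Icc 1 N, (ArithmeticFunction.vonMangoldt n) ^ 2 / n *
      (Rf (Real.log n / Λ) + κ) ≤
    8 * Rf 0 + (Λ ^ 2 * (∫ α in (0 : ℝ)..1, α * Rf α) + 8 * Λ * Rf 0) +
      κ * ((Real.log N) ^ 2 / 2 + 8 * (Real.log N + 1)) := by
  have habel := nt_abel_bound (fun n => (ArithmeticFunction.vonMangoldt n) ^ 2 / n)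
    (fun s => Rf (s / Λ)) 8 (by norm_num)
    (fun x hx y hy hxy => nt_Rf_antitone (Set.mem_Ici.2 (div_nonneg hx hΛ.le))
      (Set.mem_Ici.2 (div_nonneg hy hΛ.le)) (div_le_div_of_nonneg_right hxy hΛ.le))
    (rf_cont Λ) (fun x => nt_Rf_nonneg _) (fun M hM => lam_sq_sum_nat M hM) N hN
  simp only [zero_div] at habel
  have hint := nt_int_bound Λ hΛ 8 N hN hNl (by norm_num)
  have hS := mul_le_mul_of_nonneg_left (lam_sq_sum_nat N hN) hκ
  have e : ∑ n ∈ Finset.Icc 1 N, (ArithmeticFunction.vonMangoldt n) ^ 2 / n *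
      (Rf (Real.log n / Λ) + κ) =
      ∑ n ∈ Finset.Icc 1 N, (ArithmeticFunction.vonMangoldt n) ^ 2 / n * Rf (Real.log n / Λ) +
      κ * ∑ n ∈ Finset.Icc 1 N, (ArithmeticFunction.vonMangoldt n) ^ 2 / n := by
    rw [Finset.mul_sum, ← Finset.sum_add_distrib]
    exact Finset.sum_congr rfl fun n _ => by ring
  rw [e]
  linarith

noncomputable def c3 : ℝ := ∑' n : ℕ, 16 * (1 / (n : ℝ) ^ (3 / 2 : ℝ))

lemma c3_sum : Summable (fun n : ℕ => 16 * (1 / (n : ℝ) ^ (3 / 2 : ℝ))) :=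
  (Real.summable_one_div_nat_rpow.2 (by norm_num)).mul_left _

lemma c3_nonneg : 0 ≤ c3 := tsum_nonneg fun n => by positivity

lemma lam_sq_sq {n : ℕ} (hn : 1 ≤ n) :
    (ArithmeticFunction.vonMangoldt n) ^ 2 / n * (1 / n) ≤ 16 * (1 / (n : ℝ) ^ (3 / 2 : ℝ)) := by
  have hn0 : (0 : ℝ) < n := by exact_mod_cast hn
  have h1 : ArithmeticFunction.vonMangoldt n ≤ Real.log n := ArithmeticFunction.vonMangoldt_le_log
  have h0 : 0 ≤ ArithmeticFunction.vonMangoldt n := ArithmeticFunction.vonMangoldt_nonneg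
  have h2 : Real.log n ≤ 4 * (n : ℝ) ^ (1 / 4 : ℝ) := by
    have := Real.log_le_rpow_div hn0.le (ε := 1 / 4) (by norm_num)
    linarith
  have h3 : (ArithmeticFunction.vonMangoldt n) ^ 2 ≤ 16 * (n : ℝ) ^ (1 / 2 : ℝ) := by
    calc (ArithmeticFunction.vonMangoldt n) ^ 2 ≤ (4 * (n : ℝ) ^ (1 / 4 : ℝ)) ^ 2 :=
          pow_le_pow_left₀ h0 (h1.trans h2) 2
      _ = 16 * ((n : ℝ) ^ (1 / 4 : ℝ)) ^ 2 := by ring
      _ = 16 * (n : ℝ) ^ (1 / 2 : ℝ) := by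
          rw [← Real.rpow_natCast, ← Real.rpow_mul hn0.le]
          norm_num
  have e : (n : ℝ) ^ (3 / 2 : ℝ) * (n : ℝ) ^ (1 / 2 : ℝ) = (n : ℝ) ^ 2 := by
    rw [← Real.rpow_add hn0, ← Real.rpow_natCast]
    norm_num
  have hp : 0 < (n : ℝ) ^ (3 / 2 : ℝ) := Real.rpow_pos_of_pos hn0 _
  have hp2 : 0 < (n : ℝ) ^ (1 / 2 : ℝ) := Real.rpow_pos_of_pos hn0 _
  calc (ArithmeticFunction.vonMangoldt n) ^ 2 / n * (1 / n) =
      (ArithmeticFunction.vonMangoldt n) ^ 2 / (n : ℝ) ^ 2 := by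
        field_simp
    _ ≤ (16 * (n : ℝ) ^ (1 / 2 : ℝ)) / (n : ℝ) ^ 2 := by gcongr
    _ = 16 * (1 / (n : ℝ) ^ (3 / 2 : ℝ)) := by
        rw [← e]
        field_simp

open Classical in
lemma sum3 {b : ℝ} (hb : 0 ≤ b) (X : ℕ) :
    ∑ n ∈ Finset.Icc 1 X, (ArithmeticFunction.vonMangoldt n) ^ 2 / n *
      (if Real.log n ≤ 2 * b then 1 else Real.exp 2 * (1 / n)) ≤
    (2 * b) ^ 2 / 2 + 8 * (2 * b + 1) + Real.exp 2 * c3 := by
  set N1 := ⌊Real.exp (2 * b)⌋₊ with hN1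
  have h1 : 1 ≤ N1 := by
    rw [hN1, Nat.one_le_floor_iff]
    exact Real.one_le_exp (by linarith)
  have hv : ∀ n : ℕ, 0 ≤ (ArithmeticFunction.vonMangoldt n) ^ 2 / (n : ℝ) := fun n => by positivity
  have h2 : ∀ n ∈ Finset.Icc 1 X, (ArithmeticFunction.vonMangoldt n) ^ 2 / n *
      (if Real.log n ≤ 2 * b then 1 else Real.exp 2 * (1 / n)) ≤
      (if n ≤ N1 then (ArithmeticFunction.vonMangoldt n) ^ 2 / (n : ℝ) else 0) +
      Real.exp 2 * (16 * (1 / (n : ℝ) ^ (3 / 2 : ℝ))) := by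
    intro n hn
    rw [Finset.mem_Icc] at hn
    have hn0 : (0 : ℝ) < n := by exact_mod_cast hn.1
    have h3 : 0 ≤ Real.exp 2 * (16 * (1 / (n : ℝ) ^ (3 / 2 : ℝ))) := by positivity
    by_cases hl : Real.log n ≤ 2 * b
    · rw [if_pos hl, if_pos (by
        rw [hN1]
        exact Nat.le_floor ((Real.log_le_iff_le_exp hn0).1 hl)), mul_one]
      linarith
    · rw [if_neg hl]
      have h4 := mul_le_mul_of_nonneg_left (lam_sq_sq hn.1) (Real.exp_pos 2).le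
      have h5 : 0 ≤ (if n ≤ N1 then (ArithmeticFunction.vonMangoldt n) ^ 2 / (n : ℝ) else 0) := by
        split_ifs
        · exact hv n
        · exact le_rfl
      calc _ = Real.exp 2 * ((ArithmeticFunction.vonMangoldt n) ^ 2 / n * (1 / n)) := by ring
        _ ≤ _ := by linarith
  refine (Finset.sum_le_sum h2).trans ?_
  rw [Finset.sum_add_distrib, ← Finset.mul_sum, ← Finset.sum_filter]
  have h6 : ∑ n ∈ (Finset.Icc 1 X).filter (fun n => n ≤ N1),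
      (ArithmeticFunction.vonMangoldt n) ^ 2 / (n : ℝ) ≤
      ∑ n ∈ Finset.Icc 1 N1, (ArithmeticFunction.vonMangoldt n) ^ 2 / (n : ℝ) := by
    apply Finset.sum_le_sum_of_subset_of_nonneg
    · intro n hn
      rw [Finset.mem_filter, Finset.mem_Icc] at hn
      rw [Finset.mem_Icc]
      exact ⟨hn.1.1, hn.2⟩
    · intro n _ _
      exact hv n
  have h7 := lam_sq_sum_nat N1 h1
  have h8 : Real.log N1 ≤ 2 * b := by
    rw [Real.log_le_iff_le_exp (by exact_mod_cast h1)]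
    exact Nat.floor_le (Real.exp_pos _).le
  have h9 : 0 ≤ Real.log N1 := Real.log_nonneg (by exact_mod_cast h1)
  have h10 : (Real.log N1) ^ 2 ≤ (2 * b) ^ 2 := pow_le_pow_left₀ h9 h8 2
  have h11 : ∑ n ∈ Finset.Icc 1 X, 16 * (1 / (n : ℝ) ^ (3 / 2 : ℝ)) ≤ c3 :=
    c3_sum.sum_le_tsum _ fun n _ => by positivity
  have h12 := mul_le_mul_of_nonneg_left h11 (Real.exp_pos 2).le
  linarith

end Av

/-! ## one value of `u` -/

section One

variable {b : ℝ} {W : ℂ → ℂ} {w : ℝ → ℂ}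

lemma rg_sub (y : ℝ) (X : ℕ) : Rg y X ⊆ Finset.Icc 1 X := by
  intro n hn
  unfold Rg at hn
  rw [Finset.mem_filter, Finset.mem_Icc] at hn
  rw [Finset.mem_Icc]
  omega

lemma one_notMem (y : ℝ) (X : ℕ) : 1 ∉ Rg y X := by
  unfold Rg
  rw [Finset.mem_filter, Finset.mem_Icc]
  rintro ⟨h, _⟩
  omega

lemma n1_gen (h : BW b W w) (X : ℕ) (y : ℝ) (γ : ℕ → ℂ) (x : ℕ → ℝ)
    (hγ : ∀ n ∈ Rg y X, ‖γ n‖ ≤ TC.lam n * ‖gs w (x n)‖) :
    ∑ n ∈ Rg y X, ‖γ n‖ ≤ Real.sqrt (q2 w) * (12 * Real.sqrt X) := by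
  have h1 : ∑ n ∈ Rg y X, ‖γ n‖ ≤ ∑ n ∈ Rg y X, TC.lam n * Real.sqrt (q2 w) :=
    Finset.sum_le_sum fun n hn => (hγ n hn).trans
      (mul_le_mul_of_nonneg_left (gs_norm_le h _) (TC.lam_nonneg n))
  have h2 : ∑ n ∈ Rg y X, TC.lam n ≤ ∑ n ∈ Finset.Icc 1 X, TC.lam n :=
    Finset.sum_le_sum_of_subset_of_nonneg (rg_sub y X) fun n _ _ => TC.lam_nonneg n
  rw [← Finset.sum_mul] at h1
  have h3 := sum_lam_le X
  calc _ ≤ _ := h1
    _ ≤ (12 * Real.sqrt X) * Real.sqrt (q2 w) :=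
      mul_le_mul_of_nonneg_right (h2.trans h3) (Real.sqrt_nonneg _)
    _ = _ := mul_comm _ _

lemma s_gen (w : ℝ → ℂ) (X : ℕ) (y : ℝ) (γ : ℕ → ℂ) (x : ℕ → ℝ)
    (hγ : ∀ n ∈ Rg y X, ‖γ n‖ ≤ TC.lam n * ‖gs w (x n)‖) :
    ∑ n ∈ Rg y X, ‖γ n‖ ^ 2 ≤ ∑ n ∈ Finset.Icc 1 X,
      (ArithmeticFunction.vonMangoldt n) ^ 2 / n * ‖gs w (x n)‖ ^ 2 := by
  refine (Finset.sum_le_sum fun n hn => ?_).trans
    (Finset.sum_le_sum_of_subset_of_nonneg (rg_sub y X) fun n _ _ => by positivity)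
  rw [← TC.lam_sq, ← mul_pow]
  exact pow_le_pow_left₀ (norm_nonneg _) (hγ n hn) 2

lemma ga_le {a : ℕ → ℂ} (ha : ∀ n, ‖a n‖ ≤ ArithmeticFunction.vonMangoldt n) (X : ℕ) (y ℓ u : ℝ) :
    ∀ n ∈ Rg y X, ‖ga a w ℓ u n‖ ≤ TC.lam n * ‖gs w (u - Real.log n)‖ := by
  intro n hn
  have hne : n ≠ 1 := fun h => one_notMem y X (h ▸ hn)
  unfold ga
  rw [if_neg hne, norm_neg, norm_mul]
  exact mul_le_mul_of_nonneg_right (lam_coef ha n) (norm_nonneg _)

lemma gb_le {a : ℕ → ℂ} (ha : ∀ n, ‖a n‖ ≤ ArithmeticFunction.vonMangoldt n) (X : ℕ) (y u : ℝ) :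
    ∀ n ∈ Rg y X, ‖gb a w u n‖ ≤ TC.lam n * ‖gs w (u + Real.log n)‖ := by
  intro n _
  unfold gb
  rw [norm_mul, RCLike.norm_conj]
  exact mul_le_mul_of_nonneg_right (lam_coef ha n) (norm_nonneg _)

lemma n1_ga (h : BW b W w) {a : ℕ → ℂ} (ha : ∀ n, ‖a n‖ ≤ ArithmeticFunction.vonMangoldt n)
    (X : ℕ) (y u : ℝ) {ℓ : ℝ} (hℓ : 0 ≤ ℓ) :
    n1 (insert 1 (Rg y X)) (ga a w ℓ u) ≤ Real.sqrt (q2 w) * (ℓ + 12 * Real.sqrt X) := by
  unfold n1
  rw [Finset.sum_insert (one_notMem y X)]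
  have h1 := n1_gen h X y _ (fun n => u - Real.log n) (ga_le (w := w) ha X y ℓ u)
  have h2 : ‖ga a w ℓ u 1‖ ≤ ℓ * Real.sqrt (q2 w) := by
    unfold ga
    rw [if_pos rfl, norm_mul, Complex.norm_real, Real.norm_of_nonneg hℓ]
    exact mul_le_mul_of_nonneg_left (gs_norm_le h u) hℓ
  linarith

lemma s_ga {a : ℕ → ℂ} (ha : ∀ n, ‖a n‖ ≤ ArithmeticFunction.vonMangoldt n)
    (X : ℕ) (y u : ℝ) (ℓ : ℝ) :
    ∑ n ∈ insert 1 (Rg y X), ‖ga a w ℓ u n‖ ^ 2 ≤ ℓ ^ 2 * ‖gs w u‖ ^ 2 +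
      ∑ n ∈ Finset.Icc 1 X, (ArithmeticFunction.vonMangoldt n) ^ 2 / n *
        ‖gs w (u - Real.log n)‖ ^ 2 := by
  rw [Finset.sum_insert (one_notMem y X)]
  have h1 := s_gen w X y _ (fun n => u - Real.log n) (ga_le (w := w) ha X y ℓ u)
  have h2 : ‖ga a w ℓ u 1‖ ^ 2 = ℓ ^ 2 * ‖gs w u‖ ^ 2 := by
    unfold ga
    rw [if_pos rfl, norm_mul, Complex.norm_real, mul_pow, Real.norm_eq_abs, sq_abs]
  linarith

lemma n1_gb (h : BW b W w) {a : ℕ → ℂ} (ha : ∀ n, ‖a n‖ ≤ ArithmeticFunction.vonMangoldt n)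
    (X : ℕ) (y u : ℝ) {ℓ : ℝ} (hℓ : 0 ≤ ℓ) :
    n1 (Rg y X) (gb a w u) ≤ Real.sqrt (q2 w) * (ℓ + 12 * Real.sqrt X) := by
  unfold n1
  have h1 := n1_gen h X y _ (fun n => u + Real.log n) (gb_le (w := w) ha X y u)
  have h2 : 0 ≤ Real.sqrt (q2 w) * ℓ := mul_nonneg (Real.sqrt_nonneg _) hℓ
  linarith

lemma s_gb {a : ℕ → ℂ} (ha : ∀ n, ‖a n‖ ≤ ArithmeticFunction.vonMangoldt n)
    (X : ℕ) (y u : ℝ) :
    ∑ n ∈ Rg y X, ‖gb a w u n‖ ^ 2 ≤
      ∑ n ∈ Finset.Icc 1 X, (ArithmeticFunction.vonMangoldt n) ^ 2 / n *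
        ‖gs w (u + Real.log n)‖ ^ 2 :=
  s_gen w X y _ (fun n => u + Real.log n) (gb_le (w := w) ha X y u)

/-- the bound for one value of `u` -/
noncomputable def Gu (X : ℕ) (w : ℝ → ℂ) (y ℓ η e0 e1 u : ℝ) : ℝ :=
  (1 + η) * (ℓ ^ 2 * ‖gs w u‖ ^ 2 + ∑ n ∈ Finset.Icc 1 X,
    (ArithmeticFunction.vonMangoldt n) ^ 2 / n * ‖gs w (u - Real.log n)‖ ^ 2 + q2 w * e1) +
  3 * (1 + 1 / η) * (∑ n ∈ Finset.Icc 1 X,
    (ArithmeticFunction.vonMangoldt n) ^ 2 / n * ‖gs w (u + Real.log n)‖ ^ 2 + q2 w * e1 +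
    (1 + e0) * (48 * Real.sqrt y * ∑ n ∈ Sg y X, TC.lam n * ‖gs w (u - Real.log n)‖ ^ 2) +
    (1 + e0) * (48 * Real.sqrt y * ∑ n ∈ Sg y X, TC.lam n * ‖gs w (u + Real.log n)‖ ^ 2))

lemma om_bd {τ H C : ℝ} (hH : 0 < H) {f : ℝ → ℝ} (hf : Continuous f) (hC : ∀ t, |f t| ≤ C) :
    Integrable (fun t => TC.om τ H t * f t) := by
  refine ((TC.om_integrable τ H hH).mul_const C).mono'
    ((TC.om_cont τ H).mul hf).aestronglyMeasurable (Eventually.of_forall fun t => ?_)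
  rw [Real.norm_eq_abs, abs_mul, abs_of_pos (TC.om_pos τ H t)]
  exact mul_le_mul_of_nonneg_left (hC t) (TC.om_pos τ H t).le

lemma om_RR_int {τ H : ℝ} (hH : 0 < H) (S : Finset ℕ) (r : ℕ → ℂ) (Nr : Finset ℕ) (γ : ℕ → ℂ) :
    Integrable (fun t => TC.om τ H t * (‖RP S r t‖ ^ 2 * ‖RP Nr γ t‖ ^ 2)) := by
  refine om_bd hH (((RP_cont S r).norm.pow 2).mul ((RP_cont Nr γ).norm.pow 2))
    (C := n1 S r ^ 2 * n1 Nr γ ^ 2) fun t => ?_
  rw [abs_of_nonneg (by positivity)]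
  have h1 := pow_le_pow_left₀ (norm_nonneg _) (RP_norm_le S r t) 2
  have h2 := pow_le_pow_left₀ (norm_nonneg _) (RP_norm_le Nr γ t) 2
  exact mul_le_mul h1 h2 (sq_nonneg _) (sq_nonneg _)

lemma om_R_int {τ H : ℝ} (hH : 0 < H) (S : Finset ℕ) (r : ℕ → ℂ) :
    Integrable (fun t => TC.om τ H t * ‖RP S r t‖ ^ 2) := by
  refine om_bd hH ((RP_cont S r).norm.pow 2) (C := n1 S r ^ 2) fun t => ?_
  rw [abs_of_nonneg (by positivity)]
  exact pow_le_pow_left₀ (norm_nonneg _) (RP_norm_le S r t) 2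

lemma om_R_le (S : Finset ℕ) (r : ℕ → ℂ) {K0 y τ H Y : ℝ} {N : ℕ} (hH : 0 < H) (hK : 1 ≤ K0)
    (hS : Smo S K0 y) (hN : 1 ≤ N) (hY : K0 * N ≤ Y) :
    ∫ t, TC.om τ H t * ‖RP S r t‖ ^ 2 ≤
      Real.sqrt (2 * Real.pi) * H * (w1 S r * (1 + K0 * Real.exp (-(H ^ 2) / (8 * Y ^ 2)))) := by
  have h1 := om_RQ S r (τ := τ) hH hK hS {1} (fun _ => (1 : ℂ)) (N := N) (Y := Y)
    (fun n hn => by
      rw [Finset.mem_singleton] at hn
      subst hn
      exact ⟨Or.inl rfl, hN⟩) hY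
  have e1 : ∀ t, RP {1} (fun _ => (1 : ℂ)) t = 1 := by
    intro t
    unfold RP TP mn
    simp
  have e2 : n1 {1} (fun _ => (1 : ℂ)) = 1 := by
    unfold n1
    simp
  simp only [e1, e2, norm_one, one_pow, mul_one, Finset.sum_singleton, one_mul] at h1
  have h2 := (abs_le.1 h1).2
  linarith

lemma one_u (h : BW b W w) {a : ℕ → ℂ} (ha : ∀ n, ‖a n‖ ≤ ArithmeticFunction.vonMangoldt n)
    (S : Finset ℕ) (r : ℕ → ℂ) {K0 y τ H Y : ℝ} {X : ℕ} (hH : 0 < H) (hK : 1 ≤ K0)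
    (hS : Smo S K0 y) (hy : 0 ≤ y) (hX : 1 ≤ X) (hY : K0 * X ≤ Y) {ℓ η e0 e1 : ℝ} (hℓ : 0 ≤ ℓ)
    (hη : 0 < η) (he0 : K0 * Real.exp (-(H ^ 2) / (8 * Y ^ 2)) = e0)
    (he1 : (ℓ + 12 * Real.sqrt X) ^ 2 * e0 = e1) (u : ℝ) :
    ∫ t, TC.om τ H t * (‖RP S r t‖ ^ 2 * ‖PD a X w ℓ u t‖ ^ 2) ≤
      Real.sqrt (2 * Real.pi) * H * (w1 S r * Gu X w y ℓ η e0 e1 u) := by
  have he00 : 0 ≤ e0 := by
    rw [← he0]
    have := Real.exp_pos (-(H ^ 2) / (8 * Y ^ 2))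
    positivity
  set P3 := 48 * Real.sqrt y * ∑ n ∈ Sg y X, TC.lam n * ‖gs w (u - Real.log n)‖ ^ 2 with hP3
  set P4 := 48 * Real.sqrt y * ∑ n ∈ Sg y X, TC.lam n * ‖gs w (u + Real.log n)‖ ^ 2 with hP4
  have hP30 : 0 ≤ P3 := by
    have : 0 ≤ ∑ n ∈ Sg y X, TC.lam n * ‖gs w (u - Real.log n)‖ ^ 2 :=
      Finset.sum_nonneg fun n _ => mul_nonneg (TC.lam_nonneg n) (sq_nonneg _)
    positivity
  have hP40 : 0 ≤ P4 := by
    have : 0 ≤ ∑ n ∈ Sg y X, TC.lam n * ‖gs w (u + Real.log n)‖ ^ 2 :=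
      Finset.sum_nonneg fun n _ => mul_nonneg (TC.lam_nonneg n) (sq_nonneg _)
    positivity
  set Q1 := RP (insert 1 (Rg y X)) (ga a w ℓ u) with hQ1
  set Q2 := RP (Rg y X) (gb a w u) with hQ2
  have hη3 : 0 ≤ 3 * (1 + 1 / η) := by positivity
  have hpt : ∀ t, ‖PD a X w ℓ u t‖ ^ 2 ≤ (1 + η) * ‖Q1 t‖ ^ 2 +
      3 * (1 + 1 / η) * (‖Q2 t‖ ^ 2 + P3 + P4) := by
    intro t
    rw [pd_eq ha X w y ℓ u t]
    refine (norm_alg hη _ _ _ _).trans ?_
    have h3 : ‖Q3 a X w y u t‖ ^ 2 ≤ P3 :=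
      small_part y hy X (fun n => a n * (Real.sqrt n : ℂ)⁻¹) (fun n => gs w (u - Real.log n))
        (fun n => mn n 1 t) (lam_coef ha) (fun n => mn_norm _ _ _)
    have h4 : ‖Q4 a X w y u t‖ ^ 2 ≤ P4 :=
      small_part y hy X (fun n => conj (a n) * (Real.sqrt n : ℂ)⁻¹)
        (fun n => gs w (u + Real.log n)) (fun n => mn 1 n t)
        (fun n => lam_coef (a := fun n => conj (a n))
          (fun n => by rw [RCLike.norm_conj]; exact ha n) n)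
        (fun n => mn_norm _ _ _)
    rw [RCLike.norm_conj]
    have h5 : ‖RP (Rg y X) (gb a w u) t‖ ^ 2 + ‖Q3 a X w y u t‖ ^ 2 + ‖Q4 a X w y u t‖ ^ 2 ≤
        ‖Q2 t‖ ^ 2 + P3 + P4 := by
      rw [hQ2]
      linarith
    have h6 := mul_le_mul_of_nonneg_left h5 hη3
    linarith
  have i1 := om_RR_int (τ := τ) hH S r (insert 1 (Rg y X)) (ga a w ℓ u)
  have i2 := om_RR_int (τ := τ) hH S r (Rg y X) (gb a w u)
  have i0 := om_R_int (τ := τ) hH S r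
  rw [← hQ1] at i1
  rw [← hQ2] at i2
  have hle : ∫ t, TC.om τ H t * (‖RP S r t‖ ^ 2 * ‖PD a X w ℓ u t‖ ^ 2) ≤
      ∫ t, ((1 + η) * (TC.om τ H t * (‖RP S r t‖ ^ 2 * ‖Q1 t‖ ^ 2)) +
        3 * (1 + 1 / η) * (TC.om τ H t * (‖RP S r t‖ ^ 2 * ‖Q2 t‖ ^ 2)) +
        3 * (1 + 1 / η) * (P3 + P4) * (TC.om τ H t * ‖RP S r t‖ ^ 2)) := by
    refine integral_mono_of_nonneg (Eventually.of_forall fun t => ?_)
      (((i1.const_mul _).add (i2.const_mul _)).add (i0.const_mul _))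
      (Eventually.of_forall fun t => ?_)
    · exact mul_nonneg (TC.om_pos τ H t).le (by positivity)
    · simp only
      have h7 : 0 ≤ TC.om τ H t * ‖RP S r t‖ ^ 2 :=
        mul_nonneg (TC.om_pos τ H t).le (sq_nonneg _)
      have h8 := mul_le_mul_of_nonneg_left (hpt t) h7
      calc TC.om τ H t * (‖RP S r t‖ ^ 2 * ‖PD a X w ℓ u t‖ ^ 2) =
          TC.om τ H t * ‖RP S r t‖ ^ 2 * ‖PD a X w ℓ u t‖ ^ 2 := by ring
        _ ≤ _ := h8
        _ = _ := by ring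
  refine hle.trans ?_
  have j1 : Integrable (fun t => (1 + η) * (TC.om τ H t * (‖RP S r t‖ ^ 2 * ‖Q1 t‖ ^ 2))) :=
    i1.const_mul _
  have j2 : Integrable (fun t => 3 * (1 + 1 / η) *
      (TC.om τ H t * (‖RP S r t‖ ^ 2 * ‖Q2 t‖ ^ 2))) := i2.const_mul _
  have j12 : Integrable (fun t => (1 + η) * (TC.om τ H t * (‖RP S r t‖ ^ 2 * ‖Q1 t‖ ^ 2)) +
      3 * (1 + 1 / η) * (TC.om τ H t * (‖RP S r t‖ ^ 2 * ‖Q2 t‖ ^ 2))) := j1.add j2
  have j0 : Integrable (fun t => 3 * (1 + 1 / η) * (P3 + P4) *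
      (TC.om τ H t * ‖RP S r t‖ ^ 2)) := i0.const_mul _
  rw [integral_add j12 j0, integral_add j1 j2, integral_const_mul, integral_const_mul,
    integral_const_mul]
  have hw := w1_nonneg S r
  have hsH : 0 ≤ Real.sqrt (2 * Real.pi) * H := by positivity
  have b1 := (abs_le.1 (om_RQ S r (τ := τ) hH hK hS (insert 1 (Rg y X)) (ga a w ℓ u) (N := X)
    (Y := Y) (fun n hn => rg_gd hn hX) hY)).2
  have b2 := (abs_le.1 (om_RQ S r (τ := τ) hH hK hS (Rg y X) (gb a w u) (N := X)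
    (Y := Y) (fun n hn => rg_gd (Finset.mem_insert_of_mem hn) hX) hY)).2
  have b0 := om_R_le S r (τ := τ) hH hK hS hX hY
  rw [← hQ1, he0] at b1
  rw [← hQ2, he0] at b2
  rw [he0] at b0
  have hq := q2_nonneg w
  have sq1 : n1 (insert 1 (Rg y X)) (ga a w ℓ u) ^ 2 * e0 ≤ q2 w * e1 := by
    have h9 := pow_le_pow_left₀ (n1_nonneg _ _) (n1_ga h ha X y u hℓ) 2
    rw [mul_pow, Real.sq_sqrt hq] at h9
    have h10 := mul_le_mul_of_nonneg_right h9 he00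
    rw [← he1]
    linarith
  have sq2 : n1 (Rg y X) (gb a w u) ^ 2 * e0 ≤ q2 w * e1 := by
    have h9 := pow_le_pow_left₀ (n1_nonneg _ _) (n1_gb h ha X y u hℓ) 2
    rw [mul_pow, Real.sq_sqrt hq] at h9
    have h10 := mul_le_mul_of_nonneg_right h9 he00
    rw [← he1]
    linarith
  have t1 := s_ga (w := w) ha X y u ℓ
  have t2 := s_gb (w := w) ha X y u
  set s1 := ∑ n ∈ Finset.Icc 1 X, (ArithmeticFunction.vonMangoldt n) ^ 2 / n *
        ‖gs w (u - Real.log n)‖ ^ 2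
  set s2 := ∑ n ∈ Finset.Icc 1 X, (ArithmeticFunction.vonMangoldt n) ^ 2 / n *
        ‖gs w (u + Real.log n)‖ ^ 2
  have c1 : ∫ t, TC.om τ H t * (‖RP S r t‖ ^ 2 * ‖Q1 t‖ ^ 2) ≤
      Real.sqrt (2 * Real.pi) * H * (w1 S r * (ℓ ^ 2 * ‖gs w u‖ ^ 2 + s1 + q2 w * e1)) := by
    have e : w1 S r * (∑ n ∈ insert 1 (Rg y X), ‖ga a w ℓ u n‖ ^ 2) +
        w1 S r * (n1 (insert 1 (Rg y X)) (ga a w ℓ u) ^ 2 * e0) ≤
        w1 S r * (ℓ ^ 2 * ‖gs w u‖ ^ 2 + s1 + q2 w * e1) := by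
      rw [← mul_add]
      exact mul_le_mul_of_nonneg_left (add_le_add t1 sq1) hw
    have := mul_le_mul_of_nonneg_left e hsH
    rw [mul_add] at this
    linarith
  have c2 : ∫ t, TC.om τ H t * (‖RP S r t‖ ^ 2 * ‖Q2 t‖ ^ 2) ≤
      Real.sqrt (2 * Real.pi) * H * (w1 S r * (s2 + q2 w * e1)) := by
    have e : w1 S r * (∑ n ∈ Rg y X, ‖gb a w u n‖ ^ 2) +
        w1 S r * (n1 (Rg y X) (gb a w u) ^ 2 * e0) ≤
        w1 S r * (s2 + q2 w * e1) := by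
      rw [← mul_add]
      exact mul_le_mul_of_nonneg_left (add_le_add t2 sq2) hw
    have := mul_le_mul_of_nonneg_left e hsH
    rw [mul_add] at this
    linarith
  have d1 := mul_le_mul_of_nonneg_left c1 (by linarith : (0 : ℝ) ≤ 1 + η)
  have d2 := mul_le_mul_of_nonneg_left c2 hη3
  have d0 := mul_le_mul_of_nonneg_left b0 (mul_nonneg hη3 (add_nonneg hP30 hP40))
  unfold Gu
  rw [← hP3, ← hP4]
  linarith

end One

/-! ## the assembly -/

section Asm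

variable {b : ℝ} {W : ℂ → ℂ} {w : ℝ → ℂ}

lemma fub {ρ : ℝ → ℝ} (hρ : Integrable ρ) (hρc : Continuous ρ) (hρ0 : ∀ t, 0 ≤ ρ t)
    {F : ℝ → ℝ → ℝ} (hF : Continuous (fun p : ℝ × ℝ => F p.1 p.2)) (hF0 : ∀ α t, 0 ≤ F α t)
    {C : ℝ} (hC : ∀ α t, F α t ≤ C) :
    ∫ t, ρ t * (2 * ∫ α in (0 : ℝ)..1, Rf α * F α t) =
      2 * ∫ α in (0 : ℝ)..1, Rf α * ∫ t, ρ t * F α t := by
  have hi : Integrable (fun z : ℝ × ℝ => Rf z.1 * (ρ z.2 * F z.1 z.2))
      ((volume.restrict (Set.Ioc (0 : ℝ) 1)).prod volume) := by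
    have hg : Integrable (fun z : ℝ × ℝ => (fun _ : ℝ => Rf 0 * C) z.1 * ρ z.2)
        ((volume.restrict (Set.Ioc (0 : ℝ) 1)).prod volume) :=
      Integrable.mul_prod (integrable_const _) hρ
    refine hg.mono' ?_ ?_
    · exact ((nt_Rf_cont.comp continuous_fst).mul
        ((hρc.comp continuous_snd).mul hF)).aestronglyMeasurable
    · have h1 : ∀ᵐ z : ℝ × ℝ ∂((volume.restrict (Set.Ioc (0 : ℝ) 1)).prod volume),
          z.1 ∈ Set.Ioc (0 : ℝ) 1 := by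
        have h2 : ∀ᵐ u ∂(volume.restrict (Set.Ioc (0 : ℝ) 1)), u ∈ Set.Ioc (0 : ℝ) 1 :=
          ae_restrict_mem measurableSet_Ioc
        exact Measure.quasiMeasurePreserving_fst.ae h2
      filter_upwards [h1] with z hz
      rw [Real.norm_of_nonneg (mul_nonneg (nt_Rf_nonneg _) (mul_nonneg (hρ0 _) (hF0 _ _)))]
      calc Rf z.1 * (ρ z.2 * F z.1 z.2) ≤ Rf 0 * (ρ z.2 * C) :=
            mul_le_mul (nt_Rf_le _ hz.1.le) (mul_le_mul_of_nonneg_left (hC _ _) (hρ0 _))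
              (mul_nonneg (hρ0 _) (hF0 _ _)) (nt_Rf_nonneg 0)
        _ = _ := by ring
  rw [intervalIntegral.integral_of_le zero_le_one]
  calc ∫ t, ρ t * (2 * ∫ α in (0 : ℝ)..1, Rf α * F α t) =
      2 * ∫ t, ∫ α in Set.Ioc (0 : ℝ) 1, Rf α * (ρ t * F α t) := by
        rw [← integral_const_mul]
        congr 1
        funext t
        rw [intervalIntegral.integral_of_le zero_le_one]
        have e : ∀ α : ℝ, Rf α * (ρ t * F α t) = ρ t * (Rf α * F α t) := fun α => by ring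
        simp_rw [e]
        rw [integral_const_mul]
        ring
    _ = 2 * ∫ α in Set.Ioc (0 : ℝ) 1, ∫ t, Rf α * (ρ t * F α t) := by
        rw [integral_integral_swap (f := fun α t => Rf α * (ρ t * F α t)) hi]
    _ = _ := by
        congr 2
        funext α
        rw [integral_const_mul]

lemma pd_cont2 (h : BW b W w) (a : ℕ → ℂ) (X : ℕ) (ℓ Λ : ℝ) :
    Continuous (fun p : ℝ × ℝ => PD a X w ℓ (Λ * p.1) p.2) := by
  have hg := gs_cont h
  unfold PD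
  refine Continuous.sub (Continuous.sub ?_ ?_) ?_
  · exact continuous_const.mul (hg.comp (by fun_prop))
  · refine continuous_finsetSum _ fun n _ => ?_
    exact (continuous_const.mul (hg.comp (by fun_prop))).mul ((mn_cont _ _).comp continuous_snd)
  · refine continuous_finsetSum _ fun n _ => ?_
    exact (continuous_const.mul (hg.comp (by fun_prop))).mul ((mn_cont _ _).comp continuous_snd)

lemma pd_bd (h : BW b W w) (a : ℕ → ℂ) (X : ℕ) (ℓ : ℝ) :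
    ∃ C : ℝ, ∀ u t, ‖PD a X w ℓ u t‖ ≤ C := by
  refine ⟨|ℓ| * Real.sqrt (q2 w) +
    ∑ n ∈ Finset.Icc 1 X, ‖a n * (Real.sqrt n : ℂ)⁻¹‖ * Real.sqrt (q2 w) +
    ∑ n ∈ Finset.Icc 1 X, ‖conj (a n) * (Real.sqrt n : ℂ)⁻¹‖ * Real.sqrt (q2 w), fun u t => ?_⟩
  unfold PD
  refine (norm_sub_le _ _).trans (add_le_add ((norm_sub_le _ _).trans (add_le_add ?_ ?_)) ?_)
  · rw [norm_mul, Complex.norm_real, Real.norm_eq_abs]
    exact mul_le_mul_of_nonneg_left (gs_norm_le h _) (abs_nonneg _)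
  · refine (norm_sum_le _ _).trans (Finset.sum_le_sum fun n _ => ?_)
    rw [norm_mul, norm_mul _ (gs w _), mn_norm, mul_one]
    exact mul_le_mul_of_nonneg_left (gs_norm_le h _) (norm_nonneg _)
  · refine (norm_sum_le _ _).trans (Finset.sum_le_sum fun n _ => ?_)
    rw [norm_mul, norm_mul _ (gs w _), mn_norm, mul_one]
    exact mul_le_mul_of_nonneg_left (gs_norm_le h _) (norm_nonneg _)

lemma Gu_cont (h : BW b W w) (X : ℕ) (y ℓ η e0 e1 : ℝ) : Continuous (Gu X w y ℓ η e0 e1) := by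
  have hg := gs_cont h
  have hA : ∀ n : ℕ, Continuous (fun u : ℝ => ‖gs w (u - Real.log n)‖ ^ 2) := fun n =>
    (hg.comp (by fun_prop)).norm.pow 2
  have hB : ∀ n : ℕ, Continuous (fun u : ℝ => ‖gs w (u + Real.log n)‖ ^ 2) := fun n =>
    (hg.comp (by fun_prop)).norm.pow 2
  have h1 : Continuous (fun u : ℝ => ∑ n ∈ Finset.Icc 1 X,
      (ArithmeticFunction.vonMangoldt n) ^ 2 / n * ‖gs w (u - Real.log n)‖ ^ 2) :=
    continuous_finsetSum _ fun n _ => continuous_const.mul (hA n)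
  have h2 : Continuous (fun u : ℝ => ∑ n ∈ Finset.Icc 1 X,
      (ArithmeticFunction.vonMangoldt n) ^ 2 / n * ‖gs w (u + Real.log n)‖ ^ 2) :=
    continuous_finsetSum _ fun n _ => continuous_const.mul (hB n)
  have h3 : Continuous (fun u : ℝ => ∑ n ∈ Sg y X, TC.lam n * ‖gs w (u - Real.log n)‖ ^ 2) :=
    continuous_finsetSum _ fun n _ => continuous_const.mul (hA n)
  have h4 : Continuous (fun u : ℝ => ∑ n ∈ Sg y X, TC.lam n * ‖gs w (u + Real.log n)‖ ^ 2) :=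
    continuous_finsetSum _ fun n _ => continuous_const.mul (hB n)
  have h5 : Continuous (fun u : ℝ => ‖gs w u‖ ^ 2) := hg.norm.pow 2
  unfold Gu
  exact (continuous_const.mul (((continuous_const.mul h5).add h1).add continuous_const)).add
    (continuous_const.mul (((h2.add continuous_const).add
      (continuous_const.mul (continuous_const.mul h3))).add
      (continuous_const.mul (continuous_const.mul h4))))

/-- the average of the bound -/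
noncomputable def BB (X : ℕ) (b y ℓ η e0 e1 Λ K : ℝ) : ℝ :=
  (1 + η) * (ℓ ^ 2 * (Rf 0 / 2) + (8 * Rf 0 + (Λ ^ 2 * (∫ α in (0 : ℝ)..1, α * Rf α) +
    8 * Λ * Rf 0) + (K / Λ * (b + cG)) * ((Real.log X) ^ 2 / 2 + 8 * (Real.log X + 1))) +
    e1 * (Λ * Rf 0)) +
  3 * (1 + 1 / η) * (Rf 0 * ((2 * b) ^ 2 / 2 + 8 * (2 * b + 1) + Real.exp 2 * c3) +
    e1 * (Λ * Rf 0) + (1 + e0) * (48 * Real.sqrt y * (48 * Real.sqrt y * Rf 0)) +
    (1 + e0) * (48 * Real.sqrt y * (48 * Real.sqrt y * Rf 0)))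

lemma Lf_Gu (h : BW b W w) (hc : ∀ x, ‖gs w (-x)‖ = ‖gs w x‖) (hb : 0 < b) {y : ℝ} {X : ℕ}
    (hy : 0 ≤ y) (hX : 1 ≤ X) {ℓ η e0 e1 Λ K : ℝ} (hη : 0 < η) (he0 : 0 ≤ e0) (he1 : 0 ≤ e1)
    (hΛ : 0 < Λ) (hXΛ : Real.log X ≤ 2 * Λ) (hK : 0 < K)
    (hlip : ∀ x y, |Rf x - Rf y| ≤ K * |x - y|) :
    Lf Λ (Gu X w y ℓ η e0 e1) ≤ q2 w * BB X b y ℓ η e0 e1 Λ K := by
  classical
  have hg := gs_cont h
  have hq := q2_nonneg w
  have hR := nt_Rf_nonneg 0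
  set A : ℕ → ℝ → ℝ := fun n u => ‖gs w (u - Real.log n)‖ ^ 2 with hA
  set B : ℕ → ℝ → ℝ := fun n u => ‖gs w (u + Real.log n)‖ ^ 2 with hB
  set N : ℝ → ℝ := fun u => ‖gs w u‖ ^ 2 with hN
  set v : ℕ → ℝ := fun n => (ArithmeticFunction.vonMangoldt n) ^ 2 / n with hv
  have hv0 : ∀ n, 0 ≤ v n := fun n => by simp only [hv]; positivity
  have cA : ∀ n, Continuous (A n) := fun n => (hg.comp (by fun_prop)).norm.pow 2
  have cB : ∀ n, Continuous (B n) := fun n => (hg.comp (by fun_prop)).norm.pow 2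
  have cN : Continuous N := hg.norm.pow 2
  have cm : ∀ (c : ℝ) (F : ℝ → ℝ), Continuous F → Continuous (fun u => c * F u) :=
    fun c F hF => continuous_const.mul hF
  have ca : ∀ (F G : ℝ → ℝ), Continuous F → Continuous G → Continuous (fun u => F u + G u) :=
    fun F G hF hG => hF.add hG
  have cc : Continuous (fun _ : ℝ => q2 w * e1) := continuous_const
  have cS : ∀ (S : Finset ℕ) (c : ℕ → ℝ) (F : ℕ → ℝ → ℝ), (∀ n, Continuous (F n)) →
      Continuous (fun u => ∑ n ∈ S, c n * F n u) := fun S c F hF =>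
    continuous_finsetSum _ fun n _ => continuous_const.mul (hF n)
  have e : Lf Λ (Gu X w y ℓ η e0 e1) =
      (1 + η) * (ℓ ^ 2 * Lf Λ N + ∑ n ∈ Finset.Icc 1 X, v n * Lf Λ (A n) +
        Lf Λ (fun _ => q2 w * e1)) +
      3 * (1 + 1 / η) * (∑ n ∈ Finset.Icc 1 X, v n * Lf Λ (B n) + Lf Λ (fun _ => q2 w * e1) +
        (1 + e0) * (48 * Real.sqrt y * ∑ n ∈ Sg y X, TC.lam n * Lf Λ (A n)) +
        (1 + e0) * (48 * Real.sqrt y * ∑ n ∈ Sg y X, TC.lam n * Lf Λ (B n))) := by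
    rw [← Lf_mul (ℓ ^ 2) N, ← Lf_sum _ v A cA, ← Lf_sum _ v B cB,
      ← Lf_sum _ TC.lam A cA, ← Lf_sum _ TC.lam B cB]
    rw [← Lf_mul (48 * Real.sqrt y), ← Lf_mul (48 * Real.sqrt y), ← Lf_mul (1 + e0),
      ← Lf_mul (1 + e0)]
    have k1 := cm (ℓ ^ 2) N cN
    have k2 := cS (Finset.Icc 1 X) v A cA
    have k3 := cS (Finset.Icc 1 X) v B cB
    have k4 := cm (1 + e0) _ (cm (48 * Real.sqrt y) _ (cS (Sg y X) TC.lam A cA))
    have k5 := cm (1 + e0) _ (cm (48 * Real.sqrt y) _ (cS (Sg y X) TC.lam B cB))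
    have k6 := ca _ _ k1 k2
    have k7 := ca _ _ k6 cc
    have k8 := ca _ _ k3 cc
    have k9 := ca _ _ k8 k4
    have k10 := ca _ _ k9 k5
    rw [← Lf_add k1 k2, ← Lf_add k6 cc, ← Lf_add k3 cc, ← Lf_add k8 k4, ← Lf_add k9 k5,
      ← Lf_mul (1 + η), ← Lf_mul (3 * (1 + 1 / η)), ← Lf_add (cm _ _ k7) (cm _ _ k10)]
    rfl
  rw [e]
  have b1 : Lf Λ N ≤ Rf 0 * (q2 w / 2) := av1 h hc hΛ
  have b2 : ∑ n ∈ Finset.Icc 1 X, v n * Lf Λ (A n) ≤ q2 w * (8 * Rf 0 + (Λ ^ 2 *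
      (∫ α in (0 : ℝ)..1, α * Rf α) + 8 * Λ * Rf 0) + (K / Λ * (b + cG)) *
      ((Real.log X) ^ 2 / 2 + 8 * (Real.log X + 1))) := by
    have hκ : 0 ≤ K / Λ * (b + cG) := by
      have := cG_nonneg
      positivity
    have h1 := mul_le_mul_of_nonneg_left (sum2 hΛ hκ X hX hXΛ) hq
    refine le_trans ?_ h1
    rw [Finset.mul_sum]
    refine Finset.sum_le_sum fun n _ => ?_
    have h2 := mul_le_mul_of_nonneg_left (av2 h hK hlip (Real.log n) hΛ) (hv0 n)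
    refine h2.trans (le_of_eq ?_)
    simp only [hv]
    ring
  have b3 : Lf Λ (fun _ => q2 w * e1) ≤ q2 w * (e1 * (Λ * Rf 0)) := by
    refine (Lf_const hΛ (mul_nonneg hq he1)).trans (le_of_eq ?_)
    ring
  have b4 : ∑ n ∈ Finset.Icc 1 X, v n * Lf Λ (B n) ≤ q2 w * (Rf 0 * ((2 * b) ^ 2 / 2 +
      8 * (2 * b + 1) + Real.exp 2 * c3)) := by
    have h1 := mul_le_mul_of_nonneg_left (mul_le_mul_of_nonneg_left (sum3 hb.le X) hR) hq
    refine le_trans ?_ h1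
    rw [Finset.mul_sum, Finset.mul_sum]
    refine Finset.sum_le_sum fun n hn => ?_
    rw [Finset.mem_Icc] at hn
    have hn0 : (0 : ℝ) < n := by exact_mod_cast hn.1
    have h2 : Lf Λ (B n) ≤ Rf 0 * (if Real.log n ≤ 2 * b then 1 else Real.exp 2 * (1 / n)) *
        q2 w := by
      split_ifs with hl
      · rw [mul_one]
        exact av3 h (Real.log n) hΛ
      · have hl' := not_le.1 hl
        refine (av4 h hΛ (by linarith)).trans ?_
        refine mul_le_mul_of_nonneg_right (mul_le_mul_of_nonneg_left ?_ hR) hq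
        have e3 : (1 : ℝ) / n = Real.exp (-Real.log n) := by
          rw [Real.exp_neg, Real.exp_log hn0, one_div]
        rw [e3, ← Real.exp_add]
        apply Real.exp_le_exp.2
        nlinarith [sq_nonneg (Real.log n - b - 2)]
    have h3 := mul_le_mul_of_nonneg_left h2 (hv0 n)
    refine h3.trans (le_of_eq ?_)
    simp only [hv]
    ring
  have hlam : ∑ n ∈ Sg y X, TC.lam n ≤ 48 * Real.sqrt y := smooth_sum X y hy
  have b5 : ∑ n ∈ Sg y X, TC.lam n * Lf Λ (A n) ≤ q2 w * (48 * Real.sqrt y * Rf 0) := by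
    have h1 : ∑ n ∈ Sg y X, TC.lam n * Lf Λ (A n) ≤ ∑ n ∈ Sg y X, TC.lam n * (Rf 0 * q2 w) := by
      refine Finset.sum_le_sum fun n _ => mul_le_mul_of_nonneg_left ?_ (TC.lam_nonneg n)
      exact av3 h (-Real.log n) hΛ
    rw [← Finset.sum_mul] at h1
    have h2 := mul_le_mul_of_nonneg_right hlam (mul_nonneg hR hq)
    linarith
  have b6 : ∑ n ∈ Sg y X, TC.lam n * Lf Λ (B n) ≤ q2 w * (48 * Real.sqrt y * Rf 0) := by
    have h1 : ∑ n ∈ Sg y X, TC.lam n * Lf Λ (B n) ≤ ∑ n ∈ Sg y X, TC.lam n * (Rf 0 * q2 w) := by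
      refine Finset.sum_le_sum fun n _ => mul_le_mul_of_nonneg_left ?_ (TC.lam_nonneg n)
      exact av3 h (Real.log n) hΛ
    rw [← Finset.sum_mul] at h1
    have h2 := mul_le_mul_of_nonneg_right hlam (mul_nonneg hR hq)
    linarith
  have hs : 0 ≤ 48 * Real.sqrt y := by positivity
  have hη3 : 0 ≤ 3 * (1 + 1 / η) := by positivity
  have c5 := mul_le_mul_of_nonneg_left (mul_le_mul_of_nonneg_left b5 hs)
    (by linarith : (0 : ℝ) ≤ 1 + e0)
  have c6 := mul_le_mul_of_nonneg_left (mul_le_mul_of_nonneg_left b6 hs)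
    (by linarith : (0 : ℝ) ≤ 1 + e0)
  have c1 := mul_le_mul_of_nonneg_left b1 (sq_nonneg ℓ)
  have d1 := mul_le_mul_of_nonneg_left (add_le_add (add_le_add c1 b2) b3)
    (by linarith : (0 : ℝ) ≤ 1 + η)
  have d2 := mul_le_mul_of_nonneg_left (add_le_add (add_le_add (add_le_add b4 b3) c5) c6) hη3
  refine (add_le_add d1 d2).trans (le_of_eq ?_)
  unfold BB
  ring

lemma main_le (h : BW b W w) (hc : ∀ x, ‖gs w (-x)‖ = ‖gs w x‖) (hb : 0 < b)
    {a : ℕ → ℂ} (ha : ∀ n, ‖a n‖ ≤ ArithmeticFunction.vonMangoldt n)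
    (S : Finset ℕ) (r : ℕ → ℂ) {K0 y τ H Y : ℝ} {X : ℕ} (hH : 0 < H) (hK0 : 1 ≤ K0)
    (hS : Smo S K0 y) (hy : 0 ≤ y) (hX : 1 ≤ X) (hY : K0 * X ≤ Y) {ℓ η e0 e1 Λ K : ℝ}
    (hℓ : 0 ≤ ℓ) (hη : 0 < η) (he0 : K0 * Real.exp (-(H ^ 2) / (8 * Y ^ 2)) = e0)
    (he1 : (ℓ + 12 * Real.sqrt X) ^ 2 * e0 = e1) (hΛ : 0 < Λ) (hXΛ : Real.log X ≤ 2 * Λ)
    (hK : 0 < K) (hlip : ∀ x y, |Rf x - Rf y| ≤ K * |x - y|) :
    ∫ t, (TC.om τ H t * ‖RP S r t‖ ^ 2) *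
      (2 * ∫ α in (0 : ℝ)..1, Rf α * ‖PD a X w ℓ (Λ * α) t‖ ^ 2) ≤
    Real.sqrt (2 * Real.pi) * H * w1 S r * (2 / Λ * (q2 w * BB X b y ℓ η e0 e1 Λ K)) := by
  obtain ⟨C, hC⟩ := pd_bd h a X ℓ
  have hC0 : 0 ≤ C := (norm_nonneg _).trans (hC 0 0)
  rw [fub (om_R_int hH S r) ((TC.om_cont τ H).mul ((RP_cont S r).norm.pow 2))
    (fun t => mul_nonneg (TC.om_pos τ H t).le (sq_nonneg _))
    (F := fun α t => ‖PD a X w ℓ (Λ * α) t‖ ^ 2) ((pd_cont2 h a X ℓ Λ).norm.pow 2)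
    (fun _ _ => sq_nonneg _) (C := C ^ 2)
    (fun α t => pow_le_pow_left₀ (norm_nonneg _) (hC _ _) 2)]
  set N0 := Real.sqrt (2 * Real.pi) * H * w1 S r with hN0
  have hN00 : 0 ≤ N0 := by
    have := w1_nonneg S r
    positivity
  have he00 : 0 ≤ e0 := by
    rw [← he0]
    have := Real.exp_pos (-(H ^ 2) / (8 * Y ^ 2))
    positivity
  have he10 : 0 ≤ e1 := by
    rw [← he1]
    positivity
  have hcG := Gu_cont h X y ℓ η e0 e1
  have h1 : ∫ α in (0 : ℝ)..1, Rf α * ∫ t, TC.om τ H t * ‖RP S r t‖ ^ 2 *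
      ‖PD a X w ℓ (Λ * α) t‖ ^ 2 ≤
      ∫ α in (0 : ℝ)..1, N0 * (Rf (Λ * α / Λ) * Gu X w y ℓ η e0 e1 (Λ * α)) := by
    rw [intervalIntegral.integral_of_le zero_le_one, intervalIntegral.integral_of_le zero_le_one]
    refine integral_mono_of_nonneg (Eventually.of_forall fun α => mul_nonneg (nt_Rf_nonneg _)
      (integral_nonneg fun t => mul_nonneg (mul_nonneg (TC.om_pos τ H t).le (sq_nonneg _))
        (sq_nonneg _))) ?_ (Eventually.of_forall fun α => ?_)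
    · have hcc : Continuous (fun α : ℝ => N0 * (Rf (Λ * α / Λ) *
          Gu X w y ℓ η e0 e1 (Λ * α))) :=
        continuous_const.mul ((nt_Rf_cont.comp (by fun_prop)).mul (hcG.comp (by fun_prop)))
      exact hcc.integrableOn_Ioc
    · simp only
      rw [mul_div_cancel_left₀ _ hΛ.ne']
      have h2 := one_u h ha S r (τ := τ) hH hK0 hS hy hX hY hℓ hη he0 he1 (Λ * α)
      have h3 := mul_le_mul_of_nonneg_left h2 (nt_Rf_nonneg α)
      have e : ∀ t, TC.om τ H t * ‖RP S r t‖ ^ 2 * ‖PD a X w ℓ (Λ * α) t‖ ^ 2 =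
          TC.om τ H t * (‖RP S r t‖ ^ 2 * ‖PD a X w ℓ (Λ * α) t‖ ^ 2) := fun t => by ring
      simp_rw [e]
      refine h3.trans (le_of_eq ?_)
      rw [hN0]
      ring
  have h4 : ∫ α in (0 : ℝ)..1, N0 * (Rf (Λ * α / Λ) * Gu X w y ℓ η e0 e1 (Λ * α)) =
      N0 * (Λ⁻¹ * Lf Λ (Gu X w y ℓ η e0 e1)) := by
    rw [intervalIntegral.integral_const_mul]
    have h5 := intervalIntegral.integral_comp_mul_left (a := 0) (b := 1)
      (fun u : ℝ => Rf (u / Λ) * Gu X w y ℓ η e0 e1 u) hΛ.ne'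
    rw [h5, mul_zero, mul_one, smul_eq_mul]
    rfl
  rw [h4] at h1
  have h6 := Lf_Gu h hc hb (ℓ := ℓ) (η := η) hy hX hη he00 he10 hΛ hXΛ hK hlip
  have h7 := mul_le_mul_of_nonneg_left h6 (inv_pos.2 hΛ).le
  have h8 := mul_le_mul_of_nonneg_left h7 hN00
  calc _ ≤ 2 * (N0 * (Λ⁻¹ * Lf Λ (Gu X w y ℓ η e0 e1))) :=
        mul_le_mul_of_nonneg_left h1 (by norm_num)
    _ ≤ 2 * (N0 * (Λ⁻¹ * (q2 w * BB X b y ℓ η e0 e1 Λ K))) :=
        mul_le_mul_of_nonneg_left h8 (by norm_num)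
    _ = _ := by
        rw [div_eq_mul_inv]
        ring

end Asm

/-! ## numbers -/

lemma num {η ε R0 J K G3 E3 L Λ b δ e0 e1 lX P : ℝ} (hη : 0 < η) (hη1 : η ≤ 1 / 16) (hε : 0 < ε)
    (hR : 0 ≤ R0) (hJ : 0 ≤ J) (hK : 0 < K) (hG : 0 ≤ G3) (hE : 0 ≤ E3) (hL : 1 ≤ L)
    (hΛ : Λ = (1 - 4 * η) * L) (hb : 0 < b) (hbL : b ≤ η * L) (_he0 : 0 ≤ e0) (he01 : e0 ≤ 1)
    (_he1 : 0 ≤ e1) (he11 : e1 ≤ 1) (hlX0 : 0 ≤ lX) (hlX : lX ≤ L)
    (hηε : 16 * (η * (9 * R0 + K)) ≤ ε) (hδ : 0 < δ)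
    (hδε : 16 * (27648 * (1 + 1 / η) * δ * R0) ≤ ε) (hP : P = 2304 * (δ * L ^ 2) * R0)
    (hbig : 4 * (34 * R0 + 3 / 2 * K * (1 + 17 * G3) + 3 * (1 + 1 / η) * R0 * (10 + E3)) ≤ ε * L) :
    2 / Λ * ((1 + η) * (L ^ 2 * (R0 / 2) + (8 * R0 + (Λ ^ 2 * J + 8 * Λ * R0) +
      (K / Λ * (b + G3)) * (lX ^ 2 / 2 + 8 * (lX + 1))) + e1 * (Λ * R0)) +
      3 * (1 + 1 / η) * (R0 * ((2 * b) ^ 2 / 2 + 8 * (2 * b + 1) + E3) + e1 * (Λ * R0) +
        (1 + e0) * P + (1 + e0) * P)) ≤ L * (R0 + 2 * J + ε) := by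
  have hL0 : 0 < L := by linarith
  have hΛ34 : 3 / 4 * L ≤ Λ := by rw [hΛ]; nlinarith
  have hΛ0 : 0 < Λ := by linarith
  have hΛL : Λ ≤ L := by rw [hΛ]; nlinarith
  have hηΛ : (1 + η) * Λ ≤ L := by
    rw [hΛ]
    nlinarith [mul_pos hη hL0, mul_pos (mul_pos hη hη) hL0]
  have hq : 0 < 1 + 1 / η := by positivity
  have hLL : L ≤ L ^ 2 := by nlinarith
  -- the terms
  have z2 : (1 + η) * (8 * R0 + 8 * Λ * R0) ≤ 32 * R0 * L := by
    have h1 : 8 * R0 + 8 * Λ * R0 ≤ 16 * (R0 * L) := by nlinarith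
    have h2 : 0 ≤ R0 * L := by positivity
    nlinarith
  have z3 : (1 + η) * (Λ ^ 2 * J) ≤ Λ * L * J := by
    have := mul_le_mul_of_nonneg_right hηΛ (mul_nonneg hΛ0.le hJ)
    nlinarith
  have z4 : (1 + η) * ((K / Λ * (b + G3)) * (lX ^ 2 / 2 + 8 * (lX + 1))) ≤
      3 / 4 * K * η * L ^ 2 + 3 / 2 * K * (1 + 17 * G3) * L := by
    have h1 : (b + G3) * (lX ^ 2 / 2 + 8 * (lX + 1)) ≤ (η * L + G3) * (L ^ 2 / 2 + 16 * L) := by
      have h2 : lX ^ 2 ≤ L ^ 2 := pow_le_pow_left₀ hlX0 hlX 2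
      apply mul_le_mul (by linarith) (by linarith) (by positivity) (by positivity)
    have h3 : (η * L + G3) * (L ^ 2 / 2 + 16 * L) ≤ η * L ^ 3 / 2 + (1 + 17 * G3) * L ^ 2 := by
      have h4 : 16 * η * L ^ 2 ≤ L ^ 2 := by nlinarith [sq_nonneg L]
      have h5 : G3 * L ≤ G3 * L ^ 2 := mul_le_mul_of_nonneg_left hLL hG
      have h6 : 0 ≤ G3 * L ^ 2 := by positivity
      nlinarith
    have h7 : (1 + η) * (K / Λ) ≤ 3 / 2 * K / L := by
      rw [mul_div_assoc', div_le_div_iff₀ hΛ0 hL0]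
      nlinarith [mul_pos hK hL0]
    have h8 : 0 ≤ (b + G3) * (lX ^ 2 / 2 + 8 * (lX + 1)) := by positivity
    calc (1 + η) * ((K / Λ * (b + G3)) * (lX ^ 2 / 2 + 8 * (lX + 1))) =
        ((1 + η) * (K / Λ)) * ((b + G3) * (lX ^ 2 / 2 + 8 * (lX + 1))) := by ring
      _ ≤ (3 / 2 * K / L) * ((b + G3) * (lX ^ 2 / 2 + 8 * (lX + 1))) :=
          mul_le_mul_of_nonneg_right h7 h8
      _ ≤ (3 / 2 * K / L) * (η * L ^ 3 / 2 + (1 + 17 * G3) * L ^ 2) :=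
          mul_le_mul_of_nonneg_left (h1.trans h3) (by positivity)
      _ = _ := by
          field_simp
          ring
  have z5 : (1 + η) * (e1 * (Λ * R0)) ≤ 2 * R0 * L := by
    have h1 : e1 * (Λ * R0) ≤ 1 * (L * R0) :=
      mul_le_mul he11 (mul_le_mul_of_nonneg_right hΛL hR) (by positivity) (by norm_num)
    have h2 : 0 ≤ L * R0 := by positivity
    nlinarith
  have z6 : 3 * (1 + 1 / η) * (R0 * ((2 * b) ^ 2 / 2 + 8 * (2 * b + 1) + E3)) ≤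
      6 * (η ^ 2 + η) * R0 * L ^ 2 + 3 * (1 + 1 / η) * R0 * (9 + E3) * L := by
    have h1 : (2 * b) ^ 2 / 2 ≤ 2 * η ^ 2 * L ^ 2 := by
      have := pow_le_pow_left₀ hb.le hbL 2
      nlinarith
    have h2 : 8 * (2 * b + 1) + E3 ≤ (9 + E3) * L := by
      have h3 : 16 * b ≤ L := by nlinarith
      have h4 : E3 ≤ E3 * L := by nlinarith
      nlinarith
    have h5 : (1 + 1 / η) * η ^ 2 = η ^ 2 + η := by
      field_simp
    have h6 : R0 * ((2 * b) ^ 2 / 2 + 8 * (2 * b + 1) + E3) ≤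
        R0 * (2 * η ^ 2 * L ^ 2 + (9 + E3) * L) := mul_le_mul_of_nonneg_left (by linarith) hR
    calc _ ≤ 3 * (1 + 1 / η) * (R0 * (2 * η ^ 2 * L ^ 2 + (9 + E3) * L)) :=
          mul_le_mul_of_nonneg_left h6 (by positivity)
      _ = 6 * ((1 + 1 / η) * η ^ 2) * R0 * L ^ 2 + 3 * (1 + 1 / η) * R0 * (9 + E3) * L := by ring
      _ = _ := by rw [h5]
  have z7 : 3 * (1 + 1 / η) * (e1 * (Λ * R0)) ≤ 3 * (1 + 1 / η) * R0 * L := by
    have h1 : e1 * (Λ * R0) ≤ 1 * (L * R0) :=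
      mul_le_mul he11 (mul_le_mul_of_nonneg_right hΛL hR) (by positivity) (by norm_num)
    calc _ ≤ 3 * (1 + 1 / η) * (1 * (L * R0)) := mul_le_mul_of_nonneg_left h1 (by positivity)
      _ = _ := by ring
  have z8 : 3 * (1 + 1 / η) * ((1 + e0) * P + (1 + e0) * P) ≤ ε / 16 * L ^ 2 := by
    have hP0 : 0 ≤ P := by rw [hP]; positivity
    have h1 : (1 + e0) * P ≤ 2 * P := mul_le_mul_of_nonneg_right (by linarith) hP0
    calc _ ≤ 3 * (1 + 1 / η) * (4 * P) := mul_le_mul_of_nonneg_left (by linarith) (by positivity)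
      _ = (27648 * (1 + 1 / η) * δ * R0) * L ^ 2 := by rw [hP]; ring
      _ ≤ _ := mul_le_mul_of_nonneg_right (by linarith) (sq_nonneg _)
  rw [div_mul_eq_mul_div, div_le_iff₀ hΛ0]
  have hR1 : η * (9 * R0 + K) * L ^ 2 ≤ ε / 16 * L ^ 2 :=
    mul_le_mul_of_nonneg_right (by linarith) (sq_nonneg _)
  have hbig2 : 4 * (34 * R0 + 3 / 2 * K * (1 + 17 * G3) + 3 * (1 + 1 / η) * R0 * (10 + E3)) * L ≤
      ε * L ^ 2 := by
    have := mul_le_mul_of_nonneg_right hbig hL0.le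
    nlinarith
  have h6 : 6 * (η ^ 2 + η) * R0 * L ^ 2 ≤ 6.375 * η * R0 * L ^ 2 := by
    have h7 : 6 * (η ^ 2 + η) ≤ 6.375 * η := by nlinarith
    exact mul_le_mul_of_nonneg_right (mul_le_mul_of_nonneg_right h7 hR) (sq_nonneg _)
  have hε2 : ε * L ^ 2 * η ≤ ε * L ^ 2 * (1 / 16) :=
    mul_le_mul_of_nonneg_left hη1 (by positivity)
  have h9 : 0 ≤ η * R0 * L ^ 2 := by positivity
  have h10 : 0 ≤ η * K * L ^ 2 := by positivity
  have e1' : L * (R0 + 2 * J + ε) * Λ = 2 * (Λ * L * J) + (1 - 4 * η) * L ^ 2 * (R0 + ε) := by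
    rw [hΛ]
    ring
  rw [e1']
  linarith

lemma ev_alg {η δ T L : ℝ} {X : ℕ} (hη : 0 < η) (hη1 : η ≤ 1 / 16) (hδ : 0 < δ) (hδη : δ ≤ η / 2)
    (hT : 1 ≤ T) (hL : L = Real.log T) (h26 : 26 ≤ L) (h4 : L ^ 4 ≤ T ^ η)
    (hX : (X : ℝ) ≤ T) :
    (L + 12 * Real.sqrt X) ^ 2 *
      (T ^ δ * Real.exp (-((T / L) ^ 2) / (8 * (T ^ (1 - η + δ)) ^ 2))) ≤ 1 := by
  have hT0 : 0 < T := by linarith
  have hL0 : 0 < L := by linarith
  have hLT : L ≤ T := by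
    rw [hL]
    exact (Real.log_le_sub_one_of_pos hT0).trans (by linarith)
  have hXs : Real.sqrt X ≤ T := by
    rw [Real.sqrt_le_left hT0.le]
    nlinarith
  have h1 : (L + 12 * Real.sqrt X) ^ 2 ≤ 169 * T ^ 2 := by
    have h0 : 0 ≤ L + 12 * Real.sqrt X := by positivity
    have := pow_le_pow_left₀ h0 (by linarith : L + 12 * Real.sqrt X ≤ 13 * T) 2
    linarith
  have h2 : T ^ δ ≤ T := by
    have := Real.rpow_le_rpow_of_exponent_le hT (by linarith : δ ≤ 1)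
    rwa [Real.rpow_one] at this
  have h3 : 6 + 3 * L ≤ (T / L) ^ 2 / (8 * (T ^ (1 - η + δ)) ^ 2) := by
    have h5 : (T ^ (1 - η + δ)) ^ 2 ≤ T ^ (2 - η) := by
      rw [← Real.rpow_natCast, ← Real.rpow_mul hT0.le]
      apply Real.rpow_le_rpow_of_exponent_le hT
      push_cast
      linarith
    have h6 : T ^ η * T ^ (2 - η) = T ^ 2 := by
      rw [← Real.rpow_add hT0, ← Real.rpow_natCast]
      congr 1
      push_cast
      ring
    have hp : 0 < T ^ (1 - η + δ) := Real.rpow_pos_of_pos hT0 _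
    have hp2 : 0 < T ^ (2 - η) := Real.rpow_pos_of_pos hT0 _
    rw [le_div_iff₀ (by positivity), div_pow, le_div_iff₀ (by positivity)]
    have h7 : (6 + 3 * L) * 8 * L ^ 2 ≤ L ^ 4 := by
      have h8 : (6 + 3 * L) * 8 ≤ L ^ 2 := by nlinarith
      have h9 := mul_le_mul_of_nonneg_right h8 (sq_nonneg L)
      calc (6 + 3 * L) * 8 * L ^ 2 ≤ L ^ 2 * L ^ 2 := h9
        _ = L ^ 4 := by ring
    calc (6 + 3 * L) * (8 * (T ^ (1 - η + δ)) ^ 2) * L ^ 2 =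
        ((6 + 3 * L) * 8 * L ^ 2) * (T ^ (1 - η + δ)) ^ 2 := by ring
      _ ≤ T ^ η * T ^ (2 - η) := mul_le_mul (h7.trans h4) h5 (by positivity) (by positivity)
      _ = T ^ 2 := h6
  have h10 : Real.exp (-((T / L) ^ 2) / (8 * (T ^ (1 - η + δ)) ^ 2)) ≤
      Real.exp (-(6 + 3 * L)) := by
    apply Real.exp_le_exp.2
    rw [neg_div]
    linarith
  have h11 : Real.exp (-(6 + 3 * L)) = Real.exp (-6) * (1 / T ^ 3) := by
    rw [show -(6 + 3 * L) = -6 + -(3 * L) by ring, Real.exp_add]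
    congr 1
    rw [Real.exp_neg, show 3 * L = L + L + L by ring, Real.exp_add, Real.exp_add, hL,
      Real.exp_log hT0]
    field_simp
  have h12 : 169 * Real.exp (-6) ≤ 1 := by
    have h13 : (2.7 : ℝ) ^ 6 ≤ Real.exp 6 := by
      have := Real.exp_one_gt_d9
      have h14 : Real.exp 6 = Real.exp 1 ^ 6 := by
        rw [← Real.exp_nat_mul]
        norm_num
      rw [h14]
      exact pow_le_pow_left₀ (by norm_num) (by linarith) 6
    rw [Real.exp_neg, ← div_eq_mul_inv, div_le_one (Real.exp_pos _)]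
    refine le_trans ?_ h13
    norm_num
  calc _ ≤ (169 * T ^ 2) * (T * (Real.exp (-6) * (1 / T ^ 3))) := by
        rw [← h11]
        exact mul_le_mul h1 (mul_le_mul h2 h10 (Real.exp_pos _).le hT0.le)
          (mul_nonneg (Real.rpow_nonneg hT0.le _) (Real.exp_pos _).le) (by positivity)
    _ = 169 * Real.exp (-6) := by
        field_simp
    _ ≤ 1 := h12

lemma gs_refl (hgs : S_gs) {b : ℝ} {W : ℂ → ℂ} {w : ℝ → ℂ} (hb : 0 < b) (h : BW b W w)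
    (hW : ∀ x : ℝ, (W x).im = 0) (x : ℝ) : ‖gs w (-x)‖ = ‖gs w x‖ := by
  have h1 := hgs b W w hb h (-x)
  have h2 := hgs b W w hb h x
  have h3 : gs w (-x) = conj (gs w x) := by
    rw [h1, h2, map_mul, Complex.conj_ofReal, ← integral_conj]
    congr 1
    congr 1
    funext y
    rw [map_mul, map_mul, Complex.conj_ofReal, Complex.conj_eq_iff_im.2 (hW y),
      ← Complex.exp_conj]
    congr 3
    rw [map_mul, map_mul, Complex.conj_I, Complex.conj_ofReal, Complex.conj_ofReal]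
    push_cast
    ring
  rw [h3, RCLike.norm_conj]

end Msaux

open Msaux in
theorem ms (hgs : S_gs) : S_ms := by
  intro ε hε
  obtain ⟨K, hK, hlip⟩ := nt_Rf_lip
  have hR := nt_Rf_nonneg 0
  set J := ∫ α in (0 : ℝ)..1, α * Rf α with hJ
  have hJ0 : 0 ≤ J := intervalIntegral.integral_nonneg zero_le_one
    (fun α hα => mul_nonneg hα.1 (nt_Rf_nonneg α))
  have hcM : Rf 0 + 2 * J = cMTinv := Rf_const
  refine ⟨min (1 / 16) (ε / (16 * (9 * Rf 0 + K + 1))), by positivity,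
    (min_le_left _ _).trans_lt (by norm_num), fun η hη hη1 => ?_⟩
  have h16 : η ≤ 1 / 16 := hη1.trans (min_le_left _ _)
  have hηε : 16 * (η * (9 * Rf 0 + K)) ≤ ε := by
    have h1 := hη1.trans (min_le_right _ _)
    rw [le_div_iff₀ (by positivity)] at h1
    nlinarith
  set D := 16 * (27648 * (1 + 1 / η) * (Rf 0 + 1)) with hD
  have hD0 : 0 < D := by positivity
  set δ := min (η / 2) (ε / D) with hδ
  have hδ0 : 0 < δ := by positivity
  have hδη : δ ≤ η / 2 := min_le_left _ _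
  have hδε : 16 * (27648 * (1 + 1 / η) * δ * Rf 0) ≤ ε := by
    have h1 : δ ≤ ε / D := min_le_right _ _
    rw [le_div_iff₀ hD0] at h1
    have h2 : 0 ≤ 16 * (27648 * (1 + 1 / η) * δ) := by positivity
    calc 16 * (27648 * (1 + 1 / η) * δ * Rf 0) = 16 * (27648 * (1 + 1 / η) * δ) * Rf 0 := by ring
      _ ≤ 16 * (27648 * (1 + 1 / η) * δ) * (Rf 0 + 1) :=
          mul_le_mul_of_nonneg_left (by linarith) h2
      _ = δ * D := by rw [hD]; ring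
      _ ≤ ε := h1
  set C5 := 34 * Rf 0 + 3 / 2 * K * (1 + 17 * cG) +
    3 * (1 + 1 / η) * Rf 0 * (10 + Real.exp 2 * c3) with hC5
  have ev1 : ∀ᶠ T : ℝ in atTop, 26 ≤ Real.log T := Real.tendsto_log_atTop.eventually_ge_atTop 26
  have ev2 : ∀ᶠ T : ℝ in atTop, 4 * C5 / ε ≤ Real.log T :=
    Real.tendsto_log_atTop.eventually_ge_atTop _
  have ev3 : ∀ᶠ T : ℝ in atTop, (Real.log T) ^ 4 ≤ T ^ η := by
    have h1 := (isLittleO_log_rpow_rpow_atTop (s := η) 4 hη).bound (c := 1) one_pos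
    filter_upwards [h1, eventually_ge_atTop 1] with T hT hT1
    have hl : 0 ≤ Real.log T := Real.log_nonneg hT1
    rw [Real.norm_of_nonneg (by positivity), Real.norm_of_nonneg (by positivity), one_mul] at hT
    calc (Real.log T) ^ 4 = (Real.log T) ^ (4 : ℝ) := by
          rw [← Real.rpow_natCast]
          norm_num
      _ ≤ _ := hT
  obtain ⟨T0, hT0⟩ := eventually_atTop.1 (ev1.and (ev2.and ev3))
  refine ⟨δ, max T0 10, hδ0, le_max_right _ _, fun T hT a ha S hS r b W w hw hb hbL hWr => ?_⟩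
  obtain ⟨h26, hC, h4⟩ := hT0 T ((le_max_left _ _).trans hT)
  have hT10 : 10 ≤ T := (le_max_right _ _).trans hT
  have hT1 : 1 ≤ T := by linarith
  have hTp : 0 < T := by linarith
  set L := Real.log T with hL
  have hL1 : 1 ≤ L := by linarith
  have hL0 : 0 < L := by linarith
  set X := ⌊T ^ (1 - η)⌋₊ with hX
  have hXpos : 1 ≤ X := by
    rw [hX, Nat.one_le_floor_iff]
    exact Real.one_le_rpow hT1 (by linarith)
  have hXle : (X : ℝ) ≤ T ^ (1 - η) := Nat.floor_le (by positivity)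
  have hXT : (X : ℝ) ≤ T := by
    refine hXle.trans ?_
    have := Real.rpow_le_rpow_of_exponent_le hT1 (by linarith : 1 - η ≤ 1)
    rwa [Real.rpow_one] at this
  have hX0 : (0 : ℝ) < X := by exact_mod_cast hXpos
  have hlX : Real.log X ≤ L := Real.log_le_log hX0 hXT
  have hlX0 : 0 ≤ Real.log X := Real.log_nonneg (by exact_mod_cast hXpos)
  have hΛ0 : 0 < (1 - 4 * η) * L := by
    have : 0 < 1 - 4 * η := by linarith
    positivity
  have hH : 0 < T / L := by positivity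
  have hKY : T ^ δ * X ≤ T ^ (1 - η + δ) := by
    rw [show 1 - η + δ = δ + (1 - η) by ring, Real.rpow_add hTp]
    exact mul_le_mul_of_nonneg_left hXle (by positivity)
  have hev := ev_alg hη h16 hδ0 hδη hT1 hL h26 h4 hXT
  have he0 : 0 ≤ T ^ δ * Real.exp (-((T / L) ^ 2) / (8 * (T ^ (1 - η + δ)) ^ 2)) := by positivity
  have hD1 : 1 ≤ (L + 12 * Real.sqrt X) ^ 2 := by
    have : 1 ≤ L + 12 * Real.sqrt X := by
      have := Real.sqrt_nonneg (X : ℝ)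
      linarith
    nlinarith
  have he01 : T ^ δ * Real.exp (-((T / L) ^ 2) / (8 * (T ^ (1 - η + δ)) ^ 2)) ≤ 1 :=
    (le_mul_of_one_le_left he0 hD1).trans hev
  have hy0 : 0 ≤ δ * L ^ 2 := by positivity
  have hmain := main_le hw (gs_refl hgs hb hw hWr) hb ha S r (τ := 3 / 2 * T) hH
    (Real.one_le_rpow hT1 hδ0.le) hS hy0 hXpos hKY hL0.le hη rfl rfl hΛ0
    (by
      have : L ≤ 2 * ((1 - 4 * η) * L) := by nlinarith
      linarith) hK hlip
  have hnum := num (J := J) (K := K) (P := 48 * Real.sqrt (δ * L ^ 2) *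
      (48 * Real.sqrt (δ * L ^ 2) * Rf 0)) hη h16 hε hR hJ0 hK cG_nonneg
    (mul_nonneg (Real.exp_pos 2).le c3_nonneg) hL1 rfl hb hbL he0 he01
    (mul_nonneg (sq_nonneg _) he0) hev hlX0 hlX hηε hδ0 hδε
    (by
      have h5 := Real.mul_self_sqrt hy0
      calc 48 * Real.sqrt (δ * L ^ 2) * (48 * Real.sqrt (δ * L ^ 2) * Rf 0) =
          2304 * (Real.sqrt (δ * L ^ 2) * Real.sqrt (δ * L ^ 2)) * Rf 0 := by ring
        _ = _ := by rw [h5])
    (by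
      rw [← hC5]
      rw [div_le_iff₀ hε] at hC
      linarith)
  have hN0 : 0 ≤ nr T S r := by
    unfold nr
    have := w1_nonneg S r
    positivity
  have hq := q2_nonneg w
  have hfin := mul_le_mul_of_nonneg_left (mul_le_mul_of_nonneg_left hnum hq) hN0
  rw [← hcM]
  calc _ ≤ _ := hmain
    _ = nr T S r * (q2 w * (2 / ((1 - 4 * η) * L) * BB X b (δ * L ^ 2) L η
        (T ^ δ * Real.exp (-((T / L) ^ 2) / (8 * (T ^ (1 - η + δ)) ^ 2)))
        ((L + 12 * Real.sqrt X) ^ 2 *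
          (T ^ δ * Real.exp (-((T / L) ^ 2) / (8 * (T ^ (1 - η + δ)) ^ 2))))
        ((1 - 4 * η) * L) K)) := by
        unfold nr
        ring
    _ ≤ _ := hfin
    _ = _ := by ring

end Pool.Agent.N802.U
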