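import Pool.Agent.N802.U.Stm2
import Pool.Agent.N802.U.Ms
import Pool.Agent.N802.Num

/-!
# Chebyshev bounds for the smoothed density
-/

open Complex Filter Topology Set MeasureTheory
open scoped BigOperators ComplexConjugate

namespace Pool.Agent.N802.U

namespace Chaux

lemma summable_exp_abs : Summable (fun k : ℤ => Real.exp (-|(k : ℝ)|)) := by
  rw [summable_int_iff_summable_nat_and_neg]
  have h : Summable (fun n : ℕ => Real.exp (-(n : ℝ))) := Real.summable_exp_neg_nat
  constructor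
  · refine h.congr fun n => ?_
    simp
  · refine h.congr fun n => ?_
    simp

lemma exp_floor_le (x : ℝ) : Real.exp (-x ^ 2 / 2) ≤ Real.exp (3 / 2) *
    Real.exp (-|((⌊x⌋ : ℤ) : ℝ)|) := by
  rw [← Real.exp_add]
  apply Real.exp_le_exp.mpr
  have h1 := Int.floor_le x
  have h2 := Int.lt_floor_add_one x
  have h3 : |((⌊x⌋ : ℤ) : ℝ)| ≤ |x| + 1 := by
    rw [abs_le]
    constructor
    · have := neg_abs_le x; linarith
    · have := le_abs_self x; linarith
  have h4 : |x| ≤ x ^ 2 / 2 + 1 / 2 := by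
    have : x ^ 2 = |x| ^ 2 := (sq_abs x).symm
    rw [this]; nlinarith [sq_nonneg (|x| - 1)]
  linarith

/-- the constant of the first Chebyshev bound -/
noncomputable def cA : ℝ := Real.exp (3 / 2) * (6 * Real.exp 1 * ∑' k : ℤ, Real.exp (-|(k : ℝ)|))

lemma cA_nonneg : 0 ≤ cA := by
  unfold cA
  have : 0 ≤ ∑' k : ℤ, Real.exp (-|(k : ℝ)|) := tsum_nonneg fun k => (Real.exp_pos _).le
  positivity

/-- one unit interval -/
lemma fib (X : ℕ) (u : ℝ) (k : ℤ) :
    ∑ n ∈ (Finset.Icc 1 X).filter (fun n : ℕ => ⌊Real.log (n : ℝ) - u⌋ = k),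
      ArithmeticFunction.vonMangoldt n / n ≤ 6 * Real.exp 1 := by
  have h1 : ∀ n ∈ (Finset.Icc 1 X).filter (fun n : ℕ => ⌊Real.log (n : ℝ) - u⌋ = k),
      ArithmeticFunction.vonMangoldt n / n ≤
        ArithmeticFunction.vonMangoldt n * Real.exp (-(u + k)) := by
    intro n hn
    rw [Finset.mem_filter, Finset.mem_Icc] at hn
    have hn0 : (0 : ℝ) < n := by exact_mod_cast hn.1.1
    have h2 := Int.floor_le (Real.log (n : ℝ) - u)
    rw [hn.2] at h2
    have h3 : Real.exp (u + k) ≤ n := by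
      rw [← Real.le_log_iff_exp_le hn0]
      linarith
    rw [div_eq_mul_inv, Real.exp_neg]
    exact mul_le_mul_of_nonneg_left (inv_anti₀ (Real.exp_pos _) h3)
      ArithmeticFunction.vonMangoldt_nonneg
  refine (Finset.sum_le_sum h1).trans ?_
  rw [← Finset.sum_mul]
  have h4 : ∑ n ∈ (Finset.Icc 1 X).filter (fun n : ℕ => ⌊Real.log (n : ℝ) - u⌋ = k),
      ArithmeticFunction.vonMangoldt n ≤
      ∑ n ∈ Finset.Icc 1 ⌊Real.exp (u + k + 1)⌋₊, ArithmeticFunction.vonMangoldt n := by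
    apply Finset.sum_le_sum_of_subset_of_nonneg
    · intro n hn
      rw [Finset.mem_filter, Finset.mem_Icc] at hn
      have hn0 : (0 : ℝ) < n := by exact_mod_cast hn.1.1
      rw [Finset.mem_Icc]
      refine ⟨hn.1.1, Nat.le_floor ?_⟩
      have h2 := Int.lt_floor_add_one (Real.log (n : ℝ) - u)
      rw [hn.2] at h2
      rw [← Real.log_le_iff_le_exp hn0]
      linarith
    · intro n _ _
      exact ArithmeticFunction.vonMangoldt_nonneg
  have h5 := psi_le6 ⌊Real.exp (u + k + 1)⌋₊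
  have h6 : (⌊Real.exp (u + k + 1)⌋₊ : ℝ) ≤ Real.exp (u + k + 1) :=
    Nat.floor_le (Real.exp_pos _).le
  have h7 : ∑ n ∈ (Finset.Icc 1 X).filter (fun n : ℕ => ⌊Real.log (n : ℝ) - u⌋ = k),
      ArithmeticFunction.vonMangoldt n ≤ 6 * Real.exp (u + k + 1) := by linarith
  calc _ ≤ 6 * Real.exp (u + k + 1) * Real.exp (-(u + k)) :=
        mul_le_mul_of_nonneg_right h7 (Real.exp_pos _).le
    _ = 6 * Real.exp 1 := by
        rw [mul_assoc, ← Real.exp_add]
        congr 2
        ring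

/-- the smoothed Chebyshev bound -/
lemma cheb0 (X : ℕ) (u : ℝ) :
    ∑ n ∈ Finset.Icc 1 X, ArithmeticFunction.vonMangoldt n / n *
      Real.exp (-(u - Real.log n) ^ 2 / 2) ≤ cA := by
  classical
  set K : ℕ → ℤ := fun n => ⌊Real.log (n : ℝ) - u⌋ with hK
  have h1 : ∀ n ∈ Finset.Icc 1 X, ArithmeticFunction.vonMangoldt n / n *
      Real.exp (-(u - Real.log n) ^ 2 / 2) ≤ Real.exp (3 / 2) *
        (ArithmeticFunction.vonMangoldt n / n * Real.exp (-|(K n : ℝ)|)) := by
    intro n _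
    have h2 := exp_floor_le (Real.log (n : ℝ) - u)
    have e : -(u - Real.log n) ^ 2 / 2 = -(Real.log (n : ℝ) - u) ^ 2 / 2 := by ring
    rw [e]
    have h3 : 0 ≤ ArithmeticFunction.vonMangoldt n / n :=
      div_nonneg ArithmeticFunction.vonMangoldt_nonneg (Nat.cast_nonneg n)
    calc _ ≤ ArithmeticFunction.vonMangoldt n / n * (Real.exp (3 / 2) *
          Real.exp (-|((⌊Real.log (n : ℝ) - u⌋ : ℤ) : ℝ)|)) := mul_le_mul_of_nonneg_left h2 h3
      _ = _ := by ring
  refine (Finset.sum_le_sum h1).trans ?_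
  rw [← Finset.mul_sum]
  unfold cA
  refine mul_le_mul_of_nonneg_left ?_ (Real.exp_pos _).le
  rw [← Finset.sum_fiberwise_of_maps_to (g := K) (t := (Finset.Icc 1 X).image K)
    (fun n hn => Finset.mem_image_of_mem K hn)]
  have h2 : ∀ k ∈ (Finset.Icc 1 X).image K,
      ∑ n ∈ (Finset.Icc 1 X).filter (fun n => K n = k),
        ArithmeticFunction.vonMangoldt n / n * Real.exp (-|(K n : ℝ)|) ≤
      6 * Real.exp 1 * Real.exp (-|(k : ℝ)|) := by
    intro k _
    have h3 : ∑ n ∈ (Finset.Icc 1 X).filter (fun n => K n = k),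
        ArithmeticFunction.vonMangoldt n / n * Real.exp (-|(K n : ℝ)|) =
        (∑ n ∈ (Finset.Icc 1 X).filter (fun n => K n = k),
        ArithmeticFunction.vonMangoldt n / n) * Real.exp (-|(k : ℝ)|) := by
      rw [Finset.sum_mul]
      refine Finset.sum_congr rfl fun n hn => ?_
      rw [(Finset.mem_filter.mp hn).2]
    rw [h3]
    exact mul_le_mul_of_nonneg_right (fib X u k) (Real.exp_pos _).le
  refine (Finset.sum_le_sum h2).trans ?_
  rw [← Finset.mul_sum]
  refine mul_le_mul_of_nonneg_left ?_ (by positivity)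
  exact summable_exp_abs.sum_le_tsum _ (fun k _ => (Real.exp_pos _).le)

/-- the constant for the cubes and higher powers -/
noncomputable def cB : ℝ := ∑' n : ℕ, 16 * (1 / (n : ℝ) ^ (5 / 4 : ℝ))

lemma cB_sum : Summable (fun n : ℕ => 16 * (1 / (n : ℝ) ^ (5 / 4 : ℝ))) :=
  (Real.summable_one_div_nat_rpow.mpr (by norm_num)).mul_left _

lemma cB_nonneg : 0 ≤ cB := tsum_nonneg fun n => by positivity

lemma log_cube {n : ℕ} (hn : 1 ≤ n) : 4 * (Real.log n * (1 / Real.sqrt n) ^ 3) ≤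
    16 * (1 / (n : ℝ) ^ (5 / 4 : ℝ)) := by
  have hn0 : (0 : ℝ) < n := by exact_mod_cast hn
  have h1 := Real.log_le_rpow_div hn0.le (ε := 1 / 4) (by norm_num)
  have e1 : (1 / Real.sqrt (n : ℝ)) ^ 3 = (n : ℝ) ^ (-(3 / 2) : ℝ) := by
    rw [Real.sqrt_eq_rpow, one_div, ← Real.rpow_neg hn0.le, ← Real.rpow_natCast,
      ← Real.rpow_mul hn0.le]
    congr 1
    norm_num
  have e2 : 1 / (n : ℝ) ^ (5 / 4 : ℝ) = (n : ℝ) ^ (1 / 4 : ℝ) * (n : ℝ) ^ (-(3 / 2) : ℝ) := by
    rw [one_div, ← Real.rpow_neg hn0.le, ← Real.rpow_add hn0]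
    congr 1
    norm_num
  rw [e1, e2]
  have h2 : 0 < (n : ℝ) ^ (-(3 / 2) : ℝ) := Real.rpow_pos_of_pos hn0 _
  have h3 : Real.log n ≤ 4 * (n : ℝ) ^ (1 / 4 : ℝ) := by
    refine h1.trans (le_of_eq ?_)
    ring
  nlinarith

/-- squares and higher powers of primes -/
lemma cheb1 (X : ℕ) (u : ℝ) :
    ∑ n ∈ (Finset.Icc 1 X).filter (fun n => ¬ n.Prime), TC.lam n *
      Real.exp (-(u - Real.log n) ^ 2 / 2) ≤ cA + cB := by
  classical
  set f : ℕ → ℝ := fun n => if n.Prime then 0 else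
    TC.lam n * Real.exp (-(u - Real.log n) ^ 2 / 2) with hf
  have hf0 : ∀ n, 0 ≤ f n := by
    intro n
    simp only [hf]
    split_ifs
    · exact le_rfl
    · exact mul_nonneg (TC.lam_nonneg n) (Real.exp_pos _).le
  have e1 : ∑ n ∈ (Finset.Icc 1 X).filter (fun n => ¬ n.Prime), TC.lam n *
      Real.exp (-(u - Real.log n) ^ 2 / 2) = ∑ n ∈ Finset.Icc 1 X, f n := by
    rw [Finset.sum_filter]
    refine Finset.sum_congr rfl fun n _ => ?_
    simp only [hf]
    split_ifs <;> rfl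
  have e2 : ∑ n ∈ Finset.Icc 1 X, f n ≤
      ∑ n ∈ Finset.Ioc 0 ⌊(X : ℝ)⌋₊ with IsPrimePow n, f n := by
    rw [Nat.floor_natCast, Finset.sum_filter]
    have h3 : ∀ n ∈ Finset.Icc 1 X, f n ≤ (if IsPrimePow n then f n else 0) := by
      intro n _
      split_ifs with h
      · exact le_rfl
      · simp only [hf]
        split_ifs
        · exact le_rfl
        · unfold TC.lam
          rw [ArithmeticFunction.vonMangoldt_eq_zero_iff.mpr h]
          simp
    refine (Finset.sum_le_sum h3).trans ?_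
    apply Finset.sum_le_sum_of_subset_of_nonneg
    · intro n hn
      rw [Finset.mem_Icc] at hn
      rw [Finset.mem_Ioc]
      omega
    · intro n _ _
      split_ifs
      · exact hf0 n
      · exact le_rfl
  rw [e1]
  refine e2.trans ?_
  rw [Chebyshev.sum_PrimePow_eq_sum_sum f (Nat.cast_nonneg X)]
  set K := ⌊Real.log (X : ℝ) / Real.log 2⌋₊ with hK
  have hmem : ∀ k ∈ Finset.Icc 1 K, ∀ p ∈
      (Finset.Ioc 0 ⌊(X : ℝ) ^ (1 / (k : ℝ))⌋₊).filter Nat.Prime,
      p ∈ (Finset.Icc 1 X).filter Nat.Prime := by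
    intro k hk p hp
    rw [Finset.mem_Icc] at hk
    rw [Finset.mem_filter, Finset.mem_Ioc] at hp
    rw [Finset.mem_filter, Finset.mem_Icc]
    refine ⟨⟨hp.1.1, ?_⟩, hp.2⟩
    have h1 : (p : ℝ) ≤ (X : ℝ) ^ (1 / (k : ℝ)) :=
      (Nat.le_floor_iff (by positivity)).mp hp.1.2
    rcases Nat.eq_zero_or_pos X with h0 | h0
    · subst h0
      have hk0 : (1 / (k : ℝ)) ≠ 0 := by
        have : (0 : ℝ) < k := by exact_mod_cast hk.1
        positivity
      rw [Nat.cast_zero, Real.zero_rpow hk0] at h1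
      exact_mod_cast h1
    · have h2 : (X : ℝ) ^ (1 / (k : ℝ)) ≤ (X : ℝ) ^ (1 : ℝ) := by
        apply Real.rpow_le_rpow_of_exponent_le (by exact_mod_cast h0)
        rw [div_le_one (by exact_mod_cast hk.1)]
        exact_mod_cast hk.1
      rw [Real.rpow_one] at h2
      exact_mod_cast h1.trans h2
  have h4 : ∀ k ∈ Finset.Icc 1 K,
      ∑ p ∈ Finset.Ioc 0 ⌊(X : ℝ) ^ (1 / (k : ℝ))⌋₊ with p.Prime, f (p ^ k) ≤
      ∑ p ∈ (Finset.Icc 1 X).filter Nat.Prime, f (p ^ k) := by
    intro k hk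
    apply Finset.sum_le_sum_of_subset_of_nonneg (hmem k hk)
    intro p _ _
    exact hf0 _
  refine (Finset.sum_le_sum h4).trans ?_
  rw [Finset.sum_comm]
  have h7 : ∀ p ∈ (Finset.Icc 1 X).filter Nat.Prime,
      ∑ k ∈ Finset.Icc 1 K, f (p ^ k) ≤
        ArithmeticFunction.vonMangoldt p / p * Real.exp (-(u / 2 - Real.log p) ^ 2 / 2) +
          16 * (1 / (p : ℝ) ^ (5 / 4 : ℝ)) := by
    intro p hp
    rw [Finset.mem_filter, Finset.mem_Icc] at hp
    have hpp := hp.2
    have hp2 : (2 : ℝ) ≤ p := by exact_mod_cast hp.2.two_le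
    have hp0 : (0 : ℝ) < p := by linarith
    have h8 : 0 ≤ Real.log (p : ℝ) := Real.log_natCast_nonneg p
    set x := 1 / Real.sqrt (p : ℝ) with hx
    have hx0 : 0 ≤ x := by positivity
    have hx2 : x ^ 2 = 1 / p := by
      rw [hx, div_pow, Real.sq_sqrt hp0.le, one_pow]
    have h9 : x ≤ 3 / 4 := by
      have h10 : (4 : ℝ) / 3 ≤ Real.sqrt p := by
        apply Real.le_sqrt_of_sq_le
        norm_num
        linarith
      rw [hx, div_le_div_iff₀ (by linarith) (by norm_num)]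
      linarith
    -- each term
    have ht : ∀ k ∈ Finset.Icc 1 K, f (p ^ k) ≤
        (if k = 2 then ArithmeticFunction.vonMangoldt p / p *
          Real.exp (-(u / 2 - Real.log p) ^ 2 / 2) else 0) +
        (if 3 ≤ k then Real.log p * x ^ k else 0) := by
      intro k hk
      rw [Finset.mem_Icc] at hk
      rcases (by omega : k = 1 ∨ k = 2 ∨ 3 ≤ k) with h | h | h
      · subst h
        simp [hf, hpp]
      · subst h
        have hnp : ¬ (p ^ 2).Prime := Nat.Prime.not_prime_pow (le_refl 2)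
        simp only [hf, hnp, if_false, if_true]
        rw [lam_prime_pow hpp (by norm_num), ArithmeticFunction.vonMangoldt_apply_prime hpp,
          ← hx, hx2, mul_one_div, if_neg (by norm_num), add_zero]
        refine mul_le_mul_of_nonneg_left ?_ (by positivity)
        apply Real.exp_le_exp.mpr
        rw [Nat.cast_pow, Real.log_pow]
        push_cast
        nlinarith [sq_nonneg (u / 2 - Real.log p)]
      · have hnp : ¬ (p ^ k).Prime := Nat.Prime.not_prime_pow (by omega)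
        simp only [hf, hnp, if_false]
        rw [lam_prime_pow hpp hk.1, ← hx, if_neg (by omega), if_pos h, zero_add]
        have h11 : Real.exp (-(u - Real.log ((p ^ k : ℕ) : ℝ)) ^ 2 / 2) ≤ 1 := by
          rw [Real.exp_le_one_iff]
          nlinarith [sq_nonneg (u - Real.log ((p ^ k : ℕ) : ℝ))]
        exact mul_le_of_le_one_right (by positivity) h11
    refine (Finset.sum_le_sum ht).trans ?_
    rw [Finset.sum_add_distrib]
    apply add_le_add
    · rw [Finset.sum_ite_eq']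
      split_ifs
      · exact le_rfl
      · have := ArithmeticFunction.vonMangoldt_nonneg (n := p)
        positivity
    · refine le_trans ?_ (log_cube hp.1.1)
      have h12 : ∑ k ∈ Finset.Icc 1 K, (if 3 ≤ k then Real.log (p : ℝ) * x ^ k else 0) ≤
          Real.log p * x ^ 2 * ∑ j ∈ Finset.Icc 1 K, x ^ j := by
        rw [← Finset.sum_filter, Finset.mul_sum]
        have h13 : ∑ k ∈ (Finset.Icc 1 K).filter (fun k => 3 ≤ k), Real.log (p : ℝ) * x ^ k =
            ∑ k ∈ (Finset.Icc 1 K).filter (fun k => 3 ≤ k),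
              Real.log (p : ℝ) * x ^ 2 * x ^ (k - 2) := by
          refine Finset.sum_congr rfl fun k hk => ?_
          rw [Finset.mem_filter] at hk
          rw [mul_assoc, ← pow_add]
          congr 2
          omega
        rw [h13, ← Finset.sum_image (f := fun j => Real.log (p : ℝ) * x ^ 2 * x ^ j)
          (s := (Finset.Icc 1 K).filter (fun k => 3 ≤ k)) (g := fun k => k - 2)]
        · apply Finset.sum_le_sum_of_subset_of_nonneg
          · intro j hj
            rw [Finset.mem_image] at hj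
            obtain ⟨k, hk, rfl⟩ := hj
            rw [Finset.mem_filter, Finset.mem_Icc] at hk
            rw [Finset.mem_Icc]
            omega
          · intro j _ _
            positivity
        · intro a ha b hb hab
          simp only [Finset.coe_filter, Set.mem_ofPred_eq] at ha hb
          simp only at hab
          omega
      refine h12.trans ?_
      have h14 := geo_le hx0 h9 K
      calc _ ≤ Real.log p * x ^ 2 * (4 * x) := mul_le_mul_of_nonneg_left h14 (by positivity)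
        _ = 4 * (Real.log p * x ^ 3) := by ring
  refine (Finset.sum_le_sum h7).trans ?_
  rw [Finset.sum_add_distrib]
  apply add_le_add
  · refine le_trans ?_ (cheb0 X (u / 2))
    apply Finset.sum_le_sum_of_subset_of_nonneg (Finset.filter_subset _ _)
    intro n _ _
    exact mul_nonneg (div_nonneg ArithmeticFunction.vonMangoldt_nonneg (Nat.cast_nonneg n))
      (Real.exp_pos _).le
  · unfold cB
    exact cB_sum.sum_le_tsum _ (fun k _ => by positivity)

end Chaux


namespace Chaux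

open Msaux

section G

variable {b : ℝ} {W : ℂ → ℂ} {w : ℝ → ℂ}

lemma gs_le1 (x : ℝ) :
    ‖gs w x‖ ≤ 1 / Real.sqrt (2 * Real.pi) * ∫ v : ℝ, ‖w v‖ * Real.exp (-(x + v) ^ 2 / 2) := by
  unfold gs
  rw [norm_mul, Complex.norm_real, Real.norm_of_nonneg (by positivity)]
  refine mul_le_mul_of_nonneg_left ?_ (by positivity)
  refine (norm_integral_le_integral_norm _).trans (le_of_eq ?_)
  congr 1
  funext v
  rw [norm_mul, Complex.norm_real, Real.norm_of_nonneg (Real.exp_pos _).le]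

lemma gs_le1' (_h : BW b W w) (x : ℝ) :
    ‖gs w x‖ ≤ ∫ v : ℝ, ‖w v‖ * Real.exp (-(x + v) ^ 2 / 2) := by
  refine (gs_le1 x).trans (mul_le_of_le_one_left ?_ ?_)
  · exact integral_nonneg fun v => by positivity
  · rw [div_le_one sp_pos]
    exact sp_ge

lemma gs_sq' (h : BW b W w) (x : ℝ) :
    ‖gs w x‖ ^ 2 ≤ ∫ v : ℝ, ‖w v‖ ^ 2 * Real.exp (-(x + v) ^ 2 / 2) := by
  refine (gs_sq h x).trans (mul_le_of_le_one_left ?_ ?_)
  · exact integral_nonneg fun v => by positivity
  · rw [div_le_one sp_pos]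
    exact sp_ge

/-- averaging a finite sum -/
lemma avgS (S : Finset ℕ) (c x F : ℕ → ℝ) (g : ℝ → ℝ) (M : ℝ) (hc : ∀ n ∈ S, 0 ≤ c n)
    (hg : Integrable g) (hg0 : ∀ v, 0 ≤ g v)
    (hgi : ∀ y : ℝ, Integrable (fun v : ℝ => g v * Real.exp (-(y + v) ^ 2 / 2)))
    (hM : ∀ v, ∑ n ∈ S, c n * Real.exp (-(x n + v) ^ 2 / 2) ≤ M)
    (hF : ∀ n ∈ S, F n ≤ ∫ v : ℝ, g v * Real.exp (-(x n + v) ^ 2 / 2)) :
    ∑ n ∈ S, c n * F n ≤ M * ∫ v : ℝ, g v := by
  calc ∑ n ∈ S, c n * F n ≤
        ∑ n ∈ S, c n * ∫ v : ℝ, g v * Real.exp (-(x n + v) ^ 2 / 2) :=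
        Finset.sum_le_sum fun n hn => mul_le_mul_of_nonneg_left (hF n hn) (hc n hn)
    _ = ∫ v : ℝ, ∑ n ∈ S, c n * (g v * Real.exp (-(x n + v) ^ 2 / 2)) := by
        rw [integral_finsetSum _ fun n _ => (hgi (x n)).const_mul (c n)]
        refine Finset.sum_congr rfl fun n _ => ?_
        rw [integral_const_mul]
    _ ≤ ∫ v : ℝ, M * g v := by
        refine integral_mono (integrable_finsetSum _ fun n _ => (hgi (x n)).const_mul (c n))
          (hg.const_mul M) fun v => ?_
        have e : ∑ n ∈ S, c n * (g v * Real.exp (-(x n + v) ^ 2 / 2)) =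
            (∑ n ∈ S, c n * Real.exp (-(x n + v) ^ 2 / 2)) * g v := by
          rw [Finset.sum_mul]
          exact Finset.sum_congr rfl fun n _ => by ring
        simp only
        rw [e]
        exact mul_le_mul_of_nonneg_right (hM v) (hg0 v)
    _ = M * ∫ v : ℝ, g v := integral_const_mul _ _

/-- `L¹` against `L²` -/
lemma l1_le (h : BW b W w) (hb : 0 < b) : ∫ v : ℝ, ‖w v‖ ≤ 2 * Real.sqrt (b * q2 w) := by
  set m := ∫ v : ℝ, ‖w v‖ with hm
  have hm0 : 0 ≤ m := integral_nonneg fun v => norm_nonneg _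
  have hz : ∀ v, v ∉ Set.Icc (-b) b → w v = 0 := by
    intro v hv
    apply h.sup
    by_contra hc
    rw [not_lt, abs_le] at hc
    exact hv ⟨hc.1, hc.2⟩
  have e1 : ∫ v in Set.Icc (-b) b, ‖w v‖ = m :=
    setIntegral_eq_integral_of_forall_compl_eq_zero fun v hv => by rw [hz v hv, norm_zero]
  have e2 : ∫ v in Set.Icc (-b) b, ‖w v‖ ^ 2 = q2 w :=
    setIntegral_eq_integral_of_forall_compl_eq_zero fun v hv => by rw [hz v hv, norm_zero]; norm_num
  have h0 : 0 ≤ ∫ v in Set.Icc (-b) b, (‖w v‖ - m / (2 * b)) ^ 2 :=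
    integral_nonneg fun v => sq_nonneg _
  have h1 : ∫ v in Set.Icc (-b) b, (‖w v‖ - m / (2 * b)) ^ 2 =
      q2 w - 2 * (m / (2 * b)) * m + (m / (2 * b)) ^ 2 * (2 * b) := by
    have e : ∀ v : ℝ, (‖w v‖ - m / (2 * b)) ^ 2 =
        ‖w v‖ ^ 2 - 2 * (m / (2 * b)) * ‖w v‖ + (m / (2 * b)) ^ 2 := fun v => by ring
    simp_rw [e]
    have j0 : IntegrableOn (fun v : ℝ => ‖w v‖ ^ 2) (Set.Icc (-b) b) := (sq_int h).integrableOn
    have j1 : IntegrableOn (fun v : ℝ => 2 * (m / (2 * b)) * ‖w v‖) (Set.Icc (-b) b) :=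
      ((w_int h).norm.const_mul _).integrableOn
    have j2 : IntegrableOn (fun _ : ℝ => (m / (2 * b)) ^ 2) (Set.Icc (-b) b) :=
      integrableOn_const (by simp)
    have j3 : IntegrableOn (fun v : ℝ => ‖w v‖ ^ 2 - 2 * (m / (2 * b)) * ‖w v‖)
        (Set.Icc (-b) b) := j0.sub j1
    rw [integral_add j3 j2, integral_sub j0 j1, integral_const_mul, e1, e2,
      setIntegral_const]
    simp only [measureReal_def, Real.volume_Icc, smul_eq_mul]
    rw [ENNReal.toReal_ofReal (by linarith)]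
    ring
  rw [h1] at h0
  have h2 : q2 w - 2 * (m / (2 * b)) * m + (m / (2 * b)) ^ 2 * (2 * b) =
      q2 w - m ^ 2 / (2 * b) := by
    field_simp
    ring
  rw [h2] at h0
  have h3 : m ^ 2 / (2 * b) ≤ q2 w := by linarith
  rw [div_le_iff₀ (by linarith)] at h3
  have h4 : m ^ 2 ≤ 4 * (b * q2 w) := by
    have := mul_nonneg hb.le (q2_nonneg w)
    nlinarith
  have h5 : m ≤ Real.sqrt (4 * (b * q2 w)) := Real.le_sqrt_of_sq_le h4
  have h6 : Real.sqrt (4 * (b * q2 w)) = 2 * Real.sqrt (b * q2 w) := by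
    rw [Real.sqrt_mul (by norm_num), show (4 : ℝ) = 2 ^ 2 by norm_num,
      Real.sqrt_sq (by norm_num)]
  linarith

lemma prod_int (h : BW b W w) : Integrable (fun z : ℝ × ℝ =>
    ‖w z.2‖ * Real.exp (-(z.1 + z.2) ^ 2 / 2)) (volume.prod volume) := by
  have hms : AEStronglyMeasurable (fun z : ℝ × ℝ =>
      ‖w z.2‖ * Real.exp (-(z.1 + z.2) ^ 2 / 2)) (volume.prod volume) := by
    refine Measurable.aestronglyMeasurable ?_
    exact (h.meas.comp measurable_snd).norm.mul (by fun_prop)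
  rw [integrable_prod_iff' hms]
  constructor
  · refine Eventually.of_forall fun v => ?_
    have h1 := (gau_int v).const_mul (‖w v‖)
    refine h1.congr (Eventually.of_forall fun x => ?_)
    simp only
    rw [add_comm v x]
  · have e : (fun v : ℝ => ∫ x : ℝ, ‖‖w v‖ * Real.exp (-(x + v) ^ 2 / 2)‖) =
        fun v : ℝ => ‖w v‖ * Real.sqrt (2 * Real.pi) := by
      funext v
      rw [← gau_val v, ← integral_const_mul]
      congr 1
      funext x
      rw [Real.norm_of_nonneg (by positivity), add_comm x v]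
    simp only
    rw [e]
    exact (w_int h).norm.mul_const _

lemma gs_l1 (h : BW b W w) : Integrable (fun x : ℝ => ‖gs w x‖) ∧
    ∫ x : ℝ, ‖gs w x‖ ≤ ∫ v : ℝ, ‖w v‖ := by
  have hp := prod_int h
  have h1 : Integrable (fun x : ℝ => ∫ v : ℝ, ‖w v‖ * Real.exp (-(x + v) ^ 2 / 2)) :=
    hp.integral_prod_left
  have hi : Integrable (fun x : ℝ => ‖gs w x‖) := by
    refine h1.mono' (gs_cont h).norm.aestronglyMeasurable (Eventually.of_forall fun x => ?_)
    rw [norm_norm]
    exact gs_le1' h x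
  refine ⟨hi, ?_⟩
  have h2 : ∫ x : ℝ, ‖gs w x‖ ≤ ∫ x : ℝ, 1 / Real.sqrt (2 * Real.pi) *
      ∫ v : ℝ, ‖w v‖ * Real.exp (-(x + v) ^ 2 / 2) :=
    integral_mono hi (h1.const_mul _) fun x => gs_le1 x
  refine h2.trans (le_of_eq ?_)
  rw [integral_const_mul]
  have h3 : ∫ x : ℝ, ∫ v : ℝ, ‖w v‖ * Real.exp (-(x + v) ^ 2 / 2) =
      ∫ v : ℝ, ∫ x : ℝ, ‖w v‖ * Real.exp (-(x + v) ^ 2 / 2) :=
    integral_integral_swap (f := fun x v : ℝ => ‖w v‖ * Real.exp (-(x + v) ^ 2 / 2)) hp
  rw [h3]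
  have e : (fun v : ℝ => ∫ x : ℝ, ‖w v‖ * Real.exp (-(x + v) ^ 2 / 2)) =
      fun v : ℝ => ‖w v‖ * Real.sqrt (2 * Real.pi) := by
    funext v
    rw [← gau_val v, ← integral_const_mul]
    congr 1
    funext x
    rw [add_comm x v]
  rw [e, integral_mul_const]
  have := sp_pos
  field_simp

/-- the sums over `n`, all at once -/
lemma expo {u : ℝ} {x : ℕ → ℝ}
    (hx : (∀ n, x n = u - Real.log n) ∨ (∀ n, x n = u + Real.log n)) (v : ℝ) :
    ∃ u' : ℝ, ∀ n : ℕ, Real.exp (-(x n + v) ^ 2 / 2) =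
      Real.exp (-(u' - Real.log n) ^ 2 / 2) := by
  rcases hx with hx | hx
  · refine ⟨u + v, fun n => ?_⟩
    rw [hx n]
    congr 2
    ring
  · refine ⟨-(u + v), fun n => ?_⟩
    rw [hx n]
    congr 2
    ring

end G

end Chaux

open Chaux Msaux in
/-- Chebyshev bounds for the smoothed density -/
theorem ch : S_ch := by
  refine ⟨2 + 2 * (cA + (cA + cB)), ?_, fun b W w hb h => ?_⟩
  · have := cA_nonneg
    have := cB_nonneg
    linarith
  have hA := cA_nonneg
  have hB := cB_nonneg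
  have hl1 := l1_le h hb
  have hs0 : 0 ≤ Real.sqrt (b * q2 w) := Real.sqrt_nonneg _
  have hm0 : 0 ≤ ∫ v : ℝ, ‖w v‖ := integral_nonneg fun v => norm_nonneg _
  have hq0 := q2_nonneg w
  obtain ⟨hi, hi1⟩ := gs_l1 h
  refine ⟨hi, ?_, fun X u x hx => ⟨?_, ?_, ?_⟩⟩
  · refine hi1.trans (hl1.trans ?_)
    apply mul_le_mul_of_nonneg_right _ hs0
    linarith
  · have h1 := avgS (Finset.Icc 1 X) (fun n => ArithmeticFunction.vonMangoldt n / n) x
      (fun n => ‖gs w (x n)‖) (fun v => ‖w v‖) cA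
      (fun n _ => div_nonneg ArithmeticFunction.vonMangoldt_nonneg (Nat.cast_nonneg n))
      (w_int h).norm (fun v => norm_nonneg _) (fun y => wg1_int h y)
      (fun v => by
        obtain ⟨u', hu'⟩ := expo hx v
        simp_rw [hu']
        exact cheb0 X u')
      (fun n _ => gs_le1' h (x n))
    refine h1.trans ?_
    nlinarith
  · have h1 := avgS (Finset.Icc 1 X) (fun n => ArithmeticFunction.vonMangoldt n / n) x
      (fun n => ‖gs w (x n)‖ ^ 2) (fun v => ‖w v‖ ^ 2) cA
      (fun n _ => div_nonneg ArithmeticFunction.vonMangoldt_nonneg (Nat.cast_nonneg n))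
      (sq_int h) (fun v => sq_nonneg _) (fun y => wg2_int h y)
      (fun v => by
        obtain ⟨u', hu'⟩ := expo hx v
        simp_rw [hu']
        exact cheb0 X u')
      (fun n _ => gs_sq' h (x n))
    refine h1.trans ?_
    change cA * q2 w ≤ _
    nlinarith
  · have h1 := avgS ((Finset.Icc 1 X).filter (fun n => ¬ n.Prime)) TC.lam x
      (fun n => ‖gs w (x n)‖) (fun v => ‖w v‖) (cA + cB)
      (fun n _ => TC.lam_nonneg n)
      (w_int h).norm (fun v => norm_nonneg _) (fun y => wg1_int h y)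
      (fun v => by
        obtain ⟨u', hu'⟩ := expo hx v
        simp_rw [hu']
        exact cheb1 X u')
      (fun n _ => gs_le1' h (x n))
    refine h1.trans ?_
    nlinarith [mul_nonneg (add_nonneg hA hB) hm0]

end Pool.Agent.N802.U
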