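import Pool.Agent.N802.U.Rh

/-! # A lower bound for the number of all zeros -/

open Complex Filter Topology Set MeasureTheory
open scoped BigOperators ComplexConjugate

namespace Pool.Agent.N802.U

open H370 TC

section

variable {F : ℂ → ℂ} (hF : GoodL F) {U1 U2 : ℝ} (hU : 1 ≤ U1) {η L h A : ℝ} {G : ℂ → ℂ}
    {w : ℝ → ℂ} {Gp : ℂ → ℂ} {gp : ℝ → ℂ} (hT : Two η L h A G w Gp gp) (hη : 0 < η)
    (hη1 : η ≤ 1 / 10) (hL : 100 ≤ L) (hA : Real.log L ≤ A)
    (hone : ∀ z : ℂ, |z.im| * L ≤ A → ‖G z‖ ≤ 1) (hAL : A ≤ η * L)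

include hF hU hT hη hη1 hL hA hone hAL in
/-- the upper bound for the real part at a zero, lower window -/
lemma lo_le (t : ℝ) {s : ℂ} (hs : s ∈ Zf F U1 U2) :
    (G (zz s - t) ^ 2 * cexp (-(zz s - t) ^ 2 / 2)).re ≤
      (if |s.im - t| ≤ h then (1 + η) else 0) +
    (32 / L ^ 3 * Real.exp (-(s.im - t) ^ 2 / 2) + tau L +
      2 * L ^ 2 * (if A < |(zz s).im| * L ∧ |s.im - t| ≤ L then
        Real.exp (η * L * |(zz s).im|) else 0)) := by
  have hy := zim hF hU hs
  have hg := gau_norm hy t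
  have hL0 : 0 < L := by linarith
  have hτ : 0 ≤ tau L := by unfold tau; positivity
  have hL3 : 0 ≤ 32 / L ^ 3 * Real.exp (-(s.im - t) ^ 2 / 2) := by positivity
  have hre : (G (zz s - t) ^ 2 * cexp (-(zz s - t) ^ 2 / 2)).re ≤
      ‖G (zz s - t) ^ 2 * cexp (-(zz s - t) ^ 2 / 2)‖ := Complex.re_le_norm _
  have hGG : ‖G (zz s - t) ^ 2‖ ≤ L ^ 2 * Real.exp (η * L * |(zz s).im|) := by
    rw [norm_pow]
    have h1 := hT.cr (zz s - t)
    rw [sub_im'] at h1
    calc ‖G (zz s - t)‖ ^ 2 ≤ (L * Real.exp (η * L / 2 * |(zz s).im|)) ^ 2 :=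
          pow_le_pow_left₀ (norm_nonneg _) h1 2
      _ = L ^ 2 * Real.exp (η * L * |(zz s).im|) := by
          rw [mul_pow, ← Real.exp_nat_mul]
          congr 2
          push_cast
          ring
  have hif : (0 : ℝ) ≤ if |s.im - t| ≤ h then (1 + η) else 0 := by
    split_ifs
    · linarith
    · exact le_rfl
  by_cases h3 : |(zz s).im| * L ≤ A
  · rw [if_neg (fun hc : A < |(zz s).im| * L ∧ |s.im - t| ≤ L => absurd hc.1 (not_lt.2 h3)),
      mul_zero, add_zero]
    by_cases h4 : |s.im - t| ≤ h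
    · rw [if_pos h4]
      have h5 := hone (zz s - t) (by rw [sub_im']; exact h3)
      have h6 : ‖cexp (-(zz s - t) ^ 2 / 2)‖ ≤ 1 + η := by
        rw [Complex.norm_exp]
        have e1 : (-(zz s - t) ^ 2 / 2).re = (zz s).im ^ 2 / 2 + -(s.im - t) ^ 2 / 2 := by
          have e2 : -(zz s - t) ^ 2 / 2 = (((-(1 / 2) : ℝ)) : ℂ) * (zz s - t) ^ 2 := by
            push_cast; ring
          rw [e2, Complex.re_ofReal_mul, sq, Complex.mul_re, Complex.sub_re, Complex.sub_im,
            Complex.ofReal_re, Complex.ofReal_im, zz_re]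
          ring
        rw [e1]
        have h7 : |(zz s).im| ≤ η := by
          have : |(zz s).im| * L ≤ η * L := h3.trans hAL
          exact le_of_mul_le_mul_right this hL0
        have h8 : (zz s).im ^ 2 ≤ η ^ 2 := by
          rw [← sq_abs]
          exact pow_le_pow_left₀ (abs_nonneg _) h7 2
        have h9 : (zz s).im ^ 2 / 2 + -(s.im - t) ^ 2 / 2 ≤ η / 20 := by
          have := sq_nonneg (s.im - t)
          nlinarith
        refine (Real.exp_le_exp.2 h9).trans ?_
        have h10 := Real.abs_exp_sub_one_sub_id_le (x := η / 20) (by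
          rw [abs_of_nonneg (by positivity)]; linarith)
        have h11 := (abs_le.1 h10).2
        nlinarith
      have h7 : ‖G (zz s - t) ^ 2 * cexp (-(zz s - t) ^ 2 / 2)‖ ≤ 1 * (1 + η) := by
        rw [norm_mul, norm_pow]
        apply mul_le_mul _ h6 (norm_nonneg _) zero_le_one
        exact pow_le_one₀ (norm_nonneg _) h5
      linarith
    · rw [if_neg h4]
      push Not at h4
      have h5 := hT.out (zz s - t) (by rw [sub_im']; exact h3) (by rw [sub_re']; exact h4.le)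
      have h6 : ‖G (zz s - t) ^ 2 * cexp (-(zz s - t) ^ 2 / 2)‖ ≤
          Real.exp (-8 * A) * (2 * Real.exp (-(s.im - t) ^ 2 / 2)) := by
        rw [norm_mul, norm_pow]
        apply mul_le_mul _ hg (norm_nonneg _) (Real.exp_pos _).le
        calc ‖G (zz s - t)‖ ^ 2 ≤ (Real.exp (-4 * A)) ^ 2 :=
              pow_le_pow_left₀ (norm_nonneg _) h5 2
          _ = Real.exp (-8 * A) := by
              rw [← Real.exp_nat_mul]
              congr 1
              push_cast
              ring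
      have hA0 : 0 ≤ A := le_trans (by positivity) h3
      have h7 : Real.exp (-8 * A) ≤ 1 / L ^ 3 :=
        le_trans (Real.exp_le_exp.2 (by linarith)) (ex3 hL hA)
      have h8 : Real.exp (-8 * A) * (2 * Real.exp (-(s.im - t) ^ 2 / 2)) ≤
          32 / L ^ 3 * Real.exp (-(s.im - t) ^ 2 / 2) := by
        calc Real.exp (-8 * A) * (2 * Real.exp (-(s.im - t) ^ 2 / 2)) ≤
            1 / L ^ 3 * (2 * Real.exp (-(s.im - t) ^ 2 / 2)) := by gcongr
          _ = 2 / L ^ 3 * Real.exp (-(s.im - t) ^ 2 / 2) := by ring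
          _ ≤ _ := by gcongr; norm_num
      linarith
  · push Not at h3
    by_cases h4 : |s.im - t| ≤ L
    · rw [if_pos (⟨h3, h4⟩ : A < |(zz s).im| * L ∧ |s.im - t| ≤ L)]
      have h5 : ‖G (zz s - t) ^ 2 * cexp (-(zz s - t) ^ 2 / 2)‖ ≤
          (L ^ 2 * Real.exp (η * L * |(zz s).im|)) * 2 := by
        rw [norm_mul]
        apply mul_le_mul hGG _ (norm_nonneg _) (by positivity)
        refine hg.trans ?_
        have : Real.exp (-(s.im - t) ^ 2 / 2) ≤ 1 := Real.exp_le_one_iff.2 (by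
          have := sq_nonneg (s.im - t)
          linarith)
        linarith
      linarith
    · rw [if_neg (fun hc : A < |(zz s).im| * L ∧ |s.im - t| ≤ L => h4 hc.2), mul_zero, add_zero]
      push Not at h4
      have h5 := tail_exp hL0.le h4
      have h6 : ‖G (zz s - t) ^ 2 * cexp (-(zz s - t) ^ 2 / 2)‖ ≤ tau L := by
        rw [norm_mul]
        calc ‖G (zz s - t) ^ 2‖ * ‖cexp (-(zz s - t) ^ 2 / 2)‖ ≤
            (L ^ 2 * Real.exp (η * L * |(zz s).im|)) * (2 * Real.exp (-(L ^ 2 / 2))) := by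
              apply mul_le_mul hGG _ (norm_nonneg _) (by positivity)
              exact hg.trans (by linarith)
          _ ≤ (L ^ 2 * Real.exp L) * (2 * Real.exp (-(L ^ 2 / 2))) := by
              gcongr
              have h8 : η * L * |(zz s).im| ≤ 1 / 10 * L * (1 / 2) := by gcongr
              linarith
          _ = 2 * L ^ 2 * Real.exp (L - L ^ 2 / 2) := by
              rw [sub_eq_add_neg, Real.exp_add]; ring
          _ ≤ tau L := by
              unfold tau
              apply mul_le_mul_of_nonneg_right _ (Real.exp_pos _).le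
              nlinarith
      linarith

include hF hU hT hη hη1 hL hA hone hAL in
/-- the lower bound for the number of all zeros at one point -/
theorem na_low (t : ℝ) :
    (SS F U1 U2 (fun z => G z ^ 2) 0 t).re ≤ (1 + η) * na F U1 U2 h t +
      (32 / L ^ 3 * Zg F U1 U2 t + (NN F U1 U2 : ℝ) * tau L + 2 * L ^ 2 * FF F U1 U2 η A L t) := by
  classical
  have hNN : (NN F U1 U2 : ℝ) = ∑ s ∈ Zf F U1 U2, (mult F s : ℝ) := by
    rw [NN_eq hF hU]; push_cast; rfl
  rw [← sum_FF hF hU A L η t (2 * L ^ 2), hNN]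
  unfold Zg na SS
  rw [Complex.re_sum, Finset.mul_sum, Finset.mul_sum, Finset.sum_mul, ← Finset.sum_add_distrib,
    ← Finset.sum_add_distrib, Finset.sum_filter, ← Finset.sum_add_distrib]
  refine Finset.sum_le_sum fun s hs => ?_
  have hm : (0 : ℝ) ≤ mult F s := Nat.cast_nonneg _
  have h3 := mul_le_mul_of_nonneg_left (lo_le hF hU hT hη hη1 hL hA hone hAL t hs) hm
  have e1 : ((mult F s : ℂ) * (cexp (I * ((0 : ℝ) : ℂ) * zz s) *
      (G (zz s - t) ^ 2 * cexp (-(zz s - t) ^ 2 / 2)))).re =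
      (mult F s : ℝ) * (G (zz s - t) ^ 2 * cexp (-(zz s - t) ^ 2 / 2)).re := by
    rw [Complex.ofReal_zero, mul_zero, zero_mul, Complex.exp_zero, one_mul,
      ← Complex.ofReal_natCast, Complex.re_ofReal_mul]
  rw [e1]
  have e2 : (if |s.im - t| ≤ h then (1 + η) * (mult F s : ℝ) else 0) =
      (mult F s : ℝ) * (if |s.im - t| ≤ h then (1 + η) else 0) := by
    split_ifs <;> ring
  rw [e2]
  refine h3.trans (le_of_eq ?_)
  ring

end

section

variable {F : ℂ → ℂ} {U1 U2 : ℝ} {ρ : ℝ → ℝ} {A0 B0 η ε U L h A K5 : ℝ} {G : ℂ → ℂ}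

/-- the lower bound -/
lemma lob (hρc : Continuous ρ) (hρ0 : ∀ t, 0 ≤ ρ t) (hab : A0 ≤ B0) (hG : Continuous fun t : ℝ =>
    SS F U1 U2 (fun z => G z ^ 2) 0 t) (hη : 0 < η) (hηε : η ≤ ε / 100) (hε : 0 < ε)
    (hε1 : ε < 1) (hU : 0 ≤ U)
    (hpt : ∀ t : ℝ, (SS F U1 U2 (fun z => G z ^ 2) 0 t).re ≤ (1 + η) * na F U1 U2 h t + K5 +
      2 * L ^ 2 * FF F U1 U2 η A L t)
    (A1 : (1 - η - ε / 50) * U ≤ ∫ t in A0..B0, ρ t * (SS F U1 U2 (fun z => G z ^ 2) 0 t).re)
    (Q4 : 40 * L ^ 2 * (∫ t in A0..B0, ρ t * FF F U1 U2 η A L t) ≤ ε / 4 / 100 * U)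
    (A5 : K5 * (∫ t in A0..B0, ρ t) ≤ ε / 4 / 100 * U) :
    (1 - ε) * U ≤ (∫ t in A0..B0, ρ t * na F U1 U2 h t) := by
  have hpt' : ∀ t ∈ Set.Icc A0 B0, ρ t * (SS F U1 U2 (fun z => G z ^ 2) 0 t).re ≤
      ρ t * ((1 + η) * na F U1 U2 h t) + K5 * ρ t + 2 * L ^ 2 * (ρ t * FF F U1 U2 η A L t) := by
    intro t _
    have h6 := mul_le_mul_of_nonneg_left (hpt t) (hρ0 t)
    linarith
  have i0 : IntervalIntegrable (fun t => ρ t * ((1 + η) * na F U1 U2 h t)) volume A0 B0 := by
    have := (na_int (F := F) (U1 := U1) (U2 := U2) hρc h A0 B0).const_mul (1 + η)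
    refine this.congr ?_
    exact fun t _ => by ring
  have i1 : IntervalIntegrable (fun t => ρ t * (SS F U1 U2 (fun z => G z ^ 2) 0 t).re)
      volume A0 B0 := (hρc.mul (Complex.continuous_re.comp hG)).intervalIntegrable _ _
  have i2 : IntervalIntegrable (fun t => K5 * ρ t) volume A0 B0 :=
    (continuous_const.mul hρc).intervalIntegrable _ _
  have i3 : IntervalIntegrable (fun t => 2 * L ^ 2 * (ρ t * FF F U1 U2 η A L t)) volume A0 B0 :=
    (FF_int hρc η A L _ _).const_mul _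
  have i02 : IntervalIntegrable (fun t => ρ t * ((1 + η) * na F U1 U2 h t) + K5 * ρ t)
    volume A0 B0 := i0.add i2
  have h1 := intervalIntegral.integral_mono_on hab i1 (i02.add i3) hpt'
  have e1 : ∫ t in A0..B0, ρ t * ((1 + η) * na F U1 U2 h t) =
      (1 + η) * ∫ t in A0..B0, ρ t * na F U1 U2 h t := by
    rw [← intervalIntegral.integral_const_mul]
    refine intervalIntegral.integral_congr fun t _ => ?_
    show ρ t * ((1 + η) * na F U1 U2 h t) = (1 + η) * (ρ t * na F U1 U2 h t)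
    ring
  have e2 : ∫ t in A0..B0, (ρ t * ((1 + η) * na F U1 U2 h t) +
      K5 * ρ t + 2 * L ^ 2 * (ρ t * FF F U1 U2 η A L t)) =
      (∫ t in A0..B0, ρ t * ((1 + η) * na F U1 U2 h t)) + K5 * (∫ t in A0..B0, ρ t) +
      2 * L ^ 2 * (∫ t in A0..B0, ρ t * FF F U1 U2 η A L t) := by
    rw [intervalIntegral.integral_add i02 i3, intervalIntegral.integral_add i0 i2,
      intervalIntegral.integral_const_mul, intervalIntegral.integral_const_mul]
  have h2 : ∫ t in A0..B0, ρ t * (SS F U1 U2 (fun z => G z ^ 2) 0 t).re ≤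
      (1 + η) * (∫ t in A0..B0, ρ t * na F U1 U2 h t) + K5 * (∫ t in A0..B0, ρ t) +
      2 * L ^ 2 * (∫ t in A0..B0, ρ t * FF F U1 U2 η A L t) := by
    rw [← e1, ← e2]
    exact h1
  have hFF0 : 0 ≤ ∫ t in A0..B0, ρ t * FF F U1 U2 η A L t := by
    apply intervalIntegral.integral_nonneg hab
    intro t _
    apply mul_nonneg (hρ0 t)
    unfold FF
    exact Finset.sum_nonneg fun s _ => by split_ifs <;> positivity
  have h3 : 2 * L ^ 2 * (∫ t in A0..B0, ρ t * FF F U1 U2 η A L t) ≤ ε / 4 / 100 * U := by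
    refine le_trans (mul_le_mul_of_nonneg_right ?_ hFF0) Q4
    have := sq_nonneg L
    linarith
  have hεU : 0 ≤ ε * U := by positivity
  have h4 : (1 - ε / 10) * U ≤ (1 + η) * (∫ t in A0..B0, ρ t * na F U1 U2 h t) := by
    have : η * U ≤ ε / 100 * U := mul_le_mul_of_nonneg_right hηε hU
    linarith
  have h5 : (1 + η) * ((1 - ε) * U) ≤ (1 - ε / 10) * U := by
    have : (1 + η) * (1 - ε) ≤ (1 - ε / 10) := by nlinarith
    calc (1 + η) * ((1 - ε) * U) = ((1 + η) * (1 - ε)) * U := by ring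
      _ ≤ _ := mul_le_mul_of_nonneg_right this hU
  exact le_of_mul_le_mul_left (h5.trans h4) (by linarith)

end

end Pool.Agent.N802.U
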