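import Pool.Agent.N802.U.Stm3

/-!
# All Dirichlet polynomials, all scales: asymptotic formula for all zeros, lower bound for the
simple critical ones
-/

open Complex Filter Topology Set MeasureTheory
open scoped BigOperators ComplexConjugate

namespace Pool.Agent.N802.U

open H370 TC

/-- the theorem about all Dirichlet polynomials; `F` is the zeta function, for example -/
def S_core4 (F : ℂ → ℂ) : Prop := ∀ ε : ℝ, 0 < ε → ε < 1 →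
  ∃ δ T0 : ℝ, 0 < δ ∧ 10 ≤ T0 ∧ ∀ T : ℝ, T0 ≤ T →
  ∃ U1 U2 : ℝ, T ≤ U1 ∧ U1 ≤ T + 1 ∧ 2 * T - 1 ≤ U2 ∧ U2 ≤ 2 * T ∧
  ∀ h : ℝ, Real.log (Real.log T) ^ 3 / (δ * Real.log T) ≤ h → h ≤ δ →
  ∀ S : Finset ℕ, Len S (T ^ δ) → ∀ r : ℕ → ℂ,
  (∀ t, ‖RP S r t‖ ^ 2 ≤ Real.exp (δ * xp h T) * w1 S r) →
  ∀ τ H : ℝ, T * Real.exp (-(δ * xp h T)) ≤ H →
    T + Real.log T * (H + 1) ≤ τ → τ ≤ 2 * T - Real.log T * (H + 1) →
  (0.6725 - ε) * (mr H S r * (h * Real.log T / Real.pi)) ≤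
    (∫ t in (T + Real.log T)..(2 * T - Real.log T), rh τ H S r t * x1 F U1 U2 h t) ∧
  (∫ t in (T + Real.log T)..(2 * T - Real.log T), rh τ H S r t * na F U1 U2 h t) ≤
    (1 + ε) * (mr H S r * (h * Real.log T / Real.pi)) ∧
  (1 - ε) * (mr H S r * (h * Real.log T / Real.pi)) ≤
    (∫ t in (T + Real.log T)..(2 * T - Real.log T), rh τ H S r t * na F U1 U2 h t)

open Classical in
/-- the theorem about the zeros in `(T, T + K]` -/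
def S_sharp4 (F : ℂ → ℂ) : Prop := ∀ ε : ℝ, 0 < ε → ε < 1 →
  ∃ δ T0 : ℝ, 0 < δ ∧ 10 ≤ T0 ∧ ∀ T : ℝ, T0 ≤ T →
  ∀ h : ℝ, Real.log (Real.log T) ^ 3 / (δ * Real.log T) ≤ h → h ≤ δ →
  ∀ K : ℝ, T * Real.exp (-(δ * xp h T)) ≤ K → K ≤ T / 2 →
  ∀ S : Finset ℕ, Len S (T ^ δ) → ∀ r : ℕ → ℂ,
  (∀ t, ‖RP S r t‖ ^ 2 ≤ Real.exp (δ * xp h T) * w1 S r) →
  (0.6725 - ε) * (K / (2 * Real.pi) * Real.log T * w1 S r) ≤
    (∑ s ∈ (Zf F T (T + K)).filter (fun s => s.re = 1 / 2 ∧ mult F s = 1), Mh S r h s.im) ∧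
  (∑ s ∈ Zf F T (T + K), (mult F s : ℝ) * Mh S r h s.im) ≤
    (1 + ε) * (K / (2 * Real.pi) * Real.log T * w1 S r) ∧
  (1 - ε) * (K / (2 * Real.pi) * Real.log T * w1 S r) ≤
    (∑ s ∈ Zf F T (T + K), (mult F s : ℝ) * Mh S r h s.im)

open Classical in
/-- short Dirichlet polynomials at the zeros themselves -/
def S_direct4 (F : ℂ → ℂ) : Prop := ∀ ε : ℝ, 0 < ε → ε < 1 →
  ∃ δ T0 : ℝ, 0 < δ ∧ 10 ≤ T0 ∧ ∀ T : ℝ, T0 ≤ T →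
  ∀ K : ℝ, T * Real.exp (-(δ * (Real.sqrt (Real.log T) / Real.log (Real.log T)))) ≤ K →
    K ≤ T / 2 →
  ∀ S : Finset ℕ, Len S (Real.exp (δ * (Real.sqrt (Real.log T) / Real.log (Real.log T)))) →
  ∀ r : ℕ → ℂ,
  (0.6725 - ε) * (K / (2 * Real.pi) * Real.log T * w1 S r) ≤
    (∑ s ∈ (Zf F T (T + K)).filter (fun s => s.re = 1 / 2 ∧ mult F s = 1),
      ‖RP S r s.im‖ ^ 2) ∧
  (∑ s ∈ Zf F T (T + K), (mult F s : ℝ) * ‖RP S r s.im‖ ^ 2) ≤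
    (1 + ε) * (K / (2 * Real.pi) * Real.log T * w1 S r) ∧
  (1 - ε) * (K / (2 * Real.pi) * Real.log T * w1 S r) ≤
    (∑ s ∈ Zf F T (T + K), (mult F s : ℝ) * ‖RP S r s.im‖ ^ 2)

end Pool.Agent.N802.U
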