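import Pool.Agent.N802.U.Two

/-! # The windows at all scales -/

open Complex Filter Topology Set MeasureTheory
open scoped BigOperators ComplexConjugate

namespace Pool.Agent.N802.U

/-- the parameters are admissible for large `L` -/
lemma params3 (η : ℝ) (hη : 0 < η) :
    ∃ L0 : ℝ, 10 ≤ L0 ∧ ∀ L, L0 ≤ L → 100 / η ≤ Real.log L ∧ 100 ≤ Real.log L ∧
      300 / η ≤ L ∧ 100 ≤ L := by
  have h1 : ∀ᶠ L : ℝ in atTop, max (100 / η) 100 ≤ Real.log L :=
    Real.tendsto_log_atTop.eventually_ge_atTop _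
  obtain ⟨L0, hL0⟩ := eventually_atTop.1 ((h1.and (eventually_ge_atTop (300 / η))).and
    (eventually_ge_atTop 100))
  refine ⟨max L0 10, le_max_right _ _, fun L hL => ?_⟩
  obtain ⟨⟨f1, f3⟩, f4⟩ := hL0 L ((le_max_left _ _).trans hL)
  exact ⟨(le_max_left _ _).trans f1, (le_max_right _ _).trans f1, f3, f4⟩

/-- the constants -/
lemma par_A {η L h : ℝ} (hη : 0 < η) (hL : 100 ≤ L) (hl : 100 ≤ Real.log L)
    (h1 : Real.log L ^ 3 / (η / 1000 * L) ≤ h) :
    0 < h ∧ Real.log L ≤ η / 1000 * (h * L / Real.log L ^ 2) := by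
  have hL0 : 0 < L := by linarith
  have hl0 : 0 < Real.log L := by linarith
  have hh : 0 < h := lt_of_lt_of_le (by positivity) h1
  refine ⟨hh, ?_⟩
  rw [div_le_iff₀ (by positivity)] at h1
  rw [mul_div_assoc', le_div_iff₀ (by positivity)]
  calc Real.log L * Real.log L ^ 2 = Real.log L ^ 3 := by ring
    _ ≤ h * (η / 1000 * L) := h1
    _ = _ := by ring

lemma par_ex3 (η : ℝ) (hη : 0 < η) (hη1 : η ≤ 1 / 10) :
    ∃ L0 : ℝ, 10 ≤ L0 ∧ ∀ L, L0 ≤ L → ∀ h : ℝ, Real.log L ^ 3 / (η / 1000 * L) ≤ h →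
      h ≤ η / 1000 → ∃ (b s r X : ℝ) (n : ℕ),
      Par η L h (η / 1000 * (h * L / Real.log L ^ 2)) b s r X n := by
  obtain ⟨L0, hL0, hpar⟩ := params3 η hη
  refine ⟨L0, hL0, fun L hL h hh1 hh2 => ?_⟩
  obtain ⟨p1, p2, p4, p5⟩ := hpar L hL
  obtain ⟨hh, p3⟩ := par_A hη p5 p2 hh1
  set l := Real.log L with hl
  set c0 := η / 1000 with hc0
  set A := c0 * (h * L / l ^ 2) with hA
  have hL0' : 0 < L := by linarith
  have hl0 : 0 < l := by linarith
  have hc00 : 0 < c0 := by positivity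
  have hA0 : 0 < A := by positivity
  have hA1 : 100 ≤ A := p2.trans p3
  have hηl : 100 ≤ η * l := by
    rw [div_le_iff₀ hη] at p1
    linarith
  refine ⟨η * L / 2, 9 * c0 * h / l, 9 * c0 * h, 12 * (⌈2 * A⌉₊ + 1 : ℕ) / (η * L),
    ⌈2 * A⌉₊ + 1, ?_⟩
  have hn1 : 2 * A + 1 ≤ ((⌈2 * A⌉₊ + 1 : ℕ) : ℝ) := by
    push_cast
    linarith [Nat.le_ceil (2 * A)]
  have hn2 : ((⌈2 * A⌉₊ + 1 : ℕ) : ℝ) ≤ 3 * A := by
    push_cast
    linarith [Nat.ceil_lt_add_one (show 0 ≤ 2 * A by positivity)]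
  set n : ℕ := ⌈2 * A⌉₊ + 1 with hn
  have hn0 : (0 : ℝ) < n := by linarith
  have hX1 : 12 * (n : ℝ) / (η * L) ≤ c0 * h := by
    have h1 : 12 * (n : ℝ) / (η * L) ≤ 36 * (c0 * h) / (η * l ^ 2) := by
      calc 12 * (n : ℝ) / (η * L) ≤ 12 * (3 * A) / (η * L) := by gcongr
        _ = 36 * (c0 * h) / (η * l ^ 2) := by rw [hA]; field_simp; ring
    refine h1.trans ?_
    rw [div_le_iff₀ (by positivity)]
    have h2 : 36 ≤ η * l ^ 2 := by
      calc (36 : ℝ) ≤ 100 * 100 := by norm_num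
        _ ≤ η * l * l := mul_le_mul hηl p2 (by norm_num) (by positivity)
        _ = η * l ^ 2 := by ring
    calc 36 * (c0 * h) = (c0 * h) * 36 := by ring
      _ ≤ c0 * h * (η * l ^ 2) := by gcongr
  have hAL : 100 * A ≤ L := by
    have h3 : c0 * h ≤ 1 / 100 := by
      calc c0 * h ≤ (1 / 10) * (1 / 10) := by
            apply mul_le_mul _ _ hh.le (by norm_num)
            · rw [hc0]; linarith
            · linarith
        _ = 1 / 100 := by norm_num
    have h4 : (1 : ℝ) ≤ l ^ 2 := one_le_pow₀ (by linarith)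
    calc 100 * A = 100 * (c0 * h) * (L / l ^ 2) := by rw [hA]; ring
      _ ≤ 100 * (1 / 100) * (L / 1) := by gcongr
      _ = L := by ring
  constructor
  · exact p5
  · exact p2
  · positivity
  · rfl
  · positivity
  · positivity
  · positivity
  · exact hh
  · exact p3
  · show 9 * c0 * h = l * (9 * c0 * h / l)
    field_simp
  · have : η * h / 100 = 10 * (c0 * h) := by rw [hc0]; ring
    rw [this]
    linarith
  · exact div_le_self (by positivity) (by linarith)
  · linarith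
  · show A * (9 * l) = 9 * c0 * h / l * L
    rw [hA]; field_simp
  · field_simp; norm_num
  · omega
  · exact (third_pow hn1).trans (ex1 A)
  · exact ex2 (by linarith) hAL
  · exact ex3 p5 p3
  · rw [div_le_div_iff₀ hL0' (by norm_num)]
    rw [div_le_iff₀ hη] at p4
    linarith

theorem two4 (hwin : S_win) (hsq : S_sq) (hpl : S_pl) (hgs : S_gs) (η : ℝ) (hη : 0 < η)
    (hη1 : η ≤ 1 / 10) : ∃ L0 : ℝ, 10 ≤ L0 ∧ ∀ L, L0 ≤ L → ∀ h : ℝ,
    Real.log L ^ 3 / (η / 1000 * L) ≤ h → h ≤ η / 1000 →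
    ∃ (G : ℂ → ℂ) (w : ℝ → ℂ) (Gp : ℂ → ℂ) (gp : ℝ → ℂ),
      Two η L h (η / 1000 * (h * L / Real.log L ^ 2)) G w Gp gp ∧
      ∀ z : ℂ, |z.im| * L ≤ η / 1000 * (h * L / Real.log L ^ 2) → ‖G z‖ ≤ 1 := by
  obtain ⟨L0, hL0, hpar⟩ := par_ex3 η hη hη1
  refine ⟨L0, hL0, fun L hL h hhl hhu => ?_⟩
  obtain ⟨b, s, r, X, n, hP⟩ := hpar L hL h hhl hhu
  set A := η / 1000 * (h * L / Real.log L ^ 2) with hA
  have hL1 := hP.L1
  have hrX := hP.rX
  have hr0 := hP.r0
  have hX0 := hP.X0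
  have hh0 := hP.h0
  have hs0 := hP.s0
  have hsr := hP.sr
  have hh1 := hP.h1
  have hb0 := hP.b0
  have hsl := hP.s_le hη1
  have hηh : η * h / 100 ≤ h / 1000 := by nlinarith
  have hpi := Real.pi_pos
  have hpi3 := Real.pi_gt_three
  obtain ⟨G, g, hG⟩ := winp hwin b s (h - (r + X)) n hb0 hs0 (by linarith) hP.n1
  obtain ⟨Gp, gp, hGp⟩ := winp hwin b s (h + (r + X)) n hb0 hs0 (by linarith) hP.n1
  obtain ⟨w, hw⟩ := hsq b G g hb0 hG.bw
  have e2b : 2 * b = η * L := by rw [hP.be]; ring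
  rw [e2b] at hw
  have hnG := norm_real hG.cj hG.re01
  have hnGp := norm_real hGp.cj hGp.re01
  have hGsq : ∀ x : ℝ, ‖G x ^ 2‖ ≤ (G x).re := by
    intro x
    rw [norm_pow, hnG]
    have := hG.re01 x
    nlinarith
  have hex1 : ∀ x : ℝ, Real.exp (-x ^ 2 / 2) ≤ 1 := fun x => Real.exp_le_one_iff.2 (by
    have := sq_nonneg x
    linarith)
  have hGc := hG.bw.cont
  have hGpc := hGp.bw.cont
  have hec : Continuous (fun x : ℝ => Real.exp (-x ^ 2 / 2)) := by fun_prop
  have hcrude : ∀ (F : ℂ → ℂ) (f : ℝ → ℂ) (h1 : ℝ), WinP b s h1 n F f → h1 + s ≤ 1 →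
      0 ≤ h1 + s → ∀ z : ℂ, ‖F z‖ ≤ L * Real.exp (η * L / 2 * |z.im|) := by
    intro F f h1 hF h2 h3 z
    refine (hF.cr z).trans ?_
    rw [hP.be]
    apply mul_le_mul_of_nonneg_right _ (Real.exp_pos _).le
    have h4 : η * L / 2 ≤ L := by nlinarith
    calc (h1 + s) * (η * L / 2) ≤ 1 * L := mul_le_mul h2 h4 (by positivity) zero_le_one
      _ = L := one_mul _
  refine ⟨G, w, Gp, gp, ?_, fun z hz => hG.le1 z (hP.im_le' hz)⟩
  constructor
  · exact hw
  · exact hG.cj
  · intro x; rw [hnG]; exact (hG.re01 x).2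
  · -- q2 w
    obtain ⟨h1, h2⟩ := hpl (η * L) _ w (by positivity) hw
    have h3 : ∫ x : ℝ, ‖(fun z => G z ^ 2) (x : ℂ)‖ ^ 2 ≤ ∫ x : ℝ, (G x).re := by
      apply integral_mono h1 hG.ig
      intro x
      simp only
      have h4 := hGsq x
      have h5 := hG.re01 x
      have h6 := norm_nonneg (G x ^ 2)
      nlinarith
    have h4 := hG.il
    rw [le_div_iff₀ hpi]
    linarith
  · -- lower bound
    rw [gs_re hgs (by positivity) hw (fun x => (G x).re ^ 2) (fun x => sq_re hG.cj x)]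
    set h' := h - (r + X) - (r + X) with hh'
    have hh'0 : 0 < h' := by rw [hh']; linarith
    have hh'1 : h * (1 - η / 50) ≤ h' := by rw [hh']; linarith
    have hval : ∀ y ∈ Set.Icc (-h') h', (1 - η / 10) ≤ Real.exp (-y ^ 2 / 2) * (G y).re ^ 2 := by
      intro y hy
      have hy' : |y| ≤ h' := abs_le.2 hy
      have h1 := hP.innG hG (z := (y : ℂ)) (by simp [hs0.le]) (by
        rw [Complex.ofReal_re]; linarith)
      have h4 : 1 - η / 25 ≤ (G y).re := by
        have h5 := (Complex.abs_re_le_norm (G y - 1)).trans h1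
        rw [Complex.sub_re, Complex.one_re] at h5
        linarith [(abs_le.1 h5).1]
      have h6 : 1 - η / 100 ≤ Real.exp (-y ^ 2 / 2) := by
        have h7 := Real.add_one_le_exp (-y ^ 2 / 2)
        have h8 : y ^ 2 ≤ h' ^ 2 := sq_le_sq' hy.1 hy.2
        have h9 : h' ^ 2 ≤ h ^ 2 := pow_le_pow_left₀ hh'0.le (by rw [hh']; linarith) 2
        have h10 : h ^ 2 ≤ h * (η / 100) := by rw [sq]; gcongr
        have h11 : h * (η / 100) ≤ 1 * (η / 100) := by
          apply mul_le_mul_of_nonneg_right _ (by positivity)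
          linarith
        linarith
      have h7 : (0 : ℝ) ≤ 1 - η / 100 := by linarith
      have h8 : 1 - 2 * η / 25 ≤ (1 - η / 25) ^ 2 := by nlinarith [sq_nonneg (η / 25)]
      have h9 : (1 - η / 100) * (1 - 2 * η / 25) ≤ (1 - η / 100) * (1 - η / 25) ^ 2 :=
        mul_le_mul_of_nonneg_left h8 h7
      calc (1 - η / 10) ≤ (1 - η / 100) * (1 - 2 * η / 25) := by nlinarith [sq_nonneg η]
        _ ≤ (1 - η / 100) * (1 - η / 25) ^ 2 := h9
        _ ≤ Real.exp (-y ^ 2 / 2) * (G y).re ^ 2 := by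
            gcongr
            linarith
    have hint : Integrable (fun y : ℝ => Real.exp (-y ^ 2 / 2) * (G y).re ^ 2) := by
      refine hG.ig.mono' (hec.mul ((Complex.continuous_re.comp hGc).pow 2)).aestronglyMeasurable
        (Eventually.of_forall fun y => ?_)
      have h1 := hG.re01 y
      rw [Real.norm_of_nonneg (by positivity)]
      have h2 : (G y).re ^ 2 ≤ (G y).re := by nlinarith
      calc Real.exp (-y ^ 2 / 2) * (G y).re ^ 2 ≤ 1 * (G y).re :=
            mul_le_mul (hex1 y) h2 (sq_nonneg _) zero_le_one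
        _ = _ := one_mul _
    have h5 : (1 - η / 10) * (2 * h') ≤ ∫ y : ℝ, Real.exp (-y ^ 2 / 2) * (G y).re ^ 2 := by
      calc (1 - η / 10) * (2 * h') = ∫ y in Set.Icc (-h') h', (1 - η / 10) := by
            rw [setIntegral_const, measureReal_def, Real.volume_Icc, ENNReal.toReal_ofReal (by linarith),
              smul_eq_mul]
            ring
        _ ≤ ∫ y in Set.Icc (-h') h', Real.exp (-y ^ 2 / 2) * (G y).re ^ 2 := by
            apply setIntegral_mono_on _ hint.integrableOn measurableSet_Icc hval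
            exact integrableOn_const (by rw [Real.volume_Icc]; exact ENNReal.ofReal_ne_top)
        _ ≤ _ := by
            apply setIntegral_le_integral hint
            exact Eventually.of_forall fun y => by positivity
    have h6 : (1 - η) * h ≤ (1 - η / 10) * h' := by
      have : (1 - η / 10) * (h * (1 - η / 50)) ≤ (1 - η / 10) * h' :=
        mul_le_mul_of_nonneg_left hh'1 (by linarith)
      refine le_trans ?_ this
      nlinarith
    calc (1 - η) * (h / Real.pi) = ((1 - η) * h) / Real.pi := by ring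
      _ ≤ ((1 - η / 10) * h') / Real.pi := by gcongr
      _ = 1 / (2 * Real.pi) * ((1 - η / 10) * (2 * h')) := by field_simp
      _ ≤ _ := by gcongr
  · -- i1
    have h1 : ∫ x : ℝ, ‖G x ^ 2‖ * Real.exp (-x ^ 2 / 2) ≤ ∫ x : ℝ, (G x).re := by
      apply integral_mono_of_nonneg (Eventually.of_forall fun x => by positivity) hG.ig
      refine Eventually.of_forall fun x => ?_
      calc ‖G x ^ 2‖ * Real.exp (-x ^ 2 / 2) ≤ (G x).re * 1 :=
            mul_le_mul (hGsq x) (hex1 x) (Real.exp_pos _).le (hG.re01 x).1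
        _ = _ := mul_one _
    have := hG.il
    linarith
  · rw [← hP.be]; exact hGp.bw
  · -- q2 gp
    obtain ⟨h1, h2⟩ := hpl b _ gp hb0 hGp.bw
    have h3 : ∫ x : ℝ, ‖Gp (x : ℂ)‖ ^ 2 ≤ ∫ x : ℝ, (Gp x).re := by
      apply integral_mono h1 hGp.ig
      intro x
      simp only
      rw [hnGp]
      have := hGp.re01 x
      nlinarith
    have h4 := hGp.il
    have h5 : 0 ≤ q2 gp := integral_nonneg fun v => sq_nonneg _
    nlinarith
  · -- upper bound
    rw [gs_re hgs hb0 hGp.bw (fun x => (Gp x).re) (fun x => real_of_conj hGp.cj x)]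
    have h1 : ∫ y : ℝ, Real.exp (-y ^ 2 / 2) * (Gp y).re ≤ ∫ x : ℝ, (Gp x).re := by
      apply integral_mono_of_nonneg (Eventually.of_forall fun x => by
        have := (hGp.re01 x).1
        positivity) hGp.ig
      refine Eventually.of_forall fun x => ?_
      calc Real.exp (-x ^ 2 / 2) * (Gp x).re ≤ 1 * (Gp x).re :=
            mul_le_mul_of_nonneg_right (hex1 x) (hGp.re01 x).1
        _ = _ := one_mul _
    have h2 := hGp.il
    have h3 : h + (r + X) + s ≤ (1 + η) * h := by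
      have : s ≤ η * h / 100 := by linarith
      have : 0 < η * h := by positivity
      linarith
    calc 1 / (2 * Real.pi) * ∫ y : ℝ, Real.exp (-y ^ 2 / 2) * (Gp y).re ≤
        1 / (2 * Real.pi) * (2 * ((1 + η) * h)) := by
          gcongr
          linarith
      _ = (1 + η) * (h / Real.pi) := by field_simp
  · -- i1p
    have h1 : ∫ x : ℝ, ‖Gp x‖ * Real.exp (-x ^ 2 / 2) ≤ ∫ x : ℝ, (Gp x).re := by
      apply integral_mono_of_nonneg (Eventually.of_forall fun x => by positivity) hGp.ig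
      refine Eventually.of_forall fun x => ?_
      simp only
      rw [hnGp]
      calc (Gp x).re * Real.exp (-x ^ 2 / 2) ≤ (Gp x).re * 1 :=
            mul_le_mul_of_nonneg_left (hex1 x) (hGp.re01 x).1
        _ = _ := mul_one _
    have := hGp.il
    linarith
  · intro z hz hx
    exact hP.outG hG hz (by linarith)
  · intro z hz hx
    exact hP.inRe hη1 hη hGp hz hx
  · intro z hz
    exact hP.outRe hη1 hη hGp (by linarith) hz
  · exact hcrude G g _ hG (by linarith) (by linarith)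
  · exact hcrude Gp gp _ hGp (by linarith) (by linarith)

theorem two3 (hwin : S_win) (hsq : S_sq) (hpl : S_pl) (hgs : S_gs) (η : ℝ) (hη : 0 < η)
    (hη1 : η ≤ 1 / 10) : ∃ L0 : ℝ, 10 ≤ L0 ∧ ∀ L, L0 ≤ L → ∀ h : ℝ,
    Real.log L ^ 3 / (η / 1000 * L) ≤ h → h ≤ η / 1000 →
    ∃ (G : ℂ → ℂ) (w : ℝ → ℂ) (Gp : ℂ → ℂ) (gp : ℝ → ℂ),
      Two η L h (η / 1000 * (h * L / Real.log L ^ 2)) G w Gp gp := by
  obtain ⟨L0, hL0, h⟩ := two4 hwin hsq hpl hgs η hη hη1
  refine ⟨L0, hL0, fun L hL x h1 h2 => ?_⟩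
  obtain ⟨G, w, Gp, gp, h3, -⟩ := h L hL x h1 h2
  exact ⟨G, w, Gp, gp, h3⟩

end Pool.Agent.N802.U
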