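import Pool.Agent.N802.U.Stm3
import Pool.Agent.N802.Diag

/-!
# Short Dirichlet polynomials at the zeros themselves (project U2, leaf DIRECT; helper319)
-/

open Complex Filter Topology Set MeasureTheory
open scoped BigOperators ComplexConjugate

namespace Pool.Agent.N802.U

open H370 TC

namespace Directaux

/-- the coefficients of the derivative -/
noncomputable def dr (r : ℕ → ℂ) : ℕ → ℂ := fun k => (Real.log k : ℂ) * r k

lemma mn_deriv (k : ℕ) (t : ℝ) :
    HasDerivAt (fun t : ℝ => mn k 1 t) (-I * ((Real.log k : ℂ) * mn k 1 t)) t := by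
  unfold mn
  have h := ((((hasDerivAt_id t).mul_const (Real.log ((1 : ℕ) : ℝ) - Real.log k)).ofReal_comp).mul_const
    I).cexp
  simp only [id_eq] at h
  convert h using 1
  simp only [Nat.cast_one, Real.log_one, zero_sub, one_mul]
  push_cast
  ring

lemma RP_deriv (S : Finset ℕ) (r : ℕ → ℂ) (t : ℝ) :
    HasDerivAt (fun t : ℝ => RP S r t) (-I * RP S (dr r) t) t := by
  have h := HasDerivAt.fun_sum (u := S) (fun k _ => (mn_deriv k t).const_mul (r k))
  unfold RP TP
  refine h.congr_deriv ?_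
  rw [Finset.mul_sum]
  refine Finset.sum_congr rfl fun k _ => ?_
  unfold dr
  ring

lemma RP_cont (S : Finset ℕ) (r : ℕ → ℂ) : Continuous (RP S r) := TP_cont _ _ _ _

lemma Mh_nonneg {S : Finset ℕ} {r : ℕ → ℂ} {h g : ℝ} (hh : 0 < h) : 0 ≤ Mh S r h g := by
  unfold Mh
  have : 0 ≤ ∫ t in (g - h)..(g + h), ‖RP S r t‖ ^ 2 :=
    intervalIntegral.integral_nonneg (by linarith) fun t _ => by positivity
  positivity

/-- the value at a point and the mean around it -/
lemma point (S : Finset ℕ) (r : ℕ → ℂ) {h lm : ℝ} (hh : 0 < h) (hl : 0 < lm) (g : ℝ) :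
    |‖RP S r g‖ ^ 2 - Mh S r h g| ≤ 2 * h * (lm * Mh S r h g + Mh S (dr r) h g / lm) := by
  set R := RP S r with hR
  set R' := RP S (dr r) with hR'
  have cR : Continuous R := RP_cont S r
  have cR' : Continuous R' := RP_cont S (dr r)
  have hder : ∀ t : ℝ, HasDerivAt (fun t => ‖R t‖ ^ 2) (2 * inner ℝ (R t) (-I * R' t)) t := fun t =>
    (RP_deriv S r t).norm_sq
  have cder : Continuous fun t : ℝ => 2 * inner ℝ (R t) (-I * R' t) := by fun_prop
  have bder : ∀ t : ℝ, ‖2 * inner ℝ (R t) (-I * R' t)‖ ≤ lm * ‖R t‖ ^ 2 + ‖R' t‖ ^ 2 / lm := by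
    intro t
    rw [norm_mul, Real.norm_eq_abs, Real.norm_eq_abs, abs_of_pos (by norm_num : (0 : ℝ) < 2)]
    have h1 := abs_real_inner_le_norm (R t) (-I * R' t)
    rw [norm_mul, norm_neg, Complex.norm_I, one_mul] at h1
    have h2 : 2 * (‖R t‖ * ‖R' t‖) ≤ lm * ‖R t‖ ^ 2 + ‖R' t‖ ^ 2 / lm := by
      have h3 : lm * ‖R t‖ ^ 2 + ‖R' t‖ ^ 2 / lm - 2 * (‖R t‖ * ‖R' t‖) =
          (lm * ‖R t‖ - ‖R' t‖) ^ 2 / lm := by
        field_simp
        ring
      have h4 : 0 ≤ (lm * ‖R t‖ - ‖R' t‖) ^ 2 / lm := by positivity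
      linarith
    linarith
  set B := ∫ t in (g - h)..(g + h), (lm * ‖R t‖ ^ 2 + ‖R' t‖ ^ 2 / lm) with hB
  have cB : Continuous fun t : ℝ => lm * ‖R t‖ ^ 2 + ‖R' t‖ ^ 2 / lm := by fun_prop
  have key : ∀ t ∈ uIoc (g - h) (g + h), ‖‖R g‖ ^ 2 - ‖R t‖ ^ 2‖ ≤ B := by
    intro t ht
    rw [uIoc_of_le (by linarith)] at ht
    have e1 : ‖R g‖ ^ 2 - ‖R t‖ ^ 2 = ∫ s in t..g, 2 * inner ℝ (R s) (-I * R' s) := by
      rw [intervalIntegral.integral_eq_sub_of_hasDerivAt (fun s _ => hder s)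
        (cder.intervalIntegrable _ _)]
    rw [e1]
    refine intervalIntegral.norm_integral_le_abs_integral_norm.trans ?_
    have e2 : |∫ s in t..g, ‖2 * inner ℝ (R s) (-I * R' s)‖| ≤
        |∫ s in (g - h)..(g + h), ‖2 * inner ℝ (R s) (-I * R' s)‖| := by
      refine intervalIntegral.abs_integral_mono_interval ?_ ?_ ?_
      · rw [uIoc_of_le (by linarith : g - h ≤ g + h)]
        rintro s hs
        rw [mem_uIoc] at hs
        rcases hs with hs | hs
        · exact ⟨lt_trans ht.1 hs.1, hs.2.trans (by linarith)⟩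
        · exact ⟨lt_of_le_of_lt (by linarith) hs.1, hs.2.trans ht.2⟩
      · exact Eventually.of_forall fun s => norm_nonneg _
      · exact cder.norm.intervalIntegrable _ _
    refine e2.trans ?_
    rw [abs_of_nonneg (intervalIntegral.integral_nonneg (by linarith) fun s _ => norm_nonneg _)]
    exact intervalIntegral.integral_mono_on (by linarith) (cder.norm.intervalIntegrable _ _)
      (cB.intervalIntegrable _ _) fun s _ => bder s
  have e3 : ‖R g‖ ^ 2 - Mh S r h g =
      (1 / (2 * h)) * ∫ t in (g - h)..(g + h), (‖R g‖ ^ 2 - ‖R t‖ ^ 2) := by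
    rw [intervalIntegral.integral_sub (continuous_const.intervalIntegrable _ _)
      ((by fun_prop : Continuous fun t : ℝ => ‖R t‖ ^ 2).intervalIntegrable _ _),
      intervalIntegral.integral_const, smul_eq_mul, mul_sub]
    congr 1
    field_simp
    ring
  have e4 := intervalIntegral.norm_integral_le_of_norm_le_const key
  rw [Real.norm_eq_abs, show g + h - (g - h) = 2 * h by ring, abs_of_pos (by linarith : 0 < 2 * h)]
    at e4
  have e5 : B = 2 * h * (lm * Mh S r h g + Mh S (dr r) h g / lm) := by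
    rw [hB, intervalIntegral.integral_add ((by fun_prop : Continuous fun t : ℝ =>
      lm * ‖R t‖ ^ 2).intervalIntegrable _ _) ((by fun_prop : Continuous fun t : ℝ =>
      ‖R' t‖ ^ 2 / lm).intervalIntegrable _ _), intervalIntegral.integral_const_mul,
      intervalIntegral.integral_div]
    unfold Mh
    rw [← hR, ← hR']
    field_simp
  rw [e3, abs_mul, abs_of_pos (by positivity : 0 < 1 / (2 * h)), ← e5]
  calc 1 / (2 * h) * |∫ t in (g - h)..(g + h), (‖R g‖ ^ 2 - ‖R t‖ ^ 2)|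
      ≤ 1 / (2 * h) * (B * (2 * h)) := mul_le_mul_of_nonneg_left e4 (by positivity)
    _ = B := by field_simp

lemma w1_dr {S : Finset ℕ} {r : ℕ → ℂ} {X : ℝ} (hS : Len S (Real.exp X)) :
    w1 S (dr r) ≤ X ^ 2 * w1 S r := by
  unfold w1
  rw [Finset.mul_sum]
  refine Finset.sum_le_sum fun k hk => ?_
  obtain ⟨h1, h2⟩ := hS k hk
  have h3 : (1 : ℝ) ≤ k := by exact_mod_cast h1
  have h4 : Real.log k ≤ X := by
    rw [Real.log_le_iff_le_exp (by linarith)]
    exact h2
  have h5 : 0 ≤ Real.log k := Real.log_nonneg h3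
  unfold dr
  rw [norm_mul, mul_pow, Complex.norm_real, Real.norm_eq_abs, abs_of_nonneg h5]
  exact mul_le_mul_of_nonneg_right (pow_le_pow_left₀ h5 h4 2) (by positivity)

lemma RP_sq_le {S : Finset ℕ} (r : ℕ → ℂ) {X : ℝ} (hX : 0 ≤ X) (hS : Len S (Real.exp X)) (t : ℝ) :
    ‖RP S r t‖ ^ 2 ≤ Real.exp X * w1 S r := by
  refine le_trans ?_ (n1_sq_le S r hS (Real.one_le_exp hX))
  exact pow_le_pow_left₀ (norm_nonneg _) (TP_norm_le _ _ _ _ _) 2

/-- the limits -/
lemma large (c : ℝ) (hc : 0 < c) : ∃ T0 : ℝ, 10 ≤ T0 ∧ ∀ T : ℝ, T0 ≤ T → 1 ≤ Real.log T ∧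
    1 ≤ Real.log (Real.log T) ∧ Real.log (Real.log T) ^ 2 ≤ c * Real.sqrt (Real.log T) := by
  have h1 : ∀ᶠ x : ℝ in atTop, Real.log x ^ 2 ≤ c * Real.sqrt x := by
    have h := (isLittleO_log_rpow_rpow_atTop (s := (1 / 2 : ℝ)) 2 (by norm_num)).bound hc
    filter_upwards [h, eventually_ge_atTop 1] with x hx hx1
    have h2 : 0 ≤ Real.log x := Real.log_nonneg hx1
    rw [← Real.sqrt_eq_rpow, Real.norm_eq_abs, Real.norm_eq_abs,
      abs_of_nonneg (Real.sqrt_nonneg x), abs_of_nonneg (by positivity)] at hx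
    have h3 : Real.log x ^ (2 : ℝ) = Real.log x ^ 2 := by
      rw [← Real.rpow_natCast]
      norm_num
    rwa [h3] at hx
  have h2 : ∀ᶠ T : ℝ in atTop, 1 ≤ Real.log T ∧
      1 ≤ Real.log (Real.log T) ∧ Real.log (Real.log T) ^ 2 ≤ c * Real.sqrt (Real.log T) := by
    have a1 := Real.tendsto_log_atTop.eventually (eventually_ge_atTop 1)
    have a2 := (Real.tendsto_log_atTop.comp Real.tendsto_log_atTop).eventually
      (eventually_ge_atTop 1)
    have a3 := Real.tendsto_log_atTop.eventually h1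
    filter_upwards [a1, a2, a3] with T b1 b2 b3
    exact ⟨b1, b2, b3⟩
  obtain ⟨T0, hT0⟩ := eventually_atTop.1 h2
  exact ⟨max T0 10, le_max_right _ _, fun T hT => hT0 T ((le_max_left _ _).trans hT)⟩

end Directaux

open Directaux in
theorem direct {F : ℂ → ℂ} (_hF : GoodL F) (h3 : S_sharp3 F) : S_direct F := by
  classical
  intro ε hε hε1
  obtain ⟨δ3, T3, hδ3, hT3, H3⟩ := h3 (ε / 4) (by linarith) (by linarith)
  -- the choice of the constants
  obtain ⟨δ, hδ0, hδ1, hδ2, hδ4⟩ : ∃ δ : ℝ, 0 < δ ∧ δ ≤ 1 ∧ δ ≤ δ3 ∧ 200 * δ ^ 2 ≤ δ3 * ε := by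
    refine ⟨min (min 1 δ3) (δ3 * ε / 200), lt_min (lt_min one_pos hδ3) (by positivity),
      (min_le_left _ _).trans (min_le_left _ _), (min_le_left _ _).trans (min_le_right _ _), ?_⟩
    have a0 : 0 < min (min 1 δ3) (δ3 * ε / 200) := lt_min (lt_min one_pos hδ3) (by positivity)
    have a1 : min (min 1 δ3) (δ3 * ε / 200) ≤ 1 := (min_le_left _ _).trans (min_le_left _ _)
    have a2 : min (min 1 δ3) (δ3 * ε / 200) ≤ δ3 * ε / 200 := min_le_right _ _
    nlinarith
  obtain ⟨T1, hT1, hl⟩ := large (min (δ3 * ε / (64 * δ)) (64 * δ * δ3 / ε))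
    (lt_min (by positivity) (by positivity))
  refine ⟨δ, max T1 T3, hδ0, hT1.trans (le_max_left _ _), ?_⟩
  intro T hT K hK1 hK2 S hS r
  obtain ⟨hL1, hl1, hlL⟩ := hl T ((le_max_left _ _).trans hT)
  have hTT3 : T3 ≤ T := (le_max_right _ _).trans hT
  have hT0 : 0 < T := by linarith
  set L := Real.log T with hL
  set l := Real.log L with hldef
  set q := Real.sqrt L with hq
  have hL0 : 0 < L := by linarith
  have hl0 : 0 < l := by linarith
  have hq0 : 0 < q := Real.sqrt_pos.2 hL0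
  have hqq : q ^ 2 = L := Real.sq_sqrt hL0.le
  have hq1 : 1 ≤ q := by
    by_contra hcon
    push Not at hcon
    nlinarith
  have hlA : l ^ 2 ≤ δ3 * ε / (64 * δ) * q :=
    hlL.trans (mul_le_mul_of_nonneg_right (min_le_left _ _) hq0.le)
  have hlB : l ^ 2 ≤ 64 * δ * δ3 / ε * q :=
    hlL.trans (mul_le_mul_of_nonneg_right (min_le_right _ _) hq0.le)
  set E := q / l with hE
  have hE0 : 0 < E := by positivity
  set h := ε / 64 / (δ * E) with hh
  have hh0 : 0 < h := by positivity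
  have hhE : h * (δ * E) = ε / 64 := by
    rw [hh]
    field_simp
  have hh' : h = ε * l / (64 * δ * q) := by
    rw [hh, hE]
    field_simp
  have c1 : l ^ 3 / (δ3 * L) ≤ h := by
    rw [hh', div_le_div_iff₀ (by positivity) (by positivity), ← hqq]
    have e1 : l ^ 2 * (64 * δ) ≤ δ3 * ε * q := by
      have := mul_le_mul_of_nonneg_right hlA (show (0 : ℝ) ≤ 64 * δ by positivity)
      refine this.trans (le_of_eq ?_)
      field_simp
    have e2 := mul_le_mul_of_nonneg_right e1 (show (0 : ℝ) ≤ l * q by positivity)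
    calc l ^ 3 * (64 * δ * q) = l ^ 2 * (64 * δ) * (l * q) := by ring
      _ ≤ δ3 * ε * q * (l * q) := e2
      _ = ε * l * (δ3 * q ^ 2) := by ring
  have c2 : h ≤ δ3 := by
    rw [hh', div_le_iff₀ (by positivity)]
    have e1 : l ^ 2 * ε ≤ 64 * δ * δ3 * q := by
      have := mul_le_mul_of_nonneg_right hlB hε.le
      refine this.trans (le_of_eq ?_)
      field_simp
    have e2 : l ≤ l ^ 2 := by nlinarith
    have e3 := mul_le_mul_of_nonneg_right e2 hε.le
    nlinarith
  have hxp : xp h T = ε / (64 * δ) * E := by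
    unfold xp
    rw [← hL, ← hldef, hh', hE, ← hqq]
    field_simp
  have c3 : δ * E ≤ δ3 * xp h T := by
    rw [hxp]
    have e1 : δ ≤ δ3 * (ε / (64 * δ)) := by
      rw [← mul_div_assoc, le_div_iff₀ (by positivity)]
      nlinarith
    calc δ * E ≤ δ3 * (ε / (64 * δ)) * E := mul_le_mul_of_nonneg_right e1 hE0.le
      _ = _ := by ring
  have hEL : E ≤ L := by
    rw [hE, div_le_iff₀ hl0, ← hqq]
    nlinarith [mul_le_mul_of_nonneg_left hl1 (sq_nonneg q)]
  have c4 : T * Real.exp (-(δ3 * xp h T)) ≤ K := by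
    refine le_trans (mul_le_mul_of_nonneg_left (Real.exp_le_exp.2 (neg_le_neg c3)) hT0.le) hK1
  have c5 : Len S (T ^ δ3) := by
    intro k hk
    refine ⟨(hS k hk).1, (hS k hk).2.trans ?_⟩
    rw [Real.rpow_def_of_pos hT0]
    refine Real.exp_le_exp.2 ?_
    rw [← hL]
    calc δ * E ≤ δ3 * L := mul_le_mul hδ2 hEL hE0.le hδ3.le
      _ = L * δ3 := mul_comm _ _
  have c6 : ∀ r : ℕ → ℂ, ∀ t, ‖RP S r t‖ ^ 2 ≤ Real.exp (δ3 * xp h T) * w1 S r := by
    intro r t
    refine (RP_sq_le r (by positivity) hS t).trans ?_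
    exact mul_le_mul_of_nonneg_right (Real.exp_le_exp.2 c3) (w1_nonneg S r)
  have M1 := H3 T hTT3 h c1 c2 K c4 hK2 S c5 r (c6 r)
  have M2 := (H3 T hTT3 h c1 c2 K c4 hK2 S c5 (dr r) (c6 (dr r))).2
  set w := w1 S r with hw
  have hw0 : 0 ≤ w := w1_nonneg S r
  have hK0 : 0 < K := lt_of_lt_of_le (by positivity) hK1
  set Q := K / (2 * Real.pi) * Real.log T with hQ
  have hQ0 : 0 < Q := by
    rw [hQ, ← hL]
    positivity
  set Z := Zf F T (T + K) with hZ
  -- the sum of the errors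
  set er : ℂ → ℝ := fun s => 2 * h * ((δ * E) * Mh S r h s.im + Mh S (dr r) h s.im / (δ * E))
    with her
  have hlam : 0 < δ * E := by positivity
  have er0 : ∀ s, 0 ≤ er s := fun s => by
    have a1 := Mh_nonneg (S := S) (r := r) (g := s.im) hh0
    have a2 := Mh_nonneg (S := S) (r := dr r) (g := s.im) hh0
    simp only [her]
    positivity
  have hpt : ∀ s : ℂ, |‖RP S r s.im‖ ^ 2 - Mh S r h s.im| ≤ er s := fun s =>
    point S r hh0 hlam s.im
  have hsum : ∑ s ∈ Z, (mult F s : ℝ) * er s ≤ ε / 8 * (Q * w) := by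
    have e1 : ∑ s ∈ Z, (mult F s : ℝ) * er s =
        2 * h * ((δ * E) * (∑ s ∈ Z, (mult F s : ℝ) * Mh S r h s.im) +
          (∑ s ∈ Z, (mult F s : ℝ) * Mh S (dr r) h s.im) / (δ * E)) := by
      rw [Finset.mul_sum, Finset.sum_div, ← Finset.sum_add_distrib, Finset.mul_sum]
      refine Finset.sum_congr rfl fun s _ => ?_
      simp only [her]
      ring
    rw [e1]
    have e2 : (∑ s ∈ Z, (mult F s : ℝ) * Mh S (dr r) h s.im) / (δ * E) ≤
        (δ * E) * ((1 + ε / 4) * (Q * w)) := by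
      rw [div_le_iff₀ hlam]
      have e3 := w1_dr (r := r) hS
      have e4 : (1 + ε / 4) * (Q * w1 S (dr r)) ≤ (1 + ε / 4) * (Q * ((δ * E) ^ 2 * w)) :=
        mul_le_mul_of_nonneg_left (mul_le_mul_of_nonneg_left e3 hQ0.le) (by positivity)
      refine (M2.trans e4).trans (le_of_eq ?_)
      ring
    have e5 : (δ * E) * (∑ s ∈ Z, (mult F s : ℝ) * Mh S r h s.im) ≤
        (δ * E) * ((1 + ε / 4) * (Q * w)) := mul_le_mul_of_nonneg_left M1.2 hlam.le
    have e6 := mul_le_mul_of_nonneg_left (add_le_add e5 e2) (show 0 ≤ 2 * h by positivity)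
    refine e6.trans ?_
    have e7 : 2 * h * (δ * E * ((1 + ε / 4) * (Q * w)) + δ * E * ((1 + ε / 4) * (Q * w))) =
        4 * (h * (δ * E)) * (1 + ε / 4) * (Q * w) := by ring
    rw [e7, hhE]
    have e8 : 0 ≤ Q * w := by positivity
    have e9 : 4 * (ε / 64) * (1 + ε / 4) ≤ ε / 8 := by nlinarith
    exact mul_le_mul_of_nonneg_right e9 e8
  constructor
  · have e1 : ∑ s ∈ Z.filter (fun s => s.re = 1 / 2 ∧ mult F s = 1), er s ≤
        ∑ s ∈ Z, (mult F s : ℝ) * er s := by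
      calc ∑ s ∈ Z.filter (fun s => s.re = 1 / 2 ∧ mult F s = 1), er s
          = ∑ s ∈ Z.filter (fun s => s.re = 1 / 2 ∧ mult F s = 1), (mult F s : ℝ) * er s := by
            refine Finset.sum_congr rfl fun s hs => ?_
            rw [(Finset.mem_filter.1 hs).2.2, Nat.cast_one, one_mul]
        _ ≤ _ := Finset.sum_le_sum_of_subset_of_nonneg (Finset.filter_subset _ _)
            fun s _ _ => mul_nonneg (Nat.cast_nonneg _) (er0 s)
    have e2 : ∑ s ∈ Z.filter (fun s => s.re = 1 / 2 ∧ mult F s = 1), Mh S r h s.im -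
        ∑ s ∈ Z.filter (fun s => s.re = 1 / 2 ∧ mult F s = 1), er s ≤
        ∑ s ∈ Z.filter (fun s => s.re = 1 / 2 ∧ mult F s = 1), ‖RP S r s.im‖ ^ 2 := by
      rw [← Finset.sum_sub_distrib]
      refine Finset.sum_le_sum fun s _ => ?_
      have := (abs_le.1 (hpt s)).1
      linarith
    have e3 := M1.1
    have e4 : 0 ≤ Q * w := by positivity
    have e5 : (0.6725 - ε) * (Q * w) ≤ (0.6725 - ε / 4) * (Q * w) - ε / 8 * (Q * w) := by
      have e6 := mul_le_mul_of_nonneg_right (show (0.6725 - ε) ≤ (0.6725 - ε / 4) - ε / 8 by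
        linarith) e4
      linarith
    refine e5.trans (le_trans ?_ e2)
    linarith [e1.trans hsum]
  · have e2 : ∑ s ∈ Z, (mult F s : ℝ) * ‖RP S r s.im‖ ^ 2 ≤
        ∑ s ∈ Z, (mult F s : ℝ) * Mh S r h s.im + ∑ s ∈ Z, (mult F s : ℝ) * er s := by
      rw [← Finset.sum_add_distrib]
      refine Finset.sum_le_sum fun s _ => ?_
      rw [← mul_add]
      refine mul_le_mul_of_nonneg_left ?_ (Nat.cast_nonneg _)
      have := (abs_le.1 (hpt s)).2
      linarith
    have e4 : 0 ≤ Q * w := by positivity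
    have e3 := M1.2
    have e5 : (1 + ε / 4) * (Q * w) + ε / 8 * (Q * w) ≤ (1 + ε) * (Q * w) := by
      have e6 := mul_le_mul_of_nonneg_right (show (1 + ε / 4) + ε / 8 ≤ 1 + ε by
        linarith) e4
      linarith
    refine e2.trans (le_trans ?_ e5)
    linarith

end Pool.Agent.N802.U
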