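import Pool.Agent.N802.U.Stm5
import Pool.Agent.N802.U.Direct

/-!
# Dirichlet polynomials with few terms at the zeros themselves
-/

open Complex Filter Topology Set MeasureTheory
open scoped BigOperators ComplexConjugate

namespace Pool.Agent.N802.U

open H370 TC Directaux

lemma RP_card (S : Finset ℕ) (r : ℕ → ℂ) (t : ℝ) :
    ‖RP S r t‖ ^ 2 ≤ (S.card : ℝ) * w1 S r := by
  have h1 : ‖RP S r t‖ ≤ ∑ k ∈ S, ‖r k‖ := by
    unfold RP TP
    refine (norm_sum_le _ _).trans (Finset.sum_le_sum fun k _ => ?_)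
    rw [norm_mul, mn_norm, mul_one]
  have h2 : (∑ k ∈ S, ‖r k‖) ^ 2 ≤ (S.card : ℝ) * ∑ k ∈ S, ‖r k‖ ^ 2 := sq_sum_le_card_mul_sum_sq
  exact (pow_le_pow_left₀ (norm_nonneg _) h1 2).trans h2

theorem direct5 {F : ℂ → ℂ} (h4 : S_sharp4 F) : S_direct5 F := by
  classical
  intro ε hε hε1
  obtain ⟨δ4, T4, hδ4, hT4, H4⟩ := h4 (ε / 4) (by linarith) (by linarith)
  obtain ⟨c0, hc0, hc1, hc2⟩ : ∃ c0 : ℝ, 0 < c0 ∧ c0 ≤ ε / 64 ∧ c0 ≤ δ4 :=
    ⟨min (ε / 64) δ4, lt_min (by positivity) hδ4, min_le_left _ _, min_le_right _ _⟩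
  obtain ⟨δ, hδ⟩ : ∃ δ : ℝ, δ = δ4 * c0 := ⟨_, rfl⟩
  have hδ0 : 0 < δ := by rw [hδ]; positivity
  have hδ1 : δ ≤ δ4 := by
    rw [hδ]
    have : c0 ≤ 1 := by linarith
    nlinarith
  have ev : ∀ᶠ T : ℝ in atTop, 1 ≤ Real.log T ∧ 1 ≤ Real.log (Real.log T) :=
    (Real.tendsto_log_atTop.eventually_ge_atTop _).and
      ((Real.tendsto_log_atTop.comp Real.tendsto_log_atTop).eventually_ge_atTop _)
  obtain ⟨T1, hT1⟩ := eventually_atTop.1 ev
  refine ⟨δ, max T4 T1, hδ0, hT4.trans (le_max_left _ _), ?_⟩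
  intro T hT N hN S hS hcard K hK1 hK2 r
  obtain ⟨hL1, hl1⟩ := hT1 T ((le_max_right _ _).trans hT)
  have hTT4 : T4 ≤ T := (le_max_left _ _).trans hT
  have hT0 : 0 < T := by linarith
  set L := Real.log T with hL
  set l := Real.log L with hldef
  have hL0 : 0 < L := by linarith
  have hl0 : 0 < l := by linarith
  have hX0 : 0 ≤ Real.log N := Real.log_nonneg hN
  set Y := 1 + Real.log N with hY
  have hY1 : 1 ≤ Y := by linarith
  have hY0 : 0 < Y := by linarith
  have hSN : Len S (Real.exp Y) := by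
    intro k hk
    refine ⟨(hS k hk).1, (hS k hk).2.trans ?_⟩
    rw [← Real.log_le_iff_le_exp (by linarith)]
    linarith
  have hM0 : 0 ≤ Real.log (S.card : ℝ) := Real.log_natCast_nonneg _
  have hl2 : 0 < l ^ 2 := by positivity
  have k1 : Y * l ^ 3 ≤ δ * L := by
    refine le_trans ?_ hcard
    calc Y * l ^ 3 = Y * (0 + l) * l ^ 2 := by ring
      _ ≤ Y * (Real.log (S.card : ℝ) + l) * l ^ 2 := by gcongr
  have k2 : Y * Real.log (S.card : ℝ) * l ^ 2 ≤ δ * L := by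
    refine le_trans ?_ hcard
    calc Y * Real.log (S.card : ℝ) * l ^ 2 = Y * (Real.log (S.card : ℝ) + 0) * l ^ 2 := by ring
      _ ≤ Y * (Real.log (S.card : ℝ) + l) * l ^ 2 := by gcongr
  set h := c0 / Y with hh
  have hh0 : 0 < h := by positivity
  have hhY : h * Y = c0 := by rw [hh]; field_simp
  have hxp : xp h T = c0 * (L / (Y * l ^ 2)) := by
    unfold xp
    rw [← hL, ← hldef, hh]
    field_simp
  have c1 : l ^ 3 / (δ4 * L) ≤ h := by
    rw [hh, div_le_div_iff₀ (by positivity) hY0]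
    calc l ^ 3 * Y = Y * l ^ 3 := by ring
      _ ≤ δ * L := k1
      _ = c0 * (δ4 * L) := by rw [hδ]; ring
  have c2 : h ≤ δ4 := by
    refine le_trans ?_ hc2
    rw [hh]
    exact div_le_self hc0.le hY1
  have c3 : δ * (L / (Y * l ^ 2)) = δ4 * xp h T := by
    rw [hxp, hδ]; ring
  have c4 : T * Real.exp (-(δ4 * xp h T)) ≤ K := by
    rw [← c3]
    exact hK1
  have c5 : Len S (T ^ δ4) := by
    intro k hk
    refine ⟨(hS k hk).1, (hS k hk).2.trans ?_⟩
    rw [Real.rpow_def_of_pos hT0, ← Real.log_le_iff_le_exp (by linarith), ← hL]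
    have h1 : Y ≤ Y * l ^ 3 := le_mul_of_one_le_right hY0.le (one_le_pow₀ hl1)
    calc Real.log N ≤ Y := by linarith
      _ ≤ δ * L := h1.trans k1
      _ ≤ δ4 * L := by gcongr
      _ = L * δ4 := mul_comm _ _
  have c6 : ∀ r : ℕ → ℂ, ∀ t, ‖RP S r t‖ ^ 2 ≤ Real.exp (δ4 * xp h T) * w1 S r := by
    intro r t
    have hw1 := w1_nonneg S r
    refine (RP_card S r t).trans ?_
    apply mul_le_mul_of_nonneg_right _ hw1
    rcases Nat.eq_zero_or_pos S.card with h0 | h0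
    · rw [h0, Nat.cast_zero]
      positivity
    · have h1 : (0 : ℝ) < S.card := by exact_mod_cast h0
      rw [← Real.log_le_iff_le_exp h1, ← c3, mul_div_assoc', le_div_iff₀ (by positivity)]
      calc Real.log (S.card : ℝ) * (Y * l ^ 2) = Y * Real.log (S.card : ℝ) * l ^ 2 := by ring
        _ ≤ _ := k2
  have M1 := H4 T hTT4 h c1 c2 K c4 hK2 S c5 r (c6 r)
  have M2 := (H4 T hTT4 h c1 c2 K c4 hK2 S c5 (dr r) (c6 (dr r))).2.1
  set w := w1 S r with hw
  have hw0 : 0 ≤ w := w1_nonneg S r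
  have hK0 : 0 < K := lt_of_lt_of_le (by positivity) hK1
  set Q := K / (2 * Real.pi) * Real.log T with hQ
  have hQ0 : 0 < Q := by
    rw [hQ, ← hL]
    positivity
  set Z := Zf F T (T + K) with hZ
  -- the sum of the errors
  set er : ℂ → ℝ := fun s => 2 * h * (Y * Mh S r h s.im + Mh S (dr r) h s.im / Y) with her
  have er0 : ∀ s, 0 ≤ er s := fun s => by
    have a1 := Mh_nonneg (S := S) (r := r) (g := s.im) hh0
    have a2 := Mh_nonneg (S := S) (r := dr r) (g := s.im) hh0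
    simp only [her]
    positivity
  have hpt : ∀ s : ℂ, |‖RP S r s.im‖ ^ 2 - Mh S r h s.im| ≤ er s := fun s =>
    Directaux.point S r hh0 hY0 s.im
  have hsum : ∑ s ∈ Z, (mult F s : ℝ) * er s ≤ ε / 8 * (Q * w) := by
    have e1 : ∑ s ∈ Z, (mult F s : ℝ) * er s =
        2 * h * (Y * (∑ s ∈ Z, (mult F s : ℝ) * Mh S r h s.im) +
          (∑ s ∈ Z, (mult F s : ℝ) * Mh S (dr r) h s.im) / Y) := by
      rw [Finset.mul_sum, Finset.sum_div, ← Finset.sum_add_distrib, Finset.mul_sum]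
      refine Finset.sum_congr rfl fun s _ => ?_
      simp only [her]
      ring
    rw [e1]
    have e2 : (∑ s ∈ Z, (mult F s : ℝ) * Mh S (dr r) h s.im) / Y ≤
        Y * ((1 + ε / 4) * (Q * w)) := by
      rw [div_le_iff₀ hY0]
      have e3 := w1_dr (r := r) hSN
      have e4 : (1 + ε / 4) * (Q * w1 S (dr r)) ≤ (1 + ε / 4) * (Q * (Y ^ 2 * w)) :=
        mul_le_mul_of_nonneg_left (mul_le_mul_of_nonneg_left e3 hQ0.le) (by positivity)
      refine (M2.trans e4).trans (le_of_eq ?_)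
      ring
    have e5 : Y * (∑ s ∈ Z, (mult F s : ℝ) * Mh S r h s.im) ≤
        Y * ((1 + ε / 4) * (Q * w)) := mul_le_mul_of_nonneg_left M1.2.1 hY0.le
    have e6 := mul_le_mul_of_nonneg_left (add_le_add e5 e2) (show 0 ≤ 2 * h by positivity)
    refine e6.trans ?_
    have e7 : 2 * h * (Y * ((1 + ε / 4) * (Q * w)) + Y * ((1 + ε / 4) * (Q * w))) =
        4 * (h * Y) * (1 + ε / 4) * (Q * w) := by ring
    rw [e7, hhY]
    have e8 : 0 ≤ Q * w := by positivity
    have e9 : 4 * c0 * (1 + ε / 4) ≤ ε / 8 := by nlinarith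
    exact mul_le_mul_of_nonneg_right e9 e8
  have e4 : 0 ≤ Q * w := by positivity
  refine ⟨?_, ?_, ?_⟩
  · have e1 : ∑ s ∈ Z.filter (fun s => s.re = 1 / 2 ∧ mult F s = 1), er s ≤
        ∑ s ∈ Z, (mult F s : ℝ) * er s := by
      calc ∑ s ∈ Z.filter (fun s => s.re = 1 / 2 ∧ mult F s = 1), er s
          = ∑ s ∈ Z.filter (fun s => s.re = 1 / 2 ∧ mult F s = 1), (mult F s : ℝ) * er s := by
            refine Finset.sum_congr rfl fun s hs => ?_
            rw [(Finset.mem_filter.1 hs).2.2, Nat.cast_one, one_mul]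
        _ ≤ _ := Finset.sum_le_sum_of_subset_of_nonneg (Finset.filter_subset _ _)
            fun s _ _ => mul_nonneg (Nat.cast_nonneg _) (er0 s)
    have e2 : ∑ s ∈ Z.filter (fun s => s.re = 1 / 2 ∧ mult F s = 1), Mh S r h s.im -
        ∑ s ∈ Z.filter (fun s => s.re = 1 / 2 ∧ mult F s = 1), er s ≤
        ∑ s ∈ Z.filter (fun s => s.re = 1 / 2 ∧ mult F s = 1), ‖RP S r s.im‖ ^ 2 := by
      rw [← Finset.sum_sub_distrib]
      refine Finset.sum_le_sum fun s _ => ?_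
      have := (abs_le.1 (hpt s)).1
      linarith
    have e3 := M1.1
    have e5 : (0.6725 - ε) * (Q * w) ≤ (0.6725 - ε / 4) * (Q * w) - ε / 8 * (Q * w) := by
      have e6 := mul_le_mul_of_nonneg_right (show (0.6725 - ε) ≤ (0.6725 - ε / 4) - ε / 8 by
        linarith) e4
      linarith
    refine e5.trans (le_trans ?_ e2)
    linarith [e1.trans hsum]
  · have e2 : ∑ s ∈ Z, (mult F s : ℝ) * ‖RP S r s.im‖ ^ 2 ≤
        ∑ s ∈ Z, (mult F s : ℝ) * Mh S r h s.im + ∑ s ∈ Z, (mult F s : ℝ) * er s := by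
      rw [← Finset.sum_add_distrib]
      refine Finset.sum_le_sum fun s _ => ?_
      rw [← mul_add]
      refine mul_le_mul_of_nonneg_left ?_ (Nat.cast_nonneg _)
      have := (abs_le.1 (hpt s)).2
      linarith
    have e3 := M1.2.1
    have e5 : (1 + ε / 4) * (Q * w) + ε / 8 * (Q * w) ≤ (1 + ε) * (Q * w) := by
      have e6 := mul_le_mul_of_nonneg_right (show (1 + ε / 4) + ε / 8 ≤ 1 + ε by
        linarith) e4
      linarith
    refine e2.trans (le_trans ?_ e5)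
    linarith
  · have e2 : ∑ s ∈ Z, (mult F s : ℝ) * Mh S r h s.im - ∑ s ∈ Z, (mult F s : ℝ) * er s ≤
        ∑ s ∈ Z, (mult F s : ℝ) * ‖RP S r s.im‖ ^ 2 := by
      rw [← Finset.sum_sub_distrib]
      refine Finset.sum_le_sum fun s _ => ?_
      rw [← mul_sub]
      refine mul_le_mul_of_nonneg_left ?_ (Nat.cast_nonneg _)
      have := (abs_le.1 (hpt s)).1
      linarith
    have e3 := M1.2.2
    have e5 : (1 - ε) * (Q * w) ≤ (1 - ε / 4) * (Q * w) - ε / 8 * (Q * w) := by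
      have e6 := mul_le_mul_of_nonneg_right (show (1 - ε) ≤ (1 - ε / 4) - ε / 8 by
        linarith) e4
      linarith
    refine e5.trans (le_trans ?_ e2)
    linarith

end Pool.Agent.N802.U
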