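import Pool.Agent.N802.U.Stm2
import Pool.Agent.N802.U.Fm

/-!
# The first moment of the prime side, weighted by `|R|²`, for all Dirichlet polynomials
(helper441)
-/

set_option linter.unusedVariables false

open Complex Filter Topology Set MeasureTheory
open scoped BigOperators ComplexConjugate

namespace Pool.Agent.N802.U

open TC (om om_pos om_cont om_integrable om_integral om_far lam lam_nonneg)

namespace Fm2aux

open FMaux

lemma len_smo {S : Finset ℕ} {K : ℝ} (h : Len S K) : Smo S K K := by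
  intro k hk
  refine ⟨(h k hk).1, (h k hk).2, fun p _ hpk => ?_⟩
  have h1 : p ≤ k := Nat.le_of_dvd (h k hk).1 hpk
  have h2 : (p : ℝ) ≤ k := by exact_mod_cast h1
  exact h2.trans (h k hk).2

/-- the sum of `Λ` over some divisors -/
lemma sum_div (k : ℕ) (hk : 0 < k) (P : Finset ℕ) :
    ∑ p ∈ P.filter (fun p => p ∣ k), ArithmeticFunction.vonMangoldt p ≤ Real.log k := by
  rw [← ArithmeticFunction.vonMangoldt_sum (n := k)]
  apply Finset.sum_le_sum_of_subset_of_nonneg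
  · intro p hp
    rw [Finset.mem_filter] at hp
    rw [Nat.mem_divisors]
    exact ⟨hp.2, hk.ne'⟩
  · intro i _ _
    exact ArithmeticFunction.vonMangoldt_nonneg

/-- the diagonal -/
lemma diag1 {S : Finset ℕ} {K0 ℓ A : ℝ} (hS : Len S K0) (hℓ : Real.log K0 ≤ ℓ) (r : ℕ → ℂ)
    (P : Finset ℕ) (c : ℕ → ℂ) (G : ℕ → ℝ) (hP : ∀ p ∈ P, 0 < p) (hG0 : ∀ n, 0 ≤ G n)
    (hc : ∀ n, ‖c n‖ ≤ lam n * G n)
    (hA : ∑ n ∈ P, ArithmeticFunction.vonMangoldt n / n * G n ^ 2 ≤ A) :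
    ‖∑ x ∈ ((S ×ˢ S) ×ˢ P).filter (fun x => x.1.1 * x.2 = x.1.2 * 1), uc r x.1 * c x.2‖ ≤
      Real.sqrt (A * ℓ) * w1 S r := by
  classical
  set F := ((S ×ˢ S) ×ˢ P).filter (fun x => x.1.1 * x.2 = x.1.2 * 1) with hF
  have hmem : ∀ x ∈ F, x.1.1 ∈ S ∧ x.1.2 ∈ S ∧ x.2 ∈ P ∧ x.1.1 * x.2 = x.1.2 := by
    intro x hx
    rw [hF, Finset.mem_filter, Finset.mem_product, Finset.mem_product, mul_one] at hx
    exact ⟨hx.1.1.1, hx.1.1.2, hx.1.2, hx.2⟩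
  set Λ := fun n : ℕ => ArithmeticFunction.vonMangoldt n with hΛ
  have hΛ0 : ∀ n, 0 ≤ Λ n := fun n => ArithmeticFunction.vonMangoldt_nonneg
  have hw := w1_nonneg S r
  set f := fun x : (ℕ × ℕ) × ℕ => ‖r x.1.1‖ * (Real.sqrt (Λ x.2 / x.2) * G x.2) with hf
  set g := fun x : (ℕ × ℕ) × ℕ => ‖r x.1.2‖ * Real.sqrt (Λ x.2) with hg
  have h1 : ‖∑ x ∈ F, uc r x.1 * c x.2‖ ≤ ∑ x ∈ F, f x * g x := by
    refine (norm_sum_le _ _).trans (Finset.sum_le_sum fun x _ => ?_)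
    unfold uc
    rw [norm_mul, norm_mul, RCLike.norm_conj]
    have h2 := hc x.2
    have h3 : lam x.2 = Real.sqrt (Λ x.2 / x.2) * Real.sqrt (Λ x.2) := by
      unfold lam
      rw [Real.sqrt_div (hΛ0 _), div_mul_eq_mul_div, Real.mul_self_sqrt (hΛ0 _)]
    rw [h3] at h2
    calc ‖r x.1.1‖ * ‖r x.1.2‖ * ‖c x.2‖ ≤
        ‖r x.1.1‖ * ‖r x.1.2‖ * (Real.sqrt (Λ x.2 / x.2) * Real.sqrt (Λ x.2) * G x.2) := by
          gcongr
      _ = f x * g x := by rw [hf, hg]; ring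
  have hf2 : ∑ x ∈ F, f x ^ 2 ≤ A * w1 S r := by
    have hinj : Set.InjOn (fun x : (ℕ × ℕ) × ℕ => (x.1.1, x.2)) F := by
      intro x hx y hy hxy
      have a1 := (hmem x hx).2.2.2
      have a2 := (hmem y hy).2.2.2
      simp only [Prod.mk.injEq] at hxy
      obtain ⟨⟨x1, x2⟩, x3⟩ := x
      obtain ⟨⟨y1, y2⟩, y3⟩ := y
      simp only at hxy a1 a2
      obtain ⟨rfl, rfl⟩ := hxy
      rw [a1] at a2
      rw [a2]
    set φ := fun y : ℕ × ℕ => ‖r y.1‖ ^ 2 * (Λ y.2 / y.2 * G y.2 ^ 2) with hφ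
    have e1 : ∑ x ∈ F, f x ^ 2 = ∑ y ∈ F.image (fun x : (ℕ × ℕ) × ℕ => (x.1.1, x.2)), φ y := by
      rw [Finset.sum_image hinj]
      refine Finset.sum_congr rfl fun x _ => ?_
      rw [hf, hφ]
      simp only
      rw [mul_pow, mul_pow, Real.sq_sqrt (div_nonneg (hΛ0 _) (Nat.cast_nonneg _))]
    rw [e1]
    calc _ ≤ ∑ y ∈ S ×ˢ P, φ y := by
          apply Finset.sum_le_sum_of_subset_of_nonneg
          · intro y hy
            rw [Finset.mem_image] at hy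
            obtain ⟨x, hx, rfl⟩ := hy
            rw [Finset.mem_product]
            exact ⟨(hmem x hx).1, (hmem x hx).2.2.1⟩
          · intro y _ _
            have := hΛ0 y.2
            simp only [hφ]
            positivity
      _ = w1 S r * ∑ n ∈ P, Λ n / n * G n ^ 2 := by
          unfold w1
          rw [Finset.sum_mul_sum, Finset.sum_product]
      _ ≤ w1 S r * A := mul_le_mul_of_nonneg_left hA hw
      _ = _ := mul_comm _ _
  have hg2 : ∑ x ∈ F, g x ^ 2 ≤ ℓ * w1 S r := by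
    have hinj : Set.InjOn (fun x : (ℕ × ℕ) × ℕ => (x.1.2, x.2)) F := by
      intro x hx y hy hxy
      have a1 := (hmem x hx).2.2.2
      have a2 := (hmem y hy).2.2.2
      have a3 := hP _ (hmem x hx).2.2.1
      simp only [Prod.mk.injEq] at hxy
      obtain ⟨⟨x1, x2⟩, x3⟩ := x
      obtain ⟨⟨y1, y2⟩, y3⟩ := y
      simp only at hxy a1 a2 a3
      obtain ⟨rfl, rfl⟩ := hxy
      rw [← a2] at a1
      rw [Nat.eq_of_mul_eq_mul_right a3 a1]
    set φ := fun y : ℕ × ℕ => ‖r y.1‖ ^ 2 * Λ y.2 with hφ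
    have e1 : ∑ x ∈ F, g x ^ 2 = ∑ y ∈ F.image (fun x : (ℕ × ℕ) × ℕ => (x.1.2, x.2)), φ y := by
      rw [Finset.sum_image hinj]
      refine Finset.sum_congr rfl fun x _ => ?_
      rw [hg, hφ]
      simp only
      rw [mul_pow, Real.sq_sqrt (hΛ0 _)]
    rw [e1]
    calc _ ≤ ∑ y ∈ (S ×ˢ P).filter (fun y => y.2 ∣ y.1), φ y := by
          apply Finset.sum_le_sum_of_subset_of_nonneg
          · intro y hy
            rw [Finset.mem_image] at hy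
            obtain ⟨x, hx, rfl⟩ := hy
            rw [Finset.mem_filter, Finset.mem_product]
            refine ⟨⟨(hmem x hx).2.1, (hmem x hx).2.2.1⟩, ?_⟩
            simp only
            rw [← (hmem x hx).2.2.2]
            exact Dvd.intro_left _ rfl
          · intro y _ _
            have := hΛ0 y.2
            simp only [hφ]
            positivity
      _ = ∑ k ∈ S, ‖r k‖ ^ 2 * ∑ p ∈ P.filter (fun p => p ∣ k), Λ p := by
          rw [Finset.sum_filter, Finset.sum_product]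
          refine Finset.sum_congr rfl fun k _ => ?_
          rw [Finset.mul_sum, Finset.sum_filter]
      _ ≤ ∑ k ∈ S, ‖r k‖ ^ 2 * ℓ := by
          refine Finset.sum_le_sum fun k hk => ?_
          apply mul_le_mul_of_nonneg_left _ (sq_nonneg _)
          have hk1 := (hS k hk).1
          have hk0 : (0 : ℝ) < k := by exact_mod_cast hk1
          exact (sum_div k hk1 P).trans ((Real.log_le_log hk0 (hS k hk).2).trans hℓ)
      _ = ℓ * w1 S r := by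
          unfold w1
          rw [← Finset.sum_mul, mul_comm]
  have h2 := Finset.sum_mul_sq_le_sq_mul_sq F f g
  have hA0 : 0 ≤ ∑ x ∈ F, f x ^ 2 := Finset.sum_nonneg fun _ _ => sq_nonneg _
  have hB0 : 0 ≤ ∑ x ∈ F, g x ^ 2 := Finset.sum_nonneg fun _ _ => sq_nonneg _
  have h3 : (∑ x ∈ F, f x * g x) ^ 2 ≤ (A * ℓ) * w1 S r ^ 2 := by
    calc _ ≤ (∑ x ∈ F, f x ^ 2) * ∑ x ∈ F, g x ^ 2 := h2
      _ ≤ (A * w1 S r) * (ℓ * w1 S r) := mul_le_mul hf2 hg2 hB0 (hA0.trans hf2)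
      _ = _ := by ring
  refine h1.trans ?_
  have h4 := Real.abs_le_sqrt h3
  refine (le_abs_self _).trans (h4.trans (le_of_eq ?_))
  rw [Real.sqrt_mul' _ (sq_nonneg _), Real.sqrt_sq hw]

/-- the sum of the absolute values of the coefficients -/
lemma n1_CS {X : ℕ} {A : ℝ} (P : Finset ℕ) (hPX : P ⊆ Finset.Icc 1 X) (c : ℕ → ℂ) (G : ℕ → ℝ)
    (hG0 : ∀ n, 0 ≤ G n) (hc : ∀ n, ‖c n‖ ≤ lam n * G n)
    (hA : ∑ n ∈ P, ArithmeticFunction.vonMangoldt n / n * G n ^ 2 ≤ A) :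
    n1 P c ≤ Real.sqrt (A * (6 * X)) := by
  set Λ := fun n : ℕ => ArithmeticFunction.vonMangoldt n with hΛ
  have hΛ0 : ∀ n, 0 ≤ Λ n := fun n => ArithmeticFunction.vonMangoldt_nonneg
  have h1 : n1 P c ≤ ∑ n ∈ P, (Real.sqrt (Λ n / n) * G n) * Real.sqrt (Λ n) := by
    unfold n1
    refine Finset.sum_le_sum fun n _ => ?_
    refine (hc n).trans (le_of_eq ?_)
    have h3 : lam n = Real.sqrt (Λ n / n) * Real.sqrt (Λ n) := by
      unfold lam
      rw [Real.sqrt_div (hΛ0 _), div_mul_eq_mul_div, Real.mul_self_sqrt (hΛ0 _)]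
    rw [h3]
    ring
  have h2 := Finset.sum_mul_sq_le_sq_mul_sq P (fun n => Real.sqrt (Λ n / n) * G n)
    (fun n => Real.sqrt (Λ n))
  have e1 : ∑ n ∈ P, (Real.sqrt (Λ n / n) * G n) ^ 2 = ∑ n ∈ P, Λ n / n * G n ^ 2 := by
    refine Finset.sum_congr rfl fun n _ => ?_
    rw [mul_pow, Real.sq_sqrt (div_nonneg (hΛ0 _) (Nat.cast_nonneg _))]
  have e2 : ∑ n ∈ P, (Real.sqrt (Λ n)) ^ 2 ≤ 6 * X := by
    refine le_trans ?_ (psi_le6 X)
    rw [Finset.sum_congr rfl fun n _ => Real.sq_sqrt (hΛ0 n)]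
    exact Finset.sum_le_sum_of_subset_of_nonneg hPX fun n _ _ => hΛ0 n
  rw [e1] at h2
  have h3 : 0 ≤ ∑ n ∈ P, Λ n / n * G n ^ 2 := Finset.sum_nonneg fun n _ => by
    have := hΛ0 n
    positivity
  have h4 : 0 ≤ ∑ n ∈ P, (Real.sqrt (Λ n)) ^ 2 := Finset.sum_nonneg fun _ _ => sq_nonneg _
  refine h1.trans ?_
  exact (le_abs_self _).trans (Real.abs_le_sqrt (h2.trans (mul_le_mul hA e2 h4 (h3.trans hA))))

/-- one side -/
lemma side {S : Finset ℕ} {K0 ℓ H τ A B : ℝ} {X : ℕ} (hS : Len S K0) (hK : 1 ≤ K0)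
    (hℓ : Real.log K0 ≤ ℓ) (hH : 0 < H) (r : ℕ → ℂ) (c : ℕ → ℂ) (G : ℕ → ℝ)
    (hG0 : ∀ n, 0 ≤ G n) (hc : ∀ n, ‖c n‖ ≤ lam n * G n)
    (hA : ∑ n ∈ Finset.Icc 1 X, ArithmeticFunction.vonMangoldt n / n * G n ^ 2 ≤ A)
    (hB : ∑ n ∈ (Finset.Icc 1 X).filter (fun n => ¬ n.Prime), lam n * G n ≤ B)
    (hI : (∫ t, om τ H t * ‖RP S r t‖ ^ 2) ≤ 2 * (Real.sqrt (2 * Real.pi) * H * w1 S r)) :
    ‖∫ t, (om τ H t : ℂ) * (((‖RP S r t‖ ^ 2 : ℝ) : ℂ) * RP (Finset.Icc 1 X) c t)‖ ≤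
      Real.sqrt (2 * Real.pi) * H * w1 S r * (Real.sqrt (A * ℓ) + 2 * B +
        Real.sqrt (A * (6 * X)) * (K0 * Real.exp (-(H ^ 2) / (8 * K0 ^ 2)))) := by
  have hw := w1_nonneg S r
  obtain ⟨P, hP⟩ : ∃ P, P = (Finset.Icc 1 X).filter (fun n => n.Prime) := ⟨_, rfl⟩
  obtain ⟨Q, hQ⟩ : ∃ Q, Q = (Finset.Icc 1 X).filter (fun n => ¬ n.Prime) := ⟨_, rfl⟩
  have hPX : P ⊆ Finset.Icc 1 X := by
    rw [hP]
    exact Finset.filter_subset _ _
  have hP0 : ∀ p ∈ P, 0 < p := by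
    intro p hp
    have := Finset.mem_Icc.mp (hPX hp)
    omega
  have hAP : ∑ n ∈ P, ArithmeticFunction.vonMangoldt n / n * G n ^ 2 ≤ A := by
    refine le_trans ?_ hA
    apply Finset.sum_le_sum_of_subset_of_nonneg hPX
    intro n _ _
    have : 0 ≤ ArithmeticFunction.vonMangoldt n := ArithmeticFunction.vonMangoldt_nonneg
    positivity
  have hsplit : ∀ t, RP (Finset.Icc 1 X) c t = RP P c t + RP Q c t := by
    intro t
    unfold RP TP
    rw [hP, hQ, Finset.sum_filter_add_sum_filter_not]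
  have hn : ∀ (N : Finset ℕ) (t : ℝ), ‖RP N c t‖ ≤ n1 N c :=
    fun N t => TP_norm_le _ _ _ _ _
  have hRc : ∀ (N : Finset ℕ), Continuous (fun t => RP N c t) :=
    fun N => TP_cont _ _ _ _
  have q1 : Integrable (fun t => (om τ H t : ℂ) * (((‖RP S r t‖ ^ 2 : ℝ) : ℂ) * RP P c t)) :=
    rho_int hH (hRc _) (hn _)
  have q2 : Integrable (fun t => (om τ H t : ℂ) * (((‖RP S r t‖ ^ 2 : ℝ) : ℂ) * RP Q c t)) :=
    rho_int hH (hRc _) (hn _)
  have e : ∫ t, (om τ H t : ℂ) * (((‖RP S r t‖ ^ 2 : ℝ) : ℂ) * RP (Finset.Icc 1 X) c t) =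
      (∫ t, (om τ H t : ℂ) * (((‖RP S r t‖ ^ 2 : ℝ) : ℂ) * RP P c t)) +
      ∫ t, (om τ H t : ℂ) * (((‖RP S r t‖ ^ 2 : ℝ) : ℂ) * RP Q c t) := by
    rw [← integral_add q1 q2]
    congr 1
    funext t
    rw [hsplit t]
    ring
  rw [e]
  -- the non-primes
  have hI0 : 0 ≤ ∫ t, om τ H t * ‖RP S r t‖ ^ 2 := integral_nonneg fun t => by
    have := om_pos τ H t
    positivity
  have hQn : n1 Q c ≤ B := by
    refine le_trans ?_ hB
    rw [← hQ]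
    unfold n1
    exact Finset.sum_le_sum fun n _ => hc n
  have hB0 : 0 ≤ B := (n1_nonneg Q c).trans hQn
  have p2 : ‖∫ t, (om τ H t : ℂ) * (((‖RP S r t‖ ^ 2 : ℝ) : ℂ) * RP Q c t)‖ ≤
      Real.sqrt (2 * Real.pi) * H * w1 S r * (2 * B) := by
    have h1 : ‖∫ t, (om τ H t : ℂ) * (((‖RP S r t‖ ^ 2 : ℝ) : ℂ) * RP Q c t)‖ ≤
      n1 Q c * ∫ t, om τ H t * ‖RP S r t‖ ^ 2 := int_bd hH (hn _)
    refine h1.trans ?_
    calc n1 Q c * ∫ t, om τ H t * ‖RP S r t‖ ^ 2 ≤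
        B * (2 * (Real.sqrt (2 * Real.pi) * H * w1 S r)) := mul_le_mul hQn hI hI0 hB0
      _ = _ := by ring
  -- the primes
  have hS0 : ∀ k ∈ S, 0 < k := fun k hk => (hS k hk).1
  have h1 := om_TP ((S ×ˢ S) ×ˢ P) (fun x => uc r x.1 * c x.2) (fun x => x.1.1 * x.2)
    (fun x => x.1.2 * 1) τ H K0 hH
    (fun x hx => by
      rw [Finset.mem_product, Finset.mem_product] at hx
      exact Nat.mul_pos (hS0 _ hx.1.1) (hP0 _ hx.2))
    (fun x hx => by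
      rw [Finset.mem_product, Finset.mem_product] at hx
      rw [mul_one]
      exact hS0 _ hx.1.2)
    (fun x hx => by
      rw [Finset.mem_product, Finset.mem_product] at hx
      have h2 := (hS _ hx.1.2).2
      have h3 : ((min (x.1.1 * x.2) (x.1.2 * 1) : ℕ) : ℝ) ≤ (x.1.2 : ℝ) := by
        exact_mod_cast (min_le_right _ _).trans (by rw [mul_one])
      linarith)
  rw [n1_mul, n1_uc] at h1
  have e2 : ∀ t, (om τ H t : ℂ) * (((‖RP S r t‖ ^ 2 : ℝ) : ℂ) * RP P c t) = (om τ H t : ℂ) *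
      TP ((S ×ˢ S) ×ˢ P) (fun x => uc r x.1 * c x.2) (fun x => x.1.1 * x.2)
        (fun x => x.1.2 * 1) t := fun t => by rw [UD_eq S r hS0 P c hP0 t]
  have hd := diag1 hS hℓ r P c G hP0 hG0 hc hAP
  have hnP := n1_CS P hPX c G hG0 hc hAP
  have h4 : n1 S r ^ 2 ≤ K0 * w1 S r := n1_sq_le S r hS hK
  have hM : 0 ≤ Real.sqrt (2 * Real.pi) * H := by positivity
  have hE := Real.exp_pos (-(H ^ 2) / (8 * K0 ^ 2))
  have p1 : ‖∫ t, (om τ H t : ℂ) * (((‖RP S r t‖ ^ 2 : ℝ) : ℂ) * RP P c t)‖ ≤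
      Real.sqrt (2 * Real.pi) * H * w1 S r * (Real.sqrt (A * ℓ) +
        Real.sqrt (A * (6 * X)) * (K0 * Real.exp (-(H ^ 2) / (8 * K0 ^ 2)))) := by
    simp_rw [e2]
    have h5 := norm_le_norm_add_norm_sub'
      (∫ t, (om τ H t : ℂ) * TP ((S ×ˢ S) ×ˢ P) (fun x => uc r x.1 * c x.2)
        (fun x => x.1.1 * x.2) (fun x => x.1.2 * 1) t)
      (((Real.sqrt (2 * Real.pi) * H : ℝ) : ℂ) *
        ∑ x ∈ ((S ×ˢ S) ×ˢ P).filter (fun x => x.1.1 * x.2 = x.1.2 * 1), uc r x.1 * c x.2)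
    refine h5.trans ?_
    have h6 : ‖((Real.sqrt (2 * Real.pi) * H : ℝ) : ℂ) *
        ∑ x ∈ ((S ×ˢ S) ×ˢ P).filter (fun x => x.1.1 * x.2 = x.1.2 * 1), uc r x.1 * c x.2‖ ≤
        Real.sqrt (2 * Real.pi) * H * (Real.sqrt (A * ℓ) * w1 S r) := by
      rw [norm_mul, Complex.norm_real, Real.norm_eq_abs, abs_of_nonneg hM]
      exact mul_le_mul_of_nonneg_left hd hM
    refine (add_le_add h6 h1).trans ?_
    have h7 : n1 S r ^ 2 * n1 P c * Real.exp (-(H ^ 2) / (8 * K0 ^ 2)) ≤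
        (K0 * w1 S r) * Real.sqrt (A * (6 * X)) * Real.exp (-(H ^ 2) / (8 * K0 ^ 2)) := by
      have := n1_nonneg P c
      gcongr
    have h8 := mul_le_mul_of_nonneg_left h7 hM
    calc _ ≤ Real.sqrt (2 * Real.pi) * H * (Real.sqrt (A * ℓ) * w1 S r) +
        Real.sqrt (2 * Real.pi) * H * ((K0 * w1 S r) * Real.sqrt (A * (6 * X)) *
          Real.exp (-(H ^ 2) / (8 * K0 ^ 2))) := by linarith
      _ = _ := by ring
  refine (norm_add_le _ _).trans ((add_le_add p1 p2).trans (le_of_eq ?_))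
  ring

lemma ca_G {a : ℕ → ℂ} {w : ℝ → ℂ} (ha : ∀ n, ‖a n‖ ≤ ArithmeticFunction.vonMangoldt n) (n : ℕ) :
    ‖ca a w n‖ ≤ lam n * ‖gs w (0 - Real.log n)‖ := by
  unfold ca lam
  have h1 : ‖((Real.sqrt n : ℂ))⁻¹‖ = (Real.sqrt n)⁻¹ := by
    rw [norm_inv, Complex.norm_real, Real.norm_eq_abs, abs_of_nonneg (Real.sqrt_nonneg _)]
  rw [norm_mul, norm_mul, h1]
  have h2 := ha n
  have h4 : 0 ≤ (Real.sqrt (n : ℝ))⁻¹ := by positivity
  calc ‖a n‖ * (Real.sqrt n)⁻¹ * ‖gs w (0 - Real.log n)‖ ≤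
      ArithmeticFunction.vonMangoldt n * (Real.sqrt n)⁻¹ * ‖gs w (0 - Real.log n)‖ := by gcongr
    _ = _ := by ring

lemma cb_G {a : ℕ → ℂ} {w : ℝ → ℂ} (ha : ∀ n, ‖a n‖ ≤ ArithmeticFunction.vonMangoldt n) (n : ℕ) :
    ‖cb a w n‖ ≤ lam n * ‖gs w (0 + Real.log n)‖ := by
  unfold cb lam
  have h1 : ‖((Real.sqrt n : ℂ))⁻¹‖ = (Real.sqrt n)⁻¹ := by
    rw [norm_inv, Complex.norm_real, Real.norm_eq_abs, abs_of_nonneg (Real.sqrt_nonneg _)]
  rw [RCLike.norm_conj, norm_mul, norm_mul, h1, RCLike.norm_conj]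
  have h2 := ha n
  have h4 : 0 ≤ (Real.sqrt (n : ℝ))⁻¹ := by positivity
  calc ‖a n‖ * (Real.sqrt n)⁻¹ * ‖gs w (0 + Real.log n)‖ ≤
      ArithmeticFunction.vonMangoldt n * (Real.sqrt n)⁻¹ * ‖gs w (0 + Real.log n)‖ := by gcongr
    _ = _ := by ring

/-- the numerical facts, `δ = 1 / 4` -/
lemma nums {T H : ℝ} (hT : 20000 ≤ T) (hH : T ^ (1 - 1 / 4 : ℝ) ≤ H) :
    1 ≤ T ^ (1 / 4 : ℝ) ∧ 0 < H ∧ 1 ≤ Real.log T ∧ Real.log T ≤ T ∧
    Real.log (T ^ (1 / 4 : ℝ)) ≤ Real.log T ∧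
    6 * T * (T ^ (1 / 4 : ℝ) * Real.exp (-(H ^ 2) / (8 * (T ^ (1 / 4 : ℝ)) ^ 2))) ≤ 1 := by
  have hT0 : 0 < T := by linarith
  have hT1 : 1 ≤ T := by linarith
  have hK1 : 1 ≤ T ^ (1 / 4 : ℝ) := Real.one_le_rpow hT1 (by norm_num)
  have hℓ : 1 ≤ Real.log T := by
    rw [Real.le_log_iff_exp_le hT0]
    have := Real.exp_one_lt_d9
    linarith
  have hℓT : Real.log T ≤ T := by
    have := Real.log_le_sub_one_of_pos hT0
    linarith
  have hH0 : 0 < H := lt_of_lt_of_le (by positivity) hH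
  refine ⟨hK1, hH0, hℓ, hℓT, ?_, ?_⟩
  · rw [Real.log_rpow hT0]
    linarith
  · have hKT : T ^ (1 / 4 : ℝ) ≤ T := by
      calc T ^ (1 / 4 : ℝ) ≤ T ^ (1 : ℝ) := Real.rpow_le_rpow_of_exponent_le hT1 (by norm_num)
        _ = T := Real.rpow_one T
    have h1 : Real.exp (-(H ^ 2) / (8 * (T ^ (1 / 4 : ℝ)) ^ 2)) ≤ Real.exp (-(T / 8)) := by
      apply Real.exp_le_exp.mpr
      rw [neg_div]
      apply neg_le_neg
      rw [le_div_iff₀ (by positivity)]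
      have e1 : T * (T ^ (1 / 4 : ℝ)) ^ 2 = (T ^ (1 - 1 / 4 : ℝ)) ^ 2 := by
        rw [← Real.rpow_natCast, ← Real.rpow_natCast, ← Real.rpow_mul hT0.le,
          ← Real.rpow_mul hT0.le]
        nth_rewrite 1 [← Real.rpow_one T]
        rw [← Real.rpow_add hT0]
        norm_num
      have h2 : (T ^ (1 - 1 / 4 : ℝ)) ^ 2 ≤ H ^ 2 := pow_le_pow_left₀ (by positivity) hH 2
      calc T / 8 * (8 * (T ^ (1 / 4 : ℝ)) ^ 2) = T * (T ^ (1 / 4 : ℝ)) ^ 2 := by ring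
        _ = (T ^ (1 - 1 / 4 : ℝ)) ^ 2 := e1
        _ ≤ H ^ 2 := h2
    have h3 : (T / 8) ^ 3 / 6 ≤ Real.exp (T / 8) := by
      have := Real.pow_div_factorial_le_exp (T / 8) (by positivity) 3
      simpa [Nat.factorial] using this
    have h4 : T ^ 2 * 6 ≤ Real.exp (T / 8) := by
      refine le_trans ?_ h3
      have : 0 ≤ T ^ 2 := by positivity
      nlinarith
    rw [Real.exp_neg] at h1
    have hE := Real.exp_pos (T / 8)
    calc 6 * T * (T ^ (1 / 4 : ℝ) * Real.exp (-(H ^ 2) / (8 * (T ^ (1 / 4 : ℝ)) ^ 2))) ≤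
        6 * T * (T * (Real.exp (T / 8))⁻¹) := by gcongr
      _ = (T ^ 2 * 6) * (Real.exp (T / 8))⁻¹ := by ring
      _ ≤ Real.exp (T / 8) * (Real.exp (T / 8))⁻¹ := by gcongr
      _ = 1 := mul_inv_cancel₀ hE.ne'

lemma six {X T : ℝ} (h1 : 1 ≤ T) (h : X ≤ T) : Real.sqrt (6 * X) ≤ 6 * T := by
  rw [Real.sqrt_le_left (by linarith)]
  nlinarith

lemma te {T e : ℝ} (h1 : 1 ≤ T) (he : 0 ≤ e) (h : 6 * T * e ≤ 1) : e ≤ 1 ∧ T * e ≤ 1 := by
  constructor <;> nlinarith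

lemma sqC {C : ℝ} (hC : 1 ≤ C) : Real.sqrt C ≤ C := by
  rw [Real.sqrt_le_left (by linarith)]
  nlinarith

lemma g4 {C q g l : ℝ} (hl : 0.69 ≤ l) (hg : 0 ≤ g) (h : l / 2 * g ≤ C * q) :
    g ≤ (4 * C) * q := by
  nlinarith

lemma sq4 {C : ℝ} (hC : 1 ≤ C) : Real.sqrt (4 * C) ≤ 2 * C := by
  rw [Real.sqrt_le_left (by linarith)]
  nlinarith

lemma lin3 {f0 f1 f2 : ℝ → ℂ} (h0 : Integrable f0) (h1 : Integrable f1)
    (h2 : Integrable f2) :
    ∫ t, (f0 t - f1 t - f2 t) = (∫ t, f0 t) - (∫ t, f1 t) - ∫ t, f2 t := by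
  have e1 : ∫ t, (f0 t - f1 t - f2 t) = (∫ t, (f0 t - f1 t)) - ∫ t, f2 t :=
    integral_sub (h0.sub h1) h2
  have e2 : ∫ t, (f0 t - f1 t) = (∫ t, f0 t) - ∫ t, f1 t := integral_sub h0 h1
  rw [e1, e2]

end Fm2aux

open FMaux Fm2aux

/-- the first moment of the prime side, all Dirichlet polynomials -/
theorem fm2 (hch : S_ch) : S_fm2 := by
  obtain ⟨C, hC, hch⟩ := hch
  intro η hη hη1
  refine ⟨1 / 4, 20000, 11 * C, by norm_num, by norm_num, by positivity, ?_⟩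
  intro T hT a ha S hS r b W w hBW hb hbL τ H hH
  obtain ⟨hK1, hH0, hℓ1, hℓT, hlogK, hE⟩ := nums hT hH
  have hT0 : 0 < T := by linarith
  have hT1 : 1 ≤ T := by linarith
  obtain ⟨-, -, hch⟩ := hch b W w hb hBW
  have hq : 0 ≤ q2 w := integral_nonneg fun v => sq_nonneg _
  have hXT : ((⌊T ^ (1 - η)⌋₊ : ℕ) : ℝ) ≤ T := by
    have h1 : ((⌊T ^ (1 - η)⌋₊ : ℕ) : ℝ) ≤ T ^ (1 - η) := Nat.floor_le (by positivity)
    refine h1.trans ?_
    calc T ^ (1 - η) ≤ T ^ (1 : ℝ) := Real.rpow_le_rpow_of_exponent_le hT1 (by linarith)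
      _ = T := Real.rpow_one T
  generalize ⌊T ^ (1 - η)⌋₊ = X at *
  -- the value at zero
  have hg0 : ‖gs w 0‖ ≤ 2 * C * Real.sqrt (q2 w) := by
    obtain ⟨-, h2, -⟩ := hch 2 (Real.log 2) (fun n => Real.log 2 - Real.log n)
      (Or.inl fun n => rfl)
    have h3 : ArithmeticFunction.vonMangoldt 2 / (2 : ℕ) *
        ‖gs w (Real.log 2 - Real.log (2 : ℕ))‖ ^ 2 ≤ C * q2 w := by
      refine le_trans ?_ h2
      refine Finset.single_le_sum (f := fun n : ℕ => ArithmeticFunction.vonMangoldt n / n *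
        ‖gs w (Real.log 2 - Real.log n)‖ ^ 2) (fun n _ => ?_) (by simp)
      have : 0 ≤ ArithmeticFunction.vonMangoldt n := ArithmeticFunction.vonMangoldt_nonneg
      positivity
    rw [ArithmeticFunction.vonMangoldt_apply_prime Nat.prime_two] at h3
    push_cast at h3
    rw [sub_self] at h3
    have hl2 := Real.log_two_gt_d9
    have h4 : ‖gs w 0‖ ^ 2 ≤ (4 * C) * q2 w := g4 (by linarith) (sq_nonneg _) h3
    have h6 := Real.abs_le_sqrt h4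
    rw [abs_of_nonneg (norm_nonneg _), Real.sqrt_mul (by positivity)] at h6
    exact h6.trans (mul_le_mul_of_nonneg_right (sq4 hC) (Real.sqrt_nonneg _))
  have i0 := int0 (len_smo hS) hK1 hH0 τ r
  have hw := w1_nonneg S r
  have hM0 : 0 ≤ Real.sqrt (2 * Real.pi) * H * w1 S r := by positivity
  have hlogK' := hlogK
  obtain ⟨K0, hK0⟩ : ∃ K0, K0 = T ^ (1 / 4 : ℝ) := ⟨_, rfl⟩
  rw [← hK0] at hK1 hlogK hE i0 hS
  obtain ⟨e0, he0⟩ : ∃ e0, e0 = K0 * Real.exp (-(H ^ 2) / (8 * K0 ^ 2)) := ⟨_, rfl⟩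
  have he00 : 0 ≤ e0 := by
    rw [he0]
    have := Real.exp_pos (-(H ^ 2) / (8 * K0 ^ 2))
    positivity
  rw [← he0] at hE i0
  obtain ⟨he1, hTe⟩ := te hT1 he00 hE
  have hI : (∫ t, om τ H t * ‖RP S r t‖ ^ 2) ≤ 2 * (Real.sqrt (2 * Real.pi) * H * w1 S r) := by
    have h2 := (abs_le.mp i0).2
    have h3 := mul_le_mul_of_nonneg_left he1 hM0
    linarith
  have ha1 := hch X 0 (fun n => 0 - Real.log n) (Or.inl fun n => rfl)
  have hb1 := hch X 0 (fun n => 0 + Real.log n) (Or.inr fun n => rfl)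
  have sa := side (τ := τ) hS hK1 hlogK hH0 r (ca a w) (fun n => ‖gs w (0 - Real.log n)‖)
    (fun n => norm_nonneg _) (ca_G ha) ha1.2.1 ha1.2.2 hI
  have sb := side (τ := τ) hS hK1 hlogK hH0 r (cb a w) (fun n => ‖gs w (0 + Real.log n)‖)
    (fun n => norm_nonneg _) (cb_G ha) hb1.2.1 hb1.2.2 hI
  rw [← he0] at sa sb
  -- the bound for one side
  set Q := Real.sqrt (Real.log T * q2 w) with hQ
  have hQ0 : 0 ≤ Q := Real.sqrt_nonneg _
  have hqQ : Real.sqrt (q2 w) ≤ Q := Real.sqrt_le_sqrt (le_mul_of_one_le_left hq hℓ1)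
  have hCC : Real.sqrt C ≤ C := sqC hC
  have b1 : Real.sqrt (C * q2 w * Real.log T) ≤ C * Q := by
    rw [show C * q2 w * Real.log T = C * (Real.log T * q2 w) by ring,
      Real.sqrt_mul (by linarith)]
    exact mul_le_mul_of_nonneg_right hCC hQ0
  have b2 : C * Real.sqrt (b * q2 w) ≤ C * Q := by
    apply mul_le_mul_of_nonneg_left _ (by linarith)
    exact Real.sqrt_le_sqrt (mul_le_mul_of_nonneg_right hbL hq)
  have b3 : Real.sqrt (C * q2 w * (6 * X)) * e0 ≤ C * Q := by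
    have h1 : Real.sqrt (C * q2 w * (6 * X)) ≤ C * Real.sqrt (q2 w) * (6 * T) := by
      rw [show C * q2 w * (6 * (X : ℝ)) = C * (q2 w * (6 * X)) by ring,
        Real.sqrt_mul (by linarith), Real.sqrt_mul hq, mul_assoc]
      apply mul_le_mul hCC _ (by positivity) (by linarith)
      exact mul_le_mul_of_nonneg_left (six hT1 hXT) (Real.sqrt_nonneg _)
    calc _ ≤ C * Real.sqrt (q2 w) * (6 * T) * e0 := mul_le_mul_of_nonneg_right h1 he00
      _ = C * Real.sqrt (q2 w) * (6 * T * e0) := by ring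
      _ ≤ C * Real.sqrt (q2 w) * 1 := mul_le_mul_of_nonneg_left hE (by positivity)
      _ ≤ C * Q := by
        rw [mul_one]
        exact mul_le_mul_of_nonneg_left hqQ (by linarith)
  have hside : Real.sqrt (C * q2 w * Real.log T) + 2 * (C * Real.sqrt (b * q2 w)) +
      Real.sqrt (C * q2 w * (6 * X)) * e0 ≤ 4 * (C * Q) := by linarith
  have sa' := sa.trans (mul_le_mul_of_nonneg_left hside hM0)
  have sb' := sb.trans (mul_le_mul_of_nonneg_left hside hM0)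
  -- the integral
  have hn : ∀ (N : Finset ℕ) (c : ℕ → ℂ) (t : ℝ), ‖RP N c t‖ ≤ n1 N c :=
    fun N c t => TP_norm_le _ _ _ _ _
  have hRc : ∀ (N : Finset ℕ) (c : ℕ → ℂ), Continuous (fun t => RP N c t) :=
    fun N c => TP_cont _ _ _ _
  have q1 : Integrable (fun t => (om τ H t : ℂ) * (((‖RP S r t‖ ^ 2 : ℝ) : ℂ) *
      RP (Finset.Icc 1 X) (ca a w) t)) := rho_int hH0 (hRc _ _) (hn _ _)
  have q2' : Integrable (fun t => (om τ H t : ℂ) * (((‖RP S r t‖ ^ 2 : ℝ) : ℂ) *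
      conj (RP (Finset.Icc 1 X) (cb a w) t))) :=
    rho_int hH0 (Complex.continuous_conj.comp (hRc _ _))
        (fun t => by rw [RCLike.norm_conj]; exact hn _ _ t)
  have q0 : Integrable (fun t => (om τ H t : ℂ) * (((‖RP S r t‖ ^ 2 : ℝ) : ℂ) *
      ((Real.log T : ℂ) * gs w 0))) := rho_int hH0 continuous_const (fun t => le_rfl)
  have e0' : ∫ t, (om τ H t : ℂ) * (((‖RP S r t‖ ^ 2 : ℝ) : ℂ) * ((Real.log T : ℂ) * gs w 0)) =
      ((∫ t, om τ H t * ‖RP S r t‖ ^ 2 : ℝ) : ℂ) * ((Real.log T : ℂ) * gs w 0) := by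
    rw [← integral_complex_ofReal, ← integral_mul_const]
    congr 1
    funext t
    push_cast
    ring
  have eI : ∫ t : ℝ, (rh τ H S r t : ℂ) * PD a X w (Real.log T) 0 t =
      (∫ t, (om τ H t : ℂ) * (((‖RP S r t‖ ^ 2 : ℝ) : ℂ) * ((Real.log T : ℂ) * gs w 0))) -
      (∫ t, (om τ H t : ℂ) * (((‖RP S r t‖ ^ 2 : ℝ) : ℂ) * RP (Finset.Icc 1 X) (ca a w) t)) -
      conj (∫ t, (om τ H t : ℂ) * (((‖RP S r t‖ ^ 2 : ℝ) : ℂ) *
        RP (Finset.Icc 1 X) (cb a w) t)) := by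
    rw [← conj_int, ← lin3 q0 q1 q2']
    congr 1
    funext t
    rw [PD_eq]
    unfold rh
    push_cast
    ring
  rw [eI, e0']
  have hmr : mr H S r = Real.sqrt (2 * Real.pi) * H * w1 S r := rfl
  rw [hmr]
  generalize Real.sqrt (2 * Real.pi) * H * w1 S r = M0 at *
  generalize (∫ t, (om τ H t : ℂ) * (((‖RP S r t‖ ^ 2 : ℝ) : ℂ) *
    RP (Finset.Icc 1 X) (ca a w) t)) = Ia at *
  generalize (∫ t, (om τ H t : ℂ) * (((‖RP S r t‖ ^ 2 : ℝ) : ℂ) *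
    RP (Finset.Icc 1 X) (cb a w) t)) = Ib at *
  generalize (∫ t, om τ H t * ‖RP S r t‖ ^ 2) = I1 at *
  have e5 : (I1 : ℂ) * ((Real.log T : ℂ) * gs w 0) - Ia - conj Ib -
      ((M0 * Real.log T : ℝ) : ℂ) * gs w 0 =
      ((I1 - M0 : ℝ) : ℂ) * ((Real.log T : ℂ) * gs w 0) - Ia - conj Ib := by
    push_cast
    ring
  rw [e5]
  have n1' := norm_sub_le (((I1 - M0 : ℝ) : ℂ) * ((Real.log T : ℂ) * gs w 0) - Ia) (conj Ib)
  have n2' := norm_sub_le (((I1 - M0 : ℝ) : ℂ) * ((Real.log T : ℂ) * gs w 0)) Ia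
  rw [RCLike.norm_conj] at n1'
  have m0 : ‖((I1 - M0 : ℝ) : ℂ) * ((Real.log T : ℂ) * gs w 0)‖ ≤ M0 * (3 * (C * Q)) := by
    rw [norm_mul, norm_mul, Complex.norm_real, Complex.norm_real, Real.norm_eq_abs,
      Real.norm_eq_abs, abs_of_pos (by linarith : 0 < Real.log T)]
    calc |I1 - M0| * (Real.log T * ‖gs w 0‖) ≤ (M0 * e0) * (T * (2 * C * Real.sqrt (q2 w))) := by
          apply mul_le_mul i0 _ (by positivity) (mul_nonneg hM0 he00)
          apply mul_le_mul hℓT hg0 (norm_nonneg _) hT0.le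
      _ = M0 * ((2 * C * Real.sqrt (q2 w)) * (T * e0)) := by ring
      _ ≤ M0 * ((2 * C * Q) * 1) := by
          apply mul_le_mul_of_nonneg_left _ hM0
          apply mul_le_mul _ hTe (mul_nonneg hT0.le he00) (by positivity)
          exact mul_le_mul_of_nonneg_left hqQ (by linarith)
      _ ≤ M0 * (3 * (C * Q)) := by
          apply mul_le_mul_of_nonneg_left _ hM0
          have : 0 ≤ C * Q := by positivity
          linarith
  calc _ ≤ M0 * (3 * (C * Q)) + M0 * (4 * (C * Q)) + M0 * (4 * (C * Q)) := by linarith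
    _ = 11 * C * (M0 * Q) := by ring

end Pool.Agent.N802.U
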