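import Pool.Agent.N802.U.Stm2
import Pool.Agent.N802.U.Ms

/-!
# The mean square of the prime side, all Dirichlet polynomials
-/

open Complex Filter Topology Set MeasureTheory
open scoped BigOperators ComplexConjugate

namespace Pool.Agent.N802.U

open H370

namespace Ms2aux

open Msaux

/-! ## the diagonal -/

/-- extension by zero -/
noncomputable def ex (S : Finset ℕ) (r : ℕ → ℂ) (m : ℕ) : ℝ := if m ∈ S then ‖r m‖ else 0

lemma ex_nonneg (S : Finset ℕ) (r : ℕ → ℂ) (m : ℕ) : 0 ≤ ex S r m := by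
  unfold ex
  split_ifs
  · exact norm_nonneg _
  · exact le_rfl

lemma ex_mem {S : Finset ℕ} (r : ℕ → ℂ) {m : ℕ} (h : m ∈ S) : ex S r m = ‖r m‖ := by
  unfold ex
  rw [if_pos h]

lemma ex_notMem {S : Finset ℕ} (r : ℕ → ℂ) {m : ℕ} (h : m ∉ S) : ex S r m = 0 := by
  unfold ex
  rw [if_neg h]

lemma pair_le (S : Finset ℕ) (r : ℕ → ℂ) {M n n' : ℕ} (hS : ∀ k ∈ S, 1 ≤ k ∧ k ≤ M) (hn : 0 < n)
    (hc : Nat.Coprime n n') :
    ∑ x ∈ (S ×ˢ S).filter (fun x => x.1 * n = x.2 * n'), ‖r x.1‖ * ‖r x.2‖ ≤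
      ∑ x ∈ Finset.Icc 1 M, ex S r (n' * x) * ex S r (n * x) := by
  have hsub : (S ×ˢ S).filter (fun x => x.1 * n = x.2 * n') ⊆
      (Finset.Icc 1 M).image (fun x => (n' * x, n * x)) := by
    intro z hz
    rw [Finset.mem_filter, Finset.mem_product] at hz
    obtain ⟨⟨h1, h2⟩, h3⟩ := hz
    have h4 : n ∣ z.2 := by
      apply hc.dvd_of_dvd_mul_right
      rw [← h3]
      exact dvd_mul_left n z.1
    obtain ⟨x, hx⟩ := h4
    rw [Finset.mem_image]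
    have h5 : z.1 = n' * x := by
      have : z.1 * n = (n' * x) * n := by
        rw [h3, hx]
        ring
      exact Nat.eq_of_mul_eq_mul_right hn this
    have hk := hS _ h2
    refine ⟨x, ?_, ?_⟩
    · rw [Finset.mem_Icc]
      have hx0 : x ≠ 0 := by
        rintro rfl
        rw [mul_zero] at hx
        omega
      refine ⟨Nat.one_le_iff_ne_zero.2 hx0, ?_⟩
      calc x ≤ n * x := Nat.le_mul_of_pos_left x hn
        _ = z.2 := hx.symm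
        _ ≤ M := hk.2
    · rw [← h5, ← hx]
  have hinj : Set.InjOn (fun x : ℕ => (n' * x, n * x)) (Finset.Icc 1 M : Finset ℕ) := by
    intro x _ y _ hxy
    simp only [Prod.mk.injEq] at hxy
    exact Nat.eq_of_mul_eq_mul_left hn hxy.2
  calc ∑ x ∈ (S ×ˢ S).filter (fun x => x.1 * n = x.2 * n'), ‖r x.1‖ * ‖r x.2‖ =
      ∑ x ∈ (S ×ˢ S).filter (fun x => x.1 * n = x.2 * n'), ex S r x.1 * ex S r x.2 := by
        refine Finset.sum_congr rfl fun x hx => ?_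
        rw [Finset.mem_filter, Finset.mem_product] at hx
        rw [ex_mem r hx.1.1, ex_mem r hx.1.2]
    _ ≤ ∑ x ∈ (Finset.Icc 1 M).image (fun x => (n' * x, n * x)), ex S r x.1 * ex S r x.2 :=
        Finset.sum_le_sum_of_subset_of_nonneg hsub fun x _ _ =>
          mul_nonneg (ex_nonneg _ _ _) (ex_nonneg _ _ _)
    _ = _ := by
        rw [Finset.sum_image hinj]

lemma pair_eq (S : Finset ℕ) (r : ℕ → ℂ) {n : ℕ} (hn : 0 < n) :
    ∑ x ∈ (S ×ˢ S).filter (fun x => x.1 * n = x.2 * n), ‖r x.1‖ * ‖r x.2‖ = w1 S r := by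
  have h1 : ∀ x : ℕ × ℕ, (x.1 * n = x.2 * n ↔ x.1 = x.2) := fun x =>
    ⟨fun h => Nat.eq_of_mul_eq_mul_right hn h, fun h => by rw [h]⟩
  simp_rw [h1]
  rw [Finset.sum_filter, Finset.sum_product]
  unfold w1
  refine Finset.sum_congr rfl fun k hk => ?_
  simp only [Finset.sum_ite_eq, if_pos hk]
  ring

lemma ex_sq_le (S : Finset ℕ) (r : ℕ → ℂ) (P : Finset ℕ) :
    ∑ x ∈ P, ex S r x ^ 2 ≤ w1 S r := by
  have h1 : ∑ x ∈ P, ex S r x ^ 2 = ∑ x ∈ P.filter (fun x => x ∈ S), ‖r x‖ ^ 2 := by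
    rw [Finset.sum_filter]
    refine Finset.sum_congr rfl fun x _ => ?_
    unfold ex
    split_ifs <;> simp
  rw [h1]
  unfold w1
  apply Finset.sum_le_sum_of_subset_of_nonneg
  · intro x hx
    exact (Finset.mem_filter.1 hx).2
  · intro x _ _
    exact sq_nonneg _

/-- the diagonal terms -/
lemma diag_le (S : Finset ℕ) (r : ℕ → ℂ) {M : ℕ} (hS : ∀ k ∈ S, 1 ≤ k ∧ k ≤ M) (P : Finset ℕ)
    (hP : ∀ p ∈ P, p.Prime) (γ : ℕ → ℂ) {θ : ℝ} (hθ : 0 < θ) :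
    ‖∑ x ∈ ((S ×ˢ S) ×ˢ (insert 1 P ×ˢ insert 1 P)).filter
      (fun x => x.1.1 * x.2.1 = x.1.2 * x.2.2), uc r x.1 * uc γ x.2‖ ≤
    (1 + θ) * (w1 S r * ∑ n ∈ insert 1 P, ‖γ n‖ ^ 2) +
      (1 + 1 / θ) * ∑ x ∈ Finset.Icc 1 M, (∑ p ∈ P, ‖γ p‖ * ex S r (p * x)) ^ 2 := by
  have h1P : (1 : ℕ) ∉ P := fun h => Nat.not_prime_one (hP 1 h)
  set c : ℕ → ℝ := fun n => ‖γ n‖ with hc
  have hc0 : ∀ n, 0 ≤ c n := fun n => norm_nonneg _
  set Tq : ℕ → ℕ → ℝ := fun n n' => ∑ x ∈ Finset.Icc 1 M, ex S r (n' * x) * ex S r (n * x) with hT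
  have hT0 : ∀ n n', 0 ≤ Tq n n' := fun n n' => Finset.sum_nonneg fun x _ =>
    mul_nonneg (ex_nonneg _ _ _) (ex_nonneg _ _ _)
  set D : ℕ → ℕ → ℝ := fun n n' =>
    ∑ x ∈ (S ×ˢ S).filter (fun x => x.1 * n = x.2 * n'), ‖r x.1‖ * ‖r x.2‖ with hD
  have hw := w1_nonneg S r
  have e1 : ∑ x ∈ ((S ×ˢ S) ×ˢ (insert 1 P ×ˢ insert 1 P)).filter
      (fun x => x.1.1 * x.2.1 = x.1.2 * x.2.2), ‖uc r x.1 * uc γ x.2‖ =
      ∑ n ∈ insert 1 P, ∑ n' ∈ insert 1 P, c n * c n' * D n n' := by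
    rw [Finset.sum_filter, Finset.sum_product_right, Finset.sum_product]
    refine Finset.sum_congr rfl fun n _ => Finset.sum_congr rfl fun n' _ => ?_
    simp only [hD]
    rw [Finset.mul_sum, Finset.sum_filter]
    refine Finset.sum_congr rfl fun x _ => ?_
    split_ifs with h
    · unfold uc
      simp only [norm_mul, RCLike.norm_conj, hc]
      ring
    · rfl
  have D11 : D 1 1 = w1 S r := pair_eq S r one_pos
  have D1p : ∀ p ∈ P, D 1 p ≤ Tq 1 p := fun p hp =>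
    pair_le S r hS one_pos (Nat.coprime_one_left p)
  have Dp1 : ∀ p ∈ P, D p 1 ≤ Tq 1 p := fun p hp => by
    refine (pair_le S r hS (hP p hp).pos (Nat.coprime_one_right p)).trans (le_of_eq ?_)
    simp only [hT]
    exact Finset.sum_congr rfl fun x _ => mul_comm _ _
  have Dpq : ∀ p ∈ P, ∀ q ∈ P, D p q ≤ (if p = q then w1 S r else 0) + Tq p q := by
    intro p hp q hq
    by_cases h : p = q
    · subst h
      rw [if_pos rfl]
      have := pair_eq S r (hP p hp).pos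
      have h2 := hT0 p p
      simp only [hD]
      linarith
    · rw [if_neg h, zero_add]
      exact pair_le S r hS (hP p hp).pos
        ((Nat.coprime_primes (hP p hp) (hP q hq)).2 h)
  set A : ℕ → ℝ := fun x => ∑ p ∈ P, c p * ex S r (p * x) with hA
  have hA0 : ∀ x, 0 ≤ A x := fun x => Finset.sum_nonneg fun p _ =>
    mul_nonneg (hc0 _) (ex_nonneg _ _ _)
  have s1 : ∑ p ∈ P, c p * Tq 1 p = ∑ x ∈ Finset.Icc 1 M, ex S r x * A x := by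
    simp only [hT, hA, Finset.mul_sum]
    rw [Finset.sum_comm]
    refine Finset.sum_congr rfl fun x _ => Finset.sum_congr rfl fun p _ => ?_
    rw [one_mul]
    ring
  have s2 : ∑ p ∈ P, ∑ q ∈ P, c p * c q * Tq p q = ∑ x ∈ Finset.Icc 1 M, A x ^ 2 := by
    have e2 : ∀ x, A x ^ 2 = ∑ p ∈ P, ∑ q ∈ P, c p * c q * (ex S r (q * x) * ex S r (p * x)) := by
      intro x
      rw [sq]
      simp only [hA]
      rw [Finset.sum_mul_sum]
      exact Finset.sum_congr rfl fun p _ => Finset.sum_congr rfl fun q _ => by ring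
    have e3 : ∑ x ∈ Finset.Icc 1 M, A x ^ 2 =
        ∑ p ∈ P, ∑ q ∈ P, ∑ x ∈ Finset.Icc 1 M, c p * c q * (ex S r (q * x) * ex S r (p * x)) := by
      simp_rw [e2]
      rw [Finset.sum_comm]
      exact Finset.sum_congr rfl fun p _ => Finset.sum_comm
    rw [e3]
    refine Finset.sum_congr rfl fun p _ => Finset.sum_congr rfl fun q _ => ?_
    simp only [hT]
    rw [Finset.mul_sum]
  have s3 : ∑ p ∈ P, ∑ q ∈ P, c p * c q * (if p = q then w1 S r else 0) =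
      w1 S r * ∑ p ∈ P, c p ^ 2 := by
    rw [Finset.mul_sum]
    refine Finset.sum_congr rfl fun p hp => ?_
    simp only [mul_ite, mul_zero, Finset.sum_ite_eq, if_pos hp]
    ring
  have b1 : ∑ n' ∈ P, c 1 * c n' * D 1 n' ≤ c 1 * ∑ x ∈ Finset.Icc 1 M, ex S r x * A x := by
    rw [← s1, Finset.mul_sum]
    refine Finset.sum_le_sum fun p hp => ?_
    have := mul_le_mul_of_nonneg_left (D1p p hp) (mul_nonneg (hc0 1) (hc0 p))
    linarith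
  have b2 : ∑ n ∈ P, c n * c 1 * D n 1 ≤ c 1 * ∑ x ∈ Finset.Icc 1 M, ex S r x * A x := by
    rw [← s1, Finset.mul_sum]
    refine Finset.sum_le_sum fun p hp => ?_
    have := mul_le_mul_of_nonneg_left (Dp1 p hp) (mul_nonneg (hc0 p) (hc0 1))
    linarith
  have b3 : ∑ n ∈ P, ∑ n' ∈ P, c n * c n' * D n n' ≤
      w1 S r * ∑ p ∈ P, c p ^ 2 + ∑ x ∈ Finset.Icc 1 M, A x ^ 2 := by
    rw [← s2, ← s3, ← Finset.sum_add_distrib]
    refine Finset.sum_le_sum fun p hp => ?_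
    rw [← Finset.sum_add_distrib]
    refine Finset.sum_le_sum fun q hq => ?_
    have := mul_le_mul_of_nonneg_left (Dpq p hp q hq) (mul_nonneg (hc0 p) (hc0 q))
    linarith
  have e3 : ∑ n ∈ insert 1 P, ∑ n' ∈ insert 1 P, c n * c n' * D n n' =
      c 1 ^ 2 * w1 S r + ∑ n' ∈ P, c 1 * c n' * D 1 n' + (∑ n ∈ P, c n * c 1 * D n 1 +
        ∑ n ∈ P, ∑ n' ∈ P, c n * c n' * D n n') := by
    rw [Finset.sum_insert h1P, Finset.sum_insert h1P, ← Finset.sum_add_distrib, D11]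
    congr 1
    · ring
    · refine Finset.sum_congr rfl fun n _ => ?_
      rw [Finset.sum_insert h1P]
  have hx : ∀ x ∈ Finset.Icc 1 M, 2 * c 1 * (ex S r x * A x) + A x ^ 2 ≤
      θ * c 1 ^ 2 * ex S r x ^ 2 + (1 + 1 / θ) * A x ^ 2 := by
    intro x _
    have e : θ * c 1 ^ 2 * ex S r x ^ 2 + (1 + 1 / θ) * A x ^ 2 -
        (2 * c 1 * (ex S r x * A x) + A x ^ 2) = (θ * (c 1 * ex S r x) - A x) ^ 2 / θ := by
      field_simp
      ring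
    have : 0 ≤ (θ * (c 1 * ex S r x) - A x) ^ 2 / θ := by positivity
    linarith
  have hsum := Finset.sum_le_sum hx
  rw [Finset.sum_add_distrib, Finset.sum_add_distrib, ← Finset.mul_sum, ← Finset.mul_sum,
    ← Finset.mul_sum] at hsum
  have hex := mul_le_mul_of_nonneg_left (ex_sq_le S r (Finset.Icc 1 M))
    (mul_nonneg hθ.le (sq_nonneg (c 1)))
  have hP2 : 0 ≤ θ * (w1 S r * ∑ p ∈ P, c p ^ 2) :=
    mul_nonneg hθ.le (mul_nonneg hw (Finset.sum_nonneg fun _ _ => sq_nonneg _))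
  refine (norm_sum_le _ _).trans ?_
  rw [e1, e3, Finset.sum_insert h1P]
  have e4 : (1 + θ) * (w1 S r * (‖γ 1‖ ^ 2 + ∑ x ∈ P, ‖γ x‖ ^ 2)) =
      (1 + θ) * (w1 S r * (c 1 ^ 2 + ∑ p ∈ P, c p ^ 2)) := rfl
  have e5 : (1 + 1 / θ) * ∑ x ∈ Finset.Icc 1 M, (∑ p ∈ P, ‖γ p‖ * ex S r (p * x)) ^ 2 =
      (1 + 1 / θ) * ∑ x ∈ Finset.Icc 1 M, A x ^ 2 := rfl
  rw [e4, e5]
  linarith

/-- Cauchy-Schwarz for the off-diagonal terms -/
lemma A_le (S : Finset ℕ) (r : ℕ → ℂ) (M : ℕ) (P : Finset ℕ) (γ : ℕ → ℂ) (g : ℕ → ℝ)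
    (hg : ∀ n, 0 ≤ g n) (hγ : ∀ p ∈ P, ‖γ p‖ ≤ TC.lam p * g p) {B : ℝ}
    (hB : ∑ p ∈ P, ArithmeticFunction.vonMangoldt p / p * g p ≤ B) :
    ∑ x ∈ Finset.Icc 1 M, (∑ p ∈ P, ‖γ p‖ * ex S r (p * x)) ^ 2 ≤
      B * ∑ p ∈ P, (ArithmeticFunction.vonMangoldt p *
        ∑ x ∈ Finset.Icc 1 M, ex S r (p * x) ^ 2) * g p := by
  have hΛ : ∀ n : ℕ, 0 ≤ ArithmeticFunction.vonMangoldt n := fun n =>
    ArithmeticFunction.vonMangoldt_nonneg
  have h1 : ∀ x ∈ Finset.Icc 1 M, (∑ p ∈ P, ‖γ p‖ * ex S r (p * x)) ^ 2 ≤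
      B * ∑ p ∈ P, ArithmeticFunction.vonMangoldt p * g p * ex S r (p * x) ^ 2 := by
    intro x _
    have h2 : (∑ p ∈ P, ‖γ p‖ * ex S r (p * x)) ^ 2 ≤
        (∑ p ∈ P, ArithmeticFunction.vonMangoldt p / p * g p) *
        ∑ p ∈ P, ArithmeticFunction.vonMangoldt p * g p * ex S r (p * x) ^ 2 := by
      apply Finset.sum_sq_le_sum_mul_sum_of_sq_le_mul
      · intro p _
        exact mul_nonneg (div_nonneg (hΛ p) (Nat.cast_nonneg p)) (hg p)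
      · intro p _
        exact mul_nonneg (mul_nonneg (hΛ p) (hg p)) (sq_nonneg _)
      · intro p hp
        have h3 := pow_le_pow_left₀ (norm_nonneg _) (hγ p hp) 2
        have h4 : TC.lam p ^ 2 = ArithmeticFunction.vonMangoldt p ^ 2 / p := by
          unfold TC.lam
          rw [div_pow, Real.sq_sqrt (Nat.cast_nonneg p)]
        calc (‖γ p‖ * ex S r (p * x)) ^ 2 = ‖γ p‖ ^ 2 * ex S r (p * x) ^ 2 := by ring
          _ ≤ (TC.lam p * g p) ^ 2 * ex S r (p * x) ^ 2 :=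
              mul_le_mul_of_nonneg_right h3 (sq_nonneg _)
          _ = TC.lam p ^ 2 * g p ^ 2 * ex S r (p * x) ^ 2 := by ring
          _ = _ := by
              rw [h4]
              ring
    refine h2.trans (mul_le_mul_of_nonneg_right hB (Finset.sum_nonneg fun p _ =>
      mul_nonneg (mul_nonneg (hΛ p) (hg p)) (sq_nonneg _)))
  refine (Finset.sum_le_sum h1).trans (le_of_eq ?_)
  rw [← Finset.mul_sum, Finset.sum_comm]
  congr 1
  refine Finset.sum_congr rfl fun p _ => ?_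
  rw [Finset.mul_sum, Finset.sum_mul]
  exact Finset.sum_congr rfl fun x _ => by ring

lemma coef_sum (S : Finset ℕ) (r : ℕ → ℂ) {M : ℕ} {K0 : ℝ} (hS : ∀ k ∈ S, 1 ≤ k ∧ (k : ℝ) ≤ K0)
    (P : Finset ℕ) (hP : ∀ p ∈ P, p.Prime) :
    ∑ p ∈ P, (ArithmeticFunction.vonMangoldt p * ∑ x ∈ Finset.Icc 1 M, ex S r (p * x) ^ 2) ≤
      Real.log K0 * w1 S r := by
  have hΛ : ∀ n : ℕ, 0 ≤ ArithmeticFunction.vonMangoldt n := fun n =>
    ArithmeticFunction.vonMangoldt_nonneg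
  have h1 : ∀ p ∈ P, ∑ x ∈ Finset.Icc 1 M, ex S r (p * x) ^ 2 ≤
      ∑ m ∈ S, if p ∣ m then ‖r m‖ ^ 2 else 0 := by
    intro p hp
    have hp0 := (hP p hp).pos
    have hinj : Set.InjOn (fun x : ℕ => p * x) (Finset.Icc 1 M : Finset ℕ) := fun x _ y _ hxy =>
      Nat.eq_of_mul_eq_mul_left hp0 hxy
    have e1 : ∑ x ∈ Finset.Icc 1 M, ex S r (p * x) ^ 2 =
        ∑ m ∈ (Finset.Icc 1 M).image (fun x => p * x), ex S r m ^ 2 := by
      rw [Finset.sum_image hinj]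
    have e2 : ∑ m ∈ (Finset.Icc 1 M).image (fun x => p * x), ex S r m ^ 2 =
        ∑ m ∈ ((Finset.Icc 1 M).image (fun x => p * x)).filter (fun m => m ∈ S), ‖r m‖ ^ 2 := by
      rw [Finset.sum_filter]
      refine Finset.sum_congr rfl fun x _ => ?_
      unfold ex
      split_ifs <;> simp
    rw [e1, e2, ← Finset.sum_filter]
    apply Finset.sum_le_sum_of_subset_of_nonneg
    · intro m hm
      rw [Finset.mem_filter, Finset.mem_image] at hm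
      obtain ⟨⟨x, _, hx⟩, hmS⟩ := hm
      rw [Finset.mem_filter]
      exact ⟨hmS, ⟨x, hx.symm⟩⟩
    · intro m _ _
      exact sq_nonneg _
  calc _ ≤ ∑ p ∈ P, (ArithmeticFunction.vonMangoldt p *
        ∑ m ∈ S, if p ∣ m then ‖r m‖ ^ 2 else 0) :=
        Finset.sum_le_sum fun p hp => mul_le_mul_of_nonneg_left (h1 p hp) (hΛ p)
    _ = ∑ m ∈ S, ‖r m‖ ^ 2 * ∑ p ∈ P.filter (fun p => p ∣ m),
          ArithmeticFunction.vonMangoldt p := by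
        simp_rw [Finset.mul_sum]
        rw [Finset.sum_comm]
        refine Finset.sum_congr rfl fun m _ => ?_
        rw [Finset.sum_filter]
        refine Finset.sum_congr rfl fun p _ => ?_
        split_ifs
        · ring
        · ring
    _ ≤ ∑ m ∈ S, ‖r m‖ ^ 2 * Real.log K0 := by
        refine Finset.sum_le_sum fun m hm => mul_le_mul_of_nonneg_left ?_ (sq_nonneg _)
        have hm1 := hS m hm
        have hm0 : m ≠ 0 := by omega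
        have h2 : ∑ p ∈ P.filter (fun p => p ∣ m), ArithmeticFunction.vonMangoldt p ≤
            ∑ d ∈ m.divisors, ArithmeticFunction.vonMangoldt d := by
          apply Finset.sum_le_sum_of_subset_of_nonneg
          · intro p hp
            rw [Finset.mem_filter] at hp
            rw [Nat.mem_divisors]
            exact ⟨hp.2, hm0⟩
          · intro d _ _
            exact hΛ d
        rw [ArithmeticFunction.vonMangoldt_sum] at h2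
        exact h2.trans (Real.log_le_log (by exact_mod_cast hm1.1) hm1.2)
    _ = _ := by
        unfold w1
        rw [← Finset.sum_mul, mul_comm]

/-! ## the two parts of the sums over the primes -/

/-- the primes up to `X` -/
noncomputable def Pg (X : ℕ) : Finset ℕ := (Finset.Icc 1 X).filter Nat.Prime

/-- the numbers up to `X` which are not prime -/
noncomputable def Ng (X : ℕ) : Finset ℕ := (Finset.Icc 1 X).filter (fun n => ¬ n.Prime)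

lemma pg_prime {X p : ℕ} (h : p ∈ Pg X) : p.Prime := (Finset.mem_filter.1 h).2

lemma pg_le {X p : ℕ} (h : p ∈ Pg X) : p ≤ X :=
  (Finset.mem_Icc.1 (Finset.mem_filter.1 h).1).2

lemma pg_sub (X : ℕ) : Pg X ⊆ Finset.Icc 1 X := Finset.filter_subset _ _

lemma one_nm (X : ℕ) : 1 ∉ Pg X := fun h => Nat.not_prime_one (pg_prime h)

lemma pg_rg (X : ℕ) : Pg X ⊆ Rg 0 X := by
  intro p hp
  have h1 := pg_prime hp
  have h2 := pg_le hp
  unfold Rg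
  rw [Finset.mem_filter, Finset.mem_Icc]
  refine ⟨⟨h1.two_le, h2⟩, h1.isPrimePow, ?_⟩
  rw [h1.minFac_eq]
  exact_mod_cast h1.pos

/-- the parts with the non-primes -/
noncomputable def N3 (a : ℕ → ℂ) (X : ℕ) (w : ℝ → ℂ) (u t : ℝ) : ℂ :=
  ∑ n ∈ Ng X, a n * (Real.sqrt n : ℂ)⁻¹ * gs w (u - Real.log n) * mn n 1 t

noncomputable def N4 (a : ℕ → ℂ) (X : ℕ) (w : ℝ → ℂ) (u t : ℝ) : ℂ :=
  ∑ n ∈ Ng X, conj (a n) * (Real.sqrt n : ℂ)⁻¹ * gs w (u + Real.log n) * mn 1 n t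

lemma a_one {a : ℕ → ℂ} (ha : ∀ n, ‖a n‖ ≤ ArithmeticFunction.vonMangoldt n) : a 1 = 0 := by
  have h1 := ha 1
  rw [ArithmeticFunction.vonMangoldt_apply_one] at h1
  exact norm_le_zero_iff.mp h1

lemma gb_one {a : ℕ → ℂ} (ha : ∀ n, ‖a n‖ ≤ ArithmeticFunction.vonMangoldt n) (w : ℝ → ℂ)
    (u : ℝ) : gb a w u 1 = 0 := by
  unfold gb
  rw [a_one ha, zero_mul, zero_mul]

lemma split2 (X : ℕ) (F : ℕ → ℂ) :
    ∑ n ∈ Finset.Icc 1 X, F n = ∑ n ∈ Pg X, F n + ∑ n ∈ Ng X, F n :=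
  (Finset.sum_filter_add_sum_filter_not _ _ _).symm

lemma pd_eq2 {a : ℕ → ℂ} (ha : ∀ n, ‖a n‖ ≤ ArithmeticFunction.vonMangoldt n) (X : ℕ) (w : ℝ → ℂ)
    (ℓ u t : ℝ) : PD a X w ℓ u t = RP (insert 1 (Pg X)) (ga a w ℓ u) t -
      (conj (RP (insert 1 (Pg X)) (gb a w u) t) + N3 a X w u t + N4 a X w u t) := by
  have hn1 := one_nm X
  unfold PD
  rw [split2 X (fun n => a n * (Real.sqrt n : ℂ)⁻¹ * gs w (u - Real.log n) * mn n 1 t),
    split2 X (fun n => conj (a n) * (Real.sqrt n : ℂ)⁻¹ * gs w (u + Real.log n) * mn 1 n t)]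
  have e1 : RP (insert 1 (Pg X)) (ga a w ℓ u) t = ℓ * gs w u -
      ∑ n ∈ Pg X, a n * (Real.sqrt n : ℂ)⁻¹ * gs w (u - Real.log n) * mn n 1 t := by
    unfold RP TP
    rw [Finset.sum_insert hn1, sub_eq_add_neg, ← Finset.sum_neg_distrib]
    congr 1
    · have : mn 1 1 t = 1 := by
        unfold mn
        simp
      rw [this, mul_one]
      unfold ga
      rw [if_pos rfl]
    · refine Finset.sum_congr rfl fun n hn => ?_
      have hne : n ≠ 1 := fun h => hn1 (h ▸ hn)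
      unfold ga
      rw [if_neg hne]
      ring
  have e2 : conj (RP (insert 1 (Pg X)) (gb a w u) t) =
      ∑ n ∈ Pg X, conj (a n) * (Real.sqrt n : ℂ)⁻¹ * gs w (u + Real.log n) * mn 1 n t := by
    unfold RP TP
    rw [Finset.sum_insert hn1, gb_one ha, zero_mul, zero_add, map_sum]
    refine Finset.sum_congr rfl fun n _ => ?_
    unfold gb
    rw [map_mul, mn_conj, map_mul, map_mul, map_inv₀, Complex.conj_ofReal, Complex.conj_conj]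
  rw [e1, e2]
  unfold N3 N4
  ring

lemma np_part (X : ℕ) (c g m : ℕ → ℂ) (hc : ∀ n, ‖c n‖ ≤ TC.lam n) (hm : ∀ n, ‖m n‖ = 1) {B : ℝ}
    (hB : ∑ n ∈ Ng X, TC.lam n * ‖g n‖ ≤ B) : ‖∑ n ∈ Ng X, c n * g n * m n‖ ^ 2 ≤ B ^ 2 := by
  have h1 : ‖∑ n ∈ Ng X, c n * g n * m n‖ ≤ ∑ n ∈ Ng X, TC.lam n * ‖g n‖ := by
    refine (norm_sum_le _ _).trans (Finset.sum_le_sum fun n _ => ?_)
    rw [norm_mul, norm_mul, hm, mul_one]
    exact mul_le_mul_of_nonneg_right (hc n) (norm_nonneg _)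
  exact pow_le_pow_left₀ (norm_nonneg _) (h1.trans hB) 2

/-! ## one value of `u` -/

/-- the coefficients of the off-diagonal terms -/
noncomputable def cf (S : Finset ℕ) (r : ℕ → ℂ) (M p : ℕ) : ℝ :=
  ArithmeticFunction.vonMangoldt p * ∑ x ∈ Finset.Icc 1 M, ex S r (p * x) ^ 2

lemma cf_nonneg (S : Finset ℕ) (r : ℕ → ℂ) (M p : ℕ) : 0 ≤ cf S r M p :=
  mul_nonneg ArithmeticFunction.vonMangoldt_nonneg (Finset.sum_nonneg fun _ _ => sq_nonneg _)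

/-- the weighted mean square of a Dirichlet polynomial over the primes -/
lemma om_RD (S : Finset ℕ) (r : ℕ → ℂ) {K0 τ H Y : ℝ} {X : ℕ} (hH : 0 < H) (hK : 1 ≤ K0)
    (hS : Len S K0) (hX : 1 ≤ X) (P : Finset ℕ) (hP : ∀ p ∈ P, p.Prime ∧ p ≤ X) (γ : ℕ → ℂ)
    (hY : K0 * X ≤ Y) {θ : ℝ} (hθ : 0 < θ) :
    ∫ t, TC.om τ H t * (‖RP S r t‖ ^ 2 * ‖RP (insert 1 P) γ t‖ ^ 2) ≤
      Real.sqrt (2 * Real.pi) * H * ((1 + θ) * (w1 S r * ∑ n ∈ insert 1 P, ‖γ n‖ ^ 2) +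
        (1 + 1 / θ) * ∑ x ∈ Finset.Icc 1 ⌊K0⌋₊, (∑ p ∈ P, ‖γ p‖ * ex S r (p * x)) ^ 2 +
        w1 S r * (n1 (insert 1 P) γ ^ 2 * (K0 * Real.exp (-(H ^ 2) / (8 * Y ^ 2))))) := by
  have hS0 : ∀ k ∈ S, 0 < k := fun k hk => (hS k hk).1
  have hSM : ∀ k ∈ S, 1 ≤ k ∧ k ≤ ⌊K0⌋₊ := fun k hk => ⟨(hS k hk).1, Nat.le_floor (hS k hk).2⟩
  have hN : ∀ n ∈ insert 1 P, 0 < n ∧ n ≤ X := by
    intro n hn
    rw [Finset.mem_insert] at hn
    rcases hn with rfl | hn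
    · exact ⟨one_pos, hX⟩
    · exact ⟨(hP n hn).1.pos, (hP n hn).2⟩
  have hN0 : ∀ n ∈ insert 1 P, 0 < n := fun n hn => (hN n hn).1
  have h1 := om_TP ((S ×ˢ S) ×ˢ (insert 1 P ×ˢ insert 1 P)) (fun x => uc r x.1 * uc γ x.2)
    (fun x => x.1.1 * x.2.1) (fun x => x.1.2 * x.2.2) τ H Y hH
    (fun x hx => by
      rw [Finset.mem_product, Finset.mem_product, Finset.mem_product] at hx
      exact Nat.mul_pos (hS0 _ hx.1.1) (hN0 _ hx.2.1))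
    (fun x hx => by
      rw [Finset.mem_product, Finset.mem_product, Finset.mem_product] at hx
      exact Nat.mul_pos (hS0 _ hx.1.2) (hN0 _ hx.2.2))
    (fun x hx => by
      rw [Finset.mem_product, Finset.mem_product, Finset.mem_product] at hx
      have h2 := (hS _ hx.1.1).2
      have h5 : (x.2.1 : ℝ) ≤ X := by exact_mod_cast (hN _ hx.2.1).2
      have h3 : ((min (x.1.1 * x.2.1) (x.1.2 * x.2.2) : ℕ) : ℝ) ≤ (x.1.1 : ℝ) * x.2.1 := by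
        exact_mod_cast min_le_left _ _
      have h6 : (x.1.1 : ℝ) * x.2.1 ≤ K0 * X := by gcongr
      linarith)
  rw [n1_mul, n1_uc, n1_uc] at h1
  have e : ∫ t : ℝ, (TC.om τ H t : ℂ) * TP ((S ×ˢ S) ×ˢ (insert 1 P ×ˢ insert 1 P))
      (fun x => uc r x.1 * uc γ x.2) (fun x => x.1.1 * x.2.1) (fun x => x.1.2 * x.2.2) t =
      ((∫ t, TC.om τ H t * (‖RP S r t‖ ^ 2 * ‖RP (insert 1 P) γ t‖ ^ 2) : ℝ) : ℂ) := by
    rw [← integral_complex_ofReal]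
    congr 1
    funext t
    rw [ofReal_mul, ofReal_mul, U_eq S r hS0 t, U_eq (insert 1 P) γ hN0 t,
      TP_mul _ _ _ _ _ _ _ _ (fun x hx => hS0 _ (Finset.mem_product.mp hx).1)
        (fun x hx => hS0 _ (Finset.mem_product.mp hx).2)
        (fun x hx => hN0 _ (Finset.mem_product.mp hx).1)
        (fun x hx => hN0 _ (Finset.mem_product.mp hx).2)]
  rw [e] at h1
  have hd := diag_le S r hSM P (fun p hp => (hP p hp).1) γ hθ
  set Dg := ∑ x ∈ ((S ×ˢ S) ×ˢ (insert 1 P ×ˢ insert 1 P)).filter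
      (fun x => x.1.1 * x.2.1 = x.1.2 * x.2.2), uc r x.1 * uc γ x.2 with hDg
  set I0 := ∫ t, TC.om τ H t * (‖RP S r t‖ ^ 2 * ‖RP (insert 1 P) γ t‖ ^ 2) with hI0
  have hsH : 0 ≤ Real.sqrt (2 * Real.pi) * H := by positivity
  have h2 : I0 ≤ Real.sqrt (2 * Real.pi) * H * ‖Dg‖ + Real.sqrt (2 * Real.pi) * H *
      (n1 S r ^ 2 * n1 (insert 1 P) γ ^ 2 * Real.exp (-(H ^ 2) / (8 * Y ^ 2))) := by
    have h3 : ‖(I0 : ℂ)‖ ≤ ‖(I0 : ℂ) - ((Real.sqrt (2 * Real.pi) * H : ℝ) : ℂ) * Dg‖ +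
        ‖((Real.sqrt (2 * Real.pi) * H : ℝ) : ℂ) * Dg‖ := by
      have := norm_add_le ((I0 : ℂ) - ((Real.sqrt (2 * Real.pi) * H : ℝ) : ℂ) * Dg)
        (((Real.sqrt (2 * Real.pi) * H : ℝ) : ℂ) * Dg)
      rwa [sub_add_cancel] at this
    rw [norm_mul, Complex.norm_real ((Real.sqrt (2 * Real.pi) * H)),
      Real.norm_of_nonneg hsH, Complex.norm_real, Real.norm_eq_abs] at h3
    have h4 := le_abs_self I0
    linarith
  have h4 := n1_sq_le S r hS hK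
  have h5 := Real.exp_pos (-(H ^ 2) / (8 * Y ^ 2))
  have h6 : n1 S r ^ 2 * n1 (insert 1 P) γ ^ 2 * Real.exp (-(H ^ 2) / (8 * Y ^ 2)) ≤
      w1 S r * (n1 (insert 1 P) γ ^ 2 * (K0 * Real.exp (-(H ^ 2) / (8 * Y ^ 2)))) := by
    calc _ ≤ (K0 * w1 S r) * n1 (insert 1 P) γ ^ 2 * Real.exp (-(H ^ 2) / (8 * Y ^ 2)) := by
          gcongr
      _ = _ := by ring
  have h7 := mul_le_mul_of_nonneg_left (add_le_add hd h6) hsH
  rw [mul_add] at h7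
  linarith

section One

variable {b : ℝ} {W : ℂ → ℂ} {w : ℝ → ℂ}

lemma n1_mono {A B : Finset ℕ} (h : A ⊆ B) (γ : ℕ → ℂ) : n1 A γ ≤ n1 B γ :=
  Finset.sum_le_sum_of_subset_of_nonneg h fun _ _ _ => norm_nonneg _

lemma s_mono {A B : Finset ℕ} (h : A ⊆ B) (γ : ℕ → ℂ) :
    ∑ n ∈ A, ‖γ n‖ ^ 2 ≤ ∑ n ∈ B, ‖γ n‖ ^ 2 :=
  Finset.sum_le_sum_of_subset_of_nonneg h fun _ _ _ => sq_nonneg _

lemma n1_ga2 (h : BW b W w) {a : ℕ → ℂ} (ha : ∀ n, ‖a n‖ ≤ ArithmeticFunction.vonMangoldt n)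
    (X : ℕ) (u : ℝ) {ℓ : ℝ} (hℓ : 0 ≤ ℓ) :
    n1 (insert 1 (Pg X)) (ga a w ℓ u) ≤ Real.sqrt (q2 w) * (ℓ + 12 * Real.sqrt X) :=
  (n1_mono (Finset.insert_subset_insert 1 (pg_rg X)) _).trans (n1_ga h ha X 0 u hℓ)

lemma s_ga2 {a : ℕ → ℂ} (ha : ∀ n, ‖a n‖ ≤ ArithmeticFunction.vonMangoldt n)
    (X : ℕ) (u : ℝ) (ℓ : ℝ) :
    ∑ n ∈ insert 1 (Pg X), ‖ga a w ℓ u n‖ ^ 2 ≤ ℓ ^ 2 * ‖gs w u‖ ^ 2 +
      ∑ n ∈ Finset.Icc 1 X, (ArithmeticFunction.vonMangoldt n) ^ 2 / n *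
        ‖gs w (u - Real.log n)‖ ^ 2 :=
  (s_mono (Finset.insert_subset_insert 1 (pg_rg X)) _).trans (s_ga ha X 0 u ℓ)

lemma n1_gb2 (h : BW b W w) {a : ℕ → ℂ} (ha : ∀ n, ‖a n‖ ≤ ArithmeticFunction.vonMangoldt n)
    (X : ℕ) (u : ℝ) {ℓ : ℝ} (hℓ : 0 ≤ ℓ) :
    n1 (insert 1 (Pg X)) (gb a w u) ≤ Real.sqrt (q2 w) * (ℓ + 12 * Real.sqrt X) := by
  have e : n1 (insert 1 (Pg X)) (gb a w u) = n1 (Pg X) (gb a w u) := by
    unfold n1
    rw [Finset.sum_insert (one_nm X), gb_one ha, norm_zero, zero_add]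
  rw [e]
  exact (n1_mono (pg_rg X) _).trans (n1_gb h ha X 0 u hℓ)

lemma s_gb2 {a : ℕ → ℂ} (ha : ∀ n, ‖a n‖ ≤ ArithmeticFunction.vonMangoldt n)
    (X : ℕ) (u : ℝ) :
    ∑ n ∈ insert 1 (Pg X), ‖gb a w u n‖ ^ 2 ≤
      ∑ n ∈ Finset.Icc 1 X, (ArithmeticFunction.vonMangoldt n) ^ 2 / n *
        ‖gs w (u + Real.log n)‖ ^ 2 := by
  rw [Finset.sum_insert (one_nm X), gb_one ha, norm_zero, zero_pow two_ne_zero, zero_add]
  exact (s_mono (pg_rg X) _).trans (s_gb ha X 0 u)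

/-- the off-diagonal terms for one value of `u` -/
noncomputable def V1 (S : Finset ℕ) (r : ℕ → ℂ) (M X : ℕ) (w : ℝ → ℂ) (u : ℝ) : ℝ :=
  ∑ p ∈ Pg X, cf S r M p * ‖gs w (u - Real.log p)‖

noncomputable def V2 (S : Finset ℕ) (r : ℕ → ℂ) (M X : ℕ) (w : ℝ → ℂ) (u : ℝ) : ℝ :=
  ∑ p ∈ Pg X, cf S r M p * ‖gs w (u + Real.log p)‖

lemma pg_sum_le (X : ℕ) (g : ℕ → ℝ) (hg : ∀ n, 0 ≤ g n) {B : ℝ}
    (hB : ∑ n ∈ Finset.Icc 1 X, ArithmeticFunction.vonMangoldt n / n * g n ≤ B) :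
    ∑ n ∈ Pg X, ArithmeticFunction.vonMangoldt n / n * g n ≤ B :=
  (Finset.sum_le_sum_of_subset_of_nonneg (pg_sub X) fun n _ _ =>
    mul_nonneg (div_nonneg ArithmeticFunction.vonMangoldt_nonneg (Nat.cast_nonneg n)) (hg n)).trans hB

/-- the bound for one value of `u` -/
noncomputable def Gv (S : Finset ℕ) (r : ℕ → ℂ) (M X : ℕ) (w : ℝ → ℂ) (ℓ θ e0 e1 B u : ℝ) : ℝ :=
  w1 S r * ((1 + θ) * Gu X w 0 ℓ θ e0 e1 u + 6 * (1 + 1 / θ) * (1 + e0) * B ^ 2) +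
    ((1 + θ) * (1 + 1 / θ) * B * V1 S r M X w u + 3 * (1 + 1 / θ) ^ 2 * B * V2 S r M X w u)

lemma one_u2 (h : BW b W w) {a : ℕ → ℂ} (ha : ∀ n, ‖a n‖ ≤ ArithmeticFunction.vonMangoldt n)
    (S : Finset ℕ) (r : ℕ → ℂ) {K0 τ H Y : ℝ} {X : ℕ} (hH : 0 < H) (hK : 1 ≤ K0)
    (hS : Len S K0) (hX : 1 ≤ X) (hY : K0 * X ≤ Y) {ℓ θ e0 e1 B : ℝ} (hℓ : 0 ≤ ℓ)
    (hθ : 0 < θ) (he0 : K0 * Real.exp (-(H ^ 2) / (8 * Y ^ 2)) = e0)
    (he1 : (ℓ + 12 * Real.sqrt X) ^ 2 * e0 = e1) (u : ℝ)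
    (hB1 : ∑ n ∈ Finset.Icc 1 X, ArithmeticFunction.vonMangoldt n / n *
      ‖gs w (u - Real.log n)‖ ≤ B)
    (hB2 : ∑ n ∈ Finset.Icc 1 X, ArithmeticFunction.vonMangoldt n / n *
      ‖gs w (u + Real.log n)‖ ≤ B)
    (hB3 : ∑ n ∈ Ng X, TC.lam n * ‖gs w (u - Real.log n)‖ ≤ B)
    (hB4 : ∑ n ∈ Ng X, TC.lam n * ‖gs w (u + Real.log n)‖ ≤ B) :
    ∫ t, TC.om τ H t * (‖RP S r t‖ ^ 2 * ‖PD a X w ℓ u t‖ ^ 2) ≤
      Real.sqrt (2 * Real.pi) * H * Gv S r ⌊K0⌋₊ X w ℓ θ e0 e1 B u := by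
  have he00 : 0 ≤ e0 := by
    rw [← he0]
    have := Real.exp_pos (-(H ^ 2) / (8 * Y ^ 2))
    positivity
  have he10 : 0 ≤ e1 := by
    rw [← he1]
    positivity
  set Q1 := RP (insert 1 (Pg X)) (ga a w ℓ u) with hQ1
  set Q2 := RP (insert 1 (Pg X)) (gb a w u) with hQ2
  have hη3 : 0 ≤ 3 * (1 + 1 / θ) := by positivity
  have hpt : ∀ t, ‖PD a X w ℓ u t‖ ^ 2 ≤ (1 + θ) * ‖Q1 t‖ ^ 2 +
      3 * (1 + 1 / θ) * (‖Q2 t‖ ^ 2 + B ^ 2 + B ^ 2) := by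
    intro t
    rw [pd_eq2 ha X w ℓ u t]
    refine (norm_alg hθ _ _ _ _).trans ?_
    have h3 : ‖N3 a X w u t‖ ^ 2 ≤ B ^ 2 :=
      np_part X (fun n => a n * (Real.sqrt n : ℂ)⁻¹) (fun n => gs w (u - Real.log n))
        (fun n => mn n 1 t) (lam_coef ha) (fun n => mn_norm _ _ _) hB3
    have h4 : ‖N4 a X w u t‖ ^ 2 ≤ B ^ 2 :=
      np_part X (fun n => conj (a n) * (Real.sqrt n : ℂ)⁻¹)
        (fun n => gs w (u + Real.log n)) (fun n => mn 1 n t)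
        (fun n => lam_coef (a := fun n => conj (a n))
          (fun n => by rw [RCLike.norm_conj]; exact ha n) n)
        (fun n => mn_norm _ _ _) hB4
    rw [RCLike.norm_conj]
    have h5 : ‖RP (insert 1 (Pg X)) (gb a w u) t‖ ^ 2 + ‖N3 a X w u t‖ ^ 2 +
        ‖N4 a X w u t‖ ^ 2 ≤ ‖Q2 t‖ ^ 2 + B ^ 2 + B ^ 2 := by
      rw [hQ2]
      linarith
    have h6 := mul_le_mul_of_nonneg_left h5 hη3
    linarith
  have i1 := om_RR_int (τ := τ) hH S r (insert 1 (Pg X)) (ga a w ℓ u)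
  have i2 := om_RR_int (τ := τ) hH S r (insert 1 (Pg X)) (gb a w u)
  have i0 := om_R_int (τ := τ) hH S r
  rw [← hQ1] at i1
  rw [← hQ2] at i2
  have hle : ∫ t, TC.om τ H t * (‖RP S r t‖ ^ 2 * ‖PD a X w ℓ u t‖ ^ 2) ≤
      ∫ t, ((1 + θ) * (TC.om τ H t * (‖RP S r t‖ ^ 2 * ‖Q1 t‖ ^ 2)) +
        3 * (1 + 1 / θ) * (TC.om τ H t * (‖RP S r t‖ ^ 2 * ‖Q2 t‖ ^ 2)) +
        3 * (1 + 1 / θ) * (B ^ 2 + B ^ 2) * (TC.om τ H t * ‖RP S r t‖ ^ 2)) := by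
    refine integral_mono_of_nonneg (Eventually.of_forall fun t => ?_)
      (((i1.const_mul _).add (i2.const_mul _)).add (i0.const_mul _))
      (Eventually.of_forall fun t => ?_)
    · exact mul_nonneg (TC.om_pos τ H t).le (by positivity)
    · simp only
      have h7 : 0 ≤ TC.om τ H t * ‖RP S r t‖ ^ 2 :=
        mul_nonneg (TC.om_pos τ H t).le (sq_nonneg _)
      have h8 := mul_le_mul_of_nonneg_left (hpt t) h7
      calc TC.om τ H t * (‖RP S r t‖ ^ 2 * ‖PD a X w ℓ u t‖ ^ 2) =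
          TC.om τ H t * ‖RP S r t‖ ^ 2 * ‖PD a X w ℓ u t‖ ^ 2 := by ring
        _ ≤ _ := h8
        _ = _ := by ring
  refine hle.trans ?_
  have j1 : Integrable (fun t => (1 + θ) * (TC.om τ H t * (‖RP S r t‖ ^ 2 * ‖Q1 t‖ ^ 2))) :=
    i1.const_mul _
  have j2 : Integrable (fun t => 3 * (1 + 1 / θ) *
      (TC.om τ H t * (‖RP S r t‖ ^ 2 * ‖Q2 t‖ ^ 2))) := i2.const_mul _
  have j12 : Integrable (fun t => (1 + θ) * (TC.om τ H t * (‖RP S r t‖ ^ 2 * ‖Q1 t‖ ^ 2)) +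
      3 * (1 + 1 / θ) * (TC.om τ H t * (‖RP S r t‖ ^ 2 * ‖Q2 t‖ ^ 2))) := j1.add j2
  have j0 : Integrable (fun t => 3 * (1 + 1 / θ) * (B ^ 2 + B ^ 2) *
      (TC.om τ H t * ‖RP S r t‖ ^ 2)) := i0.const_mul _
  rw [integral_add j12 j0, integral_add j1 j2, integral_const_mul, integral_const_mul,
    integral_const_mul]
  have hw := w1_nonneg S r
  have hsH : 0 ≤ Real.sqrt (2 * Real.pi) * H := by positivity
  have hPg : ∀ p ∈ Pg X, p.Prime ∧ p ≤ X := fun p hp => ⟨pg_prime hp, pg_le hp⟩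
  have b1 := om_RD S r (τ := τ) hH hK hS hX (Pg X) hPg (ga a w ℓ u) hY hθ
  have b2 := om_RD S r (τ := τ) hH hK hS hX (Pg X) hPg (gb a w u) hY hθ
  have b0 : ∫ t, TC.om τ H t * ‖RP S r t‖ ^ 2 ≤
      Real.sqrt (2 * Real.pi) * H * (w1 S r * (1 + e0)) := by
    have hSmo : Smo S K0 K0 := fun k hk => ⟨(hS k hk).1, (hS k hk).2, fun p _ hpk =>
      le_trans (by exact_mod_cast Nat.le_of_dvd (hS k hk).1 hpk) (hS k hk).2⟩
    have h1 := om_R_le S r (τ := τ) hH hK hSmo hX hY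
    rwa [he0] at h1
  rw [← hQ1, he0] at b1
  rw [← hQ2, he0] at b2
  have hq := q2_nonneg w
  have sq1 : n1 (insert 1 (Pg X)) (ga a w ℓ u) ^ 2 * e0 ≤ q2 w * e1 := by
    have h9 := pow_le_pow_left₀ (n1_nonneg _ _) (n1_ga2 h ha X u hℓ) 2
    rw [mul_pow, Real.sq_sqrt hq] at h9
    have h10 := mul_le_mul_of_nonneg_right h9 he00
    rw [← he1]
    linarith
  have sq2 : n1 (insert 1 (Pg X)) (gb a w u) ^ 2 * e0 ≤ q2 w * e1 := by
    have h9 := pow_le_pow_left₀ (n1_nonneg _ _) (n1_gb2 h ha X u hℓ) 2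
    rw [mul_pow, Real.sq_sqrt hq] at h9
    have h10 := mul_le_mul_of_nonneg_right h9 he00
    rw [← he1]
    linarith
  have t1 := s_ga2 (w := w) ha X u ℓ
  have t2 := s_gb2 (w := w) ha X u
  have u1 := A_le S r ⌊K0⌋₊ (Pg X) (ga a w ℓ u) (fun n => ‖gs w (u - Real.log n)‖)
    (fun n => norm_nonneg _) (fun p hp => ga_le (w := w) ha X 0 ℓ u p (pg_rg X hp))
    (pg_sum_le X _ (fun n => norm_nonneg _) hB1)
  have u2 := A_le S r ⌊K0⌋₊ (Pg X) (gb a w u) (fun n => ‖gs w (u + Real.log n)‖)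
    (fun n => norm_nonneg _) (fun p hp => gb_le (w := w) ha X 0 u p (pg_rg X hp))
    (pg_sum_le X _ (fun n => norm_nonneg _) hB2)
  change _ ≤ B * V1 S r ⌊K0⌋₊ X w u at u1
  change _ ≤ B * V2 S r ⌊K0⌋₊ X w u at u2
  have hGu : Gu X w 0 ℓ θ e0 e1 u = (1 + θ) * (ℓ ^ 2 * ‖gs w u‖ ^ 2 + ∑ n ∈ Finset.Icc 1 X,
      (ArithmeticFunction.vonMangoldt n) ^ 2 / n * ‖gs w (u - Real.log n)‖ ^ 2 + q2 w * e1) +
      3 * (1 + 1 / θ) * (∑ n ∈ Finset.Icc 1 X,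
      (ArithmeticFunction.vonMangoldt n) ^ 2 / n * ‖gs w (u + Real.log n)‖ ^ 2 + q2 w * e1) := by
    unfold Gu
    rw [Real.sqrt_zero]
    ring
  set s1 := ∑ n ∈ Finset.Icc 1 X, (ArithmeticFunction.vonMangoldt n) ^ 2 / n *
        ‖gs w (u - Real.log n)‖ ^ 2
  set s2 := ∑ n ∈ Finset.Icc 1 X, (ArithmeticFunction.vonMangoldt n) ^ 2 / n *
        ‖gs w (u + Real.log n)‖ ^ 2
  have hθ1 : 0 ≤ 1 + θ := by linarith
  have hθ2 : 0 ≤ 1 + 1 / θ := by positivity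
  have hqe : 0 ≤ q2 w * e1 := mul_nonneg hq he10
  have c1 : ∫ t, TC.om τ H t * (‖RP S r t‖ ^ 2 * ‖Q1 t‖ ^ 2) ≤
      Real.sqrt (2 * Real.pi) * H * (w1 S r * ((1 + θ) * (ℓ ^ 2 * ‖gs w u‖ ^ 2 + s1 + q2 w * e1)) +
        (1 + 1 / θ) * (B * V1 S r ⌊K0⌋₊ X w u)) := by
    refine b1.trans (mul_le_mul_of_nonneg_left ?_ hsH)
    have k1 := mul_le_mul_of_nonneg_left (mul_le_mul_of_nonneg_left t1 hw) hθ1
    have k2 := mul_le_mul_of_nonneg_left u1 hθ2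
    have k3 := mul_le_mul_of_nonneg_left sq1 hw
    have k4 : 0 ≤ θ * (w1 S r * (q2 w * e1)) := by positivity
    linarith
  have c2 : ∫ t, TC.om τ H t * (‖RP S r t‖ ^ 2 * ‖Q2 t‖ ^ 2) ≤
      Real.sqrt (2 * Real.pi) * H * (w1 S r * ((1 + θ) * (s2 + q2 w * e1)) +
        (1 + 1 / θ) * (B * V2 S r ⌊K0⌋₊ X w u)) := by
    refine b2.trans (mul_le_mul_of_nonneg_left ?_ hsH)
    have k1 := mul_le_mul_of_nonneg_left (mul_le_mul_of_nonneg_left t2 hw) hθ1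
    have k2 := mul_le_mul_of_nonneg_left u2 hθ2
    have k3 := mul_le_mul_of_nonneg_left sq2 hw
    have k4 : 0 ≤ θ * (w1 S r * (q2 w * e1)) := by positivity
    linarith
  have d1 := mul_le_mul_of_nonneg_left c1 hθ1
  have d2 := mul_le_mul_of_nonneg_left c2 hη3
  have d0 := mul_le_mul_of_nonneg_left b0 (mul_nonneg hη3 (by positivity : 0 ≤ B ^ 2 + B ^ 2))
  unfold Gv
  rw [hGu]
  refine (add_le_add (add_le_add d1 d2) d0).trans (le_of_eq ?_)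
  ring

end One

section Asm

variable {b : ℝ} {W : ℂ → ℂ} {w : ℝ → ℂ}

lemma gm_cont (h : BW b W w) (n : ℕ) : Continuous (fun u : ℝ => ‖gs w (u - Real.log n)‖) :=
  ((gs_cont h).comp (by fun_prop)).norm

lemma gp_cont (h : BW b W w) (n : ℕ) : Continuous (fun u : ℝ => ‖gs w (u + Real.log n)‖) :=
  ((gs_cont h).comp (by fun_prop)).norm

lemma V1_cont (h : BW b W w) (S : Finset ℕ) (r : ℕ → ℂ) (M X : ℕ) :
    Continuous (V1 S r M X w) := by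
  unfold V1
  exact continuous_finsetSum _ fun n _ => continuous_const.mul (gm_cont h n)

lemma V2_cont (h : BW b W w) (S : Finset ℕ) (r : ℕ → ℂ) (M X : ℕ) :
    Continuous (V2 S r M X w) := by
  unfold V2
  exact continuous_finsetSum _ fun n _ => continuous_const.mul (gp_cont h n)

lemma Gv_cont (h : BW b W w) (S : Finset ℕ) (r : ℕ → ℂ) (M X : ℕ) (ℓ θ e0 e1 B : ℝ) :
    Continuous (Gv S r M X w ℓ θ e0 e1 B) := by
  unfold Gv
  exact (continuous_const.mul ((continuous_const.mul (Gu_cont h X 0 ℓ θ e0 e1)).add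
    continuous_const)).add ((continuous_const.mul (V1_cont h S r M X)).add
      (continuous_const.mul (V2_cont h S r M X)))

/-- averaging the first power -/
lemma av5 (h : BW b W w) (hi : Integrable (fun x : ℝ => ‖gs w x‖)) {B : ℝ}
    (hB : (∫ x : ℝ, ‖gs w x‖) ≤ B) {Λ : ℝ} (hΛ : 0 < Λ) (s : ℝ) :
    Lf Λ (fun u => ‖gs w (u + s)‖) ≤ Rf 0 * B := by
  have hc : Continuous (fun u : ℝ => ‖gs w (u + s)‖) := ((gs_cont h).comp (by fun_prop)).norm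
  have hR := nt_Rf_nonneg 0
  unfold Lf
  have h1 : ∫ u in (0 : ℝ)..Λ, Rf (u / Λ) * ‖gs w (u + s)‖ ≤
      ∫ u in (0 : ℝ)..Λ, Rf 0 * ‖gs w (u + s)‖ := by
    apply intervalIntegral.integral_mono_on hΛ.le
      (((rf_cont Λ).mul hc).intervalIntegrable _ _)
      ((continuous_const.mul hc).intervalIntegrable _ _)
    intro u hu
    exact mul_le_mul_of_nonneg_right (nt_Rf_le _ (div_nonneg hu.1 hΛ.le)) (norm_nonneg _)
  rw [intervalIntegral.integral_const_mul] at h1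
  refine h1.trans (mul_le_mul_of_nonneg_left ?_ hR)
  have h2 : ∫ u in (0 : ℝ)..Λ, ‖gs w (u + s)‖ ≤ ∫ u : ℝ, ‖gs w (u + s)‖ := by
    rw [intervalIntegral.integral_of_le hΛ.le]
    exact setIntegral_le_integral (hi.comp_add_right s)
      (Eventually.of_forall fun u => norm_nonneg _)
  rw [integral_add_right_eq_self (fun x : ℝ => ‖gs w x‖) s] at h2
  exact h2.trans hB

lemma Lf_V (S : Finset ℕ) (r : ℕ → ℂ) {M X : ℕ} {K0 : ℝ} (hS : Len S K0) {Λ B : ℝ} (hB : 0 ≤ B)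
    (F : ℕ → ℝ → ℝ) (hF : ∀ n, Continuous (F n)) (hL : ∀ n, Lf Λ (F n) ≤ Rf 0 * B) :
    Lf Λ (fun u => ∑ p ∈ Pg X, cf S r M p * F p u) ≤ Rf 0 * B * (Real.log K0 * w1 S r) := by
  rw [Lf_sum _ _ F hF]
  have hR := nt_Rf_nonneg 0
  calc _ ≤ ∑ p ∈ Pg X, cf S r M p * (Rf 0 * B) :=
        Finset.sum_le_sum fun p _ => mul_le_mul_of_nonneg_left (hL p) (cf_nonneg S r M p)
    _ = (Rf 0 * B) * ∑ p ∈ Pg X, cf S r M p := by
        rw [← Finset.sum_mul, mul_comm]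
    _ ≤ _ := mul_le_mul_of_nonneg_left (coef_sum S r hS (Pg X) (fun p hp => pg_prime hp))
        (mul_nonneg hR hB)

lemma Lf_Gv (h : BW b W w) (hc : ∀ x, ‖gs w (-x)‖ = ‖gs w x‖) (hb : 0 < b) {X : ℕ}
    (hX : 1 ≤ X) {ℓ θ e0 e1 Λ K B : ℝ} (hθ : 0 < θ) (he0 : 0 ≤ e0) (he1 : 0 ≤ e1)
    (hΛ : 0 < Λ) (hXΛ : Real.log X ≤ 2 * Λ) (hK : 0 < K)
    (hlip : ∀ x y, |Rf x - Rf y| ≤ K * |x - y|)
    (hi : Integrable (fun x : ℝ => ‖gs w x‖)) (hB0 : 0 ≤ B) (hB : (∫ x : ℝ, ‖gs w x‖) ≤ B)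
    (S : Finset ℕ) (r : ℕ → ℂ) (M : ℕ) {K0 : ℝ} (hS : Len S K0) :
    Lf Λ (Gv S r M X w ℓ θ e0 e1 B) ≤ w1 S r * ((1 + θ) * (q2 w * BB X b 0 ℓ θ e0 e1 Λ K) +
      6 * (1 + 1 / θ) * (1 + e0) * B ^ 2 * (Λ * Rf 0) +
      ((1 + θ) * (1 + 1 / θ) + 3 * (1 + 1 / θ) ^ 2) * B ^ 2 * Real.log K0 * Rf 0) := by
  have hw := w1_nonneg S r
  have c1 := Gu_cont h X 0 ℓ θ e0 e1
  have c2 := V1_cont h S r M X
  have c3 := V2_cont h S r M X
  have cc : Continuous (fun _ : ℝ => 6 * (1 + 1 / θ) * (1 + e0) * B ^ 2) := continuous_const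
  have e : Lf Λ (Gv S r M X w ℓ θ e0 e1 B) =
      w1 S r * ((1 + θ) * Lf Λ (Gu X w 0 ℓ θ e0 e1) +
        Lf Λ (fun _ => 6 * (1 + 1 / θ) * (1 + e0) * B ^ 2)) +
      ((1 + θ) * (1 + 1 / θ) * B * Lf Λ (V1 S r M X w) +
        3 * (1 + 1 / θ) ^ 2 * B * Lf Λ (V2 S r M X w)) := by
    have k1 : Continuous (fun u => (1 + θ) * Gu X w 0 ℓ θ e0 e1 u) := continuous_const.mul c1
    have k2 : Continuous (fun u => (1 + θ) * Gu X w 0 ℓ θ e0 e1 u +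
      6 * (1 + 1 / θ) * (1 + e0) * B ^ 2) := k1.add cc
    have k3 : Continuous (fun u => w1 S r * ((1 + θ) * Gu X w 0 ℓ θ e0 e1 u +
      6 * (1 + 1 / θ) * (1 + e0) * B ^ 2)) := continuous_const.mul k2
    have k4 : Continuous (fun u => (1 + θ) * (1 + 1 / θ) * B * V1 S r M X w u) :=
      continuous_const.mul c2
    have k5 : Continuous (fun u => 3 * (1 + 1 / θ) ^ 2 * B * V2 S r M X w u) :=
      continuous_const.mul c3
    have k6 : Continuous (fun u => (1 + θ) * (1 + 1 / θ) * B * V1 S r M X w u +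
      3 * (1 + 1 / θ) ^ 2 * B * V2 S r M X w u) := k4.add k5
    rw [← Lf_mul (1 + θ), ← Lf_add k1 cc, ← Lf_mul (w1 S r), ← Lf_mul ((1 + θ) * (1 + 1 / θ) * B),
      ← Lf_mul (3 * (1 + 1 / θ) ^ 2 * B), ← Lf_add k4 k5, ← Lf_add k3 k6]
    rfl
  rw [e]
  have b1 := Lf_Gu h hc hb (ℓ := ℓ) (η := θ) (y := 0) le_rfl hX hθ he0 he1 hΛ hXΛ hK hlip
  have b2 := Lf_const (Λ := Λ) hΛ (c := 6 * (1 + 1 / θ) * (1 + e0) * B ^ 2) (by positivity)
  have b3 : Lf Λ (V1 S r M X w) ≤ Rf 0 * B * (Real.log K0 * w1 S r) :=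
    Lf_V S r hS hB0 (fun n u => ‖gs w (u - Real.log n)‖) (gm_cont h)
      (fun n => av5 h hi hB hΛ (-Real.log n))
  have b4 : Lf Λ (V2 S r M X w) ≤ Rf 0 * B * (Real.log K0 * w1 S r) :=
    Lf_V S r hS hB0 (fun n u => ‖gs w (u + Real.log n)‖) (gp_cont h)
      (fun n => av5 h hi hB hΛ (Real.log n))
  have hθ1 : 0 ≤ 1 + θ := by linarith
  have d1 := mul_le_mul_of_nonneg_left (add_le_add (mul_le_mul_of_nonneg_left b1 hθ1) b2) hw
  have d3 := mul_le_mul_of_nonneg_left b3 (by positivity : 0 ≤ (1 + θ) * (1 + 1 / θ) * B)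
  have d4 := mul_le_mul_of_nonneg_left b4 (by positivity : 0 ≤ 3 * (1 + 1 / θ) ^ 2 * B)
  refine (add_le_add d1 (add_le_add d3 d4)).trans (le_of_eq ?_)
  ring

lemma main_le2 (h : BW b W w) (hc : ∀ x, ‖gs w (-x)‖ = ‖gs w x‖) (hb : 0 < b)
    {a : ℕ → ℂ} (ha : ∀ n, ‖a n‖ ≤ ArithmeticFunction.vonMangoldt n)
    (S : Finset ℕ) (r : ℕ → ℂ) {K0 τ H Y : ℝ} {X : ℕ} (hH : 0 < H) (hK0 : 1 ≤ K0)
    (hS : Len S K0) (hX : 1 ≤ X) (hY : K0 * X ≤ Y) {ℓ θ e0 e1 Λ K B : ℝ}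
    (hℓ : 0 ≤ ℓ) (hθ : 0 < θ) (he0 : K0 * Real.exp (-(H ^ 2) / (8 * Y ^ 2)) = e0)
    (he1 : (ℓ + 12 * Real.sqrt X) ^ 2 * e0 = e1) (hΛ : 0 < Λ) (hXΛ : Real.log X ≤ 2 * Λ)
    (hK : 0 < K) (hlip : ∀ x y, |Rf x - Rf y| ≤ K * |x - y|)
    (hi : Integrable (fun x : ℝ => ‖gs w x‖)) (hB0 : 0 ≤ B) (hB : (∫ x : ℝ, ‖gs w x‖) ≤ B)
    (hB1 : ∀ u, ∑ n ∈ Finset.Icc 1 X, ArithmeticFunction.vonMangoldt n / n *
      ‖gs w (u - Real.log n)‖ ≤ B)
    (hB2 : ∀ u, ∑ n ∈ Finset.Icc 1 X, ArithmeticFunction.vonMangoldt n / n *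
      ‖gs w (u + Real.log n)‖ ≤ B)
    (hB3 : ∀ u, ∑ n ∈ Ng X, TC.lam n * ‖gs w (u - Real.log n)‖ ≤ B)
    (hB4 : ∀ u, ∑ n ∈ Ng X, TC.lam n * ‖gs w (u + Real.log n)‖ ≤ B) :
    ∫ t, (TC.om τ H t * ‖RP S r t‖ ^ 2) *
      (2 * ∫ α in (0 : ℝ)..1, Rf α * ‖PD a X w ℓ (Λ * α) t‖ ^ 2) ≤
    Real.sqrt (2 * Real.pi) * H * w1 S r * (2 / Λ * ((1 + θ) * (q2 w * BB X b 0 ℓ θ e0 e1 Λ K) +
      6 * (1 + 1 / θ) * (1 + e0) * B ^ 2 * (Λ * Rf 0) +
      ((1 + θ) * (1 + 1 / θ) + 3 * (1 + 1 / θ) ^ 2) * B ^ 2 * Real.log K0 * Rf 0)) := by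
  obtain ⟨C, hC⟩ := pd_bd h a X ℓ
  have hC0 : 0 ≤ C := (norm_nonneg _).trans (hC 0 0)
  rw [fub (om_R_int hH S r) ((TC.om_cont τ H).mul ((RP_cont S r).norm.pow 2))
    (fun t => mul_nonneg (TC.om_pos τ H t).le (sq_nonneg _))
    (F := fun α t => ‖PD a X w ℓ (Λ * α) t‖ ^ 2) ((pd_cont2 h a X ℓ Λ).norm.pow 2)
    (fun _ _ => sq_nonneg _) (C := C ^ 2)
    (fun α t => pow_le_pow_left₀ (norm_nonneg _) (hC _ _) 2)]
  set N0 := Real.sqrt (2 * Real.pi) * H with hN0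
  have hN00 : 0 ≤ N0 := by positivity
  have he00 : 0 ≤ e0 := by
    rw [← he0]
    have := Real.exp_pos (-(H ^ 2) / (8 * Y ^ 2))
    positivity
  have he10 : 0 ≤ e1 := by
    rw [← he1]
    positivity
  have hcG := Gv_cont h S r ⌊K0⌋₊ X ℓ θ e0 e1 B
  have h1 : ∫ α in (0 : ℝ)..1, Rf α * ∫ t, TC.om τ H t * ‖RP S r t‖ ^ 2 *
      ‖PD a X w ℓ (Λ * α) t‖ ^ 2 ≤
      ∫ α in (0 : ℝ)..1, N0 * (Rf (Λ * α / Λ) * Gv S r ⌊K0⌋₊ X w ℓ θ e0 e1 B (Λ * α)) := by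
    rw [intervalIntegral.integral_of_le zero_le_one, intervalIntegral.integral_of_le zero_le_one]
    refine integral_mono_of_nonneg (Eventually.of_forall fun α => mul_nonneg (nt_Rf_nonneg _)
      (integral_nonneg fun t => mul_nonneg (mul_nonneg (TC.om_pos τ H t).le (sq_nonneg _))
        (sq_nonneg _))) ?_ (Eventually.of_forall fun α => ?_)
    · have hcc : Continuous (fun α : ℝ => N0 * (Rf (Λ * α / Λ) *
          Gv S r ⌊K0⌋₊ X w ℓ θ e0 e1 B (Λ * α))) :=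
        continuous_const.mul ((nt_Rf_cont.comp (by fun_prop)).mul (hcG.comp (by fun_prop)))
      exact hcc.integrableOn_Ioc
    · simp only
      rw [mul_div_cancel_left₀ _ hΛ.ne']
      have h2 := one_u2 h ha S r (τ := τ) hH hK0 hS hX hY hℓ hθ he0 he1 (Λ * α)
        (hB1 _) (hB2 _) (hB3 _) (hB4 _)
      have h3 := mul_le_mul_of_nonneg_left h2 (nt_Rf_nonneg α)
      have e : ∀ t, TC.om τ H t * ‖RP S r t‖ ^ 2 * ‖PD a X w ℓ (Λ * α) t‖ ^ 2 =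
          TC.om τ H t * (‖RP S r t‖ ^ 2 * ‖PD a X w ℓ (Λ * α) t‖ ^ 2) := fun t => by ring
      simp_rw [e]
      refine h3.trans (le_of_eq ?_)
      rw [hN0]
      ring
  have h4 : ∫ α in (0 : ℝ)..1, N0 * (Rf (Λ * α / Λ) * Gv S r ⌊K0⌋₊ X w ℓ θ e0 e1 B (Λ * α)) =
      N0 * (Λ⁻¹ * Lf Λ (Gv S r ⌊K0⌋₊ X w ℓ θ e0 e1 B)) := by
    rw [intervalIntegral.integral_const_mul]
    have h5 := intervalIntegral.integral_comp_mul_left (a := 0) (b := 1)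
      (fun u : ℝ => Rf (u / Λ) * Gv S r ⌊K0⌋₊ X w ℓ θ e0 e1 B u) hΛ.ne'
    rw [h5, mul_zero, mul_one, smul_eq_mul]
    rfl
  rw [h4] at h1
  have h6 := Lf_Gv h hc hb (ℓ := ℓ) (θ := θ) hX hθ he00 he10 hΛ hXΛ hK hlip hi hB0 hB
    S r ⌊K0⌋₊ hS
  have h7 := mul_le_mul_of_nonneg_left h6 (inv_pos.2 hΛ).le
  have h8 := mul_le_mul_of_nonneg_left h7 hN00
  calc _ ≤ 2 * (N0 * (Λ⁻¹ * Lf Λ (Gv S r ⌊K0⌋₊ X w ℓ θ e0 e1 B))) :=
        mul_le_mul_of_nonneg_left h1 (by norm_num)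
    _ ≤ 2 * (N0 * (Λ⁻¹ * (w1 S r * ((1 + θ) * (q2 w * BB X b 0 ℓ θ e0 e1 Λ K) +
      6 * (1 + 1 / θ) * (1 + e0) * B ^ 2 * (Λ * Rf 0) +
      ((1 + θ) * (1 + 1 / θ) + 3 * (1 + 1 / θ) ^ 2) * B ^ 2 * Real.log K0 * Rf 0)))) :=
        mul_le_mul_of_nonneg_left h8 (by norm_num)
    _ = _ := by
        rw [div_eq_mul_inv]
        ring

end Asm

/-- the error terms -/
lemma ev_alg2 {η δ T L H : ℝ} {X : ℕ} (hη : 0 < η) (hη1 : η ≤ 1 / 16) (hδ : 0 < δ)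
    (hδη : δ ≤ η / 4) (hT : 1 ≤ T) (hL : L = Real.log T) (h26 : 26 ≤ L) (h4 : L ^ 4 ≤ T ^ η)
    (hX : (X : ℝ) ≤ T) (hH : T ^ (1 - δ) ≤ H) :
    (L + 12 * Real.sqrt X) ^ 2 *
      (T ^ δ * Real.exp (-(H ^ 2) / (8 * (T ^ (1 - η + δ)) ^ 2))) ≤ 1 := by
  have hT0 : 0 < T := by linarith
  have hL0 : 0 < L := by linarith
  have h1 := ev_alg (δ := 2 * δ) hη hη1 (by linarith) (by linarith) hT hL h26 h4 hX
  refine le_trans (mul_le_mul_of_nonneg_left ?_ (sq_nonneg _)) h1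
  have h2 : T ^ δ ≤ T ^ (2 * δ) := Real.rpow_le_rpow_of_exponent_le hT (by linarith)
  refine mul_le_mul h2 (Real.exp_le_exp.2 ?_) (Real.exp_pos _).le (by positivity)
  rw [neg_div, neg_div, neg_le_neg_iff]
  have hp1 : 0 < T ^ (1 - δ) := Real.rpow_pos_of_pos hT0 _
  have hp2 : 0 < T ^ (1 - η + δ) := Real.rpow_pos_of_pos hT0 _
  have hp3 : 0 < T ^ (1 - η + 2 * δ) := Real.rpow_pos_of_pos hT0 _
  have hH0 : 0 < H := by linarith
  have e1 : T ^ (1 - δ) * T ^ (1 - η + 2 * δ) = T * T ^ (1 - η + δ) := by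
    rw [← Real.rpow_add hT0]
    nth_rewrite 2 [← Real.rpow_one T]
    rw [← Real.rpow_add hT0]
    congr 1
    ring
  have h3 : T / L ≤ T := div_le_self hT0.le (by linarith)
  have h5 : T / L * T ^ (1 - η + δ) ≤ H * T ^ (1 - η + 2 * δ) := by
    calc T / L * T ^ (1 - η + δ) ≤ T * T ^ (1 - η + δ) := by gcongr
      _ = T ^ (1 - δ) * T ^ (1 - η + 2 * δ) := e1.symm
      _ ≤ _ := by gcongr
  rw [div_le_div_iff₀ (by positivity) (by positivity)]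
  have h6 : 0 ≤ T / L * T ^ (1 - η + δ) := by positivity
  have h7 := pow_le_pow_left₀ h6 h5 2
  calc (T / L) ^ 2 * (8 * (T ^ (1 - η + δ)) ^ 2) = 8 * (T / L * T ^ (1 - η + δ)) ^ 2 := by ring
    _ ≤ 8 * (H * T ^ (1 - η + 2 * δ)) ^ 2 := by linarith
    _ = _ := by ring

/-! ## numbers -/

lemma num2 {η θ q ε R0 J K G3 E3 L Λ b δ e0 e1 lX C : ℝ} (hη : 0 < η) (hη1 : η ≤ 1 / 16)
    (hθ : 0 < θ) (hθ1 : θ ≤ 1) (hq : 1 ≤ q) (hε : 0 < ε)
    (hR : 0 ≤ R0) (hJ : 0 ≤ J) (hK : 0 < K) (hG : 0 ≤ G3) (hE : 0 ≤ E3) (hL : 1 ≤ L)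
    (hΛ : Λ = (1 - 4 * η) * L) (hb : 0 < b) (hbL : b ≤ η * L) (_he0 : 0 ≤ e0) (he01 : e0 ≤ 1)
    (_he1 : 0 ≤ e1) (he11 : e1 ≤ 1) (hlX0 : 0 ≤ lX) (hlX : lX ≤ L) (hδ : 0 < δ) (hδ1 : δ ≤ 1)
    (hθε : 8 * (θ * (3 * R0 + 6 * J)) ≤ ε)
    (hηε : 8 * (η * (4 * R0 + 6 * K + 24 * q * R0 + 24 * q * C ^ 2 * R0 +
      10 * q ^ 2 * C ^ 2 * R0)) ≤ ε)
    (hbig : 2 * (136 * R0 + 11 * K * (1 + 17 * G3) + 12 * q * R0 * (10 + E3)) ≤ ε * L) :
    2 / Λ * ((1 + θ) * ((1 + θ) * (L ^ 2 * (R0 / 2) + (8 * R0 + (Λ ^ 2 * J + 8 * Λ * R0) +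
      (K / Λ * (b + G3)) * (lX ^ 2 / 2 + 8 * (lX + 1))) + e1 * (Λ * R0)) +
      3 * q * (R0 * ((2 * b) ^ 2 / 2 + 8 * (2 * b + 1) + E3) + e1 * (Λ * R0))) +
      6 * q * (1 + e0) * (C ^ 2 * b) * (Λ * R0) +
      ((1 + θ) * q + 3 * q ^ 2) * (C ^ 2 * b) * (δ * L) * R0) ≤ L * (R0 + 2 * J + ε) := by
  have hL0 : 0 < L := by linarith
  have hΛ34 : 3 / 4 * L ≤ Λ := by rw [hΛ]; nlinarith
  have hΛ0 : 0 < Λ := by linarith
  have hΛL : Λ ≤ L := by rw [hΛ]; nlinarith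
  have hq0 : 0 < q := by linarith
  have hLL : L ≤ L ^ 2 := by nlinarith
  have hT : (1 + θ) ^ 2 ≤ 1 + 3 * θ := by nlinarith
  have hT4 : (1 + θ) ^ 2 ≤ 4 := by nlinarith
  have hT0 : 0 ≤ (1 + θ) ^ 2 := sq_nonneg _
  have hL2 : 0 ≤ L ^ 2 := sq_nonneg _
  -- the terms
  have z1 : (1 + θ) ^ 2 * (L ^ 2 * R0) ≤ (1 + 3 * θ) * (L ^ 2 * R0) :=
    mul_le_mul_of_nonneg_right hT (by positivity)
  have z3 : (1 + θ) ^ 2 * (Λ ^ 2 * J) ≤ Λ * L * J + 3 * θ * J * L ^ 2 := by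
    have h1 : Λ ^ 2 * J ≤ Λ * L * J := by
      have := mul_le_mul_of_nonneg_left hΛL hΛ0.le
      exact mul_le_mul_of_nonneg_right (by linarith) hJ
    have h2 : Λ * L * J ≤ L ^ 2 * J := by
      have := mul_le_mul_of_nonneg_right hΛL hL0.le
      exact mul_le_mul_of_nonneg_right (by linarith) hJ
    have h3 : 0 ≤ Λ * L * J := by positivity
    calc (1 + θ) ^ 2 * (Λ ^ 2 * J) ≤ (1 + θ) ^ 2 * (Λ * L * J) :=
          mul_le_mul_of_nonneg_left h1 hT0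
      _ ≤ (1 + 3 * θ) * (Λ * L * J) := mul_le_mul_of_nonneg_right hT h3
      _ = Λ * L * J + 3 * θ * (Λ * L * J) := by ring
      _ ≤ Λ * L * J + 3 * θ * (L ^ 2 * J) := by
          have := mul_le_mul_of_nonneg_left h2 (by positivity : 0 ≤ 3 * θ)
          linarith
      _ = _ := by ring
  have z2 : (1 + θ) ^ 2 * (8 * R0 + 8 * Λ * R0) ≤ 64 * R0 * L := by
    have h1 : 8 * R0 + 8 * Λ * R0 ≤ 16 * (R0 * L) := by
      have j1 := mul_le_mul_of_nonneg_right hL hR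
      have j2 := mul_le_mul_of_nonneg_right hΛL hR
      linarith
    have h2 : 0 ≤ 8 * R0 + 8 * Λ * R0 := by positivity
    calc _ ≤ 4 * (8 * R0 + 8 * Λ * R0) := mul_le_mul_of_nonneg_right hT4 h2
      _ ≤ _ := by linarith
  have z4 : (1 + θ) ^ 2 * ((K / Λ * (b + G3)) * (lX ^ 2 / 2 + 8 * (lX + 1))) ≤
      8 / 3 * K * η * L ^ 2 + 16 / 3 * K * (1 + 17 * G3) * L := by
    have h1 : (b + G3) * (lX ^ 2 / 2 + 8 * (lX + 1)) ≤ (η * L + G3) * (L ^ 2 / 2 + 16 * L) := by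
      have h2 : lX ^ 2 ≤ L ^ 2 := pow_le_pow_left₀ hlX0 hlX 2
      apply mul_le_mul (by linarith) (by linarith) (by positivity) (by positivity)
    have h3 : (η * L + G3) * (L ^ 2 / 2 + 16 * L) ≤ η * L ^ 3 / 2 + (1 + 17 * G3) * L ^ 2 := by
      have h4 : 16 * η * L ^ 2 ≤ L ^ 2 := by nlinarith [sq_nonneg L]
      have h5 : G3 * L ≤ G3 * L ^ 2 := mul_le_mul_of_nonneg_left hLL hG
      have h6 : 0 ≤ G3 * L ^ 2 := by positivity
      have e : (η * L + G3) * (L ^ 2 / 2 + 16 * L) =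
          η * L ^ 3 / 2 + 16 * η * L ^ 2 + G3 * L ^ 2 / 2 + 16 * (G3 * L) := by ring
      rw [e]
      linarith
    have h7 : (1 + θ) ^ 2 * (K / Λ) ≤ 16 / 3 * K / L := by
      rw [mul_div_assoc', div_le_div_iff₀ hΛ0 hL0]
      have h8 := mul_le_mul_of_nonneg_right hT4 (mul_nonneg hK.le hL0.le)
      have h9 := mul_le_mul_of_nonneg_left hΛ34 hK.le
      linarith
    have h8 : 0 ≤ (b + G3) * (lX ^ 2 / 2 + 8 * (lX + 1)) := by positivity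
    calc (1 + θ) ^ 2 * ((K / Λ * (b + G3)) * (lX ^ 2 / 2 + 8 * (lX + 1))) =
        ((1 + θ) ^ 2 * (K / Λ)) * ((b + G3) * (lX ^ 2 / 2 + 8 * (lX + 1))) := by ring
      _ ≤ (16 / 3 * K / L) * ((b + G3) * (lX ^ 2 / 2 + 8 * (lX + 1))) :=
          mul_le_mul_of_nonneg_right h7 h8
      _ ≤ (16 / 3 * K / L) * (η * L ^ 3 / 2 + (1 + 17 * G3) * L ^ 2) :=
          mul_le_mul_of_nonneg_left (h1.trans h3) (by positivity)
      _ = _ := by
          field_simp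
          ring
  have he1R : e1 * (Λ * R0) ≤ R0 * L := by
    have := mul_le_mul he11 (mul_le_mul_of_nonneg_right hΛL hR) (by positivity) (by norm_num)
    linarith
  have he1R0 : 0 ≤ e1 * (Λ * R0) := by positivity
  have z5 : (1 + θ) ^ 2 * (e1 * (Λ * R0)) ≤ 4 * R0 * L := by
    have := mul_le_mul_of_nonneg_right hT4 he1R0
    linarith
  have h62 : R0 * ((2 * b) ^ 2 / 2 + 8 * (2 * b + 1) + E3) ≤
      R0 * (2 * η ^ 2 * L ^ 2 + (9 + E3) * L) := by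
    have h1 : (2 * b) ^ 2 / 2 ≤ 2 * η ^ 2 * L ^ 2 := by
      have := pow_le_pow_left₀ hb.le hbL 2
      rw [mul_pow] at this
      linarith
    have h2 : 8 * (2 * b + 1) + E3 ≤ (9 + E3) * L := by
      have h3 : 16 * b ≤ L := by
        have := mul_le_mul_of_nonneg_right hη1 hL0.le
        linarith
      have h4 : E3 ≤ E3 * L := le_mul_of_one_le_right hE hL
      linarith
    exact mul_le_mul_of_nonneg_left (by linarith) hR
  have z6 : (1 + θ) * (3 * q * (R0 * ((2 * b) ^ 2 / 2 + 8 * (2 * b + 1) + E3))) ≤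
      12 * q * R0 * (η * L ^ 2) + 6 * q * R0 * (9 + E3) * L := by
    have h1 : 0 ≤ R0 * ((2 * b) ^ 2 / 2 + 8 * (2 * b + 1) + E3) := by positivity
    have h2 : η ^ 2 ≤ η := by nlinarith
    have h3 : R0 * (2 * η ^ 2 * L ^ 2) ≤ R0 * (2 * η * L ^ 2) :=
      mul_le_mul_of_nonneg_left (mul_le_mul_of_nonneg_right (by linarith) hL2) hR
    calc _ ≤ 2 * (3 * q * (R0 * ((2 * b) ^ 2 / 2 + 8 * (2 * b + 1) + E3))) :=
          mul_le_mul_of_nonneg_right (by linarith) (by positivity)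
      _ = 6 * q * (R0 * ((2 * b) ^ 2 / 2 + 8 * (2 * b + 1) + E3)) := by ring
      _ ≤ 6 * q * (R0 * (2 * η ^ 2 * L ^ 2 + (9 + E3) * L)) :=
          mul_le_mul_of_nonneg_left h62 (by positivity)
      _ = 6 * q * (R0 * (2 * η ^ 2 * L ^ 2)) + 6 * q * R0 * (9 + E3) * L := by ring
      _ ≤ 6 * q * (R0 * (2 * η * L ^ 2)) + 6 * q * R0 * (9 + E3) * L := by
          have := mul_le_mul_of_nonneg_left h3 (by positivity : 0 ≤ 6 * q)
          linarith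
      _ = _ := by ring
  have z7 : (1 + θ) * (3 * q * (e1 * (Λ * R0))) ≤ 6 * q * R0 * L := by
    calc _ ≤ 2 * (3 * q * (e1 * (Λ * R0))) :=
          mul_le_mul_of_nonneg_right (by linarith) (by positivity)
      _ = 6 * q * (e1 * (Λ * R0)) := by ring
      _ ≤ 6 * q * (R0 * L) := mul_le_mul_of_nonneg_left he1R (by positivity)
      _ = _ := by ring
  have hCb : C ^ 2 * b ≤ C ^ 2 * (η * L) := mul_le_mul_of_nonneg_left hbL (sq_nonneg _)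
  have z8 : 6 * q * (1 + e0) * (C ^ 2 * b) * (Λ * R0) ≤ 12 * q * C ^ 2 * R0 * (η * L ^ 2) := by
    have h1 : (C ^ 2 * b) * (Λ * R0) ≤ (C ^ 2 * (η * L)) * (L * R0) :=
      mul_le_mul hCb (mul_le_mul_of_nonneg_right hΛL hR) (by positivity) (by positivity)
    calc 6 * q * (1 + e0) * (C ^ 2 * b) * (Λ * R0) =
        6 * q * (1 + e0) * ((C ^ 2 * b) * (Λ * R0)) := by ring
      _ ≤ 6 * q * 2 * ((C ^ 2 * (η * L)) * (L * R0)) :=
          mul_le_mul (mul_le_mul_of_nonneg_left (by linarith) (by positivity)) h1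
            (by positivity) (by positivity)
      _ = _ := by ring
  have z9 : ((1 + θ) * q + 3 * q ^ 2) * (C ^ 2 * b) * (δ * L) * R0 ≤
      5 * q ^ 2 * C ^ 2 * R0 * (η * L ^ 2) := by
    have h1 : (1 + θ) * q + 3 * q ^ 2 ≤ 5 * q ^ 2 := by nlinarith
    have h2 : δ * L ≤ 1 * L := mul_le_mul_of_nonneg_right hδ1 hL0.le
    have h3 : ((1 + θ) * q + 3 * q ^ 2) * (C ^ 2 * b) ≤ 5 * q ^ 2 * (C ^ 2 * (η * L)) :=
      mul_le_mul h1 hCb (by positivity) (by positivity)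
    have h4 : ((1 + θ) * q + 3 * q ^ 2) * (C ^ 2 * b) * (δ * L) ≤
        5 * q ^ 2 * (C ^ 2 * (η * L)) * (1 * L) :=
      mul_le_mul h3 h2 (by positivity) (by positivity)
    calc _ ≤ 5 * q ^ 2 * (C ^ 2 * (η * L)) * (1 * L) * R0 := mul_le_mul_of_nonneg_right h4 hR
      _ = _ := by ring
  rw [div_mul_eq_mul_div, div_le_iff₀ hΛ0]
  have hA1 : 8 * (θ * (3 * R0 + 6 * J)) * L ^ 2 ≤ ε * L ^ 2 := mul_le_mul_of_nonneg_right hθε hL2
  have hA2 : 8 * (η * (4 * R0 + 6 * K + 24 * q * R0 + 24 * q * C ^ 2 * R0 +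
      10 * q ^ 2 * C ^ 2 * R0)) * L ^ 2 ≤ ε * L ^ 2 := mul_le_mul_of_nonneg_right hηε hL2
  have hA3 : 2 * (136 * R0 + 11 * K * (1 + 17 * G3) + 12 * q * R0 * (10 + E3)) * L ≤
      ε * L ^ 2 := by
    have := mul_le_mul_of_nonneg_right hbig hL0.le
    linarith
  have hεΛ : 3 / 4 * (ε * L ^ 2) ≤ L * ε * Λ := by
    have := mul_le_mul_of_nonneg_left hΛ34 (mul_nonneg hε.le hL0.le)
    linarith
  have e1' : L * (R0 + 2 * J + ε) * Λ = 2 * (Λ * L * J) + (1 - 4 * η) * L ^ 2 * R0 + L * ε * Λ := by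
    rw [hΛ]
    ring
  have h10 : 0 ≤ η * K * L ^ 2 := by positivity
  have h11 : 0 ≤ K * (1 + 17 * G3) * L := by positivity
  have h12 : 0 ≤ R0 * L := by positivity
  rw [e1']
  linarith

end Ms2aux

open Msaux Ms2aux in
theorem ms2 (hch : S_ch) (hgs : S_gs) : S_ms2 := by
  obtain ⟨C, hC1, hch⟩ := hch
  intro ε hε
  obtain ⟨K, hK, hlip⟩ := nt_Rf_lip
  have hR := nt_Rf_nonneg 0
  set J := ∫ α in (0 : ℝ)..1, α * Rf α with hJ
  have hJ0 : 0 ≤ J := intervalIntegral.integral_nonneg zero_le_one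
    (fun α hα => mul_nonneg hα.1 (nt_Rf_nonneg α))
  have hcM : Rf 0 + 2 * J = cMTinv := Rf_const
  set θ := min 1 (ε / (8 * (3 * Rf 0 + 6 * J + 1))) with hθdef
  have hθ : 0 < θ := by positivity
  have hθ1 : θ ≤ 1 := min_le_left _ _
  have hθε : 8 * (θ * (3 * Rf 0 + 6 * J)) ≤ ε := by
    have h1 : θ ≤ ε / (8 * (3 * Rf 0 + 6 * J + 1)) := min_le_right _ _
    rw [le_div_iff₀ (by positivity)] at h1
    linarith
  set q := 1 + 1 / θ with hq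
  have hq1 : 1 ≤ q := by
    have : 0 < 1 / θ := by positivity
    linarith
  set D := 4 * Rf 0 + 6 * K + 24 * q * Rf 0 + 24 * q * C ^ 2 * Rf 0 +
      10 * q ^ 2 * C ^ 2 * Rf 0 with hD
  have hD0 : 0 < D := by positivity
  refine ⟨min (1 / 16) (ε / (8 * D)), by positivity,
    (min_le_left _ _).trans_lt (by norm_num), fun η hη hη1 => ?_⟩
  have h16 : η ≤ 1 / 16 := hη1.trans (min_le_left _ _)
  have hηε : 8 * (η * D) ≤ ε := by
    have h1 := hη1.trans (min_le_right _ _)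
    rw [le_div_iff₀ (by positivity)] at h1
    linarith
  set δ := η / 4 with hδ
  have hδ0 : 0 < δ := by positivity
  have hδη : δ ≤ η / 4 := le_rfl
  have hδ1 : δ ≤ 1 := by linarith
  set C5 := 136 * Rf 0 + 11 * K * (1 + 17 * cG) +
    12 * q * Rf 0 * (10 + Real.exp 2 * c3) with hC5
  have ev1 : ∀ᶠ T : ℝ in atTop, 26 ≤ Real.log T := Real.tendsto_log_atTop.eventually_ge_atTop 26
  have ev2 : ∀ᶠ T : ℝ in atTop, 2 * C5 / ε ≤ Real.log T :=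
    Real.tendsto_log_atTop.eventually_ge_atTop _
  have ev3 : ∀ᶠ T : ℝ in atTop, (Real.log T) ^ 4 ≤ T ^ η := by
    have h1 := (isLittleO_log_rpow_rpow_atTop (s := η) 4 hη).bound (c := 1) one_pos
    filter_upwards [h1, eventually_ge_atTop 1] with T hT hT1
    have hl : 0 ≤ Real.log T := Real.log_nonneg hT1
    rw [Real.norm_of_nonneg (by positivity), Real.norm_of_nonneg (by positivity), one_mul] at hT
    calc (Real.log T) ^ 4 = (Real.log T) ^ (4 : ℝ) := by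
          rw [← Real.rpow_natCast]
          norm_num
      _ ≤ _ := hT
  obtain ⟨T0, hT0⟩ := eventually_atTop.1 (ev1.and (ev2.and ev3))
  refine ⟨δ, max T0 10, hδ0, le_max_right _ _,
    fun T hT a ha S hS r b W w hw hb hbL hWr τ H hHT => ?_⟩
  obtain ⟨h26, hC, h4⟩ := hT0 T ((le_max_left _ _).trans hT)
  have hT10 : 10 ≤ T := (le_max_right _ _).trans hT
  have hT1 : 1 ≤ T := by linarith
  have hTp : 0 < T := by linarith
  set L := Real.log T with hL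
  have hL1 : 1 ≤ L := by linarith
  have hL0 : 0 < L := by linarith
  set X := ⌊T ^ (1 - η)⌋₊ with hX
  have hXpos : 1 ≤ X := by
    rw [hX, Nat.one_le_floor_iff]
    exact Real.one_le_rpow hT1 (by linarith)
  have hXle : (X : ℝ) ≤ T ^ (1 - η) := Nat.floor_le (by positivity)
  have hXT : (X : ℝ) ≤ T := by
    refine hXle.trans ?_
    have := Real.rpow_le_rpow_of_exponent_le hT1 (by linarith : 1 - η ≤ 1)
    rwa [Real.rpow_one] at this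
  have hX0 : (0 : ℝ) < X := by exact_mod_cast hXpos
  have hlX : Real.log X ≤ L := Real.log_le_log hX0 hXT
  have hlX0 : 0 ≤ Real.log X := Real.log_nonneg (by exact_mod_cast hXpos)
  have hΛ0 : 0 < (1 - 4 * η) * L := by
    have : 0 < 1 - 4 * η := by linarith
    positivity
  have hH : 0 < H := (Real.rpow_pos_of_pos hTp _).trans_le hHT
  have hKY : T ^ δ * X ≤ T ^ (1 - η + δ) := by
    rw [show 1 - η + δ = δ + (1 - η) by ring, Real.rpow_add hTp]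
    exact mul_le_mul_of_nonneg_left hXle (by positivity)
  have hev := ev_alg2 hη h16 hδ0 hδη hT1 hL h26 h4 hXT hHT
  have he0 : 0 ≤ T ^ δ * Real.exp (-(H ^ 2) / (8 * (T ^ (1 - η + δ)) ^ 2)) := by positivity
  have hD1 : 1 ≤ (L + 12 * Real.sqrt X) ^ 2 := by
    have : 1 ≤ L + 12 * Real.sqrt X := by
      have := Real.sqrt_nonneg (X : ℝ)
      linarith
    nlinarith
  have he01 : T ^ δ * Real.exp (-(H ^ 2) / (8 * (T ^ (1 - η + δ)) ^ 2)) ≤ 1 :=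
    (le_mul_of_one_le_left he0 hD1).trans hev
  have hq2 := q2_nonneg w
  obtain ⟨hi, hint, hsum⟩ := hch b W w hb hw
  set B := C * Real.sqrt (b * q2 w) with hB
  have hB0 : 0 ≤ B := by positivity
  have hBsq : B ^ 2 = C ^ 2 * b * q2 w := by
    rw [hB, mul_pow, Real.sq_sqrt (by positivity)]
    ring
  have hmain := main_le2 hw (gs_refl hgs hb hw hWr) hb ha S r (τ := τ) hH
    (Real.one_le_rpow hT1 hδ0.le) hS hXpos hKY hL0.le hθ rfl rfl hΛ0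
    (by
      have : L ≤ 2 * ((1 - 4 * η) * L) := by nlinarith
      linarith) hK hlip hi hB0 hint
    (fun u => (hsum X u (fun n => u - Real.log n) (Or.inl fun _ => rfl)).1)
    (fun u => (hsum X u (fun n => u + Real.log n) (Or.inr fun _ => rfl)).1)
    (fun u => (hsum X u (fun n => u - Real.log n) (Or.inl fun _ => rfl)).2.2)
    (fun u => (hsum X u (fun n => u + Real.log n) (Or.inr fun _ => rfl)).2.2)
  have hnum := num2 (J := J) (K := K) hη h16 hθ hθ1 hq1 hε hR hJ0 hK cG_nonneg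
    (mul_nonneg (Real.exp_pos 2).le c3_nonneg) hL1 rfl hb hbL he0 he01
    (mul_nonneg (sq_nonneg _) he0) hev hlX0 hlX hδ0 hδ1 hθε hηε
    (by
      rw [← hC5]
      rw [div_le_iff₀ hε] at hC
      linarith)
  have hN0 : 0 ≤ mr H S r := by
    unfold mr
    have := w1_nonneg S r
    positivity
  have hfin := mul_le_mul_of_nonneg_left (mul_le_mul_of_nonneg_left hnum hq2) hN0
  rw [← hcM]
  rw [hBsq, Real.log_rpow hTp, ← hL] at hmain
  calc _ ≤ _ := hmain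
    _ = _ := by
        unfold mr BB
        rw [Real.sqrt_zero, ← hq, ← hJ]
        ring
    _ ≤ _ := hfin
    _ = _ := by ring

end Pool.Agent.N802.U
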