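import Pool.Agent.N802.U.Stm4
import Pool.Agent.N845.U2.Sh0
import Pool.Agent.N845.U2.Sh1

/-!
# From Gaussian weights to the zeros with ordinates in `(T, T + K]`

The proof of helper845 (leaf SHARP) with the window as a free parameter.
-/

open Complex Filter Topology Set MeasureTheory
open scoped BigOperators ComplexConjugate

namespace Pool.Agent.N802.U

open H370 TC Pool.Agent.N845.U2

namespace Sharpaux

lemma x1_cnt {F : ℂ → ℂ} {U1 U2 : ℝ} {Z : Finset ℂ}
    (hZ : ∀ s, s ∈ Z ↔ s ∈ Zf F U1 U2 ∧ s.re = 1 / 2 ∧ mult F s = 1) (h t : ℝ) :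
    x1 F U1 U2 h t = cnt Z (fun _ => 1) h t := by
  classical
  unfold x1 cnt
  simp only [one_mul]
  rw [Finset.sum_ite, Finset.sum_const_zero, add_zero, Finset.sum_const, nsmul_eq_mul, mul_one]
  congr 2
  ext s
  simp only [Finset.mem_filter, hZ]
  tauto

lemma na_cnt {F : ℂ → ℂ} {U1 U2 : ℝ} (h t : ℝ) :
    na F U1 U2 h t = cnt (Zf F U1 U2) (fun s => (mult F s : ℝ)) h t := by
  classical
  unfold na cnt
  rw [Finset.sum_filter]
  refine Finset.sum_congr rfl fun s _ => ?_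
  split_ifs <;> simp

lemma num_low {q K w κ h L L' P Q A Sg : ℝ} (hq : 1 / 2 ≤ q) (hq1 : q ≤ 1) (hκ : 0 < κ)
    (hκ1 : κ ≤ 1 / 100) (hK : 0 ≤ K)
    (hw : 0 ≤ w) (hh : 0 < h) (hP : 1 ≤ P) (hL : 0 < L)
    (hhL : 1 / 4 ≤ h * L / Real.pi) (hL' : (1 - κ) * L ≤ L')
    (hmain : K * (1 - 4 * κ) * ((q - κ) * (P * w * (h * L' / Real.pi))) ≤ P * Q +
      K * (1 - 4 * κ) * A) (hA : A ≤ w * (κ * (1 / 4))) (hQ : Q ≤ 2 * h * Sg) :
    (q - 100 * κ) * (K / (2 * Real.pi) * L * w) ≤ Sg := by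
  have hpi := Real.pi_pos
  have hc0 : w * (κ * (1 / 4)) ≤ P * w * (κ * (h * L / Real.pi)) := by
    calc w * (κ * (1 / 4)) ≤ w * (κ * (h * L / Real.pi)) := by gcongr
      _ ≤ P * w * (κ * (h * L / Real.pi)) := by
          have : 0 ≤ w * (κ * (h * L / Real.pi)) := by positivity
          nlinarith
  set X := h * L / Real.pi with hX
  have hX0 : 0 < X := by positivity
  have k1 : (1 - κ) * X ≤ h * L' / Real.pi := by
    have : (1 - κ) * X = h * ((1 - κ) * L) / Real.pi := by rw [hX]; ring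
    rw [this]
    apply div_le_div_of_nonneg_right _ hpi.le
    exact mul_le_mul_of_nonneg_left hL' hh.le
  have hb : 0 ≤ K * (1 - 4 * κ) := mul_nonneg hK (by linarith)
  have hPp : 0 < P := by linarith
  have k2 : K * (1 - 4 * κ) * ((q - κ) * (P * w * ((1 - κ) * X))) ≤
      P * (2 * h * Sg) + K * (1 - 4 * κ) * (P * w * (κ * X)) := by
    calc K * (1 - 4 * κ) * ((q - κ) * (P * w * ((1 - κ) * X))) ≤
        K * (1 - 4 * κ) * ((q - κ) * (P * w * (h * L' / Real.pi))) := by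
          apply mul_le_mul_of_nonneg_left _ hb
          apply mul_le_mul_of_nonneg_left _ (by linarith)
          exact mul_le_mul_of_nonneg_left k1 (by positivity)
      _ ≤ P * Q + K * (1 - 4 * κ) * A := hmain
      _ ≤ _ := by
          apply add_le_add
          · exact mul_le_mul_of_nonneg_left hQ hPp.le
          · exact mul_le_mul_of_nonneg_left (hA.trans hc0) hb
  have k3 : K * w * X * ((1 - 4 * κ) * ((q - κ) * (1 - κ) - κ)) ≤ 2 * h * Sg := by
    have : P * (K * w * X * ((1 - 4 * κ) * ((q - κ) * (1 - κ) - κ))) ≤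
        P * (2 * h * Sg) := by linarith
    exact le_of_mul_le_mul_left this hPp
  have k4 : (q - 100 * κ : ℝ) ≤ (1 - 4 * κ) * ((q - κ) * (1 - κ) - κ) := by
    have e0 : q * κ ≤ 1 * κ := mul_le_mul_of_nonneg_right hq1 hκ.le
    have e1 : q - 3 * κ ≤ (q - κ) * (1 - κ) - κ := by
      have : (q - κ) * (1 - κ) - κ = q - κ - q * κ + κ ^ 2 - κ := by ring
      rw [this]
      nlinarith [sq_nonneg κ]
    have e2 : (1 - 4 * κ) * (q - 3 * κ) ≤ (1 - 4 * κ) * ((q - κ) * (1 - κ) - κ) := by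
      apply mul_le_mul_of_nonneg_left e1 (by linarith)
    have e3 : (1 - 4 * κ) * (q - 3 * κ) = q - 3 * κ - 4 * (q * κ) + 12 * κ ^ 2 := by ring
    nlinarith [sq_nonneg κ]
  have k5 : (q - 100 * κ) * (K * w * X) ≤ 2 * h * Sg := by
    have h1 : 0 ≤ K * w * X := by positivity
    have h2 := mul_le_mul_of_nonneg_left k4 h1
    linarith
  have k6 : (q - 100 * κ) * (K / (2 * Real.pi) * L * w) * (2 * h) =
      (q - 100 * κ) * (K * w * X) := by
    rw [hX]
    field_simp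
  have k7 : (q - 100 * κ) * (K / (2 * Real.pi) * L * w) * (2 * h) ≤ Sg * (2 * h) := by
    rw [k6]; linarith
  exact le_of_mul_le_mul_right k7 (by positivity)

lemma num_up {K w κ h L L' P θ I Sg : ℝ} (hκ : 0 < κ) (hκ1 : κ ≤ 1 / 100) (hK : 0 ≤ K)
    (hw : 0 ≤ w) (hh : 0 < h) (hP : 0 < P) (hL'0 : 0 ≤ L') (hθ : θ ≤ κ) (hI : 0 ≤ I)
    (hL' : L' ≤ L)
    (hmain : P * (1 - θ) * I ≤ K * (1 + 4 * κ) * ((1 + κ) * (P * w * (h * L' / Real.pi))))
    (hQ : 2 * h * Sg ≤ I) :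
    Sg ≤ (1 + 100 * κ) * (K / (2 * Real.pi) * L * w) := by
  have hpi := Real.pi_pos
  set X := h * L / Real.pi with hX
  have hX0 : 0 ≤ X := by
    have : 0 ≤ L := hL'0.trans hL'
    positivity
  have k1 : h * L' / Real.pi ≤ X := by
    rw [hX]
    gcongr
  have k2 : P * ((1 - κ) * I) ≤ P * (K * w * X * ((1 + 4 * κ) * (1 + κ))) := by
    calc P * ((1 - κ) * I) ≤ P * (1 - θ) * I := by
          have : 0 ≤ P * I := by positivity
          nlinarith
      _ ≤ K * (1 + 4 * κ) * ((1 + κ) * (P * w * (h * L' / Real.pi))) := hmain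
      _ ≤ K * (1 + 4 * κ) * ((1 + κ) * (P * w * X)) := by gcongr
      _ = _ := by ring
  have k3 : (1 - κ) * I ≤ K * w * X * ((1 + 4 * κ) * (1 + κ)) := le_of_mul_le_mul_left k2 hP
  have k4 : (1 + 4 * κ) * (1 + κ) ≤ (1 + 100 * κ) * (1 - κ) := by nlinarith
  have k5 : (1 - κ) * I ≤ (1 - κ) * ((1 + 100 * κ) * (K * w * X)) := by
    have h1 : 0 ≤ K * w * X := by positivity
    have h2 := mul_le_mul_of_nonneg_left k4 h1
    linarith
  have k6 : I ≤ (1 + 100 * κ) * (K * w * X) := le_of_mul_le_mul_left k5 (by linarith)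
  have k7 : (1 + 100 * κ) * (K / (2 * Real.pi) * L * w) * (2 * h) =
      (1 + 100 * κ) * (K * w * X) := by
    rw [hX]
    field_simp
  have k8 : Sg * (2 * h) ≤ (1 + 100 * κ) * (K / (2 * Real.pi) * L * w) * (2 * h) := by
    rw [k7]; linarith
  exact le_of_mul_le_mul_right k8 (by positivity)

lemma Mh_sum (S : Finset ℕ) (r : ℕ → ℂ) {h : ℝ} (hh : 0 < h) (Z : Finset ℂ) (m : ℂ → ℝ) :
    2 * h * ∑ s ∈ Z, m s * Mh S r h s.im =
      ∑ s ∈ Z, m s * ∫ t in (s.im - h)..(s.im + h), ‖RP S r t‖ ^ 2 := by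
  rw [Finset.mul_sum]
  refine Finset.sum_congr rfl fun s _ => ?_
  unfold Mh
  field_simp

end Sharpaux

open Sharpaux

theorem sharp4 {F : ℂ → ℂ} (hF : GoodL F) (hcore : S_core4 F) : S_sharp4 F := by
  classical
  intro ε hε hε1
  obtain ⟨CN, hCN, hN⟩ := NN_crude hF
  obtain ⟨κ, hκ⟩ : ∃ κ : ℝ, κ = ε / 100 := ⟨_, rfl⟩
  have hκ0 : 0 < κ := by rw [hκ]; positivity
  have hκ1 : κ ≤ 1 / 100 := by rw [hκ]; linarith
  have hεκ : ε = 100 * κ := by rw [hκ]; ring
  obtain ⟨δ1, T1, hδ1, hT1, core⟩ := hcore κ hκ0 (by linarith)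
  obtain ⟨δm, hδm⟩ : ∃ δm : ℝ, δm = min δ1 (1 / 2) := ⟨_, rfl⟩
  have hδm0 : 0 < δm := by rw [hδm]; positivity
  have hδm1 : δm ≤ δ1 := by rw [hδm]; exact min_le_left _ _
  have hδm3 : δm ≤ 1 / 2 := by rw [hδm]; exact min_le_right _ _
  obtain ⟨δ, hδ⟩ : ∃ δ : ℝ, δ = δm / 8 := ⟨_, rfl⟩
  have hδ0 : 0 < δ := by rw [hδ]; positivity
  have hδa : δ ≤ δm / 4 := by rw [hδ]; linarith
  have hδb : 8 * δ ≤ δ1 := by rw [hδ]; linarith
  have hδd : δ ≤ 1 / 16 := by rw [hδ]; linarith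
  have hev := (ev (δ := δm) (κ := κ) (c := 1) (C := CN) (T1 := T1) hδm0 hδm3 hκ0 one_pos hCN).and
    ((ev (δ := 1 / 2) (κ := κ) (c := 1) (C := CN) (T1 := T1) (by norm_num) le_rfl hκ0 one_pos
      hCN).and (Real.tendsto_log_atTop.eventually_ge_atTop (max 64 (1 / κ))))
  obtain ⟨T0, hT0⟩ := eventually_atTop.1 hev
  refine ⟨δ, max T0 10, hδ0, le_max_right _ _, ?_⟩
  intro T hT h hha hhb K hK1 hK2 S hS r hr
  obtain ⟨⟨⟨g1, g2⟩, ⟨g3, g3'⟩, ⟨g4, g5, g5'⟩, g6, -, g8, g9, g10, g11⟩,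
    ⟨-, -, -, -, g7, -⟩, g12⟩ := hT0 T ((le_max_left _ _).trans hT)
  have g13 : 1 / κ ≤ Real.log T := (le_max_right _ _).trans g12
  have g12' : 64 ≤ Real.log T := (le_max_left _ _).trans g12
  obtain ⟨T', hT'⟩ : ∃ T' : ℝ, T' = 9 / 10 * T := ⟨_, rfl⟩
  rw [← hT'] at g2 g3 g3' g4 g5 g5' g6 g7 g8 g9 g10
  have hT'9 : 9 ≤ T' := by rw [hT']; linarith
  obtain ⟨U1, U2, u1, u2, u3, u4, core⟩ := core T' g2
  have hxpT : xp h T = h * Real.log T / Real.log (Real.log T) ^ 2 := rfl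
  have hxpT' : xp h T' = h * Real.log T' / Real.log (Real.log T') ^ 2 := rfl
  obtain ⟨x, hx⟩ : ∃ x : ℝ, x = xp h T := ⟨_, rfl⟩
  obtain ⟨x', hx'⟩ : ∃ x' : ℝ, x' = xp h T' := ⟨_, rfl⟩
  rw [← hx] at hxpT hK1 hr
  rw [← hx'] at hxpT'
  obtain ⟨L, hL⟩ : ∃ L : ℝ, L = Real.log T := ⟨_, rfl⟩
  obtain ⟨L', hL'⟩ : ∃ L' : ℝ, L' = Real.log T' := ⟨_, rfl⟩
  obtain ⟨l, hl⟩ : ∃ l : ℝ, l = Real.log L := ⟨_, rfl⟩
  obtain ⟨l', hl'⟩ : ∃ l' : ℝ, l' = Real.log L' := ⟨_, rfl⟩
  rw [← hL'] at g3 g3' g4 g5 g5' g7 g8 g9 g10 core hxpT'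
  rw [← hL] at g3 g3' g5 g5' g12' g13 hha hxpT ⊢
  rw [← hl] at g5 g5' hha hxpT
  rw [← hl'] at g4 g5 g5' core hxpT'
  have hT0' : 0 < T := by linarith
  have hT'0 : 0 < T' := by linarith
  have hl0 : 1 ≤ l := g4.trans g5'
  have hl'0 : 0 < l' := by linarith
  have hL'p : 0 < L' := by
    rw [hL']
    exact Real.log_pos (by linarith)
  have hLp : 0 < L := by linarith
  have hlp : 0 < l := by linarith
  have hL2 : L ≤ 2 * L' := by
    have : κ * L ≤ 1 / 100 * L := mul_le_mul_of_nonneg_right hκ1 hLp.le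
    linarith only [g3, this, hLp]
  -- the window
  have hh0 : 0 < h := lt_of_lt_of_le (by positivity) hha
  have hhL : l ^ 3 / δ ≤ h * L := by
    rw [div_le_iff₀ (by positivity)] at hha
    rw [div_le_iff₀ hδ0]
    linarith
  have hhc : h ≤ 1 := by linarith
  have hx0 : 0 < x := by rw [hxpT]; positivity
  have hx'0 : 0 < x' := by rw [hxpT']; positivity
  have hxx : x ≤ 2 * x' := by
    rw [hxpT, hxpT']
    calc h * L / l ^ 2 ≤ h * (2 * L') / l' ^ 2 := by
          apply div_le_div₀ (by positivity) (by gcongr) (by positivity)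
          exact pow_le_pow_left₀ hl'0.le g5' 2
      _ = _ := by ring
  have hxl : l / δ ≤ x := by
    rw [hxpT, le_div_iff₀ (by positivity)]
    calc l / δ * l ^ 2 = l ^ 3 / δ := by ring
      _ ≤ _ := hhL
  have hxL : δ * x ≤ L / 8 := by
    have h1 : x ≤ L := by
      rw [hxpT]
      calc h * L / l ^ 2 ≤ 1 * L / 1 := by
            apply div_le_div₀ (by positivity) (by gcongr) one_pos (one_le_pow₀ hl0)
        _ = L := by ring
    calc δ * x ≤ 1 / 16 * L := mul_le_mul hδd h1 hx0.le (by norm_num)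
      _ ≤ L / 8 := by linarith
  have hha' : l' ^ 3 / (δ1 * L') ≤ h := by
    rw [div_le_iff₀ (by positivity)]
    rw [div_le_iff₀ (by positivity)] at hha
    calc l' ^ 3 ≤ l ^ 3 := pow_le_pow_left₀ hl'0.le g5' 3
      _ ≤ h * (δ * L) := hha
      _ ≤ h * (δ1 * L') := by
          apply mul_le_mul_of_nonneg_left _ hh0.le
          calc δ * L ≤ δ * (2 * L') := mul_le_mul_of_nonneg_left hL2 hδ0.le
            _ = (2 * δ) * L' := by ring
            _ ≤ δ1 * L' := mul_le_mul_of_nonneg_right (by linarith) hL'p.le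
  have hhb' : h ≤ δ1 := by linarith
  have hTK : T ^ (1 - (1 / 2 : ℝ) / 4) ≤ K := by
    refine le_trans ?_ hK1
    have e1 : T ^ (1 - (1 / 2 : ℝ) / 4) = T * Real.exp (-(L / 8)) := by
      rw [Real.rpow_sub hT0', Real.rpow_one, Real.rpow_def_of_pos hT0', Real.exp_neg,
        div_eq_mul_inv, ← hL]
      congr 3
      ring
    rw [e1]
    apply mul_le_mul_of_nonneg_left _ hT0'.le
    exact Real.exp_le_exp.2 (by linarith)
  have hK0 : 0 < K := lt_of_lt_of_le (by positivity) hTK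
  -- the width
  obtain ⟨D, hD⟩ : ∃ D : ℝ, D = κ * K := ⟨_, rfl⟩
  have hD0 : 0 < D := by rw [hD]; positivity
  obtain ⟨H, hH⟩ : ∃ H : ℝ, H = D / L' := ⟨_, rfl⟩
  have hH0 : 0 < H := by rw [hH]; positivity
  have hLH : L' * H = D := by rw [hH]; field_simp
  have hHm : T' ^ (1 - (1 / 2 : ℝ)) ≤ H := by
    rw [hH, le_div_iff₀ hL'p]
    refine g7.trans ?_
    rw [hD]
    exact mul_le_mul_of_nonneg_left hTK hκ0.le
  have hH1 : 1 ≤ H := le_trans (Real.one_le_rpow (by linarith) (by norm_num)) hHm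
  have hHa : T' * Real.exp (-(δ1 * x')) ≤ H := by
    rw [hH, le_div_iff₀ hL'p, hD]
    have e1 : 2 * l ≤ δ1 * x' - δ * x := by
      have e2 : 4 * (δ * x) ≤ δ1 * x' := by
        calc 4 * (δ * x) ≤ 4 * (δ * (2 * x')) := by gcongr
          _ = (8 * δ) * x' := by ring
          _ ≤ δ1 * x' := mul_le_mul_of_nonneg_right hδb hx'0.le
      have e3 : l ≤ δ * x := by
        calc l = δ * (l / δ) := by field_simp
          _ ≤ _ := mul_le_mul_of_nonneg_left hxl hδ0.le
      linarith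
    have e4 : Real.exp (-(δ1 * x')) ≤ Real.exp (-(δ * x)) * (L ^ 2)⁻¹ := by
      have e5 : (L ^ 2)⁻¹ = Real.exp (-(2 * l)) := by
        rw [Real.exp_neg, show 2 * l = (2 : ℕ) * l by norm_num, Real.exp_nat_mul, hl,
          Real.exp_log hLp]
      rw [e5, ← Real.exp_add]
      exact Real.exp_le_exp.2 (by linarith)
    have e6 : (L ^ 2)⁻¹ * L' ≤ κ := by
      have h1 : (L ^ 2)⁻¹ * L' ≤ (L ^ 2)⁻¹ * L := by gcongr
      have h2 : (L ^ 2)⁻¹ * L = 1 / L := by field_simp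
      have h3 : 1 / L ≤ κ := by
        rw [div_le_iff₀ hκ0] at g13
        rw [div_le_iff₀ hLp]
        linarith
      linarith
    have hT'T : T' ≤ T := by rw [hT']; linarith
    calc T' * Real.exp (-(δ1 * x')) * L' ≤
        T * (Real.exp (-(δ * x)) * (L ^ 2)⁻¹) * L' := by gcongr
      _ = (T * Real.exp (-(δ * x))) * ((L ^ 2)⁻¹ * L') := by ring
      _ ≤ K * κ := mul_le_mul hK1 e6 (by positivity) hK0.le
      _ = κ * K := mul_comm _ _
  have hD2 : 2 < D := by
    rw [hD]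
    refine lt_of_lt_of_le g11 (mul_le_mul_of_nonneg_left ?_ hκ0.le)
    refine le_trans ?_ hTK
    exact Real.rpow_le_rpow_of_exponent_le (by linarith) (by norm_num)
  have hDT : D ≤ T / 200 := by
    rw [hD]
    calc κ * K ≤ 1 / 100 * (T / 2) := mul_le_mul hκ1 hK2 hK0.le (by norm_num)
      _ = T / 200 := by ring
  have hDK : D ≤ K / 100 := by
    rw [hD]
    calc κ * K ≤ 1 / 100 * K := mul_le_mul_of_nonneg_right hκ1 hK0.le
      _ = K / 100 := by ring
  -- lengths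
  have hSa : Len S (T' ^ δ1) := fun k hk => by
    obtain ⟨h1, h2⟩ := hS k hk
    refine ⟨h1, h2.trans ?_⟩
    calc T ^ δ ≤ T ^ (δm / 4) := Real.rpow_le_rpow_of_exponent_le (by linarith) hδa
      _ ≤ T' ^ δm := g6
      _ ≤ T' ^ δ1 := Real.rpow_le_rpow_of_exponent_le (by linarith) hδm1
  -- the sup bound
  have hw0 : 0 ≤ w1 S r := Pool.Agent.N802.w1_nonneg S r
  have hra : ∀ t, ‖RP S r t‖ ^ 2 ≤ Real.exp (δ1 * x') * w1 S r := fun t =>
    (hr t).trans (mul_le_mul_of_nonneg_right (Real.exp_le_exp.2 (by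
      calc δ * x ≤ δ * (2 * x') := by gcongr
        _ = (2 * δ) * x' := by ring
        _ ≤ δ1 * x' := mul_le_mul_of_nonneg_right (by linarith) hx'0.le)) hw0)
  have hM : ∀ t, ‖RP S r t‖ ^ 2 ≤ T * w1 S r := fun t => by
    refine (hr t).trans (mul_le_mul_of_nonneg_right ?_ hw0)
    have e1 : Real.exp L = T := by rw [hL]; exact Real.exp_log hT0'
    rw [← e1]
    apply Real.exp_le_exp.2
    linarith
  have hf : Continuous (fun t => ‖RP S r t‖ ^ 2) := by
    have : Continuous (RP S r) := Pool.Agent.N802.TP_cont _ _ _ _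
    exact this.norm.pow 2
  have hf0 : ∀ t, 0 ≤ ‖RP S r t‖ ^ 2 := fun t => by positivity
  have hsqrt : 1 ≤ Real.sqrt (2 * Real.pi) := by
    rw [Real.one_le_sqrt]
    linarith only [Real.pi_gt_three]
  obtain ⟨P, hP⟩ : ∃ P : ℝ, P = Real.sqrt (2 * Real.pi) * H := ⟨_, rfl⟩
  have hP1 : 1 ≤ P := by
    rw [hP]
    exact one_le_mul_of_one_le_of_one_le hsqrt hH1
  have hmr : mr H S r = P * w1 S r := by
    unfold mr
    rw [hP]
  replace core := core h
  rw [← hx'] at core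
  have hhπ : 1 / 4 ≤ h * L / Real.pi := by
    have hpi4 := Real.pi_le_four
    have hpi := Real.pi_pos
    rw [div_le_div_iff₀ (by norm_num) hpi]
    have h1 : (1 : ℝ) ≤ l ^ 3 / δ := by
      rw [le_div_iff₀ hδ0]
      have : (1 : ℝ) ≤ l ^ 3 := one_le_pow₀ hl0
      linarith
    linarith
  have hLT : L' ≤ T := by linarith only [g8, hT0']
  have hcardN : ∑ s ∈ Zf F U1 U2, (mult F s : ℝ) ≤ CN * (T' * L') := by
    have e2 := hN T' (by linarith only [hT'9]) U1 U2 u1 u4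
    rw [NN_eq hF (by linarith only [u1, hT'9] : 1 ≤ U1), ← hL'] at e2
    push_cast at e2
    exact e2
  -- the small error term
  have hsmall : ∀ {Z : Finset ℂ} {m : ℂ → ℝ}, (∀ s, 0 ≤ m s) → (∑ s ∈ Z, m s) ≤ CN * (T' * L') →
      Real.exp (-(D ^ 2) / (2 * H ^ 2)) * ((2 * T' - L' - (T' + L')) *
        (T * w1 S r * ∑ s ∈ Z, m s)) ≤ w1 S r * (κ * (1 / 4)) := by
    intro Z m hm1 hcard
    have e0 : -(D ^ 2) / (2 * H ^ 2) = -L' ^ 2 / 2 := by
      rw [← hLH]
      field_simp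
    rw [e0]
    have e1 : 2 * T' - L' - (T' + L') ≤ T := by rw [hT']; linarith only [hL'p, hT0']
    have e2 : 0 ≤ 2 * T' - L' - (T' + L') := by rw [hT']; linarith only [g8, hT0']
    have e3 : T' * L' ≤ T ^ 2 := by
      have : T' ≤ T := by rw [hT']; linarith only [hT0']
      rw [sq]
      exact mul_le_mul this hLT hL'p.le hT0'.le
    have e4 : 0 ≤ ∑ s ∈ Z, m s := Finset.sum_nonneg fun s _ => hm1 s
    calc Real.exp (-L' ^ 2 / 2) * ((2 * T' - L' - (T' + L')) *
          (T * w1 S r * ∑ s ∈ Z, m s)) ≤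
        Real.exp (-L' ^ 2 / 2) * (T * (T * w1 S r * (CN * T ^ 2))) := by
          apply mul_le_mul_of_nonneg_left _ (Real.exp_pos _).le
          apply mul_le_mul e1 _ (mul_nonneg (mul_nonneg hT0'.le hw0) e4) hT0'.le
          apply mul_le_mul_of_nonneg_left _ (mul_nonneg hT0'.le hw0)
          exact hcard.trans (mul_le_mul_of_nonneg_left e3 hCN.le)
      _ = w1 S r * (CN * T ^ 4 * Real.exp (-L' ^ 2 / 2)) := by ring
      _ ≤ w1 S r * (CN * T ^ 5 * Real.exp (-L' ^ 2 / 2)) := by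
          have h4 : T ^ 4 ≤ T ^ 5 := pow_le_pow_right₀ (by linarith only [g1]) (by norm_num)
          gcongr
      _ ≤ w1 S r * (κ * (1 / 4)) := mul_le_mul_of_nonneg_left g10 hw0
  have hcore := fun τ (hτ1 : T' + L' * (H + 1) ≤ τ) (hτ2 : τ ≤ 2 * T' - L' * (H + 1)) =>
    core hha' hhb' S hSa r hra τ H hHa hτ1 hτ2
  -- a lower bound, for the simple critical zeros and for all zeros
  have hlowgen : ∀ {q : ℝ} {Z Z' : Finset ℂ} {m : ℂ → ℝ}, 1 / 2 ≤ q → q ≤ 1 → (∀ s, 0 ≤ m s) →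
      (∑ s ∈ Z, m s) ≤ CN * (T' * L') →
      (∀ s ∈ Z, (T + 2 * D - D) - h ≤ s.im → s.im ≤ (T + K - 2 * D + D) + h → s ∈ Z') →
      (∀ τ ∈ Set.Icc (T + 2 * D) (T + K - 2 * D),
        (q - κ) * (P * w1 S r * (h * L' / Real.pi)) ≤
          ∫ t in (T' + L')..(2 * T' - L'), om τ H t * (‖RP S r t‖ ^ 2 * cnt Z m h t)) →
      (q - ε) * (K / (2 * Real.pi) * L * w1 S r) ≤ ∑ s ∈ Z', m s * Mh S r h s.im := by
    intro q Z Z' m hq hq1 hm1 hcard hZZ hB
    have hlow := lower (f := fun t => ‖RP S r t‖ ^ 2) hf hf0 hM (Z := Z) (m := m) hm1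
      (h := h) (H := H) (D := D) (a := T + 2 * D) (b := T + K - 2 * D) (c := T' + L')
      (d := 2 * T' - L') (B := (q - κ) * (P * w1 S r * (h * L' / Real.pi))) hH0 hD0.le
      (by linarith only [hDK, hK0]) (by rw [hT']; linarith only [hD0, g8, hT0'])
      (by rw [hT']; linarith only [hDK, hK0, hK2, g8, hT0', hD0]) hB
    have hpts := pts_lower (f := fun t => ‖RP S r t‖ ^ 2) hf hf0 (Z := Z) (Z' := Z')
      (m := m) hm1 (h := h) (h1 := h) (a := T + 2 * D - D) (b := T + K - 2 * D + D)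
      (by linarith only [hDK, hK0]) le_rfl hh0.le hZZ
    rw [← Mh_sum S r hh0 Z' m] at hpts
    rw [hεκ]
    refine num_low (q := q) (K := K) (w := w1 S r) (κ := κ) (h := h)
      (L := L) (L' := L') (P := P) (Q := ∫ t in (T + 2 * D - D)..(T + K - 2 * D + D),
        ‖RP S r t‖ ^ 2 * cnt Z m h t)
      (A := Real.exp (-(D ^ 2) / (2 * H ^ 2)) * ((2 * T' - L' - (T' + L')) *
        (T * w1 S r * ∑ s ∈ Z, m s))) hq hq1 hκ0 hκ1 hK0.le hw0 hh0 hP1 hLp hhπ
        g3 ?_ (hsmall hm1 hcard) hpts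
    have e : T + K - 2 * D - (T + 2 * D) = K * (1 - 4 * κ) := by rw [hD]; ring
    rw [e, ← hP] at hlow
    exact hlow
  refine ⟨?_, ?_, ?_⟩
  · -- lower bound
    set Z' : Finset ℂ := (Zf F T (T + K)).filter (fun s => s.re = 1 / 2 ∧ mult F s = 1) with hZ'
    obtain ⟨Z, hZ⟩ : ∃ Z : Finset ℂ, ∀ s, s ∈ Z ↔ s ∈ Zf F U1 U2 ∧ s.re = 1 / 2 ∧ mult F s = 1 :=
      ⟨(Zf F U1 U2).filter (fun s => s.re = 1 / 2 ∧ mult F s = 1), fun s => by
        rw [Finset.mem_filter]⟩
    have hm1 : ∀ s : ℂ, (0 : ℝ) ≤ (fun _ : ℂ => (1 : ℝ)) s := fun _ => zero_le_one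
    have hcard : (∑ s ∈ Z, (fun _ : ℂ => (1 : ℝ)) s) ≤ CN * (T' * L') := by
      refine le_trans ?_ hcardN
      calc (∑ s ∈ Z, (1 : ℝ)) = ∑ s ∈ Z, (mult F s : ℝ) := by
            refine Finset.sum_congr rfl fun s hs => ?_
            rw [((hZ s).1 hs).2.2]
            norm_num
        _ ≤ _ := by
            apply Finset.sum_le_sum_of_subset_of_nonneg
            · intro s hs
              exact ((hZ s).1 hs).1
            · intro s _ _
              positivity
    have := hlowgen (q := 0.6725) (Z := Z) (Z' := Z') (m := fun _ => 1) (by norm_num) (by norm_num)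
      hm1 hcard (fun s hs hs1 hs2 => by
        rw [hZ] at hs
        have hsz := (mem_Zf hF (by linarith only [u1, hT'9] : 1 ≤ U1)).1 hs.1
        rw [hZ', Finset.mem_filter]
        exact ⟨(mem_Zf hF (by linarith only [g1] : 1 ≤ T)).2 ⟨hsz.1, hsz.2.1,
          by linarith only [hs1, hhc, hD2], by linarith only [hs2, hhc, hD2],
          hsz.2.2.2.2⟩, hs.2⟩)
      (fun τ hτ => by
        have h2 := (hcore τ (by
          rw [mul_add, mul_one, hLH, hT']
          have := hτ.1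
          linarith only [this, g8, hDT, hT0', hD0]) (by
          rw [mul_add, mul_one, hLH, hT']
          have := hτ.2
          linarith only [this, g8, hDT, hT0', hD0, hK2])).1
        rw [hmr] at h2
        refine h2.trans (le_of_eq ?_)
        refine intervalIntegral.integral_congr fun t _ => ?_
        rw [x1_cnt hZ]
        unfold rh
        ring)
    simpa only [one_mul] using this
  · -- upper bound
    have hm1 : ∀ s : ℂ, (0 : ℝ) ≤ (fun s : ℂ => (mult F s : ℝ)) s := fun s => Nat.cast_nonneg _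
    have hup := upper (f := fun t => ‖RP S r t‖ ^ 2) hf hf0 (Z := Zf F U1 U2)
      (m := fun s => (mult F s : ℝ)) hm1
      (h := h) (H := H) (D := D) (a := T - 2 * D) (b := T + K + 2 * D) (c := T' + L')
      (d := 2 * T' - L') (B := (1 + κ) * (P * w1 S r * (h * L' / Real.pi))) hH0 hD0.le
      (by linarith only [hD0, hK0]) (by rw [hT']; linarith only [hDT, g8, hT0'])
      (by rw [hT']; linarith only [hDT, g8, hT0', hK2])
      (fun τ hτ => by
        have h3 := (hcore τ (by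
          rw [mul_add, mul_one, hLH, hT']
          have := hτ.1
          linarith only [this, g8, hDT, hT0', hD0]) (by
          rw [mul_add, mul_one, hLH, hT']
          have := hτ.2
          linarith only [this, g8, hDT, hT0', hD0, hK2])).2.1
        rw [hmr] at h3
        refine le_trans (le_of_eq ?_) h3
        refine intervalIntegral.integral_congr fun t _ => ?_
        rw [na_cnt]
        unfold rh
        ring)
    have hpts := pts_upper (f := fun t => ‖RP S r t‖ ^ 2) hf hf0 (Z := Zf F U1 U2)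
      (Z' := Zf F T (T + K)) (m := fun s => (mult F s : ℝ)) hm1 (h := h) (h2 := h)
      (a := T - 2 * D + D) (b := T + K + 2 * D - D)
      (by linarith only [hD0, hK0]) le_rfl hh0.le (fun s hs => by
        have hsz := (mem_Zf hF (by linarith only [g1] : 1 ≤ T)).1 hs
        refine (mem_Zf hF (by linarith only [u1, hT'9] : 1 ≤ U1)).2
          ⟨hsz.1, hsz.2.1, ?_, ?_, hsz.2.2.2.2⟩
        · refine lt_of_le_of_lt ?_ hsz.2.2.1
          rw [hT'] at u2
          linarith only [u2, g1]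
        · refine hsz.2.2.2.1.trans ?_
          rw [hT'] at u3
          linarith only [u3, g1, hK2]) (fun s hs => by
        have hsz := (mem_Zf hF (by linarith only [g1] : 1 ≤ T)).1 hs
        exact ⟨by linarith only [hsz.2.2.1, hhc, hD2], by linarith only [hsz.2.2.2.1, hhc, hD2]⟩)
    rw [← Mh_sum S r hh0 (Zf F T (T + K)) (fun s => (mult F s : ℝ))] at hpts
    rw [hεκ]
    have e0 : -(D ^ 2) / (4 * H ^ 2) = -L' ^ 2 / 4 := by
      rw [← hLH]
      field_simp
    rw [e0, ← hP] at hup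
    have e : T + K + 2 * D - (T - 2 * D) = K * (1 + 4 * κ) := by rw [hD]; ring
    rw [e] at hup
    refine num_up (K := K) (w := w1 S r) (κ := κ) (h := h)
      (L := L) (L' := L') (P := P) (θ := 2 * Real.exp (-L' ^ 2 / 4))
      (I := ∫ t in (T - 2 * D + D)..(T + K + 2 * D - D),
        ‖RP S r t‖ ^ 2 * cnt (Zf F U1 U2) (fun s => (mult F s : ℝ)) h t) hκ0 hκ1 hK0.le hw0 hh0
      (by linarith only [hP1]) hL'p.le g9 ?_ g3' hup hpts
    exact intervalIntegral.integral_nonneg (by linarith only [hD0, hK0]) fun t _ =>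
      mul_nonneg (hf0 t) (cnt_nonneg hm1 h t)
  · -- lower bound for all zeros
    have hm1 : ∀ s : ℂ, (0 : ℝ) ≤ (fun s : ℂ => (mult F s : ℝ)) s := fun s => Nat.cast_nonneg _
    exact hlowgen (q := 1) (Z := Zf F U1 U2) (Z' := Zf F T (T + K))
      (m := fun s => (mult F s : ℝ)) (by norm_num) le_rfl hm1 hcardN (fun s hs hs1 hs2 => by
        have hsz := (mem_Zf hF (by linarith only [u1, hT'9] : 1 ≤ U1)).1 hs
        exact (mem_Zf hF (by linarith only [g1] : 1 ≤ T)).2 ⟨hsz.1, hsz.2.1,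
          by linarith only [hs1, hhc, hD2], by linarith only [hs2, hhc, hD2],
          hsz.2.2.2.2⟩)
      (fun τ hτ => by
        have h2 := (hcore τ (by
          rw [mul_add, mul_one, hLH, hT']
          have := hτ.1
          linarith only [this, g8, hDT, hT0', hD0]) (by
          rw [mul_add, mul_one, hLH, hT']
          have := hτ.2
          linarith only [this, g8, hDT, hT0', hD0, hK2])).2.2
        rw [hmr] at h2
        refine h2.trans (le_of_eq ?_)
        refine intervalIntegral.integral_congr fun t _ => ?_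
        rw [na_cnt]
        unfold rh
        ring)

end Pool.Agent.N802.U
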