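import Pool.Agent.N802.U.Kern
import Pool.Agent.N802.U.Win
import Pool.Agent.N802.U.Alg
import Pool.Agent.N802.U.Ef
import Pool.Agent.N802.U.Ch
import Pool.Agent.N802.U.Ms2
import Pool.Agent.N802.U.Fm2
import Pool.Agent.N802.U.Core3
import Pool.Agent.N802.U.Sharp4
import Pool.Agent.N802.U.Direct5

/-! # The theorems for the zeta function -/

open Complex Filter Topology Set MeasureTheory
open scoped BigOperators ComplexConjugate

namespace Pool.Agent.N802.U

open H370 TC TH803UC

theorem core4_good {F : ℂ → ℂ} (hF : GoodL F) (hD : Dens F) : S_core4 F :=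
  core4 (win kern) sq pl gsq (ms2 ch gsq) (fm2 ch) hF hD (ef hF)

theorem sharp4_good {F : ℂ → ℂ} (hF : GoodL F) (hD : Dens F) : S_sharp4 F :=
  sharp4 hF (core4_good hF hD)

theorem direct5_good {F : ℂ → ℂ} (hF : GoodL F) (hD : Dens F) : S_direct5 F :=
  direct5 (sharp4_good hF hD)

theorem sharp4_zeta : S_sharp4 riemannZeta := sharp4_good good_zeta dens_zeta

theorem direct5_zeta : S_direct5 riemannZeta := direct5_good good_zeta dens_zeta

end Pool.Agent.N802.U
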