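import Pool.Agent.N802.Phase

/-! # The choice of the parameters for the resonator -/

open Complex Filter Topology Set MeasureTheory
open scoped BigOperators ComplexConjugate

namespace Pool.Agent.N802.U

namespace Boxaux

lemma log4_lt : Real.log 4 < 1.4 := by
  have : Real.log 4 = 2 * Real.log 2 := by
    rw [show (4 : ℝ) = 2 ^ 2 by norm_num, Real.log_pow]; norm_num
  rw [this]
  linarith [Real.log_two_lt_d9]

lemma theta_le {y : ℝ} (hy : 0 ≤ y) : ∑ p ∈ pr y, Real.log p ≤ 1.4 * y := by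
  have h1 := pr_prod hy 1
  have hpos : ∀ p ∈ pr y, (0 : ℝ) < p := fun p hp => by exact_mod_cast ((mem_pr hy).1 hp).1.pos
  have h2 : Real.exp (∑ p ∈ pr y, Real.log p) = ((∏ p ∈ pr y, p ^ 1 : ℕ) : ℝ) := by
    rw [Real.exp_sum]
    push_cast
    apply Finset.prod_congr rfl
    intro p hp
    rw [Real.exp_log (hpos p hp), pow_one]
  rw [← h2] at h1
  have h3 := Real.exp_le_exp.1 h1
  have h4 := log4_lt
  push_cast at h3
  nlinarith

/-- Chebyshev's upper bound -/
lemma pr_card2 {y : ℝ} (hy : 1 < y) : ((pr y).card : ℝ) ≤ Real.sqrt y + 2.8 * y / Real.log y := by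
  classical
  have hy0 : 0 ≤ y := by linarith
  have hl : 0 < Real.log y := Real.log_pos hy
  have hs0 : 0 ≤ Real.sqrt y := Real.sqrt_nonneg y
  have h1 : (pr y) ⊆ pr (Real.sqrt y) ∪ (pr y).filter (fun p : ℕ => Real.sqrt y < (p : ℝ)) := by
    intro p hp
    rw [Finset.mem_union, Finset.mem_filter]
    by_cases h : Real.sqrt y < (p : ℝ)
    · exact Or.inr ⟨hp, h⟩
    · exact Or.inl ((mem_pr hs0).2 ⟨((mem_pr hy0).1 hp).1, not_lt.1 h⟩)
  have h2 := (Finset.card_le_card h1).trans (Finset.card_union_le _ _)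
  have h3 : ((pr y).card : ℝ) ≤ ((pr (Real.sqrt y)).card : ℝ) +
      (((pr y).filter (fun p : ℕ => Real.sqrt y < (p : ℝ))).card : ℝ) := by exact_mod_cast h2
  have h4 := pr_card hs0
  have h5 : (((pr y).filter (fun p : ℕ => Real.sqrt y < (p : ℝ))).card : ℝ) * (Real.log y / 2) ≤
      1.4 * y := by
    refine le_trans ?_ (theta_le hy0)
    rw [← nsmul_eq_mul, ← Finset.sum_const]
    refine le_trans ?_ (Finset.sum_le_sum_of_subset_of_nonneg
      (Finset.filter_subset (fun p : ℕ => Real.sqrt y < (p : ℝ)) (pr y)) ?_)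
    · apply Finset.sum_le_sum
      intro p hp
      rw [Finset.mem_filter] at hp
      rw [← Real.log_sqrt hy0]
      exact Real.log_le_log (Real.sqrt_pos.2 (by linarith)) hp.2.le
    · intro p hp _
      have : (1 : ℝ) ≤ p := by exact_mod_cast ((mem_pr hy0).1 hp).1.one_lt.le
      exact Real.log_nonneg this
  have h6 : (((pr y).filter (fun p : ℕ => Real.sqrt y < (p : ℝ))).card : ℝ) ≤ 2.8 * y / Real.log y := by
    rw [le_div_iff₀ hl]
    linarith
  linarith

lemma inv_log_le {y : ℝ} (hy : 1 < y) {p : ℕ} (hp : p.Prime) :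
    1 / Real.log p ≤ 2 / Real.log y + (if (p : ℝ) ≤ Real.sqrt y then 1.5 else 0) := by
  have hy0 : 0 ≤ y := by linarith
  have hl : 0 < Real.log y := Real.log_pos hy
  have hp2 : (2 : ℝ) ≤ p := by exact_mod_cast hp.two_le
  have hlp : 0 < Real.log p := Real.log_pos (by linarith)
  split_ifs with h
  · have h1 : Real.log 2 ≤ Real.log p := Real.log_le_log (by norm_num) hp2
    have h2 := Real.log_two_gt_d9
    have h3 : 1 / Real.log p ≤ 1.5 := by
      rw [div_le_iff₀ hlp]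
      linarith
    have : 0 ≤ 2 / Real.log y := by positivity
    linarith
  · push Not at h
    have h1 : Real.log y / 2 ≤ Real.log p := by
      rw [← Real.log_sqrt hy0]
      exact Real.log_le_log (Real.sqrt_pos.2 (by linarith)) h.le
    rw [add_zero, div_le_div_iff₀ hlp hl]
    linarith

lemma sum_inv_log {y : ℝ} (hy : 1 < y) :
    ∑ p ∈ pr y, 1 / Real.log p ≤ (pr y).card * (2 / Real.log y) + 1.5 * Real.sqrt y := by
  classical
  have hy0 : 0 ≤ y := by linarith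
  have hs0 : 0 ≤ Real.sqrt y := Real.sqrt_nonneg y
  refine (Finset.sum_le_sum fun p hp => inv_log_le hy ((mem_pr hy0).1 hp).1).trans ?_
  rw [Finset.sum_add_distrib, Finset.sum_const, nsmul_eq_mul]
  have h1 : ∑ p ∈ pr y, (if (p : ℝ) ≤ Real.sqrt y then (1.5 : ℝ) else 0) ≤ 1.5 * Real.sqrt y := by
    rw [← Finset.sum_filter, Finset.sum_const, nsmul_eq_mul]
    have h2 : (pr y).filter (fun p : ℕ => (p : ℝ) ≤ Real.sqrt y) ⊆ pr (Real.sqrt y) := by
      intro p hp
      rw [Finset.mem_filter] at hp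
      exact (mem_pr hs0).2 ⟨((mem_pr hy0).1 hp.1).1, hp.2⟩
    have h3 := Finset.card_le_card h2
    have h4 : (((pr y).filter (fun p : ℕ => (p : ℝ) ≤ Real.sqrt y)).card : ℝ) ≤
        ((pr (Real.sqrt y)).card : ℝ) := by exact_mod_cast h3
    have h5 := pr_card hs0
    linarith
  linarith

/-- the exponents -/
noncomputable def Dp (ε l : ℝ) (p : ℕ) : ℕ := ⌈48 / ε ^ 2 * l ^ 3 / Real.log p ^ 2⌉₊

/-- the accuracies -/
noncomputable def ac (ε l : ℝ) (p : ℕ) : ℝ := ε * Real.log p / (2 * l)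

lemma Dp_bounds {ε l : ℝ} (hε : 0 < ε) (hl : 1 ≤ l) {p : ℕ} (hp : p.Prime) :
    3 * l ≤ ac ε l p ^ 2 / 4 * (Dp ε l p : ℝ) ∧
    (Dp ε l p : ℝ) * Real.log p ≤ 48 / ε ^ 2 * l ^ 3 * (1 / Real.log p) + Real.log p ∧
    (Dp ε l p : ℝ) + 1 ≤ (101 / ε ^ 2 + 2) * l ^ 3 := by
  have hp2 : (2 : ℝ) ≤ p := by exact_mod_cast hp.two_le
  have hlp : 0 < Real.log p := Real.log_pos (by linarith)
  have hl0 : 0 < l := by linarith
  have h1 : 48 / ε ^ 2 * l ^ 3 / Real.log p ^ 2 ≤ (Dp ε l p : ℝ) := Nat.le_ceil _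
  have h2 : (Dp ε l p : ℝ) < 48 / ε ^ 2 * l ^ 3 / Real.log p ^ 2 + 1 :=
    Nat.ceil_lt_add_one (by positivity)
  refine ⟨?_, ?_, ?_⟩
  · have h3 : ac ε l p ^ 2 / 4 * (48 / ε ^ 2 * l ^ 3 / Real.log p ^ 2) = 3 * l := by
      unfold ac
      field_simp
      norm_num
    rw [← h3]
    exact mul_le_mul_of_nonneg_left h1 (by positivity)
  · have h3 := mul_le_mul_of_nonneg_right h2.le hlp.le
    refine h3.trans (le_of_eq ?_)
    field_simp
  · have h3 : Real.log 2 ≤ Real.log p := Real.log_le_log (by norm_num) hp2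
    have h4 := Real.log_two_gt_d9
    have h5 : 48 / 101 ≤ Real.log p ^ 2 := by nlinarith
    have h6 : 48 / ε ^ 2 * l ^ 3 / Real.log p ^ 2 ≤ 101 / ε ^ 2 * l ^ 3 := by
      rw [div_le_iff₀ (by positivity)]
      have h7 : 0 ≤ 101 / ε ^ 2 * l ^ 3 := by positivity
      calc 48 / ε ^ 2 * l ^ 3 = 101 / ε ^ 2 * l ^ 3 * (48 / 101) := by ring
        _ ≤ _ := mul_le_mul_of_nonneg_left h5 h7
    have h7 : 1 ≤ l ^ 3 := one_le_pow₀ hl
    nlinarith

/-- the conditions on `L = log T` -/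
lemma par {ε δ c2 K : ℝ} (hε : 0 < ε) (hε1 : ε < 1) (hδ : 0 < δ) (hc2 : 0 < c2) (hK : 0 < K) :
    ∃ L0 : ℝ, 0 < L0 ∧ ∀ L : ℝ, L0 ≤ L →
      1 ≤ Real.log L ∧ 0 ≤ L / Real.log L ^ (2 + ε) ∧ L / Real.log L ^ (2 + ε) ≤ L ∧
      L / Real.log L ^ (2 + ε) ≤ δ * L ^ 2 ∧
      ∑ p ∈ pr (L / Real.log L ^ (2 + ε)), (Dp ε (Real.log L) p : ℝ) * Real.log p ≤ δ * L ∧
      ∑ p ∈ pr (L / Real.log L ^ (2 + ε)), Real.log ((Dp ε (Real.log L) p : ℝ) + 1) ≤
        c2 * (L / Real.log L ^ 3) ∧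
      ∑ p ∈ pr (L / Real.log L ^ (2 + ε)),
        Real.exp (-(ac ε (Real.log L) p ^ 2 / 4 * (Dp ε (Real.log L) p : ℝ))) *
          ((Dp ε (Real.log L) p : ℝ) + 1) ≤ K / Real.log L := by
  set C1 : ℝ := 48 / ε ^ 2 with hC1
  set B : ℝ := 101 / ε ^ 2 + 2 with hB
  have hC10 : 0 < C1 := by positivity
  have hB0 : 0 < B := by positivity
  -- the constants
  obtain ⟨M, hM1, hM2, hM3, hM4, hM5, hM6, hM7⟩ : ∃ M : ℝ, 100 ≤ M ∧ B ≤ M ∧ 72 * C1 / δ ≤ M ∧
      4.2 / δ ≤ M ∧ B / K ≤ M ∧ 8 / c2 ≤ M ∧ 16.5 * C1 / δ ≤ M := by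
    refine ⟨max (max (max 100 B) (max (72 * C1 / δ) (4.2 / δ)))
      (max (max (B / K) (8 / c2)) (16.5 * C1 / δ)), ?_, ?_, ?_, ?_, ?_, ?_, ?_⟩ <;> simp
  have ev1 : ∀ᶠ L : ℝ in atTop, M ≤ Real.log L := Real.tendsto_log_atTop.eventually_ge_atTop _
  have ev2 : ∀ᶠ L : ℝ in atTop, M * Real.log L ^ 4 ≤ Real.sqrt L := by
    have h1 := (isLittleO_log_rpow_rpow_atTop (s := 1 / 2) (4 : ℝ) (by norm_num)).bound
      (show (0 : ℝ) < 1 / M by positivity)
    filter_upwards [h1, eventually_ge_atTop 1] with x hx hx1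
    have hlx : 0 ≤ Real.log x := Real.log_nonneg hx1
    rw [Real.norm_of_nonneg (by positivity), Real.norm_of_nonneg (by positivity),
      ← Real.sqrt_eq_rpow, show (4 : ℝ) = ((4 : ℕ) : ℝ) by norm_num, Real.rpow_natCast,
      div_mul_eq_mul_div, le_div_iff₀ (by linarith)] at hx
    linarith
  have ev3 : ∀ᶠ L : ℝ in atTop, 50 * Real.log (Real.log L) ≤ c2 * Real.log L ^ ε := by
    have h1 : ∀ᶠ l : ℝ in atTop, 50 * Real.log l ≤ c2 * l ^ ε := by
      have h2 := (isLittleO_log_rpow_atTop hε).bound (show (0 : ℝ) < c2 / 50 by positivity)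
      filter_upwards [h2, eventually_ge_atTop 1] with x hx hx1
      rw [Real.norm_of_nonneg (Real.log_nonneg hx1), Real.norm_of_nonneg (by positivity)] at hx
      linarith
    exact Real.tendsto_log_atTop.eventually h1
  have ev4 : ∀ᶠ L : ℝ in atTop, 6 * Real.log (Real.log L) ≤ Real.log L := by
    have h1 : ∀ᶠ l : ℝ in atTop, 6 * Real.log l ≤ l := by
      have h2 := Real.isLittleO_log_id_atTop.bound (show (0 : ℝ) < 1 / 6 by positivity)
      filter_upwards [h2, eventually_ge_atTop 1] with x hx hx1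
      simp only [id] at hx
      rw [Real.norm_of_nonneg (Real.log_nonneg hx1), Real.norm_of_nonneg (by linarith)] at hx
      linarith
    exact Real.tendsto_log_atTop.eventually h1
  have ev5 : ∀ᶠ L : ℝ in atTop, 1 / δ ≤ L := eventually_ge_atTop _
  obtain ⟨L0, hL0⟩ := eventually_atTop.1 ((((ev1.and ev2).and ev3).and ev4).and ev5)
  refine ⟨max L0 1, lt_of_lt_of_le one_pos (le_max_right _ _), fun L hL => ?_⟩
  obtain ⟨⟨⟨⟨f1, f2⟩, f3⟩, f4⟩, f5⟩ := hL0 L ((le_max_left _ _).trans hL)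
  have hL1 : 1 ≤ L := (le_max_right _ _).trans hL
  have hLp : 0 < L := by linarith
  set l := Real.log L with hl
  have hl100 : 100 ≤ l := hM1.trans f1
  have hl1 : 1 ≤ l := by linarith
  have hlp : 0 < l := by linarith
  have hll : 0 < Real.log l := Real.log_pos (by linarith)
  have hlll : Real.log l ≤ l := by linarith
  have hpw : 1 ≤ l ^ (2 + ε) := Real.one_le_rpow hl1 (by linarith)
  have hpw0 : 0 < l ^ (2 + ε) := by linarith
  have hpw2 : l ^ (2 + ε) = l ^ 2 * l ^ ε := by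
    rw [Real.rpow_add hlp, show (2 : ℝ) = ((2 : ℕ) : ℝ) by norm_num, Real.rpow_natCast]
  have hle1 : 1 ≤ l ^ ε := Real.one_le_rpow hl1 hε.le
  have hpw3 : l ^ (2 + ε) ≤ l ^ 3 := by
    rw [show l ^ 3 = l ^ (3 : ℝ) by norm_cast]
    exact Real.rpow_le_rpow_of_exponent_le hl1 (by linarith)
  set y := L / l ^ (2 + ε) with hy
  have hy0 : 0 ≤ y := by positivity
  have hyL : y ≤ L := div_le_self hLp.le hpw
  have hyL2 : y ≤ L / l ^ 2 := by
    rw [hy, hpw2]
    apply div_le_div_of_nonneg_left hLp.le (by positivity)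
    exact le_mul_of_one_le_right (by positivity) hle1
  have hsq0 : 0 < Real.sqrt L := Real.sqrt_pos.2 hLp
  have hsq : Real.sqrt L * Real.sqrt L = L := Real.mul_self_sqrt hLp.le
  have hlogy : l / 2 ≤ Real.log y := by
    rw [hy, Real.log_div hLp.ne' hpw0.ne', Real.log_rpow hlp, ← hl]
    nlinarith
  have hy1 : 1 < y := by
    by_contra hcon
    push Not at hcon
    have := Real.log_nonpos hy0 hcon
    linarith
  have hsy : Real.sqrt y ≤ Real.sqrt L := Real.sqrt_le_sqrt hyL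
  -- the number of primes
  have hcard : ((pr y).card : ℝ) ≤ Real.sqrt L + 5.6 * (y / l) := by
    have h1 := pr_card2 hy1
    have h2 : 2.8 * y / Real.log y ≤ 5.6 * (y / l) := by
      calc 2.8 * y / Real.log y ≤ 2.8 * y / (l / 2) := by
            apply div_le_div_of_nonneg_left (by positivity) (by positivity) hlogy
        _ = 5.6 * (y / l) := by
            field_simp
            norm_num
    linarith
  have hcard2 : ((pr y).card : ℝ) ≤ L := (pr_card hy0).trans hyL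
  have hPp : ∀ p ∈ pr y, p.Prime := fun p hp => ((mem_pr hy0).1 hp).1
  refine ⟨hl1, hy0, hyL, ?_, ?_, ?_, ?_⟩
  · refine hyL.trans ?_
    rw [div_le_iff₀ hδ] at f5
    nlinarith
  · -- the size of the resonator
    have h1 : ∑ p ∈ pr y, (Dp ε l p : ℝ) * Real.log p ≤
        ∑ p ∈ pr y, (C1 * l ^ 3 * (1 / Real.log p) + Real.log p) :=
      Finset.sum_le_sum fun p hp => (Dp_bounds hε hl1 (hPp p hp)).2.1
    refine h1.trans ?_
    rw [Finset.sum_add_distrib, ← Finset.mul_sum]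
    have h2 := sum_inv_log hy1
    have h3 := theta_le hy0
    have h4 : ((pr y).card : ℝ) * (2 / Real.log y) ≤ ((pr y).card : ℝ) * (4 / l) := by
      apply mul_le_mul_of_nonneg_left _ (Nat.cast_nonneg _)
      rw [div_le_div_iff₀ (by linarith) hlp]
      linarith
    have h5 : ((pr y).card : ℝ) * (4 / l) ≤ (Real.sqrt L + 5.6 * (L / l ^ 2 / l)) * (4 / l) := by
      apply mul_le_mul_of_nonneg_right _ (by positivity)
      refine hcard.trans ?_
      gcongr
    have h6 : ∑ p ∈ pr y, 1 / Real.log p ≤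
        (Real.sqrt L + 5.6 * (L / l ^ 2 / l)) * (4 / l) + 1.5 * Real.sqrt L := by
      have : 1.5 * Real.sqrt y ≤ 1.5 * Real.sqrt L := by linarith
      linarith
    have h7 : C1 * l ^ 3 * ∑ p ∈ pr y, 1 / Real.log p ≤ C1 * l ^ 3 *
        ((Real.sqrt L + 5.6 * (L / l ^ 2 / l)) * (4 / l) + 1.5 * Real.sqrt L) :=
      mul_le_mul_of_nonneg_left h6 (by positivity)
    have h8 : C1 * l ^ 3 *
        ((Real.sqrt L + 5.6 * (L / l ^ 2 / l)) * (4 / l) + 1.5 * Real.sqrt L) =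
        C1 * (4 * l ^ 2 * Real.sqrt L + 22.4 * (L / l) + 1.5 * l ^ 3 * Real.sqrt L) := by
      field_simp
      ring
    -- the three pieces
    have g1 : C1 * (4 * l ^ 2 * Real.sqrt L + 1.5 * l ^ 3 * Real.sqrt L) ≤ δ / 3 * L := by
      have a1 : 16.5 * C1 / δ * l ^ 4 ≤ Real.sqrt L :=
        (mul_le_mul_of_nonneg_right hM7 (by positivity)).trans f2
      have a2 : 16.5 * C1 * l ^ 4 ≤ δ * Real.sqrt L := by
        rw [div_mul_eq_mul_div, div_le_iff₀ hδ] at a1
        linarith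
      have a3 : l ^ 2 ≤ l ^ 4 := pow_le_pow_right₀ hl1 (by norm_num)
      have a4 : l ^ 3 ≤ l ^ 4 := pow_le_pow_right₀ hl1 (by norm_num)
      calc C1 * (4 * l ^ 2 * Real.sqrt L + 1.5 * l ^ 3 * Real.sqrt L) ≤
          C1 * (4 * l ^ 4 * Real.sqrt L + 1.5 * l ^ 4 * Real.sqrt L) := by gcongr
        _ = (16.5 * C1 * l ^ 4) / 3 * Real.sqrt L := by ring
        _ ≤ (δ * Real.sqrt L) / 3 * Real.sqrt L := by gcongr
        _ = δ / 3 * (Real.sqrt L * Real.sqrt L) := by ring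
        _ = δ / 3 * L := by rw [hsq]
    have g2 : C1 * (22.4 * (L / l)) ≤ δ / 3 * L := by
      have a1 : 72 * C1 / δ ≤ l := hM3.trans f1
      rw [div_le_iff₀ hδ] at a1
      have a2 : 22.4 * C1 ≤ δ / 3 * l := by linarith
      calc C1 * (22.4 * (L / l)) = 22.4 * C1 * (L / l) := by ring
        _ ≤ δ / 3 * l * (L / l) := by gcongr
        _ = δ / 3 * L := by field_simp
    have g3 : 1.4 * y ≤ δ / 3 * L := by
      have a1 : 4.2 / δ ≤ l := hM4.trans f1
      rw [div_le_iff₀ hδ] at a1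
      have a2 : 1.4 ≤ δ / 3 * l ^ 2 := by nlinarith
      calc 1.4 * y ≤ 1.4 * (L / l ^ 2) := by linarith
        _ ≤ δ / 3 * l ^ 2 * (L / l ^ 2) := by gcongr
        _ = δ / 3 * L := by field_simp
    rw [h8] at h7
    linarith
  · -- the mass
    have h1 : ∀ p ∈ pr y, Real.log ((Dp ε l p : ℝ) + 1) ≤ 4 * Real.log l := by
      intro p hp
      have h2 := (Dp_bounds hε hl1 (hPp p hp)).2.2
      have h3 : (Dp ε l p : ℝ) + 1 ≤ l ^ 4 := by
        have h4 : B * l ^ 3 ≤ l * l ^ 3 :=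
          mul_le_mul_of_nonneg_right (hM2.trans f1) (by positivity)
        calc _ ≤ B * l ^ 3 := h2
          _ ≤ l * l ^ 3 := h4
          _ = _ := by ring
      calc Real.log ((Dp ε l p : ℝ) + 1) ≤ Real.log (l ^ 4) := Real.log_le_log (by positivity) h3
        _ = _ := by rw [Real.log_pow]; norm_num
    refine (Finset.sum_le_sum h1).trans ?_
    rw [Finset.sum_const, nsmul_eq_mul]
    have h2 : ((pr y).card : ℝ) * (4 * Real.log l) ≤
        (Real.sqrt L + 5.6 * (y / l)) * (4 * Real.log l) :=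
      mul_le_mul_of_nonneg_right hcard (by positivity)
    refine h2.trans ?_
    have g1 : Real.sqrt L * (4 * Real.log l) ≤ c2 / 2 * (L / l ^ 3) := by
      have a1 : 8 / c2 * l ^ 4 ≤ Real.sqrt L :=
        (mul_le_mul_of_nonneg_right hM6 (by positivity)).trans f2
      rw [div_mul_eq_mul_div, div_le_iff₀ hc2] at a1
      rw [mul_div_assoc', le_div_iff₀ (by positivity)]
      calc Real.sqrt L * (4 * Real.log l) * l ^ 3 ≤ Real.sqrt L * (4 * l) * l ^ 3 := by gcongr
        _ = Real.sqrt L / 2 * (8 * l ^ 4) := by ring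
        _ ≤ Real.sqrt L / 2 * (Real.sqrt L * c2) := by gcongr
        _ = c2 / 2 * (Real.sqrt L * Real.sqrt L) := by ring
        _ = c2 / 2 * L := by rw [hsq]
    have g2 : 5.6 * (y / l) * (4 * Real.log l) ≤ c2 / 2 * (L / l ^ 3) := by
      have a1 : y / l = L / l ^ 3 / l ^ ε := by
        rw [hy, hpw2]
        field_simp
      rw [a1]
      have hle0 : 0 < l ^ ε := by linarith
      have a2 : 22.4 * Real.log l / l ^ ε ≤ c2 / 2 := by
        rw [div_le_iff₀ hle0]
        linarith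
      calc 5.6 * (L / l ^ 3 / l ^ ε) * (4 * Real.log l) =
          (22.4 * Real.log l / l ^ ε) * (L / l ^ 3) := by ring
        _ ≤ c2 / 2 * (L / l ^ 3) := by gcongr
    linarith
  · -- the bad points
    have h1 : ∀ p ∈ pr y, Real.exp (-(ac ε l p ^ 2 / 4 * (Dp ε l p : ℝ))) *
        ((Dp ε l p : ℝ) + 1) ≤ 1 / L ^ 3 * (B * l ^ 3) := by
      intro p hp
      obtain ⟨a1, -, a3⟩ := Dp_bounds hε hl1 (hPp p hp)
      have a2 : Real.exp (-(ac ε l p ^ 2 / 4 * (Dp ε l p : ℝ))) ≤ 1 / L ^ 3 := by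
        have a4 : Real.exp (-(3 * l)) = 1 / L ^ 3 := by
          rw [Real.exp_neg, show 3 * l = l * (3 : ℕ) by push_cast; ring, Real.exp_mul,
            Real.exp_log hLp, Real.rpow_natCast, one_div]
        rw [← a4]
        exact Real.exp_le_exp.2 (neg_le_neg a1)
      exact mul_le_mul a2 a3 (by positivity) (by positivity)
    refine (Finset.sum_le_sum h1).trans ?_
    rw [Finset.sum_const, nsmul_eq_mul]
    have h2 : ((pr y).card : ℝ) * (1 / L ^ 3 * (B * l ^ 3)) ≤ L * (1 / L ^ 3 * (B * l ^ 3)) :=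
      mul_le_mul_of_nonneg_right hcard2 (by positivity)
    refine h2.trans ?_
    rw [le_div_iff₀ hlp]
    have a1 : B / K * l ^ 4 ≤ Real.sqrt L :=
      (mul_le_mul_of_nonneg_right hM5 (by positivity)).trans f2
    rw [div_mul_eq_mul_div, div_le_iff₀ hK] at a1
    have a2 : Real.sqrt L ≤ L := by
      rw [Real.sqrt_le_left hLp.le]
      nlinarith
    have e : L * (1 / L ^ 3 * (B * l ^ 3)) * l = B * l ^ 4 / L ^ 2 := by
      field_simp
    rw [e, div_le_iff₀ (by positivity)]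
    calc B * l ^ 4 ≤ Real.sqrt L * K := a1
      _ ≤ L * K := mul_le_mul_of_nonneg_right a2 hK.le
      _ ≤ L ^ 2 * K := by
          apply mul_le_mul_of_nonneg_right _ hK.le
          nlinarith
      _ = K * L ^ 2 := mul_comm _ _

end Boxaux

end Pool.Agent.N802.U
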