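import Pool.Agent.N802.U.Box1
import Pool.Agent.N802.U.Box2

/-! # Simple critical zeros at the prescribed values of a completely multiplicative function -/

open Complex Filter Topology Set MeasureTheory
open scoped BigOperators ComplexConjugate

namespace Pool.Agent.N802.U

open H370 TC

namespace Boxaux

lemma mn1_eq {n : ℕ} (hn : 0 < n) (g : ℝ) : (n : ℂ) ^ (I * g) = mn 1 n g := by
  unfold mn
  have hn0 : (n : ℂ) ≠ 0 := by exact_mod_cast hn.ne'
  rw [Complex.cpow_def_of_ne_zero hn0, ← Complex.natCast_log]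
  congr 1
  simp only [Nat.cast_one, Real.log_one, sub_zero]
  push_cast
  ring

lemma exp_diff (a b : ℝ) : ‖cexp ((a : ℂ) * I) - cexp ((b : ℂ) * I)‖ ≤ |a - b| := by
  have h1 : cexp ((a : ℂ) * I) - cexp ((b : ℂ) * I) =
      cexp ((b : ℂ) * I) * (cexp (I * ((a - b : ℝ) : ℂ)) - 1) := by
    rw [mul_sub, ← Complex.exp_add, mul_one]
    congr 2
    push_cast
    ring
  rw [h1, norm_mul, Complex.norm_exp_ofReal_mul_I, one_mul]
  have := Real.norm_exp_I_mul_ofReal_sub_one_le (x := a - b)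
  rw [Real.norm_eq_abs] at this
  exact this

lemma mn_diff {p : ℕ} (hp : 0 < p) (g t : ℝ) : ‖mn 1 p g - mn 1 p t‖ ≤ |g - t| * Real.log p := by
  unfold mn
  refine (exp_diff _ _).trans (le_of_eq ?_)
  have hp1 : (1 : ℝ) ≤ p := by exact_mod_cast hp
  have h0 : 0 ≤ Real.log p := Real.log_nonneg hp1
  simp only [Nat.cast_one, Real.log_one, sub_zero]
  rw [← sub_mul, abs_mul, abs_of_nonneg h0]

lemma phase_flip {p : ℕ} (hp : 0 < p) (t : ℝ) (w : ℂ) :
    ‖mn 1 p t - w‖ = ‖w * mn p 1 t - 1‖ := by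
  have h1 : mn 1 p t * mn p 1 t = 1 := by
    rw [mn_mul one_pos hp hp one_pos]
    unfold mn
    simp
  have h2 : mn 1 p t - w = -(mn 1 p t * (w * mn p 1 t - 1)) := by
    have : mn 1 p t * (w * mn p 1 t - 1) = w * (mn 1 p t * mn p 1 t) - mn 1 p t := by ring
    rw [this, h1]
    ring
  rw [h2, norm_neg, norm_mul, mn_norm, one_mul]

/-- from the primes to the integers -/
lemma all_n {f : ℕ → ℂ} (hf1 : ∀ n, 0 < n → ‖f n‖ = 1)
    (hfm : ∀ m n, 0 < m → 0 < n → f (m * n) = f m * f n) {g κ y : ℝ}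
    (h : ∀ p : ℕ, p.Prime → (p : ℝ) ≤ y → ‖mn 1 p g - f p‖ ≤ κ * Real.log p) :
    ∀ n : ℕ, 0 < n → (n : ℝ) ≤ y → ‖mn 1 n g - f n‖ ≤ κ * Real.log n := by
  have hf11 : f 1 = 1 := by
    have h1 := hfm 1 1 one_pos one_pos
    have h2 : f 1 ≠ 0 := by
      intro h3
      have := hf1 1 one_pos
      rw [h3, norm_zero] at this
      exact zero_ne_one this
    rw [mul_one] at h1
    exact (mul_left_cancel₀ h2 (by rw [mul_one]; exact h1)).symm
  intro n
  induction n using Nat.strong_induction_on with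
  | _ n ih =>
    intro hn hny
    rcases Nat.lt_or_ge 1 n with h1 | h1
    · set p := n.minFac with hp
      have hpp : p.Prime := Nat.minFac_prime (by omega)
      obtain ⟨m, hm⟩ := Nat.minFac_dvd n
      rw [← hp] at hm
      have hm0 : 0 < m := by
        rcases Nat.eq_zero_or_pos m with h2 | h2
        · rw [h2, mul_zero] at hm; omega
        · exact h2
      have hmn : m < n := by
        rw [hm]
        have := hpp.two_le
        nlinarith
      have hpn : p ≤ n := Nat.minFac_le hn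
      have hm1 : (m : ℝ) ≤ y := le_trans (by exact_mod_cast hmn.le) hny
      have hp1 : (p : ℝ) ≤ y := le_trans (by exact_mod_cast hpn) hny
      have e1 := ih m hmn hm0 hm1
      have e2 := h p hpp hp1
      have e3 : mn 1 n g = mn 1 p g * mn 1 m g := by
        rw [mn_mul one_pos hpp.pos one_pos hm0, mul_one, ← hm]
      have e4 : f n = f p * f m := by
        conv_lhs => rw [hm]
        exact hfm p m hpp.pos hm0
      have e5 : mn 1 n g - f n = mn 1 p g * (mn 1 m g - f m) + (mn 1 p g - f p) * f m := by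
        rw [e3, e4]; ring
      have e6 : Real.log n = Real.log p + Real.log m := by
        conv_lhs => rw [hm]
        push_cast
        exact Real.log_mul (by exact_mod_cast hpp.pos.ne') (by exact_mod_cast hm0.ne')
      rw [e5, e6]
      refine (norm_add_le _ _).trans ?_
      rw [norm_mul, norm_mul, mn_norm, one_mul, hf1 m hm0, mul_one]
      linarith
    · have : n = 1 := by omega
      subst this
      rw [hf11]
      unfold mn
      simp

/-- the last count -/
lemma last {T c2 ε : ℝ} {L w N : ℝ} (hL : L = Real.log T) (hT : 0 < T)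
    (hw : Real.exp (-(c2 * (L / Real.log L ^ 3))) ≤ w) (hN : 0.2 * (T * w) ≤ N)
    (h1 : c2 * (L / Real.log L ^ 3) ≤ ε / 2 * L) (h2 : 5 ≤ T ^ (ε / 2)) : T ^ (1 - ε) ≤ N := by
  refine le_trans ?_ hN
  have h3 : T ^ (-(ε / 2)) ≤ w := by
    refine le_trans ?_ hw
    rw [Real.rpow_def_of_pos hT, ← hL]
    apply Real.exp_le_exp.2
    linarith
  have h4 : T ^ (1 - ε) * T ^ (ε / 2) = T * T ^ (-(ε / 2)) := by
    rw [← Real.rpow_add hT]
    conv_rhs => rw [← Real.rpow_one T]
    rw [← Real.rpow_mul hT.le, ← Real.rpow_add hT]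
    congr 1
    ring
  have h5 : 0 < T ^ (1 - ε) := by positivity
  have h6 : T * T ^ (-(ε / 2)) ≤ T * w := mul_le_mul_of_nonneg_left h3 hT.le
  have h7 : T ^ (1 - ε) * 5 ≤ T ^ (1 - ε) * T ^ (ε / 2) := mul_le_mul_of_nonneg_left h2 h5.le
  linarith

end Boxaux

open Boxaux

/-- **Simple zeros on the critical line at prescribed values.** -/
theorem box {F : ℂ → ℂ} (hF : GoodL F) (hcore : S_core F) (ε : ℝ) (hε : 0 < ε) (hε1 : ε < 1) :
    ∃ T0 : ℝ, ∀ T : ℝ, T0 ≤ T → ∀ f : ℕ → ℂ, (∀ n, 0 < n → ‖f n‖ = 1) →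
    (∀ m n, 0 < m → 0 < n → f (m * n) = f m * f n) →
    ∃ B : Finset ℝ, (∀ g ∈ B, T < g ∧ g ≤ 2 * T ∧ F (1 / 2 + I * g) = 0 ∧
      mult F (1 / 2 + I * g) = 1 ∧
      ∀ n : ℕ, 0 < n → (n : ℝ) ≤ Real.log T / Real.log (Real.log T) ^ (2 + ε) →
        ‖(n : ℂ) ^ (I * g) - f n‖ ≤ ε * Real.log n / Real.log (Real.log T)) ∧
    T ^ (1 - ε) ≤ (B.card : ℝ) := by
  classical
  have hπ := Real.pi_pos
  have hπ3 := Real.pi_gt_three
  have hπ4 : Real.pi < 3.15 := Real.pi_lt_d2
  obtain ⟨δ, c2, T1, hδ, hc2, hT1, hcore⟩ := hcore 0.0725 (ε / 2) (by norm_num) (by norm_num)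
    (by positivity) (by linarith)
  obtain ⟨CZ, hCZ, hZ⟩ := Zg_le hF
  obtain ⟨T2, hT2, hmass⟩ := rho_mass
  set K : ℝ := ε / (200 * (Real.exp (1 / 2) * CZ)) with hK
  have hK0 : 0 < K := by positivity
  obtain ⟨L0, hL0, hpar⟩ := par (ε := ε) (δ := min δ (1 / 2)) (c2 := c2) (K := K) hε hε1
    (lt_min hδ (by norm_num)) hc2 hK0
  have ev1 : ∀ᶠ T : ℝ in atTop, L0 ≤ Real.log T := Real.tendsto_log_atTop.eventually_ge_atTop _
  have ev2 : ∀ᶠ T : ℝ in atTop, 5 ≤ T ^ (ε / 2) :=
    (tendsto_rpow_atTop (by positivity)).eventually_ge_atTop _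
  have ev3 : ∀ᶠ T : ℝ in atTop, 2 * c2 / ε + 1 ≤ Real.log (Real.log T) :=
    (Real.tendsto_log_atTop.comp Real.tendsto_log_atTop).eventually_ge_atTop _
  obtain ⟨T3, hT3⟩ := eventually_atTop.1 ((ev1.and ev2).and ev3)
  refine ⟨max (max T1 T2) T3, fun T hT f hf1 hfm => ?_⟩
  have gT1 : T1 ≤ T := ((le_max_left _ _).trans (le_max_left _ _)).trans hT
  have gT2 : T2 ≤ T := ((le_max_right _ _).trans (le_max_left _ _)).trans hT
  obtain ⟨⟨f1, f2⟩, f3⟩ := hT3 T ((le_max_right _ _).trans hT)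
  have hT10 : 10 ≤ T := hT1.trans gT1
  have hT0 : 0 < T := by linarith
  obtain ⟨U1, U2, hU1, hU1', hU2, hU2', hcore⟩ := hcore T gT1
  obtain ⟨g1, g2, g3, g4, g5, g6, g7⟩ := hpar (Real.log T) f1
  set L := Real.log T with hL
  set l := Real.log L with hl
  set y := L / l ^ (2 + ε) with hy
  have hLp : 0 < L := by linarith
  have hlp : 0 < l := by linarith
  have hP : ∀ p ∈ pr y, p.Prime := fun p hp => ((mem_pr g2).1 hp).1
  set θ : ℕ → ℝ := fun p => (f p).arg with hθ
  have hθf : ∀ p : ℕ, 0 < p → cexp (I * θ p) = f p := by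
    intro p hp
    have h1 := Complex.norm_mul_exp_arg_mul_I (f p)
    rw [hf1 p hp] at h1
    rw [hθ, mul_comm]
    simpa using h1
  obtain ⟨S, r, hres⟩ := res_ex (P := pr y) (Dp ε l) θ hP
  have hTL : 0 < T / L := by positivity
  have hLy : y ≤ min δ (1 / 2) * L ^ 2 := g4
  have hKK : Real.exp (∑ p ∈ pr y, (Dp ε l p : ℝ) * Real.log p) ≤ T ^ (min δ (1 / 2)) := by
    rw [Real.rpow_def_of_pos hT0, ← hL]
    apply Real.exp_le_exp.2
    linarith
  have hsm : Smo S (T ^ (min δ (1 / 2))) (min δ (1 / 2) * L ^ 2) :=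
    hres.smo hP hKK fun p hp => ((mem_pr g2).1 hp).2.trans hLy
  have hT1' : (1 : ℝ) ≤ T := by linarith
  have hsm1 : Smo S (T ^ δ) (δ * L ^ 2) := fun k hk =>
    ⟨(hsm k hk).1, (hsm k hk).2.1.trans
      (Real.rpow_le_rpow_of_exponent_le hT1' (min_le_left _ _)), fun p hp hd =>
      ((hsm k hk).2.2 p hp hd).trans (mul_le_mul_of_nonneg_right (min_le_left _ _) (sq_nonneg _))⟩
  have hw : Real.exp (-(c2 * (L / l ^ 3))) ≤ w1 S r := by
    refine le_trans ?_ hres.w_ge
    apply Real.exp_le_exp.2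
    linarith
  have hR : ∀ t, ‖RP S r t‖ ^ 2 ≤ Real.exp (c2 * (L / l ^ 3)) * w1 S r := by
    intro t
    refine (hres.le_one hP t).trans ?_
    have h1 : Real.exp (c2 * (L / l ^ 3)) * Real.exp (-(c2 * (L / l ^ 3))) = 1 := by
      rw [← Real.exp_add, add_neg_cancel, Real.exp_zero]
    rw [← h1]
    exact mul_le_mul_of_nonneg_left hw (Real.exp_pos _).le
  have hcr := hcore S hsm1 r hR
  set h := ε / 2 / l with hh
  have hh0 : 0 < h := by positivity
  have hh1 : h ≤ 1 := by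
    rw [hh, div_le_one hlp]
    linarith
  -- the good points
  set Q : ℂ → Prop := fun s => ∀ p : ℕ, p.Prime → (p : ℝ) ≤ y →
    ‖mn 1 p s.im - f p‖ ≤ ε / l * Real.log p with hQd
  have hQ : ∀ t : ℝ, (∀ q ∈ pr y, ‖cexp (I * θ q) * mn q 1 t - 1‖ ≤ ac ε l q) → ∀ s : ℂ,
      |s.im - t| ≤ h → Q s := by
    intro t ht s hs p hp hpy
    have h1 := ht p ((mem_pr g2).2 ⟨hp, hpy⟩)
    rw [hθf p hp.pos, ← phase_flip hp.pos] at h1
    have h2 := mn_diff hp.pos s.im t
    have hp1 : (1 : ℝ) ≤ p := by exact_mod_cast hp.one_lt.le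
    have h0 : 0 ≤ Real.log p := Real.log_nonneg hp1
    have h3 : |s.im - t| * Real.log p ≤ h * Real.log p := mul_le_mul_of_nonneg_right hs h0
    have h4 : mn 1 p s.im - f p = (mn 1 p s.im - mn 1 p t) + (mn 1 p t - f p) := by ring
    rw [h4]
    refine (norm_add_le _ _).trans ?_
    have h5 : ε / l * Real.log p = h * Real.log p + ac ε l p := by
      rw [hh]
      unfold ac
      field_simp
      ring
    rw [h5]
    linarith
  have hX : ∀ t, x1 F U1 U2 h t ≤ Real.exp (1 / 2) * (CZ * L) := fun t =>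
    (x1_le_Zg hh1 t).trans (mul_le_mul_of_nonneg_left (hZ T (by linarith) U1 U2 hU1 hU2' t)
      (Real.exp_pos _).le)
  have hms : ∀ q ∈ pr y, ∀ (S' : Finset ℕ) (r' : ℕ → ℂ), Res ((pr y).erase q) (Dp ε l) θ S' r' →
      ∫ t : ℝ, rho T S' r' t ≤ 2 * nr T S' r' := by
    intro q hq S' r' hres'
    have hP' : ∀ p ∈ (pr y).erase q, p.Prime := fun p hp => hP p (Finset.mem_of_mem_erase hp)
    refine hmass T gT2 S' y (hres'.smo hP' ?_ fun p hp =>
      ((mem_pr g2).1 (Finset.mem_of_mem_erase hp)).2) r'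
    refine le_trans ?_ (hKK.trans (Real.rpow_le_rpow_of_exponent_le hT1' (min_le_right _ _)))
    apply Real.exp_le_exp.2
    apply Finset.sum_le_sum_of_subset_of_nonneg (Finset.erase_subset _ _)
    intro p hp _
    have hp1 : (1 : ℝ) ≤ p := by exact_mod_cast (hP p hp).one_lt.le
    exact mul_nonneg (Nat.cast_nonneg _) (Real.log_nonneg hp1)
  have hmain := main (F := F) (U1 := U1) (U2 := U2) (T := T) (h := h)
    (X := Real.exp (1 / 2) * (CZ * L)) (M := K / l) hT0.le hh0.le hTL hX (by positivity) hres hP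
    (ac ε l) (fun p hp => by
      have hp1 : (1 : ℝ) ≤ p := by exact_mod_cast (hP p hp).one_lt.le
      have := Real.log_nonneg hp1
      unfold ac
      positivity) Q hQ hms g7
  have hw0 : 0 < w1 S r := lt_of_lt_of_le (Real.exp_pos _) hw
  have hnr : 0 < nr T S r := by
    unfold nr
    positivity
  -- the number of good zeros
  set N : ℝ := ((GG F U1 U2 Q).card : ℝ) with hN
  have hE : 2 * (Real.exp (1 / 2) * (CZ * L)) * (K / l) * nr T S r =
      nr T S r * (h * L) * (1 / 50) := by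
    rw [hK, hh]
    field_simp
    norm_num
  have hlow : (0.6725 - 0.0725) * (nr T S r * (h * L / Real.pi)) ≤
      2 * h * N + nr T S r * (h * L) * (1 / 50) := by
    rw [← hE]
    exact hcr.trans hmain
  have hN2 : 0.2 * (T * w1 S r) ≤ N := by
    have h1 : nr T S r * (h * L) * (1 / 50) ≤ 0.07 * (nr T S r * (h * L / Real.pi)) := by
      have h2 : nr T S r * (h * L / Real.pi) = nr T S r * (h * L) * (1 / Real.pi) := by ring
      rw [h2]
      have h3 : (1 : ℝ) / 50 ≤ 0.07 * (1 / Real.pi) := by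
        rw [mul_one_div, le_div_iff₀ hπ]
        linarith
      calc nr T S r * (h * L) * (1 / 50) ≤ nr T S r * (h * L) * (0.07 * (1 / Real.pi)) :=
            mul_le_mul_of_nonneg_left h3 (by positivity)
        _ = _ := by ring
    have h2 : 0.53 * (nr T S r * (h * L / Real.pi)) ≤ 2 * h * N := by linarith
    have h3 : 0.53 * (nr T S r * L / Real.pi) ≤ 2 * N := by
      have h4 : 0.53 * (nr T S r * (h * L / Real.pi)) = h * (0.53 * (nr T S r * L / Real.pi)) := by
        ring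
      rw [h4] at h2
      have h5 : 2 * h * N = h * (2 * N) := by ring
      rw [h5] at h2
      exact le_of_mul_le_mul_left h2 hh0
    have h4 : nr T S r * L / Real.pi = Real.sqrt (2 * Real.pi) / Real.pi * (T * w1 S r) := by
      unfold nr
      rw [← hL]
      field_simp
    rw [h4] at h3
    have h5 : 0.79 ≤ Real.sqrt (2 * Real.pi) / Real.pi := by
      rw [le_div_iff₀ hπ]
      apply Real.le_sqrt_of_sq_le
      nlinarith
    have h6 : 0.79 * (T * w1 S r) ≤ Real.sqrt (2 * Real.pi) / Real.pi * (T * w1 S r) :=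
      mul_le_mul_of_nonneg_right h5 (by positivity)
    linarith
  have hU11 : (1 : ℝ) ≤ U1 := by linarith
  -- the ordinates
  have him : Set.InjOn (fun s : ℂ => s.im) (GG F U1 U2 Q : Set ℂ) := by
    intro s hs s' hs' hss
    unfold GG at hs hs'
    rw [Finset.mem_coe, Finset.mem_filter] at hs hs'
    apply Complex.ext
    · rw [hs.2.1.1, hs'.2.1.1]
    · exact hss
  refine ⟨(GG F U1 U2 Q).image (fun s => s.im), ?_, ?_⟩
  · intro g hg
    rw [Finset.mem_image] at hg
    obtain ⟨s, hs, rfl⟩ := hg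
    unfold GG at hs
    rw [Finset.mem_filter] at hs
    obtain ⟨hs1, ⟨hs2, hs3⟩, hs4⟩ := hs
    rw [mem_Zf hF hU11] at hs1
    obtain ⟨-, -, hs5, hs6, hs7⟩ := hs1
    have he : (1 / 2 : ℂ) + I * ((s.im : ℝ) : ℂ) = s := by
      apply Complex.ext
      · simp [hs2]
      · simp
    rw [he]
    refine ⟨by linarith, by linarith, hs7, hs3, fun n hn hny => ?_⟩
    rw [mn1_eq hn]
    have := all_n hf1 hfm hs4 n hn hny
    calc _ ≤ _ := this
      _ = _ := by ring
  · rw [Finset.card_image_of_injOn him]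
    refine last hL hT0 hw hN2 ?_ f2
    rw [← hl]
    have h1 : 2 * c2 / ε ≤ l := by linarith
    rw [div_le_iff₀ hε] at h1
    have h2 : l ≤ l ^ 3 := by
      calc l = l ^ 1 := (pow_one l).symm
        _ ≤ l ^ 3 := pow_le_pow_right₀ g1 (by norm_num)
    rw [mul_div_assoc', div_le_iff₀ (by positivity)]
    have h3 : c2 ≤ ε / 2 * l ^ 3 := by nlinarith
    calc c2 * L ≤ ε / 2 * l ^ 3 * L := mul_le_mul_of_nonneg_right h3 hLp.le
      _ = _ := by ring

end Pool.Agent.N802.U
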