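import Pool.Agent.N802.U.Stm

/-! # Basic facts about band-limited functions -/

open Complex Filter Topology Set MeasureTheory
open scoped BigOperators ComplexConjugate

namespace Pool.Agent.N802.U

variable {b : ℝ} {W : ℂ → ℂ} {w : ℝ → ℂ}

lemma BW.intg (h : BW b W w) : Integrable w := by
  obtain ⟨M, hM⟩ := h.bdd
  have hsub : w = (Set.Icc (-b) b).indicator w := by
    funext v
    by_cases hv : v ∈ Set.Icc (-b) b
    · rw [Set.indicator_of_mem hv]
    · rw [Set.indicator_of_notMem hv]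
      apply h.sup
      rw [Set.mem_Icc, not_and_or, not_le, not_le] at hv
      rcases hv with hv | hv
      · exact lt_of_lt_of_le (by linarith) (neg_le_abs v)
      · exact lt_of_lt_of_le hv (le_abs_self v)
  rw [hsub, integrable_indicator_iff measurableSet_Icc]
  apply Measure.integrableOn_of_bounded (M := M)
  · rw [Real.volume_Icc]; exact ENNReal.ofReal_ne_top
  · exact h.meas.aestronglyMeasurable
  · exact Eventually.of_forall hM

lemma BW.intg2 (h : BW b W w) : Integrable (fun v => ‖w v‖ ^ 2) := by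
  obtain ⟨M, hM⟩ := h.bdd
  refine (h.intg.norm.const_mul M).mono' (h.meas.norm.pow_const 2).aestronglyMeasurable
    (Eventually.of_forall fun v => ?_)
  rw [Real.norm_of_nonneg (sq_nonneg _), sq]
  exact mul_le_mul_of_nonneg_right (hM v) (norm_nonneg _)

lemma BW.cont (h : BW b W w) : Continuous (fun x : ℝ => W x) := by
  have e : (fun x : ℝ => W x) = fun x : ℝ => ∫ v : ℝ, w v * cexp (I * v * x) := by
    funext x
    exact h.rep x
  rw [e]
  apply continuous_of_dominated (bound := fun v => ‖w v‖)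
  · intro x
    exact (h.meas.mul (by fun_prop : Measurable fun v : ℝ => cexp (I * v * x))).aestronglyMeasurable
  · intro x
    refine Eventually.of_forall fun v => ?_
    rw [norm_mul]
    have : ‖cexp (I * v * x)‖ = 1 := by
      rw [show (I * v * x : ℂ) = ((v * x : ℝ) : ℂ) * I by push_cast; ring,
        Complex.norm_exp_ofReal_mul_I]
    rw [this, mul_one]
  · exact h.intg.norm
  · refine Eventually.of_forall fun v => ?_
    fun_prop

lemma real_of_conj {G : ℂ → ℂ} (hG : ∀ z : ℂ, G (conj z) = conj (G z)) (x : ℝ) :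
    G x = ((G x).re : ℂ) := by
  have h := hG x
  rw [Complex.conj_ofReal] at h
  exact (Complex.conj_eq_iff_re.1 h.symm).symm

lemma norm_real {G : ℂ → ℂ} (hG : ∀ z : ℂ, G (conj z) = conj (G z))
    (h0 : ∀ x : ℝ, 0 ≤ (G x).re ∧ (G x).re ≤ 1) (x : ℝ) : ‖G x‖ = (G x).re := by
  rw [real_of_conj hG x, Complex.norm_real, Real.norm_of_nonneg (h0 x).1, Complex.ofReal_re]

lemma sq_re {G : ℂ → ℂ} (hG : ∀ z : ℂ, G (conj z) = conj (G z)) (x : ℝ) :
    G x ^ 2 = (((G x).re ^ 2 : ℝ) : ℂ) := by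
  rw [Complex.ofReal_pow, ← real_of_conj hG x]

lemma gs_re (hgs : S_gs) (hb : 0 < b) (hW : BW b W w) (f : ℝ → ℝ)
    (hr : ∀ x : ℝ, W x = (f x : ℂ)) :
    (gs w 0).re = 1 / (2 * Real.pi) * ∫ y : ℝ, Real.exp (-y ^ 2 / 2) * f y := by
  rw [hgs b W w hb hW 0]
  have e1 : (∫ y : ℝ, ((Real.exp (-y ^ 2 / 2) : ℝ) : ℂ) * (cexp (I * (0 : ℝ) * y) * W y)) =
      ((∫ y : ℝ, Real.exp (-y ^ 2 / 2) * f y : ℝ) : ℂ) := by
    rw [← integral_complex_ofReal]
    congr 1
    funext y
    rw [hr y]
    simp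
  rw [e1, ← Complex.ofReal_mul, Complex.ofReal_re]

end Pool.Agent.N802.U
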