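import Pool.Agent.N802.U.Core1
import Pool.Agent.W354.ZP.Num

/-! # The theorem about resonators -/

open Complex Filter Topology Set MeasureTheory
open scoped BigOperators ComplexConjugate

namespace Pool.Agent.N802.U

open H370 TC TH803UC

lemma Smo_mono {S : Finset ℕ} {K K' y y' : ℝ} (h : Smo S K y) (hK : K ≤ K') (hy : y ≤ y') :
    Smo S K' y' := fun k hk =>
  ⟨(h k hk).1, (h k hk).2.1.trans hK, fun p hp hd => ((h k hk).2.2 p hp hd).trans hy⟩

theorem core (hwin : S_win) (hsq : S_sq) (hpl : S_pl) (hgs : S_gs) (hms : S_ms) (hfm : S_fm)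
    {F : ℂ → ℂ} (hF : GoodL F) (hD : Dens F) (hef : S_ef F) : S_core F := by
  intro ε c hε hε1 hc hc1
  have hπ := Real.pi_pos
  have hπ3 := Real.pi_gt_three
  have hπ4 : Real.pi < 3.15 := Real.pi_lt_d2
  obtain ⟨κ, CD, TD, hκ, hCD, hTD, hD⟩ := hD
  obtain ⟨a, CE, ha, hCE, hef⟩ := hef
  obtain ⟨CZ, hCZ, hZ⟩ := Zg_le hF
  obtain ⟨CN, hCN, hN⟩ := NN_crude hF
  obtain ⟨η1, hη10, hη11, hms⟩ := hms (ε / 10) (by positivity)
  obtain ⟨η, hη, hηη1, hη10', hηκ, hηε⟩ : ∃ η : ℝ, 0 < η ∧ η ≤ η1 ∧ η ≤ 1 / 10 ∧ η ≤ κ / 4 ∧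
      η ≤ ε / 100 := by
    refine ⟨min (min η1 (1 / 10)) (min (κ / 4) (ε / 100)), ?_, ?_, ?_, ?_, ?_⟩
    · exact lt_min (lt_min hη10 (by norm_num)) (lt_min (by positivity) (by positivity))
    · exact (min_le_left _ _).trans (min_le_left _ _)
    · exact (min_le_left _ _).trans (min_le_right _ _)
    · exact (min_le_right _ _).trans (min_le_left _ _)
    · exact (min_le_right _ _).trans (min_le_right _ _)
  obtain ⟨δ1, T1, hδ1, hT1, hms⟩ := hms η hη hηη1
  obtain ⟨δ2, T2, hδ2, hT2, hfm⟩ := hfm (ε / 1000) (by positivity) η hη (by linarith)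
  obtain ⟨L0, hL0, htwo⟩ := two hwin hsq hpl hgs η c hη hη10' hc hc1
  obtain ⟨T3, hT3, hef⟩ := hef η hη (by linarith)
  obtain ⟨T4, hT4, hmass⟩ := rho_mass
  obtain ⟨L1, hL1, hpar⟩ := params η c hη hc
  set c2 := κ * η * c / 4000 with hc2
  have hc20 : 0 < c2 := by positivity
  have hR0 : 0 ≤ Rf 0 := Rf_nonneg 0
  have ev : ∀ᶠ T : ℝ in atTop, max L0 L1 ≤ Real.log T ∧ Real.log T ≤ T / 4 ∧
      (2 * CE ≤ ε / 100 * (c / Real.log (Real.log T) * Real.log T / Real.pi) ∧
      (1 + 1 / η) * (4 * Rf 0 * CE ^ 2) ≤ ε / 100 * Real.log T ∧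
      80 * CD * Real.log T ^ 5 * Real.exp (-(2 * c2 * (Real.log T / Real.log (Real.log T) ^ 3))) ≤
        ε / 100 * (c / Real.log (Real.log T) * Real.log T / Real.pi) ∧
      (48 / Real.log T ^ 3 * (CZ * Real.log T) +
        4 * (CN * (Real.exp (Real.log T) * Real.log T)) * tau (Real.log T)) * 2 ≤
        ε / 100 * (c / Real.log (Real.log T) * Real.log T / Real.pi)) := by
    have e1 := Real.tendsto_log_atTop.eventually_ge_atTop (max L0 L1)
    have e2 := Real.tendsto_log_atTop.eventually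
      (small hε hc hη hc20 hCE hCD hCZ hCN hR0)
    have e3 : ∀ᶠ T : ℝ in atTop, Real.log T ≤ T / 4 := by
      have h := Real.isLittleO_log_id_atTop.bound (show (0 : ℝ) < 1 / 4 by norm_num)
      filter_upwards [h, eventually_ge_atTop 1] with T hT hT1
      simp only [id] at hT
      rw [Real.norm_of_nonneg (Real.log_nonneg hT1), Real.norm_of_nonneg (by linarith)] at hT
      linarith
    exact e1.and (e3.and e2)
  obtain ⟨T5, hT5⟩ := eventually_atTop.1 ev
  refine ⟨min (min δ1 δ2) (1 / 2), c2, max (max (max T1 T2) (max T3 T4)) (max TD T5),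
    lt_min (lt_min hδ1 hδ2) (by norm_num), hc20,
    hT1.trans ((le_max_left _ _).trans ((le_max_left _ _).trans (le_max_left _ _))), fun T hT => ?_⟩
  have gT1 : T1 ≤ T := ((le_max_left _ _).trans ((le_max_left _ _).trans (le_max_left _ _))).trans hT
  have gT2 : T2 ≤ T := ((le_max_right _ _).trans ((le_max_left _ _).trans (le_max_left _ _))).trans hT
  have gT3 : T3 ≤ T := ((le_max_left _ _).trans ((le_max_right _ _).trans (le_max_left _ _))).trans hT
  have gT4 : T4 ≤ T := ((le_max_right _ _).trans ((le_max_right _ _).trans (le_max_left _ _))).trans hT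
  have gTD : TD ≤ T := ((le_max_left _ _).trans (le_max_right _ _)).trans hT
  have gT5 : T5 ≤ T := ((le_max_right _ _).trans (le_max_right _ _)).trans hT
  obtain ⟨hLL, hLT, s1, s2, s3, s4⟩ := hT5 T gT5
  have hT10 : 10 ≤ T := hT1.trans gT1
  have hT0 : 0 < T := by linarith
  rw [Real.exp_log hT0] at s4
  obtain ⟨U1, U2, hU1, hU1', hU2, hU2', hef⟩ := hef T gT3
  refine ⟨U1, U2, hU1, hU1', hU2, hU2', fun S hS r hR => ?_⟩
  obtain ⟨G, w, Gp, gp, hTw⟩ := htwo (Real.log T) ((le_max_left _ _).trans hLL)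
  obtain ⟨-, hl100, hlA, -, hL100⟩ := hpar (Real.log T) ((le_max_right _ _).trans hLL)
  set L := Real.log T with hLd
  set l := Real.log L with hld
  set h := c / l with hhd
  set A := η * c / 1000 * L / l ^ 3 with hAd
  have hLpos : 0 < L := by linarith
  have hlpos : 0 < l := by linarith
  have hh0 : 0 < h := by positivity
  have hh1 : h ≤ 1 := by
    rw [hhd, div_le_one hlpos]
    linarith
  have hTL : 0 < T / L := by positivity
  have hδ1' : min (min δ1 δ2) (1 / 2) ≤ δ1 := (min_le_left _ _).trans (min_le_left _ _)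
  have hδ2' : min (min δ1 δ2) (1 / 2) ≤ δ2 := (min_le_left _ _).trans (min_le_right _ _)
  have hT1' : (1 : ℝ) ≤ T := by linarith
  have hS1 : Smo S (T ^ δ1) (δ1 * L ^ 2) :=
    Smo_mono hS (Real.rpow_le_rpow_of_exponent_le hT1' hδ1') (by gcongr)
  have hS2 : Smo S (T ^ δ2) (δ2 * L ^ 2) :=
    Smo_mono hS (Real.rpow_le_rpow_of_exponent_le hT1' hδ2') (by gcongr)
  have hS3 : Smo S (T ^ (1 / 2 : ℝ)) (min (min δ1 δ2) (1 / 2) * L ^ 2) :=
    Smo_mono hS (Real.rpow_le_rpow_of_exponent_le hT1' (min_le_right _ _)) le_rfl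
  have hM := hmass T gT4 S _ hS3 r
  have hw1 := w1_nonneg S r
  have hnr : 0 ≤ nr T S r := by unfold nr; positivity
  have hU : 0 ≤ nr T S r * (h * L / Real.pi) := by positivity
  have hW0 : ∀ x : ℝ, ((fun z => G z ^ 2) (x : ℂ)).im = 0 := by
    intro x
    simp only
    rw [sq_re hTw.cj x, Complex.ofReal_im]
  have hU11 : (1 : ℝ) ≤ U1 := by linarith
  have hab : 5 / 4 * T ≤ 7 / 4 * T := by linarith
  have hηL : 0 < η * L := by positivity
  have hq0 : 0 ≤ q2 w := integral_nonneg fun v => sq_nonneg _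
  have hqp0 : 0 ≤ q2 gp := integral_nonneg fun v => sq_nonneg _
  have hsq1 : Real.sqrt (q2 w) ≤ 1 := by
    apply Real.sqrt_le_one.2
    refine hTw.q.trans ?_
    rw [div_le_one hπ]
    linarith
  have hsqp1 : Real.sqrt (q2 gp) ≤ 1 := by
    exact Real.sqrt_le_one.2 (hTw.qp.trans hh1)
  -- first moments
  have P1 := fm_use (F := F) (U1 := U1) (U2 := U2) hT0 hTL (S := S) (r := r) hTw.bw (a := a)
    (X := ⌊T ^ (1 - η)⌋₊) (C := CE)
    (fun t ht1 ht2 => hef _ _ _ hTw.bw 0 t (by rw [abs_zero]; nlinarith) (by linarith)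
      (by linarith)) hCE.le (hfm T gT2 a ha S hS2 r _ _ _ hTw.bw hηL (by nlinarith)) hM
  have P2 := fm_use (F := F) (U1 := U1) (U2 := U2) hT0 hTL (S := S) (r := r) hTw.bwp (a := a)
    (X := ⌊T ^ (1 - η)⌋₊) (C := CE)
    (fun t ht1 ht2 => hef _ _ _ hTw.bwp 0 t (by rw [abs_zero]; nlinarith) (by linarith)
      (by linarith)) hCE.le (hfm T gT2 a ha S hS2 r _ _ _ hTw.bwp (by positivity) (by nlinarith)) hM
  rw [abs_le] at P1 P2
  -- energy
  have P3 := en_use (F := F) (U1 := U1) (U2 := U2) hT0 hTL (S := S) (r := r) hTw.bw (a := a)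
    (X := ⌊T ^ (1 - η)⌋₊) (C := CE) (η := η) (Λ := (1 - 4 * η) * L) hη
    (fun α hα t ht1 ht2 => hef _ _ _ hTw.bw ((1 - 4 * η) * L * α) t (by
      rw [abs_of_nonneg (by have := hα.1; have : 0 ≤ 1 - 4 * η := by linarith
                            positivity)]
      have h1 : (1 - 4 * η) * L * α ≤ (1 - 4 * η) * L * 1 := by
        apply mul_le_mul_of_nonneg_left hα.2
        have : 0 ≤ 1 - 4 * η := by linarith
        positivity
      nlinarith) (by linarith) (by linarith)) hM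
  have P3' := hms T gT1 a ha S hS1 r (η * L) _ _ hTw.bw hηL le_rfl hW0
  -- far zeros
  set B := Real.exp (c2 * (L / l ^ 3)) * w1 S r with hBd
  have hρB : ∀ t, rho T S r t ≤ B := by
    intro t
    unfold rho
    calc om (3 / 2 * T) (T / Real.log T) t * ‖RP S r t‖ ^ 2 ≤ 1 * ‖RP S r t‖ ^ 2 :=
          mul_le_mul_of_nonneg_right (om_le_one _ _ _) (sq_nonneg _)
      _ = ‖RP S r t‖ ^ 2 := one_mul _
      _ ≤ B := hR t
  have P4 := FF_bound (F := F) (U1 := U1) (U2 := U2) (rho_cont T S r) (rho_nonneg T S r) hρB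
    (η := η) (A := A) (L := L) (κ := κ) (by linarith) hLpos.le hab
  have hD1 : ∑ s ∈ Zf F U1 U2, (mult F s : ℝ) * Real.exp (κ * (|(zz s).im| * L)) ≤
      CD * (T * L) := by
    refine le_trans ?_ (hD T gTD)
    exact Finset.sum_le_sum_of_subset_of_nonneg (TH803TW.Zf_sub hF (by linarith) hU1 hU2')
      fun s _ _ => by positivity
  have hw : (T / L) * w1 S r ≤ nr T S r := by
    unfold nr
    have h1 : 1 ≤ Real.sqrt (2 * Real.pi) := by
      rw [Real.one_le_sqrt]
      linarith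
    calc (T / L) * w1 S r = 1 * ((T / L) * w1 S r) := (one_mul _).symm
      _ ≤ Real.sqrt (2 * Real.pi) * ((T / L) * w1 S r) := by gcongr
      _ = _ := by ring
  have Q4 : 40 * L ^ 2 * (∫ t in (5 / 4 * T)..(7 / 4 * T), rho T S r t * FF F U1 U2 η A L t) ≤
      ε / 100 * (nr T S r * (h * L / Real.pi)) := by
    have hB0 : 0 ≤ B := by positivity
    have e1 : Real.exp (c2 * (L / l ^ 3)) * Real.exp (-((κ - η) * A)) ≤
        Real.exp (-(2 * c2 * (L / l ^ 3))) := by
      rw [← Real.exp_add]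
      apply Real.exp_le_exp.2
      have h1 : 3 * c2 * (L / l ^ 3) ≤ (κ - η) * A := by
        have h2 : 3 * c2 * (L / l ^ 3) = (3 / 4 * κ) * A := by
          rw [hc2, hAd]; ring
        rw [h2]
        apply mul_le_mul_of_nonneg_right (by linarith)
        positivity
      linarith
    calc 40 * L ^ 2 * (∫ t in (5 / 4 * T)..(7 / 4 * T), rho T S r t * FF F U1 U2 η A L t) ≤
        40 * L ^ 2 * (B * (2 * L) * (Real.exp (-((κ - η) * A)) * (CD * (T * L)))) := by
          apply mul_le_mul_of_nonneg_left _ (by positivity)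
          refine P4.trans ?_
          gcongr
      _ = 80 * CD * L ^ 4 * T * w1 S r * (Real.exp (c2 * (L / l ^ 3)) *
          Real.exp (-((κ - η) * A))) := by rw [hBd]; ring
      _ ≤ 80 * CD * L ^ 4 * T * w1 S r * Real.exp (-(2 * c2 * (L / l ^ 3))) := by gcongr
      _ = (80 * CD * L ^ 5 * Real.exp (-(2 * c2 * (L / l ^ 3)))) * ((T / L) * w1 S r) := by
          field_simp
      _ ≤ (ε / 100 * (h * L / Real.pi)) * nr T S r := by
          apply mul_le_mul s3 hw (by positivity) (by positivity)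
      _ = _ := by ring
  -- assembling
  set K5 := 48 / L ^ 3 * (CZ * L) + 4 * (CN * (T * L)) * tau L with hK5
  have htau : 0 ≤ tau L := by unfold tau; positivity
  have hK50 : 0 ≤ K5 := by positivity
  have hpt : ∀ t ∈ Set.Icc (5 / 4 * T) (7 / 4 * T),
      4 * (SS F U1 U2 (fun z => G z ^ 2) 0 t).re - 2 / (1 - η) * (SS F U1 U2 Gp 0 t).re -
      (2 * ∫ α in (0 : ℝ)..1, Rf α * ‖SS F U1 U2 (fun z => G z ^ 2)
        ((1 - 4 * η) * L * α) t‖ ^ 2) - (40 * L ^ 2) * FF F U1 U2 η A L t - K5 ≤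
      x1 F U1 U2 h t := by
    intro t _
    have h1 := point (U1 := U1) (U2 := U2) hF hU11 hTw hη hη10' hL100 hlA (by linarith) hh0.le
      (Λ := (1 - 4 * η) * L) (mul_nonneg (by linarith) hLpos.le) (by nlinarith) t
    refine le_trans ?_ h1
    have h2 : 48 / L ^ 3 * Zg F U1 U2 t + 4 * (NN F U1 U2 : ℝ) * tau L ≤ K5 := by
      rw [hK5]
      have := hZ T (by linarith) U1 U2 hU1 hU2' t
      have := hN T (by linarith) U1 U2 hU1 hU2'
      gcongr
    linarith
  have hρc := rho_cont T S r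
  have cS := SS_cont2 hTw.bw F U1 U2 ((1 - 4 * η) * L)
  have cE : Continuous (fun t : ℝ => ∫ α in (0 : ℝ)..1, Rf α *
      ‖SS F U1 U2 (fun z => G z ^ 2) ((1 - 4 * η) * L * α) t‖ ^ 2) := by
    apply intervalIntegral.continuous_parametric_intervalIntegral_of_continuous'
    exact (Rf_cont.comp continuous_snd).mul (cS.norm.pow 2)
  have hfin := asm hab (rho_nonneg T S r)
    ((hρc.mul (Complex.continuous_re.comp (SS_cont0 hTw.bw F U1 U2))).intervalIntegrable _ _)
    ((hρc.mul (Complex.continuous_re.comp (SS_cont0 hTw.bwp F U1 U2))).intervalIntegrable _ _)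
    ((hρc.mul (continuous_const.mul cE)).intervalIntegrable _ _)
    (FF_int hρc η A L _ _) (x1_int hρc h _ _) (hρc.intervalIntegrable _ _) hpt
  refine le_trans ?_ hfin
  -- mass
  have hMI : ∫ t in (5 / 4 * T)..(7 / 4 * T), rho T S r t ≤ 2 * nr T S r := by
    refine le_trans ?_ hM
    rw [intervalIntegral.integral_of_le hab]
    exact setIntegral_le_integral (rho_intg hTL S r)
      (Eventually.of_forall fun t => rho_nonneg _ _ _ _)
  have hU' : nr T S r * (c / l * L / Real.pi) = nr T S r * (h * L / Real.pi) := rfl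
  set U := nr T S r * (h * L / Real.pi) with hUd
  have E0 : CE * (2 * nr T S r) ≤ ε / 100 * U := by
    calc CE * (2 * nr T S r) = (2 * CE) * nr T S r := by ring
      _ ≤ (ε / 100 * (h * L / Real.pi)) * nr T S r := mul_le_mul_of_nonneg_right s1 hnr
      _ = _ := by rw [hUd]; ring
  have hunit : nr T S r * L * (h / Real.pi) = U := by rw [hUd]; ring
  have E1 : ∀ I q : ℝ, I ≤ 3 * h → Real.sqrt q ≤ 1 → ε / 1000 * (nr T S r * (L * I)) +
      CE * Real.sqrt q * (2 * nr T S r) ≤ ε / 50 * U := by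
    intro I q hI hq
    have h1 : ε / 1000 * (nr T S r * (L * I)) ≤ ε / 100 * U := by
      calc ε / 1000 * (nr T S r * (L * I)) ≤ ε / 1000 * (nr T S r * (L * (3 * h))) := by gcongr
        _ = ε / 1000 * (3 * Real.pi) * U := by rw [← hunit]; field_simp
        _ ≤ ε / 1000 * 10 * U := by
            apply mul_le_mul_of_nonneg_right _ hU
            apply mul_le_mul_of_nonneg_left _ (by positivity)
            linarith
        _ = _ := by ring
    have h2 : CE * Real.sqrt q * (2 * nr T S r) ≤ CE * 1 * (2 * nr T S r) := by gcongr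
    rw [mul_one] at h2
    linarith
  have A1 : (1 - η - ε / 50) * U ≤
      ∫ t in (5 / 4 * T)..(7 / 4 * T), rho T S r t * (SS F U1 U2 (fun z => G z ^ 2) 0 t).re := by
    have h1 := E1 _ _ hTw.i1 hsq1
    have h2 : (1 - η) * U ≤ nr T S r * L * (gs w 0).re := by
      rw [← hunit]
      calc (1 - η) * (nr T S r * L * (h / Real.pi)) =
          nr T S r * L * ((1 - η) * (h / Real.pi)) := by ring
        _ ≤ _ := mul_le_mul_of_nonneg_left hTw.lo (by positivity)
    linarith [P1.1]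
  have A2 : ∫ t in (5 / 4 * T)..(7 / 4 * T), rho T S r t * (SS F U1 U2 Gp 0 t).re ≤
      (1 + η + ε / 50) * U := by
    have h1 := E1 _ _ hTw.i1p hsqp1
    have h2 : nr T S r * L * (gs gp 0).re ≤ (1 + η) * U := by
      rw [← hunit]
      calc nr T S r * L * (gs gp 0).re ≤ nr T S r * L * ((1 + η) * (h / Real.pi)) :=
            mul_le_mul_of_nonneg_left hTw.hi (by positivity)
        _ = _ := by ring
    linarith [P2.2]
  have hcM1 : 1 < cMTinv := cMTinv_gt_one
  have A3 : ∫ t in (5 / 4 * T)..(7 / 4 * T), rho T S r t *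
      (2 * ∫ α in (0 : ℝ)..1, Rf α * ‖SS F U1 U2 (fun z => G z ^ 2) ((1 - 4 * η) * L * α) t‖ ^ 2) ≤
      ((1 + η) * (cMTinv + ε / 10) + ε / 100) * U := by
    refine P3.trans ?_
    rw [add_mul ((1 + η) * (cMTinv + ε / 10)) (ε / 100) U]
    apply add_le_add
    · rw [mul_assoc]
      apply mul_le_mul_of_nonneg_left _ (by linarith)
      refine P3'.trans ?_
      calc nr T S r * (L * q2 w * (cMTinv + ε / 10)) ≤
          nr T S r * (L * (h / Real.pi) * (cMTinv + ε / 10)) := by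
            have := hTw.q
            gcongr
        _ = _ := by rw [← hunit]; ring
    · calc (1 + 1 / η) * (2 * (Rf 0 * (CE ^ 2 * q2 w))) * (2 * nr T S r) ≤
          (1 + 1 / η) * (2 * (Rf 0 * (CE ^ 2 * (h / Real.pi)))) * (2 * nr T S r) := by
            have := hTw.q
            gcongr
        _ = ((1 + 1 / η) * (4 * Rf 0 * CE ^ 2)) * (nr T S r * (h / Real.pi)) := by ring
        _ ≤ (ε / 100 * L) * (nr T S r * (h / Real.pi)) := by
            apply mul_le_mul_of_nonneg_right s2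
            positivity
        _ = _ := by rw [← hunit]; ring
  have A5 : K5 * (∫ t in (5 / 4 * T)..(7 / 4 * T), rho T S r t) ≤ ε / 100 * U := by
    calc K5 * (∫ t in (5 / 4 * T)..(7 / 4 * T), rho T S r t) ≤ K5 * (2 * nr T S r) :=
          mul_le_mul_of_nonneg_left hMI hK50
      _ = (K5 * 2) * nr T S r := by ring
      _ ≤ (ε / 100 * (h * L / Real.pi)) * nr T S r := mul_le_mul_of_nonneg_right s4 hnr
      _ = _ := by rw [hUd]; ring
  exact final_num hU hε hε1 hη hηε Pool.Agent.W354.ZP.cMTinv_sharp A1 A2 A3 Q4 A5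

end Pool.Agent.N802.U
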