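import Pool.Agent.N802.U.Use

/-! # The final numbers -/

open Complex Filter Topology Set MeasureTheory
open scoped BigOperators ComplexConjugate

namespace Pool.Agent.N802.U

open H370 TC

lemma ev_big {K : ℝ} (hK : 0 < K) :
    ∀ᶠ L : ℝ in atTop, 1 ≤ Real.log L ∧ K * Real.log L ^ 4 ≤ L := by
  have h1 : ∀ᶠ L : ℝ in atTop, (1 : ℝ) ≤ Real.log L :=
    Real.tendsto_log_atTop.eventually_ge_atTop _
  have h2 : ∀ᶠ L : ℝ in atTop, K * Real.log L ^ 4 ≤ L := by
    have h3 : (fun L : ℝ => Real.log L ^ 4) =o[atTop] fun L : ℝ => L := by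
      have := (isLittleO_log_rpow_atTop (r := 1 / 4) (by norm_num)).pow (by norm_num : 0 < 4)
      refine this.trans_eventuallyEq ?_
      filter_upwards [eventually_gt_atTop 0] with L hL
      rw [← Real.rpow_natCast, ← Real.rpow_mul hL.le]
      norm_num
    have h4 := h3.bound (show 0 < 1 / K by positivity)
    filter_upwards [h4, eventually_ge_atTop 1] with L hL hL1
    rw [Real.norm_of_nonneg (pow_nonneg (Real.log_nonneg hL1) 4), Real.norm_of_nonneg (by linarith)]
      at hL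
    calc K * Real.log L ^ 4 ≤ K * (1 / K * L) := mul_le_mul_of_nonneg_left hL hK.le
      _ = L := by field_simp
  exact h1.and h2

/-- the error terms are small -/
lemma small {ε c η c2 CE CD CZ CN R0 : ℝ} (hε : 0 < ε) (hc : 0 < c) (hη : 0 < η) (hc2 : 0 < c2)
    (hCE : 0 < CE) (hCD : 0 < CD) (hCZ : 0 < CZ) (hCN : 0 < CN) (hR0 : 0 ≤ R0) :
    ∀ᶠ L : ℝ in atTop,
      2 * CE ≤ ε / 100 * (c / Real.log L * L / Real.pi) ∧
      (1 + 1 / η) * (4 * R0 * CE ^ 2) ≤ ε / 100 * L ∧
      80 * CD * L ^ 5 * Real.exp (-(2 * c2 * (L / Real.log L ^ 3))) ≤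
        ε / 100 * (c / Real.log L * L / Real.pi) ∧
      (48 / L ^ 3 * (CZ * L) + 4 * (CN * (Real.exp L * L)) * tau L) * 2 ≤
        ε / 100 * (c / Real.log L * L / Real.pi) := by
  have hπ := Real.pi_pos
  set Q := ε / 100 * (c / Real.pi) with hQ
  have hQ0 : 0 < Q := by positivity
  set K := 1 + 5 / (2 * c2) + (2 * CE + 80 * CD + 96 * CZ + 6144 * CN) / Q +
    (1 + 1 / η) * (4 * R0 * CE ^ 2) * 100 / ε with hK
  have hK0 : 0 < K := by positivity
  have k1 : 0 ≤ 5 / (2 * c2) := by positivity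
  have k2 : 0 ≤ (2 * CE + 80 * CD + 96 * CZ + 6144 * CN) / Q := by positivity
  have k3 : 0 ≤ (1 + 1 / η) * (4 * R0 * CE ^ 2) * 100 / ε := by positivity
  filter_upwards [ev_big hK0, eventually_ge_atTop 6] with L hL hL6
  obtain ⟨hl1, hL4⟩ := hL
  set l := Real.log L with hl
  have hL0 : 0 < L := by linarith
  have hl0 : 0 < l := by linarith
  have hl3 : 1 ≤ l ^ 3 := one_le_pow₀ hl1
  have hKl : K ≤ L / l := by
    rw [le_div_iff₀ hl0]
    calc K * l = K * (l * 1) := by ring
      _ ≤ K * (l * l ^ 3) := by gcongr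
      _ = K * l ^ 4 := by ring
      _ ≤ L := hL4
  have key : ∀ x, x ≤ 2 * CE + 80 * CD + 96 * CZ + 6144 * CN →
      x ≤ ε / 100 * (c / l * L / Real.pi) := by
    intro x hx
    have e : ε / 100 * (c / l * L / Real.pi) = Q * (L / l) := by rw [hQ]; field_simp
    rw [e]
    have h1 : (2 * CE + 80 * CD + 96 * CZ + 6144 * CN) / Q ≤ K := by rw [hK]; linarith
    rw [div_le_iff₀ hQ0] at h1
    calc x ≤ _ := hx
      _ ≤ K * Q := h1
      _ ≤ (L / l) * Q := by gcongr
      _ = _ := mul_comm _ _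
  refine ⟨key _ (by linarith [mul_pos (show (0:ℝ) < 80 by norm_num) hCD]), ?_, ?_, ?_⟩
  · have h1 : (1 + 1 / η) * (4 * R0 * CE ^ 2) * 100 / ε ≤ K := by rw [hK]; linarith
    have h2 : K ≤ L := by
      refine hKl.trans ?_
      exact div_le_self hL0.le hl1
    have h3 := h1.trans h2
    rw [div_le_iff₀ hε] at h3
    linarith
  · apply key
    have h1 : 5 / (2 * c2) ≤ K := by rw [hK]; linarith
    have h2 : 5 * l ≤ 2 * c2 * (L / l ^ 3) := by
      rw [div_le_iff₀ (by positivity)] at h1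
      have h3 : K * l ≤ L / l ^ 3 := by
        rw [le_div_iff₀ (by positivity)]
        calc K * l * l ^ 3 = K * l ^ 4 := by ring
          _ ≤ L := hL4
      calc 5 * l ≤ (K * (2 * c2)) * l := by gcongr
        _ = 2 * c2 * (K * l) := by ring
        _ ≤ _ := by gcongr
    have h3 : Real.exp (-(2 * c2 * (L / l ^ 3))) ≤ (L ^ 5)⁻¹ := by
      calc Real.exp (-(2 * c2 * (L / l ^ 3))) ≤ Real.exp (-(5 * l)) :=
            Real.exp_le_exp.2 (by linarith)
        _ = (L ^ 5)⁻¹ := by
            rw [Real.exp_neg, show 5 * l = (5 : ℕ) * l by norm_num, Real.exp_nat_mul, hl,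
              Real.exp_log hL0]
    calc 80 * CD * L ^ 5 * Real.exp (-(2 * c2 * (L / l ^ 3))) ≤ 80 * CD * L ^ 5 * (L ^ 5)⁻¹ := by
          gcongr
      _ = 80 * CD := by field_simp
      _ ≤ _ := by linarith
  · apply key
    have h1 : 48 / L ^ 3 * (CZ * L) ≤ 48 * CZ := by
      have h2 : 48 / L ^ 3 * (CZ * L) = 48 * CZ * (1 / L ^ 2) := by field_simp
      rw [h2]
      have h3 : 1 / L ^ 2 ≤ 1 := by
        rw [div_le_one (by positivity)]
        nlinarith
      calc 48 * CZ * (1 / L ^ 2) ≤ 48 * CZ * 1 := by gcongr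
        _ = _ := mul_one _
    have h2 : L ^ 3 * Real.exp (2 * L - L ^ 2 / 2) ≤ 6 := by
      have h3 : L ^ 3 ≤ 6 * Real.exp L := by
        have := Real.pow_div_factorial_le_exp L hL0.le 3
        rw [show ((Nat.factorial 3 : ℕ) : ℝ) = 6 by norm_num [Nat.factorial], div_le_iff₀ (by norm_num)]
          at this
        linarith
      calc L ^ 3 * Real.exp (2 * L - L ^ 2 / 2) ≤ 6 * Real.exp L * Real.exp (2 * L - L ^ 2 / 2) := by
            gcongr
        _ = 6 * Real.exp (3 * L - L ^ 2 / 2) := by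
            rw [mul_assoc, ← Real.exp_add]; congr 2; ring
        _ ≤ 6 * 1 := by
            gcongr
            rw [Real.exp_le_one_iff]
            nlinarith
        _ = 6 := by norm_num
    have h3 : 4 * (CN * (Real.exp L * L)) * tau L ≤ 768 * CN := by
      have h4 : 4 * (CN * (Real.exp L * L)) * tau L =
          128 * CN * (L ^ 3 * Real.exp (2 * L - L ^ 2 / 2)) := by
        unfold tau
        rw [show 2 * L - L ^ 2 / 2 = L + (L - L ^ 2 / 2) by ring, Real.exp_add]
        ring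
      rw [h4]
      calc 128 * CN * (L ^ 3 * Real.exp (2 * L - L ^ 2 / 2)) ≤ 128 * CN * 6 := by gcongr
        _ = _ := by ring
    linarith

lemma asm {ρ a b e f x : ℝ → ℝ} {A B k m K5 : ℝ} (hAB : A ≤ B) (hρ : ∀ t, 0 ≤ ρ t)
    (ia : IntervalIntegrable (fun t => ρ t * a t) volume A B)
    (ib : IntervalIntegrable (fun t => ρ t * b t) volume A B)
    (ie : IntervalIntegrable (fun t => ρ t * e t) volume A B)
    (iff : IntervalIntegrable (fun t => ρ t * f t) volume A B)
    (ix : IntervalIntegrable (fun t => ρ t * x t) volume A B)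
    (iρ : IntervalIntegrable (fun t => ρ t) volume A B)
    (hpt : ∀ t ∈ Set.Icc A B, 4 * a t - k * b t - e t - m * f t - K5 ≤ x t) :
    4 * (∫ t in A..B, ρ t * a t) - k * (∫ t in A..B, ρ t * b t) - (∫ t in A..B, ρ t * e t) -
      m * (∫ t in A..B, ρ t * f t) - K5 * (∫ t in A..B, ρ t) ≤ ∫ t in A..B, ρ t * x t := by
  have i1 : IntervalIntegrable (fun t => 4 * (ρ t * a t)) volume A B := ia.const_mul 4
  have i2 : IntervalIntegrable (fun t => k * (ρ t * b t)) volume A B := ib.const_mul k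
  have i3 : IntervalIntegrable (fun t => 4 * (ρ t * a t) - k * (ρ t * b t)) volume A B := i1.sub i2
  have i4 : IntervalIntegrable (fun t => 4 * (ρ t * a t) - k * (ρ t * b t) - ρ t * e t) volume A B :=
    i3.sub ie
  have i5 : IntervalIntegrable (fun t => m * (ρ t * f t)) volume A B := iff.const_mul m
  have i6 : IntervalIntegrable (fun t => 4 * (ρ t * a t) - k * (ρ t * b t) - ρ t * e t -
    m * (ρ t * f t)) volume A B := i4.sub i5
  have i7 : IntervalIntegrable (fun t => K5 * ρ t) volume A B := iρ.const_mul K5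
  have i8 : IntervalIntegrable (fun t => 4 * (ρ t * a t) - k * (ρ t * b t) - ρ t * e t -
    m * (ρ t * f t) - K5 * ρ t) volume A B := i6.sub i7
  have h := intervalIntegral.integral_mono_on hAB i8 ix (fun t ht => by
    have h1 := mul_le_mul_of_nonneg_left (hpt t ht) (hρ t)
    calc 4 * (ρ t * a t) - k * (ρ t * b t) - ρ t * e t - m * (ρ t * f t) - K5 * ρ t =
        ρ t * (4 * a t - k * b t - e t - m * f t - K5) := by ring
      _ ≤ _ := h1)
  rw [intervalIntegral.integral_sub i6 i7, intervalIntegral.integral_sub i4 i5,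
    intervalIntegral.integral_sub i3 ie, intervalIntegral.integral_sub i1 i2,
    intervalIntegral.integral_const_mul, intervalIntegral.integral_const_mul,
    intervalIntegral.integral_const_mul, intervalIntegral.integral_const_mul] at h
  exact h

lemma final_num {U ε η cM P1 P2 P3 P4 P5 : ℝ} (hU : 0 ≤ U) (hε : 0 < ε) (hε1 : ε < 1) (hη : 0 < η)
    (hηε : η ≤ ε / 100) (hcM : cM ≤ 1.3275)
    (h1 : (1 - η - ε / 50) * U ≤ P1) (h2 : P2 ≤ (1 + η + ε / 50) * U)
    (h3 : P3 ≤ ((1 + η) * (cM + ε / 10) + ε / 100) * U) (h4 : P4 ≤ ε / 100 * U)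
    (h5 : P5 ≤ ε / 100 * U) :
    (0.6725 - ε) * U ≤ 4 * P1 - 2 / (1 - η) * P2 - P3 - P4 - P5 := by
  have hη1 : η < 1 / 100 := by linarith
  have a2 : 2 / (1 - η) * P2 ≤ (2 + 0.09 * ε) * U := by
    have a3 : 2 / (1 - η) * (1 + η + ε / 50) ≤ 2 + 0.09 * ε := by
      rw [div_mul_eq_mul_div, div_le_iff₀ (by linarith)]
      nlinarith
    calc 2 / (1 - η) * P2 ≤ 2 / (1 - η) * ((1 + η + ε / 50) * U) := by
          apply mul_le_mul_of_nonneg_left h2
          apply div_nonneg (by norm_num)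
          linarith
      _ = (2 / (1 - η) * (1 + η + ε / 50)) * U := by ring
      _ ≤ _ := mul_le_mul_of_nonneg_right a3 hU
  have b3 : (1 + η) * (cM + ε / 10) ≤ 1.3275 + 0.12 * ε := by
    calc (1 + η) * (cM + ε / 10) ≤ (1 + η) * (1.3275 + ε / 10) := by
          apply mul_le_mul_of_nonneg_left _ (by linarith)
          linarith
      _ ≤ _ := by nlinarith
  have a3 : P3 ≤ (1.3275 + 0.13 * ε) * U := by
    refine h3.trans (mul_le_mul_of_nonneg_right ?_ hU)
    linarith
  have a1 : (4 - 0.12 * ε) * U ≤ 4 * P1 := by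
    have : (1 - 0.03 * ε) * U ≤ P1 := by
      refine le_trans (mul_le_mul_of_nonneg_right ?_ hU) h1
      linarith
    linarith
  nlinarith

end Pool.Agent.N802.U
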