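import Pool.Agent.N802.U.Rh
import Pool.Agent.N802.U.Core1
import Pool.Agent.W354.ZP.Num

/-! # The theorem about all Dirichlet polynomials -/

open Complex Filter Topology Set MeasureTheory
open scoped BigOperators ComplexConjugate

namespace Pool.Agent.N802.U

open H370 TC TH803UC

lemma fm_tr {τ H Λ A A' ℓ N0 ε Bd : ℝ} (hH : 0 < H) (hΛ : 0 ≤ Λ) (hA : A ≤ τ - Λ * H)
    (hA' : τ + Λ * H ≤ A') {S : Finset ℕ} {r : ℕ → ℂ} (hR : ∀ t, ‖RP S r t‖ ^ 2 ≤ Bd)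
    {b : ℝ} {W : ℂ → ℂ} {w : ℝ → ℂ} (hW : BW b W w) {a : ℕ → ℂ}
    (ha : ∀ n, ‖a n‖ ≤ ArithmeticFunction.vonMangoldt n) {X : ℕ} (hℓ : 0 ≤ ℓ)
    (h : ‖(∫ t : ℝ, (rh τ H S r t : ℂ) * PD a X w ℓ 0 t) - (N0 : ℂ) * gs w 0‖ ≤ ε) :
    ‖(∫ t in A..A', (rh τ H S r t : ℂ) * PD a X w ℓ 0 t) - (N0 : ℂ) * gs w 0‖ ≤
      ε + Bd * ((ℓ + 24 * Real.sqrt X) * Real.sqrt (q2 w)) *
        (Real.exp (-(Λ ^ 2 / 4)) * (2 * (Real.sqrt (2 * Real.pi) * H))) := by
  have hBd : 0 ≤ Bd := (sq_nonneg _).trans (hR 0)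
  have hRc : Continuous (fun t => RP S r t) := TP_cont _ _ _ _
  have hPc := PD_cont1 hW a X ℓ 0
  have hf : Continuous (fun t : ℝ => ((‖RP S r t‖ ^ 2 : ℝ) : ℂ) * PD a X w ℓ 0 t) :=
    (Complex.continuous_ofReal.comp (hRc.norm.pow 2)).mul hPc
  have hB : ∀ t : ℝ, ‖((‖RP S r t‖ ^ 2 : ℝ) : ℂ) * PD a X w ℓ 0 t‖ ≤
      Bd * ((ℓ + 24 * Real.sqrt X) * Real.sqrt (q2 w)) := by
    intro t
    rw [norm_mul, Complex.norm_real, Real.norm_of_nonneg (sq_nonneg _)]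
    exact mul_le_mul (hR t) (pd_triv hW ha X hℓ 0 t) (norm_nonneg _) hBd
  have h1 := tail_int hH hΛ hf hB hA hA'
  have e : ∀ t : ℝ, (om τ H t : ℂ) * (((‖RP S r t‖ ^ 2 : ℝ) : ℂ) * PD a X w ℓ 0 t) =
      (rh τ H S r t : ℂ) * PD a X w ℓ 0 t := by
    intro t
    unfold rh
    push_cast
    ring
  simp_rw [e] at h1
  have e2 : (∫ t in A..A', (rh τ H S r t : ℂ) * PD a X w ℓ 0 t) - (N0 : ℂ) * gs w 0 =
      ((∫ t : ℝ, (rh τ H S r t : ℂ) * PD a X w ℓ 0 t) - (N0 : ℂ) * gs w 0) -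
      ((∫ t : ℝ, (rh τ H S r t : ℂ) * PD a X w ℓ 0 t) -
        ∫ t in A..A', (rh τ H S r t : ℂ) * PD a X w ℓ 0 t) := by ring
  rw [e2]
  exact (norm_sub_le _ _).trans (add_le_add h h1)

lemma ev_f (c2 : ℝ) : ∀ᶠ L : ℝ in atTop, 50 * Real.exp (c2 * L + L - L ^ 2 / 4) ≤ 1 := by
  filter_upwards [eventually_ge_atTop (4 * |c2| + 12)] with L hL
  have hc := le_abs_self c2
  have hc0 := abs_nonneg c2
  have hL12 : 12 ≤ L := by linarith
  have h1 : c2 * L + L - L ^ 2 / 4 ≤ -(2 * L) := by nlinarith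
  have h2 : Real.exp (c2 * L + L - L ^ 2 / 4) ≤ Real.exp (-4) :=
    Real.exp_le_exp.2 (by linarith)
  have h3 : Real.exp (-4) ≤ 1 / 50 := by
    rw [Real.exp_neg, one_div]
    apply inv_anti₀ (by norm_num)
    have h4 : Real.exp 4 = Real.exp 1 ^ 4 := by
      rw [← Real.exp_nat_mul]; norm_num
    rw [h4]
    have h5 := Real.exp_one_gt_d9
    calc (50 : ℝ) ≤ 2.7 ^ 4 := by norm_num
      _ ≤ Real.exp 1 ^ 4 := pow_le_pow_left₀ (by norm_num) (by linarith) 4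
  linarith


section parts

/-- the width of the Gaussian -/
lemma width {c2 δ L l T H : ℝ} (hT0 : 0 < T) (hLd : L = Real.log T) (hL : 0 < L) (hl : 1 ≤ l)
    (hc2 : 0 < c2) (hδ0 : 0 < δ) (s6 : c2 / δ ≤ l) (hH : T * Real.exp (-(c2 * (L / l ^ 3))) ≤ H) :
    ∀ d : ℝ, δ ≤ d → T ^ (1 - d) ≤ H := by
  have hl0 : 0 < l := by linarith
  have hq3 : c2 * (L / l ^ 3) ≤ δ * L := by
    have h1 : c2 ≤ δ * l ^ 3 := by
      rw [div_le_iff₀ hδ0] at s6
      have h2 : l ≤ l ^ 3 := by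
        calc l = l * 1 := (mul_one _).symm
          _ ≤ l * (l * l) := by
              apply mul_le_mul_of_nonneg_left _ hl0.le
              nlinarith
          _ = l ^ 3 := by ring
      calc c2 ≤ l * δ := s6
        _ ≤ l ^ 3 * δ := by gcongr
        _ = _ := mul_comm _ _
    rw [mul_div_assoc', div_le_iff₀ (by positivity)]
    calc c2 * L ≤ (δ * l ^ 3) * L := by gcongr
      _ = _ := by ring
  intro d hd
  refine le_trans ?_ hH
  have e1 : T ^ (1 - d) = T * Real.exp (-(d * L)) := by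
    rw [Real.rpow_sub hT0, Real.rpow_one, Real.rpow_def_of_pos hT0, Real.exp_neg, div_eq_mul_inv,
      mul_comm (Real.log T) d, hLd]
  rw [e1]
  apply mul_le_mul_of_nonneg_left _ hT0.le
  apply Real.exp_le_exp.2
  have : δ * L ≤ d * L := by gcongr
  linarith

/-- the truncation -/
lemma trunc {c2 L l T H m η Bd : ℝ} {S : Finset ℕ} {r : ℕ → ℂ} (hT1 : 1 ≤ T) (hLd : L = Real.log T)
    (hL : 0 < L) (hLT : L ≤ T / 4) (hl : 1 ≤ l) (hc2 : 0 < c2) (hη : 0 < η) (hη1 : η ≤ 1)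
    (hH : 0 < H) (hm : m = mr H S r) (hBd : Bd = Real.exp (c2 * (L / l ^ 3)) * w1 S r)
    (s5 : 50 * Real.exp (c2 * L + L - L ^ 2 / 4) ≤ 1) (q : ℝ) (hq : Real.sqrt q ≤ 1) :
    Bd * ((L + 24 * Real.sqrt (⌊T ^ (1 - η)⌋₊ : ℝ)) * Real.sqrt q) *
      (Real.exp (-(L ^ 2 / 4)) * (2 * (Real.sqrt (2 * Real.pi) * H))) ≤ m := by
  have hT0 : 0 < T := by linarith
  have hw1 := w1_nonneg S r
  have hX : Real.sqrt (⌊T ^ (1 - η)⌋₊ : ℝ) ≤ T := by
    rw [Real.sqrt_le_left hT0.le]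
    calc (⌊T ^ (1 - η)⌋₊ : ℝ) ≤ T ^ (1 - η) := Nat.floor_le (by positivity)
      _ ≤ T ^ (1 : ℝ) := Real.rpow_le_rpow_of_exponent_le hT1 (by linarith)
      _ = T := Real.rpow_one T
      _ ≤ T ^ 2 := by nlinarith
  have h1 : (L + 24 * Real.sqrt (⌊T ^ (1 - η)⌋₊ : ℝ)) * Real.sqrt q ≤ 25 * T := by
    calc (L + 24 * Real.sqrt (⌊T ^ (1 - η)⌋₊ : ℝ)) * Real.sqrt q ≤
        (L + 24 * Real.sqrt (⌊T ^ (1 - η)⌋₊ : ℝ)) * 1 := by
          apply mul_le_mul_of_nonneg_left hq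
          positivity
      _ ≤ 25 * T := by linarith
  have h2 : Real.exp (c2 * (L / l ^ 3)) ≤ Real.exp (c2 * L) := by
    apply Real.exp_le_exp.2
    apply mul_le_mul_of_nonneg_left _ hc2.le
    apply div_le_self hL.le
    exact one_le_pow₀ hl
  have hm0 : 0 ≤ m := by rw [hm]; unfold mr; positivity
  calc Bd * ((L + 24 * Real.sqrt (⌊T ^ (1 - η)⌋₊ : ℝ)) *
    Real.sqrt q) * (Real.exp (-(L ^ 2 / 4)) * (2 * (Real.sqrt (2 * Real.pi) * H))) ≤
      (Real.exp (c2 * L) * w1 S r) * (25 * T) *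
        (Real.exp (-(L ^ 2 / 4)) * (2 * (Real.sqrt (2 * Real.pi) * H))) := by
        rw [hBd]
        gcongr
    _ = (50 * Real.exp (c2 * L + L - L ^ 2 / 4)) * m := by
        rw [hm, sub_eq_add_neg, Real.exp_add, Real.exp_add, hLd, Real.exp_log hT0]
        unfold mr
        ring
    _ ≤ 1 * m := mul_le_mul_of_nonneg_right s5 hm0
    _ = m := one_mul m

lemma sqb {Cf CE CM ε h L : ℝ} (hε : 0 < ε) (hCf : 0 < Cf) (hCE : 0 < CE) (hh : 0 < h) (hL : 0 < L)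
    (hCM : CM = CE + 1 + 200 * Real.pi * Cf ^ 2 / ε)
    (s1 : 2 * CM ≤ ε / 4 / 100 * (h * L / Real.pi)) :
    Cf * Real.sqrt (L * h) ≤ ε / 4 / 100 * (h * L / Real.pi) := by
  have hπ := Real.pi_pos
  have h1 : 2 * (200 * Real.pi * Cf ^ 2 / ε) ≤ ε / 4 / 100 * (h * L / Real.pi) := by
    refine le_trans ?_ s1
    rw [hCM]
    linarith
  have h2 : (400 * Real.pi * Cf / ε) ^ 2 ≤ L * h := by
    have e1 : ε / 4 / 100 * (h * L / Real.pi) = ε * (L * h) / (400 * Real.pi) := by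
      field_simp; ring
    rw [e1, le_div_iff₀ (by positivity)] at h1
    have h3 : (400 * Real.pi * Cf / ε) ^ 2 * ε = 2 * (200 * Real.pi * Cf ^ 2 / ε) *
        (400 * Real.pi) := by
      field_simp
      ring
    have h4 : (400 * Real.pi * Cf / ε) ^ 2 * ε ≤ (L * h) * ε := by
      rw [h3]; linarith
    exact le_of_mul_le_mul_right h4 hε
  have h5 : 400 * Real.pi * Cf / ε ≤ Real.sqrt (L * h) := by
    apply Real.le_sqrt_of_sq_le h2
  have h6 : Real.sqrt (L * h) * Real.sqrt (L * h) = L * h := Real.mul_self_sqrt (by positivity)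
  calc Cf * Real.sqrt (L * h) =
      (400 * Real.pi * Cf / ε) * Real.sqrt (L * h) * (ε / (400 * Real.pi)) := by field_simp
    _ ≤ Real.sqrt (L * h) * Real.sqrt (L * h) * (ε / (400 * Real.pi)) := by gcongr
    _ = _ := by rw [h6]; field_simp; ring

lemma err1 {Cf CE CM ε h L m U q tl : ℝ} (hε : 0 < ε) (hCf : 0 < Cf) (hCE : 0 < CE)
    (hL : 0 < L) (hm : 0 ≤ m) (hCM : CM = CE + 1 + 200 * Real.pi * Cf ^ 2 / ε)
    (s1 : 2 * CM ≤ ε / 4 / 100 * (h * L / Real.pi)) (hU : U = m * (h * L / Real.pi)) (hU0 : 0 ≤ U)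
    (hsqb : Cf * Real.sqrt (L * h) ≤ ε / 4 / 100 * (h * L / Real.pi)) (hqh : q ≤ h)
    (hq1 : Real.sqrt q ≤ 1) (htl : tl ≤ m) :
    Cf * (m * Real.sqrt (L * q)) + tl + CE * Real.sqrt q * (2 * m) ≤ ε / 50 * U := by
  have hπ := Real.pi_pos
  have E0 : 2 * CM * m ≤ ε / 4 / 100 * U := by
    calc 2 * CM * m ≤ (ε / 4 / 100 * (h * L / Real.pi)) * m := mul_le_mul_of_nonneg_right s1 hm
      _ = _ := by rw [hU]; ring
  have h1 : Cf * (m * Real.sqrt (L * q)) ≤ ε / 4 / 100 * U := by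
    calc Cf * (m * Real.sqrt (L * q)) ≤ Cf * (m * Real.sqrt (L * h)) := by gcongr
      _ = (Cf * Real.sqrt (L * h)) * m := by ring
      _ ≤ (ε / 4 / 100 * (h * L / Real.pi)) * m := mul_le_mul_of_nonneg_right hsqb hm
      _ = _ := by rw [hU]; ring
  have h3 : CE * Real.sqrt q * (2 * m) ≤ CE * 1 * (2 * m) := by gcongr
  have h4 : m + CE * 1 * (2 * m) ≤ 2 * CM * m := by
    rw [hCM]
    have h5 : 0 ≤ 200 * Real.pi * Cf ^ 2 / ε * m := by positivity
    nlinarith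
  have hεU : 0 ≤ ε * U := by positivity
  linarith

/-- the far zeros -/
lemma far {η κ c c2 CD L l T H m U ε h A Bd I : ℝ} {S : Finset ℕ} {r : ℕ → ℂ} (hκ : 0 < κ)
    (hη : 0 < η) (hc : 0 < c) (hCD : 0 < CD)
    (hηκ : η ≤ κ / 4) (hc2 : c2 = κ * η * c / 4000) (hL : 1 ≤ L) (hl : 0 < l) (hT : 0 < T)
    (hH : T * Real.exp (-(c2 * (L / l ^ 3))) ≤ H) (hm : m = mr H S r)
    (hU : U = m * (h * L / Real.pi)) (hA : A = η * c / 1000 * L / l ^ 3) (hh : 0 < h) (hε : 0 < ε)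
    (hBd : Bd = Real.exp (c2 * (L / l ^ 3)) * w1 S r)
    (P4 : I ≤ Bd * (2 * L) * (Real.exp (-((κ - η) * A)) * (CD * (T * L))))
    (s3 : 80 * CD * L ^ 5 * Real.exp (-(2 * (c2 / 2) * (L / l ^ 3))) ≤
      ε / 4 / 100 * (h * L / Real.pi)) :
    40 * L ^ 2 * I ≤ ε / 4 / 100 * U := by
  have hπ := Real.pi_pos
  have hπ3 := Real.pi_gt_three
  have hL0 : 0 < L := by linarith
  have hw1 := w1_nonneg S r
  have hc20 : 0 < c2 := by rw [hc2]; positivity
  have hA0 : 0 ≤ A := by rw [hA]; positivity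
  have hH0 : 0 < H := lt_of_lt_of_le (by positivity) hH
  have hw : H * w1 S r ≤ m := by
    rw [hm]
    unfold mr
    have h1 : 1 ≤ Real.sqrt (2 * Real.pi) := by
      rw [Real.one_le_sqrt]
      linarith
    calc H * w1 S r = 1 * (H * w1 S r) := (one_mul _).symm
      _ ≤ Real.sqrt (2 * Real.pi) * (H * w1 S r) := by gcongr
      _ = _ := by ring
  have e1 : Real.exp (c2 * (L / l ^ 3)) * Real.exp (-((κ - η) * A)) * T ≤
      Real.exp (-(2 * (c2 / 2) * (L / l ^ 3))) * H := by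
    have h1 : 3 * c2 * (L / l ^ 3) ≤ (κ - η) * A := by
      have h2 : 3 * c2 * (L / l ^ 3) = (3 / 4 * κ) * A := by
        rw [hc2, hA]; ring
      rw [h2]
      apply mul_le_mul_of_nonneg_right (by linarith) hA0
    have h3 : Real.exp (c2 * (L / l ^ 3)) * Real.exp (-((κ - η) * A)) ≤
        Real.exp (-(2 * (c2 / 2) * (L / l ^ 3))) * Real.exp (-(c2 * (L / l ^ 3))) := by
      rw [← Real.exp_add, ← Real.exp_add]
      apply Real.exp_le_exp.2
      linarith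
    calc Real.exp (c2 * (L / l ^ 3)) * Real.exp (-((κ - η) * A)) * T ≤
        Real.exp (-(2 * (c2 / 2) * (L / l ^ 3))) * Real.exp (-(c2 * (L / l ^ 3))) * T := by
          gcongr
      _ = Real.exp (-(2 * (c2 / 2) * (L / l ^ 3))) * (T * Real.exp (-(c2 * (L / l ^ 3)))) := by
          ring
      _ ≤ _ := by gcongr
  calc 40 * L ^ 2 * I ≤
      40 * L ^ 2 * (Bd * (2 * L) * (Real.exp (-((κ - η) * A)) * (CD * (T * L)))) :=
        mul_le_mul_of_nonneg_left P4 (by positivity)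
    _ = 80 * CD * L ^ 4 * w1 S r * (Real.exp (c2 * (L / l ^ 3)) *
        Real.exp (-((κ - η) * A)) * T) := by rw [hBd]; ring
    _ ≤ 80 * CD * L ^ 4 * w1 S r * (Real.exp (-(2 * (c2 / 2) * (L / l ^ 3))) * H) := by gcongr
    _ ≤ 80 * CD * L ^ 5 * w1 S r * (Real.exp (-(2 * (c2 / 2) * (L / l ^ 3))) * H) := by
        have : L ^ 4 ≤ L ^ 5 := pow_le_pow_right₀ hL (by norm_num)
        gcongr
    _ = (80 * CD * L ^ 5 * Real.exp (-(2 * (c2 / 2) * (L / l ^ 3)))) * (H * w1 S r) := by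
        ring
    _ ≤ (ε / 4 / 100 * (h * L / Real.pi)) * m := by
        apply mul_le_mul s3 hw (by positivity) (by positivity)
    _ = _ := by rw [hU]; ring

/-- the energy -/
lemma enb {η CE CM Cf ε L h m U q I3 : ℝ} (hη : 0 < η) (hCE : 0 < CE) (hε : 0 < ε) (hL : 0 < L)
    (hm : 0 ≤ m) (hh : 0 < h) (hq0 : 0 ≤ q) (hq : q ≤ h / Real.pi) (hU : U = m * (h * L / Real.pi))
    (hCM : CM = CE + 1 + 200 * Real.pi * Cf ^ 2 / ε)
    (s2 : (1 + 1 / η) * (4 * Rf 0 * CM ^ 2) ≤ ε / 4 / 100 * L)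
    (h3 : I3 ≤ m * (L * q * (cMTinv + ε / 10))) :
    (1 + η) * I3 + (1 + 1 / η) * (2 * (Rf 0 * (CE ^ 2 * q))) * (2 * m) ≤
      ((1 + η) * (cMTinv + ε / 10) + ε / 100) * U := by
  have hπ := Real.pi_pos
  have hR0 : 0 ≤ Rf 0 := Rf_nonneg 0
  have hcM1 : 1 < cMTinv := cMTinv_gt_one
  have hunit : m * L * (h / Real.pi) = U := by rw [hU]; ring
  have hU0 : 0 ≤ U := by rw [hU]; positivity
  rw [add_mul ((1 + η) * (cMTinv + ε / 10)) (ε / 100) U]
  apply add_le_add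
  · rw [mul_assoc (1 + η)]
    apply mul_le_mul_of_nonneg_left _ (by linarith)
    refine h3.trans ?_
    calc m * (L * q * (cMTinv + ε / 10)) ≤ m * (L * (h / Real.pi) * (cMTinv + ε / 10)) := by
          gcongr
      _ = _ := by rw [← hunit]; ring
  · have hCEM : CE ^ 2 ≤ CM ^ 2 := by
      apply pow_le_pow_left₀ hCE.le
      rw [hCM]
      have : 0 ≤ 200 * Real.pi * Cf ^ 2 / ε := by positivity
      linarith
    calc (1 + 1 / η) * (2 * (Rf 0 * (CE ^ 2 * q))) * (2 * m) ≤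
        (1 + 1 / η) * (2 * (Rf 0 * (CM ^ 2 * (h / Real.pi)))) * (2 * m) := by gcongr
      _ = ((1 + 1 / η) * (4 * Rf 0 * CM ^ 2)) * (m * (h / Real.pi)) := by ring
      _ ≤ (ε / 4 / 100 * L) * (m * (h / Real.pi)) := by
          apply mul_le_mul_of_nonneg_right s2
          positivity
      _ = ε / 4 / 100 * U := by rw [← hunit]; ring
      _ ≤ _ := by
          have : 0 ≤ ε * U := by positivity
          linarith

variable {F : ℂ → ℂ} {U1 U2 η L A h K5 U ε A0 B0 : ℝ} {G Gp : ℂ → ℂ} {ρ : ℝ → ℝ}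

/-- the upper bound -/
lemma upb (hρc : Continuous ρ) (hρ0 : ∀ t, 0 ≤ ρ t) (hab : A0 ≤ B0) (hGp : Continuous fun t : ℝ =>
    SS F U1 U2 Gp 0 t) (hη : 0 < η) (hη1 : η ≤ 1 / 10) (hηε : η ≤ ε / 100) (hε : 0 < ε)
    (hε1 : ε < 1) (hU : 0 ≤ U) (hL : 1 ≤ L)
    (hpt : ∀ t : ℝ, (1 - η) * na F U1 U2 h t ≤ (SS F U1 U2 Gp 0 t).re + K5 +
      3 * L * FF F U1 U2 η A L t)
    (A2 : ∫ t in A0..B0, ρ t * (SS F U1 U2 Gp 0 t).re ≤ (1 + η + ε / 50) * U)
    (Q4 : 40 * L ^ 2 * (∫ t in A0..B0, ρ t * FF F U1 U2 η A L t) ≤ ε / 4 / 100 * U)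
    (A5 : K5 * (∫ t in A0..B0, ρ t) ≤ ε / 4 / 100 * U) :
    (∫ t in A0..B0, ρ t * na F U1 U2 h t) ≤ (1 + ε) * U := by
  have hpt' : ∀ t ∈ Set.Icc A0 B0, ρ t * ((1 - η) * na F U1 U2 h t) ≤
      ρ t * (SS F U1 U2 Gp 0 t).re + K5 * ρ t + 3 * L * (ρ t * FF F U1 U2 η A L t) := by
    intro t _
    have h6 := mul_le_mul_of_nonneg_left (hpt t) (hρ0 t)
    linarith
  have i0 : IntervalIntegrable (fun t => ρ t * ((1 - η) * na F U1 U2 h t)) volume A0 B0 := by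
    have := (na_int (F := F) (U1 := U1) (U2 := U2) hρc h A0 B0).const_mul (1 - η)
    refine this.congr ?_
    exact fun t _ => by ring
  have i1 : IntervalIntegrable (fun t => ρ t * (SS F U1 U2 Gp 0 t).re) volume A0 B0 :=
    (hρc.mul (Complex.continuous_re.comp hGp)).intervalIntegrable _ _
  have i2 : IntervalIntegrable (fun t => K5 * ρ t) volume A0 B0 :=
    (continuous_const.mul hρc).intervalIntegrable _ _
  have i3 : IntervalIntegrable (fun t => 3 * L * (ρ t * FF F U1 U2 η A L t)) volume A0 B0 :=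
    (FF_int hρc η A L _ _).const_mul _
  have i12 : IntervalIntegrable (fun t => ρ t * (SS F U1 U2 Gp 0 t).re + K5 * ρ t)
    volume A0 B0 := i1.add i2
  have h1 := intervalIntegral.integral_mono_on hab i0 (i12.add i3) hpt'
  have e1 : ∫ t in A0..B0, ρ t * ((1 - η) * na F U1 U2 h t) =
      (1 - η) * ∫ t in A0..B0, ρ t * na F U1 U2 h t := by
    rw [← intervalIntegral.integral_const_mul]
    refine intervalIntegral.integral_congr fun t _ => ?_
    show ρ t * ((1 - η) * na F U1 U2 h t) = (1 - η) * (ρ t * na F U1 U2 h t)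
    ring
  have e2 : ∫ t in A0..B0, (ρ t * (SS F U1 U2 Gp 0 t).re +
      K5 * ρ t + 3 * L * (ρ t * FF F U1 U2 η A L t)) =
      (∫ t in A0..B0, ρ t * (SS F U1 U2 Gp 0 t).re) + K5 * (∫ t in A0..B0, ρ t) +
      3 * L * (∫ t in A0..B0, ρ t * FF F U1 U2 η A L t) := by
    rw [intervalIntegral.integral_add i12 i3, intervalIntegral.integral_add i1 i2,
      intervalIntegral.integral_const_mul, intervalIntegral.integral_const_mul]
  have h2 : (1 - η) * (∫ t in A0..B0, ρ t * na F U1 U2 h t) ≤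
      (∫ t in A0..B0, ρ t * (SS F U1 U2 Gp 0 t).re) + K5 * (∫ t in A0..B0, ρ t) +
      3 * L * (∫ t in A0..B0, ρ t * FF F U1 U2 η A L t) := by
    rw [← e1, ← e2]
    exact h1
  have hFF0 : 0 ≤ ∫ t in A0..B0, ρ t * FF F U1 U2 η A L t := by
    apply intervalIntegral.integral_nonneg hab
    intro t _
    apply mul_nonneg (hρ0 t)
    unfold FF
    exact Finset.sum_nonneg fun s _ => by split_ifs <;> positivity
  have h3 : 3 * L * (∫ t in A0..B0, ρ t * FF F U1 U2 η A L t) ≤ ε / 4 / 100 * U := by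
    refine le_trans (mul_le_mul_of_nonneg_right ?_ hFF0) Q4
    nlinarith
  have hεU : 0 ≤ ε * U := by positivity
  have h4 : (1 - η) * (∫ t in A0..B0, ρ t * na F U1 U2 h t) ≤ (1 + ε / 10) * U := by
    have : η * U ≤ ε / 100 * U := mul_le_mul_of_nonneg_right hηε hU
    linarith
  have h5 : (1 + ε / 10) * U ≤ (1 - η) * ((1 + ε) * U) := by
    have : (1 + ε / 10) ≤ (1 - η) * (1 + ε) := by nlinarith
    calc (1 + ε / 10) * U ≤ ((1 - η) * (1 + ε)) * U := mul_le_mul_of_nonneg_right this hU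
      _ = _ := by ring
  exact le_of_mul_le_mul_left (h4.trans h5) (by linarith)

end parts


/-- the data for one `T` -/
structure Dt (F : ℂ → ℂ) (κ CD CE CZ CN Cf CM ε c η c2 δ T L l h A : ℝ) : Prop where
  hε : 0 < ε
  hε1 : ε < 1
  hc : 0 < c
  hκ : 0 < κ
  hCD : 0 < CD
  hCE : 0 < CE
  hCZ : 0 < CZ
  hCN : 0 < CN
  hCf : 0 < Cf
  hη : 0 < η
  hη10 : η ≤ 1 / 10
  hηκ : η ≤ κ / 4
  hηε : η ≤ ε / 100
  hδ0 : 0 < δ
  hc2 : c2 = κ * η * c / 4000
  hCM : CM = CE + 1 + 200 * Real.pi * Cf ^ 2 / ε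
  hLd : L = Real.log T
  hld : l = Real.log L
  hhd : h = c / l
  hAd : A = η * c / 1000 * L / l ^ 3
  hL100 : 100 ≤ L
  hl100 : 100 ≤ l
  hlA : l ≤ A
  hh0 : 0 < h
  hh1 : h ≤ 1
  hT10 : 10 ≤ T
  hLT : L ≤ T / 4
  s5 : 50 * Real.exp (c2 * L + L - L ^ 2 / 4) ≤ 1
  s6 : c2 / δ ≤ l
  s1 : 2 * CM ≤ ε / 4 / 100 * (h * L / Real.pi)
  s2 : (1 + 1 / η) * (4 * Rf 0 * CM ^ 2) ≤ ε / 4 / 100 * L
  s3 : 80 * CD * L ^ 5 * Real.exp (-(2 * (c2 / 2) * (L / l ^ 3))) ≤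
    ε / 4 / 100 * (h * L / Real.pi)
  s4 : (48 / L ^ 3 * (CZ * L) + 4 * (CN * (T * L)) * tau L) * 2 ≤
    ε / 4 / 100 * (h * L / Real.pi)

section one

variable {F : ℂ → ℂ} {κ CD CE CZ CN Cf CM ε c η c2 δ T L l h A : ℝ}
  {U1 U2 τ H : ℝ} {S : Finset ℕ} {r : ℕ → ℂ} {G : ℂ → ℂ} {w : ℝ → ℂ} {Gp : ℂ → ℂ} {gp : ℝ → ℂ}
  {a : ℕ → ℂ}

/-- a first moment -/
lemma first (hd : Dt F κ CD CE CZ CN Cf CM ε c η c2 δ T L l h A)
    (hH : T * Real.exp (-(c2 * (L / l ^ 3))) ≤ H) (hτ1 : T + L * (H + 1) ≤ τ)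
    (hτ2 : τ ≤ 2 * T - L * (H + 1))
    (hR : ∀ t, ‖RP S r t‖ ^ 2 ≤ Real.exp (c2 * (L / l ^ 3)) * w1 S r)
    (ha : ∀ n, ‖a n‖ ≤ ArithmeticFunction.vonMangoldt n)
    {b : ℝ} {W : ℂ → ℂ} {v : ℝ → ℂ} (hW : BW b W v) (hq0 : 0 ≤ q2 v) (hqh : q2 v ≤ h)
    (hef : ∀ t : ℝ, T + L ≤ t → t ≤ 2 * T - L →
      ‖SS F U1 U2 W 0 t - cexp (I * (0 : ℝ) * t) * PD a ⌊T ^ (1 - η)⌋₊ v L 0 t‖ ≤
        CE * Real.sqrt (q2 v))
    (hfm : ‖(∫ t : ℝ, (rh τ H S r t : ℂ) * PD a ⌊T ^ (1 - η)⌋₊ v L 0 t) -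
      ((mr H S r * L : ℝ) : ℂ) * gs v 0‖ ≤ Cf * (mr H S r * Real.sqrt (L * q2 v)))
    (hM : ∫ t : ℝ, rh τ H S r t ≤ 2 * mr H S r) :
    |(∫ t in (T + L)..(2 * T - L), rh τ H S r t * (SS F U1 U2 W 0 t).re) -
      mr H S r * L * (gs v 0).re| ≤ ε / 50 * (mr H S r * (h * L / Real.pi)) := by
  have hL := hd.hL100
  have hl := hd.hl100
  have hT10 := hd.hT10
  have hLT := hd.hLT
  have hLpos : 0 < L := by linarith
  have hc20 : 0 < c2 := by
    have := hd.hκ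
    have := hd.hη
    have := hd.hc
    rw [hd.hc2]; positivity
  have hH0 : 0 < H := lt_of_lt_of_le (by positivity) hH
  have hw1 := w1_nonneg S r
  have hm0 : 0 ≤ mr H S r := by unfold mr; positivity
  have hsq1 : Real.sqrt (q2 v) ≤ 1 := Real.sqrt_le_one.2 (hqh.trans hd.hh1)
  have h0 := hd.hh0
  have hπ := Real.pi_pos
  have hU : 0 ≤ mr H S r * (h * L / Real.pi) := by positivity
  have h1 := fm_use2 (F := F) (U1 := U1) (U2 := U2) (rh_cont τ H S r) (rh_nonneg τ H S r)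
    (rh_intg (τ := τ) hH0 S r) (by linarith : T + L ≤ 2 * T - L) hW
    hef hd.hCE.le
    (fm_tr (A := T + L) (A' := 2 * T - L) hH0 hLpos.le (by linarith) (by linarith) hR hW ha
      hLpos.le hfm) hM
  refine h1.trans ?_
  have htl := trunc (S := S) (r := r) (by linarith : 1 ≤ T) hd.hLd hLpos hLT (by linarith : 1 ≤ l)
    hc20 hd.hη (by linarith [hd.hη10]) hH0 rfl rfl hd.s5 (q2 v) hsq1
  have hsqb := sqb hd.hε hd.hCf hd.hCE h0 hLpos hd.hCM hd.s1
  exact err1 hd.hε hd.hCf hd.hCE hLpos hm0 hd.hCM hd.s1 rfl hU hsqb hqh hsq1 htl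

/-- the two bounds for one `T` -/
lemma one_T (hF : GoodL F) (hd : Dt F κ CD CE CZ CN Cf CM ε c η c2 δ T L l h A)
    (hU1 : T ≤ U1) (hU2' : U2 ≤ 2 * T)
    (hH : T * Real.exp (-(c2 * (L / l ^ 3))) ≤ H) (hτ1 : T + L * (H + 1) ≤ τ)
    (hτ2 : τ ≤ 2 * T - L * (H + 1))
    (hR : ∀ t, ‖RP S r t‖ ^ 2 ≤ Real.exp (c2 * (L / l ^ 3)) * w1 S r)
    (hTw : Two η L h A G w Gp gp)
    (hZ : ∀ t : ℝ, Zg F U1 U2 t ≤ CZ * L) (hN : (NN F U1 U2 : ℝ) ≤ CN * (T * L))
    (hD : ∑ s ∈ Zf F U1 U2, (mult F s : ℝ) * Real.exp (κ * (|(zz s).im| * L)) ≤ CD * (T * L))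
    (hM : ∫ t : ℝ, rh τ H S r t ≤ 2 * mr H S r)
    (P1 : |(∫ t in (T + L)..(2 * T - L), rh τ H S r t * (SS F U1 U2 (fun z => G z ^ 2) 0 t).re) -
      mr H S r * L * (gs w 0).re| ≤ ε / 50 * (mr H S r * (h * L / Real.pi)))
    (P2 : |(∫ t in (T + L)..(2 * T - L), rh τ H S r t * (SS F U1 U2 Gp 0 t).re) -
      mr H S r * L * (gs gp 0).re| ≤ ε / 50 * (mr H S r * (h * L / Real.pi)))
    (A3 : ∫ t in (T + L)..(2 * T - L), rh τ H S r t *
      (2 * ∫ α in (0 : ℝ)..1, Rf α * ‖SS F U1 U2 (fun z => G z ^ 2) ((1 - 4 * η) * L * α) t‖ ^ 2) ≤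
      ((1 + η) * (cMTinv + ε / 10) + ε / 100) * (mr H S r * (h * L / Real.pi))) :
    (0.6725 - ε) * (mr H S r * (h * L / Real.pi)) ≤
      (∫ t in (T + L)..(2 * T - L), rh τ H S r t * x1 F U1 U2 h t) ∧
    (∫ t in (T + L)..(2 * T - L), rh τ H S r t * na F U1 U2 h t) ≤
      (1 + ε) * (mr H S r * (h * L / Real.pi)) := by
  have hL := hd.hL100
  have hl := hd.hl100
  have hT10 := hd.hT10
  have hLT := hd.hLT
  have hη := hd.hη
  have hη10 := hd.hη10
  have hηκ := hd.hηκ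
  have hκ := hd.hκ
  have hε := hd.hε
  have hLpos : 0 < L := by linarith
  have hlpos : 0 < l := by linarith
  have hc20 : 0 < c2 := by
    have := hd.hc
    rw [hd.hc2]; positivity
  have hH0 : 0 < H := lt_of_lt_of_le (by positivity) hH
  have hw1 := w1_nonneg S r
  have h0 := hd.hh0
  have hh1 := hd.hh1
  have hπ := Real.pi_pos
  have hU11 : (1 : ℝ) ≤ U1 := by linarith
  have hab : T + L ≤ 2 * T - L := by linarith
  have hρc := rh_cont τ H S r
  have hρ0 := rh_nonneg τ H S r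
  have hρi := rh_intg (τ := τ) hH0 S r
  set m := mr H S r with hmd
  have hm0 : 0 ≤ m := by rw [hmd]; unfold mr; positivity
  set U := m * (h * L / Real.pi) with hUd
  have hU : 0 ≤ U := by positivity
  have hunit : m * L * (h / Real.pi) = U := by rw [hUd]; ring
  rw [abs_le] at P1 P2
  have A1 : (1 - η - ε / 50) * U ≤
      ∫ t in (T + L)..(2 * T - L), rh τ H S r t * (SS F U1 U2 (fun z => G z ^ 2) 0 t).re := by
    have h2 : (1 - η) * U ≤ m * L * (gs w 0).re := by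
      rw [← hunit]
      calc (1 - η) * (m * L * (h / Real.pi)) =
          m * L * ((1 - η) * (h / Real.pi)) := by ring
        _ ≤ _ := mul_le_mul_of_nonneg_left hTw.lo (by positivity)
    linarith [P1.1]
  have A2 : ∫ t in (T + L)..(2 * T - L), rh τ H S r t * (SS F U1 U2 Gp 0 t).re ≤
      (1 + η + ε / 50) * U := by
    have h2 : m * L * (gs gp 0).re ≤ (1 + η) * U := by
      rw [← hunit]
      calc m * L * (gs gp 0).re ≤ m * L * ((1 + η) * (h / Real.pi)) :=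
            mul_le_mul_of_nonneg_left hTw.hi (by positivity)
        _ = _ := by ring
    linarith [P2.2]
  set Bd := Real.exp (c2 * (L / l ^ 3)) * w1 S r with hBd
  have hρB : ∀ t, rh τ H S r t ≤ Bd := by
    intro t
    unfold rh
    calc om τ H t * ‖RP S r t‖ ^ 2 ≤ 1 * ‖RP S r t‖ ^ 2 :=
          mul_le_mul_of_nonneg_right (om_le_one _ _ _) (sq_nonneg _)
      _ = ‖RP S r t‖ ^ 2 := one_mul _
      _ ≤ Bd := hR t
  have P4 := FF_bound (F := F) (U1 := U1) (U2 := U2) hρc hρ0 hρB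
    (η := η) (A := A) (L := L) (κ := κ) (by linarith) hLpos.le hab
  have Q4 := far (c := c) (ε := ε) (h := h) hκ hη hd.hc hd.hCD hηκ hd.hc2 (by linarith : 1 ≤ L)
    hlpos (by linarith : 0 < T) hH hmd hUd hd.hAd h0 hε hBd (P4.trans (by
      have hBd0 : 0 ≤ Bd := by positivity
      gcongr)) hd.s3
  set K5 := 48 / L ^ 3 * (CZ * L) + 4 * (CN * (T * L)) * tau L with hK5
  have htau : 0 ≤ tau L := by unfold tau; positivity
  have hCZ := hd.hCZ
  have hCN := hd.hCN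
  have hK50 : 0 ≤ K5 := by
    have : 0 < T := by linarith
    positivity
  have hMI : ∫ t in (T + L)..(2 * T - L), rh τ H S r t ≤ 2 * m := by
    refine le_trans ?_ hM
    rw [intervalIntegral.integral_of_le hab]
    exact setIntegral_le_integral hρi (Eventually.of_forall hρ0)
  have A5 : K5 * (∫ t in (T + L)..(2 * T - L), rh τ H S r t) ≤ ε / 4 / 100 * U := by
    calc K5 * (∫ t in (T + L)..(2 * T - L), rh τ H S r t) ≤ K5 * (2 * m) :=
          mul_le_mul_of_nonneg_left hMI hK50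
      _ = (K5 * 2) * m := by ring
      _ ≤ (ε / 4 / 100 * (h * L / Real.pi)) * m := mul_le_mul_of_nonneg_right hd.s4 hm0
      _ = _ := by rw [hUd]; ring
  have hlA : Real.log L ≤ A := by rw [← hd.hld]; exact hd.hlA
  have hεU : 0 ≤ ε * U := by positivity
  constructor
  · have hpt : ∀ t ∈ Set.Icc (T + L) (2 * T - L),
        4 * (SS F U1 U2 (fun z => G z ^ 2) 0 t).re - 2 / (1 - η) * (SS F U1 U2 Gp 0 t).re -
        (2 * ∫ α in (0 : ℝ)..1, Rf α * ‖SS F U1 U2 (fun z => G z ^ 2)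
          ((1 - 4 * η) * L * α) t‖ ^ 2) - (40 * L ^ 2) * FF F U1 U2 η A L t - K5 ≤
        x1 F U1 U2 h t := by
      intro t _
      have h1 := point (U1 := U1) (U2 := U2) hF hU11 hTw hη hη10 hL hlA (by linarith) h0.le
        (Λ := (1 - 4 * η) * L) (mul_nonneg (by linarith) hLpos.le) (by nlinarith) t
      refine le_trans ?_ h1
      have h2 : 48 / L ^ 3 * Zg F U1 U2 t + 4 * (NN F U1 U2 : ℝ) * tau L ≤ K5 := by
        rw [hK5]
        have := hZ t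
        gcongr
      linarith
    have cS := SS_cont2 hTw.bw F U1 U2 ((1 - 4 * η) * L)
    have cE : Continuous (fun t : ℝ => ∫ α in (0 : ℝ)..1, Rf α *
        ‖SS F U1 U2 (fun z => G z ^ 2) ((1 - 4 * η) * L * α) t‖ ^ 2) := by
      apply intervalIntegral.continuous_parametric_intervalIntegral_of_continuous'
      exact (Rf_cont.comp continuous_snd).mul (cS.norm.pow 2)
    have hfin := asm hab hρ0
      ((hρc.mul (Complex.continuous_re.comp (SS_cont0 hTw.bw F U1 U2))).intervalIntegrable _ _)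
      ((hρc.mul (Complex.continuous_re.comp (SS_cont0 hTw.bwp F U1 U2))).intervalIntegrable _ _)
      ((hρc.mul (continuous_const.mul cE)).intervalIntegrable _ _)
      (FF_int hρc η A L _ _) (x1_int hρc h _ _) (hρc.intervalIntegrable _ _) hpt
    refine le_trans ?_ hfin
    exact final_num hU hε hd.hε1 hη hd.hηε Pool.Agent.W354.ZP.cMTinv_sharp A1 A2 A3
      (Q4.trans (by linarith)) (A5.trans (by linarith))
  · have hpt : ∀ t : ℝ, (1 - η) * na F U1 U2 h t ≤ (SS F U1 U2 Gp 0 t).re + K5 +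
        3 * L * FF F U1 U2 η A L t := by
      intro t
      have h1 := na_point (U1 := U1) (U2 := U2) hF hU11 hTw hη hη10 hL hlA
        (by linarith : h ≤ L) t
      have h2 : 4 / L ^ 3 * Zg F U1 U2 t + (NN F U1 U2 : ℝ) * tau L ≤ K5 := by
        have h3 : 4 / L ^ 3 * Zg F U1 U2 t ≤ 48 / L ^ 3 * (CZ * L) := by
          have := hZ t
          have := Zg_nonneg F U1 U2 t
          gcongr
          norm_num
        have h4 : (NN F U1 U2 : ℝ) * tau L ≤ 4 * (CN * (T * L)) * tau L := by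
          apply mul_le_mul_of_nonneg_right _ htau
          have : 0 ≤ CN * (T * L) := by
            have : 0 < T := by linarith
            positivity
          linarith
        rw [hK5]
        linarith
      linarith
    exact upb hρc hρ0 hab (SS_cont0 hTw.bwp F U1 U2) hη hη10 hd.hηε hε hd.hε1 hU
      (by linarith : 1 ≤ L) hpt A2 Q4 A5

end one

theorem core2 (hwin : S_win) (hsq : S_sq) (hpl : S_pl) (hgs : S_gs) (hms : S_ms2) (hfm : S_fm2)
    {F : ℂ → ℂ} (hF : GoodL F) (hD : Dens F) (hef : S_ef F) : S_core2 F := by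
  intro ε c hε hε1 hc hc1
  have hπ := Real.pi_pos
  have hπ3 := Real.pi_gt_three
  obtain ⟨κ, CD, TD, hκ, hCD, hTD, hD⟩ := hD
  obtain ⟨a, CE, ha, hCE, hef⟩ := hef
  obtain ⟨CZ, hCZ, hZ⟩ := Zg_le hF
  obtain ⟨CN, hCN, hN⟩ := NN_crude hF
  obtain ⟨η1, hη10, hη11, hms⟩ := hms (ε / 10) (by positivity)
  obtain ⟨η, hη, hηη1, hη10', hηκ, hηε⟩ : ∃ η : ℝ, 0 < η ∧ η ≤ η1 ∧ η ≤ 1 / 10 ∧ η ≤ κ / 4 ∧
      η ≤ ε / 100 := by
    refine ⟨min (min η1 (1 / 10)) (min (κ / 4) (ε / 100)), ?_, ?_, ?_, ?_, ?_⟩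
    · exact lt_min (lt_min hη10 (by norm_num)) (lt_min (by positivity) (by positivity))
    · exact (min_le_left _ _).trans (min_le_left _ _)
    · exact (min_le_left _ _).trans (min_le_right _ _)
    · exact (min_le_right _ _).trans (min_le_left _ _)
    · exact (min_le_right _ _).trans (min_le_right _ _)
  obtain ⟨δ1, T1, hδ1, hT1, hms⟩ := hms η hη hηη1
  obtain ⟨δ2, T2, Cf, hδ2, hT2, hCf, hfm⟩ := hfm η hη (by linarith)
  obtain ⟨L0, hL0, htwo⟩ := two hwin hsq hpl hgs η c hη hη10' hc hc1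
  obtain ⟨T3, hT3, hef⟩ := hef η hη (by linarith)
  obtain ⟨T4, hT4, hmass⟩ := rh_mass
  obtain ⟨L1, hL1, hpar⟩ := params η c hη hc
  obtain ⟨c2, hc2⟩ : ∃ c2 : ℝ, c2 = κ * η * c / 4000 := ⟨_, rfl⟩
  have hc20 : 0 < c2 := by rw [hc2]; positivity
  have hR0 : 0 ≤ Rf 0 := Rf_nonneg 0
  obtain ⟨δ, hδ0, hδ1', hδ2', hδ8⟩ : ∃ δ : ℝ, 0 < δ ∧ δ ≤ δ1 ∧ δ ≤ δ2 ∧ δ ≤ 1 / 8 :=
    ⟨min (min δ1 δ2) (1 / 8), lt_min (lt_min hδ1 hδ2) (by norm_num),
      (min_le_left _ _).trans (min_le_left _ _), (min_le_left _ _).trans (min_le_right _ _),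
      min_le_right _ _⟩
  obtain ⟨CM, hCM⟩ : ∃ CM : ℝ, CM = CE + 1 + 200 * Real.pi * Cf ^ 2 / ε := ⟨_, rfl⟩
  have hCM0 : 0 < CM := by rw [hCM]; positivity
  have ev : ∀ᶠ T : ℝ in atTop, max L0 L1 ≤ Real.log T ∧ Real.log T ≤ T / 4 ∧
      50 * Real.exp (c2 * Real.log T + Real.log T - Real.log T ^ 2 / 4) ≤ 1 ∧
      c2 / δ ≤ Real.log (Real.log T) ∧
      (2 * CM ≤ ε / 4 / 100 * (c / Real.log (Real.log T) * Real.log T / Real.pi) ∧
      (1 + 1 / η) * (4 * Rf 0 * CM ^ 2) ≤ ε / 4 / 100 * Real.log T ∧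
      80 * CD * Real.log T ^ 5 * Real.exp (-(2 * (c2 / 2) * (Real.log T /
        Real.log (Real.log T) ^ 3))) ≤
        ε / 4 / 100 * (c / Real.log (Real.log T) * Real.log T / Real.pi) ∧
      (48 / Real.log T ^ 3 * (CZ * Real.log T) +
        4 * (CN * (Real.exp (Real.log T) * Real.log T)) * tau (Real.log T)) * 2 ≤
        ε / 4 / 100 * (c / Real.log (Real.log T) * Real.log T / Real.pi)) := by
    have e1 := Real.tendsto_log_atTop.eventually_ge_atTop (max L0 L1)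
    have e2 := Real.tendsto_log_atTop.eventually
      (small (ε := ε / 4) (c2 := c2 / 2) (by positivity) hc hη (by positivity) hCM0 hCD hCZ hCN hR0)
    have e3 : ∀ᶠ T : ℝ in atTop, Real.log T ≤ T / 4 := by
      have h := Real.isLittleO_log_id_atTop.bound (show (0 : ℝ) < 1 / 4 by norm_num)
      filter_upwards [h, eventually_ge_atTop 1] with T hT hT1
      simp only [id] at hT
      rw [Real.norm_of_nonneg (Real.log_nonneg hT1), Real.norm_of_nonneg (by linarith)] at hT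
      linarith
    have e4 := Real.tendsto_log_atTop.eventually (ev_f c2)
    have e5 := (Real.tendsto_log_atTop.comp Real.tendsto_log_atTop).eventually_ge_atTop (c2 / δ)
    exact e1.and (e3.and (e4.and (e5.and e2)))
  obtain ⟨T5, hT5⟩ := eventually_atTop.1 ev
  refine ⟨δ, c2, max (max (max T1 T2) (max T3 T4)) (max TD T5), hδ0, hc20,
    hT1.trans ((le_max_left _ _).trans ((le_max_left _ _).trans (le_max_left _ _))), fun T hT => ?_⟩
  have gT1 : T1 ≤ T := ((le_max_left _ _).trans ((le_max_left _ _).trans (le_max_left _ _))).trans hT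
  have gT2 : T2 ≤ T := ((le_max_right _ _).trans ((le_max_left _ _).trans (le_max_left _ _))).trans hT
  have gT3 : T3 ≤ T := ((le_max_left _ _).trans ((le_max_right _ _).trans (le_max_left _ _))).trans hT
  have gT4 : T4 ≤ T := ((le_max_right _ _).trans ((le_max_right _ _).trans (le_max_left _ _))).trans hT
  have gTD : TD ≤ T := ((le_max_left _ _).trans (le_max_right _ _)).trans hT
  have gT5 : T5 ≤ T := ((le_max_right _ _).trans (le_max_right _ _)).trans hT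
  obtain ⟨hLL, hLT, s5, s6, s1, s2, s3, s4⟩ := hT5 T gT5
  have hT10 : 10 ≤ T := hT1.trans gT1
  have hT0 : 0 < T := by linarith
  rw [Real.exp_log hT0] at s4
  obtain ⟨U1, U2, hU1, hU1', hU2, hU2', hef⟩ := hef T gT3
  refine ⟨U1, U2, hU1, hU1', hU2, hU2', fun S hS r hR τ H hH hτ1 hτ2 => ?_⟩
  obtain ⟨G, w, Gp, gp, hTw⟩ := htwo (Real.log T) ((le_max_left _ _).trans hLL)
  obtain ⟨-, hl100, hlA, -, hL100⟩ := hpar (Real.log T) ((le_max_right _ _).trans hLL)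
  have hLpos : 0 < Real.log T := by linarith
  have hlpos : 0 < Real.log (Real.log T) := by linarith
  have hh0 : 0 < c / Real.log (Real.log T) := by positivity
  have hh1 : c / Real.log (Real.log T) ≤ 1 := by
    rw [div_le_one hlpos]
    linarith
  have hd : Dt F κ CD CE CZ CN Cf CM ε c η c2 δ T (Real.log T) (Real.log (Real.log T))
      (c / Real.log (Real.log T)) (η * c / 1000 * Real.log T / Real.log (Real.log T) ^ 3) :=
    ⟨hε, hε1, hc, hκ, hCD, hCE, hCZ, hCN, hCf, hη, hη10', hηκ, hηε, hδ0, hc2, hCM, rfl, rfl, rfl,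
      rfl, hL100, hl100, hlA, hh0, hh1, hT10, hLT, s5, s6, s1, s2, s3, s4⟩
  have hT1' : (1 : ℝ) ≤ T := by linarith
  have hwd := width hT0 rfl hLpos (by linarith : 1 ≤ Real.log (Real.log T)) hc20 hδ0 s6 hH
  have hS1 : Len S (T ^ δ1) := Len_mono hS (Real.rpow_le_rpow_of_exponent_le hT1' hδ1')
  have hS2 : Len S (T ^ δ2) := Len_mono hS (Real.rpow_le_rpow_of_exponent_le hT1' hδ2')
  have hS3 : Len S (T ^ (1 / 8 : ℝ)) := Len_mono hS (Real.rpow_le_rpow_of_exponent_le hT1' hδ8)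
  have hM := hmass T gT4 S hS3 r τ H (by
    have := hwd (1 / 8) hδ8
    norm_num at this ⊢
    exact this)
  have hW0 : ∀ x : ℝ, ((fun z => G z ^ 2) (x : ℂ)).im = 0 := by
    intro x
    simp only
    rw [sq_re hTw.cj x, Complex.ofReal_im]
  have hηL : 0 < η * Real.log T := by positivity
  have hηL1 : η * Real.log T ≤ (1 - 2 * η) * Real.log T := by
    apply mul_le_mul_of_nonneg_right _ hLpos.le
    linarith
  have hηL2 : η * Real.log T ≤ Real.log T := by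
    calc η * Real.log T ≤ 1 * Real.log T := by
          apply mul_le_mul_of_nonneg_right _ hLpos.le
          linarith
      _ = _ := one_mul _
  have hq0 : 0 ≤ q2 w := integral_nonneg fun v => sq_nonneg _
  have hqp0 : 0 ≤ q2 gp := integral_nonneg fun v => sq_nonneg _
  have hqh : q2 w ≤ c / Real.log (Real.log T) := by
    refine hTw.q.trans ?_
    exact div_le_self hh0.le (by linarith)
  have hab : T + Real.log T ≤ 2 * T - Real.log T := by linarith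
  have hH0 : 0 < H := lt_of_lt_of_le (by positivity) hH
  have hw1 := w1_nonneg S r
  have hm0 : 0 ≤ mr H S r := by unfold mr; positivity
  have P1 := first (U1 := U1) (U2 := U2) hd hH hτ1 hτ2 hR ha hTw.bw hq0 hqh
    (fun t ht1 ht2 => hef _ _ _ hTw.bw 0 t (by rw [abs_zero, zero_add]; exact hηL1) ht1 ht2)
    (hfm T gT2 a ha S hS2 r _ _ _ hTw.bw hηL hηL2 τ H (hwd δ2 hδ2')) hM
  have P2 := first (U1 := U1) (U2 := U2) hd hH hτ1 hτ2 hR ha hTw.bwp hqp0 hTw.qp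
    (fun t ht1 ht2 => hef _ _ _ hTw.bwp 0 t (by rw [abs_zero, zero_add]; linarith) ht1 ht2)
    (hfm T gT2 a ha S hS2 r _ _ _ hTw.bwp (by positivity) (by linarith) τ H (hwd δ2 hδ2')) hM
  have P3 := en_use2 (F := F) (U1 := U1) (U2 := U2) (rh_cont τ H S r) (rh_nonneg τ H S r)
    (rh_intg (τ := τ) hH0 S r) hab hTw.bw (a := a)
    (X := ⌊T ^ (1 - η)⌋₊) (C := CE) (η := η) (Λ := (1 - 4 * η) * Real.log T) hη
    (fun α hα t ht1 ht2 => hef _ _ _ hTw.bw ((1 - 4 * η) * Real.log T * α) t (by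
      have h4 : 0 ≤ 1 - 4 * η := by linarith
      rw [abs_of_nonneg (by have := hα.1; positivity)]
      have h1 : (1 - 4 * η) * Real.log T * α ≤ (1 - 4 * η) * Real.log T * 1 := by
        apply mul_le_mul_of_nonneg_left hα.2
        positivity
      nlinarith) ht1 ht2) hM
  have P3' := hms T gT1 a ha S hS1 r (η * Real.log T) _ _ hTw.bw hηL le_rfl hW0 τ H (hwd δ1 hδ1')
  have A3 := P3.trans (enb hη hCE hε hLpos hm0 hh0 hq0 hTw.q rfl hCM s2 P3')
  have hD1 : ∑ s ∈ Zf F U1 U2, (mult F s : ℝ) * Real.exp (κ * (|(zz s).im| * Real.log T)) ≤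
      CD * (T * Real.log T) := by
    refine le_trans ?_ (hD T gTD)
    exact Finset.sum_le_sum_of_subset_of_nonneg (TH803TW.Zf_sub hF (by linarith) hU1 hU2')
      fun s _ _ => by positivity
  exact one_T hF hd hU1 hU2' hH hτ1 hτ2 hR hTw (fun t => hZ T (by linarith) U1 U2 hU1 hU2' t)
    (hN T (by linarith) U1 U2 hU1 hU2') hD1 hM P1 P2 A3

end Pool.Agent.N802.U
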