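import Pool.Agent.N802.U.Stm

/-! # Gram vectors for the Montgomery-Taylor kernel, without the Gaussian factor -/

open Complex Filter Topology Set MeasureTheory
open scoped BigOperators ComplexConjugate

namespace Pool.Agent.N802.U

open H370

noncomputable def kf (Λ : ℝ) (z : ℂ) (x : ℝ) : ℂ := (Real.sqrt (g0 x) : ℂ) * cexp (I * z * (Λ * x))

lemma kf_cont (Λ : ℝ) (z : ℂ) : Continuous (kf Λ z) := by
  unfold kf
  have := GramAux.g0_cont
  fun_prop

lemma kf_memLp (Λ : ℝ) (z : ℂ) :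
    MemLp (kf Λ z) 2 (volume.restrict (Set.Ioc (-1 / 2 : ℝ) (1 / 2))) := by
  rw [memLp_two_iff_integrable_sq_norm (kf_cont Λ z).aestronglyMeasurable]
  exact ((kf_cont Λ z).norm.pow 2).integrableOn_Ioc

lemma kf_inner (Λ : ℝ) (z w : ℂ) :
    ∫ x in Set.Ioc (-1 / 2 : ℝ) (1 / 2), (starRingEnd ℂ) (kf Λ z x) * kf Λ w x
      = kap (Λ * (w - (starRingEnd ℂ) z)) := by
  set ζ := w - (starRingEnd ℂ) z with hζ
  unfold kap
  rw [intervalIntegral.integral_of_le (by norm_num)]
  apply setIntegral_congr_fun measurableSet_Ioc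
  intro x hx
  have h0 := GramAux.g0_nonneg hx.1.le hx.2
  simp only [kf, map_mul, Complex.conj_ofReal, ← Complex.exp_conj, Complex.conj_I]
  have e : cexp (-I * (starRingEnd ℂ) z * (Λ * x)) * cexp (I * w * (Λ * x)) =
      cexp (I * (Λ * ζ) * x) := by
    rw [← Complex.exp_add]
    congr 1
    rw [hζ]
    ring
  have e2 : (Real.sqrt (g0 x) : ℂ) * (Real.sqrt (g0 x) : ℂ) = (g0 x : ℂ) := by
    rw [← Complex.ofReal_mul, Real.mul_self_sqrt h0]
  rw [← e2, ← e]
  ring

theorem gram0 (Λ : ℝ) : ∃ (E : Type) (_ : NormedAddCommGroup E) (_ : InnerProductSpace ℂ E)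
    (k : ℂ → E), ∀ z w, inner ℂ (k z) (k w) = kap (Λ * (w - (starRingEnd ℂ) z)) := by
  refine ⟨Lp ℂ 2 (volume.restrict (Set.Ioc (-1 / 2 : ℝ) (1 / 2))), inferInstance, inferInstance,
    fun z => (kf_memLp Λ z).toLp _, fun z w => ?_⟩
  rw [L2.inner_def, ← kf_inner]
  apply integral_congr_ae
  filter_upwards [(kf_memLp Λ z).coeFn_toLp, (kf_memLp Λ w).coeFn_toLp] with p h1 h2
  rw [h1, h2, RCLike.inner_apply, mul_comm]

lemma kap_growth {Λ ℓ : ℝ} (hΛ : 0 ≤ Λ) (hΛℓ : Λ ≤ ℓ) (z : ℂ) :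
    ‖kap (Λ * (z - conj z))‖ ≤ Real.exp (|z.im| * ℓ) := by
  have e0 : z - conj z = ((2 * z.im : ℝ) : ℂ) * I := by
    apply Complex.ext
    · simp
    · simp; ring
  have hgc := GramAux.g0_cont
  have h0 := abs_nonneg z.im
  unfold kap
  refine (intervalIntegral.norm_integral_le_integral_norm (by norm_num)).trans ?_
  have h2 : ∫ y in (-1 / 2 : ℝ)..(1 / 2), ‖(g0 y : ℂ) * cexp (I * (Λ * (z - conj z)) * y)‖ ≤
      ∫ y in (-1 / 2 : ℝ)..(1 / 2), g0 y * Real.exp (|z.im| * ℓ) := by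
    refine intervalIntegral.integral_mono_on (by norm_num) ?_ ?_ fun y hy => ?_
    · exact (by fun_prop : Continuous fun y : ℝ =>
        ‖(g0 y : ℂ) * cexp (I * (Λ * (z - conj z)) * y)‖).intervalIntegrable _ _
    · exact (hgc.mul continuous_const).intervalIntegrable _ _
    · have hg0 := GramAux.g0_nonneg (by linarith [hy.1]) hy.2
      rw [norm_mul, Complex.norm_real, Real.norm_of_nonneg hg0]
      apply mul_le_mul_of_nonneg_left _ hg0
      have e1 : I * (Λ * (z - conj z)) * y = ((-(2 * Λ * z.im * y) : ℝ) : ℂ) := by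
        rw [e0]
        have hI : I ^ 2 = -1 := I_sq
        push_cast
        linear_combination (2 * (Λ : ℂ) * (z.im : ℂ) * y) * hI
      rw [e1, ← Complex.ofReal_exp, Complex.norm_real, Real.norm_of_nonneg (Real.exp_pos _).le]
      apply Real.exp_le_exp.2
      have hy2 : |y| ≤ 1 / 2 := by rw [abs_le]; constructor <;> linarith [hy.1, hy.2]
      calc -(2 * Λ * z.im * y) ≤ |2 * Λ * z.im * y| := neg_le_abs _
        _ = 2 * Λ * |z.im| * |y| := by
          rw [abs_mul, abs_mul, abs_of_nonneg (by positivity : 0 ≤ 2 * Λ)]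
        _ ≤ 2 * Λ * |z.im| * (1 / 2) := by gcongr
        _ = |z.im| * Λ := by ring
        _ ≤ _ := by gcongr
  refine h2.trans ?_
  have h3 : ∫ y in (-1 / 2 : ℝ)..(1 / 2), g0 y = 1 := by
    have h4 := kap_zero
    unfold kap at h4
    simp only [mul_zero, zero_mul, Complex.exp_zero, mul_one] at h4
    rw [intervalIntegral.integral_ofReal] at h4
    exact_mod_cast h4
  rw [intervalIntegral.integral_mul_const, h3, one_mul]

end Pool.Agent.N802.U
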