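import Pool.Agent.N802.U.Bw

/-! # Continuity and bounds -/

open Complex Filter Topology Set MeasureTheory
open scoped BigOperators ComplexConjugate

namespace Pool.Agent.N802.U

open H370 TC

variable {b : ℝ} {W : ℂ → ℂ} {w : ℝ → ℂ}

lemma BW.nexp (h : BW b W w) (v : ℝ) (z : ℂ) : ‖w v * cexp (I * v * z)‖ ≤
    ‖w v‖ * Real.exp (|b| * |z.im|) := by
  rw [norm_mul]
  by_cases hv : b < |v|
  · rw [h.sup v hv]; simp
  · push Not at hv
    apply mul_le_mul_of_nonneg_left _ (norm_nonneg _)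
    rw [Complex.norm_exp]
    apply Real.exp_le_exp.2
    have e : (I * v * z).re = -(v * z.im) := by
      simp [Complex.mul_re, Complex.mul_im]
    rw [e]
    calc -(v * z.im) ≤ |v * z.im| := neg_le_abs _
      _ = |v| * |z.im| := abs_mul _ _
      _ ≤ |b| * |z.im| :=
          mul_le_mul_of_nonneg_right (hv.trans (le_abs_self b)) (abs_nonneg _)

lemma BW.contC (h : BW b W w) : Continuous W := by
  have e : W = fun z => ∫ v : ℝ, w v * cexp (I * v * z) := funext h.rep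
  rw [continuous_iff_continuousAt]
  intro z0
  rw [e]
  apply continuousAt_of_dominated (bound := fun v => ‖w v‖ * Real.exp (|b| * (|z0.im| + 1)))
  · refine Eventually.of_forall fun x => ?_
    exact (h.meas.mul (by fun_prop : Measurable fun v : ℝ => cexp (I * v * x))).aestronglyMeasurable
  · have h1 : ∀ᶠ z in 𝓝 z0, |z.im| < |z0.im| + 1 := by
      have : Continuous fun z : ℂ => |z.im| := by fun_prop
      exact this.continuousAt.eventually_lt continuousAt_const (by linarith)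
    filter_upwards [h1] with z hz
    refine Eventually.of_forall fun v => (h.nexp v z).trans ?_
    gcongr
  · exact h.intg.norm.mul_const _
  · refine Eventually.of_forall fun v => ?_
    fun_prop

lemma gs_cont (h : BW b W w) : Continuous (gs w) := by
  unfold gs
  apply continuous_const.mul
  apply continuous_of_dominated (bound := fun v => ‖w v‖)
  · intro x
    exact (h.meas.mul (by fun_prop :
      Measurable fun v : ℝ => ((Real.exp (-(x + v) ^ 2 / 2) : ℝ) : ℂ))).aestronglyMeasurable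
  · intro x
    refine Eventually.of_forall fun v => ?_
    rw [norm_mul, Complex.norm_real, Real.norm_of_nonneg (Real.exp_pos _).le]
    apply mul_le_of_le_one_right (norm_nonneg _)
    exact Real.exp_le_one_iff.2 (by
      have := sq_nonneg (x + v)
      linarith)
  · exact h.intg.norm
  · refine Eventually.of_forall fun v => ?_
    fun_prop

lemma gs_bdd (h : BW b W w) : ∃ M : ℝ, 0 ≤ M ∧ ∀ x, ‖gs w x‖ ≤ M := by
  refine ⟨‖((1 / Real.sqrt (2 * Real.pi) : ℝ) : ℂ)‖ * ∫ v, ‖w v‖, by positivity, fun x => ?_⟩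
  unfold gs
  rw [norm_mul]
  apply mul_le_mul_of_nonneg_left _ (norm_nonneg _)
  refine (norm_integral_le_integral_norm _).trans ?_
  apply integral_mono_of_nonneg (Eventually.of_forall fun v => norm_nonneg _) h.intg.norm
  refine Eventually.of_forall fun v => ?_
  simp only
  rw [norm_mul, Complex.norm_real, Real.norm_of_nonneg (Real.exp_pos _).le]
  apply mul_le_of_le_one_right (norm_nonneg _)
  exact Real.exp_le_one_iff.2 (by
    have := sq_nonneg (x + v)
    linarith)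

lemma PD_cont (h : BW b W w) (a : ℕ → ℂ) (X : ℕ) (ℓ Λ : ℝ) :
    Continuous (fun p : ℝ × ℝ => PD a X w ℓ (Λ * p.2) p.1) := by
  have hg := gs_cont h
  unfold PD
  have hmn : ∀ n m : ℕ, Continuous (fun p : ℝ × ℝ => mn n m p.1) := fun n m =>
    (mn_cont n m).comp continuous_fst
  refine ((continuous_const.mul (hg.comp (by fun_prop))).sub
    (continuous_finsetSum _ fun n _ => ?_)).sub (continuous_finsetSum _ fun n _ => ?_)
  · exact (continuous_const.mul (hg.comp (by fun_prop))).mul (hmn _ _)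
  · exact (continuous_const.mul (hg.comp (by fun_prop))).mul (hmn _ _)

lemma PD_cont1 (h : BW b W w) (a : ℕ → ℂ) (X : ℕ) (ℓ ξ : ℝ) :
    Continuous (fun t : ℝ => PD a X w ℓ ξ t) := by
  have h1 := (PD_cont h a X ℓ ξ).comp (by fun_prop : Continuous fun t : ℝ => ((t, 1) : ℝ × ℝ))
  simpa [Function.comp_def] using h1

lemma PD_bdd (h : BW b W w) (a : ℕ → ℂ) (X : ℕ) (ℓ : ℝ) :
    ∃ M : ℝ, 0 ≤ M ∧ ∀ ξ t, ‖PD a X w ℓ ξ t‖ ≤ M := by
  obtain ⟨M, hM0, hM⟩ := gs_bdd h
  refine ⟨|ℓ| * M + ∑ n ∈ Finset.Icc 1 X, ‖a n * (Real.sqrt n : ℂ)⁻¹‖ * M +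
    ∑ n ∈ Finset.Icc 1 X, ‖conj (a n) * (Real.sqrt n : ℂ)⁻¹‖ * M, by positivity, fun ξ t => ?_⟩
  unfold PD
  refine (norm_sub_le _ _).trans (add_le_add ((norm_sub_le _ _).trans (add_le_add ?_ ?_)) ?_)
  · rw [norm_mul, Complex.norm_real, Real.norm_eq_abs]
    exact mul_le_mul_of_nonneg_left (hM _) (abs_nonneg _)
  · refine (norm_sum_le _ _).trans (Finset.sum_le_sum fun n _ => ?_)
    rw [norm_mul, mn_norm, mul_one, norm_mul]
    exact mul_le_mul_of_nonneg_left (hM _) (norm_nonneg _)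
  · refine (norm_sum_le _ _).trans (Finset.sum_le_sum fun n _ => ?_)
    rw [norm_mul, mn_norm, mul_one, norm_mul]
    exact mul_le_mul_of_nonneg_left (hM _) (norm_nonneg _)

lemma rho_cont (T : ℝ) (S : Finset ℕ) (r : ℕ → ℂ) : Continuous (rho T S r) := by
  unfold rho
  have h1 := om_cont (3 / 2 * T) (T / Real.log T)
  have h2 : Continuous (fun t => RP S r t) := TP_cont _ _ _ _
  exact h1.mul (h2.norm.pow 2)

lemma rho_nonneg (T : ℝ) (S : Finset ℕ) (r : ℕ → ℂ) (t : ℝ) : 0 ≤ rho T S r t :=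
  mul_nonneg (om_pos _ _ _).le (sq_nonneg _)

lemma rho_intg {T : ℝ} (hT : 0 < T / Real.log T) (S : Finset ℕ) (r : ℕ → ℂ) :
    Integrable (rho T S r) := by
  unfold rho
  have h2 : Continuous (fun t => RP S r t) := TP_cont _ _ _ _
  refine ((om_integrable (3 / 2 * T) (T / Real.log T) hT).mul_const (n1 S r ^ 2)).mono'
    (((om_cont _ _).mul (h2.norm.pow 2)).aestronglyMeasurable) (Eventually.of_forall fun t => ?_)
  rw [Real.norm_of_nonneg (mul_nonneg (om_pos _ _ _).le (sq_nonneg _))]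
  apply mul_le_mul_of_nonneg_left _ (om_pos _ _ _).le
  exact pow_le_pow_left₀ (norm_nonneg _) (TP_norm_le S r _ _ t) 2

/-- the total mass of the weight -/
lemma rho_mass : ∃ T0 : ℝ, 10 ≤ T0 ∧ ∀ T : ℝ, T0 ≤ T → ∀ (S : Finset ℕ) (Y : ℝ),
    Smo S (T ^ (1 / 2 : ℝ)) Y → ∀ r : ℕ → ℂ, ∫ t : ℝ, rho T S r t ≤ 2 * nr T S r := by
  have ev : ∀ᶠ T : ℝ in atTop, Real.log T ≤ T ^ (1 / 8 : ℝ) := by
    have h := (isLittleO_log_rpow_atTop (r := 1 / 8) (by norm_num)).bound
      (show (0 : ℝ) < 1 by norm_num)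
    filter_upwards [h, eventually_ge_atTop 1] with T hT hT1
    rw [Real.norm_of_nonneg (Real.log_nonneg hT1), Real.norm_of_nonneg (by positivity), one_mul] at hT
    exact hT
  have ev2 : ∀ᶠ T : ℝ in atTop, 64 ≤ T ^ (1 / 4 : ℝ) :=
    (tendsto_rpow_atTop (by norm_num)).eventually_ge_atTop _
  obtain ⟨T1, hT1⟩ := eventually_atTop.1 (ev.and ev2)
  refine ⟨max T1 10, le_max_right _ _, fun T hT S Y hS r => ?_⟩
  obtain ⟨f1, f2⟩ := hT1 T ((le_max_left _ _).trans hT)
  have hT10 : 10 ≤ T := (le_max_right _ _).trans hT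
  have hT0 : 0 < T := by linarith
  have hL : 1 ≤ Real.log T := by
    rw [Real.le_log_iff_exp_le hT0]
    have := Real.exp_one_lt_d9
    linarith
  have hL0 : 0 < Real.log T := by linarith
  set H := T / Real.log T with hH
  have hH0 : 0 < H := by positivity
  set K0 := T ^ (1 / 2 : ℝ) with hK0
  have hK1 : 1 ≤ K0 := Real.one_le_rpow (by linarith) (by norm_num)
  have hS' : ∀ k ∈ S, 1 ≤ k ∧ (k : ℝ) ≤ K0 := fun k hk => ⟨(hS k hk).1, (hS k hk).2.1⟩
  have hW : 0 ≤ Real.sqrt (2 * Real.pi) * H := by positivity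
  have h1 := om_TP (S ×ˢ S) (uc r) (fun x => x.1) (fun x => x.2) (3 / 2 * T) H K0 hH0
    (fun x hx => (hS x.1 (Finset.mem_product.mp hx).1).1)
    (fun x hx => (hS x.2 (Finset.mem_product.mp hx).2).1)
    (fun x hx => by
      have h2 := (hS x.1 (Finset.mem_product.mp hx).1).2.1
      have h3 : ((min x.1 x.2 : ℕ) : ℝ) ≤ (x.1 : ℝ) := by exact_mod_cast min_le_left _ _
      linarith)
  rw [diag0, n1_uc] at h1
  have e : ∫ t : ℝ, (om (3 / 2 * T) H t : ℂ) *
      TP (S ×ˢ S) (uc r) (fun x => x.1) (fun x => x.2) t =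
      ((∫ t, rho T S r t : ℝ) : ℂ) := by
    rw [← integral_complex_ofReal]
    congr 1
    funext t
    rw [← U_eq S r (fun k hk => (hS k hk).1) t]
    unfold rho
    push_cast
    ring
  rw [e, ← ofReal_mul, ← ofReal_sub, Complex.norm_real, Real.norm_eq_abs] at h1
  have h2 := n1_sq_le S r hS' hK1
  have hw := w1_nonneg S r
  have h3 : K0 * Real.exp (-(H ^ 2) / (8 * K0 ^ 2)) ≤ 1 := by
    have e1 : K0 ^ 2 = T := by
      rw [hK0, ← Real.rpow_natCast, ← Real.rpow_mul hT0.le]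
      norm_num
    have h4 : K0 ≤ H ^ 2 / (8 * K0 ^ 2) := by
      rw [e1, hH, div_pow, le_div_iff₀ (by positivity), le_div_iff₀ (by positivity)]
      have h5 : Real.log T ^ 2 ≤ T ^ (1 / 4 : ℝ) := by
        calc Real.log T ^ 2 ≤ (T ^ (1 / 8 : ℝ)) ^ 2 := pow_le_pow_left₀ hL0.le f1 2
          _ = T ^ (1 / 4 : ℝ) := by
              rw [← Real.rpow_natCast, ← Real.rpow_mul hT0.le]; norm_num
      have h6 : K0 * T ^ (1 / 4 : ℝ) * T ^ (1 / 4 : ℝ) = T := by
        rw [hK0, ← Real.rpow_add hT0, ← Real.rpow_add hT0]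
        norm_num
      have h7 : 8 ≤ T ^ (1 / 4 : ℝ) := by linarith
      calc K0 * (8 * T) * Real.log T ^ 2 ≤ K0 * (T ^ (1 / 4 : ℝ) * T) * T ^ (1 / 4 : ℝ) := by
            gcongr
        _ = (K0 * T ^ (1 / 4 : ℝ) * T ^ (1 / 4 : ℝ)) * T := by ring
        _ = T ^ 2 := by rw [h6]; ring
    have h5 : Real.exp (-(H ^ 2) / (8 * K0 ^ 2)) ≤ Real.exp (-K0) := by
      apply Real.exp_le_exp.2
      rw [neg_div]
      linarith
    have h6 : K0 ≤ Real.exp K0 := by linarith [Real.add_one_le_exp K0]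
    calc K0 * Real.exp (-(H ^ 2) / (8 * K0 ^ 2)) ≤ Real.exp K0 * Real.exp (-K0) :=
          mul_le_mul h6 h5 (Real.exp_pos _).le (Real.exp_pos _).le
      _ = 1 := by rw [← Real.exp_add, add_neg_cancel, Real.exp_zero]
  have h4 : n1 S r ^ 2 * Real.exp (-(H ^ 2) / (8 * K0 ^ 2)) ≤ w1 S r := by
    calc n1 S r ^ 2 * Real.exp (-(H ^ 2) / (8 * K0 ^ 2)) ≤
        (K0 * w1 S r) * Real.exp (-(H ^ 2) / (8 * K0 ^ 2)) :=
          mul_le_mul_of_nonneg_right h2 (Real.exp_pos _).le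
      _ = (K0 * Real.exp (-(H ^ 2) / (8 * K0 ^ 2))) * w1 S r := by ring
      _ ≤ 1 * w1 S r := mul_le_mul_of_nonneg_right h3 hw
      _ = _ := one_mul _
  have h5 := (abs_le.1 h1).2
  have h6 := mul_le_mul_of_nonneg_left h4 hW
  unfold nr
  linarith

end Pool.Agent.N802.U
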