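import Pool.Agent.N802.U.Bw

/-! # The parameters of the windows -/

open Complex Filter Topology Set MeasureTheory

namespace Pool.Agent.N802.U

/-- the parameters are admissible for large `L` -/
lemma params (η c : ℝ) (hη : 0 < η) (hc : 0 < c) :
    ∃ L0 : ℝ, 10 ≤ L0 ∧ ∀ L, L0 ≤ L → 100 / η ≤ Real.log L ∧ 100 ≤ Real.log L ∧
      Real.log L ≤ η * c / 1000 * L / Real.log L ^ 3 ∧ 300 / η ≤ L ∧ 100 ≤ L := by
  have h1 : ∀ᶠ L : ℝ in atTop, max (100 / η) 100 ≤ Real.log L :=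
    Real.tendsto_log_atTop.eventually_ge_atTop _
  have h2 : ∀ᶠ L : ℝ in atTop, Real.log L ^ 4 ≤ η * c / 1000 * L := by
    have h3 : (fun L : ℝ => Real.log L ^ 4) =o[atTop] fun L : ℝ => L := by
      have := (isLittleO_log_rpow_atTop (r := 1 / 4) (by norm_num)).pow (by norm_num : 0 < 4)
      refine this.trans_eventuallyEq ?_
      filter_upwards [eventually_gt_atTop 0] with L hL
      rw [← Real.rpow_natCast, ← Real.rpow_mul hL.le]
      norm_num
    have h4 := h3.bound (show 0 < η * c / 1000 by positivity)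
    filter_upwards [h4, eventually_ge_atTop 1] with L hL hL1
    rw [Real.norm_of_nonneg (pow_nonneg (Real.log_nonneg hL1) 4), Real.norm_of_nonneg (by linarith)]
      at hL
    exact hL
  obtain ⟨L0, hL0⟩ := eventually_atTop.1 (((h1.and h2).and (eventually_ge_atTop (300 / η))).and
    (eventually_ge_atTop 100))
  refine ⟨max L0 10, le_max_right _ _, fun L hL => ?_⟩
  obtain ⟨⟨⟨f1, f2⟩, f3⟩, f4⟩ := hL0 L ((le_max_left _ _).trans hL)
  have g1 : 100 / η ≤ Real.log L := (le_max_left _ _).trans f1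
  have g2 : 100 ≤ Real.log L := (le_max_right _ _).trans f1
  refine ⟨g1, g2, ?_, f3, f4⟩
  rw [le_div_iff₀ (by positivity)]
  calc Real.log L * Real.log L ^ 3 = Real.log L ^ 4 := by ring
    _ ≤ _ := f2

lemma third_pow {n : ℕ} {A : ℝ} (hn : 2 * A + 1 ≤ n) :
    (1 / 3 : ℝ) ^ (2 * n - 1) ≤ Real.exp (-(4 * A + 1)) := by
  have h1 : (1 / 3 : ℝ) ≤ Real.exp (-1) := by
    rw [Real.exp_neg, one_div]
    apply inv_anti₀ (Real.exp_pos 1)
    have := Real.exp_one_lt_d9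
    linarith
  calc (1 / 3 : ℝ) ^ (2 * n - 1) ≤ (Real.exp (-1)) ^ (2 * n - 1) :=
        pow_le_pow_left₀ (by norm_num) h1 _
    _ = Real.exp (-((2 * n - 1 : ℕ) : ℝ)) := by
        rw [← Real.exp_nat_mul]
        congr 1
        ring
    _ ≤ _ := by
        apply Real.exp_le_exp.2
        have h2 : ((2 * n : ℕ) : ℝ) ≤ ((2 * n - 1 : ℕ) : ℝ) + 1 := by
          have : 2 * n ≤ (2 * n - 1) + 1 := by omega
          exact_mod_cast this
        push_cast at h2
        linarith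

lemma exp_m1 : Real.exp (-1) ≤ 0.37 := by
  rw [Real.exp_neg]
  have := Real.exp_one_gt_d9
  rw [inv_le_comm₀ (Real.exp_pos 1) (by norm_num)]
  norm_num
  linarith

lemma ex1 (A : ℝ) : Real.exp (-(4 * A + 1)) ≤ 0.37 * Real.exp (-4 * A) := by
  have : -(4 * A + 1) = -1 + -4 * A := by ring
  rw [this, Real.exp_add]
  exact mul_le_mul_of_nonneg_right exp_m1 (Real.exp_pos _).le

lemma ex2 {A L : ℝ} (hA : 1 ≤ A) (h1 : 100 * A ≤ L) :
    Real.exp (-(L / 2)) ≤ 0.1 * Real.exp (-4 * A) := by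
  have h2 : Real.exp (-(L / 2)) ≤ Real.exp (-3 + -4 * A) := by
    apply Real.exp_le_exp.2
    linarith
  refine h2.trans ?_
  rw [Real.exp_add]
  apply mul_le_mul_of_nonneg_right _ (Real.exp_pos _).le
  have h3 : Real.exp (-3) = (Real.exp (-1)) ^ 3 := by
    rw [← Real.exp_nat_mul]; norm_num
  rw [h3]
  calc (Real.exp (-1)) ^ 3 ≤ 0.37 ^ 3 := pow_le_pow_left₀ (Real.exp_pos _).le exp_m1 3
    _ ≤ 0.1 := by norm_num

lemma ex3 {A L : ℝ} (hL : 100 ≤ L) (hA : Real.log L ≤ A) : Real.exp (-4 * A) ≤ 1 / L ^ 3 := by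
  have hL0 : 0 < L := by linarith
  have hl : 0 ≤ Real.log L := Real.log_nonneg (by linarith)
  have h1 : Real.exp (-4 * A) ≤ Real.exp (-(3 * Real.log L)) := Real.exp_le_exp.2 (by linarith)
  refine h1.trans (le_of_eq ?_)
  rw [Real.exp_neg, one_div]
  congr 1
  rw [show 3 * Real.log L = (3 : ℕ) * Real.log L by norm_num, Real.exp_nat_mul, Real.exp_log hL0]

/-- the parameters -/
structure Par (η L h A b s r X : ℝ) (n : ℕ) : Prop where
  L1 : 100 ≤ L
  l1 : 100 ≤ Real.log L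
  b0 : 0 < b
  be : b = η * L / 2
  s0 : 0 < s
  r0 : 0 < r
  X0 : 0 < X
  h0 : 0 < h
  A1 : Real.log L ≤ A
  rs : r = Real.log L * s
  rX : r + X ≤ η * h / 100
  sr : s ≤ r
  h1 : h ≤ η / 100
  As : A * (9 * Real.log L) = s * L
  fr : 2 * (n : ℝ) / (b * X) = 1 / 3
  n1 : 1 ≤ n
  tl : (1 / 3 : ℝ) ^ (2 * n - 1) ≤ 0.37 * Real.exp (-4 * A)
  eL : Real.exp (-(L / 2)) ≤ 0.1 * Real.exp (-4 * A)
  e3 : Real.exp (-4 * A) ≤ 1 / L ^ 3
  L3 : 3 / L ≤ η / 100

lemma par_ex (η c : ℝ) (hη : 0 < η) (hη1 : η ≤ 1 / 10) (hc : 0 < c) (hc1 : c ≤ 1) :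
    ∃ L0 : ℝ, 10 ≤ L0 ∧ ∀ L, L0 ≤ L → ∃ (b s r X : ℝ) (n : ℕ),
      Par η L (c / Real.log L) (η * c / 1000 * L / Real.log L ^ 3) b s r X n := by
  obtain ⟨L0, hL0, hpar⟩ := params η c hη hc
  refine ⟨L0, hL0, fun L hL => ?_⟩
  obtain ⟨p1, p2, p3, p4, p5⟩ := hpar L hL
  set l := Real.log L with hl
  set c0 := η * c / 1000 with hc0
  set A := c0 * L / l ^ 3 with hA
  have hL0' : 0 < L := by linarith
  have hl0 : 0 < l := by linarith
  have hc00 : 0 < c0 := by positivity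
  have hA0 : 0 < A := by positivity
  have hA1 : 100 ≤ A := p2.trans p3
  have hηl : 100 ≤ η * l := by
    rw [div_le_iff₀ hη] at p1
    linarith
  have hcl : 0 < c0 / l := by positivity
  refine ⟨η * L / 2, 9 * c0 / l ^ 2, 9 * c0 / l, 12 * (⌈2 * A⌉₊ + 1 : ℕ) / (η * L),
    ⌈2 * A⌉₊ + 1, ?_⟩
  have hn1 : 2 * A + 1 ≤ ((⌈2 * A⌉₊ + 1 : ℕ) : ℝ) := by
    push_cast
    linarith [Nat.le_ceil (2 * A)]
  have hn2 : ((⌈2 * A⌉₊ + 1 : ℕ) : ℝ) ≤ 3 * A := by
    push_cast
    linarith [Nat.ceil_lt_add_one (show 0 ≤ 2 * A by positivity)]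
  set n : ℕ := ⌈2 * A⌉₊ + 1 with hn
  have hn0 : (0 : ℝ) < n := by linarith
  have hX1 : 12 * (n : ℝ) / (η * L) ≤ c0 / l := by
    have h1 : 12 * (n : ℝ) / (η * L) ≤ 36 * c0 / (η * l ^ 3) := by
      calc 12 * (n : ℝ) / (η * L) ≤ 12 * (3 * A) / (η * L) := by gcongr
        _ = 36 * c0 / (η * l ^ 3) := by rw [hA]; field_simp; ring
    refine h1.trans ?_
    rw [div_le_div_iff₀ (by positivity) hl0]
    have h2 : 36 ≤ η * l * l := by
      calc (36 : ℝ) ≤ 100 * 100 := by norm_num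
        _ ≤ η * l * l := mul_le_mul hηl p2 (by norm_num) (by positivity)
    calc 36 * c0 * l ≤ (η * l * l) * c0 * l := by gcongr
      _ = c0 * (η * l ^ 3) := by ring
  have hc0h : η * (c / l) / 100 = 10 * (c0 / l) := by rw [hc0]; ring
  have hAL : 100 * A ≤ L := by
    have h2 : A ≤ L / 100 := by
      rw [hA, div_le_div_iff₀ (by positivity) (by norm_num)]
      have h3 : c0 ≤ 1 := by
        rw [hc0]
        have : η * c ≤ 1 * 1 := mul_le_mul (by linarith) hc1 hc.le zero_le_one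
        linarith
      have h4 : (100 : ℝ) ≤ l ^ 3 := by
        calc (100 : ℝ) ≤ 100 ^ 3 := by norm_num
          _ ≤ l ^ 3 := by gcongr
      calc c0 * L * 100 ≤ 1 * L * l ^ 3 := by gcongr
        _ = L * l ^ 3 := by ring
    linarith
  constructor
  · exact p5
  · exact p2
  · positivity
  · rfl
  · positivity
  · positivity
  · positivity
  · positivity
  · exact p3
  · show 9 * c0 / l = l * (9 * c0 / l ^ 2)
    field_simp
  · rw [hc0h]
    have : 9 * c0 / l = 9 * (c0 / l) := by ring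
    rw [this]
    linarith
  · rw [show 9 * c0 / l ^ 2 = (9 * c0 / l) / l by field_simp]
    exact div_le_self (by positivity) (by linarith)
  · have h1 : c / l ≤ 1 / l := by gcongr
    refine h1.trans ?_
    rw [div_le_div_iff₀ hl0 (by norm_num)]
    linarith
  · show A * (9 * l) = 9 * c0 / l ^ 2 * L
    rw [hA]; field_simp
  · field_simp; norm_num
  · omega
  · exact (third_pow hn1).trans (ex1 A)
  · exact ex2 (by linarith) hAL
  · exact ex3 p5 p3
  · rw [div_le_div_iff₀ hL0' (by norm_num)]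
    rw [div_le_iff₀ hη] at p4
    linarith

end Pool.Agent.N802.U
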