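import Pool.Agent.N802.U.Two
import Pool.Agent.N802.U.Count

/-! # The inequality at one point with all costs estimated -/

open Complex Filter Topology Set MeasureTheory
open scoped BigOperators ComplexConjugate

namespace Pool.Agent.N802.U

open H370

open Classical in
/-- the far zeros near `t` -/
noncomputable def FF (F : ℂ → ℂ) (U1 U2 η A L t : ℝ) : ℝ :=
  ∑ s ∈ (Zf F U1 U2).filter (fun s => A < |(zz s).im| * L),
    (if |s.im - t| ≤ L then (mult F s : ℝ) * Real.exp (η * L * |(zz s).im|) else 0)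

lemma gau_norm {s : ℂ} (hs : |(zz s).im| ≤ 1 / 2) (t : ℝ) :
    ‖cexp (-(zz s - t) ^ 2 / 2)‖ ≤ 2 * Real.exp (-(s.im - t) ^ 2 / 2) := by
  rw [Complex.norm_exp]
  have e1 : (-(zz s - t) ^ 2 / 2).re = (zz s).im ^ 2 / 2 + -(s.im - t) ^ 2 / 2 := by
    have e2 : -(zz s - t) ^ 2 / 2 = (((-(1 / 2) : ℝ)) : ℂ) * (zz s - t) ^ 2 := by push_cast; ring
    rw [e2, Complex.re_ofReal_mul, sq, Complex.mul_re, Complex.sub_re, Complex.sub_im,
      Complex.ofReal_re, Complex.ofReal_im, zz_re]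
    ring
  rw [e1, Real.exp_add]
  apply mul_le_mul_of_nonneg_right _ (Real.exp_pos _).le
  have h1 : (zz s).im ^ 2 ≤ 1 := by
    rw [← sq_abs]
    calc |(zz s).im| ^ 2 ≤ (1 / 2) ^ 2 := pow_le_pow_left₀ (abs_nonneg _) hs 2
      _ ≤ 1 := by norm_num
  calc Real.exp ((zz s).im ^ 2 / 2) ≤ Real.exp (1 / 2) := Real.exp_le_exp.2 (by linarith)
    _ ≤ 2 := by
      have := Real.exp_one_lt_d9
      have h5 : Real.exp (1 / 2) ^ 2 = Real.exp 1 := by
        rw [← Real.exp_nat_mul]; norm_num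
      nlinarith [Real.exp_pos (1 / 2 : ℝ)]

lemma zim {F : ℂ → ℂ} (hF : GoodL F) {U1 U2 : ℝ} (hU : 1 ≤ U1) {s : ℂ} (hs : s ∈ Zf F U1 U2) :
    |(zz s).im| ≤ 1 / 2 := TH803UC.zz_small ((mem_Zf hF hU).1 hs)

lemma sub_re' (s : ℂ) (t : ℝ) : (zz s - t).re = s.im - t := by
  rw [Complex.sub_re, Complex.ofReal_re, zz_re]

lemma sub_im' (s : ℂ) (t : ℝ) : (zz s - t).im = (zz s).im := by
  rw [Complex.sub_im, Complex.ofReal_im, sub_zero]

/-- the far tail -/
noncomputable def tau (L : ℝ) : ℝ := 32 * L ^ 2 * Real.exp (L - L ^ 2 / 2)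

lemma tail_exp {L x : ℝ} (hL : 0 ≤ L) (hx : L < |x|) : Real.exp (-x ^ 2 / 2) ≤ Real.exp (-(L ^ 2 / 2)) := by
  apply Real.exp_le_exp.2
  have : L ^ 2 ≤ x ^ 2 := by
    rw [← sq_abs x]
    exact pow_le_pow_left₀ hL hx.le 2
  linarith

section

variable {F : ℂ → ℂ} (hF : GoodL F) {U1 U2 : ℝ} (hU : 1 ≤ U1) {η L h A : ℝ} {G : ℂ → ℂ}
    {w : ℝ → ℂ} {Gp : ℂ → ℂ} {gp : ℝ → ℂ} (hT : Two η L h A G w Gp gp) (hη : 0 < η)
    (hη1 : η ≤ 1 / 10) (hL : 100 ≤ L) (hA : Real.log L ≤ A) (hhL : h ≤ L)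

include hF hU hT hη hη1 hL hA in
/-- the cost of a zero -/
lemma cost_le (t : ℝ) {s : ℂ} (hs : s ∈ Zf F U1 U2) : cost G A L h t s ≤
    32 / L ^ 3 * Real.exp (-(s.im - t) ^ 2 / 2) + tau L +
      28 * L ^ 2 * (if A < |(zz s).im| * L ∧ |s.im - t| ≤ L then
        Real.exp (η * L * |(zz s).im|) else 0) := by
  have hy := zim hF hU hs
  have hg := gau_norm hy t
  have hL0 : 0 < L := by linarith
  have hτ : 0 ≤ tau L := by unfold tau; positivity
  have hGG : ‖G (zz s - t) ^ 2‖ ≤ L ^ 2 * Real.exp (η * L * |(zz s).im|) := by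
    rw [norm_pow]
    have h1 := hT.cr (zz s - t)
    rw [sub_im'] at h1
    calc ‖G (zz s - t)‖ ^ 2 ≤ (L * Real.exp (η * L / 2 * |(zz s).im|)) ^ 2 :=
          pow_le_pow_left₀ (norm_nonneg _) h1 2
      _ = L ^ 2 * Real.exp (η * L * |(zz s).im|) := by
          rw [mul_pow, ← Real.exp_nat_mul]
          congr 2
          push_cast
          ring
  have hL3 : 0 ≤ 32 / L ^ 3 * Real.exp (-(s.im - t) ^ 2 / 2) := by positivity
  unfold cost
  by_cases h1 : A < |(zz s).im| * L ∧ |s.im - t| ≤ L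
  · rw [if_pos h1, if_pos h1, norm_mul]
    have h2 : ‖cexp (-(zz s - t) ^ 2 / 2)‖ ≤ 2 := by
      refine hg.trans ?_
      have : Real.exp (-(s.im - t) ^ 2 / 2) ≤ 1 := Real.exp_le_one_iff.2 (by
        have := sq_nonneg (s.im - t)
        linarith)
      linarith
    have h3 : ‖G (zz s - t) ^ 2‖ * ‖cexp (-(zz s - t) ^ 2 / 2)‖ ≤
        (L ^ 2 * Real.exp (η * L * |(zz s).im|)) * 2 :=
      mul_le_mul hGG h2 (norm_nonneg _) (by positivity)
    have h4 : 1 ≤ L ^ 2 * Real.exp (η * L * |(zz s).im|) := by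
      have h5 : 1 ≤ Real.exp (η * L * |(zz s).im|) := Real.one_le_exp (by positivity)
      have h6 : 1 ≤ L ^ 2 := one_le_pow₀ (by linarith)
      nlinarith
    linarith
  · rw [if_neg h1, if_neg h1, mul_zero, add_zero]
    by_cases h2 : h < |s.im - t|
    · rw [if_pos h2]
      by_cases h3 : |(zz s).im| * L ≤ A
      · -- near
        have h4 := hT.out (zz s - t) (by rw [sub_im']; exact h3) (by rw [sub_re']; exact h2.le)
        have hA0 : 0 ≤ A := le_trans (by positivity) h3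
        have h5 : ‖G (zz s - t) ^ 2 * cexp (-(zz s - t) ^ 2 / 2)‖ ≤
            Real.exp (-8 * A) * (2 * Real.exp (-(s.im - t) ^ 2 / 2)) := by
          rw [norm_mul, norm_pow]
          apply mul_le_mul _ hg (norm_nonneg _) (Real.exp_pos _).le
          calc ‖G (zz s - t)‖ ^ 2 ≤ (Real.exp (-4 * A)) ^ 2 :=
                pow_le_pow_left₀ (norm_nonneg _) h4 2
            _ = Real.exp (-8 * A) := by
                rw [← Real.exp_nat_mul]
                congr 1
                push_cast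
                ring
        have h6 : Real.exp (|(zz s).im| * L) * Real.exp (-8 * A) ≤ 1 / L ^ 3 := by
          rw [← Real.exp_add]
          refine le_trans (Real.exp_le_exp.2 (?_ : _ ≤ -4 * A)) (ex3 hL hA)
          linarith
        calc 16 * Real.exp (|(zz s).im| * L) *
              ‖G (zz s - t) ^ 2 * cexp (-(zz s - t) ^ 2 / 2)‖ ≤
            16 * Real.exp (|(zz s).im| * L) *
              (Real.exp (-8 * A) * (2 * Real.exp (-(s.im - t) ^ 2 / 2))) := by gcongr
          _ = 32 * (Real.exp (|(zz s).im| * L) * Real.exp (-8 * A)) *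
              Real.exp (-(s.im - t) ^ 2 / 2) := by ring
          _ ≤ 32 * (1 / L ^ 3) * Real.exp (-(s.im - t) ^ 2 / 2) := by gcongr
          _ ≤ _ := by
              have : 32 * (1 / L ^ 3) = 32 / L ^ 3 := by ring
              rw [this]
              linarith
      · -- very far
        push Not at h3
        have h4 : L < |s.im - t| := by
          by_contra hc
          exact h1 ⟨h3, not_lt.1 hc⟩
        have h5 := tail_exp hL0.le h4
        have h6 : ‖G (zz s - t) ^ 2 * cexp (-(zz s - t) ^ 2 / 2)‖ ≤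
            (L ^ 2 * Real.exp (η * L * |(zz s).im|)) * (2 * Real.exp (-(L ^ 2 / 2))) := by
          rw [norm_mul]
          apply mul_le_mul hGG _ (norm_nonneg _) (by positivity)
          exact hg.trans (by linarith)
        have h7 : Real.exp (|(zz s).im| * L) * Real.exp (η * L * |(zz s).im|) ≤ Real.exp L := by
          rw [← Real.exp_add]
          apply Real.exp_le_exp.2
          have : |(zz s).im| * L ≤ 1 / 2 * L := by gcongr
          have h8 : η * L * |(zz s).im| ≤ 1 / 10 * L * (1 / 2) := by gcongr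
          linarith
        have h9 : 16 * Real.exp (|(zz s).im| * L) *
              ‖G (zz s - t) ^ 2 * cexp (-(zz s - t) ^ 2 / 2)‖ ≤ tau L := by
          calc 16 * Real.exp (|(zz s).im| * L) *
              ‖G (zz s - t) ^ 2 * cexp (-(zz s - t) ^ 2 / 2)‖ ≤
            16 * Real.exp (|(zz s).im| * L) *
              ((L ^ 2 * Real.exp (η * L * |(zz s).im|)) * (2 * Real.exp (-(L ^ 2 / 2)))) := by gcongr
            _ = 32 * L ^ 2 * ((Real.exp (|(zz s).im| * L) * Real.exp (η * L * |(zz s).im|)) *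
              Real.exp (-(L ^ 2 / 2))) := by ring
            _ ≤ 32 * L ^ 2 * (Real.exp L * Real.exp (-(L ^ 2 / 2))) := by gcongr
            _ = tau L := by
                unfold tau
                rw [← Real.exp_add, sub_eq_add_neg]
        linarith
    · rw [if_neg h2]
      linarith

include hF hU hT hη hη1 hL hhL in
/-- the lower bound for the real part at a zero, upper window -/
lemma up_le (t : ℝ) {s : ℂ} (hs : s ∈ Zf F U1 U2) :
    (if |s.im - t| ≤ h then (1 - η) else 0) ≤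
      (Gp (zz s - t) * cexp (-(zz s - t) ^ 2 / 2)).re +
    (4 / L ^ 3 * Real.exp (-(s.im - t) ^ 2 / 2) + tau L +
      3 * L * (if A < |(zz s).im| * L ∧ |s.im - t| ≤ L then
        Real.exp (η * L * |(zz s).im|) else 0)) := by
  have hy := zim hF hU hs
  have hg := gau_norm hy t
  have hL0 : 0 < L := by linarith
  have hτ : 0 ≤ tau L := by unfold tau; positivity
  have hL3 : 0 ≤ 4 / L ^ 3 * Real.exp (-(s.im - t) ^ 2 / 2) := by positivity
  have hGG : ‖Gp (zz s - t)‖ ≤ L * Real.exp (η * L * |(zz s).im|) := by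
    have h1 := hT.crp (zz s - t)
    rw [sub_im'] at h1
    refine h1.trans ?_
    have : 0 < η * L := by positivity
    gcongr
    linarith
  by_cases h3 : |(zz s).im| * L ≤ A
  · rw [if_neg (fun hc : A < |(zz s).im| * L ∧ |s.im - t| ≤ L => absurd hc.1 (not_lt.2 h3)),
      mul_zero, add_zero]
    by_cases h4 : |s.im - t| ≤ h
    · rw [if_pos h4]
      have h5 := hT.inp (zz s - t) (by rw [sub_im']; exact h3) (by rw [sub_re']; exact h4)
      linarith
    · rw [if_neg h4]
      have h5 := hT.outp (zz s - t) (by rw [sub_im']; exact h3)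
      rw [sub_re'] at h5
      linarith
  · push Not at h3
    have hneg : -‖Gp (zz s - t) * cexp (-(zz s - t) ^ 2 / 2)‖ ≤
        (Gp (zz s - t) * cexp (-(zz s - t) ^ 2 / 2)).re :=
      (abs_le.1 (Complex.abs_re_le_norm _)).1
    by_cases h4 : |s.im - t| ≤ L
    · rw [if_pos (⟨h3, h4⟩ : A < |(zz s).im| * L ∧ |s.im - t| ≤ L)]
      have h5 : ‖Gp (zz s - t) * cexp (-(zz s - t) ^ 2 / 2)‖ ≤
          (L * Real.exp (η * L * |(zz s).im|)) * 2 := by
        rw [norm_mul]
        apply mul_le_mul hGG _ (norm_nonneg _) (by positivity)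
        refine hg.trans ?_
        have : Real.exp (-(s.im - t) ^ 2 / 2) ≤ 1 := Real.exp_le_one_iff.2 (by
          have := sq_nonneg (s.im - t)
          linarith)
        linarith
      have h6 : 1 ≤ L * Real.exp (η * L * |(zz s).im|) := by
        have h5 : 1 ≤ Real.exp (η * L * |(zz s).im|) := Real.one_le_exp (by positivity)
        nlinarith
      have h7 : (if |s.im - t| ≤ h then (1 - η) else 0) ≤ 1 := by
        split_ifs <;> linarith
      linarith
    · rw [if_neg (fun hc : A < |(zz s).im| * L ∧ |s.im - t| ≤ L => h4 hc.2), mul_zero, add_zero,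
        if_neg (fun hc : |s.im - t| ≤ h => h4 (hc.trans hhL))]
      push Not at h4
      have h5 := tail_exp hL0.le h4
      have h6 : ‖Gp (zz s - t) * cexp (-(zz s - t) ^ 2 / 2)‖ ≤ tau L := by
        rw [norm_mul]
        calc ‖Gp (zz s - t)‖ * ‖cexp (-(zz s - t) ^ 2 / 2)‖ ≤
            (L * Real.exp (η * L * |(zz s).im|)) * (2 * Real.exp (-(L ^ 2 / 2))) := by
              apply mul_le_mul hGG _ (norm_nonneg _) (by positivity)
              exact hg.trans (by linarith)
          _ ≤ (L * Real.exp L) * (2 * Real.exp (-(L ^ 2 / 2))) := by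
              gcongr
              have h8 : η * L * |(zz s).im| ≤ 1 / 10 * L * (1 / 2) := by gcongr
              linarith
          _ = 2 * L * Real.exp (L - L ^ 2 / 2) := by
              rw [sub_eq_add_neg, Real.exp_add]; ring
          _ ≤ tau L := by
              unfold tau
              apply mul_le_mul_of_nonneg_right _ (Real.exp_pos _).le
              nlinarith
      linarith

include hF hU in
lemma sum_FF (A L η t : ℝ) (c : ℝ) :
    ∑ s ∈ Zf F U1 U2, (mult F s : ℝ) * (c * (if A < |(zz s).im| * L ∧ |s.im - t| ≤ L then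
        Real.exp (η * L * |(zz s).im|) else 0)) = c * FF F U1 U2 η A L t := by
  classical
  unfold FF
  rw [Finset.mul_sum, Finset.sum_filter]
  refine Finset.sum_congr rfl fun s _ => ?_
  by_cases h1 : A < |(zz s).im| * L
  · by_cases h2 : |s.im - t| ≤ L
    · rw [if_pos ⟨h1, h2⟩, if_pos h1, if_pos h2]; ring
    · rw [if_neg (by tauto), if_pos h1, if_neg h2]; ring
  · rw [if_neg (by tauto), if_neg h1]; ring

include hF hU hT hη hη1 hL hA hhL in
/-- the inequality at one point -/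
theorem point (hh : 0 ≤ h) {Λ : ℝ} (hΛ : 0 ≤ Λ) (hΛL : Λ ≤ L) (t : ℝ) :
    4 * (SS F U1 U2 (fun z => G z ^ 2) 0 t).re - 2 / (1 - η) * (SS F U1 U2 Gp 0 t).re -
      2 * (∫ α in (0 : ℝ)..1, Rf α * ‖SS F U1 U2 (fun z => G z ^ 2) (Λ * α) t‖ ^ 2) -
      40 * L ^ 2 * FF F U1 U2 η A L t - (48 / L ^ 3 * Zg F U1 U2 t + 4 * (NN F U1 U2 : ℝ) * tau L) ≤
      x1 F U1 U2 h t := by
  classical
  have hL0 : 0 < L := by linarith
  have hA0 : 0 ≤ A := le_trans (Real.log_nonneg (by linarith)) hA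
  have hc := count F hF U1 U2 hU G hT.cj hT.le1 Λ L A h t hΛ hΛL hA0 hh
  have hNN : (NN F U1 U2 : ℝ) = ∑ s ∈ Zf F U1 U2, (mult F s : ℝ) := by
    rw [NN_eq hF hU]; push_cast; rfl
  -- the costs
  have h1 : ∑ s ∈ Zf F U1 U2, (mult F s : ℝ) * cost G A L h t s ≤
      32 / L ^ 3 * Zg F U1 U2 t + (NN F U1 U2 : ℝ) * tau L + 28 * L ^ 2 * FF F U1 U2 η A L t := by
    rw [← sum_FF hF hU A L η t (28 * L ^ 2), hNN]
    unfold Zg
    rw [Finset.mul_sum, Finset.sum_mul, ← Finset.sum_add_distrib, ← Finset.sum_add_distrib]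
    refine Finset.sum_le_sum fun s hs => ?_
    have hm : (0 : ℝ) ≤ mult F s := Nat.cast_nonneg _
    have h2 := mul_le_mul_of_nonneg_left (cost_le hF hU hT hη hη1 hL hA t hs) hm
    refine h2.trans (le_of_eq ?_)
    ring
  have h2 : (1 - η) * na F U1 U2 h t ≤ (SS F U1 U2 Gp 0 t).re + (4 / L ^ 3 * Zg F U1 U2 t +
      (NN F U1 U2 : ℝ) * tau L + 3 * L * FF F U1 U2 η A L t) := by
    rw [← sum_FF hF hU A L η t (3 * L), hNN]
    unfold Zg na SS
    rw [Complex.re_sum, Finset.mul_sum, Finset.mul_sum, Finset.sum_mul, ← Finset.sum_add_distrib,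
      ← Finset.sum_add_distrib, ← Finset.sum_add_distrib, Finset.sum_filter]
    refine Finset.sum_le_sum fun s hs => ?_
    have hm : (0 : ℝ) ≤ mult F s := Nat.cast_nonneg _
    have h3 := mul_le_mul_of_nonneg_left (up_le hF hU hT hη hη1 hL hhL t hs) hm
    have e1 : ((mult F s : ℂ) * (cexp (I * ((0 : ℝ) : ℂ) * zz s) *
        (Gp (zz s - t) * cexp (-(zz s - t) ^ 2 / 2)))).re =
        (mult F s : ℝ) * (Gp (zz s - t) * cexp (-(zz s - t) ^ 2 / 2)).re := by
      rw [Complex.ofReal_zero, mul_zero, zero_mul, Complex.exp_zero, one_mul,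
        ← Complex.ofReal_natCast, Complex.re_ofReal_mul]
    rw [e1]
    have e2 : (if |s.im - t| ≤ h then (1 - η) * (mult F s : ℝ) else 0) =
        (mult F s : ℝ) * (if |s.im - t| ≤ h then (1 - η) else 0) := by
      split_ifs <;> ring
    rw [e2]
    refine h3.trans (le_of_eq ?_)
    ring
  have hη2 : 0 < 1 - η := by linarith
  have h3 : 2 * na F U1 U2 h t ≤ 2 / (1 - η) * ((SS F U1 U2 Gp 0 t).re + (4 / L ^ 3 * Zg F U1 U2 t +
      (NN F U1 U2 : ℝ) * tau L + 3 * L * FF F U1 U2 η A L t)) := by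
    rw [div_mul_eq_mul_div, le_div_iff₀ hη2]
    linarith
  have hz0 := Zg_nonneg F U1 U2 t
  have hFF0 : 0 ≤ FF F U1 U2 η A L t := by
    unfold FF
    exact Finset.sum_nonneg fun s _ => by split_ifs <;> positivity
  have hNN0 : (0 : ℝ) ≤ NN F U1 U2 := Nat.cast_nonneg _
  have hτ : 0 ≤ tau L := by unfold tau; positivity
  have h29 : 2 / (1 - η) ≤ 3 := by
    rw [div_le_iff₀ hη2]
    linarith
  have h4 : 2 / (1 - η) * (4 / L ^ 3 * Zg F U1 U2 t + (NN F U1 U2 : ℝ) * tau L +
      3 * L * FF F U1 U2 η A L t) ≤ 3 * (4 / L ^ 3 * Zg F U1 U2 t + (NN F U1 U2 : ℝ) * tau L +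
      3 * L * FF F U1 U2 η A L t) := by
    apply mul_le_mul_of_nonneg_right h29
    positivity
  have h5 : 9 * L * FF F U1 U2 η A L t ≤ 12 * L ^ 2 * FF F U1 U2 η A L t := by
    apply mul_le_mul_of_nonneg_right _ hFF0
    nlinarith
  have e3 : 2 / (1 - η) * ((SS F U1 U2 Gp 0 t).re + (4 / L ^ 3 * Zg F U1 U2 t +
      (NN F U1 U2 : ℝ) * tau L + 3 * L * FF F U1 U2 η A L t)) =
      2 / (1 - η) * (SS F U1 U2 Gp 0 t).re + 2 / (1 - η) * (4 / L ^ 3 * Zg F U1 U2 t +
      (NN F U1 U2 : ℝ) * tau L + 3 * L * FF F U1 U2 η A L t) := by ring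
  rw [e3] at h3
  have h6 : 32 / L ^ 3 * Zg F U1 U2 t + 12 / L ^ 3 * Zg F U1 U2 t ≤ 48 / L ^ 3 * Zg F U1 U2 t := by
    have : 0 ≤ 1 / L ^ 3 * Zg F U1 U2 t := by positivity
    have e : ∀ k : ℝ, k / L ^ 3 * Zg F U1 U2 t = k * (1 / L ^ 3 * Zg F U1 U2 t) := fun k => by ring
    rw [e 32, e 12, e 48]
    linarith
  have e4 : 3 * (4 / L ^ 3 * Zg F U1 U2 t) = 12 / L ^ 3 * Zg F U1 U2 t := by ring
  have h7 : 0 ≤ (NN F U1 U2 : ℝ) * tau L := by positivity
  linarith

end

end Pool.Agent.N802.U
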