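import Pool.Agent.N802.U.Use2

/-! # Facts about the Gaussian weights -/

open Complex Filter Topology Set MeasureTheory
open scoped BigOperators ComplexConjugate

namespace Pool.Agent.N802.U

open H370 TC

lemma na_eq (F : ℂ → ℂ) (U1 U2 h t : ℝ) : na F U1 U2 h t = ∑ s ∈ Zf F U1 U2,
    (if |s.im - t| ≤ h then (mult F s : ℝ) else 0) := by
  classical
  unfold na
  rw [Finset.sum_filter]

lemma na_int {F : ℂ → ℂ} {U1 U2 : ℝ} {f : ℝ → ℝ} (hf : Continuous f) (h a b : ℝ) :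
    IntervalIntegrable (fun t => f t * na F U1 U2 h t) volume a b := by
  classical
  have h1 := IntervalIntegrable.sum (μ := volume) (a := a) (b := b) (Zf F U1 U2)
    (f := fun s t => f t * (if |s.im - t| ≤ h then (mult F s : ℝ) else 0))
    (fun s _ => ind_int hf s.im h _ a b)
  have e : (fun t => f t * na F U1 U2 h t) = ∑ s ∈ Zf F U1 U2,
      fun t => f t * (if |s.im - t| ≤ h then (mult F s : ℝ) else 0) := by
    funext t
    rw [na_eq, Finset.mul_sum, Finset.sum_apply]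
  rw [e]
  exact h1

lemma rh_cont (τ H : ℝ) (S : Finset ℕ) (r : ℕ → ℂ) : Continuous (rh τ H S r) := by
  unfold rh
  have h2 : Continuous (fun t => RP S r t) := TP_cont _ _ _ _
  exact (om_cont τ H).mul (h2.norm.pow 2)

lemma rh_nonneg (τ H : ℝ) (S : Finset ℕ) (r : ℕ → ℂ) (t : ℝ) : 0 ≤ rh τ H S r t :=
  mul_nonneg (om_pos _ _ _).le (sq_nonneg _)

lemma rh_intg {τ H : ℝ} (hH : 0 < H) (S : Finset ℕ) (r : ℕ → ℂ) : Integrable (rh τ H S r) :=
  Msaux.om_R_int hH S r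

lemma Len.smo {S : Finset ℕ} {K : ℝ} (h : Len S K) : Smo S K K := fun k hk =>
  ⟨(h k hk).1, (h k hk).2, fun p _ hd => by
    have h1 : p ≤ k := Nat.le_of_dvd (h k hk).1 hd
    have h2 : (p : ℝ) ≤ k := by exact_mod_cast h1
    exact h2.trans (h k hk).2⟩

lemma Len_mono {S : Finset ℕ} {K K' : ℝ} (h : Len S K) (hK : K ≤ K') : Len S K' := fun k hk =>
  ⟨(h k hk).1, (h k hk).2.trans hK⟩

lemma rh_mass : ∃ T0 : ℝ, 10 ≤ T0 ∧ ∀ T : ℝ, T0 ≤ T → ∀ S : Finset ℕ, Len S (T ^ (1 / 8 : ℝ)) →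
    ∀ (r : ℕ → ℂ) (τ H : ℝ), T ^ (7 / 8 : ℝ) ≤ H → ∫ t : ℝ, rh τ H S r t ≤ 2 * mr H S r := by
  have ev : ∀ᶠ T : ℝ in atTop, Real.log T ≤ T / 8 := by
    have h := Real.isLittleO_log_id_atTop.bound (show (0 : ℝ) < 1 / 8 by norm_num)
    filter_upwards [h, eventually_ge_atTop 1] with T hT hT1
    simp only [id] at hT
    rw [Real.norm_of_nonneg (Real.log_nonneg hT1), Real.norm_of_nonneg (by linarith)] at hT
    linarith
  obtain ⟨T1, hT1⟩ := eventually_atTop.1 ev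
  refine ⟨max T1 10, le_max_right _ _, fun T hT S hS r τ H hH => ?_⟩
  have h1 := hT1 T ((le_max_left _ _).trans hT)
  have hT10 : 10 ≤ T := (le_max_right _ _).trans hT
  have hT0 : 0 < T := by linarith
  have hT1' : 1 ≤ T := by linarith
  have hK : 1 ≤ T ^ (1 / 8 : ℝ) := Real.one_le_rpow hT1' (by norm_num)
  have hH0 : 0 < H := lt_of_lt_of_le (by positivity) hH
  have h2 := Msaux.om_R_le S r (τ := τ) (N := 1) (Y := T ^ (1 / 8 : ℝ)) hH0 hK hS.smo le_rfl
    (by simp)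
  have h3 : T ^ (1 / 8 : ℝ) * Real.exp (-(H ^ 2) / (8 * (T ^ (1 / 8 : ℝ)) ^ 2)) ≤ 1 := by
    have h4 : T ≤ H ^ 2 / (T ^ (1 / 8 : ℝ)) ^ 2 := by
      rw [le_div_iff₀ (by positivity), ← Real.rpow_natCast, ← Real.rpow_mul hT0.le]
      calc T * T ^ (1 / 8 * ((2 : ℕ) : ℝ)) = T ^ (1 + 1 / 8 * ((2 : ℕ) : ℝ)) := by
            rw [Real.rpow_add hT0, Real.rpow_one]
        _ ≤ T ^ (7 / 8 * ((2 : ℕ) : ℝ)) := by
            apply Real.rpow_le_rpow_of_exponent_le hT1'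
            norm_num
        _ = (T ^ (7 / 8 : ℝ)) ^ 2 := by rw [Real.rpow_mul hT0.le, Real.rpow_natCast]
        _ ≤ H ^ 2 := pow_le_pow_left₀ (by positivity) hH 2
    have h5 : -(H ^ 2) / (8 * (T ^ (1 / 8 : ℝ)) ^ 2) ≤ -(T / 8) := by
      have e : -(H ^ 2) / (8 * (T ^ (1 / 8 : ℝ)) ^ 2) = -(H ^ 2 / (T ^ (1 / 8 : ℝ)) ^ 2 / 8) := by
        rw [neg_div, div_div, mul_comm (8 : ℝ)]
      rw [e]
      linarith
    have h6 : T ^ (1 / 8 : ℝ) ≤ T := by
      calc T ^ (1 / 8 : ℝ) ≤ T ^ (1 : ℝ) :=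
            Real.rpow_le_rpow_of_exponent_le hT1' (by norm_num)
        _ = T := Real.rpow_one T
    calc T ^ (1 / 8 : ℝ) * Real.exp (-(H ^ 2) / (8 * (T ^ (1 / 8 : ℝ)) ^ 2)) ≤
        T * Real.exp (-(T / 8)) := by
          gcongr
      _ = Real.exp (Real.log T) * Real.exp (-(T / 8)) := by rw [Real.exp_log hT0]
      _ = Real.exp (Real.log T - T / 8) := by rw [← Real.exp_add]; ring_nf
      _ ≤ 1 := Real.exp_le_one_iff.2 (by linarith)
  have hw := w1_nonneg S r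
  refine h2.trans ?_
  unfold mr
  calc Real.sqrt (2 * Real.pi) * H * (w1 S r * (1 + T ^ (1 / 8 : ℝ) *
        Real.exp (-(H ^ 2) / (8 * (T ^ (1 / 8 : ℝ)) ^ 2)))) ≤
      Real.sqrt (2 * Real.pi) * H * (w1 S r * (1 + 1)) := by gcongr
    _ = _ := by ring

/-- the tails of the Gaussian -/
lemma om_tail {τ H Λ t : ℝ} (hH : 0 < H) (hΛ : 0 ≤ Λ) (ht : Λ * H ≤ |t - τ|) :
    om τ H t ≤ Real.exp (-(Λ ^ 2 / 4)) * om τ (Real.sqrt 2 * H) t := by
  unfold om
  rw [← Real.exp_add]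
  apply Real.exp_le_exp.2
  have h1 : Λ ^ 2 * H ^ 2 ≤ (t - τ) ^ 2 := by
    rw [← mul_pow, ← sq_abs (t - τ)]
    exact pow_le_pow_left₀ (by positivity) ht 2
  have h2 : Λ ^ 2 ≤ (t - τ) ^ 2 / H ^ 2 := by
    rw [le_div_iff₀ (by positivity)]
    exact h1
  have h3 : (Real.sqrt 2 * H) ^ 2 = 2 * H ^ 2 := by
    rw [mul_pow, Real.sq_sqrt (by norm_num)]
  rw [h3]
  have e1 : -(t - τ) ^ 2 / (2 * H ^ 2) = -((t - τ) ^ 2 / H ^ 2) / 2 := by
    rw [neg_div, neg_div, div_div, mul_comm]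
  have e2 : -(t - τ) ^ 2 / (2 * (2 * H ^ 2)) = -((t - τ) ^ 2 / H ^ 2) / 4 := by
    rw [neg_div, neg_div, div_div, ← mul_assoc, mul_comm]
    norm_num
  rw [e1, e2]
  linarith

lemma tail_int {τ H Λ : ℝ} (hH : 0 < H) (hΛ : 0 ≤ Λ) {f : ℝ → ℂ} (hf : Continuous f) {B : ℝ}
    (hB : ∀ t, ‖f t‖ ≤ B) {A A' : ℝ} (hA : A ≤ τ - Λ * H) (hA' : τ + Λ * H ≤ A') :
    ‖(∫ t, (om τ H t : ℂ) * f t) - ∫ t in A..A', (om τ H t : ℂ) * f t‖ ≤
      B * (Real.exp (-(Λ ^ 2 / 4)) * (2 * (Real.sqrt (2 * Real.pi) * H))) := by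
  have hB0 : 0 ≤ B := (norm_nonneg _).trans (hB 0)
  have hAA : A ≤ A' := by
    have : 0 ≤ Λ * H := by positivity
    linarith
  have hg : Integrable (fun t => (om τ H t : ℂ) * f t) := by
    refine ((om_integrable τ H hH).mul_const B).mono'
      ((Complex.continuous_ofReal.comp (om_cont τ H)).mul hf).aestronglyMeasurable
      (Eventually.of_forall fun t => ?_)
    rw [norm_mul, Complex.norm_real, Real.norm_of_nonneg (om_pos τ H t).le]
    exact mul_le_mul_of_nonneg_left (hB t) (om_pos τ H t).le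
  have hs2 : 0 < Real.sqrt 2 * H := by positivity
  have hom2 := (om_integrable τ (Real.sqrt 2 * H) hs2)
  have e1 := integral_add_compl (measurableSet_Ioc (a := A) (b := A')) hg
  rw [intervalIntegral.integral_of_le hAA, ← e1, add_sub_cancel_left]
  refine (norm_integral_le_integral_norm _).trans ?_
  have hi2 : Integrable (fun t => Real.exp (-(Λ ^ 2 / 4)) * om τ (Real.sqrt 2 * H) t * B) :=
    (hom2.const_mul _).mul_const _
  calc ∫ t in (Set.Ioc A A')ᶜ, ‖(om τ H t : ℂ) * f t‖ ≤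
      ∫ t in (Set.Ioc A A')ᶜ, Real.exp (-(Λ ^ 2 / 4)) * om τ (Real.sqrt 2 * H) t * B := by
        apply setIntegral_mono_on hg.norm.integrableOn hi2.integrableOn
          measurableSet_Ioc.compl
        intro t ht
        rw [norm_mul, Complex.norm_real, Real.norm_of_nonneg (om_pos τ H t).le]
        apply mul_le_mul _ (hB t) (norm_nonneg _)
          (mul_nonneg (Real.exp_pos _).le (om_pos _ _ _).le)
        apply om_tail hH hΛ
        rw [Set.mem_compl_iff, Set.mem_Ioc, not_and_or, not_lt, not_le] at ht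
        rcases ht with ht | ht
        · rw [abs_sub_comm]
          exact le_trans (by linarith) (le_abs_self _)
        · exact le_trans (by linarith) (le_abs_self _)
    _ ≤ ∫ t, Real.exp (-(Λ ^ 2 / 4)) * om τ (Real.sqrt 2 * H) t * B := by
        apply setIntegral_le_integral hi2
        refine Eventually.of_forall fun t => ?_
        have := (om_pos τ (Real.sqrt 2 * H) t).le
        simp only [Pi.zero_apply]
        positivity
    _ = B * (Real.exp (-(Λ ^ 2 / 4)) * (Real.sqrt (2 * Real.pi) * (Real.sqrt 2 * H))) := by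
        rw [integral_mul_const, integral_const_mul, om_integral τ _ hs2]
        ring
    _ ≤ _ := by
        have h2 : Real.sqrt 2 ≤ 2 := by
          rw [Real.sqrt_le_left (by norm_num)]
          norm_num
        have h3 : Real.sqrt (2 * Real.pi) * (Real.sqrt 2 * H) ≤
            2 * (Real.sqrt (2 * Real.pi) * H) := by
          calc Real.sqrt (2 * Real.pi) * (Real.sqrt 2 * H) =
              Real.sqrt 2 * (Real.sqrt (2 * Real.pi) * H) := by ring
            _ ≤ _ := by gcongr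
        gcongr

/-- the trivial bound for the prime side -/
lemma pd_triv {b : ℝ} {W : ℂ → ℂ} {w : ℝ → ℂ} (hW : BW b W w) {a : ℕ → ℂ}
    (ha : ∀ n, ‖a n‖ ≤ ArithmeticFunction.vonMangoldt n) (X : ℕ) {ℓ : ℝ} (hℓ : 0 ≤ ℓ) (ξ t : ℝ) :
    ‖PD a X w ℓ ξ t‖ ≤ (ℓ + 24 * Real.sqrt X) * Real.sqrt (q2 w) := by
  have h0 := sum_lam_le X
  have hq := Real.sqrt_nonneg (q2 w)
  unfold PD
  have e1 : ‖(ℓ : ℂ) * gs w ξ‖ ≤ ℓ * Real.sqrt (q2 w) := by
    rw [norm_mul, Complex.norm_real, Real.norm_of_nonneg hℓ]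
    exact mul_le_mul_of_nonneg_left (Msaux.gs_norm_le hW _) hℓ
  have key : ∀ c : ℕ → ℂ, (∀ n, ‖c n‖ ≤ TC.lam n * Real.sqrt (q2 w)) →
      ‖∑ n ∈ Finset.Icc 1 X, c n‖ ≤ 12 * Real.sqrt X * Real.sqrt (q2 w) := by
    intro c hc
    refine (norm_sum_le _ _).trans ((Finset.sum_le_sum fun n _ => hc n).trans ?_)
    rw [← Finset.sum_mul]
    exact mul_le_mul_of_nonneg_right h0 hq
  have e2 := key (fun n => a n * (Real.sqrt n : ℂ)⁻¹ * gs w (ξ - Real.log n) * mn n 1 t)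
    (fun n => by
      rw [norm_mul, norm_mul, mn_norm, mul_one]
      exact mul_le_mul (Msaux.lam_coef ha n) (Msaux.gs_norm_le hW _) (norm_nonneg _)
        (TC.lam_nonneg n))
  have e3 := key (fun n => conj (a n) * (Real.sqrt n : ℂ)⁻¹ * gs w (ξ + Real.log n) * mn 1 n t)
    (fun n => by
      rw [norm_mul, norm_mul, mn_norm, mul_one]
      exact mul_le_mul (Msaux.lam_coef (a := fun n => conj (a n))
        (fun n => by rw [RCLike.norm_conj]; exact ha n) n) (Msaux.gs_norm_le hW _) (norm_nonneg _)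
        (TC.lam_nonneg n))
  refine (norm_sub_le _ _).trans ?_
  refine (add_le_add (norm_sub_le _ _) le_rfl).trans ?_
  linarith

end Pool.Agent.N802.U
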