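import Pool.Agent.H370R2.PC
import Pool.Agent.TH803.UC.Dyad
import Pool.Agent.N802.Int
import Pool.Agent.N802.Blk4

/-!
# Simple critical zeros at prescribed phases, without hypothesis: definitions and statements
-/

open Complex Filter Topology Set MeasureTheory
open scoped BigOperators ComplexConjugate

namespace Pool.Agent.N802.U

open H370 TC

/-- `W` is the Fourier transform of a bounded density `w` supported in `[-b, b]` -/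
structure BW (b : ℝ) (W : ℂ → ℂ) (w : ℝ → ℂ) : Prop where
  meas : Measurable w
  bdd : ∃ M : ℝ, ∀ v, ‖w v‖ ≤ M
  sup : ∀ v, b < |v| → w v = 0
  rep : ∀ z : ℂ, W z = ∫ v : ℝ, w v * cexp (I * v * z)

/-- the kernel: a power of `sin x / x`, normalised -/
def S_kern : Prop := ∀ (b : ℝ) (n : ℕ), 0 < b → 1 ≤ n → ∃ (J : ℂ → ℂ) (j : ℝ → ℂ), BW b J j ∧
  (∀ x : ℝ, (J x).im = 0 ∧ 0 ≤ (J x).re) ∧
  Integrable (fun x : ℝ => (J x).re) ∧ (∫ x : ℝ, (J x).re) = 1 ∧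
  (∀ X : ℝ, 0 < X → ∫ x in {x : ℝ | X ≤ |x|}, (J x).re ≤ 2 * (2 * n / (b * X)) ^ (2 * n - 1)) ∧
  ∀ z : ℂ, ‖J z‖ ≤ b / 2 * Real.exp (b * |z.im|)

/-- the window -/
def S_win : Prop := ∀ (b s h : ℝ) (n : ℕ), 0 < b → 0 < s → 0 < h → 1 ≤ n →
  ∃ (G : ℂ → ℂ) (g : ℝ → ℂ), BW b G g ∧
  (∀ z : ℂ, G (conj z) = conj (G z)) ∧
  (∀ x : ℝ, 0 ≤ (G x).re ∧ (G x).re ≤ 1) ∧
  Integrable (fun x : ℝ => (G x).re) ∧ (∫ x : ℝ, (G x).re) ≤ 2 * (h + s) ∧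
  (∀ z : ℂ, |z.im| ≤ s → ‖G z‖ ≤ 1) ∧
  (∀ (z : ℂ) (X : ℝ), |z.im| ≤ s → 0 < X → ‖G z‖ ≤
    Real.exp (-(Real.exp ((|z.re| - X - h) / s) / 2)) + 2 * (2 * n / (b * X)) ^ (2 * n - 1)) ∧
  (∀ (z : ℂ) (X : ℝ), |z.im| ≤ s → 0 < X → ‖G z - 1‖ ≤
    2 * Real.exp ((|z.re| + X - h) / s) + 4 * (2 * n / (b * X)) ^ (2 * n - 1)) ∧
  (∀ (z : ℂ) (κ θ : ℝ), 0 < κ → κ ≤ 1 → |z.im| ≤ κ * s → |θ| ≤ Real.pi / 4 →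
    -Real.exp (-(1 / (3 * κ))) ≤ (G z * cexp (I * θ)).re) ∧
  ∀ z : ℂ, ‖G z‖ ≤ (h + s) * b * Real.exp (b * |z.im|)

/-- Gaussian smoothing of a density -/
noncomputable def gs (w : ℝ → ℂ) (x : ℝ) : ℂ :=
  ((1 / Real.sqrt (2 * Real.pi) : ℝ) : ℂ) * ∫ v : ℝ, w v * (Real.exp (-(x + v) ^ 2 / 2) : ℝ)

/-- the `L²` norm of the density, squared -/
noncomputable def q2 (w : ℝ → ℂ) : ℝ := ∫ v : ℝ, ‖w v‖ ^ 2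

/-- the square of a band-limited function -/
def S_sq : Prop := ∀ (b : ℝ) (G : ℂ → ℂ) (g : ℝ → ℂ), 0 < b → BW b G g →
  ∃ w : ℝ → ℂ, BW (2 * b) (fun z => G z ^ 2) w

/-- Plancherel -/
def S_pl : Prop := ∀ (b : ℝ) (W : ℂ → ℂ) (w : ℝ → ℂ), 0 < b → BW b W w →
  Integrable (fun x : ℝ => ‖W x‖ ^ 2) ∧ 2 * Real.pi * q2 w = ∫ x : ℝ, ‖W x‖ ^ 2

/-- the smoothed density as a Fourier integral -/
def S_gs : Prop := ∀ (b : ℝ) (W : ℂ → ℂ) (w : ℝ → ℂ), 0 < b → BW b W w → ∀ x : ℝ,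
  gs w x = ((1 / (2 * Real.pi) : ℝ) : ℂ) * ∫ y : ℝ, (Real.exp (-y ^ 2 / 2) : ℝ) *
    (cexp (I * x * y) * W y)

/-- the local exponential sum over the zeros -/
noncomputable def SS (F : ℂ → ℂ) (U1 U2 : ℝ) (W : ℂ → ℂ) (ξ t : ℝ) : ℂ :=
  ∑ s ∈ Zf F U1 U2, (mult F s : ℂ) *
    (cexp (I * ξ * zz s) * (W (zz s - t) * cexp (-(zz s - t) ^ 2 / 2)))

/-- the prime side -/
noncomputable def PD (a : ℕ → ℂ) (X : ℕ) (w : ℝ → ℂ) (ℓ ξ t : ℝ) : ℂ :=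
  ℓ * gs w ξ - ∑ n ∈ Finset.Icc 1 X, a n * (Real.sqrt n : ℂ)⁻¹ * gs w (ξ - Real.log n) * mn n 1 t -
    ∑ n ∈ Finset.Icc 1 X, conj (a n) * (Real.sqrt n : ℂ)⁻¹ * gs w (ξ + Real.log n) * mn 1 n t

/-- the explicit formula for band-limited windows; `X = T ^ (1 - η)` -/
def S_ef (F : ℂ → ℂ) : Prop :=
  ∃ (a : ℕ → ℂ) (C : ℝ), (∀ n, ‖a n‖ ≤ ArithmeticFunction.vonMangoldt n) ∧ 0 < C ∧
  ∀ η : ℝ, 0 < η → η < 1 / 4 → ∃ T0 : ℝ, 10 ≤ T0 ∧ ∀ T : ℝ, T0 ≤ T →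
  ∃ U1 U2 : ℝ, T ≤ U1 ∧ U1 ≤ T + 1 ∧ 2 * T - 1 ≤ U2 ∧ U2 ≤ 2 * T ∧
  ∀ (b : ℝ) (W : ℂ → ℂ) (w : ℝ → ℂ), BW b W w → ∀ ξ t : ℝ, |ξ| + b ≤ (1 - 2 * η) * Real.log T →
    T + Real.log T ≤ t → t ≤ 2 * T - Real.log T →
    ‖SS F U1 U2 W ξ t - cexp (I * ξ * t) * PD a ⌊T ^ (1 - η)⌋₊ w (Real.log T) ξ t‖ ≤
      C * Real.sqrt (q2 w)

/-- the weight -/
noncomputable def rho (T : ℝ) (S : Finset ℕ) (r : ℕ → ℂ) (t : ℝ) : ℝ :=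
  om (3 / 2 * T) (T / Real.log T) t * ‖RP S r t‖ ^ 2

/-- its total mass (approximately) -/
noncomputable def nr (T : ℝ) (S : Finset ℕ) (r : ℕ → ℂ) : ℝ :=
  Real.sqrt (2 * Real.pi) * (T / Real.log T) * w1 S r

/-- the mean square of the prime side, weighted by `|R|²` -/
def S_ms : Prop := ∀ ε : ℝ, 0 < ε → ∃ η1 : ℝ, 0 < η1 ∧ η1 < 1 / 8 ∧ ∀ η : ℝ, 0 < η → η ≤ η1 →
  ∃ δ T0 : ℝ, 0 < δ ∧ 10 ≤ T0 ∧ ∀ T : ℝ, T0 ≤ T →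
  ∀ a : ℕ → ℂ, (∀ n, ‖a n‖ ≤ ArithmeticFunction.vonMangoldt n) →
  ∀ S : Finset ℕ, Smo S (T ^ δ) (δ * Real.log T ^ 2) → ∀ r : ℕ → ℂ,
  ∀ (b : ℝ) (W : ℂ → ℂ) (w : ℝ → ℂ), BW b W w → 0 < b → b ≤ η * Real.log T →
    (∀ x : ℝ, (W x).im = 0) →
    ∫ t : ℝ, rho T S r t * (2 * ∫ α in (0 : ℝ)..1, Rf α *
      ‖PD a ⌊T ^ (1 - η)⌋₊ w (Real.log T) ((1 - 4 * η) * Real.log T * α) t‖ ^ 2) ≤
    nr T S r * (Real.log T * q2 w * (cMTinv + ε))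

/-- the first moment of the prime side, weighted by `|R|²` -/
def S_fm : Prop := ∀ ε : ℝ, 0 < ε → ∀ η : ℝ, 0 < η → η < 1 / 4 →
  ∃ δ T0 : ℝ, 0 < δ ∧ 10 ≤ T0 ∧ ∀ T : ℝ, T0 ≤ T →
  ∀ a : ℕ → ℂ, (∀ n, ‖a n‖ ≤ ArithmeticFunction.vonMangoldt n) →
  ∀ S : Finset ℕ, Smo S (T ^ δ) (δ * Real.log T ^ 2) → ∀ r : ℕ → ℂ,
  ∀ (b : ℝ) (W : ℂ → ℂ) (w : ℝ → ℂ), BW b W w → 0 < b → b ≤ Real.log T →
    ‖(∫ t in (5 / 4 * T)..(7 / 4 * T), (rho T S r t : ℂ) *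
        PD a ⌊T ^ (1 - η)⌋₊ w (Real.log T) 0 t) - ((nr T S r * Real.log T : ℝ) : ℂ) * gs w 0‖ ≤
    ε * (nr T S r * (Real.log T * ∫ x : ℝ, ‖W x‖ * Real.exp (-x ^ 2 / 2)))

open Classical in
/-- the number of simple zeros on the critical line with ordinate within `h` of `t` -/
noncomputable def x1 (F : ℂ → ℂ) (U1 U2 h t : ℝ) : ℝ :=
  (((Zf F U1 U2).filter (fun s => |s.im - t| ≤ h ∧ s.re = 1 / 2 ∧ mult F s = 1)).card : ℝ)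

open Classical in
/-- the number of zeros with ordinate within `h` of `t` -/
noncomputable def na (F : ℂ → ℂ) (U1 U2 h t : ℝ) : ℝ :=
  ∑ s ∈ (Zf F U1 U2).filter (fun s => |s.im - t| ≤ h), (mult F s : ℝ)

open Classical in
/-- the cost of a zero -/
noncomputable def cost (G : ℂ → ℂ) (A ℓ h t : ℝ) (s : ℂ) : ℝ :=
  if A < |(zz s).im| * ℓ ∧ |s.im - t| ≤ ℓ then
      12 * ‖G (zz s - t) ^ 2 * cexp (-(zz s - t) ^ 2 / 2)‖ + 4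
  else if h < |s.im - t| then 16 * Real.exp (|(zz s).im| * ℓ) *
      ‖G (zz s - t) ^ 2 * cexp (-(zz s - t) ^ 2 / 2)‖ else 0

/-- the inequality at one point `t` -/
def S_count : Prop := ∀ (F : ℂ → ℂ), GoodL F → ∀ (U1 U2 : ℝ), 1 ≤ U1 → ∀ (G : ℂ → ℂ),
  (∀ z : ℂ, G (conj z) = conj (G z)) → (∀ x : ℝ, ‖G x‖ ≤ 1) → ∀ (Λ ℓ A h t : ℝ), 0 ≤ Λ → Λ ≤ ℓ →
  0 ≤ A → 0 ≤ h →
  4 * (SS F U1 U2 (fun z => G z ^ 2) 0 t).re - 2 * na F U1 U2 h t -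
    2 * (∫ α in (0 : ℝ)..1, Rf α * ‖SS F U1 U2 (fun z => G z ^ 2) (Λ * α) t‖ ^ 2) -
    ∑ s ∈ Zf F U1 U2, (mult F s : ℝ) * cost G A ℓ h t s ≤ x1 F U1 U2 h t

/-- the theorem about the resonators with few terms; `F` is the zeta function, for example -/
def S_core (F : ℂ → ℂ) : Prop := ∀ ε c : ℝ, 0 < ε → ε < 1 → 0 < c → c ≤ 1 →
  ∃ δ c2 T0 : ℝ, 0 < δ ∧ 0 < c2 ∧ 10 ≤ T0 ∧ ∀ T : ℝ, T0 ≤ T →
  ∃ U1 U2 : ℝ, T ≤ U1 ∧ U1 ≤ T + 1 ∧ 2 * T - 1 ≤ U2 ∧ U2 ≤ 2 * T ∧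
  ∀ S : Finset ℕ, Smo S (T ^ δ) (δ * Real.log T ^ 2) → ∀ r : ℕ → ℂ,
  (∀ t, ‖RP S r t‖ ^ 2 ≤
    Real.exp (c2 * (Real.log T / Real.log (Real.log T) ^ 3)) * w1 S r) →
  (0.6725 - ε) * (nr T S r * (c / Real.log (Real.log T) * Real.log T / Real.pi)) ≤
    ∫ t in (5 / 4 * T)..(7 / 4 * T), rho T S r t * x1 F U1 U2 (c / Real.log (Real.log T)) t

end Pool.Agent.N802.U
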