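import Pool.Agent.N802.U.Stm

/-!
# All Dirichlet polynomials: statements

The statements of `Stm.lean` for Dirichlet polynomials with arbitrary coefficients (no smoothness
of the support), Gaussian weights of arbitrary centre and width.
-/

open Complex Filter Topology Set MeasureTheory
open scoped BigOperators ComplexConjugate

namespace Pool.Agent.N802.U

open H370 TC

/-- the elements of `S` lie between `1` and `K` -/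
def Len (S : Finset ℕ) (K : ℝ) : Prop := ∀ k ∈ S, 1 ≤ k ∧ (k : ℝ) ≤ K

/-- the weight with centre `τ` and width `H` -/
noncomputable def rh (τ H : ℝ) (S : Finset ℕ) (r : ℕ → ℂ) (t : ℝ) : ℝ :=
  om τ H t * ‖RP S r t‖ ^ 2

/-- its total mass (approximately) -/
noncomputable def mr (H : ℝ) (S : Finset ℕ) (r : ℕ → ℂ) : ℝ :=
  Real.sqrt (2 * Real.pi) * H * w1 S r

/-- Chebyshev bounds for the smoothed density -/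
def S_ch : Prop := ∃ C : ℝ, 1 ≤ C ∧ ∀ (b : ℝ) (W : ℂ → ℂ) (w : ℝ → ℂ), 0 < b → BW b W w →
  Integrable (fun x : ℝ => ‖gs w x‖) ∧ (∫ x : ℝ, ‖gs w x‖) ≤ C * Real.sqrt (b * q2 w) ∧
  ∀ (X : ℕ) (u : ℝ) (x : ℕ → ℝ), ((∀ n, x n = u - Real.log n) ∨ (∀ n, x n = u + Real.log n)) →
  (∑ n ∈ Finset.Icc 1 X, ArithmeticFunction.vonMangoldt n / n * ‖gs w (x n)‖ ≤
    C * Real.sqrt (b * q2 w)) ∧
  (∑ n ∈ Finset.Icc 1 X, ArithmeticFunction.vonMangoldt n / n * ‖gs w (x n)‖ ^ 2 ≤ C * q2 w) ∧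
  (∑ n ∈ (Finset.Icc 1 X).filter (fun n => ¬ n.Prime), TC.lam n * ‖gs w (x n)‖ ≤
    C * Real.sqrt (b * q2 w))

/-- the mean square of the prime side, weighted by `|R|²` -/
def S_ms2 : Prop := ∀ ε : ℝ, 0 < ε → ∃ η1 : ℝ, 0 < η1 ∧ η1 < 1 / 8 ∧ ∀ η : ℝ, 0 < η → η ≤ η1 →
  ∃ δ T0 : ℝ, 0 < δ ∧ 10 ≤ T0 ∧ ∀ T : ℝ, T0 ≤ T →
  ∀ a : ℕ → ℂ, (∀ n, ‖a n‖ ≤ ArithmeticFunction.vonMangoldt n) →
  ∀ S : Finset ℕ, Len S (T ^ δ) → ∀ r : ℕ → ℂ,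
  ∀ (b : ℝ) (W : ℂ → ℂ) (w : ℝ → ℂ), BW b W w → 0 < b → b ≤ η * Real.log T →
    (∀ x : ℝ, (W x).im = 0) → ∀ τ H : ℝ, T ^ (1 - δ) ≤ H →
    ∫ t : ℝ, rh τ H S r t * (2 * ∫ α in (0 : ℝ)..1, Rf α *
      ‖PD a ⌊T ^ (1 - η)⌋₊ w (Real.log T) ((1 - 4 * η) * Real.log T * α) t‖ ^ 2) ≤
    mr H S r * (Real.log T * q2 w * (cMTinv + ε))

/-- the first moment of the prime side, weighted by `|R|²` -/
def S_fm2 : Prop := ∀ η : ℝ, 0 < η → η < 1 / 4 →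
  ∃ δ T0 C : ℝ, 0 < δ ∧ 10 ≤ T0 ∧ 0 < C ∧ ∀ T : ℝ, T0 ≤ T →
  ∀ a : ℕ → ℂ, (∀ n, ‖a n‖ ≤ ArithmeticFunction.vonMangoldt n) →
  ∀ S : Finset ℕ, Len S (T ^ δ) → ∀ r : ℕ → ℂ,
  ∀ (b : ℝ) (W : ℂ → ℂ) (w : ℝ → ℂ), BW b W w → 0 < b → b ≤ Real.log T →
    ∀ τ H : ℝ, T ^ (1 - δ) ≤ H →
    ‖(∫ t : ℝ, (rh τ H S r t : ℂ) * PD a ⌊T ^ (1 - η)⌋₊ w (Real.log T) 0 t) -
      ((mr H S r * Real.log T : ℝ) : ℂ) * gs w 0‖ ≤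
    C * (mr H S r * Real.sqrt (Real.log T * q2 w))

/-- the theorem about all Dirichlet polynomials; `F` is the zeta function, for example -/
def S_core2 (F : ℂ → ℂ) : Prop := ∀ ε c : ℝ, 0 < ε → ε < 1 → 0 < c → c ≤ 1 →
  ∃ δ c2 T0 : ℝ, 0 < δ ∧ 0 < c2 ∧ 10 ≤ T0 ∧ ∀ T : ℝ, T0 ≤ T →
  ∃ U1 U2 : ℝ, T ≤ U1 ∧ U1 ≤ T + 1 ∧ 2 * T - 1 ≤ U2 ∧ U2 ≤ 2 * T ∧
  ∀ S : Finset ℕ, Len S (T ^ δ) → ∀ r : ℕ → ℂ,
  (∀ t, ‖RP S r t‖ ^ 2 ≤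
    Real.exp (c2 * (Real.log T / Real.log (Real.log T) ^ 3)) * w1 S r) →
  ∀ τ H : ℝ, T * Real.exp (-(c2 * (Real.log T / Real.log (Real.log T) ^ 3))) ≤ H →
    T + Real.log T * (H + 1) ≤ τ → τ ≤ 2 * T - Real.log T * (H + 1) →
  (0.6725 - ε) * (mr H S r * (c / Real.log (Real.log T) * Real.log T / Real.pi)) ≤
    (∫ t in (T + Real.log T)..(2 * T - Real.log T), rh τ H S r t *
      x1 F U1 U2 (c / Real.log (Real.log T)) t) ∧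
  (∫ t in (T + Real.log T)..(2 * T - Real.log T), rh τ H S r t *
      na F U1 U2 (c / Real.log (Real.log T)) t) ≤
    (1 + ε) * (mr H S r * (c / Real.log (Real.log T) * Real.log T / Real.pi))

/-- the mean of `|R|²` around `g` -/
noncomputable def Mh (S : Finset ℕ) (r : ℕ → ℂ) (h g : ℝ) : ℝ :=
  (1 / (2 * h)) * ∫ t in (g - h)..(g + h), ‖RP S r t‖ ^ 2

open Classical in
/-- the theorem about the zeros in `(T, T + K]` -/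
def S_sharp (F : ℂ → ℂ) : Prop := ∀ ε c : ℝ, 0 < ε → ε < 1 → 0 < c → c ≤ 1 →
  ∃ δ T0 : ℝ, 0 < δ ∧ 10 ≤ T0 ∧ ∀ T : ℝ, T0 ≤ T → ∀ K : ℝ,
  T * Real.exp (-(δ * (Real.log T / Real.log (Real.log T) ^ 3))) ≤ K → K ≤ T / 2 →
  ∀ S : Finset ℕ, Len S (T ^ δ) → ∀ r : ℕ → ℂ,
  (∀ t, ‖RP S r t‖ ^ 2 ≤
    Real.exp (δ * (Real.log T / Real.log (Real.log T) ^ 3)) * w1 S r) →
  (0.6725 - ε) * (K / (2 * Real.pi) * Real.log T * w1 S r) ≤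
    (∑ s ∈ (Zf F T (T + K)).filter (fun s => s.re = 1 / 2 ∧ mult F s = 1),
      Mh S r (c / Real.log (Real.log T)) s.im) ∧
  (∑ s ∈ Zf F T (T + K), (mult F s : ℝ) * Mh S r (c / Real.log (Real.log T)) s.im) ≤
    (1 + ε) * (K / (2 * Real.pi) * Real.log T * w1 S r)

end Pool.Agent.N802.U
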