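import Pool.Agent.N802.U.Stm4

/-!
# Dirichlet polynomials at the zeros themselves: statement
-/

open Complex Filter Topology Set MeasureTheory
open scoped BigOperators ComplexConjugate

namespace Pool.Agent.N802.U

open H370 TC

open Classical in
/-- Dirichlet polynomials with frequencies in a finite set `S` of integers `≤ N`, where
`log N (log |S| + loglog T)` is small compared with `log T / (loglog T) ^ 2`, at the zeros -/
def S_direct5 (F : ℂ → ℂ) : Prop := ∀ ε : ℝ, 0 < ε → ε < 1 →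
  ∃ δ T0 : ℝ, 0 < δ ∧ 10 ≤ T0 ∧ ∀ T : ℝ, T0 ≤ T → ∀ N : ℝ, 1 ≤ N →
  ∀ S : Finset ℕ, Len S N →
  (1 + Real.log N) * (Real.log S.card + Real.log (Real.log T)) * Real.log (Real.log T) ^ 2 ≤
    δ * Real.log T →
  ∀ K : ℝ, T * Real.exp (-(δ * (Real.log T / ((1 + Real.log N) *
    Real.log (Real.log T) ^ 2)))) ≤ K → K ≤ T / 2 → ∀ r : ℕ → ℂ,
  (0.6725 - ε) * (K / (2 * Real.pi) * Real.log T * w1 S r) ≤
    (∑ s ∈ (Zf F T (T + K)).filter (fun s => s.re = 1 / 2 ∧ mult F s = 1),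
      ‖RP S r s.im‖ ^ 2) ∧
  (∑ s ∈ Zf F T (T + K), (mult F s : ℝ) * ‖RP S r s.im‖ ^ 2) ≤
    (1 + ε) * (K / (2 * Real.pi) * Real.log T * w1 S r) ∧
  (1 - ε) * (K / (2 * Real.pi) * Real.log T * w1 S r) ≤
    (∑ s ∈ Zf F T (T + K), (mult F s : ℝ) * ‖RP S r s.im‖ ^ 2)

end Pool.Agent.N802.U
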