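import Pool.Agent.N802.U.Par

/-! # The two windows -/

open Complex Filter Topology Set MeasureTheory
open scoped BigOperators ComplexConjugate

namespace Pool.Agent.N802.U

/-- the properties in `S_win` -/
structure WinP (b s h : ℝ) (n : ℕ) (G : ℂ → ℂ) (g : ℝ → ℂ) : Prop where
  bw : BW b G g
  cj : ∀ z : ℂ, G (conj z) = conj (G z)
  re01 : ∀ x : ℝ, 0 ≤ (G x).re ∧ (G x).re ≤ 1
  ig : Integrable (fun x : ℝ => (G x).re)
  il : (∫ x : ℝ, (G x).re) ≤ 2 * (h + s)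
  le1 : ∀ z : ℂ, |z.im| ≤ s → ‖G z‖ ≤ 1
  out : ∀ (z : ℂ) (X : ℝ), |z.im| ≤ s → 0 < X → ‖G z‖ ≤
    Real.exp (-(Real.exp ((|z.re| - X - h) / s) / 2)) + 2 * (2 * n / (b * X)) ^ (2 * n - 1)
  inn : ∀ (z : ℂ) (X : ℝ), |z.im| ≤ s → 0 < X → ‖G z - 1‖ ≤
    2 * Real.exp ((|z.re| + X - h) / s) + 4 * (2 * n / (b * X)) ^ (2 * n - 1)
  ph : ∀ (z : ℂ) (κ θ : ℝ), 0 < κ → κ ≤ 1 → |z.im| ≤ κ * s → |θ| ≤ Real.pi / 4 →
    -Real.exp (-(1 / (3 * κ))) ≤ (G z * cexp (I * θ)).re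
  cr : ∀ z : ℂ, ‖G z‖ ≤ (h + s) * b * Real.exp (b * |z.im|)

lemma winp (hwin : S_win) (b s h : ℝ) (n : ℕ) (hb : 0 < b) (hs : 0 < s) (hh : 0 < h) (hn : 1 ≤ n) :
    ∃ (G : ℂ → ℂ) (g : ℝ → ℂ), WinP b s h n G g := by
  obtain ⟨G, g, g1, g2, g3, g4, g5, g6, g7, g8, g9, g10⟩ := hwin b s h n hb hs hh hn
  exact ⟨G, g, ⟨g1, g2, g3, g4, g5, g6, g7, g8, g9, g10⟩⟩

/-- what is used about the two windows -/
structure Two (η L h A : ℝ) (G : ℂ → ℂ) (w : ℝ → ℂ) (Gp : ℂ → ℂ) (gp : ℝ → ℂ) : Prop where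
  bw : BW (η * L) (fun z => G z ^ 2) w
  cj : ∀ z : ℂ, G (conj z) = conj (G z)
  le1 : ∀ x : ℝ, ‖G x‖ ≤ 1
  q : q2 w ≤ h / Real.pi
  lo : (1 - η) * (h / Real.pi) ≤ (gs w 0).re
  i1 : ∫ x : ℝ, ‖G x ^ 2‖ * Real.exp (-x ^ 2 / 2) ≤ 3 * h
  bwp : BW (η * L / 2) Gp gp
  qp : q2 gp ≤ h
  hi : (gs gp 0).re ≤ (1 + η) * (h / Real.pi)
  i1p : ∫ x : ℝ, ‖Gp x‖ * Real.exp (-x ^ 2 / 2) ≤ 3 * h
  out : ∀ z : ℂ, |z.im| * L ≤ A → h ≤ |z.re| → ‖G z‖ ≤ Real.exp (-4 * A)
  inp : ∀ z : ℂ, |z.im| * L ≤ A → |z.re| ≤ h → 1 - η ≤ (Gp z * cexp (-z ^ 2 / 2)).re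
  outp : ∀ z : ℂ, |z.im| * L ≤ A → -(4 / L ^ 3 * Real.exp (-z.re ^ 2 / 2)) ≤
    (Gp z * cexp (-z ^ 2 / 2)).re
  cr : ∀ z : ℂ, ‖G z‖ ≤ L * Real.exp (η * L / 2 * |z.im|)
  crp : ∀ z : ℂ, ‖Gp z‖ ≤ L * Real.exp (η * L / 2 * |z.im|)

section

variable {η L h A b s r X : ℝ} {n : ℕ}

lemma Par.im_le (hP : Par η L h A b s r X n) {z : ℂ} (hz : |z.im| * L ≤ A) :
    |z.im| ≤ 1 / (9 * Real.log L) * s := by
  have hL : 0 < L := by linarith [hP.L1]
  have hl : 0 < Real.log L := by linarith [hP.l1]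
  have h1 := hP.As
  rw [div_mul_eq_mul_div, one_mul, le_div_iff₀ (by positivity)]
  have h2 := mul_le_mul_of_nonneg_right hz (show 0 ≤ 9 * Real.log L by positivity)
  rw [h1] at h2
  have h3 : (|z.im| * (9 * Real.log L)) * L ≤ s * L := by
    calc (|z.im| * (9 * Real.log L)) * L = |z.im| * L * (9 * Real.log L) := by ring
      _ ≤ _ := h2
  exact le_of_mul_le_mul_right h3 hL

lemma Par.im_le' (hP : Par η L h A b s r X n) {z : ℂ} (hz : |z.im| * L ≤ A) : |z.im| ≤ s := by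
  refine (hP.im_le hz).trans ?_
  have hl := hP.l1
  apply mul_le_of_le_one_left hP.s0.le
  rw [div_le_one (by positivity)]
  linarith

lemma Par.s_le (hP : Par η L h A b s r X n) (hη : η ≤ 1 / 10) : s ≤ h / 1000 := by
  have h1 := hP.sr
  have h2 := hP.rX
  have h3 := hP.X0
  have h4 : η * h / 100 ≤ h / 1000 := by nlinarith [hP.h0]
  linarith

lemma Par.A0 (hP : Par η L h A b s r X n) : 100 ≤ A := hP.l1.trans hP.A1

/-- outside -/
lemma Par.outG (hP : Par η L h A b s r X n) {G : ℂ → ℂ} {g : ℝ → ℂ} {h1 : ℝ}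
    (hG : WinP b s h1 n G g) {z : ℂ} (hz : |z.im| * L ≤ A) (hx : h1 + (r + X) ≤ |z.re|) :
    ‖G z‖ ≤ Real.exp (-4 * A) := by
  have h2 := hG.out z X (hP.im_le' hz) hP.X0
  rw [hP.fr] at h2
  have hL : 0 < L := by linarith [hP.L1]
  have h3 : L ≤ Real.exp ((|z.re| - X - h1) / s) := by
    rw [← Real.log_le_iff_le_exp hL, le_div_iff₀ hP.s0, ← hP.rs]
    linarith
  have h4 : Real.exp (-(Real.exp ((|z.re| - X - h1) / s) / 2)) ≤ Real.exp (-(L / 2)) := by
    apply Real.exp_le_exp.2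
    linarith
  have h5 := hP.eL
  have h6 := hP.tl
  have h7 := Real.exp_pos (-4 * A)
  linarith

/-- inside -/
lemma Par.innG (hP : Par η L h A b s r X n) {G : ℂ → ℂ} {g : ℝ → ℂ} {h1 : ℝ}
    (hG : WinP b s h1 n G g) {z : ℂ} (hz : |z.im| ≤ s) (hx : |z.re| + (r + X) ≤ h1) :
    ‖G z - 1‖ ≤ η / 25 := by
  have h2 := hG.inn z X hz hP.X0
  rw [hP.fr] at h2
  have hL : 0 < L := by linarith [hP.L1]
  have h3 : Real.exp ((|z.re| + X - h1) / s) ≤ 1 / L := by
    have : Real.exp (-Real.log L) = 1 / L := by rw [Real.exp_neg, Real.exp_log hL, one_div]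
    rw [← this]
    apply Real.exp_le_exp.2
    rw [div_le_iff₀ hP.s0, neg_mul, ← hP.rs]
    linarith
  have h4 := hP.tl
  have h5 := hP.e3
  have h6 : 1 / L ^ 3 ≤ 1 / L := by
    apply one_div_le_one_div_of_le hL
    exact le_self_pow₀ (by linarith [hP.L1]) (by norm_num)
  have h7 := hP.L3
  have h8 : 3 / L = 3 * (1 / L) := by ring
  rw [h8] at h7
  have : (0 : ℝ) < 1 / L := by positivity
  linarith

/-- the real part of the product with the Gaussian factor -/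
lemma Par.outRe (hP : Par η L h A b s r X n) (hη1 : η ≤ 1 / 10) (hη : 0 < η) {G : ℂ → ℂ}
    {g : ℝ → ℂ} {h1 : ℝ} (hG : WinP b s h1 n G g) (h12 : h1 + (r + X) ≤ 1) {z : ℂ}
    (hz : |z.im| * L ≤ A) :
    -(4 / L ^ 3 * Real.exp (-z.re ^ 2 / 2)) ≤ (G z * cexp (-z ^ 2 / 2)).re := by
  have hL : 0 < L := by linarith [hP.L1]
  have hs1 : s ≤ 1 / 1000 := by
    have h3 := hP.s_le hη1
    have h4 := hP.h1
    linarith
  have him := (hP.im_le' hz)
  have him1 : |z.im| ≤ 1 / 1000 := him.trans hs1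
  set x := z.re with hx
  set y := z.im with hy
  have e1 : -z ^ 2 / 2 = ((-(x ^ 2 - y ^ 2) / 2 : ℝ) : ℂ) + I * ((-(x * y) : ℝ) : ℂ) := by
    have : z = (x : ℂ) + y * I := (Complex.re_add_im z).symm
    rw [this]
    have hI : I ^ 2 = -1 := I_sq
    push_cast
    linear_combination (-(y : ℂ) ^ 2 / 2) * hI
  have e2 : (G z * cexp (-z ^ 2 / 2)).re =
      Real.exp (-(x ^ 2 - y ^ 2) / 2) * (G z * cexp (I * ((-(x * y) : ℝ) : ℂ))).re := by
    rw [e1, Complex.exp_add, ← Complex.ofReal_exp]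
    rw [show G z * (((Real.exp (-(x ^ 2 - y ^ 2) / 2) : ℝ) : ℂ) * cexp (I * ((-(x * y) : ℝ) : ℂ))) =
      ((Real.exp (-(x ^ 2 - y ^ 2) / 2) : ℝ) : ℂ) * (G z * cexp (I * ((-(x * y) : ℝ) : ℂ))) by ring,
      Complex.re_ofReal_mul]
  have hy2 : y ^ 2 ≤ 1 := by
    rw [← sq_abs]
    calc |y| ^ 2 ≤ (1 / 1000) ^ 2 := pow_le_pow_left₀ (abs_nonneg _) him1 2
      _ ≤ 1 := by norm_num
  have e3 : Real.exp (-(x ^ 2 - y ^ 2) / 2) ≤ 2 * Real.exp (-x ^ 2 / 2) := by
    have : -(x ^ 2 - y ^ 2) / 2 = y ^ 2 / 2 + -x ^ 2 / 2 := by ring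
    rw [this, Real.exp_add]
    apply mul_le_mul_of_nonneg_right _ (Real.exp_pos _).le
    calc Real.exp (y ^ 2 / 2) ≤ Real.exp (1 / 2) := Real.exp_le_exp.2 (by linarith)
      _ ≤ 2 := by
        have := Real.exp_one_lt_d9
        have h5 : Real.exp (1 / 2) ^ 2 = Real.exp 1 := by
          rw [← Real.exp_nat_mul]; norm_num
        nlinarith [Real.exp_pos (1 / 2 : ℝ)]
  -- the lower bound for the phase part
  have key : -(1 / L ^ 3) ≤ (G z * cexp (I * ((-(x * y) : ℝ) : ℂ))).re := by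
    by_cases hx1 : |x| ≤ 1
    · have hl := hP.l1
      have h5 := hG.ph z (1 / (9 * Real.log L)) (-(x * y)) (by positivity)
        (by rw [div_le_one (by positivity)]; linarith) (hP.im_le hz) (by
          rw [abs_neg, abs_mul]
          have h6 : |x| * |y| ≤ 1 * (1 / 1000) :=
            mul_le_mul hx1 him1 (abs_nonneg _) zero_le_one
          have := Real.pi_gt_three
          linarith)
      have h7 : Real.exp (-(1 / (3 * (1 / (9 * Real.log L))))) = 1 / L ^ 3 := by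
        have : 1 / (3 * (1 / (9 * Real.log L))) = (3 : ℕ) * Real.log L := by
          push_cast
          field_simp
          norm_num
        rw [this, Real.exp_neg, Real.exp_nat_mul, Real.exp_log hL, one_div]
      rwa [h7] at h5
    · push Not at hx1
      have h5 := hP.outG hG hz (h12.trans hx1.le)
      have h6 : ‖G z * cexp (I * ((-(x * y) : ℝ) : ℂ))‖ ≤ 1 / L ^ 3 := by
        rw [norm_mul, mul_comm I, Complex.norm_exp_ofReal_mul_I, mul_one]
        exact h5.trans hP.e3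
      have h7 := (Complex.abs_re_le_norm (G z * cexp (I * ((-(x * y) : ℝ) : ℂ)))).trans h6
      exact (abs_le.1 h7).1
  rw [e2]
  have h8 := Real.exp_pos (-(x ^ 2 - y ^ 2) / 2)
  have h9 : 0 ≤ 1 / L ^ 3 := by positivity
  calc -(4 / L ^ 3 * Real.exp (-x ^ 2 / 2)) ≤ -((2 * Real.exp (-x ^ 2 / 2)) * (1 / L ^ 3)) := by
        have : 0 ≤ 1 / L ^ 3 * Real.exp (-x ^ 2 / 2) := by positivity
        have e : 4 / L ^ 3 * Real.exp (-x ^ 2 / 2) = 4 * (1 / L ^ 3 * Real.exp (-x ^ 2 / 2)) := by ring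
        rw [e]
        linarith
    _ ≤ -(Real.exp (-(x ^ 2 - y ^ 2) / 2) * (1 / L ^ 3)) := by
        apply neg_le_neg
        exact mul_le_mul_of_nonneg_right e3 h9
    _ = Real.exp (-(x ^ 2 - y ^ 2) / 2) * (-(1 / L ^ 3)) := by ring
    _ ≤ _ := mul_le_mul_of_nonneg_left key h8.le

lemma exp_near {w : ℂ} (hw : ‖w‖ ≤ 1) : ‖cexp w - 1‖ ≤ 2 * ‖w‖ := by
  have := Complex.norm_exp_sub_one_sub_id_le hw
  have h2 : ‖cexp w - 1‖ ≤ ‖cexp w - 1 - w‖ + ‖w‖ := by
    have := norm_add_le (cexp w - 1 - w) w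
    rwa [sub_add_cancel] at this
  have h3 : ‖w‖ ^ 2 ≤ ‖w‖ := by nlinarith [norm_nonneg w]
  linarith

lemma Par.inRe (hP : Par η L h A b s r X n) (hη1 : η ≤ 1 / 10) (hη : 0 < η) {G : ℂ → ℂ}
    {g : ℝ → ℂ} (hG : WinP b s (h + (r + X)) n G g) {z : ℂ}
    (hz : |z.im| * L ≤ A) (hx : |z.re| ≤ h) :
    1 - η ≤ (G z * cexp (-z ^ 2 / 2)).re := by
  have h1 := hP.innG hG (hP.im_le' hz) (by linarith)
  have hs := hP.s_le hη1
  have hh := hP.h1
  have hh0 := hP.h0
  have hz2 : ‖z‖ ≤ 2 * h := by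
    have := Complex.norm_le_abs_re_add_abs_im z
    have h3 := hP.im_le' hz
    linarith
  have h3 : ‖-z ^ 2 / 2‖ ≤ 2 * h ^ 2 := by
    rw [norm_div, norm_neg, norm_pow, Complex.norm_ofNat]
    have : ‖z‖ ^ 2 ≤ (2 * h) ^ 2 := pow_le_pow_left₀ (norm_nonneg _) hz2 2
    linarith
  have hh2 : 2 * h ^ 2 ≤ η / 100 := by
    have h5 : h ≤ 1 / 1000 := by linarith
    nlinarith
  have h4 := exp_near (w := -z ^ 2 / 2) (by linarith)
  have h5 : ‖cexp (-z ^ 2 / 2) - 1‖ ≤ η / 50 := by linarith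
  have e : G z * cexp (-z ^ 2 / 2) - 1 =
      (G z - 1) * (cexp (-z ^ 2 / 2) - 1) + (G z - 1) + (cexp (-z ^ 2 / 2) - 1) := by ring
  have h6 : ‖G z * cexp (-z ^ 2 / 2) - 1‖ ≤ η := by
    rw [e]
    refine (norm_add_le _ _).trans ?_
    have h7 := norm_add_le ((G z - 1) * (cexp (-z ^ 2 / 2) - 1)) (G z - 1)
    have h8 : ‖(G z - 1) * (cexp (-z ^ 2 / 2) - 1)‖ ≤ η / 25 * 1 := by
      rw [norm_mul]
      exact mul_le_mul h1 (by linarith) (norm_nonneg _) (by linarith)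
    linarith
  have h7 := (Complex.abs_re_le_norm _).trans h6
  rw [Complex.sub_re, Complex.one_re] at h7
  linarith [(abs_le.1 h7).1]

end

theorem two (hwin : S_win) (hsq : S_sq) (hpl : S_pl) (hgs : S_gs) (η c : ℝ) (hη : 0 < η)
    (hη1 : η ≤ 1 / 10) (hc : 0 < c) (hc1 : c ≤ 1) : ∃ L0 : ℝ, 10 ≤ L0 ∧ ∀ L, L0 ≤ L →
    ∃ (G : ℂ → ℂ) (w : ℝ → ℂ) (Gp : ℂ → ℂ) (gp : ℝ → ℂ),
      Two η L (c / Real.log L) (η * c / 1000 * L / Real.log L ^ 3) G w Gp gp := by
  obtain ⟨L0, hL0, hpar⟩ := par_ex η c hη hη1 hc hc1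
  refine ⟨L0, hL0, fun L hL => ?_⟩
  obtain ⟨b, s, r, X, n, hP⟩ := hpar L hL
  set A := η * c / 1000 * L / Real.log L ^ 3 with hA
  set h := c / Real.log L with hh
  have hL1 := hP.L1
  have hrX := hP.rX
  have hr0 := hP.r0
  have hX0 := hP.X0
  have hh0 := hP.h0
  have hs0 := hP.s0
  have hsr := hP.sr
  have hh1 := hP.h1
  have hb0 := hP.b0
  have hsl := hP.s_le hη1
  have hηh : η * h / 100 ≤ h / 1000 := by nlinarith
  have hpi := Real.pi_pos
  have hpi3 := Real.pi_gt_three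
  obtain ⟨G, g, hG⟩ := winp hwin b s (h - (r + X)) n hb0 hs0 (by linarith) hP.n1
  obtain ⟨Gp, gp, hGp⟩ := winp hwin b s (h + (r + X)) n hb0 hs0 (by linarith) hP.n1
  obtain ⟨w, hw⟩ := hsq b G g hb0 hG.bw
  have e2b : 2 * b = η * L := by rw [hP.be]; ring
  rw [e2b] at hw
  have hnG := norm_real hG.cj hG.re01
  have hnGp := norm_real hGp.cj hGp.re01
  have hGsq : ∀ x : ℝ, ‖G x ^ 2‖ ≤ (G x).re := by
    intro x
    rw [norm_pow, hnG]
    have := hG.re01 x
    nlinarith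
  have hex1 : ∀ x : ℝ, Real.exp (-x ^ 2 / 2) ≤ 1 := fun x => Real.exp_le_one_iff.2 (by
    have := sq_nonneg x
    linarith)
  have hGc := hG.bw.cont
  have hGpc := hGp.bw.cont
  have hec : Continuous (fun x : ℝ => Real.exp (-x ^ 2 / 2)) := by fun_prop
  have hcrude : ∀ (F : ℂ → ℂ) (f : ℝ → ℂ) (h1 : ℝ), WinP b s h1 n F f → h1 + s ≤ 1 →
      0 ≤ h1 + s → ∀ z : ℂ, ‖F z‖ ≤ L * Real.exp (η * L / 2 * |z.im|) := by
    intro F f h1 hF h2 h3 z
    refine (hF.cr z).trans ?_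
    rw [hP.be]
    apply mul_le_mul_of_nonneg_right _ (Real.exp_pos _).le
    have h4 : η * L / 2 ≤ L := by nlinarith
    calc (h1 + s) * (η * L / 2) ≤ 1 * L := mul_le_mul h2 h4 (by positivity) zero_le_one
      _ = L := one_mul _
  refine ⟨G, w, Gp, gp, ?_⟩
  constructor
  · exact hw
  · exact hG.cj
  · intro x; rw [hnG]; exact (hG.re01 x).2
  · -- q2 w
    obtain ⟨h1, h2⟩ := hpl (η * L) _ w (by positivity) hw
    have h3 : ∫ x : ℝ, ‖(fun z => G z ^ 2) (x : ℂ)‖ ^ 2 ≤ ∫ x : ℝ, (G x).re := by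
      apply integral_mono h1 hG.ig
      intro x
      simp only
      have h4 := hGsq x
      have h5 := hG.re01 x
      have h6 := norm_nonneg (G x ^ 2)
      nlinarith
    have h4 := hG.il
    rw [le_div_iff₀ hpi]
    linarith
  · -- lower bound
    rw [gs_re hgs (by positivity) hw (fun x => (G x).re ^ 2) (fun x => sq_re hG.cj x)]
    set h' := h - (r + X) - (r + X) with hh'
    have hh'0 : 0 < h' := by rw [hh']; linarith
    have hh'1 : h * (1 - η / 50) ≤ h' := by rw [hh']; linarith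
    have hval : ∀ y ∈ Set.Icc (-h') h', (1 - η / 10) ≤ Real.exp (-y ^ 2 / 2) * (G y).re ^ 2 := by
      intro y hy
      have hy' : |y| ≤ h' := abs_le.2 hy
      have h1 := hP.innG hG (z := (y : ℂ)) (by simp [hs0.le]) (by
        rw [Complex.ofReal_re]; linarith)
      have h4 : 1 - η / 25 ≤ (G y).re := by
        have h5 := (Complex.abs_re_le_norm (G y - 1)).trans h1
        rw [Complex.sub_re, Complex.one_re] at h5
        linarith [(abs_le.1 h5).1]
      have h6 : 1 - η / 100 ≤ Real.exp (-y ^ 2 / 2) := by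
        have h7 := Real.add_one_le_exp (-y ^ 2 / 2)
        have h8 : y ^ 2 ≤ h' ^ 2 := sq_le_sq' hy.1 hy.2
        have h9 : h' ^ 2 ≤ h ^ 2 := pow_le_pow_left₀ hh'0.le (by rw [hh']; linarith) 2
        have h10 : h ^ 2 ≤ h * (η / 100) := by rw [sq]; gcongr
        have h11 : h * (η / 100) ≤ 1 * (η / 100) := by
          apply mul_le_mul_of_nonneg_right _ (by positivity)
          linarith
        linarith
      have h7 : (0 : ℝ) ≤ 1 - η / 100 := by linarith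
      have h8 : 1 - 2 * η / 25 ≤ (1 - η / 25) ^ 2 := by nlinarith [sq_nonneg (η / 25)]
      have h9 : (1 - η / 100) * (1 - 2 * η / 25) ≤ (1 - η / 100) * (1 - η / 25) ^ 2 :=
        mul_le_mul_of_nonneg_left h8 h7
      calc (1 - η / 10) ≤ (1 - η / 100) * (1 - 2 * η / 25) := by nlinarith [sq_nonneg η]
        _ ≤ (1 - η / 100) * (1 - η / 25) ^ 2 := h9
        _ ≤ Real.exp (-y ^ 2 / 2) * (G y).re ^ 2 := by
            gcongr
            linarith
    have hint : Integrable (fun y : ℝ => Real.exp (-y ^ 2 / 2) * (G y).re ^ 2) := by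
      refine hG.ig.mono' (hec.mul ((Complex.continuous_re.comp hGc).pow 2)).aestronglyMeasurable
        (Eventually.of_forall fun y => ?_)
      have h1 := hG.re01 y
      rw [Real.norm_of_nonneg (by positivity)]
      have h2 : (G y).re ^ 2 ≤ (G y).re := by nlinarith
      calc Real.exp (-y ^ 2 / 2) * (G y).re ^ 2 ≤ 1 * (G y).re :=
            mul_le_mul (hex1 y) h2 (sq_nonneg _) zero_le_one
        _ = _ := one_mul _
    have h5 : (1 - η / 10) * (2 * h') ≤ ∫ y : ℝ, Real.exp (-y ^ 2 / 2) * (G y).re ^ 2 := by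
      calc (1 - η / 10) * (2 * h') = ∫ y in Set.Icc (-h') h', (1 - η / 10) := by
            rw [setIntegral_const, measureReal_def, Real.volume_Icc, ENNReal.toReal_ofReal (by linarith),
              smul_eq_mul]
            ring
        _ ≤ ∫ y in Set.Icc (-h') h', Real.exp (-y ^ 2 / 2) * (G y).re ^ 2 := by
            apply setIntegral_mono_on _ hint.integrableOn measurableSet_Icc hval
            exact integrableOn_const (by rw [Real.volume_Icc]; exact ENNReal.ofReal_ne_top)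
        _ ≤ _ := by
            apply setIntegral_le_integral hint
            exact Eventually.of_forall fun y => by positivity
    have h6 : (1 - η) * h ≤ (1 - η / 10) * h' := by
      have : (1 - η / 10) * (h * (1 - η / 50)) ≤ (1 - η / 10) * h' :=
        mul_le_mul_of_nonneg_left hh'1 (by linarith)
      refine le_trans ?_ this
      nlinarith
    calc (1 - η) * (h / Real.pi) = ((1 - η) * h) / Real.pi := by ring
      _ ≤ ((1 - η / 10) * h') / Real.pi := by gcongr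
      _ = 1 / (2 * Real.pi) * ((1 - η / 10) * (2 * h')) := by field_simp
      _ ≤ _ := by gcongr
  · -- i1
    have h1 : ∫ x : ℝ, ‖G x ^ 2‖ * Real.exp (-x ^ 2 / 2) ≤ ∫ x : ℝ, (G x).re := by
      apply integral_mono_of_nonneg (Eventually.of_forall fun x => by positivity) hG.ig
      refine Eventually.of_forall fun x => ?_
      calc ‖G x ^ 2‖ * Real.exp (-x ^ 2 / 2) ≤ (G x).re * 1 :=
            mul_le_mul (hGsq x) (hex1 x) (Real.exp_pos _).le (hG.re01 x).1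
        _ = _ := mul_one _
    have := hG.il
    linarith
  · rw [← hP.be]; exact hGp.bw
  · -- q2 gp
    obtain ⟨h1, h2⟩ := hpl b _ gp hb0 hGp.bw
    have h3 : ∫ x : ℝ, ‖Gp (x : ℂ)‖ ^ 2 ≤ ∫ x : ℝ, (Gp x).re := by
      apply integral_mono h1 hGp.ig
      intro x
      simp only
      rw [hnGp]
      have := hGp.re01 x
      nlinarith
    have h4 := hGp.il
    have h5 : 0 ≤ q2 gp := integral_nonneg fun v => sq_nonneg _
    nlinarith
  · -- upper bound
    rw [gs_re hgs hb0 hGp.bw (fun x => (Gp x).re) (fun x => real_of_conj hGp.cj x)]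
    have h1 : ∫ y : ℝ, Real.exp (-y ^ 2 / 2) * (Gp y).re ≤ ∫ x : ℝ, (Gp x).re := by
      apply integral_mono_of_nonneg (Eventually.of_forall fun x => by
        have := (hGp.re01 x).1
        positivity) hGp.ig
      refine Eventually.of_forall fun x => ?_
      calc Real.exp (-x ^ 2 / 2) * (Gp x).re ≤ 1 * (Gp x).re :=
            mul_le_mul_of_nonneg_right (hex1 x) (hGp.re01 x).1
        _ = _ := one_mul _
    have h2 := hGp.il
    have h3 : h + (r + X) + s ≤ (1 + η) * h := by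
      have : s ≤ η * h / 100 := by linarith
      have : 0 < η * h := by positivity
      linarith
    calc 1 / (2 * Real.pi) * ∫ y : ℝ, Real.exp (-y ^ 2 / 2) * (Gp y).re ≤
        1 / (2 * Real.pi) * (2 * ((1 + η) * h)) := by
          gcongr
          linarith
      _ = (1 + η) * (h / Real.pi) := by field_simp
  · -- i1p
    have h1 : ∫ x : ℝ, ‖Gp x‖ * Real.exp (-x ^ 2 / 2) ≤ ∫ x : ℝ, (Gp x).re := by
      apply integral_mono_of_nonneg (Eventually.of_forall fun x => by positivity) hGp.ig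
      refine Eventually.of_forall fun x => ?_
      simp only
      rw [hnGp]
      calc (Gp x).re * Real.exp (-x ^ 2 / 2) ≤ (Gp x).re * 1 :=
            mul_le_mul_of_nonneg_left (hex1 x) (hGp.re01 x).1
        _ = _ := mul_one _
    have := hGp.il
    linarith
  · intro z hz hx
    exact hP.outG hG hz (by linarith)
  · intro z hz hx
    exact hP.inRe hη1 hη hGp hz hx
  · intro z hz
    exact hP.outRe hη1 hη hGp (by linarith) hz
  · exact hcrude G g _ hG (by linarith) (by linarith)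
  · exact hcrude Gp gp _ hGp (by linarith) (by linarith)

end Pool.Agent.N802.U
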