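import Pool.Agent.N802.U.Point
import Pool.Agent.N802.U.Gsl

/-! # The mean values over `t` -/

open Complex Filter Topology Set MeasureTheory
open scoped BigOperators ComplexConjugate

namespace Pool.Agent.N802.U

open H370 TC

/-- indicator sums -/
lemma ind_int {f : ℝ → ℝ} (hf : Continuous f) (y h c a b : ℝ) :
    IntervalIntegrable (fun t => f t * (if |y - t| ≤ h then c else 0)) volume a b := by
  have h1 : IntervalIntegrable (fun t => |f t| * |c|) volume a b :=
    (hf.abs.mul continuous_const).intervalIntegrable _ _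
  apply h1.mono_fun'
  · apply AEStronglyMeasurable.restrict
    apply Measurable.aestronglyMeasurable
    apply hf.measurable.mul
    apply Measurable.ite _ measurable_const measurable_const
    have : Continuous (fun t : ℝ => |y - t|) := by fun_prop
    exact (isClosed_le this continuous_const).measurableSet
  · refine Eventually.of_forall fun t => ?_
    simp only
    rw [Real.norm_eq_abs, abs_mul]
    apply mul_le_mul_of_nonneg_left _ (abs_nonneg _)
    split_ifs
    · exact le_rfl
    · simp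

lemma ind_bound {f : ℝ → ℝ} (hf : Continuous f) {B : ℝ} (h0 : ∀ t, 0 ≤ f t) (hB : ∀ t, f t ≤ B)
    {y h c a b : ℝ} (hc : 0 ≤ c) (hh : 0 ≤ h) (hab : a ≤ b) :
    ∫ t in a..b, f t * (if |y - t| ≤ h then c else 0) ≤ B * c * (2 * h) := by
  have hB0 : 0 ≤ B := (h0 0).trans (hB 0)
  have hmeas : MeasurableSet (Set.Icc (y - h) (y + h)) := measurableSet_Icc
  have hint : Integrable ((Set.Icc (y - h) (y + h)).indicator (fun _ => B * c)) := by
    rw [integrable_indicator_iff hmeas]
    exact integrableOn_const (by rw [Real.volume_Icc]; exact ENNReal.ofReal_ne_top)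
  have h1 : ∫ t in a..b, f t * (if |y - t| ≤ h then c else 0) ≤
      ∫ t in a..b, (Set.Icc (y - h) (y + h)).indicator (fun _ => B * c) t := by
    apply intervalIntegral.integral_mono_on hab (ind_int hf y h c a b) hint.intervalIntegrable
    intro t _
    by_cases h2 : |y - t| ≤ h
    · rw [if_pos h2, Set.indicator_of_mem]
      · exact mul_le_mul_of_nonneg_right (hB t) hc
      · have := abs_le.1 h2
        exact ⟨by linarith [this.2], by linarith [this.1]⟩
    · rw [if_neg h2, mul_zero]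
      exact Set.indicator_nonneg (fun _ _ => by positivity) t
  refine h1.trans ?_
  rw [intervalIntegral.integral_of_le hab]
  calc ∫ t in Set.Ioc a b, (Set.Icc (y - h) (y + h)).indicator (fun _ => B * c) t ≤
      ∫ t, (Set.Icc (y - h) (y + h)).indicator (fun _ => B * c) t := by
        apply setIntegral_le_integral hint
        exact Eventually.of_forall fun t => Set.indicator_nonneg (fun _ _ => by positivity) t
    _ = B * c * (2 * h) := by
        rw [integral_indicator hmeas, setIntegral_const, measureReal_def, Real.volume_Icc,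
          ENNReal.toReal_ofReal (by linarith), smul_eq_mul]
        ring

section

variable {F : ℂ → ℂ} {U1 U2 : ℝ}

lemma x1_eq (h t : ℝ) : x1 F U1 U2 h t = ∑ s ∈ (Zf F U1 U2).filter (fun s => s.re = 1 / 2 ∧
    mult F s = 1), (if |s.im - t| ≤ h then 1 else 0) := by
  classical
  unfold x1
  rw [Finset.card_filter, Finset.sum_filter]
  push_cast
  refine Finset.sum_congr rfl fun s _ => ?_
  by_cases h1 : s.re = 1 / 2 ∧ mult F s = 1
  · by_cases h2 : |s.im - t| ≤ h
    · rw [if_pos ⟨h2, h1.1, h1.2⟩, if_pos h1, if_pos h2]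
    · rw [if_neg (by tauto), if_pos h1, if_neg h2]
  · rw [if_neg (by tauto), if_neg h1]

lemma x1_int {f : ℝ → ℝ} (hf : Continuous f) (h a b : ℝ) :
    IntervalIntegrable (fun t => f t * x1 F U1 U2 h t) volume a b := by
  classical
  have h1 := IntervalIntegrable.sum (μ := volume) (a := a) (b := b)
    ((Zf F U1 U2).filter (fun s => s.re = 1 / 2 ∧ mult F s = 1))
    (f := fun s t => f t * (if |s.im - t| ≤ h then 1 else 0))
    (fun s _ => ind_int hf s.im h 1 a b)
  have e : (fun t => f t * x1 F U1 U2 h t) = ∑ s ∈ (Zf F U1 U2).filter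
      (fun s => s.re = 1 / 2 ∧ mult F s = 1), fun t => f t * (if |s.im - t| ≤ h then 1 else 0) := by
    funext t
    rw [x1_eq, Finset.mul_sum, Finset.sum_apply]
  rw [e]
  exact h1

lemma FF_int {f : ℝ → ℝ} (hf : Continuous f) (η A L a b : ℝ) :
    IntervalIntegrable (fun t => f t * FF F U1 U2 η A L t) volume a b := by
  classical
  have h1 := IntervalIntegrable.sum (μ := volume) (a := a) (b := b)
    ((Zf F U1 U2).filter (fun s => A < |(zz s).im| * L))
    (f := fun s t => f t * (if |s.im - t| ≤ L then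
      (mult F s : ℝ) * Real.exp (η * L * |(zz s).im|) else 0))
    (fun s _ => ind_int hf s.im L _ a b)
  have e : (fun t => f t * FF F U1 U2 η A L t) = ∑ s ∈ (Zf F U1 U2).filter
      (fun s => A < |(zz s).im| * L), fun t => f t * (if |s.im - t| ≤ L then
      (mult F s : ℝ) * Real.exp (η * L * |(zz s).im|) else 0) := by
    funext t
    unfold FF
    rw [Finset.mul_sum, Finset.sum_apply]
  rw [e]
  exact h1

/-- the far zeros in the mean -/
lemma FF_bound {f : ℝ → ℝ} (hf : Continuous f) {B : ℝ} (h0 : ∀ t, 0 ≤ f t) (hB : ∀ t, f t ≤ B)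
    {η A L κ a b : ℝ} (hη : η ≤ κ) (hL : 0 ≤ L) (hab : a ≤ b) :
    ∫ t in a..b, f t * FF F U1 U2 η A L t ≤ B * (2 * L) * (Real.exp (-((κ - η) * A)) *
      ∑ s ∈ Zf F U1 U2, (mult F s : ℝ) * Real.exp (κ * (|(zz s).im| * L))) := by
  classical
  have hB0 : 0 ≤ B := (h0 0).trans (hB 0)
  unfold FF
  simp_rw [Finset.mul_sum]
  rw [intervalIntegral.integral_finsetSum (fun s _ => ind_int hf _ _ _ _ _)]
  calc ∑ s ∈ (Zf F U1 U2).filter (fun s => A < |(zz s).im| * L), ∫ t in a..b, f t *
        (if |s.im - t| ≤ L then (mult F s : ℝ) * Real.exp (η * L * |(zz s).im|) else 0) ≤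
      ∑ s ∈ (Zf F U1 U2).filter (fun s => A < |(zz s).im| * L),
        B * (2 * L) * (Real.exp (-((κ - η) * A)) *
          ((mult F s : ℝ) * Real.exp (κ * (|(zz s).im| * L)))) := by
        refine Finset.sum_le_sum fun s hs => ?_
        rw [Finset.mem_filter] at hs
        have h1 := ind_bound hf h0 hB (y := s.im) (h := L)
          (c := (mult F s : ℝ) * Real.exp (η * L * |(zz s).im|)) (by positivity) hL hab
        refine h1.trans ?_
        have h2 : Real.exp (η * L * |(zz s).im|) ≤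
            Real.exp (-((κ - η) * A)) * Real.exp (κ * (|(zz s).im| * L)) := by
          rw [← Real.exp_add]
          apply Real.exp_le_exp.2
          have h3 : (κ - η) * A ≤ (κ - η) * (|(zz s).im| * L) :=
            mul_le_mul_of_nonneg_left hs.2.le (by linarith)
          linarith
        calc B * ((mult F s : ℝ) * Real.exp (η * L * |(zz s).im|)) * (2 * L) ≤
            B * ((mult F s : ℝ) * (Real.exp (-((κ - η) * A)) *
              Real.exp (κ * (|(zz s).im| * L)))) * (2 * L) := by gcongr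
          _ = _ := by ring
    _ ≤ ∑ s ∈ Zf F U1 U2, B * (2 * L) * (Real.exp (-((κ - η) * A)) *
          ((mult F s : ℝ) * Real.exp (κ * (|(zz s).im| * L)))) :=
        Finset.sum_le_sum_of_subset_of_nonneg (Finset.filter_subset _ _)
          fun s _ _ => by positivity
    _ = _ := rfl

lemma SS_cont2 {b : ℝ} {W : ℂ → ℂ} {w : ℝ → ℂ} (hW : BW b W w) (F : ℂ → ℂ) (U1 U2 Λ : ℝ) :
    Continuous (fun p : ℝ × ℝ => SS F U1 U2 W (Λ * p.2) p.1) := by
  have hc := hW.contC
  unfold SS
  refine continuous_finsetSum _ fun s _ => ?_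
  have h1 : Continuous (fun p : ℝ × ℝ => W (zz s - p.1)) := hc.comp (by fun_prop)
  exact continuous_const.mul ((by fun_prop : Continuous fun p : ℝ × ℝ =>
    cexp (I * ((Λ * p.2 : ℝ) : ℂ) * zz s)).mul (h1.mul (by fun_prop)))

lemma SS_cont0 {b : ℝ} {W : ℂ → ℂ} {w : ℝ → ℂ} (hW : BW b W w) (F : ℂ → ℂ) (U1 U2 : ℝ) :
    Continuous (fun t : ℝ => SS F U1 U2 W 0 t) := by
  have h1 := (SS_cont2 hW F U1 U2 0).comp (by fun_prop : Continuous fun t : ℝ => ((t, 0) : ℝ × ℝ))
  simpa [Function.comp_def] using h1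

/-- the first moment -/
lemma fm_use {T : ℝ} (hT : 0 < T) (hTL : 0 < T / Real.log T) {S : Finset ℕ} {r : ℕ → ℂ} {b : ℝ} {W : ℂ → ℂ}
    {w : ℝ → ℂ} (hW : BW b W w) {a : ℕ → ℂ} {X : ℕ} {C ε M : ℝ}
    (h1 : ∀ t : ℝ, 5 / 4 * T ≤ t → t ≤ 7 / 4 * T →
      ‖SS F U1 U2 W 0 t - cexp (I * (0 : ℝ) * t) * PD a X w (Real.log T) 0 t‖ ≤ C * Real.sqrt (q2 w))
    (hC : 0 ≤ C)
    (h2 : ‖(∫ t in (5 / 4 * T)..(7 / 4 * T), (rho T S r t : ℂ) *
        PD a X w (Real.log T) 0 t) - ((nr T S r * Real.log T : ℝ) : ℂ) * gs w 0‖ ≤ ε)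
    (hM : ∫ t : ℝ, rho T S r t ≤ M) :
    |(∫ t in (5 / 4 * T)..(7 / 4 * T), rho T S r t * (SS F U1 U2 W 0 t).re) -
      nr T S r * Real.log T * (gs w 0).re| ≤ ε + C * Real.sqrt (q2 w) * M := by
  have hab : 5 / 4 * T ≤ 7 / 4 * T := by linarith
  have hρ := rho_cont T S r
  have hρC : Continuous (fun t => (rho T S r t : ℂ)) := Complex.continuous_ofReal.comp hρ
  have hSS := SS_cont0 hW F U1 U2
  have hPD := PD_cont1 hW a X (Real.log T) 0
  have e1 : (∫ t in (5 / 4 * T)..(7 / 4 * T), rho T S r t * (SS F U1 U2 W 0 t).re) =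
      (∫ t in (5 / 4 * T)..(7 / 4 * T), (rho T S r t : ℂ) * SS F U1 U2 W 0 t).re := by
    have h := ContinuousLinearMap.intervalIntegral_comp_comm (μ := volume) Complex.reCLM
      (f := fun t : ℝ => (rho T S r t : ℂ) * SS F U1 U2 W 0 t) (a := 5 / 4 * T) (b := 7 / 4 * T)
      ((hρC.mul hSS).intervalIntegrable _ _)
    simp only [Complex.reCLM_apply] at h
    rw [← h]
    refine intervalIntegral.integral_congr fun t _ => ?_
    exact (Complex.re_ofReal_mul _ _).symm
  have e2 : nr T S r * Real.log T * (gs w 0).re =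
      (((nr T S r * Real.log T : ℝ) : ℂ) * gs w 0).re := by
    rw [Complex.re_ofReal_mul]
  rw [e1, e2, ← Complex.sub_re]
  refine (Complex.abs_re_le_norm _).trans ?_
  have e3 : (∫ t in (5 / 4 * T)..(7 / 4 * T), (rho T S r t : ℂ) * SS F U1 U2 W 0 t) -
      ((nr T S r * Real.log T : ℝ) : ℂ) * gs w 0 =
      ((∫ t in (5 / 4 * T)..(7 / 4 * T), (rho T S r t : ℂ) *
        PD a X w (Real.log T) 0 t) - ((nr T S r * Real.log T : ℝ) : ℂ) * gs w 0) +
      ∫ t in (5 / 4 * T)..(7 / 4 * T), (rho T S r t : ℂ) *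
        (SS F U1 U2 W 0 t - PD a X w (Real.log T) 0 t) := by
    have : ∫ t in (5 / 4 * T)..(7 / 4 * T), (rho T S r t : ℂ) *
        (SS F U1 U2 W 0 t - PD a X w (Real.log T) 0 t) =
        (∫ t in (5 / 4 * T)..(7 / 4 * T), (rho T S r t : ℂ) * SS F U1 U2 W 0 t) -
        ∫ t in (5 / 4 * T)..(7 / 4 * T), (rho T S r t : ℂ) * PD a X w (Real.log T) 0 t := by
      have c1 : Continuous fun t : ℝ => (rho T S r t : ℂ) * SS F U1 U2 W 0 t := hρC.mul hSS
      have c2 : Continuous fun t : ℝ => (rho T S r t : ℂ) * PD a X w (Real.log T) 0 t :=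
        hρC.mul hPD
      rw [← intervalIntegral.integral_sub (c1.intervalIntegrable _ _)
        (c2.intervalIntegrable _ _)]
      refine intervalIntegral.integral_congr fun t _ => ?_
      exact mul_sub _ _ _
    rw [this]
    ring
  rw [e3]
  refine (norm_add_le _ _).trans (add_le_add h2 ?_)
  have h3 : ‖∫ t in (5 / 4 * T)..(7 / 4 * T), (rho T S r t : ℂ) *
        (SS F U1 U2 W 0 t - PD a X w (Real.log T) 0 t)‖ ≤
      ∫ t in (5 / 4 * T)..(7 / 4 * T), rho T S r t * (C * Real.sqrt (q2 w)) := by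
    apply (intervalIntegral.norm_integral_le_integral_norm hab).trans
    apply intervalIntegral.integral_mono_on hab
    · exact (hρC.mul (hSS.sub hPD)).norm.intervalIntegrable _ _
    · exact (hρ.mul continuous_const).intervalIntegrable _ _
    · intro t ht
      rw [norm_mul, Complex.norm_real, Real.norm_of_nonneg (rho_nonneg _ _ _ _)]
      apply mul_le_mul_of_nonneg_left _ (rho_nonneg _ _ _ _)
      have h4 := h1 t ht.1 ht.2
      simpa using h4
  refine h3.trans ?_
  rw [intervalIntegral.integral_mul_const, mul_comm]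
  apply mul_le_mul_of_nonneg_left _ (by positivity)
  refine le_trans ?_ hM
  rw [intervalIntegral.integral_of_le hab]
  exact setIntegral_le_integral (rho_intg hTL S r)
    (Eventually.of_forall fun t => rho_nonneg _ _ _ _)

/-- the energy -/
lemma en_use {T : ℝ} (hT : 0 < T) (hTL : 0 < T / Real.log T) {S : Finset ℕ} {r : ℕ → ℂ} {b : ℝ}
    {W : ℂ → ℂ} {w : ℝ → ℂ} (hW : BW b W w) {a : ℕ → ℂ} {X : ℕ} {C η Λ M : ℝ} (hη : 0 < η)
    (h1 : ∀ α ∈ Set.Icc (0 : ℝ) 1, ∀ t : ℝ, 5 / 4 * T ≤ t → t ≤ 7 / 4 * T →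
      ‖SS F U1 U2 W (Λ * α) t - cexp (I * (Λ * α : ℝ) * t) * PD a X w (Real.log T) (Λ * α) t‖ ≤
        C * Real.sqrt (q2 w))
    (hM : ∫ t : ℝ, rho T S r t ≤ M) :
    ∫ t in (5 / 4 * T)..(7 / 4 * T), rho T S r t *
      (2 * ∫ α in (0 : ℝ)..1, Rf α * ‖SS F U1 U2 W (Λ * α) t‖ ^ 2) ≤
    (1 + η) * (∫ t : ℝ, rho T S r t * (2 * ∫ α in (0 : ℝ)..1, Rf α *
      ‖PD a X w (Real.log T) (Λ * α) t‖ ^ 2)) +
      (1 + 1 / η) * (2 * (Rf 0 * (C ^ 2 * q2 w))) * M := by
  have hab : 5 / 4 * T ≤ 7 / 4 * T := by linarith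
  have hρ := rho_cont T S r
  have hR := Rf_cont
  have hSS := SS_cont2 hW F U1 U2 Λ
  have hPD := PD_cont hW a X (Real.log T) Λ
  have hq : 0 ≤ q2 w := integral_nonneg fun v => sq_nonneg _
  have hR0 : 0 ≤ Rf 0 := Rf_nonneg 0
  have cS : Continuous (fun t : ℝ => ∫ α in (0 : ℝ)..1, Rf α * ‖SS F U1 U2 W (Λ * α) t‖ ^ 2) := by
    apply intervalIntegral.continuous_parametric_intervalIntegral_of_continuous'
    exact (hR.comp continuous_snd).mul (hSS.norm.pow 2)
  have cP : Continuous (fun t : ℝ => ∫ α in (0 : ℝ)..1, Rf α *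
      ‖PD a X w (Real.log T) (Λ * α) t‖ ^ 2) := by
    apply intervalIntegral.continuous_parametric_intervalIntegral_of_continuous'
    exact (hR.comp continuous_snd).mul (hPD.norm.pow 2)
  obtain ⟨M', hM'0, hM'⟩ := PD_bdd hW a X (Real.log T)
  have hPnn : ∀ t : ℝ, 0 ≤ ∫ α in (0 : ℝ)..1, Rf α * ‖PD a X w (Real.log T) (Λ * α) t‖ ^ 2 :=
    fun t => intervalIntegral.integral_nonneg zero_le_one fun α _ =>
      mul_nonneg (Rf_nonneg _) (sq_nonneg _)
  have hPb : ∀ t : ℝ, ∫ α in (0 : ℝ)..1, Rf α * ‖PD a X w (Real.log T) (Λ * α) t‖ ^ 2 ≤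
      Rf 0 * M' ^ 2 := by
    intro t
    have hct : Continuous (fun α : ℝ => Rf α * ‖PD a X w (Real.log T) (Λ * α) t‖ ^ 2) := by
      have := hPD.comp (by fun_prop : Continuous fun α : ℝ => ((t, α) : ℝ × ℝ))
      exact hR.mul (this.norm.pow 2)
    calc ∫ α in (0 : ℝ)..1, Rf α * ‖PD a X w (Real.log T) (Λ * α) t‖ ^ 2 ≤
        ∫ α in (0 : ℝ)..1, Rf 0 * M' ^ 2 := by
          apply intervalIntegral.integral_mono_on zero_le_one (hct.intervalIntegrable _ _)
            (continuous_const.intervalIntegrable _ _)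
          intro α hα
          exact mul_le_mul (Rf_le α hα.1) (pow_le_pow_left₀ (norm_nonneg _) (hM' _ _) 2)
            (sq_nonneg _) hR0
      _ = _ := by rw [intervalIntegral.integral_const]; simp
  have hPint : Integrable (fun t : ℝ => rho T S r t * (2 * ∫ α in (0 : ℝ)..1, Rf α *
      ‖PD a X w (Real.log T) (Λ * α) t‖ ^ 2)) := by
    refine ((rho_intg hTL S r).mul_const (2 * (Rf 0 * M' ^ 2))).mono'
      (hρ.mul (continuous_const.mul cP)).aestronglyMeasurable (Eventually.of_forall fun t => ?_)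
    have := hPnn t
    have := rho_nonneg T S r t
    rw [Real.norm_of_nonneg (by positivity)]
    gcongr
    exact hPb t
  -- pointwise
  have hpt : ∀ t ∈ Set.Icc (5 / 4 * T) (7 / 4 * T), rho T S r t *
      (2 * ∫ α in (0 : ℝ)..1, Rf α * ‖SS F U1 U2 W (Λ * α) t‖ ^ 2) ≤
      (1 + η) * (rho T S r t * (2 * ∫ α in (0 : ℝ)..1, Rf α *
      ‖PD a X w (Real.log T) (Λ * α) t‖ ^ 2)) +
      (1 + 1 / η) * (2 * (Rf 0 * (C ^ 2 * q2 w))) * rho T S r t := by
    intro t ht
    have hct : Continuous (fun α : ℝ => Rf α * ‖PD a X w (Real.log T) (Λ * α) t‖ ^ 2) := by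
      have := hPD.comp (by fun_prop : Continuous fun α : ℝ => ((t, α) : ℝ × ℝ))
      exact hR.mul (this.norm.pow 2)
    have hcs : Continuous (fun α : ℝ => Rf α * ‖SS F U1 U2 W (Λ * α) t‖ ^ 2) := by
      have := hSS.comp (by fun_prop : Continuous fun α : ℝ => ((t, α) : ℝ × ℝ))
      exact hR.mul (this.norm.pow 2)
    have h2 : ∫ α in (0 : ℝ)..1, Rf α * ‖SS F U1 U2 W (Λ * α) t‖ ^ 2 ≤
        (1 + η) * (∫ α in (0 : ℝ)..1, Rf α * ‖PD a X w (Real.log T) (Λ * α) t‖ ^ 2) +
        (1 + 1 / η) * (Rf 0 * (C ^ 2 * q2 w)) := by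
      calc ∫ α in (0 : ℝ)..1, Rf α * ‖SS F U1 U2 W (Λ * α) t‖ ^ 2 ≤
          ∫ α in (0 : ℝ)..1, ((1 + η) * (Rf α * ‖PD a X w (Real.log T) (Λ * α) t‖ ^ 2) +
            (1 + 1 / η) * (Rf 0 * (C ^ 2 * q2 w))) := by
            apply intervalIntegral.integral_mono_on zero_le_one (hcs.intervalIntegrable _ _)
            · exact ((continuous_const.mul hct).add continuous_const).intervalIntegrable _ _
            · intro α hα
              have h3 := h1 α hα t ht.1 ht.2
              set p := cexp (I * (Λ * α : ℝ) * t) * PD a X w (Real.log T) (Λ * α) t with hp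
              have h4 := sq_young (x := p) (y := SS F U1 U2 W (Λ * α) t - p) hη
              rw [add_sub_cancel] at h4
              have h5 : ‖p‖ = ‖PD a X w (Real.log T) (Λ * α) t‖ := by
                rw [hp, norm_mul, show (I * (Λ * α : ℝ) * t : ℂ) = ((Λ * α * t : ℝ) : ℂ) * I by
                  push_cast; ring, Complex.norm_exp_ofReal_mul_I, one_mul]
              rw [h5] at h4
              have h6 : ‖SS F U1 U2 W (Λ * α) t - p‖ ^ 2 ≤ C ^ 2 * q2 w := by
                calc ‖SS F U1 U2 W (Λ * α) t - p‖ ^ 2 ≤ (C * Real.sqrt (q2 w)) ^ 2 :=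
                      pow_le_pow_left₀ (norm_nonneg _) h3 2
                  _ = C ^ 2 * q2 w := by rw [mul_pow, Real.sq_sqrt hq]
              have hRα := Rf_nonneg α
              have hRα' := Rf_le α hα.1
              have h7 : (0 : ℝ) ≤ 1 + 1 / η := by positivity
              calc Rf α * ‖SS F U1 U2 W (Λ * α) t‖ ^ 2 ≤
                  Rf α * ((1 + η) * ‖PD a X w (Real.log T) (Λ * α) t‖ ^ 2 +
                    (1 + 1 / η) * ‖SS F U1 U2 W (Λ * α) t - p‖ ^ 2) :=
                    mul_le_mul_of_nonneg_left h4 hRα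
                _ = (1 + η) * (Rf α * ‖PD a X w (Real.log T) (Λ * α) t‖ ^ 2) +
                    (1 + 1 / η) * (Rf α * ‖SS F U1 U2 W (Λ * α) t - p‖ ^ 2) := by ring
                _ ≤ _ := by
                    gcongr
        _ = _ := by
            have c1 : Continuous fun α : ℝ => (1 + η) * (Rf α *
                ‖PD a X w (Real.log T) (Λ * α) t‖ ^ 2) := continuous_const.mul hct
            rw [intervalIntegral.integral_add (c1.intervalIntegrable _ _)
              (continuous_const.intervalIntegrable _ _), intervalIntegral.integral_const_mul,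
              intervalIntegral.integral_const]
            simp
    have h3 := mul_le_mul_of_nonneg_left h2 (rho_nonneg T S r t)
    calc rho T S r t * (2 * ∫ α in (0 : ℝ)..1, Rf α * ‖SS F U1 U2 W (Λ * α) t‖ ^ 2) =
        2 * (rho T S r t * ∫ α in (0 : ℝ)..1, Rf α * ‖SS F U1 U2 W (Λ * α) t‖ ^ 2) := by ring
      _ ≤ 2 * (rho T S r t * ((1 + η) * (∫ α in (0 : ℝ)..1, Rf α *
          ‖PD a X w (Real.log T) (Λ * α) t‖ ^ 2) +
        (1 + 1 / η) * (Rf 0 * (C ^ 2 * q2 w)))) := by linarith
      _ = _ := by ring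
  calc ∫ t in (5 / 4 * T)..(7 / 4 * T), rho T S r t *
      (2 * ∫ α in (0 : ℝ)..1, Rf α * ‖SS F U1 U2 W (Λ * α) t‖ ^ 2) ≤
      ∫ t in (5 / 4 * T)..(7 / 4 * T), ((1 + η) * (rho T S r t * (2 * ∫ α in (0 : ℝ)..1, Rf α *
      ‖PD a X w (Real.log T) (Λ * α) t‖ ^ 2)) +
      (1 + 1 / η) * (2 * (Rf 0 * (C ^ 2 * q2 w))) * rho T S r t) := by
        apply intervalIntegral.integral_mono_on hab
          ((hρ.mul (continuous_const.mul cS)).intervalIntegrable _ _) _ hpt
        exact ((continuous_const.mul (hρ.mul (continuous_const.mul cP))).add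
          (continuous_const.mul hρ)).intervalIntegrable _ _
    _ = (1 + η) * (∫ t in (5 / 4 * T)..(7 / 4 * T), rho T S r t * (2 * ∫ α in (0 : ℝ)..1, Rf α *
      ‖PD a X w (Real.log T) (Λ * α) t‖ ^ 2)) +
      (1 + 1 / η) * (2 * (Rf 0 * (C ^ 2 * q2 w))) *
        ∫ t in (5 / 4 * T)..(7 / 4 * T), rho T S r t := by
        have c1 : Continuous fun t : ℝ => (1 + η) * (rho T S r t * (2 * ∫ α in (0 : ℝ)..1, Rf α *
            ‖PD a X w (Real.log T) (Λ * α) t‖ ^ 2)) :=
          continuous_const.mul (hρ.mul (continuous_const.mul cP))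
        have c2 : Continuous fun t : ℝ => (1 + 1 / η) * (2 * (Rf 0 * (C ^ 2 * q2 w))) *
            rho T S r t := continuous_const.mul hρ
        rw [intervalIntegral.integral_add (c1.intervalIntegrable _ _)
          (c2.intervalIntegrable _ _), intervalIntegral.integral_const_mul,
          intervalIntegral.integral_const_mul]
    _ ≤ _ := by
        apply add_le_add
        · apply mul_le_mul_of_nonneg_left _ (by positivity)
          rw [intervalIntegral.integral_of_le hab]
          apply setIntegral_le_integral hPint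
          refine Eventually.of_forall fun t => ?_
          have := hPnn t
          have := rho_nonneg T S r t
          simp only [Pi.zero_apply]
          positivity
        · apply mul_le_mul_of_nonneg_left _ (by positivity)
          refine le_trans ?_ hM
          rw [intervalIntegral.integral_of_le hab]
          exact setIntegral_le_integral (rho_intg hTL S r)
            (Eventually.of_forall fun t => rho_nonneg _ _ _ _)

end

end Pool.Agent.N802.U
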