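import Pool.Agent.N802.U.Use
import Pool.Agent.N802.U.Stm2
import Pool.Agent.N802.U.Ms

/-! # The mean values over `t`, general weights -/

open Complex Filter Topology Set MeasureTheory
open scoped BigOperators ComplexConjugate

namespace Pool.Agent.N802.U

open H370 TC

section

variable {F : ℂ → ℂ} (hF : GoodL F) {U1 U2 : ℝ} (hU : 1 ≤ U1) {η L h A : ℝ} {G : ℂ → ℂ}
    {w : ℝ → ℂ} {Gp : ℂ → ℂ} {gp : ℝ → ℂ} (hT : Two η L h A G w Gp gp) (hη : 0 < η)
    (hη1 : η ≤ 1 / 10) (hL : 100 ≤ L) (hA : Real.log L ≤ A) (hhL : h ≤ L)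

include hF hU hT hη hη1 hL hA hhL in
/-- the number of zeros near one point -/
theorem na_point (t : ℝ) : (1 - η) * na F U1 U2 h t ≤ (SS F U1 U2 Gp 0 t).re +
      (4 / L ^ 3 * Zg F U1 U2 t + (NN F U1 U2 : ℝ) * tau L + 3 * L * FF F U1 U2 η A L t) := by
  classical
  have hNN : (NN F U1 U2 : ℝ) = ∑ s ∈ Zf F U1 U2, (mult F s : ℝ) := by
    rw [NN_eq hF hU]; push_cast; rfl
  rw [← sum_FF hF hU A L η t (3 * L), hNN]
  unfold Zg na SS
  rw [Complex.re_sum, Finset.mul_sum, Finset.mul_sum, Finset.sum_mul, ← Finset.sum_add_distrib,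
    ← Finset.sum_add_distrib, ← Finset.sum_add_distrib, Finset.sum_filter]
  refine Finset.sum_le_sum fun s hs => ?_
  have hm : (0 : ℝ) ≤ mult F s := Nat.cast_nonneg _
  have h3 := mul_le_mul_of_nonneg_left (up_le hF hU hT hη hη1 hL hhL t hs) hm
  have e1 : ((mult F s : ℂ) * (cexp (I * ((0 : ℝ) : ℂ) * zz s) *
      (Gp (zz s - t) * cexp (-(zz s - t) ^ 2 / 2)))).re =
      (mult F s : ℝ) * (Gp (zz s - t) * cexp (-(zz s - t) ^ 2 / 2)).re := by
    rw [Complex.ofReal_zero, mul_zero, zero_mul, Complex.exp_zero, one_mul,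
      ← Complex.ofReal_natCast, Complex.re_ofReal_mul]
  rw [e1]
  have e2 : (if |s.im - t| ≤ h then (1 - η) * (mult F s : ℝ) else 0) =
      (mult F s : ℝ) * (if |s.im - t| ≤ h then (1 - η) else 0) := by
    split_ifs <;> ring
  rw [e2]
  refine h3.trans (le_of_eq ?_)
  ring

end

section

variable {F : ℂ → ℂ} {U1 U2 : ℝ}

/-- the first moment -/
lemma fm_use2 {ρ : ℝ → ℝ} (hρ : Continuous ρ) (hρ0 : ∀ t, 0 ≤ ρ t) (hρi : Integrable ρ)
    {A B ℓ N0 : ℝ} (hab : A ≤ B) {b : ℝ} {W : ℂ → ℂ}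
    {w : ℝ → ℂ} (hW : BW b W w) {a : ℕ → ℂ} {X : ℕ} {C ε M : ℝ}
    (h1 : ∀ t : ℝ, A ≤ t → t ≤ B →
      ‖SS F U1 U2 W 0 t - cexp (I * (0 : ℝ) * t) * PD a X w ℓ 0 t‖ ≤ C * Real.sqrt (q2 w))
    (hC : 0 ≤ C)
    (h2 : ‖(∫ t in A..B, (ρ t : ℂ) * PD a X w ℓ 0 t) - (N0 : ℂ) * gs w 0‖ ≤ ε)
    (hM : ∫ t : ℝ, ρ t ≤ M) :
    |(∫ t in A..B, ρ t * (SS F U1 U2 W 0 t).re) -
      N0 * (gs w 0).re| ≤ ε + C * Real.sqrt (q2 w) * M := by
  have hρC : Continuous (fun t => (ρ t : ℂ)) := Complex.continuous_ofReal.comp hρ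
  have hSS := SS_cont0 hW F U1 U2
  have hPD := PD_cont1 hW a X ℓ 0
  have e1 : (∫ t in A..B, ρ t * (SS F U1 U2 W 0 t).re) =
      (∫ t in A..B, (ρ t : ℂ) * SS F U1 U2 W 0 t).re := by
    have h := ContinuousLinearMap.intervalIntegral_comp_comm (μ := volume) Complex.reCLM
      (f := fun t : ℝ => (ρ t : ℂ) * SS F U1 U2 W 0 t) (a := A) (b := B)
      ((hρC.mul hSS).intervalIntegrable _ _)
    simp only [Complex.reCLM_apply] at h
    rw [← h]
    refine intervalIntegral.integral_congr fun t _ => ?_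
    exact (Complex.re_ofReal_mul _ _).symm
  have e2 : N0 * (gs w 0).re =
      ((N0 : ℂ) * gs w 0).re := by
    rw [Complex.re_ofReal_mul]
  rw [e1, e2, ← Complex.sub_re]
  refine (Complex.abs_re_le_norm _).trans ?_
  have e3 : (∫ t in A..B, (ρ t : ℂ) * SS F U1 U2 W 0 t) -
      (N0 : ℂ) * gs w 0 =
      ((∫ t in A..B, (ρ t : ℂ) *
        PD a X w ℓ 0 t) - (N0 : ℂ) * gs w 0) +
      ∫ t in A..B, (ρ t : ℂ) *
        (SS F U1 U2 W 0 t - PD a X w ℓ 0 t) := by
    have : ∫ t in A..B, (ρ t : ℂ) *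
        (SS F U1 U2 W 0 t - PD a X w ℓ 0 t) =
        (∫ t in A..B, (ρ t : ℂ) * SS F U1 U2 W 0 t) -
        ∫ t in A..B, (ρ t : ℂ) * PD a X w ℓ 0 t := by
      have c1 : Continuous fun t : ℝ => (ρ t : ℂ) * SS F U1 U2 W 0 t := hρC.mul hSS
      have c2 : Continuous fun t : ℝ => (ρ t : ℂ) * PD a X w ℓ 0 t :=
        hρC.mul hPD
      rw [← intervalIntegral.integral_sub (c1.intervalIntegrable _ _)
        (c2.intervalIntegrable _ _)]
      refine intervalIntegral.integral_congr fun t _ => ?_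
      exact mul_sub _ _ _
    rw [this]
    ring
  rw [e3]
  refine (norm_add_le _ _).trans (add_le_add h2 ?_)
  have h3 : ‖∫ t in A..B, (ρ t : ℂ) *
        (SS F U1 U2 W 0 t - PD a X w ℓ 0 t)‖ ≤
      ∫ t in A..B, ρ t * (C * Real.sqrt (q2 w)) := by
    apply (intervalIntegral.norm_integral_le_integral_norm hab).trans
    apply intervalIntegral.integral_mono_on hab
    · exact (hρC.mul (hSS.sub hPD)).norm.intervalIntegrable _ _
    · exact (hρ.mul continuous_const).intervalIntegrable _ _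
    · intro t ht
      rw [norm_mul, Complex.norm_real, Real.norm_of_nonneg (hρ0 _)]
      apply mul_le_mul_of_nonneg_left _ (hρ0 _)
      have h4 := h1 t ht.1 ht.2
      simpa using h4
  refine h3.trans ?_
  rw [intervalIntegral.integral_mul_const, mul_comm]
  apply mul_le_mul_of_nonneg_left _ (by positivity)
  refine le_trans ?_ hM
  rw [intervalIntegral.integral_of_le hab]
  exact setIntegral_le_integral (hρi)
    (Eventually.of_forall fun t => hρ0 _)

/-- the energy -/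
lemma en_use2 {ρ : ℝ → ℝ} (hρ : Continuous ρ) (hρ0 : ∀ t, 0 ≤ ρ t) (hρi : Integrable ρ)
    {A B ℓ : ℝ} (hab : A ≤ B) {b : ℝ} {W : ℂ → ℂ} {w : ℝ → ℂ} (hW : BW b W w) {a : ℕ → ℂ} {X : ℕ} {C η Λ M : ℝ} (hη : 0 < η)
    (h1 : ∀ α ∈ Set.Icc (0 : ℝ) 1, ∀ t : ℝ, A ≤ t → t ≤ B →
      ‖SS F U1 U2 W (Λ * α) t - cexp (I * (Λ * α : ℝ) * t) * PD a X w ℓ (Λ * α) t‖ ≤
        C * Real.sqrt (q2 w))
    (hM : ∫ t : ℝ, ρ t ≤ M) :
    ∫ t in A..B, ρ t *
      (2 * ∫ α in (0 : ℝ)..1, Rf α * ‖SS F U1 U2 W (Λ * α) t‖ ^ 2) ≤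
    (1 + η) * (∫ t : ℝ, ρ t * (2 * ∫ α in (0 : ℝ)..1, Rf α *
      ‖PD a X w ℓ (Λ * α) t‖ ^ 2)) +
      (1 + 1 / η) * (2 * (Rf 0 * (C ^ 2 * q2 w))) * M := by
  have hR := Rf_cont
  have hSS := SS_cont2 hW F U1 U2 Λ
  have hPD := PD_cont hW a X ℓ Λ
  have hq : 0 ≤ q2 w := integral_nonneg fun v => sq_nonneg _
  have hR0 : 0 ≤ Rf 0 := Rf_nonneg 0
  have cS : Continuous (fun t : ℝ => ∫ α in (0 : ℝ)..1, Rf α * ‖SS F U1 U2 W (Λ * α) t‖ ^ 2) := by
    apply intervalIntegral.continuous_parametric_intervalIntegral_of_continuous'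
    exact (hR.comp continuous_snd).mul (hSS.norm.pow 2)
  have cP : Continuous (fun t : ℝ => ∫ α in (0 : ℝ)..1, Rf α *
      ‖PD a X w ℓ (Λ * α) t‖ ^ 2) := by
    apply intervalIntegral.continuous_parametric_intervalIntegral_of_continuous'
    exact (hR.comp continuous_snd).mul (hPD.norm.pow 2)
  obtain ⟨M', hM'0, hM'⟩ := PD_bdd hW a X ℓ
  have hPnn : ∀ t : ℝ, 0 ≤ ∫ α in (0 : ℝ)..1, Rf α * ‖PD a X w ℓ (Λ * α) t‖ ^ 2 :=
    fun t => intervalIntegral.integral_nonneg zero_le_one fun α _ =>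
      mul_nonneg (Rf_nonneg _) (sq_nonneg _)
  have hPb : ∀ t : ℝ, ∫ α in (0 : ℝ)..1, Rf α * ‖PD a X w ℓ (Λ * α) t‖ ^ 2 ≤
      Rf 0 * M' ^ 2 := by
    intro t
    have hct : Continuous (fun α : ℝ => Rf α * ‖PD a X w ℓ (Λ * α) t‖ ^ 2) := by
      have := hPD.comp (by fun_prop : Continuous fun α : ℝ => ((t, α) : ℝ × ℝ))
      exact hR.mul (this.norm.pow 2)
    calc ∫ α in (0 : ℝ)..1, Rf α * ‖PD a X w ℓ (Λ * α) t‖ ^ 2 ≤
        ∫ α in (0 : ℝ)..1, Rf 0 * M' ^ 2 := by
          apply intervalIntegral.integral_mono_on zero_le_one (hct.intervalIntegrable _ _)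
            (continuous_const.intervalIntegrable _ _)
          intro α hα
          exact mul_le_mul (Rf_le α hα.1) (pow_le_pow_left₀ (norm_nonneg _) (hM' _ _) 2)
            (sq_nonneg _) hR0
      _ = _ := by rw [intervalIntegral.integral_const]; simp
  have hPint : Integrable (fun t : ℝ => ρ t * (2 * ∫ α in (0 : ℝ)..1, Rf α *
      ‖PD a X w ℓ (Λ * α) t‖ ^ 2)) := by
    refine ((hρi).mul_const (2 * (Rf 0 * M' ^ 2))).mono'
      (hρ.mul (continuous_const.mul cP)).aestronglyMeasurable (Eventually.of_forall fun t => ?_)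
    have := hPnn t
    have := hρ0 t
    rw [Real.norm_of_nonneg (by positivity)]
    gcongr
    exact hPb t
  -- pointwise
  have hpt : ∀ t ∈ Set.Icc A B, ρ t *
      (2 * ∫ α in (0 : ℝ)..1, Rf α * ‖SS F U1 U2 W (Λ * α) t‖ ^ 2) ≤
      (1 + η) * (ρ t * (2 * ∫ α in (0 : ℝ)..1, Rf α *
      ‖PD a X w ℓ (Λ * α) t‖ ^ 2)) +
      (1 + 1 / η) * (2 * (Rf 0 * (C ^ 2 * q2 w))) * ρ t := by
    intro t ht
    have hct : Continuous (fun α : ℝ => Rf α * ‖PD a X w ℓ (Λ * α) t‖ ^ 2) := by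
      have := hPD.comp (by fun_prop : Continuous fun α : ℝ => ((t, α) : ℝ × ℝ))
      exact hR.mul (this.norm.pow 2)
    have hcs : Continuous (fun α : ℝ => Rf α * ‖SS F U1 U2 W (Λ * α) t‖ ^ 2) := by
      have := hSS.comp (by fun_prop : Continuous fun α : ℝ => ((t, α) : ℝ × ℝ))
      exact hR.mul (this.norm.pow 2)
    have h2 : ∫ α in (0 : ℝ)..1, Rf α * ‖SS F U1 U2 W (Λ * α) t‖ ^ 2 ≤
        (1 + η) * (∫ α in (0 : ℝ)..1, Rf α * ‖PD a X w ℓ (Λ * α) t‖ ^ 2) +
        (1 + 1 / η) * (Rf 0 * (C ^ 2 * q2 w)) := by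
      calc ∫ α in (0 : ℝ)..1, Rf α * ‖SS F U1 U2 W (Λ * α) t‖ ^ 2 ≤
          ∫ α in (0 : ℝ)..1, ((1 + η) * (Rf α * ‖PD a X w ℓ (Λ * α) t‖ ^ 2) +
            (1 + 1 / η) * (Rf 0 * (C ^ 2 * q2 w))) := by
            apply intervalIntegral.integral_mono_on zero_le_one (hcs.intervalIntegrable _ _)
            · exact ((continuous_const.mul hct).add continuous_const).intervalIntegrable _ _
            · intro α hα
              have h3 := h1 α hα t ht.1 ht.2
              set p := cexp (I * (Λ * α : ℝ) * t) * PD a X w ℓ (Λ * α) t with hp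
              have h4 := sq_young (x := p) (y := SS F U1 U2 W (Λ * α) t - p) hη
              rw [add_sub_cancel] at h4
              have h5 : ‖p‖ = ‖PD a X w ℓ (Λ * α) t‖ := by
                rw [hp, norm_mul, show (I * (Λ * α : ℝ) * t : ℂ) = ((Λ * α * t : ℝ) : ℂ) * I by
                  push_cast; ring, Complex.norm_exp_ofReal_mul_I, one_mul]
              rw [h5] at h4
              have h6 : ‖SS F U1 U2 W (Λ * α) t - p‖ ^ 2 ≤ C ^ 2 * q2 w := by
                calc ‖SS F U1 U2 W (Λ * α) t - p‖ ^ 2 ≤ (C * Real.sqrt (q2 w)) ^ 2 :=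
                      pow_le_pow_left₀ (norm_nonneg _) h3 2
                  _ = C ^ 2 * q2 w := by rw [mul_pow, Real.sq_sqrt hq]
              have hRα := Rf_nonneg α
              have hRα' := Rf_le α hα.1
              have h7 : (0 : ℝ) ≤ 1 + 1 / η := by positivity
              calc Rf α * ‖SS F U1 U2 W (Λ * α) t‖ ^ 2 ≤
                  Rf α * ((1 + η) * ‖PD a X w ℓ (Λ * α) t‖ ^ 2 +
                    (1 + 1 / η) * ‖SS F U1 U2 W (Λ * α) t - p‖ ^ 2) :=
                    mul_le_mul_of_nonneg_left h4 hRα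
                _ = (1 + η) * (Rf α * ‖PD a X w ℓ (Λ * α) t‖ ^ 2) +
                    (1 + 1 / η) * (Rf α * ‖SS F U1 U2 W (Λ * α) t - p‖ ^ 2) := by ring
                _ ≤ _ := by
                    gcongr
        _ = _ := by
            have c1 : Continuous fun α : ℝ => (1 + η) * (Rf α *
                ‖PD a X w ℓ (Λ * α) t‖ ^ 2) := continuous_const.mul hct
            rw [intervalIntegral.integral_add (c1.intervalIntegrable _ _)
              (continuous_const.intervalIntegrable _ _), intervalIntegral.integral_const_mul,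
              intervalIntegral.integral_const]
            simp
    have h3 := mul_le_mul_of_nonneg_left h2 (hρ0 t)
    calc ρ t * (2 * ∫ α in (0 : ℝ)..1, Rf α * ‖SS F U1 U2 W (Λ * α) t‖ ^ 2) =
        2 * (ρ t * ∫ α in (0 : ℝ)..1, Rf α * ‖SS F U1 U2 W (Λ * α) t‖ ^ 2) := by ring
      _ ≤ 2 * (ρ t * ((1 + η) * (∫ α in (0 : ℝ)..1, Rf α *
          ‖PD a X w ℓ (Λ * α) t‖ ^ 2) +
        (1 + 1 / η) * (Rf 0 * (C ^ 2 * q2 w)))) := by linarith
      _ = _ := by ring
  calc ∫ t in A..B, ρ t *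
      (2 * ∫ α in (0 : ℝ)..1, Rf α * ‖SS F U1 U2 W (Λ * α) t‖ ^ 2) ≤
      ∫ t in A..B, ((1 + η) * (ρ t * (2 * ∫ α in (0 : ℝ)..1, Rf α *
      ‖PD a X w ℓ (Λ * α) t‖ ^ 2)) +
      (1 + 1 / η) * (2 * (Rf 0 * (C ^ 2 * q2 w))) * ρ t) := by
        apply intervalIntegral.integral_mono_on hab
          ((hρ.mul (continuous_const.mul cS)).intervalIntegrable _ _) _ hpt
        exact ((continuous_const.mul (hρ.mul (continuous_const.mul cP))).add
          (continuous_const.mul hρ)).intervalIntegrable _ _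
    _ = (1 + η) * (∫ t in A..B, ρ t * (2 * ∫ α in (0 : ℝ)..1, Rf α *
      ‖PD a X w ℓ (Λ * α) t‖ ^ 2)) +
      (1 + 1 / η) * (2 * (Rf 0 * (C ^ 2 * q2 w))) *
        ∫ t in A..B, ρ t := by
        have c1 : Continuous fun t : ℝ => (1 + η) * (ρ t * (2 * ∫ α in (0 : ℝ)..1, Rf α *
            ‖PD a X w ℓ (Λ * α) t‖ ^ 2)) :=
          continuous_const.mul (hρ.mul (continuous_const.mul cP))
        have c2 : Continuous fun t : ℝ => (1 + 1 / η) * (2 * (Rf 0 * (C ^ 2 * q2 w))) *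
            ρ t := continuous_const.mul hρ
        rw [intervalIntegral.integral_add (c1.intervalIntegrable _ _)
          (c2.intervalIntegrable _ _), intervalIntegral.integral_const_mul,
          intervalIntegral.integral_const_mul]
    _ ≤ _ := by
        apply add_le_add
        · apply mul_le_mul_of_nonneg_left _ (by positivity)
          rw [intervalIntegral.integral_of_le hab]
          apply setIntegral_le_integral hPint
          refine Eventually.of_forall fun t => ?_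
          have := hPnn t
          have := hρ0 t
          simp only [Pi.zero_apply]
          positivity
        · apply mul_le_mul_of_nonneg_left _ (by positivity)
          refine le_trans ?_ hM
          rw [intervalIntegral.integral_of_le hab]
          exact setIntegral_le_integral (hρi)
            (Eventually.of_forall fun t => hρ0 _)


end

end Pool.Agent.N802.U
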